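import Pool.Agent.Lib.MP_018119_an_FB.Hopf

/-!
# MP_018119_an, project FB: normalised coordinate near the boundary of a strip

For a positive periodic harmonic function `b` in the strip `0 < re z < S` with `b → 0` at the left
line there is a conformal periodic change of variables near this line after which `b` is a multiple
of the real part.
-/

set_option autoImplicit false

open Topology Filter Set Metric

namespace Pool.Agent.FB018

/-- Functions with positive real part of the derivative are injective on convex sets. -/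
theorem injOn_of_re_deriv {f : ℂ → ℂ} {U : Set ℂ} (hU : IsOpen U) (hc : Convex ℝ U)
    (hf : DifferentiableOn ℂ f U) (hp : ∀ z ∈ U, 0 < (deriv f z).re) : InjOn f U := by
  intro z hz w hw h
  by_contra hne
  have hd : w - z ≠ 0 := sub_ne_zero.2 (Ne.symm hne)
  have hseg : ∀ s ∈ Icc (0:ℝ) 1, z + s * (w - z) ∈ U := by
    intro s hs
    have := hc hz hw (sub_nonneg.2 hs.2) hs.1 (by ring)
    convert this using 1
    simp only [Complex.real_smul]
    push_cast
    ring
  set g : ℝ → ℝ := fun s => (f (z + s * (w - z)) / (w - z)).re with hg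
  have hgd : ∀ s ∈ Icc (0:ℝ) 1, HasDerivAt g ((deriv f (z + s * (w - z))).re) s := by
    intro s hs
    have h1 := ((hf _ (hseg s hs)).differentiableAt (hU.mem_nhds (hseg s hs))).hasDerivAt
    have h2 : HasDerivAt (fun s : ℂ => z + s * (w - z)) (w - z) (s : ℂ) := by
      simpa using ((hasDerivAt_id (s : ℂ)).mul_const (w - z)).const_add z
    have h3 : HasDerivAt (fun s : ℂ => f (z + s * (w - z)) / (w - z))
        (deriv f (z + s * (w - z))) (s : ℂ) := by
      refine ((h1.comp (s : ℂ) h2).div_const (w - z)).congr_deriv ?_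
      field_simp
    exact h3.real_of_complex
  have h01 : g 0 < g 1 := by
    have hcont : ContinuousOn g (Icc 0 1) := fun s hs => (hgd s hs).continuousAt.continuousWithinAt
    refine (strictMonoOn_of_deriv_pos (convex_Icc (0:ℝ) 1) hcont ?_) (left_mem_Icc.2 zero_le_one)
      (right_mem_Icc.2 zero_le_one) zero_lt_one
    intro s hs
    rw [interior_Icc] at hs
    rw [(hgd s (Ioo_subset_Icc_self hs)).deriv]
    exact hp _ (hseg s (Ioo_subset_Icc_self hs))
  have e0 : g 0 = (f z / (w - z)).re := by simp [hg]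
  have e1 : g 1 = (f w / (w - z)).re := by simp [hg]
  rw [e0, e1, h] at h01
  exact lt_irrefl _ h01

/-- The period of the conjugate function is positive. -/
theorem Col.kappa_pos {b : ℂ → ℝ} {S : ℝ} (h : Col b S) {H : ℂ → ℂ} {κ : ℝ}
    (hH : DifferentiableOn ℂ H {z : ℂ | 0 < z.re ∧ z.re < S})
    (hκ : ∀ z : ℂ, 0 < z.re → z.re < S → H (z + 2 * Real.pi * Complex.I) = H z + κ * Complex.I)
    {s c : ℝ} (hs : 0 < s) (hsS : s < S) (hc : 0 < c)
    (hder : ∀ z : ℂ, 0 < z.re → z.re < s → c ≤ (deriv H z).re) : 0 < κ := by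
  have hS := h.pos
  set z₀ : ℂ := ((s / 2 : ℝ) : ℂ) with hz₀
  have hzr : ∀ t : ℝ, (z₀ + t * Complex.I).re = s / 2 := fun t => by simp [hz₀]
  have hin : ∀ t : ℝ, 0 < (z₀ + t * Complex.I).re ∧ (z₀ + t * Complex.I).re < s := fun t => by
    rw [hzr]; constructor <;> linarith
  have hd : ∀ t : ℝ, HasDerivAt (fun t : ℝ => (H (z₀ + t * Complex.I)).im)
      (deriv H (z₀ + t * Complex.I)).re t := by
    intro t
    have h1 : HasDerivAt H (deriv H (z₀ + t * Complex.I)) (z₀ + t * Complex.I) :=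
      (hH.differentiableAt ((isOpen_strip 0 S).mem_nhds
        ⟨(hin t).1, (hin t).2.trans hsS⟩)).hasDerivAt
    have h2 : HasDerivAt (fun x : ℂ => z₀ + x * Complex.I) Complex.I (t : ℂ) := by
      simpa using ((hasDerivAt_id (t : ℂ)).mul_const Complex.I).const_add z₀
    have h3 := (h1.comp (t : ℂ) h2)
    have h4 : HasDerivAt (fun x : ℂ => -Complex.I * H (z₀ + x * Complex.I))
        (deriv H (z₀ + t * Complex.I)) (t : ℂ) := by
      refine (h3.const_mul (-Complex.I)).congr_deriv ?_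
      linear_combination (-(deriv H (z₀ + t * Complex.I))) * Complex.I_mul_I
    refine h4.real_of_complex.congr_of_eventuallyEq (Eventually.of_forall fun x => ?_)
    simp
  have h1 := mul_sub_le_image_sub_of_le_deriv (f := fun t : ℝ => (H (z₀ + t * Complex.I)).im)
    (fun t => (hd t).differentiableAt) (C := c)
    (fun t => by rw [(hd t).deriv]; exact hder _ (hin t).1 (hin t).2) Real.two_pi_pos.le
  have h2 : H (z₀ + ((2 * Real.pi : ℝ) : ℂ) * Complex.I) = H (z₀ + ((0 : ℝ) : ℂ) * Complex.I) +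
      κ * Complex.I := by
    have h3 := hκ (z₀ + ((0 : ℝ) : ℂ) * Complex.I) (hin 0).1 ((hin 0).2.trans hsS)
    rw [← h3]
    congr 1
    push_cast
    ring
  have h3 : (H (z₀ + ((2 * Real.pi : ℝ) : ℂ) * Complex.I)).im -
      (H (z₀ + ((0 : ℝ) : ℂ) * Complex.I)).im = κ := by
    rw [h2]
    simp
  have h4 : 0 < c * (2 * Real.pi - 0) := by
    rw [sub_zero]; exact mul_pos hc Real.two_pi_pos
  have h5 : c * (2 * Real.pi - 0) ≤ κ := by
    rw [← h3]; exact h1
  linarith

/-- Normalised coordinate `E` near the left line (for `0 < re z < s`) and its inverse `lam`, which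
is defined for `0 < re w < w₁`. -/
structure Clr (b : ℂ → ℝ) (S w₁ p s c δ : ℝ) (lam E : ℂ → ℂ) : Prop where
  w₁pos : 0 < w₁
  ppos : 0 < p
  spos : 0 < s
  s_lt : s < S
  cpos : 0 < c
  lam_hol : DifferentiableOn ℂ lam {w : ℂ | 0 < w.re ∧ w.re < w₁}
  lam_pos : ∀ w : ℂ, 0 < w.re → w.re < w₁ → 0 < (lam w).re
  lam_lt : ∀ w : ℂ, 0 < w.re → w.re < w₁ → (lam w).re < S
  b_lam : ∀ w : ℂ, 0 < w.re → w.re < w₁ → b (lam w) = p * w.re
  lam_per : ∀ w : ℂ, 0 < w.re → w.re < w₁ →
    lam (w + 2 * Real.pi * Complex.I) = lam w + 2 * Real.pi * Complex.I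
  lam_inj : InjOn lam {w : ℂ | 0 < w.re ∧ w.re < w₁}
  E_hol : DifferentiableOn ℂ E {z : ℂ | 0 < z.re ∧ z.re < s}
  b_E : ∀ z : ℂ, 0 < z.re → z.re < s → b z = p * (E z).re
  E_per : ∀ z : ℂ, 0 < z.re → z.re < s →
    E (z + 2 * Real.pi * Complex.I) = E z + 2 * Real.pi * Complex.I
  E_der : ∀ z : ℂ, 0 < z.re → z.re < s → c ≤ (deriv E z).re
  δpos : 0 < δ
  δs : δ ≤ s
  E_pos : ∀ z : ℂ, 0 < z.re → z.re < δ → 0 < (E z).re
  E_lt : ∀ z : ℂ, 0 < z.re → z.re < δ → (E z).re < w₁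
  lam_E : ∀ z : ℂ, 0 < z.re → z.re < δ → lam (E z) = z

/-- Normalised coordinate. -/
theorem Col.exists_clr {b : ℂ → ℝ} {S : ℝ} (h : Col b S) :
    ∃ (w₁ p s c δ : ℝ) (lam E : ℂ → ℂ), Clr b S w₁ p s c δ lam E := by
  obtain ⟨H, κ, hH, hre, hκ⟩ := h.exists_H
  obtain ⟨s, hs, hsS, c, hc, hder⟩ := h.hopf hH hre hκ
  have hκ0 : 0 < κ := h.kappa_pos hH hκ hs hsS hc hder
  have hpi := Real.pi_pos
  set p : ℝ := κ / (2 * Real.pi) with hp
  have hp0 : 0 < p := by positivity
  have hpc : (p : ℂ) ≠ 0 := by exact_mod_cast hp0.ne'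
  set E : ℂ → ℂ := fun z => H z / p with hE
  set U₀ : Set ℂ := {z : ℂ | 0 < z.re ∧ z.re < s} with hU₀
  have hU₀o : IsOpen U₀ := isOpen_strip 0 s
  have hU₀c : Convex ℝ U₀ := convex_strip 0 s
  have hU₀V : U₀ ⊆ {z : ℂ | 0 < z.re ∧ z.re < S} := fun z hz => ⟨hz.1, hz.2.trans hsS⟩
  have hHd : ∀ z ∈ U₀, HasDerivAt H (deriv H z) z := fun z hz =>
    (hH.differentiableAt ((isOpen_strip 0 S).mem_nhds (hU₀V hz))).hasDerivAt
  have hEd : ∀ z ∈ U₀, HasDerivAt E (deriv H z / p) z := fun z hz => (hHd z hz).div_const _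
  have hEdiff : DifferentiableOn ℂ E U₀ := fun z hz =>
    (hEd z hz).differentiableAt.differentiableWithinAt
  have hEre : ∀ z ∈ U₀, b z = p * (E z).re := by
    intro z hz
    rw [← hre z hz.1 (hz.2.trans hsS)]
    simp only [hE, Complex.div_ofReal_re]
    field_simp
  have hEper : ∀ z ∈ U₀, E (z + 2 * Real.pi * Complex.I) = E z + 2 * Real.pi * Complex.I := by
    intro z hz
    simp only [hE]
    rw [hκ z hz.1 (hz.2.trans hsS), add_div]
    congr 1
    have h1 : (κ : ℂ) = p * (2 * Real.pi) := by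
      rw [hp]
      push_cast
      have : (Real.pi : ℂ) ≠ 0 := by exact_mod_cast hpi.ne'
      field_simp
    rw [h1]
    field_simp
  have hEinj : InjOn E U₀ := by
    refine injOn_of_re_deriv hU₀o hU₀c hEdiff fun z hz => ?_
    rw [(hEd z hz).deriv, Complex.div_ofReal_re]
    exact div_pos (hc.trans_le (hder z hz.1 hz.2)) hp0
  have hmem : ∀ (z : ℂ) (n : ℤ), z ∈ U₀ → z + n • (2 * Real.pi * Complex.I : ℂ) ∈ U₀ := by
    intro z n hz
    constructor
    · simpa using hz.1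
    · simpa using hz.2
  have hEpern : ∀ (n : ℕ) (z : ℂ), z ∈ U₀ → E (z + n • (2 * Real.pi * Complex.I : ℂ)) =
      E z + n • (2 * Real.pi * Complex.I : ℂ) := by
    intro n
    induction n with
    | zero => intro z _; simp
    | succ n ih =>
      intro z hz
      have h1 : z + (n + 1) • (2 * Real.pi * Complex.I : ℂ) =
          (z + n • (2 * Real.pi * Complex.I : ℂ)) + 2 * Real.pi * Complex.I := by
        rw [succ_nsmul]; ring
      have h2 : z + n • (2 * Real.pi * Complex.I : ℂ) ∈ U₀ := by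
        have := hmem z n hz
        simpa using this
      rw [h1, hEper _ h2, ih z hz, succ_nsmul]
      ring
  have hEperz : ∀ (n : ℤ) (z : ℂ), z ∈ U₀ → E (z + n • (2 * Real.pi * Complex.I : ℂ)) =
      E z + n • (2 * Real.pi * Complex.I : ℂ) := by
    intro n z hz
    rcases Int.eq_nat_or_neg n with ⟨m, hm | hm⟩
    · rw [hm]
      simpa using hEpern m z hz
    · have h1 := hEpern m _ (hmem z n hz)
      have h2 : z + n • (2 * Real.pi * Complex.I : ℂ) + m • (2 * Real.pi * Complex.I : ℂ) = z := by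
        rw [hm]; simp
      rw [h2] at h1
      rw [hm] at h1 ⊢
      rw [h1]
      simp
  -- open map
  have hEopen : ∀ N ⊆ U₀, IsOpen N → IsOpen (E '' N) := by
    rcases (hEdiff.analyticOnNhd hU₀o).is_constant_or_isOpen hU₀c.isPreconnected with ⟨w, hw⟩ | h1
    · exfalso
      have h1 : ((s / 2 : ℝ) : ℂ) ∈ U₀ := by
        constructor <;> rw [Complex.ofReal_re] <;> linarith
      have h2 : ((s / 3 : ℝ) : ℂ) ∈ U₀ := by
        constructor <;> rw [Complex.ofReal_re] <;> linarith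
      have h3 := hEinj h1 h2 (by rw [hw _ h1, hw _ h2])
      have h4 : s / 2 = s / 3 := by exact_mod_cast h3
      linarith
    · exact h1
  set s₁ : ℝ := s / 2 with hs₁
  have hs₁0 : 0 < s₁ := by positivity
  have hs₁s : s₁ < s := by rw [hs₁]; linarith
  set U₁ : Set ℂ := {z : ℂ | 0 < z.re ∧ z.re < s₁} with hU₁
  have hU₁₀ : U₁ ⊆ U₀ := fun z hz => ⟨hz.1, hz.2.trans hs₁s⟩
  obtain ⟨c', hc', hlow⟩ := h.lower hs₁0 (hs₁s.trans hsS)
  set w₁ : ℝ := c' * s₁ / p with hw₁
  have hw₁0 : 0 < w₁ := by positivity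
  have hpw : p * w₁ = c' * s₁ := by rw [hw₁]; field_simp
  set W : Set ℂ := {w : ℂ | 0 < w.re ∧ w.re < w₁} with hW
  obtain ⟨δ₁, hδ₁, hlim₁⟩ := h.lim (p * w₁) (by positivity)
  set δ : ℝ := min δ₁ s₁ with hδ
  have hδ0 : 0 < δ := by positivity
  have hsmall : ∀ z : ℂ, 0 < z.re → z.re < δ → z ∈ U₁ ∧ E z ∈ W := by
    intro z hz1 hz2
    have h1 : z ∈ U₁ := ⟨hz1, hz2.trans_le (min_le_right _ _)⟩
    have h2 := hEre z (hU₁₀ h1)
    have h3 := hlim₁ z hz1 (hz2.trans_le (min_le_left _ _))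
    have h4 := h.bpos z hz1 ((hU₁₀ h1).2.trans hsS)
    refine ⟨h1, ?_, ?_⟩
    · rw [h2] at h4
      exact pos_of_mul_pos_right h4 hp0.le
    · rw [h2] at h3
      exact lt_of_mul_lt_mul_left h3 hp0.le
  -- every point of `W` is a value on `U₁`
  have honto : W ⊆ E '' U₁ := by
    refine (convex_strip 0 w₁).isPreconnected.subset_of_closure_inter_subset
      (hEopen U₁ hU₁₀ (isOpen_strip 0 s₁)) ?_ ?_
    · have h1 := hsmall ((δ / 2 : ℝ) : ℂ) (by rw [Complex.ofReal_re]; positivity)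
        (by rw [Complex.ofReal_re]; linarith)
      exact ⟨_, h1.2, _, h1.1, rfl⟩
    · rintro w ⟨hwc, hwW⟩
      have hw0 : 0 < w.re := hwW.1
      obtain ⟨δ₂, hδ₂, hlim₂⟩ := h.lim (p * (w.re / 2)) (by positivity)
      set K : Set ℂ := {z : ℂ | (δ₂ ≤ z.re ∧ z.re ≤ s₁) ∧ 0 ≤ z.im ∧ z.im ≤ 2 * Real.pi} with hK
      have hKc : IsCompact K := isCompact_rect δ₂ s₁
      have hKU : K ⊆ U₀ := fun z hz => ⟨hδ₂.trans_le hz.1.1, hz.1.2.trans_lt hs₁s⟩
      have hcE : ContinuousOn (fun z => Complex.exp (E z)) K := fun z hz =>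
        ((hEd z (hKU hz)).continuousAt.cexp).continuousWithinAt
      have hcl : IsClosed ((fun z => Complex.exp (E z)) '' K) := (hKc.image_of_continuousOn hcE).isClosed
      have hmem2 : Complex.exp w ∈ (fun z => Complex.exp (E z)) '' K := by
        rw [← hcl.closure_eq, mem_closure_iff_nhds]
        intro N hN
        have h1 : ∀ᶠ x in 𝓝 w, Complex.exp x ∈ N := Complex.continuous_exp.continuousAt hN
        have h2 : ∀ᶠ x : ℂ in 𝓝 w, w.re / 2 < x.re :=
          Complex.continuous_re.continuousAt.eventually_const_lt (by linarith)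
        obtain ⟨x, hx, hxR⟩ := mem_closure_iff_nhds.1 hwc _ (h1.and h2)
        obtain ⟨z, hz, rfl⟩ := hxR
        obtain ⟨n, hn1, hn2⟩ := exists_period z
        set z' := z - n • (2 * Real.pi * Complex.I : ℂ) with hz'
        have hz'U : z' ∈ U₀ := by
          have := hmem z (-n) (hU₁₀ hz)
          rw [neg_smul, ← sub_eq_add_neg] at this
          exact this
        have h3 : E z = E z' + n • (2 * Real.pi * Complex.I : ℂ) := by
          rw [← hEperz n z' hz'U, hz', sub_add_cancel]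
        refine ⟨Complex.exp (E z), hx.1, z', ⟨⟨?_, ?_⟩, hn1, hn2.le⟩, ?_⟩
        · by_contra hcon
          push Not at hcon
          have h4 := hlim₂ z' hz'U.1 hcon
          have h5 : b z' = b z := by
            rw [hEre z' hz'U, hEre z (hU₁₀ hz), h3]
            simp
          rw [h5, hEre z (hU₁₀ hz)] at h4
          have h6 := lt_of_mul_lt_mul_left h4 hp0.le
          have h7 : w.re / 2 < (E z).re := hx.2
          linarith
        · rw [hz', re_period]
          exact hz.2.le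
        · show Complex.exp (E z') = Complex.exp (E z)
          rw [h3, Complex.exp_eq_exp_iff_exists_int]
          refine ⟨-n, ?_⟩
          simp
      obtain ⟨z, hz, hze⟩ := hmem2
      have hze : Complex.exp (E z) = Complex.exp w := hze
      rw [eq_comm, Complex.exp_eq_exp_iff_exists_int] at hze
      obtain ⟨n, hn⟩ := hze
      have h1 : w = E (z + n • (2 * Real.pi * Complex.I : ℂ)) := by
        rw [hEperz n z (hKU hz), hn]
        simp
      have h2 : (z + n • (2 * Real.pi * Complex.I : ℂ)).re = z.re := by simp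
      refine ⟨z + n • (2 * Real.pi * Complex.I : ℂ), ⟨?_, ?_⟩, h1.symm⟩
      · rw [h2]; exact (hKU hz).1
      · rw [h2]
        refine lt_of_le_of_ne hz.1.2 fun h3 => ?_
        have h4 := hlow z (by rw [h3]; exact hs₁0) h3.le
        rw [h3, ← hpw, hEre z (hKU hz)] at h4
        have h5 := le_of_mul_le_mul_left h4 hp0
        have h6 : w.re = (E z).re := by rw [hn]; simp
        have h7 : w.re < w₁ := hwW.2
        linarith
  set lam : ℂ → ℂ := Function.invFunOn E U₁ with hlam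
  have hlU : ∀ w ∈ W, lam w ∈ U₁ := fun w hw => Function.invFunOn_mem (honto hw)
  have hlE : ∀ w ∈ W, E (lam w) = w := fun w hw => Function.invFunOn_eq (honto hw)
  have huniq : ∀ w ∈ W, ∀ z ∈ U₁, E z = w → lam w = z := by
    intro w hw z hz hzw
    exact hEinj (hU₁₀ (hlU w hw)) (hU₁₀ hz) (by rw [hlE w hw, hzw])
  have hWo : IsOpen W := isOpen_strip 0 w₁
  have hcont : ∀ w ∈ W, ContinuousAt lam w := by
    intro w hw
    rw [ContinuousAt, (nhds_basis_opens (lam w)).tendsto_right_iff]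
    rintro N ⟨hN1, hN2⟩
    have h1 : IsOpen (E '' (N ∩ U₁)) :=
      hEopen _ (inter_subset_right.trans hU₁₀) (hN2.inter (isOpen_strip 0 s₁))
    have h2 : w ∈ E '' (N ∩ U₁) := ⟨lam w, ⟨hN1, hlU w hw⟩, hlE w hw⟩
    filter_upwards [h1.mem_nhds h2, hWo.mem_nhds hw] with x hx hxW
    obtain ⟨z, hz, hzx⟩ := hx
    rw [huniq x hxW z hz.2 hzx]
    exact hz.1
  refine ⟨w₁, p, s, c / p, δ, lam, E, ⟨hw₁0, hp0, hs, hsS, by positivity, ?_, ?_, ?_, ?_, ?_, ?_,
    hEdiff, fun z h1 h2 => hEre z ⟨h1, h2⟩, fun z h1 h2 => hEper z ⟨h1, h2⟩, ?_, hδ0,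
    (min_le_right _ _).trans hs₁s.le, fun z h1 h2 => (hsmall z h1 h2).2.1,
    fun z h1 h2 => (hsmall z h1 h2).2.2, ?_⟩⟩
  · intro w hw
    have hz := hU₁₀ (hlU w hw)
    have h1 := HasDerivAt.of_local_left_inverse (hcont w hw) (hEd (lam w) hz) ?_ ?_
    · exact h1.differentiableAt.differentiableWithinAt
    · intro h0
      have h2 := hder (lam w) hz.1 hz.2
      have h3 : deriv H (lam w) = 0 := by
        rcases div_eq_zero_iff.1 h0 with h3 | h3
        · exact h3
        · exact absurd h3 hpc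
      rw [h3, Complex.zero_re] at h2
      linarith
    · filter_upwards [hWo.mem_nhds hw] with x hx
      exact hlE x hx
  · exact fun w hw1 hw2 => (hlU w ⟨hw1, hw2⟩).1
  · exact fun w hw1 hw2 => (hU₁₀ (hlU w ⟨hw1, hw2⟩)).2.trans hsS
  · intro w hw1 hw2
    rw [hEre _ (hU₁₀ (hlU w ⟨hw1, hw2⟩)), hlE w ⟨hw1, hw2⟩]
  · intro w hw1 hw2
    have hw : w ∈ W := ⟨hw1, hw2⟩
    have hz := hlU w hw
    have h1 : w + 2 * Real.pi * Complex.I ∈ W := by
      constructor <;> simp [hw1, hw2]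
    have h2 : lam w + 2 * Real.pi * Complex.I ∈ U₁ := by
      constructor
      · simpa using hz.1
      · simpa using hz.2
    exact huniq _ h1 _ h2 (by rw [hEper _ (hU₁₀ hz), hlE w hw])
  · intro x hx y hy hxy
    rw [← hlE x hx, ← hlE y hy, hxy]
  · intro z h1 h2
    rw [(hEd z ⟨h1, h2⟩).deriv, Complex.div_ofReal_re]
    exact div_le_div_of_nonneg_right (hder z h1 h2) hp0.le
  · intro z hz1 hz2
    obtain ⟨h1, h2⟩ := hsmall z hz1 hz2
    exact huniq _ h2 z h1 rfl

/-- Normalised coordinate. -/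
theorem Col.collar {b : ℂ → ℝ} {S : ℝ} (h : Col b S) :
    ∃ (w₁ p : ℝ) (lam : ℂ → ℂ), 0 < w₁ ∧ 0 < p ∧
      DifferentiableOn ℂ lam {w : ℂ | 0 < w.re ∧ w.re < w₁} ∧
      (∀ w : ℂ, 0 < w.re → w.re < w₁ → 0 < (lam w).re ∧ (lam w).re < S ∧
        b (lam w) = p * w.re ∧
        lam (w + 2 * Real.pi * Complex.I) = lam w + 2 * Real.pi * Complex.I) ∧
      InjOn lam {w : ℂ | 0 < w.re ∧ w.re < w₁} ∧
      ∃ δ > 0, ∀ z : ℂ, 0 < z.re → z.re < δ → ∃ w : ℂ, 0 < w.re ∧ w.re < w₁ ∧ lam w = z := by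
  obtain ⟨w₁, p, s, c, δ, lam, E, H⟩ := h.exists_clr
  exact ⟨w₁, p, lam, H.w₁pos, H.ppos, H.lam_hol, fun w h1 h2 => ⟨H.lam_pos w h1 h2,
    H.lam_lt w h1 h2, H.b_lam w h1 h2, H.lam_per w h1 h2⟩, H.lam_inj, δ, H.δpos,
    fun z h1 h2 => ⟨E z, H.E_pos z h1 h2, H.E_lt z h1 h2, H.lam_E z h1 h2⟩⟩

end Pool.Agent.FB018
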