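import Pool.Agent.Lib.MP_018119_an_FB.DDefs

/-!
# MP_018119_an, project FB, discrete half: maximum principle

Maximum principle on a finite set `I` of lattice points, with the values on the outer neighbours
of `I` only.
-/

set_option autoImplicit false

open Topology Filter Set Metric

namespace Pool.Agent.FB018D

/-- Maximum principle. -/
theorem max_sub (I : Set Z2) (hI : I.Finite) (f : Z2 → ℝ) (m : ℝ)
    (hs : ∀ q ∈ I, La f q ≤ 0)
    (hb : ∀ q ∈ I, ∀ q', Nb q q' → q' ∉ I → f q' ≤ m) : ∀ q ∈ I, f q ≤ m := by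
  intro q hq
  by_contra hcon
  push Not at hcon
  obtain ⟨q0, hq0, hmax⟩ := Set.exists_max_image I f hI ⟨q, hq⟩
  have hm : m < f q0 := lt_of_lt_of_le hcon (hmax q hq)
  have hJ : {x ∈ I | f x = f q0}.Finite := hI.subset (fun x hx => hx.1)
  obtain ⟨q1, hq1, hmax1⟩ := Set.exists_max_image {x ∈ I | f x = f q0} (fun x => x.1) hJ
    ⟨q0, hq0, rfl⟩
  have hnb : ∀ q', Nb q1 q' → f q' ≤ f q0 := by
    intro q' hq'
    by_cases h : q' ∈ I
    · exact hmax q' h
    · exact (hb q1 hq1.1 q' hq' h).trans hm.le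
  have hr : f (q1 + (1, 0)) < f q0 := by
    by_cases h : q1 + (1, 0) ∈ I
    · refine lt_of_le_of_ne (hmax _ h) fun he => ?_
      have := hmax1 _ ⟨h, he⟩
      simp only [Prod.fst_add] at this
      omega
    · exact lt_of_le_of_lt (hb q1 hq1.1 _ (Or.inl rfl) h) hm
  have h2 := hnb (q1 - (1, 0)) (Or.inr (Or.inl rfl))
  have h3 := hnb (q1 + (0, 1)) (Or.inr (Or.inr (Or.inl rfl)))
  have h4 := hnb (q1 - (0, 1)) (Or.inr (Or.inr (Or.inr rfl)))
  have h5 := hs q1 hq1.1
  have h6 : f q1 = f q0 := hq1.2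
  unfold La at h5
  linarith

/-- Minimum principle. -/
theorem min_super (I : Set Z2) (hI : I.Finite) (f : Z2 → ℝ) (m : ℝ)
    (hs : ∀ q ∈ I, 0 ≤ La f q)
    (hb : ∀ q ∈ I, ∀ q', Nb q q' → q' ∉ I → m ≤ f q') : ∀ q ∈ I, m ≤ f q := by
  intro q hq
  have := max_sub I hI (fun q => - f q) (-m) (fun q hq => by
    have := hs q hq
    unfold La at this ⊢
    linarith) (fun q hq q' hq' hq'' => by
    have := hb q hq q' hq' hq''
    linarith) q hq
  linarith

/-- The ball of the sup norm is finite. -/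
theorem finite_ball (c : Z2) (k : ℕ) : {q : Z2 | sn (q - c) < k}.Finite := by
  refine ((Set.finite_Icc (c.1 - k) (c.1 + k)).prod (Set.finite_Icc (c.2 - k) (c.2 + k))).subset ?_
  intro q hq
  simp only [sn, Prod.fst_sub, Prod.snd_sub, Set.mem_ofPred_eq] at hq
  simp only [mem_prod, mem_Icc]
  omega

/-- A neighbour of a point of the ball of radius `k` which is not in the ball is on the loop. -/
theorem nb_ball (c : Z2) (k : ℕ) {q q' : Z2} (hq : sn (q - c) < k) (hn : Nb q q')
    (hq' : ¬ sn (q' - c) < k) : sn (q' - c) = k := by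
  simp only [sn, Prod.fst_sub, Prod.snd_sub, Nb] at hq hq' hn ⊢
  rcases hn with h | h | h | h <;> subst h <;>
    simp only [Prod.fst_add, Prod.snd_add, Prod.fst_sub, Prod.snd_sub] at hq' ⊢ <;> omega

end Pool.Agent.FB018D
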