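import Pool.Agent.Lib.MP_018119_an_FB.DGrid
import Pool.Agent.Lib.MP_018119_an_FB.DMax

/-!
# MP_018119_an, project FB, discrete half (A4): the barrier

A square loop of the first plane on which `a > 0` cannot be crossed by the phase `b` of the second
plane: `b = 0` on all cells of the second plane whose preimage meets the closed solid square.
-/

set_option autoImplicit false

open Topology Filter Set Metric

namespace Pool.Agent.FB018D

/-- A connected set which misses the cells of a square loop and has a point in the closed solid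
square is inside. -/
theorem inside_of_disjoint {h : ℝ} (hh : 0 < h) (c : Z2) (k : ℕ) {X : Set ℂ}
    (hX : IsPreconnected X) (hd : ∀ q, sn (q - c) = k → Disjoint X (cell h q)) {x : ℂ}
    (hx : x ∈ X) (hxk : sq (x - pt h c) ≤ h * (k + 1 / 2)) :
    X ⊆ {z | sq (z - pt h c) < h * (k - 1 / 2)} := by
  have hcov : ∀ z ∈ X, sq (z - pt h c) < h * (k - 1 / 2) ∨ h * (k + 1 / 2) < sq (z - pt h c) := by
    intro z hz
    by_contra hcon
    push Not at hcon
    obtain ⟨q, hq, hzq⟩ := loop_cell hh c k hcon.1 hcon.2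
    exact Set.disjoint_left.mp (hd q hq) hz hzq
  have hc : Continuous fun z : ℂ => sq (z - pt h c) :=
    continuous_sq.comp (continuous_id.sub continuous_const)
  refine hX.subset_left_of_subset_union (v := {z | h * (k + 1 / 2) < sq (z - pt h c)})
    (isOpen_lt hc continuous_const) (isOpen_lt continuous_const hc) ?_ (fun z hz => hcov z hz)
    ⟨x, hx, ?_⟩
  · rw [Set.disjoint_left]
    intro z h1 h2
    have h1' : sq (z - pt h c) < h * (k - 1 / 2) := h1
    have h2' : h * (k + 1 / 2) < sq (z - pt h c) := h2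
    nlinarith
  · rcases hcov x hx with h1 | h1
    · exact h1
    · exact absurd h1 (not_lt.mpr hxk)

/-- Only finitely many cells are carried into a bounded set by `F.symm`. -/
theorem finite_inside (F : ℂ ≃ₜ ℂ) {h' : ℝ} (hh' : 0 < h') (w : ℂ) (R : ℝ) :
    {p : Z2 | F.symm '' cell h' p ⊆ {z | sq (z - w) < R}}.Finite := by
  have h1 : IsCompact (F '' closedBall w (2 * R)) := (isCompact_closedBall _ _).image F.continuous
  obtain ⟨M, hM⟩ := h1.isBounded.subset_closedBall 0
  refine (finite_ball 0 (⌈M / h'⌉₊ + 1)).subset ?_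
  intro p hp
  have h2 : F.symm (pt h' p) ∈ {z | sq (z - w) < R} := hp ⟨_, pt_mem hh'.le p, rfl⟩
  have h3 : sq (F.symm (pt h' p) - w) < R := h2
  have h4 : F.symm (pt h' p) ∈ closedBall w (2 * R) := by
    rw [mem_closedBall, dist_eq_norm]
    have := norm_le_sq (F.symm (pt h' p) - w)
    linarith
  have h5 : pt h' p ∈ F '' closedBall w (2 * R) := ⟨_, h4, by simp⟩
  have h6 := hM h5
  rw [mem_closedBall, dist_zero_right] at h6
  have h7 := sq_le_norm (pt h' p)
  rw [sq_pt hh'.le] at h7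
  have h8 : (sn p : ℝ) ≤ M / h' := by
    rw [le_div_iff₀ hh']
    linarith
  have h9 : (sn p : ℝ) ≤ ⌈M / h'⌉₊ := h8.trans (Nat.le_ceil _)
  have h10 : sn p ≤ ⌈M / h'⌉₊ := by exact_mod_cast h9
  change sn (p - 0) < _
  rw [sub_zero]
  omega

/-- The barrier. -/
theorem bar {F : ℂ ≃ₜ ℂ} {h h' : ℝ} {K K' : Set Z2} {a b : Z2 → ℝ} (H : SD F h h' K K' a b)
    (c : Z2) (k : ℕ) (hpos : ∀ q, sn (q - c) = k → 0 < a q)
    (hbig : ∃ x ∈ UC h' K', h * (k + 1 / 2) < sq (F.symm x - pt h c)) :
    ∀ p x, F x ∈ cell h' p → sq (x - pt h c) ≤ h * (k + 1 / 2) → b p = 0 ∧ p ∉ K' := by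
  have hh := H.h0
  have hK' : ¬ F.symm '' UC h' K' ⊆ {z | sq (z - pt h c) < h * (k - 1 / 2)} := by
    intro hsub
    obtain ⟨x, hx, hx2⟩ := hbig
    have h1 : F.symm x ∈ {z | sq (z - pt h c) < h * (k - 1 / 2)} := hsub ⟨x, hx, rfl⟩
    have h2 : sq (F.symm x - pt h c) < h * (k - 1 / 2) := h1
    nlinarith
  -- cells which meet the loop
  have s1 : ∀ p q x, sn (q - c) = k → x ∈ cell h q → F x ∈ cell h' p → b p = 0 ∧ p ∉ K' := by
    intro p q x hq hx hp
    have h1 := H.dis q p ⟨x, hx, hp⟩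
    have h2 : b p = 0 := by
      rcases mul_eq_zero.mp h1 with h3 | h3
      · exact absurd h3 (hpos q hq).ne'
      · exact h3
    refine ⟨h2, fun h3 => ?_⟩
    have := H.bK p h3
    linarith
  -- the plateau of the second plane is outside
  have s2 : ∀ x, F x ∈ UC h' K' → ¬ sq (x - pt h c) ≤ h * (k + 1 / 2) := by
    intro x hx hxk
    apply hK'
    refine inside_of_disjoint H.h0 c k (H.cK'.image _ F.symm.continuous.continuousOn) ?_
      ⟨F x, hx, by simp⟩ hxk
    intro q hq
    rw [Set.disjoint_left]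
    rintro y ⟨w, hw, rfl⟩ hy
    simp only [UC, mem_iUnion] at hw
    obtain ⟨p, hp, hwp⟩ := hw
    exact (s1 p q (F.symm w) hq hy (by simpa using hwp)).2 hp
  -- cells which are inside
  set I : Set Z2 := {p | F.symm '' cell h' p ⊆ {z | sq (z - pt h c) < h * (k - 1 / 2)}} with hI
  have s3 : ∀ p x, F x ∈ cell h' p → sq (x - pt h c) ≤ h * (k + 1 / 2) → p ∉ I →
      b p = 0 ∧ p ∉ K' := by
    intro p x hp hx hpI
    by_cases h1 : ∀ q, sn (q - c) = k → Disjoint (F.symm '' cell h' p) (cell h q)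
    · exfalso
      apply hpI
      exact inside_of_disjoint H.h0 c k
        ((cell_conn h' p).image _ F.symm.continuous.continuousOn) h1
        ⟨F x, hp, by simp⟩ hx
    · push Not at h1
      obtain ⟨q, hq, h2⟩ := h1
      rw [Set.not_disjoint_iff] at h2
      obtain ⟨y, ⟨w, hw, rfl⟩, hy⟩ := h2
      exact s1 p q (F.symm w) hq hy (by simpa using hw)
  have s4 : ∀ p ∈ I, p ∉ K' := by
    intro p hp hpK
    have h1 : F.symm (pt h' p) ∈ {z | sq (z - pt h c) < h * (k - 1 / 2)} :=
      hp ⟨_, pt_mem H.h0'.le p, rfl⟩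
    have h2 : sq (F.symm (pt h' p) - pt h c) < h * (k - 1 / 2) := h1
    refine s2 (F.symm (pt h' p)) ?_ ?_
    · simp only [Homeomorph.apply_symm_apply, UC, mem_iUnion]
      exact ⟨p, hpK, pt_mem H.h0'.le p⟩
    · nlinarith
  have s5 : ∀ p ∈ I, b p ≤ 0 := by
    refine max_sub I (finite_inside F H.h0' _ _) b 0 (fun p hp => H.sb p (s4 p hp)) ?_
    intro p hp p' hn hp'
    obtain ⟨w, hw, hw'⟩ := cell_meet H.h0'.le (sn_nb hn).le
    have h1 : F.symm w ∈ {z | sq (z - pt h c) < h * (k - 1 / 2)} := hp ⟨w, hw, rfl⟩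
    have h2 : sq (F.symm w - pt h c) < h * (k - 1 / 2) := h1
    refine (s3 p' (F.symm w) (by simpa using hw') ?_ hp').1.le
    nlinarith
  intro p x hp hx
  by_cases hpI : p ∈ I
  · exact ⟨le_antisymm (s5 p hpI) (H.b0 p), s4 p hpI⟩
  · exact s3 p x hp hx hpI

end Pool.Agent.FB018D
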