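import Pool.Agent.Lib.MP_018119_an_FB.DSeam

/-!
# MP_018119_an, project FB: the plateaus are connected
-/

set_option autoImplicit false

open Topology Filter Set Relation

namespace Pool.Agent.FB018D.ES

theorem sq_le_iff {z : ℂ} {r : ℝ} : sq z ≤ r ↔ |z.re| ≤ r ∧ |z.im| ≤ r := by
  unfold sq
  exact max_le_iff

theorem cell_convex (h : ℝ) (p : Z2) : Convex ℝ (cell h p) := by
  intro x hx y hy a b ha hb hab
  have hx' := sq_le_iff.mp hx
  have hy' := sq_le_iff.mp hy
  simp only [Complex.sub_re, Complex.sub_im, abs_le] at hx' hy'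
  refine sq_le_iff.mpr ?_
  have e1 : b = 1 - a := by linarith
  simp only [Complex.sub_re, Complex.sub_im, Complex.add_re, Complex.add_im, Complex.real_smul,
    Complex.mul_re, Complex.mul_im, Complex.ofReal_re, Complex.ofReal_im, zero_mul, sub_zero,
    add_zero, abs_le]
  obtain ⟨⟨p1, p2⟩, p3, p4⟩ := hx'
  obtain ⟨⟨q1, q2⟩, q3, q4⟩ := hy'
  subst e1
  refine ⟨⟨?_, ?_⟩, ?_, ?_⟩ <;> nlinarith

/-- adjacency of cells inside `t` -/
def Adj (h : ℝ) (t : Set Z2) (i j : Z2) : Prop := (cell h i ∩ cell h j).Nonempty ∧ i ∈ t ∧ j ∈ t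

theorem Adj.symm {h : ℝ} {t : Set Z2} {i j : Z2} (H : Adj h t i j) : Adj h t j i :=
  ⟨by rw [inter_comm]; exact H.1, H.2.2, H.2.1⟩

theorem reach_symm {h : ℝ} {t : Set Z2} {i j : Z2} (H : ReflTransGen (Adj h t) i j) :
    ReflTransGen (Adj h t) j i := by
  induction H with
  | refl => exact ReflTransGen.refl
  | tail _ h1 ih => exact ReflTransGen.head h1.symm ih

theorem preconn_of_reach (h : ℝ) (t : Set Z2)
    (H : ∀ i ∈ t, ∀ j ∈ t, ReflTransGen (Adj h t) i j) : IsPreconnected (UC h t) := by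
  unfold UC
  apply IsPreconnected.biUnion_of_reflTransGen
  · intro i _
    exact (cell_convex h i).isPreconnected
  · intro i hi j hj
    have h1 := H i hi j hj
    clear hj
    induction h1 with
    | refl => exact ReflTransGen.refl
    | tail _ h2 ih => exact ih.tail ⟨h2.1, h2.2.1⟩

theorem meet_h {h : ℝ} (h0 : 0 < h) (x y : ℤ) : (cell h (x, y) ∩ cell h (x + 1, y)).Nonempty := by
  refine ⟨⟨h * x + h / 2, h * y⟩, sq_le_iff.mpr ⟨?_, ?_⟩, sq_le_iff.mpr ⟨?_, ?_⟩⟩
  · simp only [pt, Complex.sub_re, abs_le]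
    constructor <;> linarith
  · simp only [pt, Complex.sub_im, abs_le]
    constructor <;> linarith
  · simp only [pt, Complex.sub_re, abs_le]
    push_cast
    constructor <;> linarith
  · simp only [pt, Complex.sub_im, abs_le]
    constructor <;> linarith

theorem meet_v {h : ℝ} (h0 : 0 < h) (x y : ℤ) : (cell h (x, y) ∩ cell h (x, y + 1)).Nonempty := by
  refine ⟨⟨h * x, h * y + h / 2⟩, sq_le_iff.mpr ⟨?_, ?_⟩, sq_le_iff.mpr ⟨?_, ?_⟩⟩
  · simp only [pt, Complex.sub_re, abs_le]
    constructor <;> linarith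
  · simp only [pt, Complex.sub_im, abs_le]
    constructor <;> linarith
  · simp only [pt, Complex.sub_re, abs_le]
    constructor <;> linarith
  · simp only [pt, Complex.sub_im, abs_le]
    push_cast
    constructor <;> linarith

theorem hmove_aux {h : ℝ} (h0 : 0 < h) (t : Set Z2) (x y : ℤ) (n : ℕ)
    (H : ∀ k : ℤ, x ≤ k → k ≤ x + n → (k, y) ∈ t) :
    ReflTransGen (Adj h t) (x, y) (x + n, y) := by
  induction n with
  | zero => simpa using ReflTransGen.refl
  | succ n ih =>
    have h1 := ih (fun k hk1 hk2 => H k hk1 (by push_cast; linarith))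
    refine h1.tail ⟨?_, H _ (by omega) (by push_cast; linarith),
      H _ (by push_cast; omega) (le_refl _)⟩
    have e : (x + ((n + 1 : ℕ) : ℤ), y) = ((x + n) + 1, y) := by
      push_cast
      rw [add_assoc]
    rw [e]
    exact meet_h h0 _ _

theorem vmove_aux {h : ℝ} (h0 : 0 < h) (t : Set Z2) (x y : ℤ) (n : ℕ)
    (H : ∀ k : ℤ, y ≤ k → k ≤ y + n → (x, k) ∈ t) :
    ReflTransGen (Adj h t) (x, y) (x, y + n) := by
  induction n with
  | zero => simpa using ReflTransGen.refl
  | succ n ih =>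
    have h1 := ih (fun k hk1 hk2 => H k hk1 (by push_cast; linarith))
    refine h1.tail ⟨?_, H _ (by omega) (by push_cast; linarith),
      H _ (by push_cast; omega) (le_refl _)⟩
    have e : (x, y + ((n + 1 : ℕ) : ℤ)) = (x, (y + n) + 1) := by
      push_cast
      rw [add_assoc]
    rw [e]
    exact meet_v h0 _ _

theorem hmove {h : ℝ} (h0 : 0 < h) (t : Set Z2) (x x' y : ℤ)
    (H : ∀ k : ℤ, min x x' ≤ k → k ≤ max x x' → (k, y) ∈ t) :
    ReflTransGen (Adj h t) (x, y) (x', y) := by
  rcases le_total x x' with hx | hx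
  · obtain ⟨n, hn⟩ := Int.eq_ofNat_of_zero_le (sub_nonneg.mpr hx)
    have e : x' = x + n := by omega
    subst e
    exact hmove_aux h0 t x y n fun k h1 h2 => H k (by omega) (by omega)
  · obtain ⟨n, hn⟩ := Int.eq_ofNat_of_zero_le (sub_nonneg.mpr hx)
    have e : x = x' + n := by omega
    subst e
    exact reach_symm (hmove_aux h0 t x' y n fun k h1 h2 => H k (by omega) (by omega))

theorem vmove {h : ℝ} (h0 : 0 < h) (t : Set Z2) (x y y' : ℤ)
    (H : ∀ k : ℤ, min y y' ≤ k → k ≤ max y y' → (x, k) ∈ t) :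
    ReflTransGen (Adj h t) (x, y) (x, y') := by
  rcases le_total y y' with hx | hx
  · obtain ⟨n, hn⟩ := Int.eq_ofNat_of_zero_le (sub_nonneg.mpr hx)
    have e : y' = y + n := by omega
    subst e
    exact vmove_aux h0 t x y n fun k h1 h2 => H k (by omega) (by omega)
  · obtain ⟨n, hn⟩ := Int.eq_ofNat_of_zero_le (sub_nonneg.mpr hx)
    have e : y = y' + n := by omega
    subst e
    exact reach_symm (vmove_aux h0 t x y' n fun k h1 h2 => H k (by omega) (by omega))

theorem preconn_Ka {h : ℝ} (h0 : 0 < h) (s : ℝ) : IsPreconnected (UC h (Ka h s)) := by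
  have key : ∀ i ∈ Ka h s, ReflTransGen (Adj h (Ka h s)) i (0, 0) := by
    rintro ⟨x, y⟩ hi
    have hi' : h * (sn (x, y) : ℝ) ≤ s := hi
    have mono : ∀ q : Z2, sn q ≤ sn (x, y) → q ∈ Ka h s := by
      intro q hq
      have : (sn q : ℝ) ≤ sn (x, y) := by exact_mod_cast hq
      exact le_trans (mul_le_mul_of_nonneg_left this h0.le) hi'
    refine (hmove h0 _ x 0 y fun k h1 h2 => mono _ ?_).trans
      (vmove h0 _ 0 y 0 fun k h1 h2 => mono _ ?_)
    · simp only [sn]
      omega
    · simp only [sn]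
      omega
  exact preconn_of_reach h _ fun i hi j hj => (key i hi).trans (reach_symm (key j hj))

theorem preconn_Kb {h : ℝ} (h0 : 0 < h) (r : ℝ) : IsPreconnected (UC h (Kb h r)) := by
  obtain ⟨N, hN⟩ := exists_nat_ge (r / h)
  have hN' : r ≤ h * N := by
    rw [div_le_iff₀ h0] at hN
    linarith
  have key : ∀ i ∈ Kb h r, ReflTransGen (Adj h (Kb h r)) i ((N : ℤ), (N : ℤ)) := by
    rintro ⟨x, y⟩ hi
    have hi' : r ≤ h * (sn (x, y) : ℝ) := hi
    have mono : ∀ q : Z2, sn (x, y) ≤ sn q → q ∈ Kb h r := by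
      intro q hq
      have : (sn (x, y) : ℝ) ≤ sn q := by exact_mod_cast hq
      exact le_trans hi' (mul_le_mul_of_nonneg_left this h0.le)
    have monoN : ∀ q : Z2, N ≤ sn q → q ∈ Kb h r := by
      intro q hq
      have : (N : ℝ) ≤ sn q := by exact_mod_cast hq
      exact le_trans hN' (mul_le_mul_of_nonneg_left this h0.le)
    rcases le_total x.natAbs y.natAbs with hxy | hxy
    · refine (hmove h0 _ x N y fun k h1 h2 => mono _ ?_).trans
        (vmove h0 _ N y N fun k h1 h2 => monoN _ ?_)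
      · simp only [sn]
        omega
      · simp only [sn]
        omega
    · refine (vmove h0 _ x y N fun k h1 h2 => mono _ ?_).trans
        (hmove h0 _ x N N fun k h1 h2 => monoN _ ?_)
      · simp only [sn]
        omega
      · simp only [sn]
        omega
  exact preconn_of_reach h _ fun i hi j hj => (key i hi).trans (reach_symm (key j hj))

end Pool.Agent.FB018D.ES
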