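import Pool.Agent.Lib.MP_018119_an_FB.DBar

/-!
# MP_018119_an, project FB, discrete half (A5): the two loop argument
-/

set_option autoImplicit false

open Topology Filter Set Metric

namespace Pool.Agent.FB018D

variable {F : ℂ ≃ₜ ℂ} {h h' : ℝ} {K K' : Set Z2} {a b : Z2 → ℝ}

/-- If `a > 0` on the loop of radius `k2`, then `a` is harmonic off `K` in the box of radius `k1`. -/
theorem core_har (H : SD F h h' K K' a b) (c : Z2) (k1 k2 : ℕ) (hk : k1 < k2)
    (hpos : ∀ q, sn (q - c) = k2 → 0 < a q)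
    (hK' : ∃ x ∈ UC h' K', h * (k2 + 1 / 2) < sq (F.symm x - pt h c))
    (hmod : ∀ x y : ℂ, sq (x - pt h c) ≤ h * (k1 + 1 / 2) → sq (F x - F y) ≤ 2 * h' →
      sq (y - pt h c) < h * (k2 + 1 / 2))
    {q : Z2} (hq : sn (q - c) ≤ k1) (hqK : q ∉ K) : La a q = 0 := by
  have hb := bar H c k2 hpos hK'
  have hh := H.h0
  have hh' := H.h0'
  refine H.ha q hqK fun p hp => ?_
  obtain ⟨x, hxq, hxp⟩ := hp
  have hq' : (sn (q - c) : ℝ) ≤ k1 := by exact_mod_cast hq
  have hk' : (k1 : ℝ) < k2 := by exact_mod_cast hk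
  have hx1 : sq (x - pt h c) ≤ h * (k1 + 1 / 2) := by
    have h1 := cell_up hh.le (c := c) hxq
    nlinarith
  have hx2 : sq (x - pt h c) ≤ h * (k2 + 1 / 2) := by nlinarith
  have h3 := hb p x hxp hx2
  refine ⟨h3.2, ?_⟩
  have hnb : ∀ p', Nb p p' → b p' = 0 := by
    intro p' hn
    have h4 : sq (F x - F (F.symm (pt h' p'))) ≤ 2 * h' := by
      rw [Homeomorph.apply_symm_apply]
      have h5 := sq_tri (F x) (pt h' p) (pt h' p')
      rw [sq_pt_sub hh'.le, sn_sub_comm, sn_nb hn] at h5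
      have h6 : sq (F x - pt h' p) ≤ h' / 2 := hxp
      push_cast at h5
      linarith
    refine (hb p' (F.symm (pt h' p')) ?_ (hmod x _ hx1 h4).le).1
    rw [Homeomorph.apply_symm_apply]
    exact pt_mem hh'.le p'
  unfold La
  rw [h3.1, hnb _ (Or.inl rfl), hnb _ (Or.inr (Or.inl rfl)), hnb _ (Or.inr (Or.inr (Or.inl rfl))),
    hnb _ (Or.inr (Or.inr (Or.inr rfl)))]
  ring

/-- A subharmonic function on the box is bounded by its bound on the loop. -/
theorem box_max (u : Z2 → ℝ) (c : Z2) (k : ℕ) (m : ℝ) (hs : ∀ q, sn (q - c) < k → La u q ≤ 0)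
    (hb : ∀ q, sn (q - c) = k → u q ≤ m) {q : Z2} (hq : sn (q - c) ≤ k) : u q ≤ m := by
  rcases Nat.lt_or_ge (sn (q - c)) k with h1 | h1
  · refine max_sub {q | sn (q - c) < k} (finite_ball c k) u m hs ?_ q h1
    intro q1 hq1 q2 hn hq2
    exact hb q2 (nb_ball c k hq1 hn hq2)
  · exact hb q (le_antisymm hq h1)

/-- The two loop argument: if the oscillation of `a` on two loops `k1 < k2` is at most `η < 1`, then
the oscillation inside the small loop is at most `η`. -/
theorem core (H : SD F h h' K K' a b) (c : Z2) (k1 k2 : ℕ) (hk : k1 < k2) {η : ℝ} (hη : 0 ≤ η)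
    (hη1 : η < 1)
    (o2 : ∀ q q', sn (q - c) = k2 → sn (q' - c) = k2 → a q - a q' ≤ η)
    (o1 : ∀ q q', sn (q - c) = k1 → sn (q' - c) = k1 → a q - a q' ≤ η)
    (hK : ∃ x ∈ UC h K, h * (k2 + 1 / 2) < sq (x - pt h c))
    (hK' : ∃ x ∈ UC h' K', h * (k2 + 1 / 2) < sq (F.symm x - pt h c))
    (hmod : ∀ x y : ℂ, sq (x - pt h c) ≤ h * (k1 + 1 / 2) → sq (F x - F y) ≤ 2 * h' →
      sq (y - pt h c) < h * (k2 + 1 / 2))
    {q q' : Z2} (hq : sn (q - c) ≤ k1) (hq' : sn (q' - c) ≤ k1) : a q - a q' ≤ η := by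
  have hh := H.h0
  obtain ⟨x0, hx0, hx0k⟩ := hK
  by_cases hz : ∃ q0, sn (q0 - c) = k2 ∧ a q0 = 0
  · -- case 1
    obtain ⟨q0, hq0, ha0⟩ := hz
    have h1 : ∀ q, sn (q - c) = k2 → a q ≤ η := by
      intro q hq
      have := o2 q q0 hq hq0
      linarith
    have h2 : ∀ q ∈ K, ¬ sn (q - c) ≤ k2 := by
      intro q hqK hqk
      obtain ⟨q1, hq1K, hq1⟩ := K_loop hh H.cK c k2 hqK hqk hx0 (by nlinarith)
      have h3 := h1 q1 hq1
      rw [H.aK q1 hq1K] at h3
      linarith
    have h3 : a q ≤ η := by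
      refine box_max a c k2 η (fun q1 hq1 => H.sa q1 fun hK1 => h2 q1 hK1 hq1.le) h1 ?_
      omega
    linarith [H.a0 q']
  · -- case 2
    push Not at hz
    have hpos : ∀ q, sn (q - c) = k2 → 0 < a q := fun q hq =>
      lt_of_le_of_ne (H.a0 q) (Ne.symm (hz q hq))
    have har : ∀ q, sn (q - c) ≤ k1 → q ∉ K → La a q = 0 := fun q h1 h2 =>
      core_har H c k1 k2 hk hpos hK' hmod h1 h2
    by_cases h2 : ∃ q0 ∈ K, sn (q0 - c) = k1
    · obtain ⟨q0, hq0K, hq0⟩ := h2
      have h3 : ∀ y, sn (y - c) = k1 → 1 - η ≤ a y := by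
        intro y hy
        have := o1 q0 y hq0 hy
        rw [H.aK q0 hq0K] at this
        linarith
      have h4 : ∀ y, sn (y - c) ≤ k1 → 1 - η ≤ a y := by
        intro y hy
        by_cases hyK : y ∈ K
        · rw [H.aK y hyK]
          linarith
        rcases Nat.lt_or_ge (sn (y - c)) k1 with h5 | h5
        · refine min_super {y | sn (y - c) < k1 ∧ y ∉ K}
            ((finite_ball c k1).subset fun z hz => hz.1) a (1 - η) ?_ ?_ y ⟨h5, hyK⟩
          · intro z hz
            rw [har z hz.1.le hz.2]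
          · intro z hz z' hn hz'
            by_cases hzK : z' ∈ K
            · rw [H.aK z' hzK]
              linarith
            · refine h3 z' (nb_ball c k1 hz.1 hn fun h6 => hz' ⟨h6, hzK⟩)
        · exact h3 y (le_antisymm hy h5)
      have := h4 q' hq'
      linarith [H.a1 q]
    · push Not at h2
      have hK0 : ∀ q, sn (q - c) ≤ k1 → q ∉ K := by
        intro q0 hq0 hq0K
        have hk' : (k1 : ℝ) < k2 := by exact_mod_cast hk
        obtain ⟨q1, hq1K, hq1⟩ := K_loop hh H.cK c k1 hq0K hq0 hx0 (by nlinarith)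
        exact h2 q1 hq1K hq1
      have h3 : ∀ y, sn (y - c) = k1 → a q ≤ a y + η := by
        intro y hy
        refine box_max a c k1 (a y + η) (fun z hz => (har z hz.le (hK0 z hz.le)).le) ?_ hq
        intro z hz
        have := o1 z y hz hy
        linarith
      have h4 : -a q' ≤ -(a q - η) := by
        refine box_max (fun z => - a z) c k1 (-(a q - η)) (fun z hz => ?_) ?_ hq'
        · have h5 := har z hz.le (hK0 z hz.le)
          unfold La at h5 ⊢
          linarith
        · intro z hz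
          have := h3 z hz
          linarith
      linarith

end Pool.Agent.FB018D
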