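import Pool.Agent.Lib.MP_018119_an_FB.DEnergy
import Pool.Agent.Lib.MP_018119_an_FB.DConn

/-!
# MP_018119_an, project FB: cut-offs on the lattice
-/

set_option autoImplicit false

open Topology Filter Set

namespace Pool.Agent.FB018D.ES

theorem clamp_lip (x y : ℝ) : |max 0 (min 1 x) - max 0 (min 1 y)| ≤ |x - y| := by
  have h1 := le_abs_self (x - y)
  have h2 := neg_abs_le (x - y)
  have h3 := abs_nonneg (x - y)
  rw [abs_le]
  constructor <;>
  rcases max_cases 0 (min 1 x) with ⟨e1, e2⟩ | ⟨e1, e2⟩ <;>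
  rcases max_cases 0 (min 1 y) with ⟨e3, e4⟩ | ⟨e3, e4⟩ <;>
  rcases min_cases 1 x with ⟨e5, e6⟩ | ⟨e5, e6⟩ <;>
  rcases min_cases 1 y with ⟨e7, e8⟩ | ⟨e7, e8⟩ <;>
  rw [e1, e3] <;> linarith

/-- The cut-off: `1` for `h |q| ≤ ρ`, `0` for `2 ρ ≤ h |q|`. -/
noncomputable def cut (h ρ : ℝ) (q : Z2) : ℝ := max 0 (min 1 (2 - h * sn q / ρ))

theorem cut_nonneg (h ρ : ℝ) (q : Z2) : 0 ≤ cut h ρ q := le_max_left _ _

theorem cut_le_one (h ρ : ℝ) (q : Z2) : cut h ρ q ≤ 1 :=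
  max_le zero_le_one (min_le_left _ _)

theorem cut_one {h ρ : ℝ} (hρ : 0 < ρ) {q : Z2} (hq : h * sn q ≤ ρ) : cut h ρ q = 1 := by
  unfold cut
  have h1 : h * sn q / ρ ≤ 1 := by rw [div_le_one hρ]; exact hq
  rw [min_eq_left (by linarith), max_eq_right zero_le_one]

theorem cut_zero {h ρ : ℝ} (hρ : 0 < ρ) {q : Z2} (hq : 2 * ρ ≤ h * sn q) : cut h ρ q = 0 := by
  unfold cut
  have h1 : 2 ≤ h * sn q / ρ := by rw [le_div_iff₀ hρ]; exact hq
  rw [min_eq_right (by linarith), max_eq_left (by linarith)]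

theorem sn_step (q e : Z2) (he : sn e ≤ 1) : sn (q + e) ≤ sn q + 1 ∧ sn q ≤ sn (q + e) + 1 := by
  obtain ⟨x, y⟩ := q
  obtain ⟨u, v⟩ := e
  simp only [sn, Prod.mk_add_mk] at he ⊢
  omega

theorem cut_step {h ρ : ℝ} (h0 : 0 < h) (hρ : 0 < ρ) (q e : Z2) (he : sn e ≤ 1) :
    (cut h ρ (q + e) - cut h ρ q) ^ 2 ≤ (h / ρ) ^ 2 := by
  apply sq_le_sq'
  · have h1 := clamp_lip (2 - h * sn (q + e) / ρ) (2 - h * sn q / ρ)
    have h2 : |2 - h * sn (q + e) / ρ - (2 - h * sn q / ρ)| ≤ h / ρ := by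
      obtain ⟨s1, s2⟩ := sn_step q e he
      have s1' : (sn (q + e) : ℝ) ≤ sn q + 1 := by exact_mod_cast s1
      have s2' : (sn q : ℝ) ≤ sn (q + e) + 1 := by exact_mod_cast s2
      have e1 : 2 - h * sn (q + e) / ρ - (2 - h * sn q / ρ) = h / ρ * (sn q - sn (q + e)) := by
        field_simp
        ring
      have e2 : 0 < h / ρ := div_pos h0 hρ
      rw [e1, abs_le]
      constructor <;> nlinarith
    have h3 := abs_le.mp (le_trans h1 h2)
    unfold cut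
    linarith [h3.1]
  · have h1 := clamp_lip (2 - h * sn (q + e) / ρ) (2 - h * sn q / ρ)
    have h2 : |2 - h * sn (q + e) / ρ - (2 - h * sn q / ρ)| ≤ h / ρ := by
      obtain ⟨s1, s2⟩ := sn_step q e he
      have s1' : (sn (q + e) : ℝ) ≤ sn q + 1 := by exact_mod_cast s1
      have s2' : (sn q : ℝ) ≤ sn (q + e) + 1 := by exact_mod_cast s2
      have e1 : 2 - h * sn (q + e) / ρ - (2 - h * sn q / ρ) = h / ρ * (sn q - sn (q + e)) := by
        field_simp
        ring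
      have e2 : 0 < h / ρ := div_pos h0 hρ
      rw [e1, abs_le]
      constructor <;> nlinarith
    have h3 := abs_le.mp (le_trans h1 h2)
    unfold cut
    linarith [h3.2]

/-- The box of lattice points of sup norm at most `N`. -/
noncomputable def box (N : ℕ) : Finset Z2 := Finset.Icc (-(N : ℤ)) N ×ˢ Finset.Icc (-(N : ℤ)) N

theorem mem_box {N : ℕ} {q : Z2} : q ∈ box N ↔ sn q ≤ N := by
  obtain ⟨x, y⟩ := q
  simp only [box, Finset.mem_product, Finset.mem_Icc, sn]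
  omega

theorem card_box (N : ℕ) : ((box N).card : ℝ) = (2 * N + 1) ^ 2 := by
  unfold box
  rw [Finset.card_product, Int.card_Icc]
  have : ((N : ℤ) + 1 - -(N : ℤ)).toNat = 2 * N + 1 := by omega
  rw [this]
  push_cast
  ring

theorem En_cut {h ρ : ℝ} (h0 : 0 < h) (hρ : h ≤ ρ) : En (cut h ρ) ≤ 98 := by
  have hρ0 : 0 < ρ := lt_of_lt_of_le h0 hρ
  set N := ⌈2 * ρ / h⌉₊ with hN
  have hN1 : 2 * ρ / h ≤ N := Nat.le_ceil _
  have hN2 : (N : ℝ) < 2 * ρ / h + 1 := Nat.ceil_lt_add_one (by positivity)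
  have hz : ∀ q, q ∉ box N → Dsq (cut h ρ) q = 0 := by
    intro q hq
    rw [mem_box, not_le] at hq
    have e0 : 2 * ρ ≤ h * N := by
      rw [div_le_iff₀ h0] at hN1
      linarith
    have hz' : ∀ p : Z2, N ≤ sn p → cut h ρ p = 0 := by
      intro p hp
      apply cut_zero hρ0
      have : (N : ℝ) ≤ sn p := by exact_mod_cast hp
      nlinarith
    have e1 := hz' q (by omega)
    have e2 := hz' (q + (1, 0)) (by
      have := (sn_step q (1, 0) (by decide)).2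
      omega)
    have e3 := hz' (q + (0, 1)) (by
      have := (sn_step q (0, 1) (by decide)).2
      omega)
    unfold Dsq
    rw [e1, e2, e3]
    norm_num
  have hb : ∀ q, Dsq (cut h ρ) q ≤ 2 * (h / ρ) ^ 2 := by
    intro q
    unfold Dsq
    have e1 := cut_step h0 hρ0 q (1, 0) (by decide)
    have e2 := cut_step h0 hρ0 q (0, 1) (by decide)
    linarith
  have h1 : En (cut h ρ) = ∑ q ∈ box N, Dsq (cut h ρ) q := tsum_eq_sum hz
  rw [h1]
  have h2 : ∑ q ∈ box N, Dsq (cut h ρ) q ≤ (box N).card • (2 * (h / ρ) ^ 2) :=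
    Finset.sum_le_card_nsmul _ _ _ fun q _ => hb q
  refine le_trans h2 ?_
  rw [nsmul_eq_mul, card_box]
  have h3 : (2 * (N : ℝ) + 1) * (h / ρ) ≤ 7 := by
    have e1 : (2 * (N : ℝ) + 1) * (h / ρ) ≤ (2 * (2 * ρ / h + 1) + 1) * (h / ρ) := by
      apply mul_le_mul_of_nonneg_right _ (by positivity)
      linarith
    have e2 : (2 * (2 * ρ / h + 1) + 1) * (h / ρ) = 4 + 3 * (h / ρ) := by
      field_simp
      ring
    have e3 : h / ρ ≤ 1 := by rw [div_le_one hρ0]; exact hρ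
    linarith
  have h4 : 0 ≤ (2 * (N : ℝ) + 1) * (h / ρ) := by positivity
  have h5 : (2 * (N : ℝ) + 1) ^ 2 * (2 * (h / ρ) ^ 2) = 2 * ((2 * (N : ℝ) + 1) * (h / ρ)) ^ 2 := by
    ring
  rw [h5]
  nlinarith

end Pool.Agent.FB018D.ES
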