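import Mathlib

/-!
# MP_018119_an, project FB (free interface), discrete half: common definitions

Two square grids: `cell h q` in the `z`-plane and `cell h' p` in the `F`-plane; the structure `SD`
(solution of the discrete two-phase problem with plateaus `K`, `K'`) is symmetric in the two
planes (`SD.symm`), so everything about it is proved once.
-/

set_option autoImplicit false

open Topology Filter Set Metric

namespace Pool.Agent.FB018D

/-- The lattice. -/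
abbrev Z2 := ℤ × ℤ

/-- Sup norm of a lattice vector. -/
def sn (p : Z2) : ℕ := max p.1.natAbs p.2.natAbs

/-- Sup norm in the plane. -/
noncomputable def sq (z : ℂ) : ℝ := max |z.re| |z.im|

/-- The lattice point `h p`. -/
noncomputable def pt (h : ℝ) (p : Z2) : ℂ := ⟨h * p.1, h * p.2⟩

/-- The closed cell of mesh `h` with centre `h p`. -/
def cell (h : ℝ) (p : Z2) : Set ℂ := {z | sq (z - pt h p) ≤ h / 2}

/-- The cell index of a point. -/
noncomputable def rd (h : ℝ) (z : ℂ) : Z2 := (round (z.re / h), round (z.im / h))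

/-- Nearest neighbours. -/
def Nb (p q : Z2) : Prop := q = p + (1, 0) ∨ q = p - (1, 0) ∨ q = p + (0, 1) ∨ q = p - (0, 1)

/-- The (positive) graph Laplacian of the square lattice. -/
def La (f : Z2 → ℝ) (p : Z2) : ℝ :=
  4 * f p - f (p + (1, 0)) - f (p - (1, 0)) - f (p + (0, 1)) - f (p - (0, 1))

/-- The two edges which start at `p`, in the directions `(1, 0)` and `(0, 1)`. -/
def Dsq (f : Z2 → ℝ) (p : Z2) : ℝ := (f (p + (1, 0)) - f p) ^ 2 + (f (p + (0, 1)) - f p) ^ 2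

/-- Dirichlet energy. -/
noncomputable def En (f : Z2 → ℝ) : ℝ := ∑' p : Z2, Dsq f p

/-- Only finitely many edges with nonzero difference. -/
def FinE (f : Z2 → ℝ) : Prop := {p | Dsq f p ≠ 0}.Finite

/-- A cell of the first plane meets a cell of the second plane. -/
def Rel (F : ℂ → ℂ) (h h' : ℝ) (q p : Z2) : Prop := ∃ x ∈ cell h q, F x ∈ cell h' p

/-- Union of cells. -/
def UC (h : ℝ) (K : Set Z2) : Set ℂ := ⋃ q ∈ K, cell h q

/-- Solution of the discrete two-phase problem with plateaus `K` (first plane) and `K'` (second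
plane). -/
structure SD (F : ℂ ≃ₜ ℂ) (h h' : ℝ) (K K' : Set Z2) (a b : Z2 → ℝ) : Prop where
  h0 : 0 < h
  h0' : 0 < h'
  a0 : ∀ q, 0 ≤ a q
  a1 : ∀ q, a q ≤ 1
  aK : ∀ q ∈ K, a q = 1
  sa : ∀ q ∉ K, La a q ≤ 0
  b0 : ∀ p, 0 ≤ b p
  b1 : ∀ p, b p ≤ 1
  bK : ∀ p ∈ K', b p = 1
  sb : ∀ p ∉ K', La b p ≤ 0
  dis : ∀ q p, Rel F h h' q p → a q * b p = 0
  ha : ∀ q ∉ K, (∀ p, Rel F h h' q p → p ∉ K' ∧ La b p = 0) → La a q = 0
  hb : ∀ p ∉ K', (∀ q, Rel F h h' q p → q ∉ K ∧ La a q = 0) → La b p = 0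
  cK : IsPreconnected (UC h K)
  cK' : IsPreconnected (UC h' K')

theorem Rel.symm {F : ℂ ≃ₜ ℂ} {h h' : ℝ} {q p : Z2} (H : Rel F h h' q p) :
    Rel F.symm h' h p q := by
  obtain ⟨x, hx, hFx⟩ := H
  exact ⟨F x, hFx, by simpa using hx⟩

theorem Rel.symm' {F : ℂ ≃ₜ ℂ} {h h' : ℝ} {q p : Z2} (H : Rel F.symm h' h p q) :
    Rel F h h' q p := by
  obtain ⟨x, hx, hFx⟩ := H
  exact ⟨F.symm x, hFx, by simpa using hx⟩

theorem SD.symm {F : ℂ ≃ₜ ℂ} {h h' : ℝ} {K K' : Set Z2} {a b : Z2 → ℝ}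
    (H : SD F h h' K K' a b) : SD F.symm h' h K' K b a where
  h0 := H.h0'
  h0' := H.h0
  a0 := H.b0
  a1 := H.b1
  aK := H.bK
  sa := H.sb
  b0 := H.a0
  b1 := H.a1
  bK := H.aK
  sb := H.sa
  dis := fun q p hqp => by rw [mul_comm]; exact H.dis p q hqp.symm'
  ha := fun q hq hyp => H.hb q hq fun p hp => hyp p hp.symm
  hb := fun p hp hyp => H.ha p hp fun q hq => hyp q hq.symm
  cK := H.cK'
  cK' := H.cK

/-- A sequence of discrete solutions with mesh tending to `0`, bounded energy and big plateaus.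
Symmetric in the two planes (`SQ.symm`). -/
structure SQ (F : ℂ ≃ₜ ℂ) (h h' : ℕ → ℝ) (K K' : ℕ → Set Z2) (a b : ℕ → Z2 → ℝ)
    (C R0 : ℝ) : Prop where
  lh : Tendsto h atTop (𝓝 0)
  lh' : Tendsto h' atTop (𝓝 0)
  side : ∀ j, SD F (h j) (h' j) (K j) (K' j) (a j) (b j)
  fa : ∀ j, FinE (a j)
  fb : ∀ j, FinE (b j)
  ea : ∀ j, En (a j) ≤ C
  eb : ∀ j, En (b j) ≤ C
  R0pos : 0 < R0
  big : ∀ j, ∃ x ∈ UC (h j) (K j), ∃ y ∈ UC (h j) (K j), R0 ≤ sq (x - y) ∧ R0 ≤ sq (F x - F y)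
  big' : ∀ j, ∃ x ∈ UC (h' j) (K' j), ∃ y ∈ UC (h' j) (K' j),
    R0 ≤ sq (x - y) ∧ R0 ≤ sq (F.symm x - F.symm y)

theorem SQ.symm {F : ℂ ≃ₜ ℂ} {h h' : ℕ → ℝ} {K K' : ℕ → Set Z2} {a b : ℕ → Z2 → ℝ}
    {C R0 : ℝ} (H : SQ F h h' K K' a b C R0) : SQ F.symm h' h K' K b a C R0 where
  lh := H.lh'
  lh' := H.lh
  side := fun j => (H.side j).symm
  fa := H.fb
  fb := H.fa
  ea := H.eb
  eb := H.ea
  R0pos := H.R0pos
  big := H.big'
  big' := H.big

end Pool.Agent.FB018D
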