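import Pool.Agent.Lib.MP_018119_an_FB.ExistG
import Pool.Agent.Lib.MP_018119_an_FB.DDefs

/-!
# MP_018119_an, project FB: energy of the discrete solutions

Summation by parts for the Dirichlet energy `En`, and the bound of the energies and of the total
flux of a plateau solution by the energies of two cut-offs.
-/

set_option autoImplicit false

open Topology Filter Set

namespace Pool.Agent.FB018D.ES

theorem lap_eq (u : Z2 → ℝ) (q : Z2) : FBX.lap u q = La u q := by
  obtain ⟨x, y⟩ := q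
  simp only [FBX.lap, FBX.nsum, La, Prod.mk_add_mk, Prod.mk_sub_mk, add_zero, sub_zero]
  ring

/-- The bilinear form of `Dsq`. -/
def Bf (f g : Z2 → ℝ) (p : Z2) : ℝ :=
  (f (p + (1, 0)) - f p) * (g (p + (1, 0)) - g p) + (f (p + (0, 1)) - f p) * (g (p + (0, 1)) - g p)

theorem Bf_self (f : Z2 → ℝ) (p : Z2) : Bf f f p = Dsq f p := by
  unfold Bf Dsq
  ring

theorem Dsq_nonneg (f : Z2 → ℝ) (p : Z2) : 0 ≤ Dsq f p := by
  unfold Dsq
  positivity

theorem Bf_le (f g : Z2 → ℝ) (p : Z2) : Bf f g p ≤ Dsq f p + Dsq g p / 4 := by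
  unfold Bf Dsq
  nlinarith [sq_nonneg ((f (p + (1, 0)) - f p) - (g (p + (1, 0)) - g p) / 2),
    sq_nonneg ((f (p + (0, 1)) - f p) - (g (p + (0, 1)) - g p) / 2)]

theorem neg_Bf_le (f g : Z2 → ℝ) (p : Z2) : - Bf f g p ≤ Dsq f p + Dsq g p / 4 := by
  unfold Bf Dsq
  nlinarith [sq_nonneg ((f (p + (1, 0)) - f p) + (g (p + (1, 0)) - g p) / 2),
    sq_nonneg ((f (p + (0, 1)) - f p) + (g (p + (0, 1)) - g p) / 2)]

theorem summable_mul_of_support {f : Z2 → ℝ} (hf : (Function.support f).Finite) (k : Z2 → ℝ) :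
    Summable (fun p => f p * k p) := by
  apply summable_of_hasFiniteSupport
  exact hf.subset (fun p hp => by
    simp only [Function.mem_support] at hp ⊢
    exact left_ne_zero_of_mul hp)

theorem edge_sum {f : Z2 → ℝ} (hf : (Function.support f).Finite) (g : Z2 → ℝ) (e : Z2) :
    Summable (fun p => (f (p + e) - f p) * (g (p + e) - g p)) ∧
    ∑' p, (f (p + e) - f p) * (g (p + e) - g p) = ∑' p, f p * (2 * g p - g (p + e) - g (p - e)) := by
  have s1 : Summable (fun p => f p * (g p - g (p - e))) := summable_mul_of_support hf _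
  have s2 : Summable (fun p => f p * (g (p + e) - g p)) := summable_mul_of_support hf _
  have s1' : Summable (fun p => f (p + e) * (g (p + e) - g p)) := by
    have := (Equiv.addRight e).summable_iff.mpr s1
    refine this.congr ?_
    intro p
    simp
  have e1 : ∑' p, f (p + e) * (g (p + e) - g p) = ∑' p, f p * (g p - g (p - e)) := by
    rw [← (Equiv.addRight e).tsum_eq (fun p => f p * (g p - g (p - e)))]
    refine tsum_congr fun p => ?_
    simp
  have e2 : (fun p => (f (p + e) - f p) * (g (p + e) - g p))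
      = fun p => f (p + e) * (g (p + e) - g p) - f p * (g (p + e) - g p) := by
    funext p
    ring
  refine ⟨by rw [e2]; exact s1'.sub s2, ?_⟩
  rw [e2, s1'.tsum_sub s2, e1, ← s1.tsum_sub s2]
  refine tsum_congr fun p => ?_
  ring

theorem summable_Bf {f : Z2 → ℝ} (hf : (Function.support f).Finite) (g : Z2 → ℝ) :
    Summable (Bf f g) :=
  (edge_sum hf g (1, 0)).1.add (edge_sum hf g (0, 1)).1

/-- Summation by parts. -/
theorem sum_by_parts {f : Z2 → ℝ} (hf : (Function.support f).Finite) (g : Z2 → ℝ) :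
    ∑' p, Bf f g p = ∑' p, f p * La g p := by
  have h1 := edge_sum hf g (1, 0)
  have h2 := edge_sum hf g (0, 1)
  have e1 : ∑' p, Bf f g p = ∑' p, (f (p + (1, 0)) - f p) * (g (p + (1, 0)) - g p)
      + ∑' p, (f (p + (0, 1)) - f p) * (g (p + (0, 1)) - g p) := by
    rw [← h1.1.tsum_add h2.1]
    rfl
  rw [e1, h1.2, h2.2, ← (summable_mul_of_support hf _).tsum_add (summable_mul_of_support hf _)]
  refine tsum_congr fun p => ?_
  unfold La
  ring

theorem FinE_of_support {f : Z2 → ℝ} (hf : (Function.support f).Finite) : FinE f := by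
  have h : {p | Dsq f p ≠ 0} ⊆ Function.support f ∪ (fun p => p - (1, 0)) '' Function.support f
      ∪ (fun p => p - (0, 1)) '' Function.support f := by
    intro p hp
    by_contra hcon
    simp only [mem_union, mem_image, Function.mem_support, not_or, not_exists, not_and,
      ne_eq, not_not] at hcon
    obtain ⟨⟨h1, h2⟩, h3⟩ := hcon
    have h2' : f (p + (1, 0)) = 0 := by
      by_contra h
      exact h2 (p + (1, 0)) h (by simp)
    have h3' : f (p + (0, 1)) = 0 := by
      by_contra h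
      exact h3 (p + (0, 1)) h (by simp)
    apply hp
    unfold Dsq
    rw [h1, h2', h3']
    norm_num
  exact ((hf.union (hf.image _)).union (hf.image _)).subset h

theorem Dsq_one_sub (f : Z2 → ℝ) : Dsq (fun p => 1 - f p) = Dsq f := by
  funext p
  unfold Dsq
  ring

theorem La_one_sub (f : Z2 → ℝ) (p : Z2) : La (fun p => 1 - f p) p = - La f p := by
  unfold La
  ring

theorem FinE_one_sub {f : Z2 → ℝ} (hf : FinE (fun p => 1 - f p)) : FinE f := by
  unfold FinE at hf ⊢
  rwa [Dsq_one_sub] at hf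

theorem En_one_sub (f : Z2 → ℝ) : En (fun p => 1 - f p) = En f := by
  unfold En
  rw [Dsq_one_sub]

theorem summable_Dsq {f : Z2 → ℝ} (hf : FinE f) : Summable (Dsq f) :=
  summable_of_hasFiniteSupport (hf.subset fun _ hp => hp)

theorem En_nonneg (f : Z2 → ℝ) : 0 ≤ En f := tsum_nonneg (Dsq_nonneg f)

theorem En_eq {f : Z2 → ℝ} (hf : (Function.support f).Finite) : En f = ∑' p, f p * La f p := by
  rw [← sum_by_parts hf f]
  unfold En
  exact tsum_congr fun p => (Bf_self f p).symm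

theorem tsum_Bf_le {f g : Z2 → ℝ} (hf : (Function.support f).Finite) (hg : FinE g) :
    ∑' p, Bf f g p ≤ En f + En g / 4 := by
  have h1 := summable_Bf hf g
  have h2 := summable_Dsq (FinE_of_support hf)
  have h3 := (summable_Dsq hg).div_const 4
  have e : En f + En g / 4 = ∑' p, (Dsq f p + Dsq g p / 4) := by
    rw [h2.tsum_add h3, tsum_div_const]
    rfl
  rw [e]
  exact h1.tsum_le_tsum (fun p => Bf_le f g p) (h2.add h3)

theorem neg_tsum_Bf_le {f g : Z2 → ℝ} (hf : (Function.support f).Finite) (hg : FinE g) :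
    - ∑' p, Bf f g p ≤ En f + En g / 4 := by
  have h1 := summable_Bf hf g
  have h2 := summable_Dsq (FinE_of_support hf)
  have h3 := (summable_Dsq hg).div_const 4
  have e : En f + En g / 4 = ∑' p, (Dsq f p + Dsq g p / 4) := by
    rw [h2.tsum_add h3, tsum_div_const]
    rfl
  rw [e, ← tsum_neg]
  exact h1.neg.tsum_le_tsum (fun p => neg_Bf_le f g p) (h2.add h3)

/-- Energies and total flux of a plateau solution are bounded by the energies of two cut-offs. -/
theorem energy_bound (K V' W : Finset Z2) (hK : K ⊆ V') (R : Z2 → Z2 → Prop)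
    (a b : Z2 → ℝ) (π : Z2 → Z2 → ℝ)
    (a0 : ∀ q, 0 ≤ a q) (aK : ∀ q ∈ K, a q = 1)
    (aoff : ∀ q, q ∉ V' → a q = 0) (b0 : ∀ p, 0 ≤ b p) (b1 : ∀ p, b p ≤ 1)
    (boff : ∀ p, p ∉ W → b p = 1) (π0 : ∀ q p, 0 ≤ π q p)
    (πoff : ∀ q p, ¬ (R q p ∧ q ∈ V' ∧ p ∈ W) → π q p = 0)
    (eqa : ∀ q ∈ V', q ∉ K → La a q = - ∑ p ∈ W, π q p)
    (eqb : ∀ p ∈ W, La b p = - ∑ q ∈ V', π q p)
    (φ ψ : Z2 → ℝ) (φ0 : ∀ q, 0 ≤ φ q) (φK : ∀ q ∈ K, φ q = 1) (φoff : ∀ q, q ∉ V' → φ q = 0)
    (ψoff : ∀ p, p ∉ W → ψ p = 0) (hφψ : ∀ q p, R q p → φ q ≤ ψ p) :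
    (∑ q ∈ V', ∑ p ∈ W, π q p ≤ 2 * (En φ + En ψ)) ∧ En a ≤ 2 * (En φ + En ψ) ∧
      En b ≤ 2 * (En φ + En ψ) ∧ FinE a ∧ FinE b := by
  classical
  have sa : (Function.support a).Finite := V'.finite_toSet.subset fun q hq => by
    by_contra h
    exact hq (aoff q h)
  have sφ : (Function.support φ).Finite := V'.finite_toSet.subset fun q hq => by
    by_contra h
    exact hq (φoff q h)
  have sψ : (Function.support ψ).Finite := W.finite_toSet.subset fun q hq => by
    by_contra h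
    exact hq (ψoff q h)
  have sb : (Function.support (fun p => 1 - b p)).Finite := W.finite_toSet.subset fun q hq => by
    by_contra h
    apply hq
    show 1 - b q = 0
    rw [boff q h]
    norm_num
  have fb : FinE b := FinE_one_sub (FinE_of_support sb)
  have fa : FinE a := FinE_of_support sa
  -- weighted sums of `La a` over `V'`
  have key : ∀ f : Z2 → ℝ, (∀ q ∈ K, f q = 1) → (∀ q, q ∉ V' → f q = 0) →
      ∑' q, f q * La a q = ∑ q ∈ K, (La a q + ∑ p ∈ W, π q p)
        - ∑ q ∈ V', f q * ∑ p ∈ W, π q p := by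
    intro f fK foff
    have e1 : ∑' q, f q * La a q = ∑ q ∈ V', f q * La a q := by
      apply tsum_eq_sum
      intro q hq
      rw [foff q hq, zero_mul]
    have e2 : ∀ g : Z2 → ℝ, ∑ q ∈ V', g q = ∑ q ∈ K, g q + ∑ q ∈ V' \ K, g q := by
      intro g
      rw [add_comm, Finset.sum_sdiff hK]
    rw [e1, e2, e2 (fun q => f q * ∑ p ∈ W, π q p)]
    have e3 : ∑ q ∈ K, f q * La a q = ∑ q ∈ K, La a q :=
      Finset.sum_congr rfl fun q hq => by rw [fK q hq, one_mul]
    have e4 : ∑ q ∈ K, f q * ∑ p ∈ W, π q p = ∑ q ∈ K, ∑ p ∈ W, π q p :=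
      Finset.sum_congr rfl fun q hq => by rw [fK q hq, one_mul]
    have e5 : ∑ q ∈ V' \ K, f q * La a q = - ∑ q ∈ V' \ K, f q * ∑ p ∈ W, π q p := by
      rw [← Finset.sum_neg_distrib]
      refine Finset.sum_congr rfl fun q hq => ?_
      rw [Finset.mem_sdiff] at hq
      rw [eqa q hq.1 hq.2]
      ring
    rw [e3, e4, e5, Finset.sum_add_distrib]
    ring
  set Φ := ∑ q ∈ K, (La a q + ∑ p ∈ W, π q p) with hΦ
  -- total flux
  have htot : ∑ q ∈ V', ∑ p ∈ W, π q p ≤ Φ := by
    have h1 := FBX.sum_lap_nonneg V' a a0 aoff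
    have h2 : ∑ q ∈ V', FBX.lap a q = Φ - ∑ q ∈ V', ∑ p ∈ W, π q p := by
      have h3 := key (fun q => if q ∈ V' then 1 else 0) (fun q hq => if_pos (hK hq))
        (fun q hq => if_neg hq)
      have h4 : ∑' q, (if q ∈ V' then (1 : ℝ) else 0) * La a q = ∑ q ∈ V', FBX.lap a q := by
        rw [tsum_eq_sum (s := V') (fun q hq => by rw [if_neg hq, zero_mul])]
        refine Finset.sum_congr rfl fun q hq => ?_
        rw [if_pos hq, one_mul, lap_eq]
      have h5 : ∑ q ∈ V', (if q ∈ V' then (1 : ℝ) else 0) * ∑ p ∈ W, π q p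
          = ∑ q ∈ V', ∑ p ∈ W, π q p := by
        refine Finset.sum_congr rfl fun q hq => ?_
        rw [if_pos hq, one_mul]
      rw [← h4, h3, h5]
    linarith
  -- energy of a
  have hEa : En a ≤ Φ := by
    rw [En_eq sa, key a aK aoff]
    have : 0 ≤ ∑ q ∈ V', a q * ∑ p ∈ W, π q p :=
      Finset.sum_nonneg fun q _ => mul_nonneg (a0 q) (Finset.sum_nonneg fun p _ => π0 q p)
    linarith
  -- energy of b
  have hEb : En b ≤ Φ := by
    rw [← En_one_sub, En_eq sb]
    have e1 : ∑' p, (1 - b p) * La (fun p => 1 - b p) p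
        = ∑ p ∈ W, (1 - b p) * ∑ q ∈ V', π q p := by
      rw [tsum_eq_sum (s := W) (fun q hq => by rw [boff q hq]; ring)]
      refine Finset.sum_congr rfl fun p hp => ?_
      rw [La_one_sub, eqb p hp, neg_neg]
    rw [e1]
    calc ∑ p ∈ W, (1 - b p) * ∑ q ∈ V', π q p ≤ ∑ p ∈ W, ∑ q ∈ V', π q p := by
          refine Finset.sum_le_sum fun p _ => ?_
          have h1 := b0 p
          have h2 : 0 ≤ ∑ q ∈ V', π q p := Finset.sum_nonneg fun q _ => π0 q p
          nlinarith
      _ = ∑ q ∈ V', ∑ p ∈ W, π q p := Finset.sum_comm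
      _ ≤ Φ := htot
  -- bound of Φ
  have h1 : Φ = ∑' q, Bf φ a q + ∑ q ∈ V', φ q * ∑ p ∈ W, π q p := by
    rw [sum_by_parts sφ a, key φ φK φoff]
    ring
  have h2 : ∑ q ∈ V', φ q * ∑ p ∈ W, π q p ≤ - ∑' p, Bf ψ b p := by
    have e1 : ∑' p, Bf ψ b p = - ∑ p ∈ W, ψ p * ∑ q ∈ V', π q p := by
      rw [sum_by_parts sψ b, tsum_eq_sum (s := W) (fun q hq => by rw [ψoff q hq, zero_mul]),
        ← Finset.sum_neg_distrib]
      refine Finset.sum_congr rfl fun p hp => ?_
      rw [eqb p hp]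
      ring
    rw [e1, neg_neg]
    have e2 : ∑ p ∈ W, ψ p * ∑ q ∈ V', π q p = ∑ q ∈ V', ∑ p ∈ W, ψ p * π q p := by
      rw [Finset.sum_comm]
      refine Finset.sum_congr rfl fun p _ => ?_
      rw [Finset.mul_sum]
    rw [e2]
    refine Finset.sum_le_sum fun q _ => ?_
    rw [Finset.mul_sum]
    refine Finset.sum_le_sum fun p _ => ?_
    by_cases hR : R q p
    · exact mul_le_mul_of_nonneg_right (hφψ q p hR) (π0 q p)
    · rw [πoff q p (fun h => hR h.1)]
      simp
  have h3 := tsum_Bf_le sφ fa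
  have h4 := neg_tsum_Bf_le sψ fb
  have h5 : Φ ≤ 2 * (En φ + En ψ) := by linarith
  exact ⟨le_trans htot h5, le_trans hEa h5, le_trans hEb h5, fa, fb⟩

end Pool.Agent.FB018D.ES
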