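import Pool.Agent.Lib.MP_018119_an_FB.DDefs

/-!
# MP_018119_an, project FB, discrete half: length-area on square loops

On the square loop `{sn (q - c) = k}` the oscillation of a function is at most its total variation
`tv`, `tv ^ 2 ≤ 8 k` times the energy `le2` of the edges of the loop, and the energies of the loops of
different radii add up to at most four times the total energy.  So there is a good loop in every
long range of radii.
-/

set_option autoImplicit false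

open Topology Filter Set Metric

namespace Pool.Agent.FB018D

/-- Vertical edge difference, from `(x, y)` to `(x, y + 1)`. -/
def dv (f : Z2 → ℝ) (x y : ℤ) : ℝ := f (x, y + 1) - f (x, y)

/-- Horizontal edge difference, from `(x, y)` to `(x + 1, y)`. -/
def dh (f : Z2 → ℝ) (x y : ℤ) : ℝ := f (x + 1, y) - f (x, y)

/-- Total variation of `f` along the four sides of the square loop `{sn (q - c) = k}`. -/
noncomputable def tv (f : Z2 → ℝ) (c : Z2) (k : ℕ) : ℝ :=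
  ∑ j ∈ Finset.Ico (-(k : ℤ)) k, (|dv f (c.1 + k) (c.2 + j)| + |dv f (c.1 - k) (c.2 + j)| +
    |dh f (c.1 + j) (c.2 + k)| + |dh f (c.1 + j) (c.2 - k)|)

/-- Energy of the edges of the square loop `{sn (q - c) = k}`. -/
noncomputable def le2 (f : Z2 → ℝ) (c : Z2) (k : ℕ) : ℝ :=
  ∑ j ∈ Finset.Ico (-(k : ℤ)) k, (dv f (c.1 + k) (c.2 + j) ^ 2 + dv f (c.1 - k) (c.2 + j) ^ 2 +
    dh f (c.1 + j) (c.2 + k) ^ 2 + dh f (c.1 + j) (c.2 - k) ^ 2)

/-- Telescoping on the integers. -/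
theorem abs_sub_le_sum_int (g : ℤ → ℝ) (i : ℤ) (n : ℕ) :
    |g (i + n) - g i| ≤ ∑ j ∈ Finset.Ico i (i + n), |g (j + 1) - g j| := by
  induction n with
  | zero => simp
  | succ n ih =>
    have h1 : Finset.Ico i (i + ((n + 1 : ℕ) : ℤ)) = insert (i + n) (Finset.Ico i (i + n)) := by
      ext x
      simp only [Finset.mem_Ico, Finset.mem_insert, Nat.cast_add, Nat.cast_one]
      omega
    rw [h1, Finset.sum_insert (by simp)]
    have h2 : g (i + ((n + 1 : ℕ) : ℤ)) - g i = (g (i + n + 1) - g (i + n)) + (g (i + n) - g i) := by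
      push_cast
      ring_nf
    rw [h2]
    exact (abs_add_le _ _).trans (add_le_add le_rfl ih)

/-- Telescoping inside an interval. -/
theorem abs_sub_le_side (g : ℤ → ℝ) (k : ℕ) {i i' : ℤ} (h1 : -(k : ℤ) ≤ i) (h2 : i ≤ k)
    (h3 : -(k : ℤ) ≤ i') (h4 : i' ≤ k) :
    |g i - g i'| ≤ ∑ j ∈ Finset.Ico (-(k : ℤ)) k, |g (j + 1) - g j| := by
  wlog h : i' ≤ i generalizing i i'
  · rw [abs_sub_comm]
    exact this h3 h4 h1 h2 (le_of_not_ge h)
  have h5 := abs_sub_le_sum_int g i' (i - i').toNat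
  have h6 : i' + ((i - i').toNat : ℤ) = i := by omega
  rw [h6] at h5
  refine h5.trans (Finset.sum_le_sum_of_subset_of_nonneg (fun x hx => ?_)
    fun _ _ _ => abs_nonneg _)
  simp only [Finset.mem_Ico] at hx ⊢
  omega

/-- Variation of the right side and so on. -/
theorem right_side (f : Z2 → ℝ) (c : Z2) (k : ℕ) (x : ℤ) {y y' : ℤ} (h1 : -(k : ℤ) ≤ y)
    (h2 : y ≤ k) (h3 : -(k : ℤ) ≤ y') (h4 : y' ≤ k) :
    |f (x, c.2 + y) - f (x, c.2 + y')| ≤
      ∑ j ∈ Finset.Ico (-(k : ℤ)) k, |dv f x (c.2 + j)| := by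
  have := abs_sub_le_side (fun j => f (x, c.2 + j)) k h1 h2 h3 h4
  simpa only [dv, add_assoc] using this

theorem top_side (f : Z2 → ℝ) (c : Z2) (k : ℕ) (y : ℤ) {x x' : ℤ} (h1 : -(k : ℤ) ≤ x)
    (h2 : x ≤ k) (h3 : -(k : ℤ) ≤ x') (h4 : x' ≤ k) :
    |f (c.1 + x, y) - f (c.1 + x', y)| ≤
      ∑ j ∈ Finset.Ico (-(k : ℤ)) k, |dh f (c.1 + j) y| := by
  have := abs_sub_le_side (fun j => f (c.1 + j, y)) k h1 h2 h3 h4
  simpa only [dh, add_assoc] using this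

/-- The oscillation on the loop is at most the total variation. -/
theorem osc_le_tv (f : Z2 → ℝ) (c : Z2) (k : ℕ) {q q' : Z2} (hq : sn (q - c) = k)
    (hq' : sn (q' - c) = k) : |f q - f q'| ≤ tv f c k := by
  obtain ⟨x, y⟩ := q
  obtain ⟨x', y'⟩ := q'
  obtain ⟨u, rfl⟩ : ∃ u, x = c.1 + u := ⟨x - c.1, by ring⟩
  obtain ⟨v, rfl⟩ : ∃ v, y = c.2 + v := ⟨y - c.2, by ring⟩
  obtain ⟨u', rfl⟩ : ∃ u, x' = c.1 + u := ⟨x' - c.1, by ring⟩
  obtain ⟨v', rfl⟩ : ∃ v, y' = c.2 + v := ⟨y' - c.2, by ring⟩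
  simp only [sn, Prod.fst_sub, Prod.snd_sub, add_sub_cancel_left] at hq hq'
  unfold tv
  simp only [Finset.sum_add_distrib]
  have b1 : -(k : ℤ) ≤ u := by omega
  have b2 : u ≤ k := by omega
  have b3 : -(k : ℤ) ≤ v := by omega
  have b4 : v ≤ k := by omega
  have b1' : -(k : ℤ) ≤ u' := by omega
  have b2' : u' ≤ k := by omega
  have b3' : -(k : ℤ) ≤ v' := by omega
  have b4' : v' ≤ k := by omega
  have k1 : -(k : ℤ) ≤ (k : ℤ) := by omega
  have k2 : -(k : ℤ) ≤ -(k : ℤ) := le_rfl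
  have k3 : (k : ℤ) ≤ (k : ℤ) := le_rfl
  have n1 : 0 ≤ ∑ j ∈ Finset.Ico (-(k : ℤ)) k, |dv f (c.1 + k) (c.2 + j)| :=
    Finset.sum_nonneg fun _ _ => abs_nonneg _
  have n2 : 0 ≤ ∑ j ∈ Finset.Ico (-(k : ℤ)) k, |dv f (c.1 - k) (c.2 + j)| :=
    Finset.sum_nonneg fun _ _ => abs_nonneg _
  have n3 : 0 ≤ ∑ j ∈ Finset.Ico (-(k : ℤ)) k, |dh f (c.1 + j) (c.2 + k)| :=
    Finset.sum_nonneg fun _ _ => abs_nonneg _
  have n4 : 0 ≤ ∑ j ∈ Finset.Ico (-(k : ℤ)) k, |dh f (c.1 + j) (c.2 - k)| :=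
    Finset.sum_nonneg fun _ _ => abs_nonneg _
  -- the four sides
  have hside : ∀ {u v : ℤ}, max u.natAbs v.natAbs = k → u = k ∨ u = -(k : ℤ) ∨ v = k ∨
      v = -(k : ℤ) := by
    intro u v h
    omega
  have eR : ∀ {v v' : ℤ}, -(k : ℤ) ≤ v → v ≤ k → -(k : ℤ) ≤ v' → v' ≤ k →
      |f (c.1 + k, c.2 + v) - f (c.1 + k, c.2 + v')| ≤
      ∑ j ∈ Finset.Ico (-(k : ℤ)) k, |dv f (c.1 + k) (c.2 + j)| :=
    fun h1 h2 h3 h4 => right_side f c k _ h1 h2 h3 h4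
  have eL : ∀ {v v' : ℤ}, -(k : ℤ) ≤ v → v ≤ k → -(k : ℤ) ≤ v' → v' ≤ k →
      |f (c.1 + -(k : ℤ), c.2 + v) - f (c.1 + -(k : ℤ), c.2 + v')| ≤
      ∑ j ∈ Finset.Ico (-(k : ℤ)) k, |dv f (c.1 - k) (c.2 + j)| := by
    intro v v' h1 h2 h3 h4
    have := right_side f c k (c.1 + -(k : ℤ)) h1 h2 h3 h4
    simpa only [← sub_eq_add_neg] using this
  have eT : ∀ {v v' : ℤ}, -(k : ℤ) ≤ v → v ≤ k → -(k : ℤ) ≤ v' → v' ≤ k →
      |f (c.1 + v, c.2 + k) - f (c.1 + v', c.2 + k)| ≤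
      ∑ j ∈ Finset.Ico (-(k : ℤ)) k, |dh f (c.1 + j) (c.2 + k)| :=
    fun h1 h2 h3 h4 => top_side f c k _ h1 h2 h3 h4
  have eB : ∀ {v v' : ℤ}, -(k : ℤ) ≤ v → v ≤ k → -(k : ℤ) ≤ v' → v' ≤ k →
      |f (c.1 + v, c.2 + -(k : ℤ)) - f (c.1 + v', c.2 + -(k : ℤ))| ≤
      ∑ j ∈ Finset.Ico (-(k : ℤ)) k, |dh f (c.1 + j) (c.2 - k)| := by
    intro v v' h1 h2 h3 h4
    have := top_side f c k (c.2 + -(k : ℤ)) h1 h2 h3 h4
    simpa only [← sub_eq_add_neg] using this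
  rcases hside hq with rfl | rfl | rfl | rfl <;> rcases hside hq' with rfl | rfl | rfl | rfl
  · have := eR b3 b4 b3' b4'
    linarith
  · have e1 := eR b3 b4 k1 k3
    have e2 := eT k1 k3 k2 k1
    have e3 := eL k1 k3 b3' b4'
    have := abs_sub_le (f (c.1 + k, c.2 + v)) (f (c.1 + k, c.2 + k))
      (f (c.1 + -(k : ℤ), c.2 + v'))
    have := abs_sub_le (f (c.1 + k, c.2 + k)) (f (c.1 + -(k : ℤ), c.2 + k))
      (f (c.1 + -(k : ℤ), c.2 + v'))
    linarith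
  · have e1 := eR b3 b4 k1 k3
    have e2 := eT k1 k3 b1' b2'
    have := abs_sub_le (f (c.1 + k, c.2 + v)) (f (c.1 + k, c.2 + k)) (f (c.1 + u', c.2 + k))
    linarith
  · have e1 := eR b3 b4 k2 k1
    have e2 := eB k1 k3 b1' b2'
    have := abs_sub_le (f (c.1 + k, c.2 + v)) (f (c.1 + k, c.2 + -(k : ℤ)))
      (f (c.1 + u', c.2 + -(k : ℤ)))
    linarith
  · have e1 := eL b3 b4 k1 k3
    have e2 := eT k2 k1 k1 k3
    have e3 := eR k1 k3 b3' b4'
    have := abs_sub_le (f (c.1 + -(k : ℤ), c.2 + v)) (f (c.1 + -(k : ℤ), c.2 + k))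
      (f (c.1 + k, c.2 + v'))
    have := abs_sub_le (f (c.1 + -(k : ℤ), c.2 + k)) (f (c.1 + k, c.2 + k))
      (f (c.1 + k, c.2 + v'))
    linarith
  · have := eL b3 b4 b3' b4'
    linarith
  · have e1 := eL b3 b4 k1 k3
    have e2 := eT k2 k1 b1' b2'
    have := abs_sub_le (f (c.1 + -(k : ℤ), c.2 + v)) (f (c.1 + -(k : ℤ), c.2 + k))
      (f (c.1 + u', c.2 + k))
    linarith
  · have e1 := eL b3 b4 k2 k1
    have e2 := eB k2 k1 b1' b2'
    have := abs_sub_le (f (c.1 + -(k : ℤ), c.2 + v)) (f (c.1 + -(k : ℤ), c.2 + -(k : ℤ)))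
      (f (c.1 + u', c.2 + -(k : ℤ)))
    linarith
  · have e1 := eT b1 b2 k1 k3
    have e2 := eR k1 k3 b3' b4'
    have := abs_sub_le (f (c.1 + u, c.2 + k)) (f (c.1 + k, c.2 + k)) (f (c.1 + k, c.2 + v'))
    linarith
  · have e1 := eT b1 b2 k2 k1
    have e2 := eL k1 k3 b3' b4'
    have := abs_sub_le (f (c.1 + u, c.2 + k)) (f (c.1 + -(k : ℤ), c.2 + k))
      (f (c.1 + -(k : ℤ), c.2 + v'))
    linarith
  · have := eT b1 b2 b1' b2'
    linarith
  · have e1 := eT b1 b2 k1 k3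
    have e2 := eR k1 k3 k2 k1
    have e3 := eB k1 k3 b1' b2'
    have := abs_sub_le (f (c.1 + u, c.2 + k)) (f (c.1 + k, c.2 + k)) (f (c.1 + u', c.2 + -(k : ℤ)))
    have := abs_sub_le (f (c.1 + k, c.2 + k)) (f (c.1 + k, c.2 + -(k : ℤ)))
      (f (c.1 + u', c.2 + -(k : ℤ)))
    linarith
  · have e1 := eB b1 b2 k1 k3
    have e2 := eR k2 k1 b3' b4'
    have := abs_sub_le (f (c.1 + u, c.2 + -(k : ℤ))) (f (c.1 + k, c.2 + -(k : ℤ)))
      (f (c.1 + k, c.2 + v'))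
    linarith
  · have e1 := eB b1 b2 k2 k1
    have e2 := eL k2 k1 b3' b4'
    have := abs_sub_le (f (c.1 + u, c.2 + -(k : ℤ))) (f (c.1 + -(k : ℤ), c.2 + -(k : ℤ)))
      (f (c.1 + -(k : ℤ), c.2 + v'))
    linarith
  · have e1 := eB b1 b2 k1 k3
    have e2 := eR k2 k1 k1 k3
    have e3 := eT k1 k3 b1' b2'
    have := abs_sub_le (f (c.1 + u, c.2 + -(k : ℤ))) (f (c.1 + k, c.2 + -(k : ℤ)))
      (f (c.1 + u', c.2 + k))
    have := abs_sub_le (f (c.1 + k, c.2 + -(k : ℤ))) (f (c.1 + k, c.2 + k))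
      (f (c.1 + u', c.2 + k))
    linarith
  · have := eB b1 b2 b1' b2'
    linarith

/-- Cauchy-Schwarz: the loop has `8 k` edges. -/
theorem tv_sq (f : Z2 → ℝ) (c : Z2) (k : ℕ) : tv f c k ^ 2 ≤ 8 * k * le2 f c k := by
  unfold tv le2
  have hcard : ((Finset.Ico (-(k : ℤ)) k).card : ℝ) = 2 * k := by
    rw [Int.card_Ico]
    have : ((k : ℤ) - -(k : ℤ)).toNat = 2 * k := by omega
    rw [this]
    push_cast
    ring
  have h1 := sq_sum_le_card_mul_sum_sq (s := Finset.Ico (-(k : ℤ)) k)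
    (f := fun j => |dv f (c.1 + k) (c.2 + j)| + |dv f (c.1 - k) (c.2 + j)| +
      |dh f (c.1 + j) (c.2 + k)| + |dh f (c.1 + j) (c.2 - k)|)
  rw [hcard] at h1
  refine h1.trans ?_
  have h2 : ∑ j ∈ Finset.Ico (-(k : ℤ)) k, (|dv f (c.1 + k) (c.2 + j)| +
      |dv f (c.1 - k) (c.2 + j)| + |dh f (c.1 + j) (c.2 + k)| + |dh f (c.1 + j) (c.2 - k)|) ^ 2 ≤
      4 * ∑ j ∈ Finset.Ico (-(k : ℤ)) k, (dv f (c.1 + k) (c.2 + j) ^ 2 +
      dv f (c.1 - k) (c.2 + j) ^ 2 + dh f (c.1 + j) (c.2 + k) ^ 2 +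
      dh f (c.1 + j) (c.2 - k) ^ 2) := by
    rw [Finset.mul_sum]
    refine Finset.sum_le_sum fun j _ => ?_
    rw [← sq_abs (dv f (c.1 + k) (c.2 + j)), ← sq_abs (dv f (c.1 - k) (c.2 + j)),
      ← sq_abs (dh f (c.1 + j) (c.2 + k)), ← sq_abs (dh f (c.1 + j) (c.2 - k))]
    nlinarith [sq_nonneg (|dv f (c.1 + k) (c.2 + j)| - |dv f (c.1 - k) (c.2 + j)|),
      sq_nonneg (|dv f (c.1 + k) (c.2 + j)| - |dh f (c.1 + j) (c.2 + k)|),
      sq_nonneg (|dv f (c.1 + k) (c.2 + j)| - |dh f (c.1 + j) (c.2 - k)|),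
      sq_nonneg (|dv f (c.1 - k) (c.2 + j)| - |dh f (c.1 + j) (c.2 + k)|),
      sq_nonneg (|dv f (c.1 - k) (c.2 + j)| - |dh f (c.1 + j) (c.2 - k)|),
      sq_nonneg (|dh f (c.1 + j) (c.2 + k)| - |dh f (c.1 + j) (c.2 - k)|)]
  have hk : (0 : ℝ) ≤ 2 * k := by positivity
  calc _ ≤ 2 * (k : ℝ) * (4 * _) := mul_le_mul_of_nonneg_left h2 hk
    _ = _ := by ring

/-- Finite partial sums of the energy. -/
theorem sum_Dsq_le (f : Z2 → ℝ) (hf : FinE f) (s : Finset Z2) : ∑ p ∈ s, Dsq f p ≤ En f := by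
  refine Summable.sum_le_tsum s (fun p _ => ?_) ?_
  · unfold Dsq
    positivity
  · exact summable_of_hasFiniteSupport hf

theorem dv_sq_le (f : Z2 → ℝ) (x y : ℤ) : dv f x y ^ 2 ≤ Dsq f (x, y) := by
  unfold dv Dsq
  have : ((x, y) : Z2) + (0, 1) = (x, y + 1) := by simp
  rw [this]
  nlinarith [sq_nonneg (f ((x, y) + (1, 0)) - f (x, y))]

theorem dh_sq_le (f : Z2 → ℝ) (x y : ℤ) : dh f x y ^ 2 ≤ Dsq f (x, y) := by
  unfold dh Dsq
  have : ((x, y) : Z2) + (1, 0) = (x + 1, y) := by simp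
  rw [this]
  nlinarith [sq_nonneg (f ((x, y) + (0, 1)) - f (x, y))]

/-- One family of edges. -/
theorem family_le (f : Z2 → ℝ) (hf : FinE f) (s : Finset ℕ) (g : ℕ → ℤ → Z2)
    (hg : ∀ k j k' j', g k j = g k' j' → k = k' ∧ j = j') (v : ℕ → ℤ → ℝ)
    (hv : ∀ k j, v k j ≤ Dsq f (g k j)) :
    ∑ k ∈ s, ∑ j ∈ Finset.Ico (-(k : ℤ)) k, v k j ≤ En f := by
  classical
  have h1 : ∑ k ∈ s, ∑ j ∈ Finset.Ico (-(k : ℤ)) k, v k j ≤
      ∑ k ∈ s, ∑ j ∈ Finset.Ico (-(k : ℤ)) k, Dsq f (g k j) :=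
    Finset.sum_le_sum fun k _ => Finset.sum_le_sum fun j _ => hv k j
  refine h1.trans ?_
  rw [Finset.sum_sigma']
  have h2 := Finset.sum_image (f := fun p => Dsq f p)
    (s := s.sigma fun k => Finset.Ico (-(k : ℤ)) k) (g := fun x => g x.1 x.2) (by
      intro x _ y _ hxy
      obtain ⟨h3, h4⟩ := hg _ _ _ _ hxy
      obtain ⟨x1, x2⟩ := x
      obtain ⟨y1, y2⟩ := y
      simp only at h3 h4
      subst h3 h4
      rfl)
  rw [← h2]
  exact sum_Dsq_le f hf _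

/-- The energies of the loops add up. -/
theorem sum_le2 (f : Z2 → ℝ) (hf : FinE f) (c : Z2) (s : Finset ℕ) :
    ∑ k ∈ s, le2 f c k ≤ 4 * En f := by
  unfold le2
  simp only [Finset.sum_add_distrib]
  have h1 := family_le f hf s (fun k j => (c.1 + k, c.2 + j)) (by
    intro k j k' j' h
    simp only [Prod.mk.injEq] at h
    omega) (fun k j => dv f (c.1 + k) (c.2 + j) ^ 2) (fun k j => dv_sq_le f _ _)
  have h2 := family_le f hf s (fun k j => (c.1 - k, c.2 + j)) (by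
    intro k j k' j' h
    simp only [Prod.mk.injEq] at h
    omega) (fun k j => dv f (c.1 - k) (c.2 + j) ^ 2) (fun k j => dv_sq_le f _ _)
  have h3 := family_le f hf s (fun k j => (c.1 + j, c.2 + k)) (by
    intro k j k' j' h
    simp only [Prod.mk.injEq] at h
    omega) (fun k j => dh f (c.1 + j) (c.2 + k) ^ 2) (fun k j => dh_sq_le f _ _)
  have h4 := family_le f hf s (fun k j => (c.1 + j, c.2 - k)) (by
    intro k j k' j' h
    simp only [Prod.mk.injEq] at h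
    omega) (fun k j => dh f (c.1 + j) (c.2 - k) ^ 2) (fun k j => dh_sq_le f _ _)
  linarith

/-- Good loop. -/
theorem good_loop (f : Z2 → ℝ) (hf : FinE f) (C : ℝ) (hE : En f ≤ C) (c : Z2) (η : ℝ)
    (hη : 0 < η) (K0 K1 : ℕ) (hK0 : 1 ≤ K0)
    (hs : 32 * C < η ^ 2 * ∑ k ∈ Finset.Ico K0 K1, (1 : ℝ) / k) :
    ∃ k ∈ Finset.Ico K0 K1, ∀ q q', sn (q - c) = k → sn (q' - c) = k → |f q - f q'| ≤ η := by
  by_contra hcon
  push Not at hcon
  have h1 : ∀ k ∈ Finset.Ico K0 K1, η ^ 2 * ((1 : ℝ) / k) ≤ 8 * le2 f c k := by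
    intro k hk
    obtain ⟨q, q', hq, hq', hlt⟩ := hcon k hk
    have h2 := osc_le_tv f c k hq hq'
    have h3 := tv_sq f c k
    have hk1 : (1 : ℝ) ≤ k := by
      have := (Finset.mem_Ico.mp hk).1
      exact_mod_cast hK0.trans this
    have h4 : η ^ 2 ≤ tv f c k ^ 2 := by
      have : η ≤ tv f c k := by linarith
      exact pow_le_pow_left₀ hη.le this 2
    rw [mul_one_div, div_le_iff₀ (by linarith)]
    linarith
  have h5 := Finset.sum_le_sum h1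
  rw [← Finset.mul_sum, ← Finset.mul_sum] at h5
  have h6 := sum_le2 f hf c (Finset.Ico K0 K1)
  linarith

/-- The harmonic sum over `[K, L K)` is large, uniformly in `K`. -/
theorem harm_sum (M : ℝ) : ∃ L : ℕ, 2 ≤ L ∧ ∀ K : ℕ, 1 ≤ K →
    M < ∑ k ∈ Finset.Ico K (L * K), (1 : ℝ) / k := by
  have key : ∀ L K : ℕ, 1 ≤ K → ∑ i ∈ Finset.range L, (1 : ℝ) / (i + 1) - 1 ≤
      ∑ k ∈ Finset.Ico K (L * K), (1 : ℝ) / k := by
    intro L K hK
    induction L with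
    | zero =>
      simp
    | succ L ih =>
      rcases Nat.eq_zero_or_pos L with h0 | h0
      · subst h0
        simp
      · rw [Finset.sum_range_succ]
        have h1 : K ≤ L * K := Nat.le_mul_of_pos_left K h0
        have h2 : L * K ≤ (L + 1) * K := Nat.mul_le_mul_right K (Nat.le_succ L)
        rw [← Finset.sum_Ico_consecutive _ h1 h2]
        have h3 : (1 : ℝ) / (L + 1) ≤ ∑ k ∈ Finset.Ico (L * K) ((L + 1) * K), (1 : ℝ) / k := by
          have h4 : ∀ k ∈ Finset.Ico (L * K) ((L + 1) * K),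
              (1 : ℝ) / ((L + 1) * K) ≤ (1 : ℝ) / k := by
            intro k hk
            rw [Finset.mem_Ico] at hk
            have hk0 : 0 < k := lt_of_lt_of_le (Nat.mul_pos h0 hK) hk.1
            refine one_div_le_one_div_of_le (by exact_mod_cast hk0) ?_
            exact_mod_cast hk.2.le
          have h5 := Finset.card_nsmul_le_sum _ _ _ h4
          rw [Nat.card_Ico, nsmul_eq_mul] at h5
          have h6 : (L + 1) * K - L * K = K := by
            rw [Nat.add_mul, one_mul]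
            omega
          rw [h6] at h5
          refine le_trans (le_of_eq ?_) h5
          have hK' : (K : ℝ) ≠ 0 := by
            have : K ≠ 0 := by omega
            exact_mod_cast this
          field_simp
        linarith
  have hdiv := Real.tendsto_sum_range_one_div_nat_succ_atTop
  obtain ⟨L, hL⟩ := ((hdiv.eventually_gt_atTop (M + 1)).and (eventually_ge_atTop 2)).exists
  refine ⟨L, hL.2, fun K hK => ?_⟩
  have := key L K hK
  linarith [hL.1]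

end Pool.Agent.FB018D
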