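import Pool.Agent.Lib.MP_018119_an_FB.DDefs

/-!
# MP_018119_an, project FB: the seam between the discrete solutions and their limit
-/

set_option autoImplicit false

open Topology Filter Set Metric

namespace Pool.Agent.FB018D

/-- Plateau of the first plane: lattice points of the closed square of radius `s`. -/
def Ka (h s : ℝ) : Set Z2 := {q | h * sn q ≤ s}

/-- Plateau of the second plane: lattice points outside the open square of radius `r`. -/
def Kb (h r : ℝ) : Set Z2 := {p | r ≤ h * sn p}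

/-- Weights of a sequence of discrete solutions and the two equations. -/
structure SW (F : ℂ ≃ₜ ℂ) (s r : ℝ) (h h' : ℕ → ℝ) (a b : ℕ → Z2 → ℝ)
    (S : ℕ → Finset (Z2 × Z2)) (w : ℕ → Z2 × Z2 → ℝ) (C : ℝ) : Prop where
  w0 : ∀ j, ∀ x ∈ S j, 0 ≤ w j x
  rel : ∀ j, ∀ x ∈ S j, Rel F (h j) (h' j) x.1 x.2
  inn : ∀ j, ∀ x ∈ S j, ∀ p, Rel F (h j) (h' j) x.1 p → h' j * sn p < r
  tot : ∀ j, ∑ x ∈ S j, w j x ≤ C
  eqa : ∀ j q, s < h j * sn q → (∀ p, Rel F (h j) (h' j) q p → h' j * sn p < r) →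
    La (a j) q = - ∑ x ∈ S j, (if x.1 = q then w j x else 0)
  eqb : ∀ j p, h' j * sn p < r →
    La (b j) p = - ∑ x ∈ S j, (if x.2 = p then w j x else 0)

/-- Asymptotic equicontinuity of a sequence of lattice functions (meshes `h j`). -/
def EqC (h : ℕ → ℝ) (a : ℕ → Z2 → ℝ) : Prop :=
  ∀ R : ℝ, ∀ η : ℝ, 0 < η → ∃ ρ : ℝ, 0 < ρ ∧ ∀ᶠ j in atTop, ∀ q q' : Z2,
    sq (pt (h j) q) ≤ R → sq (pt (h j) q - pt (h j) q') ≤ ρ → |a j q - a j q'| ≤ η

end Pool.Agent.FB018D
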