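import Pool.Agent.Lib.MP_018119_an_FB.DCore
import Pool.Agent.Lib.MP_018119_an_FB.DLoop
import Pool.Agent.Lib.MP_018119_an_FB.DSeam

/-!
# MP_018119_an, project FB, discrete half (A6): asymptotic equicontinuity
-/

set_option autoImplicit false

open Topology Filter Set Metric

namespace Pool.Agent.FB018D

variable {F : ℂ ≃ₜ ℂ} {h h' : ℕ → ℝ} {K K' : ℕ → Set Z2} {a b : ℕ → Z2 → ℝ} {C R0 : ℝ}

/-- A set which contains two points at distance at least `R0` is not in a square of radius less than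
`R0 / 2` (`sq_tri`, `sq_sub_comm`). -/
theorem far_of_big {X : Set ℂ} {R0 t : ℝ} (G : ℂ → ℂ)
    (hX : ∃ x ∈ X, ∃ y ∈ X, R0 ≤ sq (G x - G y)) (ht : t < R0 / 2) (w : ℂ) :
    ∃ x ∈ X, t < sq (G x - w) := by
  obtain ⟨x, hx, y, hy, hxy⟩ := hX
  by_contra hcon
  push Not at hcon
  have h1 := hcon x hx
  have h2 := hcon y hy
  have h3 := sq_tri (G x) w (G y)
  rw [sq_sub_comm w (G y)] at h3
  linarith

/-- **Equicontinuity.**

Proof. Let `R`, `η` be given; we may take `η < 1` (replace `η` by `min η (1/2)`) and `0 ≤ R`. Take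
`L` from `harm_sum` with `32 C < η² Σ_{[K, L K)} 1/k` for all `K ≥ 1` and put `r1 = R0 / 4`,
`r2 = r1 / (4 L)`, `r3 = r2 / 2`, `r4 = r3 / (4 L)`, `ρ = r4`. By `ubdd` (for `F`) and `umod` (for
`F.symm`, on the bounded image of `{sq x ≤ R + r3 + 1}`, `τ = r2 / 8`) there is `d > 0` with:
`sq x ≤ R + r3 + 1` and `sq (F x - F y) ≤ d` imply `sq (x - y) ≤ r2 / 8`. Take `j` so large that
`h j < min (r4, r2 / 4, 1)`, `2 h' j ≤ d` (`H.lh`, `H.lh'`, `h j > 0` from `H.side j`).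
Let `q, q'` be as in the statement, `c = q`.
* `good_loop` for `a j` with `K0 = ⌈r2 / h⌉`, `K1 = L K0`: `h K1 ≤ L (r2 + h) ≤ 2 r2 L ≤ r1`: a
  loop `k2`, `r2 ≤ h k2 ≤ r1`, oscillation `≤ η`. With `K0 = ⌈r4 / h⌉`: a loop `k1`,
  `r4 ≤ h k1 ≤ 2 r4 L ≤ r3 < r2`, so `k1 < k2`.
* `hK`, `hK'` of `core`: `far_of_big` with `t = h (k2 + 1/2) ≤ r1 + h / 2 < R0 / 2` (`G = id`
  resp. `G = F.symm`) and `H.big`, `H.big'`.
* `hmod`: `sq (x - pt h c) ≤ h (k1 + 1/2) ≤ r3 + h / 2`, so `sq x ≤ R + r3 + 1`; then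
  `sq (y - pt h c) ≤ r3 + h / 2 + r2 / 8 ≤ r2 / 2 + r2 / 8 + r2 / 8 < r2 ≤ h k2`.
* `core` with `sn (q - c) = 0`, `h sn (q' - c) ≤ ρ = r4 ≤ h k1` (`sq_pt_sub`), used twice
  (`a q - a q' ≤ η` and `a q' - a q ≤ η`). -/
theorem equicont (H : SQ F h h' K K' a b C R0) : EqC h a := by
  intro R η hη
  set η' := min η (1 / 2) with hη'
  have hη0 : 0 < η' := lt_min hη (by norm_num)
  have hη1 : η' < 1 := lt_of_le_of_lt (min_le_right _ _) (by norm_num)
  set R' := max R 0 with hR'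
  have hR0' : 0 ≤ R' := le_max_right _ _
  obtain ⟨L, hL2, hL⟩ := harm_sum (32 * C / η' ^ 2)
  have hL' : ∀ k : ℕ, 1 ≤ k →
      32 * C < η' ^ 2 * ∑ i ∈ Finset.Ico k (L * k), (1 : ℝ) / i := by
    intro k hk
    have h1 := hL k hk
    rw [div_lt_iff₀ (by positivity)] at h1
    linarith
  have hLr : (2 : ℝ) ≤ L := by exact_mod_cast hL2
  have R0p := H.R0pos
  obtain ⟨r1, hr1⟩ : ∃ r1 : ℝ, r1 = R0 / 4 := ⟨_, rfl⟩
  obtain ⟨r2, hr2⟩ : ∃ r2 : ℝ, r2 = r1 / (4 * L) := ⟨_, rfl⟩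
  obtain ⟨r3, hr3⟩ : ∃ r3 : ℝ, r3 = r2 / 2 := ⟨_, rfl⟩
  obtain ⟨r4, hr4⟩ : ∃ r4 : ℝ, r4 = r3 / (4 * L) := ⟨_, rfl⟩
  have p1 : 0 < r1 := by rw [hr1]; linarith
  have p2 : 0 < r2 := by rw [hr2]; positivity
  have p3 : 0 < r3 := by rw [hr3]; positivity
  have p4 : 0 < r4 := by rw [hr4]; positivity
  have e2 : L * r2 * 4 = r1 := by
    rw [hr2]
    field_simp
  have e4 : L * r4 * 4 = r3 := by
    rw [hr4]
    field_simp
  have i2 : r2 * 8 ≤ r1 := by nlinarith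
  have i4 : r4 * 8 ≤ r3 := by nlinarith
  obtain ⟨R'', -, hF⟩ := ubdd F.continuous (R' + r3 + 1)
  obtain ⟨d, hd0, hd⟩ := umod F.symm.continuous R'' (τ := r2 / 8) (by linarith)
  have hd' : ∀ x y : ℂ, sq x ≤ R' + r3 + 1 → sq (F x - F y) ≤ d → sq (x - y) ≤ r2 / 8 := by
    intro x y hx hxy
    have := hd (F x) (F y) (hF x hx) hxy
    simpa using this
  refine ⟨r4, p4, ?_⟩
  have ev1 := H.lh.eventually_lt_const (show (0 : ℝ) < min r4 1 from lt_min p4 one_pos)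
  have ev2 := H.lh'.eventually_lt_const (show (0 : ℝ) < d / 2 from by linarith)
  filter_upwards [ev1, ev2] with j hj1 hj2
  have h0 := (H.side j).h0
  obtain ⟨t, ht⟩ : ∃ t : ℝ, t = h j := ⟨_, rfl⟩
  rw [← ht] at hj1 h0
  have ht4 : t < r4 := lt_of_lt_of_le hj1 (min_le_left _ _)
  have ht1 : t < 1 := lt_of_lt_of_le hj1 (min_le_right _ _)
  intro q q' hq hqq
  -- a good loop in a range starting at radius `r`
  have loop : ∀ r : ℝ, 0 < r → t ≤ r → ∃ k : ℕ, r ≤ t * k ∧ t * k ≤ 2 * (L * r) ∧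
      ∀ x y, sn (x - q) = k → sn (y - q) = k → |a j x - a j y| ≤ η' := by
    intro r hr htr
    obtain ⟨k, hk, hosc⟩ := good_loop (a j) (H.fa j) C (H.ea j) q η' hη0 ⌈r / t⌉₊
      (L * ⌈r / t⌉₊) (Nat.one_le_ceil_iff.mpr (by positivity))
      (hL' _ (Nat.one_le_ceil_iff.mpr (by positivity)))
    rw [Finset.mem_Ico] at hk
    have c1 : r / t ≤ ⌈r / t⌉₊ := Nat.le_ceil _
    have c2 : (⌈r / t⌉₊ : ℝ) < r / t + 1 := Nat.ceil_lt_add_one (by positivity)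
    have c3 : (⌈r / t⌉₊ : ℝ) ≤ k := by exact_mod_cast hk.1
    have c4 : (k : ℝ) ≤ L * ⌈r / t⌉₊ := by exact_mod_cast hk.2.le
    refine ⟨k, ?_, ?_, hosc⟩
    · have : r / t ≤ k := le_trans c1 c3
      rw [div_le_iff₀ h0] at this
      linarith
    · have c5 : (k : ℝ) ≤ L * (r / t + 1) :=
        le_trans c4 (mul_le_mul_of_nonneg_left c2.le (by linarith))
      have c6 : t * k ≤ t * (L * (r / t + 1)) := mul_le_mul_of_nonneg_left c5 h0.le
      have c7 : t * (L * (r / t + 1)) = L * (r + t) := by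
        field_simp
      rw [c7] at c6
      nlinarith
  obtain ⟨k2, u1, u2, o2⟩ := loop r2 p2 (by linarith)
  obtain ⟨k1, v1, v2, o1⟩ := loop r4 p4 ht4.le
  have hk : k1 < k2 := by
    have : t * (k1 : ℝ) < t * k2 := by nlinarith
    have := lt_of_mul_lt_mul_left this h0.le
    exact_mod_cast this
  have hfar : t * ((k2 : ℝ) + 1 / 2) < R0 / 2 := by nlinarith
  have hK1 : ∃ x ∈ UC t (K j), t * ((k2 : ℝ) + 1 / 2) < sq (x - pt t q) := by
    obtain ⟨x, hx, y, hy, hxy, -⟩ := H.big j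
    rw [← ht] at hx hy
    exact far_of_big (fun z => z) ⟨x, hx, y, hy, hxy⟩ hfar (pt t q)
  have hK2 : ∃ x ∈ UC (h' j) (K' j), t * ((k2 : ℝ) + 1 / 2) < sq (F.symm x - pt t q) := by
    obtain ⟨x, hx, y, hy, -, hxy⟩ := H.big' j
    exact far_of_big F.symm ⟨x, hx, y, hy, hxy⟩ hfar (pt t q)
  have hmod : ∀ x y : ℂ, sq (x - pt t q) ≤ t * ((k1 : ℝ) + 1 / 2) → sq (F x - F y) ≤ 2 * h' j →
      sq (y - pt t q) < t * ((k2 : ℝ) + 1 / 2) := by
    intro x y hx hxy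
    have s1 : sq x ≤ R' + r3 + 1 := by
      have w1 := sq_add_le (x - pt t q) (pt t q)
      rw [sub_add_cancel] at w1
      have w2 : sq (pt t q) ≤ R' := le_trans (by rw [ht]; exact hq) (le_max_left _ _)
      nlinarith
    have s2 := hd' x y s1 (by linarith)
    have s3 := sq_tri y x (pt t q)
    rw [sq_sub_comm y x] at s3
    nlinarith
  have hc0 : sn (q - q) ≤ k1 := by
    rw [sub_self, sn_zero]
    exact Nat.zero_le _
  have hc1 : sn (q' - q) ≤ k1 := by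
    have w1 : t * (sn (q' - q) : ℝ) ≤ r4 := by
      rw [← sq_pt_sub h0.le, sq_sub_comm, ht]
      exact hqq
    have w2 : t * (sn (q' - q) : ℝ) ≤ t * k1 := le_trans w1 v1
    have := le_of_mul_le_mul_left w2 h0
    exact_mod_cast this
  have hside := H.side j
  rw [← ht] at hside
  have o2' : ∀ x y, sn (x - q) = k2 → sn (y - q) = k2 → a j x - a j y ≤ η' :=
    fun x y hx hy => le_trans (le_abs_self _) (o2 x y hx hy)
  have o1' : ∀ x y, sn (x - q) = k1 → sn (y - q) = k1 → a j x - a j y ≤ η' :=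
    fun x y hx hy => le_trans (le_abs_self _) (o1 x y hx hy)
  have g1 := core hside q k1 k2 hk hη0.le hη1 o2' o1' hK1 hK2 hmod hc0 hc1
  have g2 := core hside q k1 k2 hk hη0.le hη1 o2' o1' hK1 hK2 hmod hc1 hc0
  have g3 : η' ≤ η := min_le_left _ _
  rw [abs_le]
  constructor <;> linarith

end Pool.Agent.FB018D
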