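import Pool.Agent.Lib.MP_018119_an_FB.DCut

/-!
# MP_018119_an, project FB: existence of the discrete solutions (deliverable E1)
-/

set_option autoImplicit false

open Topology Filter Set

namespace Pool.Agent.FB018D.ES

theorem sq_nonneg' (z : ℂ) : 0 ≤ sq z := le_trans (abs_nonneg _) (le_max_left _ _)

theorem sq_add_le (x y : ℂ) : sq (x + y) ≤ sq x + sq y := by
  refine sq_le_iff.mpr ⟨?_, ?_⟩
  · rw [Complex.add_re]
    exact le_trans (abs_add_le _ _) (add_le_add (le_max_left _ _) (le_max_left _ _))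
  · rw [Complex.add_im]
    exact le_trans (abs_add_le _ _) (add_le_add (le_max_right _ _) (le_max_right _ _))

theorem sq_neg' (x : ℂ) : sq (-x) = sq x := by
  unfold sq
  simp

theorem sq_sub_comm (x y : ℂ) : sq (x - y) = sq (y - x) := by
  rw [← sq_neg', neg_sub]

theorem sq_le_norm (x : ℂ) : sq x ≤ ‖x‖ :=
  sq_le_iff.mpr ⟨Complex.abs_re_le_norm x, Complex.abs_im_le_norm x⟩

theorem norm_le_sq (x : ℂ) : ‖x‖ ≤ 2 * sq x := by
  have h1 := Complex.norm_le_abs_re_add_abs_im x
  have h2 : |x.re| ≤ sq x := le_max_left _ _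
  have h3 : |x.im| ≤ sq x := le_max_right _ _
  linarith

theorem sq_pos_of_ne {x : ℂ} (hx : x ≠ 0) : 0 < sq x := by
  have h1 := norm_le_sq x
  have h2 := norm_pos_iff.mpr hx
  linarith

theorem sq_pt {h : ℝ} (h0 : 0 ≤ h) (q : Z2) : sq (pt h q) = h * sn q := by
  unfold sq pt sn
  simp only [abs_mul, abs_of_nonneg h0]
  rw [← mul_max_of_nonneg _ _ h0, Nat.cast_max]
  simp only [Nat.cast_natAbs, Int.cast_abs]

theorem sq_le_of_mem {h : ℝ} (h0 : 0 ≤ h) {q : Z2} {x : ℂ} (hx : x ∈ cell h q) :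
    sq x ≤ h * sn q + h / 2 := by
  have h1 := sq_add_le (x - pt h q) (pt h q)
  rw [sub_add_cancel, sq_pt h0] at h1
  have h2 : sq (x - pt h q) ≤ h / 2 := hx
  linarith

theorem le_sq_of_mem {h : ℝ} (h0 : 0 ≤ h) {q : Z2} {x : ℂ} (hx : x ∈ cell h q) :
    h * sn q ≤ sq x + h / 2 := by
  have h1 := sq_add_le (pt h q - x) x
  rw [sub_add_cancel, sq_pt h0, sq_sub_comm] at h1
  have h2 : sq (x - pt h q) ≤ h / 2 := hx
  linarith

theorem mem_rd {h : ℝ} (h0 : 0 < h) (x : ℂ) : x ∈ cell h (rd h x) := by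
  refine sq_le_iff.mpr ⟨?_, ?_⟩
  · simp only [pt, rd, Complex.sub_re]
    have h1 := abs_sub_round (x.re / h)
    have h2 : x.re - h * (round (x.re / h) : ℝ) = h * (x.re / h - round (x.re / h)) := by
      field_simp
    rw [h2, abs_mul, abs_of_pos h0]
    nlinarith
  · simp only [pt, rd, Complex.sub_im]
    have h1 := abs_sub_round (x.im / h)
    have h2 : x.im - h * (round (x.im / h) : ℝ) = h * (x.im / h - round (x.im / h)) := by
      field_simp
    rw [h2, abs_mul, abs_of_pos h0]
    nlinarith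

theorem mem_UC_Ka {h s : ℝ} (h0 : 0 < h) {x : ℂ} (hx : sq x + h / 2 ≤ s) : x ∈ UC h (Ka h s) := by
  have h1 := mem_rd h0 x
  refine mem_biUnion (x := rd h x) ?_ h1
  exact le_trans (le_sq_of_mem h0.le h1) hx

theorem mem_UC_Kb {h r : ℝ} (h0 : 0 < h) {x : ℂ} (hx : r ≤ sq x - h / 2) : x ∈ UC h (Kb h r) := by
  have h1 := mem_rd h0 x
  refine mem_biUnion (x := rd h x) ?_ h1
  have := sq_le_of_mem h0.le h1
  show r ≤ h * sn (rd h x)
  linarith

theorem finite_lt {h : ℝ} (h0 : 0 < h) (B : ℝ) : {q : Z2 | h * sn q ≤ B}.Finite := by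
  refine (box ⌈B / h⌉₊).finite_toSet.subset fun q hq => ?_
  have h1 : h * (sn q : ℝ) ≤ B := hq
  have h2 : B / h ≤ ⌈B / h⌉₊ := Nat.le_ceil _
  have h3 : (sn q : ℝ) ≤ B / h := by
    rw [le_div_iff₀ h0]
    linarith
  have h4 : (sn q : ℝ) ≤ (⌈B / h⌉₊ : ℝ) := le_trans h3 h2
  exact_mod_cast mem_box.mpr (by exact_mod_cast h4)

/-- One mesh. -/
theorem exists_mesh (F : ℂ ≃ₜ ℂ) {s r : ℝ} (s0 : 0 < s) (r0 : 0 < r)
    (hF : ∀ z, sq z ≤ 3 * s → sq (F z) ≤ r / 8) (B : ℝ)
    (hB : ∀ w, sq w ≤ 2 * r → sq (F.symm w) ≤ B) {h : ℝ} (h0 : 0 < h) (hs : h ≤ s)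
    (hr : h ≤ r / 8) :
    ∃ (a b : Z2 → ℝ) (S : Finset (Z2 × Z2)) (w : Z2 × Z2 → ℝ),
      SD F h h (Ka h s) (Kb h r) a b ∧ FinE a ∧ FinE b ∧ En a ≤ 392 ∧ En b ≤ 392 ∧
      (∀ x ∈ S, 0 ≤ w x) ∧ (∀ x ∈ S, Rel F h h x.1 x.2) ∧
      (∀ x ∈ S, ∀ p, Rel F h h x.1 p → h * sn p < r) ∧
      (∑ x ∈ S, w x ≤ 392) ∧
      (∀ q, s < h * sn q → (∀ p, Rel F h h q p → h * sn p < r) →
        La a q = - ∑ x ∈ S, (if x.1 = q then w x else 0)) ∧
      (∀ p, h * sn p < r → La b p = - ∑ x ∈ S, (if x.2 = p then w x else 0)) := by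
  classical
  -- incident cells of cells near the origin
  have near : ∀ q p, Rel F h h q p → h * sn q ≤ 2 * s → h * sn p ≤ r / 4 := by
    rintro q p ⟨x, hx, hFx⟩ hq
    have h1 := sq_le_of_mem h0.le hx
    have h2 := hF x (by linarith)
    have h3 := le_sq_of_mem h0.le hFx
    linarith
  have fW : {p : Z2 | h * sn p < r}.Finite :=
    (finite_lt h0 r).subset fun p hp => by
      have hp' : h * (sn p : ℝ) < r := hp
      exact hp'.le
  have fV : {q : Z2 | ∀ p, Rel F h h q p → h * sn p < r}.Finite := by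
    refine (finite_lt h0 B).subset fun q hq => ?_
    have h1 : pt h q ∈ cell h q := by
      show sq (pt h q - pt h q) ≤ h / 2
      rw [sub_self]
      simp only [sq, Complex.zero_re, Complex.zero_im, abs_zero, max_self]
      linarith
    have h2 := mem_rd h0 (F (pt h q))
    have h3 : h * (sn (rd h (F (pt h q))) : ℝ) < r := hq _ ⟨_, h1, h2⟩
    have h4 := sq_le_of_mem h0.le h2
    have h5 := hB (F (pt h q)) (by linarith)
    rw [Homeomorph.symm_apply_apply, sq_pt h0.le] at h5
    exact h5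
  have fK : (Ka h s).Finite := finite_lt h0 s
  set W := fW.toFinset with hW
  set V' := fV.toFinset with hV
  set K := fK.toFinset with hK
  have mW : ∀ p, p ∈ W ↔ h * sn p < r := fun p => by rw [hW, Set.Finite.mem_toFinset]; rfl
  have mV : ∀ q, q ∈ V' ↔ ∀ p, Rel F h h q p → h * sn p < r := fun q => by
    rw [hV, Set.Finite.mem_toFinset]; rfl
  have mK : ∀ q, q ∈ K ↔ q ∈ Ka h s := fun q => by rw [hK, Set.Finite.mem_toFinset]
  have hKV : K ⊆ V' := by
    intro q hq
    rw [mK] at hq
    have hq' : h * (sn q : ℝ) ≤ s := hq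
    rw [mV]
    intro p hp
    have := near q p hp (by linarith)
    linarith
  have hR : ∀ q ∈ V', ∀ p, Rel F h h q p → p ∈ W := by
    intro q hq p hp
    rw [mV] at hq
    rw [mW]
    exact hq p hp
  obtain ⟨a, b, π, a0, a1, aK, aoff, b0, b1, boff, π0, πoff, eqa, eqb, dis, sa, sb⟩ :=
    FBX.exists_plateau K V' W hKV (Rel F h h) hR
  have eqa' : ∀ q ∈ V', q ∉ K → La a q = - ∑ p ∈ W, π q p := fun q h1 h2 => by
    rw [← lap_eq]; exact eqa q h1 h2
  have eqb' : ∀ p ∈ W, La b p = - ∑ q ∈ V', π q p := fun p h1 => by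
    rw [← lap_eq]; exact eqb p h1
  have hen := energy_bound K V' W hKV (Rel F h h) a b π a0 aK aoff b0 b1 boff π0 πoff eqa' eqb'
    (cut h s) (cut h (r / 2)) (cut_nonneg h s)
    (fun q hq => cut_one s0 ((mK q).mp hq))
    (fun q hq => by
      apply cut_zero s0
      by_contra hcon
      rw [not_le] at hcon
      apply hq
      rw [mV]
      intro p hp
      have := near q p hp hcon.le
      linarith)
    (fun p hp => by
      apply cut_zero (by linarith)
      rw [mW, not_lt] at hp
      linarith)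
    (fun q p hqp => by
      by_cases hq : 2 * s ≤ h * sn q
      · rw [cut_zero s0 hq]
        exact cut_nonneg _ _ _
      · have h1 := near q p hqp (not_le.mp hq).le
        rw [cut_one (by linarith : (0 : ℝ) < r / 2) (by linarith : h * (sn p : ℝ) ≤ r / 2)]
        exact cut_le_one _ _ _)
  have hC : 2 * (En (cut h s) + En (cut h (r / 2))) ≤ 392 := by
    have e1 := En_cut h0 hs
    have e2 := En_cut (h := h) (ρ := r / 2) h0 (by linarith)
    linarith
  obtain ⟨t1, t2, t3, t4, t5⟩ := hen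
  have hprod : ∀ g : Z2 × Z2 → ℝ,
      ∑ x ∈ (V' ×ˢ W).filter (fun x => Rel F h h x.1 x.2), g x
        = ∑ q ∈ V', ∑ p ∈ W, if Rel F h h q p then g (q, p) else 0 := by
    intro g
    rw [Finset.sum_filter, Finset.sum_product]
  refine ⟨a, b, (V' ×ˢ W).filter (fun x => Rel F h h x.1 x.2), fun x => π x.1 x.2, ?_, t4, t5,
    le_trans t2 hC, le_trans t3 hC, ?_, ?_, ?_, ?_, ?_, ?_⟩
  · refine ⟨h0, h0, a0, a1, fun q hq => aK q ((mK q).mpr hq), ?_, b0, b1, ?_, ?_, dis, ?_, ?_,
      preconn_Ka h0 s, preconn_Kb h0 r⟩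
    · intro q hq
      rw [← lap_eq]
      exact sa q (fun h => hq ((mK q).mp h))
    · intro p hp
      apply boff
      rw [mW, not_lt]
      exact hp
    · intro p hp
      rw [← lap_eq]
      apply sb
      rw [mW]
      exact not_le.mp hp
    · intro q hq hyp
      have hqV : q ∈ V' := by
        rw [mV]
        intro p hp
        exact not_le.mp (hyp p hp).1
      rw [eqa' q hqV (fun h => hq ((mK q).mp h))]
      have : ∑ p ∈ W, π q p = 0 := by
        apply Finset.sum_eq_zero
        intro p hp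
        by_cases hqp : Rel F h h q p
        · have h1 := (hyp p hqp).2
          rw [eqb' p hp, neg_eq_zero] at h1
          exact (Finset.sum_eq_zero_iff_of_nonneg fun q _ => π0 q p).mp h1 q hqV
        · exact πoff q p (fun h => hqp h.1)
      rw [this, neg_zero]
    · intro p hp hyp
      have hpW : p ∈ W := by
        rw [mW]
        exact not_le.mp hp
      rw [eqb' p hpW]
      have : ∑ q ∈ V', π q p = 0 := by
        apply Finset.sum_eq_zero
        intro q hq
        by_cases hqp : Rel F h h q p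
        · have h1 := (hyp q hqp).2
          rw [eqa' q hq (fun h => (hyp q hqp).1 ((mK q).mp h)), neg_eq_zero] at h1
          exact (Finset.sum_eq_zero_iff_of_nonneg fun p _ => π0 q p).mp h1 p hpW
        · exact πoff q p (fun h => hqp h.1)
      rw [this, neg_zero]
  · intro x _
    exact π0 _ _
  · intro x hx
    exact (Finset.mem_filter.mp hx).2
  · intro x hx
    have := (Finset.mem_product.mp (Finset.mem_filter.mp hx).1).1
    exact (mV _).mp this
  · rw [hprod]
    refine le_trans (le_of_eq ?_) (le_trans t1 hC)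
    refine Finset.sum_congr rfl fun q _ => Finset.sum_congr rfl fun p _ => ?_
    split_ifs with hqp
    · rfl
    · exact (πoff q p (fun h => hqp h.1)).symm
  · intro q hq hyp
    have hqV : q ∈ V' := by
      rw [mV]
      exact hyp
    have hqK : q ∉ K := by
      rw [mK]
      intro h'
      have : h * (sn q : ℝ) ≤ s := h'
      linarith
    rw [eqa' q hqV hqK, hprod]
    congr 1
    have e1 : ∀ q' ∈ V', ∑ p ∈ W, (if Rel F h h q' p then
        (if (q', p).1 = q then π (q', p).1 (q', p).2 else 0) else 0)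
        = if q' = q then ∑ p ∈ W, π q' p else 0 := by
      intro q' _
      by_cases hqq : q' = q
      · rw [if_pos hqq]
        refine Finset.sum_congr rfl fun p _ => ?_
        simp only [hqq, if_true]
        split_ifs with hqp
        · rfl
        · exact (πoff q p (fun h => hqp h.1)).symm
      · rw [if_neg hqq]
        refine Finset.sum_eq_zero fun p _ => ?_
        simp only [hqq, if_false, ite_self]
    rw [Finset.sum_congr rfl e1, Finset.sum_ite_eq', if_pos hqV]
  · intro p hp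
    have hpW : p ∈ W := by
      rw [mW]
      exact hp
    rw [eqb' p hpW, hprod]
    congr 1
    refine Finset.sum_congr rfl fun q _ => ?_
    have e1 : ∀ p' ∈ W, (if Rel F h h q p' then
        (if (q, p').2 = p then π (q, p').1 (q, p').2 else 0) else 0)
        = if p' = p then π q p' else 0 := by
      intro p' _
      by_cases hpp : p' = p
      · simp only [hpp, if_true]
        split_ifs with hqp
        · rfl
        · exact (πoff q p (fun h => hqp h.1)).symm
      · simp only [hpp, if_false, ite_self]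
    rw [Finset.sum_congr rfl e1, Finset.sum_ite_eq', if_pos hpW]

end Pool.Agent.FB018D.ES

namespace Pool.Agent.FB018D

open ES in
/-- Deliverable (E1): a sequence of discrete plateau solutions with bounded energies. -/
theorem exists_seq (F : ℂ ≃ₜ ℂ) (F0 : F 0 = 0) {r : ℝ} (r0 : 0 < r) :
    ∃ s : ℝ, 0 < s ∧ ∃ (C R0 : ℝ) (h h' : ℕ → ℝ) (a b : ℕ → Z2 → ℝ)
      (S : ℕ → Finset (Z2 × Z2)) (w : ℕ → Z2 × Z2 → ℝ),
      SQ F h h' (fun j => Ka (h j) s) (fun j => Kb (h' j) r) a b C R0 ∧
      SW F s r h h' a b S w C := by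
  -- the radius `s`
  obtain ⟨δ, δ0, hδ⟩ : ∃ δ > 0, ∀ z, sq z ≤ δ → sq (F z) ≤ r / 8 := by
    have hc : ContinuousAt F 0 := F.continuous.continuousAt
    rw [Metric.continuousAt_iff] at hc
    obtain ⟨δ, δ0, hδ⟩ := hc (r / 8) (by linarith)
    refine ⟨δ / 4, by linarith, fun z hz => ?_⟩
    have h1 : dist z 0 < δ := by
      rw [dist_zero_right]
      have := norm_le_sq z
      linarith
    have h2 := hδ h1
    rw [F0, dist_zero_right] at h2
    exact le_trans (sq_le_norm _) h2.le
  set s := δ / 3 with hs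
  have s0 : 0 < s := by positivity
  have hF : ∀ z, sq z ≤ 3 * s → sq (F z) ≤ r / 8 := fun z hz => hδ z (by linarith)
  -- the bound `B`
  obtain ⟨B, hB⟩ : ∃ B, ∀ w, sq w ≤ 2 * r → sq (F.symm w) ≤ B := by
    have hK : IsCompact (F.symm '' Metric.closedBall 0 (4 * r)) :=
      (isCompact_closedBall _ _).image F.symm.continuous
    obtain ⟨B, hB⟩ := hK.isBounded.exists_norm_le
    refine ⟨B, fun w hw => le_trans (sq_le_norm _) (hB _ ⟨w, ?_, rfl⟩)⟩
    rw [mem_closedBall_zero_iff]
    have := norm_le_sq w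
    linarith
  set η := min s (r / 8) with hη
  have η0 : 0 < η := lt_min s0 (by linarith)
  let h : ℕ → ℝ := fun j => η / (j + 1)
  have hpos : ∀ j, 0 < h j := fun j => by positivity
  have hle : ∀ j, h j ≤ η := fun j => by
    apply div_le_self η0.le
    have : (0 : ℝ) ≤ j := Nat.cast_nonneg j
    linarith
  have hlim : Tendsto h atTop (𝓝 0) := by
    have := (tendsto_one_div_add_atTop_nhds_zero_nat (𝕜 := ℝ)).const_mul η
    rw [mul_zero] at this
    refine this.congr fun j => ?_
    simp only [h]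
    ring
  choose a b S w hSD fa fb ea eb w0 rel inn tot eqa eqb using fun j =>
    exists_mesh F s0 r0 hF B hB (hpos j) (le_trans (hle j) (min_le_left _ _))
      (le_trans (hle j) (min_le_right _ _))
  -- big plateaus
  let x1 : ℂ := 0
  let y1 : ℂ := ((s / 2 : ℝ) : ℂ)
  let x2 : ℂ := ((2 * r : ℝ) : ℂ)
  let y2 : ℂ := ((-(2 * r) : ℝ) : ℂ)
  have sqr : ∀ t : ℝ, sq ((t : ℝ) : ℂ) = |t| := fun t => by
    unfold sq
    rw [Complex.ofReal_re, Complex.ofReal_im, abs_zero]
    exact max_eq_left (abs_nonneg t)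
  have hy1 : sq y1 = s / 2 := by rw [sqr, abs_of_pos (by linarith)]
  have hx2 : sq x2 = 2 * r := by rw [sqr, abs_of_pos (by linarith)]
  have hy2 : sq y2 = 2 * r := by rw [sqr, abs_neg, abs_of_pos (by linarith)]
  have hx1 : sq x1 = 0 := by simp [sq, x1]
  have d1 : sq (x1 - y1) = s / 2 := by
    rw [sq_sub_comm, show y1 - x1 = y1 by simp [x1], hy1]
  have d2 : sq (x2 - y2) = 4 * r := by
    have : x2 - y2 = ((4 * r : ℝ) : ℂ) := by
      simp only [x2, y2]
      push_cast
      ring
    rw [this, sqr, abs_of_pos (by linarith)]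
  have n1 : 0 < sq (F x1 - F y1) := by
    apply sq_pos_of_ne
    rw [sub_ne_zero]
    intro he
    have := F.injective he
    rw [this] at d1
    rw [sub_self] at d1
    have : sq (0 : ℂ) = 0 := by simp [sq]
    linarith
  have n2 : 0 < sq (F.symm x2 - F.symm y2) := by
    apply sq_pos_of_ne
    rw [sub_ne_zero]
    intro he
    have := F.symm.injective he
    rw [this] at d2
    rw [sub_self] at d2
    have : sq (0 : ℂ) = 0 := by simp [sq]
    linarith
  let R0 : ℝ := min (min (s / 2) (sq (F x1 - F y1))) (min (4 * r) (sq (F.symm x2 - F.symm y2)))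
  refine ⟨s, s0, 392, R0, h, h, a, b, S, w, ?_, ?_⟩
  · refine ⟨hlim, hlim, hSD, fa, fb, ea, eb, ?_, ?_, ?_⟩
    · exact lt_min (lt_min (by linarith) n1) (lt_min (by linarith) n2)
    · intro j
      have hj := le_trans (hle j) (min_le_left s (r / 8))
      refine ⟨x1, mem_UC_Ka (hpos j) (by rw [hx1]; linarith [hpos j]), y1,
        mem_UC_Ka (hpos j) (by rw [hy1]; linarith), ?_, ?_⟩
      · rw [d1]
        exact le_trans (min_le_left _ _) (min_le_left _ _)
      · exact le_trans (min_le_left _ _) (min_le_right _ _)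
    · intro j
      have hj := le_trans (hle j) (min_le_right s (r / 8))
      refine ⟨x2, mem_UC_Kb (hpos j) (by rw [hx2]; linarith), y2,
        mem_UC_Kb (hpos j) (by rw [hy2]; linarith), ?_, ?_⟩
      · rw [d2]
        exact le_trans (min_le_right _ _) (min_le_left _ _)
      · exact le_trans (min_le_right _ _) (min_le_right _ _)
  · exact ⟨w0, rel, inn, tot, eqa, eqb⟩

end Pool.Agent.FB018D
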