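import Pool.Agent.Lib.MP_018119_an_FB.DTP
import Pool.Agent.Lib.MP_018119_an_FB.DExistSeq

/-!
# MP_018119_an, project FB: every homeomorphism of the plane has a two phase potential
-/

set_option autoImplicit false

open MeasureTheory

namespace Pool.Agent.FB018

/-- **Existence of the two phase potential.** -/
theorem exists_TP (F : ℂ ≃ₜ ℂ) (hF : F 0 = 0) {r : ℝ} (hr : 0 < r) :
    ∃ (s : ℝ) (A B : ℂ → ℝ) (T : Measure ℂ), TP F s r A B T := by
  obtain ⟨s, hs, C, R0, h, h', a, b, S, w, H, W⟩ := FB018D.exists_seq F hF hr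
  obtain ⟨A, B, T, hT⟩ := FB018D.TP_of_seq hF hs hr H W
  exact ⟨s, A, B, T, hT⟩

end Pool.Agent.FB018
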