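import Pool.Agent.Lib.MP_018119_an_FB.DDefs

/-!
# MP_018119_an, project FB, discrete half (A1): elementary facts about the grid

All proofs are elementary (`unfold sn`, `omega`; `unfold sq`, `abs_le`, `max_le_iff`).
-/

set_option autoImplicit false

open Topology Filter Set Metric

namespace Pool.Agent.FB018D

/-! ## Sup norm of lattice vectors -/

theorem sn_zero : sn 0 = 0 := by
  simp [sn]

theorem sn_eq_zero {p : Z2} : sn p = 0 ↔ p = 0 := by
  obtain ⟨x, y⟩ := p
  simp only [sn, Prod.mk_eq_zero]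
  omega

theorem sn_neg (p : Z2) : sn (-p) = sn p := by
  simp [sn]

theorem sn_sub_comm (p q : Z2) : sn (p - q) = sn (q - p) := by
  unfold sn
  simp only [Prod.fst_sub, Prod.snd_sub]
  omega

theorem sn_add_le (p q : Z2) : sn (p + q) ≤ sn p + sn q := by
  unfold sn
  simp only [Prod.fst_add, Prod.snd_add]
  omega

theorem sn_tri (p q r : Z2) : sn (p - r) ≤ sn (p - q) + sn (q - r) := by
  unfold sn
  simp only [Prod.fst_sub, Prod.snd_sub]
  omega

/-- Nearest neighbours are at sup distance `1`. -/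
theorem sn_nb {p q : Z2} (H : Nb p q) : sn (q - p) = 1 := by
  unfold sn
  rcases H with h | h | h | h <;> subst h <;> simp

theorem Nb.symm {p q : Z2} (H : Nb p q) : Nb q p := by
  unfold Nb at *
  rcases H with h | h | h | h <;> subst h <;> simp

theorem sn_finite (c : Z2) (k : ℕ) : {q : Z2 | sn (q - c) ≤ k}.Finite := by
  refine ((Set.finite_Icc (c.1 - k) (c.1 + k)).prod (Set.finite_Icc (c.2 - k) (c.2 + k))).subset ?_
  intro q hq
  simp only [sn, Prod.fst_sub, Prod.snd_sub, Set.mem_ofPred_eq] at hq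
  simp only [mem_prod, mem_Icc]
  omega

/-- Every loop is nonempty. -/
theorem sn_loop (c : Z2) (k : ℕ) : sn (c + ((k : ℤ), 0) - c) = k := by
  simp [sn]

/-! ## Sup norm in the plane -/

theorem sq_nonneg' (z : ℂ) : 0 ≤ sq z := by
  exact le_max_of_le_left (abs_nonneg _)

theorem sq_zero' : sq 0 = 0 := by
  simp [sq]

theorem sq_neg (z : ℂ) : sq (-z) = sq z := by
  simp [sq]

theorem sq_sub_comm (z w : ℂ) : sq (z - w) = sq (w - z) := by
  rw [← sq_neg, neg_sub]

theorem sq_add_le (z w : ℂ) : sq (z + w) ≤ sq z + sq w := by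
  unfold sq
  simp only [Complex.add_re, Complex.add_im]
  refine max_le ?_ ?_
  · exact (abs_add_le _ _).trans (add_le_add (le_max_left _ _) (le_max_left _ _))
  · exact (abs_add_le _ _).trans (add_le_add (le_max_right _ _) (le_max_right _ _))

theorem sq_tri (x y z : ℂ) : sq (x - z) ≤ sq (x - y) + sq (y - z) := by
  have := sq_add_le (x - y) (y - z)
  simpa using this

theorem sq_le_norm (z : ℂ) : sq z ≤ ‖z‖ := by
  exact max_le (Complex.abs_re_le_norm z) (Complex.abs_im_le_norm z)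

theorem norm_le_sq (z : ℂ) : ‖z‖ ≤ 2 * sq z := by
  have := Complex.norm_le_abs_re_add_abs_im z
  have h1 : |z.re| ≤ sq z := le_max_left _ _
  have h2 : |z.im| ≤ sq z := le_max_right _ _
  linarith

theorem continuous_sq : Continuous sq := by
  exact (Complex.continuous_re.abs).max (Complex.continuous_im.abs)

/-! ## Lattice points and cells -/

theorem pt_sub (h : ℝ) (p q : Z2) : pt h p - pt h q = pt h (p - q) := by
  apply Complex.ext <;> simp [pt] <;> ring

theorem sq_pt {h : ℝ} (hh : 0 ≤ h) (p : Z2) : sq (pt h p) = h * sn p := by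
  unfold sq pt sn
  simp only [abs_mul, abs_of_nonneg hh]
  rw [← mul_max_of_nonneg _ _ hh]
  push_cast
  simp

theorem sq_pt_sub {h : ℝ} (hh : 0 ≤ h) (p q : Z2) : sq (pt h p - pt h q) = h * sn (p - q) := by
  rw [pt_sub, sq_pt hh]

theorem sq_finite {h : ℝ} (hh : 0 < h) (R : ℝ) : {q : Z2 | sq (pt h q) ≤ R}.Finite := by
  refine (sn_finite 0 ⌊R / h⌋₊).subset ?_
  intro q hq
  simp only [Set.mem_ofPred_eq] at hq ⊢
  rw [sq_pt hh.le] at hq
  rw [sub_zero]
  apply Nat.le_floor
  rw [le_div_iff₀ hh]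
  linarith

theorem pt_mem {h : ℝ} (hh : 0 ≤ h) (p : Z2) : pt h p ∈ cell h p := by
  unfold cell
  simp only [Set.mem_ofPred_eq, sub_self, sq_zero']
  linarith

theorem mem_rd {h : ℝ} (hh : 0 < h) (z : ℂ) : z ∈ cell h (rd h z) := by
  have key : ∀ t : ℝ, |t - h * (round (t / h) : ℤ)| ≤ h / 2 := by
    intro t
    have h1 := abs_sub_round (t / h)
    have h2 : t - h * (round (t / h) : ℤ) = h * (t / h - round (t / h)) := by
      field_simp
    rw [h2, abs_mul, abs_of_pos hh]
    nlinarith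
  unfold cell sq rd pt
  simp only [Set.mem_ofPred_eq, Complex.sub_re, Complex.sub_im]
  exact max_le (key _) (key _)

theorem rd_pt {h : ℝ} (hh : 0 < h) (p : Z2) : rd h (pt h p) = p := by
  obtain ⟨x, y⟩ := p
  unfold rd pt
  simp only
  have h1 : ∀ n : ℤ, h * (n : ℝ) / h = n := fun n => by
    field_simp
  rw [h1, h1, round_intCast, round_intCast]

theorem cell_convex (h : ℝ) (p : Z2) : Convex ℝ (cell h p) := by
  intro x hx y hy α β hα hβ hαβ
  unfold cell sq at *
  simp only [Set.mem_ofPred_eq, max_le_iff, Complex.sub_re, Complex.sub_im, Complex.add_re,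
    Complex.add_im, Complex.real_smul, Complex.re_ofReal_mul, Complex.im_ofReal_mul,
    abs_le] at *
  have e : β = 1 - α := by linarith
  subst e
  refine ⟨⟨?_, ?_⟩, ⟨?_, ?_⟩⟩ <;> nlinarith [hx.1.1, hx.1.2, hx.2.1, hx.2.2, hy.1.1, hy.1.2,
    hy.2.1, hy.2.2]

theorem cell_compact (h : ℝ) (p : Z2) : IsCompact (cell h p) := by
  refine Metric.isCompact_of_isClosed_isBounded ?_ ?_
  · exact isClosed_le (continuous_sq.comp (continuous_id.sub continuous_const)) continuous_const
  · refine (Metric.isBounded_closedBall (x := pt h p) (r := h)).subset ?_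
    intro x hx
    rw [Metric.mem_closedBall, dist_eq_norm]
    have h1 := norm_le_sq (x - pt h p)
    have h2 : sq (x - pt h p) ≤ h / 2 := hx
    linarith

theorem cell_conn (h : ℝ) (p : Z2) : IsPreconnected (cell h p) := by
  exact (cell_convex h p).isPreconnected

/-- Cells of lattice points at sup distance at most `1` meet (at the midpoint). -/
theorem cell_meet {h : ℝ} (hh : 0 ≤ h) {p q : Z2} (H : sn (q - p) ≤ 1) :
    ∃ x ∈ cell h p, x ∈ cell h q := by
  have key : ∀ m n : ℤ, (n - m).natAbs ≤ 1 →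
      |(h * m + h * n) / 2 - h * m| ≤ h / 2 ∧ |(h * m + h * n) / 2 - h * n| ≤ h / 2 := by
    intro m n hmn
    have h1 : |((n - m : ℤ) : ℝ)| ≤ 1 := by
      have h2 : |n - m| ≤ 1 := by
        rw [abs_le]
        omega
      exact_mod_cast h2
    push_cast at h1
    rw [abs_le] at h1
    simp only [abs_le]
    refine ⟨⟨?_, ?_⟩, ⟨?_, ?_⟩⟩ <;> nlinarith [h1.1, h1.2]
  unfold sn at H
  simp only [Prod.fst_sub, Prod.snd_sub] at H
  have h1 := key p.1 q.1 (by omega)
  have h2 := key p.2 q.2 (by omega)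
  refine ⟨⟨(h * p.1 + h * q.1) / 2, (h * p.2 + h * q.2) / 2⟩, ?_, ?_⟩
  · unfold cell sq pt
    simp only [Set.mem_ofPred_eq, Complex.sub_re, Complex.sub_im]
    exact max_le h1.1 h2.1
  · unfold cell sq pt
    simp only [Set.mem_ofPred_eq, Complex.sub_re, Complex.sub_im]
    exact max_le h1.2 h2.2

theorem cell_diam {h : ℝ} {p : Z2} {x y : ℂ} (hx : x ∈ cell h p) (hy : y ∈ cell h p) :
    sq (x - y) ≤ h := by
  have h1 := sq_tri x (pt h p) y
  have h2 : sq (x - pt h p) ≤ h / 2 := hx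
  have h3 : sq (y - pt h p) ≤ h / 2 := hy
  rw [sq_sub_comm] at h3
  linarith

theorem cell_up {h : ℝ} (hh : 0 ≤ h) {p c : Z2} {x : ℂ} (hx : x ∈ cell h p) :
    sq (x - pt h c) ≤ h * sn (p - c) + h / 2 := by
  have h1 := sq_tri x (pt h p) (pt h c)
  have h2 : sq (x - pt h p) ≤ h / 2 := hx
  rw [sq_pt_sub hh] at h1
  linarith

theorem cell_lo {h : ℝ} (hh : 0 ≤ h) {p c : Z2} {x : ℂ} (hx : x ∈ cell h p) :
    h * sn (p - c) - h / 2 ≤ sq (x - pt h c) := by
  have h1 := sq_tri (pt h p) x (pt h c)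
  have h2 : sq (x - pt h p) ≤ h / 2 := hx
  rw [sq_sub_comm] at h2
  rw [sq_pt_sub hh] at h1
  linarith

/-- A point at sup distance between `h (k - 1/2)` and `h (k + 1/2)` of `pt h c` is in a cell of the
loop `sn (p - c) = k`.

Proof. With `u = (z.re - h c.1) / h`, `v = (z.im - h c.2) / h` we have
`k - 1/2 ≤ max |u| |v| ≤ k + 1/2`. For a real `t` with `|t| ≤ k + 1/2` put `m t = k` if
`k - 1/2 ≤ t`, `m t = -k` if `t ≤ -(k - 1/2)` (and not `k - 1/2 ≤ t`), and `m t = round t`
otherwise. Then `|m t| ≤ k`, `|t - m t| ≤ 1/2`, and `|m t| = k` if `k - 1/2 ≤ |t|`. Take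
`p = c + (m u, m v)`. -/
theorem loop_cell {h : ℝ} (hh : 0 < h) (c : Z2) (k : ℕ) {z : ℂ}
    (h1 : h * (k - 1 / 2) ≤ sq (z - pt h c)) (h2 : sq (z - pt h c) ≤ h * (k + 1 / 2)) :
    ∃ p : Z2, sn (p - c) = k ∧ z ∈ cell h p := by
  have key : ∀ t : ℝ, |t| ≤ h * (k + 1 / 2) → ∃ m : ℤ, |t - h * m| ≤ h / 2 ∧ m.natAbs ≤ k ∧
      (h * (k - 1 / 2) ≤ |t| → m.natAbs = k) := by
    intro t ht
    by_cases ht1 : h * (k - 1 / 2) ≤ t
    · refine ⟨k, ?_, by simp, fun _ => by simp⟩
      rw [abs_le] at ht ⊢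
      push_cast
      constructor <;> nlinarith [ht.1, ht.2]
    by_cases ht2 : t ≤ - (h * (k - 1 / 2))
    · refine ⟨-k, ?_, by simp, fun _ => by simp⟩
      rw [abs_le] at ht ⊢
      push_cast
      constructor <;> nlinarith [ht.1, ht.2]
    push Not at ht1 ht2
    have h3 : |t| < h * (k - 1 / 2) := abs_lt.mpr ⟨by linarith, ht1⟩
    refine ⟨round (t / h), ?_, ?_, fun h4 => absurd h4 (not_le.mpr h3)⟩
    · have h1 := abs_sub_round (t / h)
      have h2 : t - h * (round (t / h) : ℤ) = h * (t / h - round (t / h)) := by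
        field_simp
      rw [h2, abs_mul, abs_of_pos hh]
      nlinarith
    · have h1 := abs_sub_round (t / h)
      have h5 : |t / h| < k - 1 / 2 := by
        rw [abs_div, abs_of_pos hh, div_lt_iff₀ hh]
        linarith
      have h6 : |((round (t / h) : ℤ) : ℝ)| < k := by
        rw [abs_le] at h1
        rw [abs_lt] at h5 ⊢
        constructor <;> linarith [h1.1, h1.2, h5.1, h5.2]
      have h7 : |round (t / h)| < (k : ℤ) := by exact_mod_cast h6
      rw [abs_lt] at h7
      omega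
  have e1 : |(z - pt h c).re| ≤ h * (k + 1 / 2) := (le_max_left _ _).trans h2
  have e2 : |(z - pt h c).im| ≤ h * (k + 1 / 2) := (le_max_right _ _).trans h2
  obtain ⟨m, hm1, hm2, hm3⟩ := key _ e1
  obtain ⟨n, hn1, hn2, hn3⟩ := key _ e2
  refine ⟨c + (m, n), ?_, ?_⟩
  · have h3 : h * (k - 1 / 2) ≤ |(z - pt h c).re| ∨ h * (k - 1 / 2) ≤ |(z - pt h c).im| := by
      unfold sq at h1
      exact le_max_iff.mp h1
    simp only [add_sub_cancel_left, sn]
    rcases h3 with h3 | h3
    · have := hm3 h3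
      omega
    · have := hn3 h3
      omega
  · unfold cell sq
    simp only [Set.mem_ofPred_eq]
    refine max_le (le_trans (le_of_eq ?_) hm1) (le_trans (le_of_eq ?_) hn1)
    · congr 1
      simp only [pt, Complex.sub_re, Prod.fst_add]
      push_cast
      ring
    · congr 1
      simp only [pt, Complex.sub_im, Prod.snd_add]
      push_cast
      ring

/-- Intermediate value: a preconnected set with a point where `sq (· - w) ≤ t` and a point where
`t ≤ sq (· - w)` has a point where `sq (· - w) = t`. -/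
theorem sq_ivt {X : Set ℂ} (hX : IsPreconnected X) {w x y : ℂ} {t : ℝ} (hx : x ∈ X) (hy : y ∈ X)
    (h1 : sq (x - w) ≤ t) (h2 : t ≤ sq (y - w)) : ∃ z ∈ X, sq (z - w) = t := by
  have hc : Continuous fun z : ℂ => sq (z - w) :=
    continuous_sq.comp (continuous_id.sub continuous_const)
  obtain ⟨z, hz, hzt⟩ := hX.intermediate_value hx hy hc.continuousOn ⟨h1, h2⟩
  exact ⟨z, hz, hzt⟩

/-- A set of lattice points with preconnected union of cells, with a point at distance at most `k`
of `c` and a cell which reaches beyond `h k`, has a point on the loop `sn (q - c) = k`.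

Proof: `sq_ivt` on `UC h K` at the level `t = h k` (the start is `pt h q`, `sq_pt_sub`) gives `z`,
`z ∈ cell h q'`, `q' ∈ K`, `sq (z - pt h c) = h k`; by `cell_up`, `cell_lo`
`|h k - h sn (q' - c)| ≤ h / 2`, hence `sn (q' - c) = k`. -/
theorem K_loop {h : ℝ} (hh : 0 < h) {K : Set Z2} (cK : IsPreconnected (UC h K)) (c : Z2) (k : ℕ)
    {q : Z2} (hq : q ∈ K) (hqk : sn (q - c) ≤ k) {x : ℂ} (hx : x ∈ UC h K)
    (hxk : h * k ≤ sq (x - pt h c)) : ∃ q' ∈ K, sn (q' - c) = k := by
  have hx0 : pt h q ∈ UC h K := mem_iUnion₂.mpr ⟨q, hq, pt_mem hh.le q⟩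
  have h1 : sq (pt h q - pt h c) ≤ h * k := by
    rw [sq_pt_sub hh.le]
    have : (sn (q - c) : ℝ) ≤ k := by exact_mod_cast hqk
    nlinarith
  obtain ⟨z, hz, hzt⟩ := sq_ivt cK hx0 hx h1 hxk
  obtain ⟨q', hq', hzq⟩ := mem_iUnion₂.mp hz
  refine ⟨q', hq', ?_⟩
  have h2 := cell_up hh.le (c := c) hzq
  have h3 := cell_lo hh.le (c := c) hzq
  rw [hzt] at h2 h3
  have h4 : (k : ℝ) ≤ sn (q' - c) + 1 / 2 := by
    by_contra hcon
    push Not at hcon
    nlinarith
  have h5 : (sn (q' - c) : ℝ) ≤ k + 1 / 2 := by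
    by_contra hcon
    push Not at hcon
    nlinarith
  have h6 : k ≤ sn (q' - c) := by
    by_contra hcon
    have h7 : sn (q' - c) + 1 ≤ k := by omega
    have h8 : (sn (q' - c) : ℝ) + 1 ≤ k := by exact_mod_cast h7
    linarith
  have h9 : sn (q' - c) ≤ k := by
    by_contra hcon
    have h7 : k + 1 ≤ sn (q' - c) := by omega
    have h8 : (k : ℝ) + 1 ≤ sn (q' - c) := by exact_mod_cast h7
    linarith
  omega

/-! ## Continuous maps on bounded sets -/

/-- Uniform continuity on bounded sets (Heine on the compact `closedBall 0 (2 R + 1)`, with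
`sq_le_norm`, `norm_le_sq`). -/
theorem umod {G : ℂ → ℂ} (hG : Continuous G) (R : ℝ) {τ : ℝ} (hτ : 0 < τ) :
    ∃ d : ℝ, 0 < d ∧ ∀ u v : ℂ, sq u ≤ R → sq (u - v) ≤ d → sq (G u - G v) ≤ τ := by
  have hcomp : IsCompact (Metric.closedBall (0 : ℂ) (2 * |R| + 1)) := isCompact_closedBall _ _
  have hu := hcomp.uniformContinuousOn_of_continuous hG.continuousOn
  rw [Metric.uniformContinuousOn_iff] at hu
  obtain ⟨d, hd, hd2⟩ := hu τ hτ
  refine ⟨min (d / 4) (1 / 4), by positivity, fun u v hu hv => ?_⟩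
  have h1 : ‖u‖ ≤ 2 * |R| := by
    have := norm_le_sq u
    have := le_abs_self R
    linarith
  have h2 : ‖u - v‖ ≤ 2 * min (d / 4) (1 / 4) := by
    have := norm_le_sq (u - v)
    linarith
  have h3 : ‖v‖ ≤ 2 * |R| + 1 := by
    have h4 : ‖v‖ ≤ ‖u‖ + ‖u - v‖ := by
      have := norm_sub_le u (u - v)
      simpa using this
    have := min_le_right (d / 4) (1 / 4)
    linarith
  have h5 : dist (G u) (G v) < τ := by
    apply hd2
    · rw [Metric.mem_closedBall, dist_zero_right]
      linarith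
    · rw [Metric.mem_closedBall, dist_zero_right]
      exact h3
    · rw [dist_eq_norm]
      have := min_le_left (d / 4) (1 / 4)
      linarith
  rw [dist_eq_norm] at h5
  exact (sq_le_norm _).trans h5.le

/-- Bounded sets have bounded image. -/
theorem ubdd {G : ℂ → ℂ} (hG : Continuous G) (R : ℝ) :
    ∃ R' : ℝ, 0 < R' ∧ ∀ u : ℂ, sq u ≤ R → sq (G u) ≤ R' := by
  have hcomp : IsCompact (Metric.closedBall (0 : ℂ) (2 * |R|)) := isCompact_closedBall _ _
  obtain ⟨M, hM⟩ := hcomp.exists_bound_of_continuousOn hG.continuousOn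
  refine ⟨max M 1, by positivity, fun u hu => ?_⟩
  have h1 : u ∈ Metric.closedBall (0 : ℂ) (2 * |R|) := by
    rw [Metric.mem_closedBall, dist_zero_right]
    have := norm_le_sq u
    have := le_abs_self R
    linarith
  exact (sq_le_norm _).trans ((hM u h1).trans (le_max_left _ _))

end Pool.Agent.FB018D
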