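import Pool.Agent.Lib.MP_018119_an_FB.DGrid
import Pool.Agent.Lib.MP_018119_an_FB.DSeam

/-!
# MP_018119_an, project FB, discrete half (C5): no leak
-/

set_option autoImplicit false

open Topology Filter Set Metric MeasureTheory

namespace Pool.Agent.FB018D

variable {F : ℂ ≃ₜ ℂ} {s r : ℝ} {h h' : ℕ → ℝ} {a b : ℕ → Z2 → ℝ}
  {S : ℕ → Finset (Z2 × Z2)} {w : ℕ → Z2 × Z2 → ℝ} {C C' R0 : ℝ}

private theorem DLeak_pt_zero (t : ℝ) : pt t 0 = 0 := by
  apply Complex.ext <;> simp [pt]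

private theorem DLeak_cell {t : ℝ} (ht : 0 ≤ t) {p : Z2} {x : ℂ} (hx : x ∈ cell t p) :
    sq x ≤ t * sn p + t / 2 := by
  have h1 := cell_up ht (c := 0) hx
  rwa [DLeak_pt_zero, sub_zero, sub_zero] at h1

/-- For small mesh the equation of `a` holds everywhere off the plateau.

Proof. Let `ρ > 0` from `he (r + 1) (1 / 2)`, `R'` a bound of `sq (F.symm u)` for `sq u ≤ r + 1`
(`ubdd`), `t > 0` from `umod F R' (ρ / 2)`. Let `j` be so large that `h j ≤ t`,
`h' j ≤ min (ρ / 2) 1`. Let `s < h sn q`. If `h' sn p < r` for all `p` with `Rel q p`: `W.eqa`.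
Otherwise let `Rel q p₀`, `r ≤ h' sn p₀` : `x₀ ∈ cell h q`, `F x₀ ∈ cell h' p₀`, `b p₀ = 1` (`bK`).
There is no `x ∈ S j` with `x.1 = q` by `W.inn`, so the right side is `0`. `a q = 0` by `dis`. It
remains to see `a q' = 0` for the four neighbours `q'` of `q`. By `cell_meet` let
`y ∈ cell h q ∩ cell h q'`, `p₁ = rd h' (F y)`, so `Rel q' p₁` (`mem_rd`). If `r ≤ h' sn p₁`, then
`b p₁ = 1`, `a q' = 0` by `dis`. Otherwise `sq (F y) ≤ r + h' / 2 ≤ r + 1`, `sq y ≤ R'`,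
`sq (y - x₀) ≤ h ≤ t` (`cell_diam`), `sq (F y - F x₀) ≤ ρ / 2`, so
`sq (pt h' p₁ - pt h' p₀) ≤ ρ / 2 + h' ≤ ρ`, `sq (pt h' p₁) < r + 1`, hence `|b p₁ - b p₀| ≤ 1/2`,
`b p₁ > 0` and `a q' = 0` by `dis`. -/
theorem noleak
    (H : SQ F h h' (fun j => Ka (h j) s) (fun j => Kb (h' j) r) a b C R0)
    (W : SW F s r h h' a b S w C') (he : EqC h' b) :
    ∀ᶠ j in atTop, ∀ q, s < h j * sn q →
      La (a j) q = - ∑ x ∈ S j, (if x.1 = q then w j x else 0) := by
  obtain ⟨ρ, hρ, hρ2⟩ := he (r + 1) (1 / 2) (by norm_num)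
  obtain ⟨R', hR', hR2⟩ := ubdd F.symm.continuous (r + 1)
  obtain ⟨t, ht, ht2⟩ := umod F.continuous R' (τ := ρ / 2) (by positivity)
  have e1 : ∀ᶠ j in atTop, h j ≤ t := H.lh.eventually_le_const ht
  have e2 : ∀ᶠ j in atTop, h' j ≤ min (ρ / 2) 1 := H.lh'.eventually_le_const (by positivity)
  filter_upwards [hρ2, e1, e2] with j hj1 hj2 hj3 q hq
  by_cases hc : ∀ p, Rel F (h j) (h' j) q p → h' j * sn p < r
  · exact W.eqa j q hq hc
  push Not at hc
  obtain ⟨p₀, hp₀, hr⟩ := hc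
  have hh := (H.side j).h0
  have hh' := (H.side j).h0'
  have hb0 : b j p₀ = 1 := (H.side j).bK p₀ hr
  have hs : ∑ x ∈ S j, (if x.1 = q then w j x else 0) = 0 := by
    apply Finset.sum_eq_zero
    intro x hx
    rw [if_neg]
    intro hxq
    have h1 := W.inn j x hx p₀ (by rw [hxq]; exact hp₀)
    linarith
  have ha0 : a j q = 0 := by
    have h1 := (H.side j).dis q p₀ hp₀
    rwa [hb0, mul_one] at h1
  obtain ⟨x₀, hx₀, hFx₀⟩ := hp₀
  have hnb : ∀ q', Nb q q' → a j q' = 0 := by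
    intro q' hq'
    obtain ⟨y, hy, hy'⟩ := cell_meet hh.le (p := q) (q := q') (by rw [sn_nb hq'])
    have hFy : F y ∈ cell (h' j) (rd (h' j) (F y)) := mem_rd hh' _
    generalize rd (h' j) (F y) = p₁ at hFy
    have hdis := (H.side j).dis q' p₁ ⟨y, hy', hFy⟩
    by_cases hr1 : r ≤ h' j * sn p₁
    · have hb1 : b j p₁ = 1 := (H.side j).bK p₁ hr1
      rwa [hb1, mul_one] at hdis
    push Not at hr1
    have hm1 : h' j ≤ 1 := hj3.trans (min_le_right _ _)
    have hm2 : h' j ≤ ρ / 2 := hj3.trans (min_le_left _ _)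
    have h1 : sq (F y) ≤ r + 1 := by
      have := DLeak_cell hh'.le hFy
      linarith
    have h2 : sq y ≤ R' := by
      have := hR2 (F y) h1
      rwa [F.symm_apply_apply] at this
    have h3 : sq (F y - F x₀) ≤ ρ / 2 := ht2 y x₀ h2 ((cell_diam hy hx₀).trans hj2)
    have h4 : sq (pt (h' j) p₁ - F y) ≤ h' j / 2 := by
      rw [sq_sub_comm]
      exact hFy
    have h5 : sq (F x₀ - pt (h' j) p₀) ≤ h' j / 2 := hFx₀
    have h6 : sq (pt (h' j) p₁ - pt (h' j) p₀) ≤ ρ := by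
      have h7 := sq_tri (pt (h' j) p₁) (F y) (pt (h' j) p₀)
      have h8 := sq_tri (F y) (F x₀) (pt (h' j) p₀)
      linarith
    have h7 : sq (pt (h' j) p₁) ≤ r + 1 := by
      rw [sq_pt hh'.le]
      linarith
    have h8 := hj1 p₁ p₀ h7 h6
    rw [hb0] at h8
    have h9 := (abs_le.mp h8).1
    rcases mul_eq_zero.mp hdis with h10 | h10
    · exact h10
    · rw [h10] at h9
      norm_num at h9
  rw [hs, neg_zero]
  unfold La
  rw [ha0, hnb _ (Or.inl rfl), hnb _ (Or.inr (Or.inl rfl)), hnb _ (Or.inr (Or.inr (Or.inl rfl))),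
    hnb _ (Or.inr (Or.inr (Or.inr rfl)))]
  norm_num

/-- The supports of the `a j` are bounded.

Proof. Let `R'` be a bound of `sq (F.symm u)` for `sq u ≤ r + 1`, `R = R'+1`, and `h' j ≤ 1`. If
`R < sq (pt h q)`, put `x = pt h q`, `p = rd h' (F x)`: `Rel q p`. As `sq x > R'`,
`x = F.symm (F x)`, we have `sq (F x) > r + 1`, so `h' sn p ≥ sq (F x) - h' / 2 > r` (`cell_up`,
`c = 0`), `b p = 1`, `a q = 0` by `dis`. -/
theorem supp_bdd
    (H : SQ F h h' (fun j => Ka (h j) s) (fun j => Kb (h' j) r) a b C R0) :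
    ∃ R : ℝ, 0 < R ∧ ∀ᶠ j in atTop, ∀ q, R < sq (pt (h j) q) → a j q = 0 := by
  obtain ⟨R', hR', hR2⟩ := ubdd F.symm.continuous (r + 1)
  refine ⟨R' + 1, by linarith, ?_⟩
  have e1 : ∀ᶠ j in atTop, h' j ≤ 1 := H.lh'.eventually_le_const one_pos
  filter_upwards [e1] with j hj q hq
  have hh := (H.side j).h0
  have hh' := (H.side j).h0'
  have hF : F (pt (h j) q) ∈ cell (h' j) (rd (h' j) (F (pt (h j) q))) := mem_rd hh' _
  generalize rd (h' j) (F (pt (h j) q)) = p at hF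
  have h1 : r + 1 < sq (F (pt (h j) q)) := by
    by_contra hc
    push Not at hc
    have h2 := hR2 _ hc
    rw [F.symm_apply_apply] at h2
    linarith
  have h2 := DLeak_cell hh'.le hF
  have h3 : b j p = 1 := (H.side j).bK p (show r ≤ h' j * sn p by linarith)
  have h4 := (H.side j).dis q p ⟨pt (h j) q, pt_mem hh.le q, hF⟩
  rwa [h3, mul_one] at h4

end Pool.Agent.FB018D
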