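import Pool.Agent.Lib.MP_018119_an_FB.DGrid
import Pool.Agent.Lib.MP_018119_an_FB.DSeam

/-!
# MP_018119_an, project FB, discrete half (C1): the limit function along an ultrafilter
-/

set_option autoImplicit false

open Topology Filter Set Metric

namespace Pool.Agent.FB018D

/-- Locally uniform convergence of lattice functions along a filter. -/
def LimOn (l : Filter ℕ) (h : ℕ → ℝ) (a : ℕ → Z2 → ℝ) (A : ℂ → ℝ) : Prop :=
  ∀ R : ℝ, ∀ η : ℝ, 0 < η → ∀ᶠ j in l, ∀ q : Z2, sq (pt (h j) q) ≤ R →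
    |a j q - A (pt (h j) q)| ≤ η

private theorem DLim_near {h : ℝ} (hh : 0 < h) (z : ℂ) : sq (z - pt h (rd h z)) ≤ h / 2 :=
  mem_rd hh z

private theorem DLim_star {l : Filter ℕ} [l.NeBot] (hl : l ≤ atTop) {h : ℕ → ℝ}
    (hpos : ∀ j, 0 < h j) (lh : Tendsto h atTop (𝓝 0)) {a : ℕ → Z2 → ℝ} {A : ℂ → ℝ}
    (hA : ∀ z, Tendsto (fun j => a j (rd (h j) z)) l (𝓝 (A z))) {R η ρ : ℝ} (hρ : 0 < ρ)
    (he : ∀ᶠ j in atTop, ∀ q q' : Z2, sq (pt (h j) q) ≤ R + 1 →
      sq (pt (h j) q - pt (h j) q') ≤ ρ → |a j q - a j q'| ≤ η) {z z' : ℂ} (hz : sq z ≤ R)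
    (hzz : sq (z - z') ≤ ρ / 2) : |A z - A z'| ≤ η := by
  refine le_of_tendsto ((hA z).sub (hA z')).abs ?_
  have h1 : ∀ᶠ j in l, h j < min (ρ / 2) 1 :=
    (lh.eventually (gt_mem_nhds (lt_min (half_pos hρ) one_pos))).filter_mono hl
  filter_upwards [h1, he.filter_mono hl] with j hj hej
  have hj1 : h j < ρ / 2 := hj.trans_le (min_le_left _ _)
  have hj2 : h j < 1 := hj.trans_le (min_le_right _ _)
  have n1 := DLim_near (hpos j) z
  have n2 := DLim_near (hpos j) z'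
  have p0 := hpos j
  refine hej _ _ ?_ ?_
  · have h2 := sq_add_le (pt (h j) (rd (h j) z) - z) z
    rw [sub_add_cancel, sq_sub_comm] at h2
    linarith
  · have h2 := sq_tri (pt (h j) (rd (h j) z)) z (pt (h j) (rd (h j) z'))
    have h3 := sq_tri z z' (pt (h j) (rd (h j) z'))
    rw [sq_sub_comm (pt (h j) (rd (h j) z)) z] at h2
    linarith

/-- Existence of the limit.

Proof. For every `z` the values `a j (rd (h j) z)` are in the compact `[0, 1]`, so they converge along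
`U` (`isCompact_Icc.ultrafilter_le_nhds` for the ultrafilter `U.map ..`) to `A z ∈ [0, 1]`.
(*) Let `R`, `η > 0`, and `ρ > 0` from `he (R + 1) η`. If `sq z ≤ R` and `sq (z - z') ≤ ρ / 2`, then
`|A z - A z'| ≤ η`: for large `j` (`h j ≤ min (ρ / 2) 1`) we have
`sq (pt (h j) (rd (h j) z)) ≤ R + 1` and
`sq (pt (h j) (rd (h j) z) - pt (h j) (rd (h j) z')) ≤ ρ / 2 + h j ≤ ρ` by `mem_rd`, so
`|a j (rd (h j) z) - a j (rd (h j) z')| ≤ η`; pass to the limit (`le_of_tendsto`). This gives the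
continuity of `A` (`sq_le_norm`).
`LimOn`: let `R`, `η > 0`, take `ρ` from `he (R + 1) (η / 4)` (and (*) for `η / 4`). The set
`{z | sq z ≤ R}` is compact (closed, bounded), so it is covered by finitely many balls
`ball z_i (ρ / 4)`, `sq z_i ≤ R`. For `U`-almost all `j`: `|a j (rd (h j) z_i) - A z_i| ≤ η / 4` for all
`i`, and `h j ≤ min (ρ / 4) 1`. If `sq (pt (h j) q) ≤ R`, take `i` with `‖pt (h j) q - z_i‖ < ρ / 4`:
`|a j q - a j (rd (h j) z_i)| ≤ η / 4` (`he`), and `|A z_i - A (pt (h j) q)| ≤ η / 4` by (*). -/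
theorem exists_lim (U : Ultrafilter ℕ) (hU : (U : Filter ℕ) ≤ atTop) {h : ℕ → ℝ}
    (hpos : ∀ j, 0 < h j) (lh : Tendsto h atTop (𝓝 0)) {a : ℕ → Z2 → ℝ}
    (a0 : ∀ j q, 0 ≤ a j q) (a1 : ∀ j q, a j q ≤ 1) (he : EqC h a) :
    ∃ A : ℂ → ℝ, Continuous A ∧ (∀ z, 0 ≤ A z) ∧ (∀ z, A z ≤ 1) ∧ LimOn U h a A ∧
      ∀ z, Tendsto (fun j => a j (rd (h j) z)) U (𝓝 (A z)) := by
  have hex : ∀ z : ℂ, ∃ x ∈ Icc (0 : ℝ) 1, Tendsto (fun j => a j (rd (h j) z)) U (𝓝 x) := by
    intro z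
    obtain ⟨x, hx, hxU⟩ := isCompact_Icc.ultrafilter_le_nhds
      (U.map fun j => a j (rd (h j) z)) (s := Icc (0 : ℝ) 1) (by
        rw [Filter.le_principal_iff]
        exact Filter.mem_map.2 (Filter.univ_mem' fun j => ⟨a0 j _, a1 j _⟩))
    exact ⟨x, hx, hxU⟩
  choose A hA01 hA using hex
  have hstar : ∀ {R η ρ : ℝ}, 0 < ρ → (∀ᶠ j in atTop, ∀ q q' : Z2, sq (pt (h j) q) ≤ R + 1 →
      sq (pt (h j) q - pt (h j) q') ≤ ρ → |a j q - a j q'| ≤ η) → ∀ {z z' : ℂ}, sq z ≤ R →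
      sq (z - z') ≤ ρ / 2 → |A z - A z'| ≤ η := fun hρ he' _ _ hz hzz =>
    DLim_star hU hpos lh hA hρ he' hz hzz
  refine ⟨A, ?_, fun z => (hA01 z).1, fun z => (hA01 z).2, ?_, hA⟩
  · rw [Metric.continuous_iff]
    intro z ε hε
    obtain ⟨ρ, hρ, he'⟩ := he (sq z + 1) (ε / 2) (half_pos hε)
    refine ⟨ρ / 2, half_pos hρ, fun z' hz' => ?_⟩
    rw [dist_comm, Real.dist_eq]
    have h1 : sq (z - z') ≤ ρ / 2 := by
      refine (sq_le_norm _).trans ?_
      rw [← dist_eq_norm, dist_comm]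
      exact hz'.le
    have h2 := hstar hρ he' le_rfl h1
    linarith
  · intro R η hη
    obtain ⟨ρ, hρ, he'⟩ := he (R + 1) (η / 4) (by positivity)
    have hK : IsCompact {z : ℂ | sq z ≤ R} := by
      refine (isCompact_closedBall (0 : ℂ) (2 * R)).of_isClosed_subset
        (isClosed_le continuous_sq continuous_const) fun z hz => ?_
      rw [mem_closedBall_zero_iff]
      have h1 := norm_le_sq z
      have h2 : sq z ≤ R := hz
      linarith
    obtain ⟨t, htK, htf, hcov⟩ := hK.finite_cover_balls (show 0 < ρ / 4 by positivity)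
    have h1 : ∀ᶠ j in (U : Filter ℕ), h j < ρ / 4 :=
      (lh.eventually (gt_mem_nhds (by positivity))).filter_mono hU
    have h2 : ∀ᶠ j in (U : Filter ℕ), ∀ z ∈ t, |a j (rd (h j) z) - A z| ≤ η / 4 := by
      rw [Filter.eventually_all_finite htf]
      intro z _
      have h3 := (Metric.tendsto_nhds.1 (hA z)) (η / 4) (by positivity)
      filter_upwards [h3] with j hj
      rw [Real.dist_eq] at hj
      exact hj.le
    filter_upwards [h1, h2, he'.filter_mono hU] with j hj1 hj2 hj3 q hq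
    obtain ⟨z, hz, hqz⟩ := mem_iUnion₂.1 (hcov (show pt (h j) q ∈ {z : ℂ | sq z ≤ R} from hq))
    have h4 : sq (pt (h j) q - z) ≤ ρ / 4 := by
      refine (sq_le_norm _).trans ?_
      rw [← dist_eq_norm]
      exact (mem_ball.1 hqz).le
    have h5 : |a j q - a j (rd (h j) z)| ≤ η / 4 := by
      refine hj3 _ _ (by linarith) ?_
      have h6 := sq_tri (pt (h j) q) z (pt (h j) (rd (h j) z))
      have h7 := DLim_near (hpos j) z
      have p0 := hpos j
      linarith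
    have h6 := hj2 z hz
    have h7 : |A z - A (pt (h j) q)| ≤ η / 4 := by
      refine hstar hρ he' (htK hz) ?_
      rw [sq_sub_comm]
      linarith
    have h8 : a j q - A (pt (h j) q) = (a j q - a j (rd (h j) z)) +
        (a j (rd (h j) z) - A z) + (A z - A (pt (h j) q)) := by ring
    rw [h8]
    have h9 := abs_add_three (a j q - a j (rd (h j) z)) (a j (rd (h j) z) - A z)
      (A z - A (pt (h j) q))
    linarith

end Pool.Agent.FB018D
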