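import Mathlib

/-!
# MP_018119_an, project FB, discrete half (C2): the limit of finite sums of point masses

Nothing but Mathlib is needed: `RealRMK.rieszMeasure`, `RealRMK.integral_rieszMeasure`.
-/

set_option autoImplicit false

open Topology Filter Set Metric MeasureTheory

namespace Pool.Agent.FB018D

/-- Vague compactness along an ultrafilter.

Proof. For `φ ∈ C_c(ℂ, ℝ)` the sums are bounded by `C ‖φ‖`, so they converge along `U`
(`isCompact_Icc.ultrafilter_le_nhds`); the limit `Λ φ` is linear and nonnegative for `φ ≥ 0`, i.e. a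
positive linear functional, and `T = RealRMK.rieszMeasure Λ` has `∫ φ dT = Λ φ`
(`RealRMK.integral_rieszMeasure`). Finiteness: for a cut-off function `φ_n : ℂ → [0, 1]` with compact
support and `φ_n = 1` on `closedBall 0 n` we have
`T (closedBall 0 n) ≤ ofReal (∫ φ_n dT) = ofReal (Λ φ_n) ≤ ofReal C`, and
`T univ = sup_n T (closedBall 0 n) ≤ ofReal C`. -/
theorem exists_meas {ι : Type*} (U : Ultrafilter ℕ) (S : ℕ → Finset ι) (w : ℕ → ι → ℝ)
    (x0 : ℕ → ι → ℂ) (C : ℝ) (w0 : ∀ j, ∀ x ∈ S j, 0 ≤ w j x) (tot : ∀ j, ∑ x ∈ S j, w j x ≤ C) :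
    ∃ T : Measure ℂ, IsFiniteMeasure T ∧ ∀ φ : ℂ → ℝ, Continuous φ → HasCompactSupport φ →
      Tendsto (fun j => ∑ x ∈ S j, w j x * φ (x0 j x)) U (𝓝 (∫ z, φ z ∂T)) := by
  have hC : 0 ≤ C := (Finset.sum_nonneg (w0 0)).trans (tot 0)
  have bd : ∀ (φ : CompactlySupportedContinuousMap ℂ ℝ) (M : ℝ), (∀ z, |φ z| ≤ M) → ∀ j,
      |∑ x ∈ S j, w j x * φ (x0 j x)| ≤ C * M := by
    intro φ M hM j
    have hM0 : 0 ≤ M := (abs_nonneg _).trans (hM 0)
    calc |∑ x ∈ S j, w j x * φ (x0 j x)| ≤ ∑ x ∈ S j, |w j x * φ (x0 j x)| :=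
          Finset.abs_sum_le_sum_abs _ _
      _ ≤ ∑ x ∈ S j, w j x * M := by
          refine Finset.sum_le_sum fun x hx => ?_
          rw [abs_mul, abs_of_nonneg (w0 j x hx)]
          exact mul_le_mul_of_nonneg_left (hM _) (w0 j x hx)
      _ = (∑ x ∈ S j, w j x) * M := by rw [Finset.sum_mul]
      _ ≤ C * M := mul_le_mul_of_nonneg_right (tot j) hM0
  have ex : ∀ φ : CompactlySupportedContinuousMap ℂ ℝ, ∃ l : ℝ,
      Tendsto (fun j => ∑ x ∈ S j, w j x * φ (x0 j x)) U (𝓝 l) := by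
    intro φ
    obtain ⟨M, hM⟩ := φ.hasCompactSupport.exists_bound_of_continuous φ.continuous
    have h1 : ∀ j, (∑ x ∈ S j, w j x * φ (x0 j x)) ∈ Icc (-(C * M)) (C * M) := fun j =>
      abs_le.1 (bd φ M (fun z => by simpa using hM z) j)
    obtain ⟨l, -, hl⟩ := (isCompact_Icc (a := -(C * M)) (b := C * M)).ultrafilter_le_nhds
      (U.map fun j => ∑ x ∈ S j, w j x * φ (x0 j x)) (by
        rw [le_principal_iff]
        exact mem_map.2 (Filter.univ_mem' h1))
    exact ⟨l, hl⟩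
  choose L hL using ex
  have uniq : ∀ (f : ℕ → ℝ) (a b : ℝ), Tendsto f U (𝓝 a) → Tendsto f U (𝓝 b) → a = b :=
    fun f a b ha hb => tendsto_nhds_unique ha hb
  let Λ0 : CompactlySupportedContinuousMap ℂ ℝ →ₗ[ℝ] ℝ :=
    { toFun := L
      map_add' := by
        intro φ ψ
        refine uniq _ _ _ (hL (φ + ψ)) ?_
        refine ((hL φ).add (hL ψ)).congr fun j => ?_
        rw [← Finset.sum_add_distrib]
        refine Finset.sum_congr rfl fun x _ => ?_
        simp [mul_add]
      map_smul' := by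
        intro c φ
        refine uniq _ _ _ (hL (c • φ)) ?_
        refine ((hL φ).const_mul c).congr fun j => ?_
        rw [Finset.mul_sum]
        refine Finset.sum_congr rfl fun x _ => ?_
        simp only [CompactlySupportedContinuousMap.smul_apply, smul_eq_mul]
        ring }
  have Λpos : ∀ φ, 0 ≤ φ → 0 ≤ Λ0 φ := by
    intro φ hφ
    refine ge_of_tendsto' (hL φ) fun j => ?_
    exact Finset.sum_nonneg fun x hx => mul_nonneg (w0 j x hx) (hφ _)
  let Λ : CompactlySupportedContinuousMap ℂ ℝ →ₚ[ℝ] ℝ := PositiveLinearMap.mk₀ Λ0 Λpos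
  have hΛ : ∀ φ, Λ φ = L φ := fun φ => rfl
  refine ⟨RealRMK.rieszMeasure Λ, ?_, ?_⟩
  · refine ⟨?_⟩
    have h1 : ∀ n : ℕ, RealRMK.rieszMeasure Λ (closedBall (0 : ℂ) n) ≤ ENNReal.ofReal C := by
      intro n
      obtain ⟨f, hf1, -, hfc, hf01⟩ := exists_continuous_one_zero_of_isCompact
        (isCompact_closedBall (0 : ℂ) n) (isClosed_empty) (disjoint_empty _)
      let g : CompactlySupportedContinuousMap ℂ ℝ := ⟨f, hfc⟩
      have hg : ∀ z, g z = f z := fun z => rfl
      refine (RealRMK.rieszMeasure_le_of_eq_one Λ (f := g) (fun x => (hf01 x).1)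
        (isCompact_closedBall (0 : ℂ) n) (fun x hx => hf1 hx)).trans ?_
      refine ENNReal.ofReal_le_ofReal ?_
      rw [hΛ]
      refine le_of_tendsto' (hL g) fun j => ?_
      have := bd g 1 (fun z => by
        rw [hg, abs_of_nonneg (hf01 z).1]; exact (hf01 z).2) j
      rw [mul_one] at this
      exact (le_abs_self _).trans this
    have h2 : (univ : Set ℂ) = ⋃ n : ℕ, closedBall (0 : ℂ) n := by
      symm
      exact iUnion_closedBall_nat 0
    have h3 : Monotone fun n : ℕ => closedBall (0 : ℂ) (n : ℝ) := fun m n hmn =>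
      closedBall_subset_closedBall (by exact_mod_cast hmn)
    rw [h2, h3.measure_iUnion]
    exact (iSup_le h1).trans_lt ENNReal.ofReal_lt_top
  · intro φ hφ hc
    let g : CompactlySupportedContinuousMap ℂ ℝ := ⟨⟨φ, hφ⟩, hc⟩
    have h1 : ∫ z, φ z ∂(RealRMK.rieszMeasure Λ) = L g := by
      rw [← hΛ, ← RealRMK.integral_rieszMeasure Λ g]
      rfl
    rw [h1]
    exact hL g

end Pool.Agent.FB018D
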