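import Pool.Agent.Lib.MP_018119_an_FB.DDefs

/-!
# MP_018119_an, project FB: summation by parts on the lattice
-/

set_option autoImplicit false

open Topology Filter Set Metric

namespace Pool.Agent.FB018D

theorem summable_fin {f : Z2 → ℝ} (hf : (Function.support f).Finite) (g : Z2 → ℝ) :
    Summable fun q => f q * g q :=
  summable_of_finite_support (hf.subset (Function.support_mul_subset_left f g))

theorem tsum_shift (f g : Z2 → ℝ) (e : Z2) :
    ∑' q, f q * g (q + e) = ∑' q, f (q - e) * g q := by
  rw [← (Equiv.addRight e).tsum_eq fun q => f (q - e) * g q]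
  simp

/-- Summation by parts. -/
theorem sbp {f : Z2 → ℝ} (hf : (Function.support f).Finite) (g : Z2 → ℝ) :
    ∑' q, f q * La g q = ∑' q, La f q * g q := by
  have s0 := summable_fin hf g
  have s1 := summable_fin hf fun q => g (q + (1, 0))
  have s2 := summable_fin hf fun q => g (q - (1, 0))
  have s3 := summable_fin hf fun q => g (q + (0, 1))
  have s4 := summable_fin hf fun q => g (q - (0, 1))
  have fs : ∀ e : Z2, (Function.support fun q => f (q + e)).Finite := fun e => by
    have : (Function.support fun q => f (q + e)) = (fun q => q + e) ⁻¹' Function.support f := rfl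
    rw [this]
    exact hf.preimage (add_left_injective e).injOn
  have fs' : ∀ e : Z2, (Function.support fun q => f (q - e)).Finite := fun e => by
    simpa [sub_eq_add_neg] using fs (-e)
  have t1 := summable_fin (fs (1, 0)) g
  have t2 := summable_fin (fs' (1, 0)) g
  have t3 := summable_fin (fs (0, 1)) g
  have t4 := summable_fin (fs' (0, 1)) g
  have e1 := tsum_shift f g (1, 0)
  have e2 : ∑' q, f q * g (q - (1, 0)) = ∑' q, f (q + (1, 0)) * g q := by
    simpa [sub_eq_add_neg] using tsum_shift f g (-(1, 0))
  have e3 := tsum_shift f g (0, 1)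
  have e4 : ∑' q, f q * g (q - (0, 1)) = ∑' q, f (q + (0, 1)) * g q := by
    simpa [sub_eq_add_neg] using tsum_shift f g (-(0, 1))
  have L : ∑' q, f q * La g q = 4 * (∑' q, f q * g q) - (∑' q, f q * g (q + (1, 0)))
      - (∑' q, f q * g (q - (1, 0))) - (∑' q, f q * g (q + (0, 1)))
      - (∑' q, f q * g (q - (0, 1))) := by
    rw [← tsum_mul_left, ← Summable.tsum_sub (s0.mul_left 4) s1,
      ← Summable.tsum_sub ((s0.mul_left 4).sub s1) s2,
      ← Summable.tsum_sub (((s0.mul_left 4).sub s1).sub s2) s3,
      ← Summable.tsum_sub ((((s0.mul_left 4).sub s1).sub s2).sub s3) s4]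
    refine tsum_congr fun q => ?_
    simp only [La]
    ring
  have R : ∑' q, La f q * g q = 4 * (∑' q, f q * g q) - (∑' q, f (q - (1, 0)) * g q)
      - (∑' q, f (q + (1, 0)) * g q) - (∑' q, f (q - (0, 1)) * g q)
      - (∑' q, f (q + (0, 1)) * g q) := by
    rw [← tsum_mul_left, ← Summable.tsum_sub (s0.mul_left 4) t2,
      ← Summable.tsum_sub ((s0.mul_left 4).sub t2) t1,
      ← Summable.tsum_sub (((s0.mul_left 4).sub t2).sub t1) t4,
      ← Summable.tsum_sub ((((s0.mul_left 4).sub t2).sub t1).sub t4) t3]
    refine tsum_congr fun q => ?_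
    simp only [La]
    ring
  rw [L, R, e1, e2, e3, e4]

/-- The weak form of the discrete equation: the sum against a test function. -/
theorem sum_weights {ι : Type*} (S : Finset ι) (w : ι → ℝ) (x : ι → Z2) {f a : Z2 → ℝ}
    (hf : (Function.support f).Finite)
    (h : ∀ q, f q ≠ 0 → La a q = -∑ i ∈ S, (if x i = q then w i else 0)) :
    ∑' q, La f q * a q = -∑ i ∈ S, w i * f (x i) := by
  classical
  rw [← sbp hf a]
  have e : ∀ q, f q * La a q = -(f q * ∑ i ∈ S, (if x i = q then w i else 0)) := by
    intro q
    by_cases hq : f q = 0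
    · simp [hq]
    · rw [h q hq]; ring
  rw [tsum_congr e, tsum_neg]
  congr 1
  have e2 : ∀ q, f q * ∑ i ∈ S, (if x i = q then w i else 0)
      = ∑ i ∈ S, (if q = x i then w i * f (x i) else 0) := by
    intro q
    rw [Finset.mul_sum]
    refine Finset.sum_congr rfl fun i _ => ?_
    by_cases hi : x i = q
    · subst hi; simp [mul_comm]
    · rw [if_neg hi, if_neg (Ne.symm hi), mul_zero]
  rw [tsum_congr e2, Summable.tsum_finsetSum]
  · refine Finset.sum_congr rfl fun i _ => ?_
    rw [tsum_ite_eq]
  · intro i _
    refine summable_of_finite_support ((Set.finite_singleton (x i)).subset fun q hq => ?_)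
    by_contra hne
    exact hq (if_neg hne)

end Pool.Agent.FB018D
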