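import Pool.Agent.Lib.MP_018119_an_FB.DGrid
import Pool.Agent.Lib.MP_018119_an_FB.DSeam
import Pool.Agent.Lib.MP_018119_an_FB.DSbp

/-!
# MP_018119_an, project FB, discrete half (C6): the total mass is bounded below
-/

set_option autoImplicit false

open Topology Filter Set Metric MeasureTheory

namespace Pool.Agent.FB018D

/-- The test function of `mass_ge`. -/
private noncomputable def rampNe (N : ℕ) (q : Z2) : ℝ := max 0 ((q.1 : ℝ) - N)

private theorem La_rampNe (N : ℕ) (q : Z2) :
    La (rampNe N) q = if q.1 = (N : ℤ) then -1 else 0 := by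
  obtain ⟨x, y⟩ := q
  unfold La rampNe
  simp only [Prod.mk_add_mk, Prod.mk_sub_mk, add_zero, sub_zero, Int.cast_add, Int.cast_sub,
    Int.cast_one]
  rcases lt_trichotomy x (N : ℤ) with h | h | h
  · have h1 : (x : ℝ) + 1 ≤ N := by exact_mod_cast h
    rw [if_neg h.ne, max_eq_left (by linarith), max_eq_left (by linarith),
      max_eq_left (by linarith)]
    ring
  · have h1 : (x : ℝ) = N := by exact_mod_cast h
    rw [if_pos h, h1, max_eq_left (by linarith), max_eq_right (by linarith),
      max_eq_left (by linarith)]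
    ring
  · have h1 : (N : ℝ) + 1 ≤ x := by exact_mod_cast h
    rw [if_neg h.ne', max_eq_right (by linarith), max_eq_right (by linarith),
      max_eq_right (by linarith)]
    ring

/-- Lower bound of the total mass, one mesh.

Proof. Let `N = ⌊s / h⌋` (natural number), `h N ≤ s < h (N + 1)`, and `φ q = max 0 (q.1 - N)` (real).
If `φ q ≠ 0`, then `q.1 ≥ N + 1`, so `h sn q > s` and `heq` applies. `a` has finite support
(`hsup`, `sq_finite`), so summation by parts (finite support of `a`; on a big box, or move the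
four sums by `Equiv.tsum_eq` with `Equiv.addRight`) gives
`- Σ_{x ∈ S} w x φ(x.1) = Σ_q φ q La a q = Σ_q a q La φ q`, and `La φ q = -1` if `q.1 = N`, `0`
otherwise. So `Σ_{x ∈ S} w x φ(x.1) = Σ_{q.1 = N} a q ≥ Σ_{|y| ≤ N} a (N, y) = 2 N + 1`, because
`a (N, y) = 1` for `|y| ≤ N` (`hK`, `sn (N, y) = N`). For `x ∈ S`: `φ x.1 ≤ sn x.1 ≤ R / h` by `hS`,
so `(R / h) Σ w ≥ 2 N + 1 ≥ N + 1 > s / h`. -/
theorem mass_ge {h s R : ℝ} (hh : 0 < h) (hs : 0 < s) (hR : 0 < R) {a : Z2 → ℝ}
    (a0 : ∀ q, 0 ≤ a q) (hK : ∀ q ∈ Ka h s, a q = 1) (hsup : ∀ q, R < sq (pt h q) → a q = 0)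
    (S : Finset (Z2 × Z2)) (w : Z2 × Z2 → ℝ) (w0 : ∀ x ∈ S, 0 ≤ w x)
    (hS : ∀ x ∈ S, sq (pt h x.1) ≤ R)
    (heq : ∀ q, s < h * sn q → La a q = - ∑ x ∈ S, (if x.1 = q then w x else 0)) :
    s / R ≤ ∑ x ∈ S, w x := by
  classical
  obtain ⟨N, hN⟩ : ∃ N : ℕ, N = ⌊s / h⌋₊ := ⟨_, rfl⟩
  have hN1 : h * N ≤ s := by
    have h1 := Nat.floor_le (div_pos hs hh).le
    rw [← hN, le_div_iff₀ hh] at h1
    linarith
  have hN2 : s < h * (N + 1) := by
    have h1 := Nat.lt_floor_add_one (s / h)
    rw [← hN, div_lt_iff₀ hh] at h1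
    linarith
  have hfin : (Function.support a).Finite := by
    refine (sq_finite hh R).subset fun q hq => ?_
    by_contra hne
    simp only [Set.mem_ofPred_eq, not_le] at hne
    exact hq (hsup q hne)
  have hsbp := sbp hfin (rampNe N)
  have e1 : ∀ q, La a q * rampNe N q =
      ∑ x ∈ S, (if q = x.1 then -(w x * rampNe N x.1) else 0) := by
    intro q
    by_cases hq : rampNe N q = 0
    · rw [hq, mul_zero]
      refine (Finset.sum_eq_zero fun x _ => ?_).symm
      by_cases hx : q = x.1
      · rw [if_pos hx, ← hx, hq, mul_zero, neg_zero]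
      · rw [if_neg hx]
    · have hq1 : (N : ℝ) < q.1 := by
        by_contra hcon
        push Not at hcon
        exact hq (max_eq_left (by linarith))
      have hq2 : (N : ℤ) < q.1 := by exact_mod_cast hq1
      have hq3 : N + 1 ≤ sn q := by
        unfold sn
        omega
      have hq4 : s < h * sn q := by
        refine hN2.trans_le ?_
        have : ((N + 1 : ℕ) : ℝ) ≤ sn q := by exact_mod_cast hq3
        push_cast at this
        exact mul_le_mul_of_nonneg_left this hh.le
      rw [heq q hq4, neg_mul, Finset.sum_mul, ← Finset.sum_neg_distrib]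
      refine Finset.sum_congr rfl fun x _ => ?_
      by_cases hx : x.1 = q
      · rw [if_pos hx, if_pos hx.symm, hx]
      · rw [if_neg hx, if_neg (Ne.symm hx), zero_mul, neg_zero]
  have e2 : ∑' q, La a q * rampNe N q = ∑ x ∈ S, -(w x * rampNe N x.1) := by
    rw [tsum_congr e1, Summable.tsum_finsetSum]
    · refine Finset.sum_congr rfl fun x _ => ?_
      rw [tsum_ite_eq]
    · intro x _
      refine summable_of_finite_support ((Set.finite_singleton x.1).subset fun q hq => ?_)
      by_contra hne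
      exact hq (if_neg hne)
  have e3 : ∑' q, a q * La (rampNe N) q = -∑' q : Z2, a q * (if q.1 = (N : ℤ) then 1 else 0) := by
    rw [← tsum_neg]
    refine tsum_congr fun q => ?_
    rw [La_rampNe]
    split_ifs <;> ring
  have e4 : ((N : ℝ) + 1) ≤ ∑' q : Z2, a q * (if q.1 = (N : ℤ) then 1 else 0) := by
    have hP : ∑ q ∈ (Finset.range (N + 1)).image (fun y : ℕ => ((N : ℤ), (y : ℤ))),
        a q * (if q.1 = (N : ℤ) then 1 else 0) = (N : ℝ) + 1 := by
      rw [Finset.sum_image]
      · rw [Finset.sum_congr rfl (g := fun _ => (1 : ℝ))]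
        · simp
        · intro y hy
          rw [Finset.mem_range] at hy
          have hK1 : (((N : ℤ), (y : ℤ)) : Z2) ∈ Ka h s := by
            unfold Ka sn
            simp only [Set.mem_ofPred_eq]
            have h1 : max (N : ℤ).natAbs (y : ℤ).natAbs = N := by omega
            rw [h1]
            exact hN1
          rw [hK _ hK1, if_pos rfl, mul_one]
      · intro y _ z _ hyz
        simp only [Prod.mk.injEq, true_and, Nat.cast_inj] at hyz
        exact hyz
    rw [← hP]
    refine Summable.sum_le_tsum _ (fun q _ => ?_) (summable_fin hfin _)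
    refine mul_nonneg (a0 q) ?_
    split_ifs <;> norm_num
  rw [e2, e3, Finset.sum_neg_distrib] at hsbp
  have e5 : (N : ℝ) + 1 ≤ ∑ x ∈ S, w x * rampNe N x.1 := by linarith
  have e6 : ∑ x ∈ S, w x * rampNe N x.1 ≤ ∑ x ∈ S, w x * (R / h) := by
    refine Finset.sum_le_sum fun x hx => mul_le_mul_of_nonneg_left ?_ (w0 x hx)
    have h1 := hS x hx
    rw [sq_pt hh.le] at h1
    have h2 : rampNe N x.1 ≤ sn x.1 := by
      unfold rampNe
      refine max_le (Nat.cast_nonneg _) ?_
      have h3 : x.1.1 - (N : ℤ) ≤ (sn x.1 : ℤ) := by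
        unfold sn
        omega
      exact_mod_cast h3
    rw [le_div_iff₀ hh]
    nlinarith
  rw [← Finset.sum_mul] at e6
  have e7 : s < h * ((∑ x ∈ S, w x) * (R / h)) :=
    hN2.trans_le (mul_le_mul_of_nonneg_left (e5.trans e6) hh.le)
  have e8 : h * ((∑ x ∈ S, w x) * (R / h)) = (∑ x ∈ S, w x) * R := by
    field_simp
  rw [e8] at e7
  rw [div_le_iff₀ hR]
  exact e7.le

/-- The limit measure is not zero.

Proof. Let `φ` be continuous with compact support, `φ = 1` on `{sq z ≤ R}` (e.g.
`φ z = max 0 (min 1 (R + 1 - sq z))`). For `l`-almost all `j` the sum is `Σ w ≥ c`, so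
`∫ φ dT ≥ c > 0`. -/
theorem meas_ne {l : Filter ℕ} [l.NeBot] {h : ℕ → ℝ} {S : ℕ → Finset (Z2 × Z2)}
    {w : ℕ → Z2 × Z2 → ℝ} {T : Measure ℂ} {c R : ℝ} (hc : 0 < c)
    (hT : ∀ φ : ℂ → ℝ, Continuous φ → HasCompactSupport φ →
      Tendsto (fun j => ∑ x ∈ S j, w j x * φ (pt (h j) x.1)) l (𝓝 (∫ z, φ z ∂T)))
    (hS : ∀ᶠ j in l, ∀ x ∈ S j, sq (pt (h j) x.1) ≤ R)
    (hm : ∀ᶠ j in l, c ≤ ∑ x ∈ S j, w j x) : T ≠ 0 := by
  intro hT0
  have hcont : Continuous fun z : ℂ => max 0 (min 1 (R + 1 - sq z)) :=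
    continuous_const.max (continuous_const.min (continuous_const.sub continuous_sq))
  have hsupp : HasCompactSupport fun z : ℂ => max 0 (min 1 (R + 1 - sq z)) := by
    refine HasCompactSupport.intro (isCompact_closedBall (0 : ℂ) (2 * (R + 1))) fun z hz => ?_
    have h1 : R + 1 < sq z := by
      by_contra hcon
      push Not at hcon
      apply hz
      rw [Metric.mem_closedBall, dist_zero_right]
      have := norm_le_sq z
      linarith
    exact max_eq_left ((min_le_right _ _).trans (by linarith))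
  have hlim := hT _ hcont hsupp
  rw [hT0, integral_zero_measure] at hlim
  have hge : ∀ᶠ j in l, c ≤ ∑ x ∈ S j, w j x * max 0 (min 1 (R + 1 - sq (pt (h j) x.1))) := by
    filter_upwards [hS, hm] with j h1 h2
    refine h2.trans (le_of_eq (Finset.sum_congr rfl fun x hx => ?_))
    have h3 := h1 x hx
    rw [min_eq_left (by linarith), max_eq_right zero_le_one, mul_one]
  exact absurd (ge_of_tendsto hlim hge) (not_le.mpr hc)

end Pool.Agent.FB018D
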