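import Pool.Agent.Lib.MP_018119_an_FB.DGrid
import Pool.Agent.Lib.MP_018119_an_FB.DSeam

/-!
# MP_018119_an, project FB, discrete half (C4): the masses seen in the second plane
-/

set_option autoImplicit false

open Topology Filter Set Metric MeasureTheory

namespace Pool.Agent.FB018D

variable {F : ℂ ≃ₜ ℂ} {s r : ℝ} {h h' : ℕ → ℝ} {a b : ℕ → Z2 → ℝ}
  {S : ℕ → Finset (Z2 × Z2)} {w : ℕ → Z2 × Z2 → ℝ} {C : ℝ}

/-- The masses stay in a bounded set.

Proof. Let `R'` be a bound of `sq (F.symm u)` for `sq u ≤ r + 1` (`ubdd`), `R = R' + 1`. Take `j` with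
`h j ≤ 1`, `h' j ≤ 1`. If `x ∈ S j`, then `Rel F h h' x.1 x.2`: `y ∈ cell h x.1`,
`F y ∈ cell h' x.2`, and `h' sn x.2 < r` by `W.inn` (with `p = x.2`), so `sq (F y) ≤ r + h' / 2` by
`cell_up` (`c = 0`), `sq y ≤ R'`, and `sq (pt h x.1) ≤ R' + h / 2`. -/
theorem mass_bdd (W : SW F s r h h' a b S w C) (hpos : ∀ j, 0 < h j) (hpos' : ∀ j, 0 < h' j)
    (lh : Tendsto h atTop (𝓝 0)) (lh' : Tendsto h' atTop (𝓝 0)) :
    ∃ R : ℝ, 0 < R ∧ ∀ᶠ j in atTop, ∀ x ∈ S j, sq (pt (h j) x.1) ≤ R := by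
  obtain ⟨R', hR', hb⟩ := ubdd (G := F.symm) F.symm.continuous (r + 1)
  refine ⟨R' + 1, by linarith, ?_⟩
  filter_upwards [lh.eventually (gt_mem_nhds (zero_lt_one (α := ℝ))),
    lh'.eventually (gt_mem_nhds (zero_lt_one (α := ℝ)))] with j h1 h2 x hx
  obtain ⟨y, hy, hFy⟩ := W.rel j x hx
  have h3 : h' j * sn x.2 < r := W.inn j x hx x.2 (W.rel j x hx)
  have h4 := cell_up (hpos' j).le (c := 0) hFy
  rw [sub_zero] at h4
  have h0 : pt (h' j) 0 = 0 := by
    apply Complex.ext <;> simp [pt]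
  rw [h0, sub_zero] at h4
  have h5 : sq (F y) ≤ r + 1 := by linarith
  have h6 : sq y ≤ R' := by
    have := hb _ h5
    simpa using this
  have h7 := sq_add_le y (pt (h j) x.1 - y)
  have h8 : sq (y - pt (h j) x.1) ≤ h j / 2 := hy
  rw [sq_sub_comm] at h8
  rw [add_sub_cancel] at h7
  have := hpos j
  linarith

/-- Push-forward by `F`.

Proof. `ψ ∘ F` is continuous with compact support (`F` is a homeomorphism), so
`Σ w φ(pt h x.1) → ∫ ψ (F z) dT` for `φ = ψ ∘ F`. It remains to see that the difference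
`Σ w (ψ (pt h' x.2) - ψ (F (pt h x.1)))` tends to `0`. Let `η > 0`. `ψ` is uniformly continuous
(compact support): `d > 0` with `|ψ u - ψ v| ≤ η` if `sq (u - v) ≤ d`
(`norm_le_sq`). Let `R` be as in `mass_bdd`, and `t > 0` from `umod F R (d / 2)`: if `sq u ≤ R`,
`sq (u - v) ≤ t`, then `sq (F u - F v) ≤ d / 2`. For large `j`: `h j ≤ t`, `h' j ≤ d / 2`, and for
`x ∈ S j`, `y ∈ cell h x.1`, `F y ∈ cell h' x.2`: `sq (pt h x.1 - y) ≤ h / 2 ≤ t`, so
`sq (F (pt h x.1) - F y) ≤ d / 2`, and `sq (F y - pt h' x.2) ≤ h' / 2`. So the difference is at most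
`η Σ w ≤ η C` in absolute value (`W.w0`, `W.tot`). -/
theorem push_lim (W : SW F s r h h' a b S w C) (hpos : ∀ j, 0 < h j) (hpos' : ∀ j, 0 < h' j)
    (lh : Tendsto h atTop (𝓝 0)) (lh' : Tendsto h' atTop (𝓝 0)) {l : Filter ℕ} (hl : l ≤ atTop)
    {T : Measure ℂ} (hT : ∀ φ : ℂ → ℝ, Continuous φ → HasCompactSupport φ →
      Tendsto (fun j => ∑ x ∈ S j, w j x * φ (pt (h j) x.1)) l (𝓝 (∫ z, φ z ∂T)))
    {ψ : ℂ → ℝ} (hψ : Continuous ψ) (hc : HasCompactSupport ψ) :
    Tendsto (fun j => ∑ x ∈ S j, w j x * ψ (pt (h' j) x.2)) l (𝓝 (∫ z, ψ (F z) ∂T)) := by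
  have hcF : HasCompactSupport fun z => ψ (F z) := hc.comp_homeomorph F
  have h1 := hT (fun z => ψ (F z)) (hψ.comp F.continuous) hcF
  have h2 : Tendsto (fun j => ∑ x ∈ S j, w j x * ψ (pt (h' j) x.2) -
      ∑ x ∈ S j, w j x * ψ (F (pt (h j) x.1))) l (𝓝 0) := by
    refine Tendsto.mono_left ?_ hl
    rw [Metric.tendsto_atTop]
    intro e he
    have hu := hc.uniformContinuous_of_continuous hψ
    rw [Metric.uniformContinuous_iff] at hu
    set η : ℝ := e / (|C| + 1) with hη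
    have hC : 0 < |C| + 1 := by positivity
    have hη0 : 0 < η := by positivity
    obtain ⟨d, hd, hd2⟩ := hu η hη0
    obtain ⟨R, hR, hRe⟩ := mass_bdd W hpos hpos' lh lh'
    obtain ⟨t, ht, htu⟩ := umod F.continuous R (τ := d / 8) (by positivity)
    have hd8 : (0 : ℝ) < d / 8 := by positivity
    have hev := (hRe.and (lh.eventually (gt_mem_nhds ht))).and
      (lh'.eventually (gt_mem_nhds hd8))
    obtain ⟨N, hN⟩ := eventually_atTop.mp hev
    refine ⟨N, fun j hj => ?_⟩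
    obtain ⟨⟨hj1, hj2⟩, hj3⟩ := hN j hj
    rw [dist_zero_right, ← Finset.sum_sub_distrib, Real.norm_eq_abs]
    have h3 : |∑ x ∈ S j, (w j x * ψ (pt (h' j) x.2) - w j x * ψ (F (pt (h j) x.1)))| ≤
        ∑ x ∈ S j, w j x * η := by
      refine (Finset.abs_sum_le_sum_abs _ _).trans (Finset.sum_le_sum fun x hx => ?_)
      rw [← mul_sub, abs_mul, abs_of_nonneg (W.w0 j x hx)]
      refine mul_le_mul_of_nonneg_left ?_ (W.w0 j x hx)
      obtain ⟨y, hy, hFy⟩ := W.rel j x hx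
      have h4 : sq (y - pt (h j) x.1) ≤ h j / 2 := hy
      have h5 : sq (F y - pt (h' j) x.2) ≤ h' j / 2 := hFy
      have h6 : sq (F (pt (h j) x.1) - F y) ≤ d / 8 := by
        apply htu _ _ (hj1 x hx)
        rw [sq_sub_comm]
        have := hpos j
        linarith
      have h7 := sq_tri (pt (h' j) x.2) (F y) (F (pt (h j) x.1))
      rw [sq_sub_comm (pt (h' j) x.2) (F y), sq_sub_comm (F y) (F (pt (h j) x.1))] at h7
      have h8 := norm_le_sq (pt (h' j) x.2 - F (pt (h j) x.1))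
      have h9 : dist (pt (h' j) x.2) (F (pt (h j) x.1)) < d := by
        rw [dist_eq_norm]
        have := hpos' j
        linarith
      have h10 := hd2 h9
      rw [Real.dist_eq] at h10
      exact h10.le
    rw [← Finset.sum_mul] at h3
    have h11 : (∑ x ∈ S j, w j x) * η ≤ |C| * η :=
      mul_le_mul_of_nonneg_right ((W.tot j).trans (le_abs_self C)) hη0.le
    have h12 : |C| * η < e := by
      have : (|C| + 1) * η = e := by
        rw [hη]
        field_simp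
      linarith
    linarith
  have h13 := h2.add h1
  simpa using h13

end Pool.Agent.FB018D
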