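import Pool.Agent.Lib.MP_018119_an_FB.DDefs

/-!
# MP_018119_an, project FB: Riemann sums on the lattice
-/

set_option autoImplicit false

open Topology Filter Set Metric MeasureTheory

namespace Pool.Agent.FB018D

theorem round_eq_iff' (x : ℝ) (n : ℤ) : round x = n ↔ (n : ℝ) - 1 / 2 ≤ x ∧ x < n + 1 / 2 := by
  rw [round_eq, Int.floor_eq_iff]
  constructor
  · rintro ⟨h1, h2⟩
    exact ⟨by linarith, by linarith⟩
  · rintro ⟨h1, h2⟩
    exact ⟨by linarith, by linarith⟩

theorem rd_eq_iff {h : ℝ} (hh : 0 < h) (z : ℂ) (q : Z2) :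
    rd h z = q ↔ z.re ∈ Ico (h * (q.1 - 1 / 2)) (h * (q.1 + 1 / 2)) ∧
      z.im ∈ Ico (h * (q.2 - 1 / 2)) (h * (q.2 + 1 / 2)) := by
  have e : rd h z = q ↔ round (z.re / h) = q.1 ∧ round (z.im / h) = q.2 := by
    rw [rd, Prod.ext_iff]
  rw [e, round_eq_iff', round_eq_iff', mem_Ico, mem_Ico, le_div_iff₀ hh, div_lt_iff₀ hh,
    le_div_iff₀ hh, div_lt_iff₀ hh, mul_comm h, mul_comm h, mul_comm h, mul_comm h]

/-- A point is close to the centre of its cell. -/
theorem sq_sub_rd {h : ℝ} (hh : 0 < h) (z : ℂ) : sq (z - pt h (rd h z)) ≤ h / 2 := by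
  obtain ⟨⟨a, b⟩, c, d⟩ := (rd_eq_iff hh z (rd h z)).1 rfl
  refine max_le (abs_le.2 ⟨?_, ?_⟩) (abs_le.2 ⟨?_, ?_⟩) <;>
    simp only [pt, Complex.sub_re, Complex.sub_im] <;> linarith

/-- The half open cell. -/
def hcell (h : ℝ) (q : Z2) : Set ℂ := {z | rd h z = q}

theorem hcell_eq {h : ℝ} (hh : 0 < h) (q : Z2) :
    hcell h q = Complex.measurableEquivRealProd ⁻¹'
      (Ico (h * (q.1 - 1 / 2)) (h * (q.1 + 1 / 2)) ×ˢ
        Ico (h * (q.2 - 1 / 2)) (h * (q.2 + 1 / 2))) := by
  ext z
  rw [hcell, mem_ofPred_eq, rd_eq_iff hh]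
  rfl

theorem measurable_hcell {h : ℝ} (hh : 0 < h) (q : Z2) : MeasurableSet (hcell h q) := by
  rw [hcell_eq hh]
  exact Complex.measurableEquivRealProd.measurable (measurableSet_Ico.prod measurableSet_Ico)

theorem volume_hcell {h : ℝ} (hh : 0 < h) (q : Z2) :
    volume (hcell h q) = ENNReal.ofReal (h ^ 2) := by
  rw [hcell_eq hh, Complex.volume_preserving_equiv_real_prod.measure_preimage
    (measurableSet_Ico.prod measurableSet_Ico).nullMeasurableSet, Measure.volume_eq_prod,
    Measure.prod_prod, Real.volume_Ico, Real.volume_Ico,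
    ← ENNReal.ofReal_mul (by nlinarith)]
  congr 1
  ring

/-- The integral of a step function. -/
theorem integral_step {h : ℝ} (hh : 0 < h) {G : Z2 → ℝ} (hG : (Function.support G).Finite) :
    Integrable (fun z => G (rd h z)) ∧ ∫ z, G (rd h z) = h ^ 2 * ∑' q, G q := by
  classical
  set s := hG.toFinset with hs
  have e : (fun z => G (rd h z)) =
      fun z => ∑ q ∈ s, (hcell h q).indicator (fun _ => G q) z := by
    funext z
    rw [Finset.sum_eq_single (rd h z)]
    · rw [indicator_of_mem (show z ∈ hcell h (rd h z) from rfl)]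
    · intro q _ hq
      exact indicator_of_notMem (fun hz => hq hz.symm) _
    · intro hz
      rw [indicator_of_mem (show z ∈ hcell h (rd h z) from rfl)]
      by_contra hne
      exact hz (hG.mem_toFinset.2 hne)
  have hi : ∀ q ∈ s, Integrable ((hcell h q).indicator fun _ => G q) := by
    intro q _
    refine (integrable_indicator_iff (measurable_hcell hh q)).2 ?_
    refine integrableOn_const (by rw [volume_hcell hh]; exact ENNReal.ofReal_ne_top) ?_
    exact enorm_ne_top
  refine ⟨?_, ?_⟩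
  · rw [e]
    exact integrable_finsetSum s hi
  · rw [e, integral_finsetSum s hi, tsum_eq_sum (s := s), Finset.mul_sum]
    · refine Finset.sum_congr rfl fun q _ => ?_
      rw [integral_indicator_const _ (measurable_hcell hh q), Measure.real, volume_hcell hh,
        ENNReal.toReal_ofReal (by positivity), smul_eq_mul]
    · intro q hq
      by_contra hne
      exact hq (hG.mem_toFinset.2 hne)

theorem drie_sq_le_norm (z : ℂ) : sq z ≤ ‖z‖ :=
  max_le (Complex.abs_re_le_norm z) (Complex.abs_im_le_norm z)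

theorem drie_norm_le_sq (z : ℂ) : ‖z‖ ≤ 2 * sq z := by
  have h1 : |z.re| ≤ sq z := le_max_left _ _
  have h2 : |z.im| ≤ sq z := le_max_right _ _
  calc ‖z‖ ≤ |z.re| + |z.im| := Complex.norm_le_abs_re_add_abs_im z
    _ ≤ 2 * sq z := by linarith

theorem finite_pt {h : ℝ} (hh : 0 < h) (R : ℝ) : {q : Z2 | sq (pt h q) ≤ R}.Finite := by
  have : {q : Z2 | sq (pt h q) ≤ R} ⊆
      (Icc (-⌈R / h⌉) ⌈R / h⌉) ×ˢ (Icc (-⌈R / h⌉) ⌈R / h⌉) := by
    rintro ⟨x, y⟩ hq
    have a : |h * (x : ℝ)| ≤ R := (le_max_left _ _).trans hq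
    have b : |h * (y : ℝ)| ≤ R := (le_max_right _ _).trans hq
    rw [abs_mul, abs_of_pos hh, mul_comm, ← le_div_iff₀ hh] at a b
    have c := (a.trans (Int.le_ceil (R / h)))
    have d := (b.trans (Int.le_ceil (R / h)))
    rw [abs_le] at c d
    refine ⟨⟨?_, ?_⟩, ⟨?_, ?_⟩⟩
    · exact_mod_cast c.1
    · exact_mod_cast c.2
    · exact_mod_cast d.1
    · exact_mod_cast d.2
  exact ((finite_Icc _ _).prod (finite_Icc _ _)).subset this

/-- Riemann sums along a filter. -/
theorem riemann {l : Filter ℕ} {h : ℕ → ℝ} (hpos : ∀ j, 0 < h j) (hlim : Tendsto h l (𝓝 0))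
    {a : ℕ → Z2 → ℝ} {A : ℂ → ℝ} (hA : Continuous A)
    (ha : ∀ R η : ℝ, 0 < η → ∀ᶠ j in l, ∀ q, sq (pt (h j) q) ≤ R → |a j q - A (pt (h j) q)| ≤ η)
    {g : ℂ → ℝ} (hg : Continuous g) (hgc : HasCompactSupport g) :
    Tendsto (fun j => h j ^ 2 * ∑' q, a j q * g (pt (h j) q)) l (𝓝 (∫ z, A z * g z)) := by
  obtain ⟨R, hR⟩ : ∃ R, ∀ z, g z ≠ 0 → sq z ≤ R := by
    obtain ⟨R, hR⟩ := hgc.isCompact.isBounded.subset_closedBall 0
    refine ⟨R, fun z hz => (drie_sq_le_norm z).trans ?_⟩
    simpa using hR (subset_tsupport g hz)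
  obtain ⟨M, hM⟩ : ∃ M, ∀ z, |g z| ≤ M := by
    obtain ⟨M, hM⟩ := hgc.exists_bound_of_continuous hg
    exact ⟨M, hM⟩
  have hM0 : 0 ≤ M := (abs_nonneg _).trans (hM 0)
  have hu : Continuous fun z => A z * g z := hA.mul hg
  have huc : HasCompactSupport fun z => A z * g z := hgc.mul_left
  have hui : Integrable fun z => A z * g z := hu.integrable_of_hasCompactSupport huc
  have huu : UniformContinuous fun z => A z * g z :=
    hu.uniformContinuous_of_tendsto_cocompact (huc.is_zero_at_infty)
  set V : ℝ := (volume (closedBall (0 : ℂ) (2 * (R + 1)))).toReal with hV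
  have hV0 : 0 ≤ V := ENNReal.toReal_nonneg
  rw [Metric.tendsto_nhds]
  intro ε hε
  obtain ⟨δ, hδ, hδV⟩ : ∃ δ, 0 < δ ∧ δ * V < ε :=
    ⟨ε / (2 * (V + 1)), by positivity, by
      rw [div_mul_eq_mul_div, div_lt_iff₀ (by positivity)]
      nlinarith⟩
  obtain ⟨ρ, hρ, hρu⟩ := Metric.uniformContinuous_iff.1 huu (δ / 2) (by positivity)
  have c1 := ha R (δ / (2 * (M + 1))) (by positivity)
  have c2 : ∀ᶠ j in l, h j < min ρ 1 := by
    have := hlim.eventually (gt_mem_nhds (show (0 : ℝ) < min ρ 1 by positivity))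
    exact this
  filter_upwards [c1, c2] with j hj1 hj2
  have hh := hpos j
  have hfin : (Function.support fun q => a j q * g (pt (h j) q)).Finite :=
    (finite_pt hh R).subset fun q hq => hR _ (right_ne_zero_of_mul hq)
  obtain ⟨hsi, hse⟩ := integral_step hh hfin
  rw [← hse, dist_eq_norm, ← integral_sub hsi hui]
  have key : ∀ z, |a j (rd (h j) z) * g (pt (h j) (rd (h j) z)) - A z * g z| ≤ δ := by
    intro z
    set q := rd (h j) z with hq
    have hz := sq_sub_rd hh z
    have hzn : ‖z - pt (h j) q‖ ≤ h j := by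
      have := drie_norm_le_sq (z - pt (h j) q)
      linarith
    have k1 : |a j q * g (pt (h j) q) - A (pt (h j) q) * g (pt (h j) q)| ≤ δ / 2 := by
      by_cases hz0 : g (pt (h j) q) = 0
      · simp only [hz0, mul_zero, sub_zero, abs_zero]; positivity
      · have := hj1 q (hR _ hz0)
        rw [← sub_mul, abs_mul]
        calc _ ≤ δ / (2 * (M + 1)) * M :=
              mul_le_mul this (hM _) (abs_nonneg _) (by positivity)
          _ ≤ δ / 2 := by
              rw [div_mul_eq_mul_div, div_le_div_iff₀ (by positivity) (by positivity)]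
              nlinarith
    have k2 : |A (pt (h j) q) * g (pt (h j) q) - A z * g z| < δ / 2 := by
      have : dist (pt (h j) q) z < ρ := by
        rw [dist_comm, dist_eq_norm]
        exact lt_of_le_of_lt hzn (hj2.trans_le (min_le_left _ _))
      have := hρu this
      rwa [Real.dist_eq] at this
    calc _ = |(a j q * g (pt (h j) q) - A (pt (h j) q) * g (pt (h j) q))
          + (A (pt (h j) q) * g (pt (h j) q) - A z * g z)| := by ring_nf
      _ ≤ δ / 2 + δ / 2 := (abs_add_le _ _).trans (add_le_add k1 k2.le)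
      _ = δ := by ring
  have keyz : ∀ z, z ∉ closedBall (0 : ℂ) (2 * (R + 1)) →
      a j (rd (h j) z) * g (pt (h j) (rd (h j) z)) - A z * g z = 0 := by
    intro z hz
    have hzn : 2 * (R + 1) < ‖z‖ := by simpa using hz
    have h1 := drie_norm_le_sq z
    have h2 : R + 1 < sq z := by linarith
    have g1 : g z = 0 := by
      by_contra hne
      have := hR z hne
      linarith
    have g2 : g (pt (h j) (rd (h j) z)) = 0 := by
      by_contra hne
      have h3 := hR _ hne
      have h4 := sq_sub_rd hh z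
      have h5 : sq z ≤ sq (z - pt (h j) (rd (h j) z)) + sq (pt (h j) (rd (h j) z)) := by
        refine max_le ?_ ?_
        · have : z.re = (z - pt (h j) (rd (h j) z)).re + (pt (h j) (rd (h j) z)).re := by
            simp
          rw [this]
          exact (abs_add_le _ _).trans (add_le_add (le_max_left _ _) (le_max_left _ _))
        · have : z.im = (z - pt (h j) (rd (h j) z)).im + (pt (h j) (rd (h j) z)).im := by
            simp
          rw [this]
          exact (abs_add_le _ _).trans (add_le_add (le_max_right _ _) (le_max_right _ _))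
      have h6 := hj2.trans_le (min_le_right _ _)
      linarith
    rw [g1, g2]
    ring
  have e := setIntegral_eq_integral_of_forall_compl_eq_zero (μ := volume) keyz
  rw [← e]
  calc _ ≤ δ * V := by
        refine norm_setIntegral_le_of_norm_le_const measure_closedBall_lt_top fun z _ => ?_
        exact key z
    _ < ε := hδV

end Pool.Agent.FB018D
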