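import Mathlib

/-!
# MP_018119_an, project FB (free interface): interface between the two halves

The discrete half produces, for every homeomorphism `F` of the plane with `F 0 = 0`, two potentials
`A` (in the plane of `z`) and `B` (in the plane of `w = F z`) with disjoint supports and with the
same Riesz measure `T` (structure `TP`).  The continuum half makes a homeomorphism out of them.
-/

set_option autoImplicit false

open MeasureTheory Set Metric Filter Topology
open scoped ContDiff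

namespace Pool.Agent.FB018

/-- Sup norm on the plane. -/
noncomputable def sn (w : ℂ) : ℝ := max |w.re| |w.im|

/-- Open square. -/
def sq (r : ℝ) : Set ℂ := {w | sn w < r}

/-- Laplacian. -/
noncomputable def lap (φ : ℂ → ℝ) (z : ℂ) : ℝ :=
  fderiv ℝ (fderiv ℝ φ) z 1 1 + fderiv ℝ (fderiv ℝ φ) z Complex.I Complex.I

/-- Two phase potential of the homeomorphism `F`: `A` lives in the plane of `z`, `B` in the plane of
`w = F z`, both have the Riesz measure `T`. -/
structure TP (F : ℂ ≃ₜ ℂ) (s r : ℝ) (A B : ℂ → ℝ) (T : Measure ℂ) : Prop where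
  s_pos : 0 < s
  r_pos : 0 < r
  F0 : F 0 = 0
  A_cont : Continuous A
  A_nonneg : ∀ z, 0 ≤ A z
  A_le : ∀ z, A z ≤ 1
  A_one : ∀ z, sn z ≤ s → A z = 1
  B_cont : Continuous B
  B_nonneg : ∀ w, 0 ≤ B w
  B_le : ∀ w, B w ≤ 1
  B_one : ∀ w, r ≤ sn w → B w = 1
  AB : ∀ z, A z * B (F z) = 0
  T_fin : IsFiniteMeasure T
  T_ne : T ≠ 0
  weakA : ∀ φ : ℂ → ℝ, ContDiff ℝ ∞ φ → HasCompactSupport φ → tsupport φ ⊆ {z | s < sn z} →
    ∫ z, A z * lap φ z = ∫ z, φ z ∂T
  weakB : ∀ ψ : ℂ → ℝ, ContDiff ℝ ∞ ψ → HasCompactSupport ψ → tsupport ψ ⊆ sq r →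
    ∫ w, B w * lap ψ w = ∫ z, ψ (F z) ∂T

end Pool.Agent.FB018
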