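import Pool.Agent.Lib.MP_018119_an_FB.DDefs
import Pool.Agent.Lib.MP_018119_an_FB.Defs

/-!
# MP_018119_an, project FB: the lattice Laplacian of a smooth function
-/

set_option autoImplicit false

open Topology Filter Set Metric
open scoped ContDiff

namespace Pool.Agent.FB018D

theorem smooth_D {φ : ℂ → ℝ} (hφ : ContDiff ℝ ∞ φ) : ContDiff ℝ ∞ (fderiv ℝ φ) :=
  hφ.fderiv_right (by simp)

theorem smooth_D2 {φ : ℂ → ℝ} (hφ : ContDiff ℝ ∞ φ) : ContDiff ℝ ∞ (fderiv ℝ (fderiv ℝ φ)) :=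
  (smooth_D hφ).fderiv_right (by simp)

theorem supp_D2 {φ : ℂ → ℝ} (hc : HasCompactSupport φ) :
    HasCompactSupport (fderiv ℝ (fderiv ℝ φ)) :=
  (hc.fderiv ℝ).fderiv ℝ

theorem lip_D2 {φ : ℂ → ℝ} (hφ : ContDiff ℝ ∞ φ) (hc : HasCompactSupport φ) :
    ∃ C, LipschitzWith C (fderiv ℝ (fderiv ℝ φ)) :=
  ContDiff.lipschitzWith_of_hasCompactSupport (𝕂 := ℝ) (n := ∞) (supp_D2 hc) (smooth_D2 hφ)
    (by simp)

theorem lip_norm {φ : ℂ → ℝ} (h : ∃ C, LipschitzWith C (fderiv ℝ (fderiv ℝ φ))) :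
    ∃ L : ℝ, 0 ≤ L ∧ ∀ x y : ℂ,
      ‖fderiv ℝ (fderiv ℝ φ) x - fderiv ℝ (fderiv ℝ φ) y‖ ≤ L * ‖x - y‖ := by
  obtain ⟨L, hL⟩ := h
  exact ⟨L, L.2, fun x y => hL.norm_sub_le x y⟩

/-- The second derivative of a smooth function with compact support is Lipschitz. -/
theorem exists_lip {φ : ℂ → ℝ} (hφ : ContDiff ℝ ∞ φ) (hc : HasCompactSupport φ) :
    ∃ L : ℝ, 0 ≤ L ∧ ∀ x y : ℂ,
      ‖fderiv ℝ (fderiv ℝ φ) x - fderiv ℝ (fderiv ℝ φ) y‖ ≤ L * ‖x - y‖ :=
  lip_norm (lip_D2 hφ hc)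

/-- Second difference in one direction. -/
theorem second_diff {φ : ℂ → ℝ} (hφ : ContDiff ℝ ∞ φ) {L : ℝ} (hL0 : 0 ≤ L)
    (hL : ∀ x y : ℂ,
      ‖fderiv ℝ (fderiv ℝ φ) x - fderiv ℝ (fderiv ℝ φ) y‖ ≤ L * ‖x - y‖)
    (z v : ℂ) (hv : ‖v‖ ≤ 1) {h : ℝ} (hh : 0 ≤ h) :
    |φ (z + h • v) + φ (z - h • v) - 2 * φ z - h ^ 2 * fderiv ℝ (fderiv ℝ φ) z v v|
      ≤ 2 * L * h ^ 3 := by
  have h1 : ContDiff ℝ ∞ (fderiv ℝ φ) := hφ.fderiv_right (by simp)
  have d0 : ∀ x, HasFDerivAt φ (fderiv ℝ φ x) x := fun x =>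
    (hφ.differentiable (by simp) x).hasFDerivAt
  have d1 : ∀ x, HasFDerivAt (fderiv ℝ φ) (fderiv ℝ (fderiv ℝ φ) x) x := fun x =>
    (h1.differentiable (by simp) x).hasFDerivAt
  have lp : ∀ t : ℝ, HasDerivAt (fun t : ℝ => z + t • v) v t := fun t => by
    simpa using ((hasDerivAt_id t).smul_const v).const_add z
  have lm : ∀ t : ℝ, HasDerivAt (fun t : ℝ => z - t • v) (-v) t := fun t => by
    simpa using ((hasDerivAt_id t).smul_const v).const_sub z
  set D := fderiv ℝ φ with hD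
  set D2 := fderiv ℝ D with hD2
  set G : ℝ → ℝ := fun t => φ (z + t • v) + φ (z - t • v) - 2 * φ z - t ^ 2 * D2 z v v with hG
  set G1 : ℝ → ℝ := fun t => D (z + t • v) v - D (z - t • v) v - 2 * t * D2 z v v with hG1
  set G2 : ℝ → ℝ := fun t => D2 (z + t • v) v v + D2 (z - t • v) v v - 2 * D2 z v v with hG2
  have dG : ∀ t, HasDerivAt G (G1 t) t := by
    intro t
    have a := (d0 (z + t • v)).comp_hasDerivAt t (lp t)
    have b := (d0 (z - t • v)).comp_hasDerivAt t (lm t)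
    have c : HasDerivAt (fun t : ℝ => t ^ 2 * D2 z v v) (2 * t * D2 z v v) t := by
      simpa using (hasDerivAt_pow 2 t).mul_const (D2 z v v)
    have := ((a.add b).sub_const (2 * φ z)).sub c
    refine this.congr_deriv ?_
    simp only [hG1, map_neg]
    ring
  have dG1 : ∀ t, HasDerivAt G1 (G2 t) t := by
    intro t
    have a := (d1 (z + t • v)).comp_hasDerivAt t (lp t)
    have b := (d1 (z - t • v)).comp_hasDerivAt t (lm t)
    have a' : HasDerivAt (fun t : ℝ => D (z + t • v) v) (D2 (z + t • v) v v) t := by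
      simpa using a.clm_apply (hasDerivAt_const t v)
    have b' : HasDerivAt (fun t : ℝ => D (z - t • v) v) (-D2 (z - t • v) v v) t := by
      simpa using b.clm_apply (hasDerivAt_const t v)
    have c : HasDerivAt (fun t : ℝ => 2 * t * D2 z v v) (2 * D2 z v v) t := by
      simpa using ((hasDerivAt_id t).const_mul 2).mul_const (D2 z v v)
    have := (a'.sub b').sub c
    refine this.congr_deriv ?_
    simp only [hG2]
    ring
  have n2 : ∀ x : ℂ, |(D2 x - D2 z) v v| ≤ L * ‖x - z‖ := by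
    intro x
    have e1 : ‖(D2 x - D2 z) v v‖ ≤ ‖(D2 x - D2 z)‖ * ‖v‖ * ‖v‖ :=
      (D2 x - D2 z).le_opNorm₂ v v
    have e2 : ‖(D2 x - D2 z)‖ * ‖v‖ * ‖v‖ ≤ ‖(D2 x - D2 z)‖ * 1 * 1 := by gcongr
    have e3 := hL x z
    calc |(D2 x - D2 z) v v| ≤ ‖(D2 x - D2 z)‖ * 1 * 1 := e1.trans e2
      _ ≤ L * ‖x - z‖ := by simpa using e3
  have b2 : ∀ t, 0 ≤ t → |G2 t| ≤ 2 * L * t := by
    intro t ht
    have x1 := n2 (z + t • v)
    have x2 := n2 (z - t • v)
    have y1 : ‖z + t • v - z‖ ≤ t := by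
      rw [add_sub_cancel_left, norm_smul, Real.norm_eq_abs, abs_of_nonneg ht]
      nlinarith
    have y2 : ‖z - t • v - z‖ ≤ t := by
      rw [show z - t • v - z = -(t • v) by ring, norm_neg, norm_smul, Real.norm_eq_abs,
        abs_of_nonneg ht]
      nlinarith
    have e : G2 t = (D2 (z + t • v) - D2 z) v v + (D2 (z - t • v) - D2 z) v v := by
      simp only [hG2, sub_apply]
      ring
    rw [e]
    calc |(D2 (z + t • v) - D2 z) v v + (D2 (z - t • v) - D2 z) v v|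
        ≤ |(D2 (z + t • v) - D2 z) v v| + |(D2 (z - t • v) - D2 z) v v| := abs_add_le _ _
      _ ≤ L * ‖z + t • v - z‖ + L * ‖z - t • v - z‖ := add_le_add x1 x2
      _ ≤ L * t + L * t := by gcongr
      _ = 2 * L * t := by ring
  have b1 : ∀ t, 0 ≤ t → |G1 t| ≤ 2 * L * t ^ 2 := by
    intro t ht
    have := Convex.norm_image_sub_le_of_norm_hasDerivWithin_le (f := G1) (f' := G2)
      (s := Icc 0 t) (C := 2 * L * t) (x := 0) (y := t)
      (fun x _ => (dG1 x).hasDerivWithinAt)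
      (fun x hx => (b2 x hx.1).trans (by have := hx.2; gcongr))
      (convex_Icc 0 t) ⟨le_rfl, ht⟩ ⟨ht, le_rfl⟩
    have e0 : G1 0 = 0 := by simp [hG1]
    rw [e0, sub_zero, sub_zero, Real.norm_eq_abs, Real.norm_eq_abs, abs_of_nonneg ht] at this
    calc |G1 t| ≤ 2 * L * t * t := this
      _ = 2 * L * t ^ 2 := by ring
  have b0 : |G h| ≤ 2 * L * h ^ 3 := by
    have := Convex.norm_image_sub_le_of_norm_hasDerivWithin_le (f := G) (f' := G1)
      (s := Icc 0 h) (C := 2 * L * h ^ 2) (x := 0) (y := h)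
      (fun x _ => (dG x).hasDerivWithinAt)
      (fun x hx => (b1 x hx.1).trans (by have := hx.2; have := hx.1; gcongr))
      (convex_Icc 0 h) ⟨le_rfl, hh⟩ ⟨hh, le_rfl⟩
    have e0 : G 0 = 0 := by simp [hG]; ring
    rw [e0, sub_zero, sub_zero, Real.norm_eq_abs, Real.norm_eq_abs, abs_of_nonneg hh] at this
    calc |G h| ≤ 2 * L * h ^ 2 * h := this
      _ = 2 * L * h ^ 3 := by ring
  simpa [hG] using b0

theorem pt_right (h : ℝ) (p : Z2) : pt h (p + (1, 0)) = pt h p + h • (1 : ℂ) := by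
  apply Complex.ext <;> simp [pt, mul_add]

theorem pt_left (h : ℝ) (p : Z2) : pt h (p - (1, 0)) = pt h p - h • (1 : ℂ) := by
  apply Complex.ext <;> simp [pt, mul_sub]

theorem pt_up (h : ℝ) (p : Z2) : pt h (p + (0, 1)) = pt h p + h • Complex.I := by
  apply Complex.ext <;> simp [pt, mul_add]

theorem pt_down (h : ℝ) (p : Z2) : pt h (p - (0, 1)) = pt h p - h • Complex.I := by
  apply Complex.ext <;> simp [pt, mul_sub]

/-- The lattice Laplacian of a smooth function with compact support. -/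
theorem lap_taylor {φ : ℂ → ℝ} (hφ : ContDiff ℝ ∞ φ) (hc : HasCompactSupport φ) :
    ∃ C : ℝ, 0 ≤ C ∧ ∀ h : ℝ, 0 ≤ h → ∀ p : Z2,
      |La (fun q => φ (pt h q)) p + h ^ 2 * FB018.lap φ (pt h p)| ≤ C * h ^ 3 := by
  obtain ⟨L, hL0, hL⟩ := exists_lip hφ hc
  refine ⟨4 * L, by positivity, fun h hh p => ?_⟩
  have a := second_diff hφ hL0 hL (pt h p) 1 (by simp) hh
  have b := second_diff hφ hL0 hL (pt h p) Complex.I (by simp) hh
  have e : La (fun q => φ (pt h q)) p + h ^ 2 * FB018.lap φ (pt h p)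
      = -(φ (pt h p + h • (1 : ℂ)) + φ (pt h p - h • (1 : ℂ)) - 2 * φ (pt h p)
          - h ^ 2 * fderiv ℝ (fderiv ℝ φ) (pt h p) 1 1)
        - (φ (pt h p + h • Complex.I) + φ (pt h p - h • Complex.I) - 2 * φ (pt h p)
          - h ^ 2 * fderiv ℝ (fderiv ℝ φ) (pt h p) Complex.I Complex.I) := by
    simp only [La, pt_right, pt_left, pt_up, pt_down, FB018.lap]
    ring
  rw [e]
  refine (abs_sub _ _).trans ?_
  rw [abs_neg]
  calc _ ≤ 2 * L * h ^ 3 + 2 * L * h ^ 3 := add_le_add a b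
    _ = 4 * L * h ^ 3 := by ring

end Pool.Agent.FB018D
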