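import Pool.Agent.Lib.MP_018119_an_FB.DLim
import Pool.Agent.Lib.MP_018119_an_FB.Defs
import Pool.Agent.Lib.MP_018119_an_FB.DTay
import Pool.Agent.Lib.MP_018119_an_FB.DSbp
import Pool.Agent.Lib.MP_018119_an_FB.DRie

/-!
# MP_018119_an, project FB, discrete half (C3): the weak equation of the limit

Tools of helper72 (files `DTay`, `DSbp`, `DRie`): `lap_taylor`, summation by parts, Riemann sums.
-/

set_option autoImplicit false

open Topology Filter Set Metric MeasureTheory
open scoped ContDiff

namespace Pool.Agent.FB018D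

private theorem dweak_lap_cont {φ : ℂ → ℝ} (hφ : ContDiff ℝ ∞ φ) : Continuous (FB018.lap φ) := by
  have h := (smooth_D2 hφ).continuous
  exact ((h.clm_apply continuous_const).clm_apply continuous_const).add
    ((h.clm_apply continuous_const).clm_apply continuous_const)

private theorem dweak_lap_supp {φ : ℂ → ℝ} (hc : HasCompactSupport φ) :
    HasCompactSupport (FB018.lap φ) := by
  refine (supp_D2 hc).mono fun z hz => ?_
  intro h0
  refine hz ?_
  have h0 : fderiv ℝ (fderiv ℝ φ) z = 0 := h0
  show fderiv ℝ (fderiv ℝ φ) z 1 1 + fderiv ℝ (fderiv ℝ φ) z Complex.I Complex.I = 0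
  rw [h0]
  simp

/-- The weak equation in the limit.

Proof. Let `u j q = φ (pt (h j) q)`, a function of finite support (`sq_finite`). By the hypothesis
`heq`, for `l`-almost all `j`, `m j q * u j q = - La (a j) q * u j q` for all `q`, so
`Σ' m j q * u j q = - Σ' La (a j) q * u j q = - Σ' a j q * La (u j) q` (summation by parts). By
`lap_taylor` `|La (u j) q + h² lap φ (pt h q)| ≤ C h³`, and both `La (u j) q` and `lap φ (pt h q)`
vanish if `sq (pt h q) > R + h`, where `φ = 0` outside `{sq z ≤ R}`. The number of `q` with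
`sq (pt h q) ≤ R + h` is at most `(2 (R + h) / h + 1)² ≤ (2 R + 3)² / h²` for `h ≤ 1`, so the total
error is at most `C h (2 R + 3)² → 0`. The main term `h² Σ' a j q * lap φ (pt h q)` tends to
`∫ A * lap φ` by the Riemann sum lemma (`lap φ` is continuous with compact support). -/
theorem weak_lim {l : Filter ℕ} {h : ℕ → ℝ} (hpos : ∀ j, 0 < h j) (lh : Tendsto h l (𝓝 0))
    {a : ℕ → Z2 → ℝ} (a0 : ∀ j q, 0 ≤ a j q) (a1 : ∀ j q, a j q ≤ 1) {A : ℂ → ℝ}
    (hA : Continuous A) (hlim : LimOn l h a A) {φ : ℂ → ℝ} (hφ : ContDiff ℝ ∞ φ)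
    (hc : HasCompactSupport φ) {m : ℕ → Z2 → ℝ}
    (heq : ∀ᶠ j in l, ∀ q, φ (pt (h j) q) ≠ 0 → La (a j) q = - m j q) :
    Tendsto (fun j => ∑' q, m j q * φ (pt (h j) q)) l (𝓝 (∫ z, A z * FB018.lap φ z)) := by
  obtain ⟨R, hR⟩ : ∃ R, ∀ z, φ z ≠ 0 → sq z ≤ R := by
    obtain ⟨R, hR⟩ := hc.isCompact.isBounded.subset_closedBall 0
    refine ⟨R, fun z hz => (sq_le_norm z).trans ?_⟩
    simpa using hR (subset_tsupport φ hz)
  obtain ⟨R2, hR2⟩ : ∃ R, ∀ z, FB018.lap φ z ≠ 0 → sq z ≤ R := by
    obtain ⟨R, hR⟩ := (dweak_lap_supp hc).isCompact.isBounded.subset_closedBall 0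
    refine ⟨R, fun z hz => (sq_le_norm z).trans ?_⟩
    simpa using hR (subset_tsupport _ hz)
  obtain ⟨C, hC0, htay⟩ := lap_taylor hφ hc
  set e : ℕ → Z2 → ℝ := fun j q => a j q *
    ((La (fun q => φ (pt (h j) q)) q + h j ^ 2 * FB018.lap φ (pt (h j) q)) / h j ^ 2) with he
  set ρ : ℝ := 2 * (max R R2 + 1) with hρ
  set g : ℂ → ℝ := fun z => max 0 (min 1 (ρ + 1 - ‖z‖)) with hg
  have hgc : Continuous g := by
    exact continuous_const.max (continuous_const.min (continuous_const.sub continuous_norm))
  have hgs : HasCompactSupport g := by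
    refine HasCompactSupport.intro (isCompact_closedBall (0 : ℂ) (ρ + 1)) fun z hz => ?_
    have h1 : ρ + 1 < ‖z‖ := by simpa using hz
    exact max_eq_left ((min_le_right _ _).trans (by linarith))
  have hg1 : ∀ z : ℂ, ‖z‖ ≤ ρ → g z = 1 := by
    intro z hz
    have h1 : min 1 (ρ + 1 - ‖z‖) = 1 := min_eq_left (by linarith)
    show max 0 (min 1 (ρ + 1 - ‖z‖)) = 1
    rw [h1]
    exact max_eq_right zero_le_one
  -- the error is uniformly small
  have hesmall : ∀ j q, |e j q| ≤ C * h j := by
    intro j q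
    have h1 := htay (h j) (hpos j).le q
    have h2 := hpos j
    rw [he]
    simp only
    rw [abs_mul, abs_of_nonneg (a0 j q), abs_div, abs_of_pos (by positivity : 0 < h j ^ 2)]
    calc a j q * (|La (fun q => φ (pt (h j) q)) q + h j ^ 2 * FB018.lap φ (pt (h j) q)| / h j ^ 2)
        ≤ 1 * (C * h j ^ 3 / h j ^ 2) := by
          refine mul_le_mul (a1 j q) ?_ (by positivity) zero_le_one
          exact div_le_div_of_nonneg_right h1 (by positivity)
      _ = C * h j := by
          field_simp
  have hh1 : ∀ᶠ j in l, h j < 1 := lh.eventually (gt_mem_nhds one_pos)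
  -- support of the error
  have hesupp : ∀ j, h j < 1 → ∀ q, e j q * g (pt (h j) q) = e j q := by
    intro j hj q
    rcases le_or_gt (sq (pt (h j) q)) (max R R2 + 1) with h1 | h1
    · rw [hg1 _ ?_, mul_one]
      have := norm_le_sq (pt (h j) q)
      rw [hρ]
      linarith
    · have h2 : FB018.lap φ (pt (h j) q) = 0 := by
        by_contra h3
        have := hR2 _ h3
        have := le_max_right R R2
        linarith
      have h3 : ∀ v : ℂ, sq v ≤ 1 → φ (pt (h j) q + v) = 0 := by
        intro v hv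
        by_contra h4
        have h5 := hR _ h4
        have h6 := sq_add_le (pt (h j) q + v) (-v)
        have h7 : sq (-v) = sq v := by simp [sq]
        rw [add_neg_cancel_right, h7] at h6
        have := le_max_left R R2
        linarith
      have hh := hpos j
      have h4 : sq (h j • (1 : ℂ)) ≤ 1 := by
        simp [sq, abs_of_pos hh, hj.le]
      have h5 : sq (h j • Complex.I) ≤ 1 := by
        simp [sq, abs_of_pos hh, hj.le]
      have hneg : ∀ v : ℂ, sq (-v) = sq v := fun v => by simp [sq]
      have e1 : La (fun q => φ (pt (h j) q)) q = 0 := by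
        simp only [La, pt_right, pt_left, pt_up, pt_down]
        have i1 := h3 0 (by simp [sq])
        rw [add_zero] at i1
        have i2 := h3 (h j • (1 : ℂ)) h4
        have i3 := h3 (-(h j • (1 : ℂ))) (by rw [hneg]; exact h4)
        have i4 := h3 (h j • Complex.I) h5
        have i5 := h3 (-(h j • Complex.I)) (by rw [hneg]; exact h5)
        rw [← sub_eq_add_neg] at i3 i5
        rw [i1, i2, i3, i4, i5]
        ring
      have e2 : e j q = 0 := by
        rw [he]
        simp only
        rw [e1, h2]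
        simp
      rw [e2, zero_mul]
  have hmain := riemann hpos lh hA hlim (dweak_lap_cont hφ) (dweak_lap_supp hc)
  have herr := riemann (a := e) (A := fun _ => 0) hpos lh continuous_const (by
    intro R η hη
    have h1 : Tendsto (fun j => C * h j) l (𝓝 0) := by
      simpa using lh.const_mul C
    filter_upwards [h1.eventually (gt_mem_nhds hη)] with j hj q _
    rw [sub_zero]
    exact (hesmall j q).trans (le_of_lt hj)) hgc hgs
  have hsub := hmain.sub herr
  simp only [zero_mul, integral_zero, sub_zero] at hsub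
  refine hsub.congr' ?_
  filter_upwards [heq, hh1] with j hj hj1
  have hh := hpos j
  have hfin : (Function.support fun q => φ (pt (h j) q)).Finite :=
    (finite_pt hh R).subset fun q hq => hR _ hq
  have e1 : ∀ q, m j q * φ (pt (h j) q) = -(φ (pt (h j) q) * La (a j) q) := by
    intro q
    by_cases hq : φ (pt (h j) q) = 0
    · simp [hq]
    · rw [hj q hq]
      ring
  have e2 : ∑' q, m j q * φ (pt (h j) q) =
      -∑' q, La (fun q => φ (pt (h j) q)) q * a j q := by
    rw [tsum_congr e1, tsum_neg, sbp hfin]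
  have e3 : ∑' q, e j q * g (pt (h j) q) = ∑' q, e j q := tsum_congr (hesupp j hj1)
  have s1 : Summable fun q => a j q * FB018.lap φ (pt (h j) q) := by
    refine summable_of_finite_support ((finite_pt hh R2).subset fun q hq => ?_)
    exact hR2 _ (right_ne_zero_of_mul hq)
  have s2 : Summable fun q => e j q := by
    refine summable_of_finite_support ((finite_pt hh (ρ + 1)).subset fun q hq => ?_)
    by_contra h1
    have h1 : ρ + 1 < sq (pt (h j) q) := not_le.1 h1
    refine hq ?_
    have h2 := hesupp j hj1 q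
    have h3 := sq_le_norm (pt (h j) q)
    have h4 : g (pt (h j) q) = 0 := max_eq_left ((min_le_right _ _).trans (by linarith))
    show e j q = 0
    rw [← h2, h4, mul_zero]
  rw [e2, e3, ← tsum_mul_left, ← tsum_mul_left, ← Summable.tsum_sub (s1.mul_left _) (s2.mul_left _),
    ← tsum_neg]
  refine tsum_congr fun q => ?_
  rw [he]
  simp only
  field_simp
  ring

/-- The same for masses which are given as sums over a finite set of pairs.

Proof. Exchange the finite sum and the sum over `q`:
`Σ' q, (Σ_{x ∈ S j} if g x = q then w j x else 0) * φ (pt q) = Σ_{x ∈ S j} w j x * φ (pt (g x))`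
(`tsum_eq_sum` on `(S j).image g`, or `Summable.tsum_finsetSum` and `tsum_eq_single`). -/
theorem weak_lim' {l : Filter ℕ} {h : ℕ → ℝ} (hpos : ∀ j, 0 < h j) (lh : Tendsto h l (𝓝 0))
    {a : ℕ → Z2 → ℝ} (a0 : ∀ j q, 0 ≤ a j q) (a1 : ∀ j q, a j q ≤ 1) {A : ℂ → ℝ}
    (hA : Continuous A) (hlim : LimOn l h a A) {φ : ℂ → ℝ} (hφ : ContDiff ℝ ∞ φ)
    (hc : HasCompactSupport φ) (S : ℕ → Finset (Z2 × Z2)) (w : ℕ → Z2 × Z2 → ℝ)
    (g : Z2 × Z2 → Z2)
    (heq : ∀ᶠ j in l, ∀ q, φ (pt (h j) q) ≠ 0 →
      La (a j) q = - ∑ x ∈ S j, (if g x = q then w j x else 0)) :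
    Tendsto (fun j => ∑ x ∈ S j, w j x * φ (pt (h j) (g x))) l
      (𝓝 (∫ z, A z * FB018.lap φ z)) := by
  have h1 := weak_lim hpos lh a0 a1 hA hlim hφ hc
    (m := fun j q => ∑ x ∈ S j, (if g x = q then w j x else 0)) heq
  refine h1.congr fun j => ?_
  have e2 : ∀ q, (∑ x ∈ S j, (if g x = q then w j x else 0)) * φ (pt (h j) q)
      = ∑ x ∈ S j, (if q = g x then w j x * φ (pt (h j) (g x)) else 0) := by
    intro q
    rw [Finset.sum_mul]
    refine Finset.sum_congr rfl fun x _ => ?_
    by_cases hx : g x = q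
    · subst hx; simp
    · rw [if_neg hx, if_neg (Ne.symm hx), zero_mul]
  rw [tsum_congr e2, Summable.tsum_finsetSum]
  · refine Finset.sum_congr rfl fun x _ => ?_
    rw [tsum_ite_eq]
  · intro x _
    refine summable_of_finite_support ((Set.finite_singleton (g x)).subset fun q hq => ?_)
    by_contra hne
    exact hq (if_neg hne)

end Pool.Agent.FB018D
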