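import Pool.Agent.Lib.MP_018119_an_FB.DEq
import Pool.Agent.Lib.MP_018119_an_FB.DMeas
import Pool.Agent.Lib.MP_018119_an_FB.DWeak
import Pool.Agent.Lib.MP_018119_an_FB.DPush
import Pool.Agent.Lib.MP_018119_an_FB.DLeak
import Pool.Agent.Lib.MP_018119_an_FB.DNe

/-!
# MP_018119_an, project FB, discrete half (C7): from the discrete solutions to the two phase potential
-/

set_option autoImplicit false

open Topology Filter Set Metric MeasureTheory
open scoped ContDiff

namespace Pool.Agent.FB018D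

private theorem DTP_sq_smul {t : ℝ} (ht : 0 < t) (z : ℂ) : sq ((t : ℂ) * z) = t * sq z := by
  unfold sq
  rw [Complex.re_ofReal_mul, Complex.im_ofReal_mul, abs_mul, abs_mul, abs_of_pos ht,
    mul_max_of_nonneg _ _ ht.le]

private theorem DTP_pt_zero (h : ℝ) : pt h 0 = 0 := by
  apply Complex.ext <;> simp [pt]

private theorem DTP_ray {A : ℂ → ℝ} (hA : Continuous A) (z : ℂ) (s : Set ℝ) :
    Tendsto (fun t : ℝ => A ((t : ℂ) * z)) (𝓝[s] 1) (𝓝 (A z)) := by
  have hc : Continuous fun t : ℝ => A ((t : ℂ) * z) :=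
    hA.comp (Complex.continuous_ofReal.mul continuous_const)
  have h1 := (hc.tendsto 1).mono_left (nhdsWithin_le_nhds (s := s))
  simpa using h1

/-- the plateau of the first plane -/
private theorem DTP_one {l : Filter ℕ} [l.NeBot] {h : ℕ → ℝ} (hpos : ∀ j, 0 < h j)
    (lh : Tendsto h l (𝓝 0)) {a : ℕ → Z2 → ℝ} {s : ℝ} (hs : 0 < s) {A : ℂ → ℝ}
    (hA : Continuous A) (ha : ∀ j, ∀ q ∈ Ka (h j) s, a j q = 1)
    (hlim : ∀ z, Tendsto (fun j => a j (rd (h j) z)) l (𝓝 (A z))) {z : ℂ} (hz : sq z ≤ s) :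
    A z = 1 := by
  have hlt : ∀ z : ℂ, sq z < s → A z = 1 := by
    intro z hz
    refine tendsto_nhds_unique (hlim z) (tendsto_const_nhds.congr' ?_)
    have h1 : ∀ᶠ j in l, h j < s - sq z := lh.eventually (gt_mem_nhds (sub_pos.mpr hz))
    filter_upwards [h1] with j hj
    refine (ha j _ ?_).symm
    have h2 := cell_lo (hpos j).le (c := 0) (mem_rd (hpos j) z)
    rw [sub_zero, DTP_pt_zero, sub_zero] at h2
    have h3 := hpos j
    show h j * (sn (rd (h j) z) : ℝ) ≤ s
    linarith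
  rcases hz.lt_or_eq with h0 | h0
  · exact hlt z h0
  · refine tendsto_nhds_unique (DTP_ray hA z (Iio 1)) (tendsto_const_nhds.congr' ?_)
    filter_upwards [Ioo_mem_nhdsLT (show (0 : ℝ) < 1 from one_pos)] with t ht
    refine (hlt _ ?_).symm
    rw [DTP_sq_smul ht.1, h0]
    nlinarith [ht.2]

/-- the plateau of the second plane -/
private theorem DTP_one' {l : Filter ℕ} [l.NeBot] {h : ℕ → ℝ} (hpos : ∀ j, 0 < h j)
    (lh : Tendsto h l (𝓝 0)) {b : ℕ → Z2 → ℝ} {r : ℝ} (hr : 0 < r) {B : ℂ → ℝ}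
    (hB : Continuous B) (hb : ∀ j, ∀ p ∈ Kb (h j) r, b j p = 1)
    (hlim : ∀ z, Tendsto (fun j => b j (rd (h j) z)) l (𝓝 (B z))) {z : ℂ} (hz : r ≤ sq z) :
    B z = 1 := by
  have hlt : ∀ z : ℂ, r < sq z → B z = 1 := by
    intro z hz
    refine tendsto_nhds_unique (hlim z) (tendsto_const_nhds.congr' ?_)
    have h1 : ∀ᶠ j in l, h j < sq z - r := lh.eventually (gt_mem_nhds (sub_pos.mpr hz))
    filter_upwards [h1] with j hj
    refine (hb j _ ?_).symm
    have h2 := cell_up (hpos j).le (c := 0) (mem_rd (hpos j) z)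
    rw [sub_zero, DTP_pt_zero, sub_zero] at h2
    have h3 := hpos j
    show r ≤ h j * (sn (rd (h j) z) : ℝ)
    linarith
  rcases hz.lt_or_eq with h0 | h0
  · exact hlt z h0
  · refine tendsto_nhds_unique (DTP_ray hB z (Ioi 1)) (tendsto_const_nhds.congr' ?_)
    filter_upwards [self_mem_nhdsWithin] with t ht
    have ht' : (1 : ℝ) < t := ht
    refine (hlt _ ?_).symm
    rw [DTP_sq_smul (by linarith), ← h0]
    nlinarith

/-- **The limit of the discrete solutions.**

Proof. `U = hyperfilter ℕ`, `U ≤ atTop` (`Nat.hyperfilter_le_atTop`). `equicont H` and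
`equicont H.symm` give `EqC h a`, `EqC h' b`; `exists_lim` twice gives `A`, `B`. `exists_meas` with
`x0 j x = pt (h j) x.1` gives `T`. `A = 1` on `{sn z ≤ s}`: for `sq z < s` and small `h`,
`h * sn (rd h z) ≤ sq z + h / 2 ≤ s` (`cell_lo`, `mem_rd`, `c = 0`), `a = 1`; then continuity
(`z` is the limit of `t z`, `t → 1-`). `B = 1` on `{r ≤ sn w}`: the same with `sq w > r`, `t → 1+`.
`A z * B (F z) = 0`: `Rel F h h' (rd h z) (rd h' (F z))` by `mem_rd`, `dis`, product of the limits.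
Weak equation of `A`: `weak_lim'` with `g = Prod.fst`: if `φ (pt h q) ≠ 0`, then
`s < sq (pt h q) = h * sn q`, and `noleak` applies; compare the limit with `hT` by uniqueness of
limits. Weak equation of `B`: `weak_lim'` with `g = Prod.snd` and the meshes `h'`, `W.eqb`, and
`push_lim`. `T ≠ 0`: `mass_ge` (with `R` = the maximum of the radii of `mass_bdd` and `supp_bdd`) and
`meas_ne`. -/
theorem TP_of_seq {F : ℂ ≃ₜ ℂ} (hF : F 0 = 0) {s r : ℝ} (hs : 0 < s) (hr : 0 < r) {h h' : ℕ → ℝ}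
    {a b : ℕ → Z2 → ℝ} {S : ℕ → Finset (Z2 × Z2)} {w : ℕ → Z2 × Z2 → ℝ} {C C' R0 : ℝ}
    (H : SQ F h h' (fun j => Ka (h j) s) (fun j => Kb (h' j) r) a b C R0)
    (W : SW F s r h h' a b S w C') :
    ∃ (A B : ℂ → ℝ) (T : Measure ℂ), FB018.TP F s r A B T := by
  obtain ⟨U, hU⟩ : ∃ U : Ultrafilter ℕ, (U : Filter ℕ) ≤ atTop :=
    ⟨hyperfilter ℕ, Nat.hyperfilter_le_atTop⟩
  have hpos : ∀ j, 0 < h j := fun j => (H.side j).h0
  have hpos' : ∀ j, 0 < h' j := fun j => (H.side j).h0'
  have lhU : Tendsto h U (𝓝 0) := H.lh.mono_left hU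
  have lhU' : Tendsto h' U (𝓝 0) := H.lh'.mono_left hU
  have ea : EqC h a := equicont H
  have eb : EqC h' b := equicont H.symm
  obtain ⟨A, hAc, hA0, hA1, hAlim, hAt⟩ := exists_lim U hU hpos H.lh
    (fun j q => (H.side j).a0 q) (fun j q => (H.side j).a1 q) ea
  obtain ⟨B, hBc, hB0, hB1, hBlim, hBt⟩ := exists_lim U hU hpos' H.lh'
    (fun j q => (H.side j).b0 q) (fun j q => (H.side j).b1 q) eb
  obtain ⟨T, hTf, hT⟩ := exists_meas U S w (fun j x => pt (h j) x.1) C' W.w0 W.tot
  refine ⟨A, B, T, ?_⟩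
  constructor
  · exact hs
  · exact hr
  · exact hF
  · exact hAc
  · exact hA0
  · exact hA1
  · intro z hz
    exact DTP_one hpos lhU hs hAc (fun j => (H.side j).aK) hAt hz
  · exact hBc
  · exact hB0
  · exact hB1
  · intro z hz
    exact DTP_one' hpos' lhU' hr hBc (fun j => (H.side j).bK) hBt hz
  · intro z
    refine tendsto_nhds_unique ((hAt z).mul (hBt (F z))) (tendsto_const_nhds.congr' ?_)
    refine Eventually.of_forall fun j => ?_
    exact ((H.side j).dis _ _ ⟨z, mem_rd (hpos j) z, mem_rd (hpos' j) (F z)⟩).symm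
  · exact hTf
  · obtain ⟨R1, hR1, e1⟩ := mass_bdd W hpos hpos' H.lh H.lh'
    obtain ⟨R2, hR2, e2⟩ := supp_bdd H
    have e3 := noleak H W eb
    have hR : 0 < max R1 R2 := lt_max_of_lt_left hR1
    refine meas_ne (l := U) (h := h) (S := S) (w := w) (c := s / max R1 R2) (R := max R1 R2)
      (div_pos hs hR) hT ?_ ?_
    · filter_upwards [hU e1] with j hj x hx
      exact (hj x hx).trans (le_max_left _ _)
    · filter_upwards [hU e1, hU e2, hU e3] with j h1 h2 h3
      exact mass_ge (hpos j) hs hR (fun q => (H.side j).a0 q) (H.side j).aK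
        (fun q hq => h2 q (lt_of_le_of_lt (le_max_right _ _) hq)) (S j) (w j) (W.w0 j)
        (fun x hx => (h1 x hx).trans (le_max_left _ _)) h3
  · intro φ hφ hc hsup
    have e3 := noleak H W eb
    have h1 := weak_lim' (l := U) hpos lhU (fun j q => (H.side j).a0 q)
      (fun j q => (H.side j).a1 q) hAc hAlim hφ hc S w Prod.fst (by
        filter_upwards [hU e3] with j hj q hq
        refine hj q ?_
        have h2 : pt (h j) q ∈ tsupport φ := subset_tsupport φ hq
        have h3 : s < sq (pt (h j) q) := hsup h2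
        rwa [sq_pt (hpos j).le] at h3)
    exact tendsto_nhds_unique h1 (hT φ hφ.continuous hc)
  · intro ψ hψ hc hsup
    have h1 := weak_lim' (l := U) hpos' lhU' (fun j q => (H.side j).b0 q)
      (fun j q => (H.side j).b1 q) hBc hBlim hψ hc S w Prod.snd (by
        refine Eventually.of_forall fun j q hq => W.eqb j q ?_
        have h2 : pt (h' j) q ∈ tsupport ψ := subset_tsupport ψ hq
        have h3 : sq (pt (h' j) q) < r := hsup h2
        rwa [sq_pt (hpos' j).le] at h3)
    exact tendsto_nhds_unique h1 (push_lim W hpos hpos' H.lh H.lh' hU hT hψ.continuous hc)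

end Pool.Agent.FB018D
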