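import Pool.Agent.Lib.MP_018119_an_MX.CantB

/-!
# FB: subsets of a curve which miss a dense set of parameters
-/

set_option autoImplicit false

open Topology Filter Set Metric

namespace Pool.Agent.FB018

open Pool.Agent.MX018

theorem td_dense_aux {γ : ℝ → ℂ} (hγ : Crv γ) {K : Set ℂ} (hK : IsClosed K)
    (hKC : K ⊆ γ '' Icc 0 1) (h0 : γ 0 ∉ K) (h1 : γ 1 ∉ K)
    (hd : ∀ a b : ℝ, 0 < a → a < b → b < 1 → ∃ x ∈ Ioo a b, γ x ∉ K) {T : Set ℂ} (hT : T ⊆ K)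
    (hcT : IsPreconnected T) {a b : ℝ} (ha : a ∈ Icc (0 : ℝ) 1) (hb : b ∈ Icc (0 : ℝ) 1)
    (haT : γ a ∈ T) (hbT : γ b ∈ T) (hab : a < b) : False := by
  have hin : ∀ x ∈ Icc (0 : ℝ) 1, γ x ∈ K → x ∈ Ioo (0 : ℝ) 1 := by
    intro x hx hxK
    refine ⟨lt_of_le_of_ne hx.1 ?_, lt_of_le_of_ne hx.2 ?_⟩
    · rintro rfl
      exact h0 hxK
    · rintro rfl
      exact h1 hxK
  have ha' := hin a ha (hT haT)
  have hb' := hin b hb (hT hbT)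
  obtain ⟨x, hx, hxK⟩ := hd a b ha'.1 hab hb'.2
  have hZ : IsCompact (Icc (0 : ℝ) 1 ∩ γ ⁻¹' K) :=
    isCompact_Icc.of_isClosed_subset (hγ.cont.preimage_isClosed_of_isClosed isClosed_Icc hK)
      inter_subset_left
  refine td_aux (Z := Icc (0 : ℝ) 1 ∩ γ ⁻¹' K) (P := Icc 0 x) (Q := Icc x 1) hZ
    (hγ.cont.mono inter_subset_left) isClosed_Icc isClosed_Icc ?_ ?_ ⟨ha, hT haT⟩
    ⟨ha.1, hx.1.le⟩ ⟨hb, hT hbT⟩ ⟨hx.2.le, hb.2⟩ ?_ hcT haT hbT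
  · intro y hy
    rcases le_total y x with h | h
    · exact Or.inl ⟨hy.1.1, h⟩
    · exact Or.inr ⟨h, hy.1.2⟩
  · intro y hy hyP y' hy' hyQ he
    have h2 : y = y' := crv_inj hγ (hin y hy.1 hy.2) hy'.1 he
    have h3 : y = x := le_antisymm hyP.2 (h2 ▸ hyQ.1)
    exact hxK (h3 ▸ hy.2)
  · intro u hu
    obtain ⟨y, hy, rfl⟩ := hKC (hT hu)
    exact ⟨y, ⟨hy, hT hu⟩, rfl⟩

/-- A closed subset of a curve which misses a dense set of parameters, and the ends, is totally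
disconnected. -/
theorem td_of_dense {γ : ℝ → ℂ} (hγ : Crv γ) {K : Set ℂ} (hK : IsClosed K)
    (hKC : K ⊆ γ '' Icc 0 1) (h0 : γ 0 ∉ K) (h1 : γ 1 ∉ K)
    (hd : ∀ a b : ℝ, 0 < a → a < b → b < 1 → ∃ x ∈ Ioo a b, γ x ∉ K) :
    IsTotallyDisconnected K := by
  intro T hT hcT u hu v hv
  by_contra huv
  obtain ⟨a, ha, rfl⟩ := hKC (hT hu)
  obtain ⟨b, hb, rfl⟩ := hKC (hT hv)
  rcases lt_trichotomy a b with hab | hab | hab
  · exact td_dense_aux hγ hK hKC h0 h1 hd hT hcT ha hb hu hv hab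
  · exact huv (by rw [hab])
  · exact td_dense_aux hγ hK hKC h0 h1 hd hT hcT hb ha hv hu hab

/-- A curve has empty interior. -/
theorem interior_crv {γ : ℝ → ℂ} (hγ : Crv γ) : interior (γ '' Icc 0 1) = ∅ := by
  have h12 : (1 / 2 : ℝ) ∈ Ioo (0 : ℝ) 1 := ⟨by norm_num, by norm_num⟩
  have hi1 : InjOn γ (Icc 0 (1 / 2)) := hγ.inj.mono fun x (hx : x ∈ Icc 0 (1 / 2)) =>
    (⟨hx.1, hx.2.trans_lt h12.2⟩ : x ∈ Ico (0 : ℝ) 1)
  have hi2 : InjOn γ (Icc (1 / 2) 1) := by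
    intro x hx y hy hxy
    rcases hx.2.lt_or_eq with h1 | h1
    · exact crv_inj hγ ⟨h12.1.trans_le hx.1, h1⟩ ⟨h12.1.le.trans hy.1, hy.2⟩ hxy
    · rcases hy.2.lt_or_eq with h2 | h2
      · exact (crv_inj hγ ⟨h12.1.trans_le hy.1, h2⟩ ⟨h12.1.le.trans hx.1, hx.2⟩ hxy.symm).symm
      · rw [h1, h2]
  have hc1 : ContinuousOn γ (Icc 0 (1 / 2)) := hγ.cont.mono (Icc_subset_Icc_right h12.2.le)
  have hc2 : ContinuousOn γ (Icc (1 / 2) 1) := hγ.cont.mono (Icc_subset_Icc_left h12.1.le)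
  have hcp1 : IsCompact (γ '' Icc 0 (1 / 2)) := isCompact_Icc.image_of_continuousOn hc1
  have hun : γ '' Icc 0 1 = γ '' Icc 0 (1 / 2) ∪ γ '' Icc (1 / 2) 1 := by
    rw [← image_union, Icc_union_Icc_eq_Icc h12.1.le h12.2.le]
  rw [hun, interior_union_isClosed_of_interior_empty hcp1.isClosed (interior_arc hc2 hi2)]
  exact interior_arc hc1 hi1

end Pool.Agent.FB018
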