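import Pool.Agent.Lib.MP_018119_an_MX.Defs

/-!
# MP_018119_an, project FB: definitions for the end of the proof

`FI` is a local free interface: a homeomorphism `G` of a disc `|ζ| < k`, `k > 1`, onto a small
neighbourhood of `z₀`, which is conformal in the unit disc, and such that `F ∘ G` is conformal in the
annulus `1 < |ζ| < k`. `FreeInt` is the free interface lemma.
-/

set_option autoImplicit false

open Topology Filter Set Metric

namespace Pool.Agent.FB018

/-- A local free interface of `F` at `z₀`, of size `η`. -/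
structure FI (F : ℂ → ℂ) (z₀ : ℂ) (η k : ℝ) (G : ℂ → ℂ) : Prop where
  one_lt : 1 < k
  zero : G 0 = z₀
  cont : ContinuousOn G (ball 0 k)
  inj : InjOn G (ball 0 k)
  opn : ∀ U ⊆ ball (0 : ℂ) k, IsOpen U → IsOpen (G '' U)
  small : MapsTo (fun ζ => F (G ζ)) (ball 0 k) (ball (F z₀) η)
  holI : DifferentiableOn ℂ G (ball 0 1)
  holO : DifferentiableOn ℂ (fun ζ => F (G ζ)) {ζ | 1 < ‖ζ‖ ∧ ‖ζ‖ < k}

/-- The free interface lemma. -/
def FreeInt : Prop :=
  ∀ (F : ℂ ≃ₜ ℂ) (K : Set ℂ), IsCompact K → interior K = ∅ → DifferentiableOn ℂ F Kᶜ →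
    ∀ (z₀ : ℂ) (η : ℝ), 0 < η → ∃ (k : ℝ) (G : ℂ → ℂ), FI F z₀ η k G

end Pool.Agent.FB018
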