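import Mathlib

/-!
# FB: segments and circular arcs are removable for continuous functions
-/

set_option autoImplicit false

open Topology Filter Set Metric Complex
open scoped Interval

namespace Pool.Agent.FB018

/-- The real line is removable for continuous functions. -/
theorem rem_line {f : ℂ → ℂ} {U : Set ℂ} (hU : IsOpen U) (hc : ContinuousOn f U)
    (hd : ∀ z ∈ U, z.im ≠ 0 → DifferentiableAt ℂ f z) : DifferentiableOn ℂ f U := by
  refine (isConservativeOn_and_continuousOn_iff_isDifferentiableOn hU).1 ⟨?_, hc⟩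
  intro z w hzw
  rw [← add_eq_zero_iff_eq_neg, wedgeIntegral_add_wedgeIntegral_eq]
  have hR : Rectangle z w = [[z.re, w.re]] ×ℂ [[z.im, w.im]] := rfl
  rw [hR] at hzw
  have hcR : ContinuousOn f ([[z.re, w.re]] ×ℂ [[z.im, w.im]]) := hc.mono hzw
  by_cases h0 : (0 : ℝ) ∈ [[z.im, w.im]]
  · have hs1 : [[z.im, (0 : ℝ)]] ⊆ [[z.im, w.im]] := uIcc_subset_uIcc left_mem_uIcc h0
    have hs2 : [[(0 : ℝ), w.im]] ⊆ [[z.im, w.im]] := uIcc_subset_uIcc h0 right_mem_uIcc
    have e1 := integral_boundary_rect_eq_zero_of_continuousOn_of_differentiableOn f z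
      ((w.re : ℂ)) (by
        rw [ofReal_re, ofReal_im]
        exact hcR.mono fun x hx => ⟨hx.1, hs1 hx.2⟩) (by
        rw [ofReal_re, ofReal_im]
        intro x hx
        refine (hd x (hzw ⟨Ioo_subset_Icc_self hx.1, hs1 (Ioo_subset_Icc_self hx.2)⟩)
          ?_).differentiableWithinAt
        intro hx0
        have h1 := hx.2
        rw [mem_preimage, hx0] at h1
        rcases le_total z.im 0 with h | h
        · rw [max_eq_right h] at h1
          exact lt_irrefl _ h1.2
        · rw [min_eq_right h] at h1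
          exact lt_irrefl _ h1.1)
    have e2 := integral_boundary_rect_eq_zero_of_continuousOn_of_differentiableOn f
      ((z.re : ℂ)) w (by
        rw [ofReal_re, ofReal_im]
        exact hcR.mono fun x hx => ⟨hx.1, hs2 hx.2⟩) (by
        rw [ofReal_re, ofReal_im]
        intro x hx
        refine (hd x (hzw ⟨Ioo_subset_Icc_self hx.1, hs2 (Ioo_subset_Icc_self hx.2)⟩)
          ?_).differentiableWithinAt
        intro hx0
        have h1 := hx.2
        rw [mem_preimage, hx0] at h1
        rcases le_total w.im 0 with h | h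
        · rw [max_eq_left h] at h1
          exact lt_irrefl _ h1.2
        · rw [min_eq_left h] at h1
          exact lt_irrefl _ h1.1)
    have hint : ∀ (x : ℝ), x ∈ [[z.re, w.re]] → ∀ a b : ℝ, a ∈ [[z.im, w.im]] →
        b ∈ [[z.im, w.im]] →
        IntervalIntegrable (fun y : ℝ => f (x + y * I)) MeasureTheory.volume a b := by
      intro x hx a b ha hb
      refine ContinuousOn.intervalIntegrable ?_
      refine hcR.comp (by fun_prop) fun y hy => ?_
      have hy2 : y ∈ [[z.im, w.im]] := uIcc_subset_uIcc ha hb hy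
      refine ⟨?_, ?_⟩
      · simpa using hx
      · simpa using hy2
    have e3 := intervalIntegral.integral_add_adjacent_intervals
      (hint w.re right_mem_uIcc z.im 0 left_mem_uIcc h0)
      (hint w.re right_mem_uIcc 0 w.im h0 right_mem_uIcc)
    have e4 := intervalIntegral.integral_add_adjacent_intervals
      (hint z.re left_mem_uIcc z.im 0 left_mem_uIcc h0)
      (hint z.re left_mem_uIcc 0 w.im h0 right_mem_uIcc)
    rw [← e3, ← e4]
    simp only [ofReal_re, ofReal_im, smul_eq_mul] at e1 e2 ⊢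
    linear_combination e1 + e2
  · refine integral_boundary_rect_eq_zero_of_continuousOn_of_differentiableOn f z w hcR ?_
    intro x hx
    refine (hd x (hzw ⟨Ioo_subset_Icc_self hx.1, Ioo_subset_Icc_self hx.2⟩)
      ?_).differentiableWithinAt
    intro hx0
    apply h0
    have h1 := hx.2
    rw [mem_preimage, hx0] at h1
    exact Ioo_subset_Icc_self h1

/-- Arcs of the unit circle are removable for continuous functions. -/
theorem rem_circle {G : ℂ → ℂ} {ζ₀ : ℂ} (h1 : ‖ζ₀‖ = 1) {U : Set ℂ} (hU : U ∈ 𝓝 ζ₀)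
    (hc : ContinuousOn G U) (hd : ∀ ζ ∈ U, ‖ζ‖ ≠ 1 → DifferentiableAt ℂ G ζ) :
    DifferentiableAt ℂ G ζ₀ := by
  obtain ⟨V, hVU, hV, h0⟩ := _root_.mem_nhds_iff.1 hU
  have hz0 : ζ₀ ≠ 0 := by
    intro h
    rw [h, norm_zero] at h1
    exact zero_ne_one h1
  have hcont : Continuous fun w : ℂ => ζ₀ * exp (I * w) := by fun_prop
  have hg : DifferentiableOn ℂ (fun w : ℂ => G (ζ₀ * exp (I * w)))
      ((fun w : ℂ => ζ₀ * exp (I * w)) ⁻¹' V) := by
    refine rem_line (hV.preimage hcont) ?_ ?_
    · exact (hc.mono hVU).comp hcont.continuousOn fun w hw => hw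
    · intro w hw hw0
      have h2 : ‖ζ₀ * exp (I * w)‖ ≠ 1 := by
        rw [norm_mul, h1, one_mul, norm_exp]
        intro h3
        rw [Real.exp_eq_one_iff] at h3
        simp at h3
        exact hw0 h3
      have h3 : DifferentiableAt ℂ (fun w : ℂ => ζ₀ * exp (I * w)) w := by fun_prop
      exact (hd _ (hVU hw) h2).comp w h3
  have hg0 : DifferentiableAt ℂ (fun w : ℂ => G (ζ₀ * exp (I * w))) 0 := by
    refine hg.differentiableAt ((hV.preimage hcont).mem_nhds ?_)
    simpa using h0
  have hl : DifferentiableAt ℂ (fun ζ : ℂ => -I * log (ζ / ζ₀)) ζ₀ := by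
    have h2 : DifferentiableAt ℂ (fun ζ : ℂ => ζ / ζ₀) ζ₀ := by fun_prop
    refine (h2.clog ?_).const_mul _
    rw [div_self hz0]
    exact one_mem_slitPlane
  have hl0 : (fun ζ : ℂ => -I * log (ζ / ζ₀)) ζ₀ = 0 := by
    simp [div_self hz0]
  have hcomp : DifferentiableAt ℂ
      ((fun w : ℂ => G (ζ₀ * exp (I * w))) ∘ fun ζ : ℂ => -I * log (ζ / ζ₀)) ζ₀ := by
    refine DifferentiableAt.comp ζ₀ ?_ hl
    have h2 : -I * log (ζ₀ / ζ₀) = 0 := hl0
    rw [h2]
    exact hg0
  refine hcomp.congr_of_eventuallyEq ?_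
  have hne : ∀ᶠ ζ in 𝓝 ζ₀, ζ ≠ 0 := isOpen_ne.mem_nhds hz0
  filter_upwards [hne] with ζ hζ
  simp only [Function.comp]
  have h2 : I * (-I * log (ζ / ζ₀)) = log (ζ / ζ₀) := by
    rw [← mul_assoc, mul_neg, I_mul_I, neg_neg, one_mul]
  rw [h2, exp_log (div_ne_zero hζ hz0), mul_div_cancel₀ _ hz0]

end Pool.Agent.FB018
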