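import Pool.Agent.Lib.MP_018119_an_FB.EDefs
import Pool.Agent.Lib.MP_018119_an_FB.EMor
import Pool.Agent.Lib.MP_018119_an_MX.GateL
import Pool.Agent.Lib.MP_018119_an_MX.GateSt
import Pool.Agent.Lib.MP_018119_an_MY.Fill
import Pool.Agent.Lib.MP_018119_an_MY.TowR

/-!
# FB: the gate step with a free interface
-/

set_option autoImplicit false

open Topology Filter Set Metric

namespace Pool.Agent.FB018

open Pool.Agent.MX018 Pool.Agent.MY018 Pool.Agent.Lib.MP_1f4a82_an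

/-- A state without exceptional points is a homeomorphism. -/
theorem st_homeo' {F : ℂ → ℂ} {K : Set ℂ} (h : St F ∅ K) : ∃ G : ℂ ≃ₜ ℂ, ∀ z, G z = F z := by
  have hc : Continuous F := by
    rw [← continuousOn_univ, ← compl_empty]
    exact h.cont
  have hi : Function.Injective F := by
    intro x y hxy
    exact h.injOn (notMem_empty x) (notMem_empty y) hxy
  have ho : IsOpenMap F := fun U hU => h.opn U (by simp) hU
  exact ⟨Equiv.toHomeomorphOfContinuousOpen (Equiv.ofBijective F ⟨hi, st_surj h⟩) hc ho,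
    fun z => rfl⟩

/-- the inverse of an injective holomorphic function -/
theorem inv_diff {f g : ℂ → ℂ} {O : Set ℂ} (hO : IsOpen O) (hf : DifferentiableOn ℂ f O)
    (hi : InjOn f O) {x : ℂ} (hx : x ∈ O) (hg : ContinuousAt g (f x))
    (hgf : ∀ y ∈ O, g (f y) = y) (hn : f '' O ∈ 𝓝 (f x)) : DifferentiableAt ℂ g (f x) := by
  have han : AnalyticAt ℂ f x := hf.analyticAt (hO.mem_nhds hx)
  have hd : deriv f x ≠ 0 := deriv_ne_zero_of_injOn han (hO.mem_nhds hx) hi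
  refine (HasDerivAt.of_local_left_inverse (f := f) (f' := deriv f x) hg ?_ hd
    ?_).differentiableAt
  · rw [hgf x hx]
    exact han.differentiableAt.hasDerivAt
  · filter_upwards [hn] with y hy
    obtain ⟨u, hu, rfl⟩ := hy
    rw [hgf u hu]

/-- The composition `F ∘ G` is holomorphic outside the unit disc and off `K`. -/
theorem fi_hol {F : ℂ ≃ₜ ℂ} {K : Set ℂ} (hKc : IsClosed K) (hF : DifferentiableOn ℂ F Kᶜ)
    {z₀ : ℂ} {η k : ℝ} {G : ℂ → ℂ} (hG : FI F z₀ η k G) :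
    DifferentiableOn ℂ (fun ζ => F (G ζ)) {ζ | ζ ∈ ball (0 : ℂ) k ∧ (1 < ‖ζ‖ ∨ G ζ ∉ K)} := by
  have hb : IsOpen (ball (0 : ℂ) k) := isOpen_ball
  have hcA : ∀ ζ ∈ ball (0 : ℂ) k, ContinuousAt G ζ := fun ζ hζ =>
    hG.cont.continuousAt (hb.mem_nhds hζ)
  have hout : ∀ ζ ∈ ball (0 : ℂ) k, 1 < ‖ζ‖ → DifferentiableAt ℂ (fun ζ => F (G ζ)) ζ := by
    intro ζ hζ h1
    have ho : IsOpen {ζ : ℂ | 1 < ‖ζ‖ ∧ ‖ζ‖ < k} :=
      (isOpen_lt continuous_const continuous_norm).inter (isOpen_lt continuous_norm continuous_const)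
    exact hG.holO.differentiableAt (ho.mem_nhds ⟨h1, by simpa using hζ⟩)
  -- the inverse of `F` is holomorphic off `F '' K`
  have hinv : ∀ z, z ∉ K → DifferentiableAt ℂ F.symm (F z) := by
    intro z hz
    refine inv_diff hKc.isOpen_compl hF F.injective.injOn hz F.symm.continuous.continuousAt
      (fun y _ => F.symm_apply_apply y) ?_
    exact (F.isOpenMap _ hKc.isOpen_compl).mem_nhds ⟨z, hz, rfl⟩
  have hFd : ∀ z, z ∉ K → DifferentiableAt ℂ F z := fun z hz =>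
    hF.differentiableAt (hKc.isOpen_compl.mem_nhds hz)
  -- `G` is holomorphic off `G⁻¹ K` and the unit circle
  have hGd : ∀ ζ ∈ ball (0 : ℂ) k, G ζ ∉ K → ‖ζ‖ ≠ 1 → DifferentiableAt ℂ G ζ := by
    intro ζ hζ hK h1
    rcases lt_or_gt_of_ne h1 with h | h
    · exact hG.holI.differentiableAt (isOpen_ball.mem_nhds (by simpa using h))
    · have h2 : DifferentiableAt ℂ (F.symm ∘ fun ζ => F (G ζ)) ζ :=
        DifferentiableAt.comp ζ (hinv _ hK) (hout ζ hζ h)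
      refine h2.congr_of_eventuallyEq (Eventually.of_forall fun x => ?_)
      simp
  rintro ζ ⟨hζ, h⟩
  refine DifferentiableAt.differentiableWithinAt ?_
  rcases lt_or_ge 1 ‖ζ‖ with h1 | h1
  · exact hout ζ hζ h1
  · have hK : G ζ ∉ K := h.resolve_left (not_lt.2 h1)
    have h2 : DifferentiableAt ℂ G ζ := by
      rcases eq_or_ne ‖ζ‖ 1 with h3 | h3
      · have hU : ball (0 : ℂ) k ∩ G ⁻¹' Kᶜ ∈ 𝓝 ζ :=
          inter_mem (hb.mem_nhds hζ) ((hcA ζ hζ) (hKc.isOpen_compl.mem_nhds hK))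
        refine rem_circle h3 hU (hG.cont.mono inter_subset_left) ?_
        rintro x ⟨hx, hxK⟩ hx1
        exact hGd x hx hxK hx1
      · exact hGd ζ hζ hK h3
    exact DifferentiableAt.comp ζ (hFd _ hK) h2

/-- The gate of a free interface. -/
theorem gate_fi {F : ℂ ≃ₜ ℂ} {K : Set ℂ} (hKc : IsCompact K) (hF : DifferentiableOn ℂ F Kᶜ)
    (hK : interior K = ∅) {z₀ : ℂ} {η k : ℝ} {G : ℂ → ℂ} (hG : FI F z₀ η k G) :
    ∃ ψ : ℂ → ℂ, (∀ ζ ∈ ball (0 : ℂ) k, ψ (F (G ζ)) = ζ) ∧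
      Gate (F (G 0)) (F (G (1 / 2))) (F '' (K ∩ G '' closedBall 0 1 ∪ {G 0, G (1 / 2)}))
        (F '' (G '' ball 0 k \ {G 0, G (1 / 2)})) ψ := by
  classical
  have hk := hG.one_lt
  have h0 : (0 : ℂ) ∈ ball (0 : ℂ) k := mem_ball_self (by linarith)
  have h12 : (1 / 2 : ℂ) ∈ ball (0 : ℂ) k := by
    rw [mem_ball_zero_iff]
    norm_num
    linarith
  have hsub1 : closedBall (0 : ℂ) 1 ⊆ ball 0 k := closedBall_subset_ball hk
  have hVo : IsOpen (G '' ball 0 k) := hG.opn _ Subset.rfl isOpen_ball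
  set g : ℂ → ℂ := Function.invFunOn G (ball 0 k) with hg
  have hgG : ∀ ζ ∈ ball (0 : ℂ) k, g (G ζ) = ζ := fun ζ hζ => hG.inj.leftInvOn_invFunOn hζ
  have hgc : ContinuousOn g (G '' ball 0 k) := by
    rintro _ ⟨ζ, hζ, rfl⟩
    refine ContinuousAt.continuousWithinAt ?_
    rw [ContinuousAt, hgG ζ hζ]
    intro U hU
    have h1 : U ∩ ball 0 k ∈ 𝓝 ζ := inter_mem hU (isOpen_ball.mem_nhds hζ)
    obtain ⟨O, hO, hOo, hzO⟩ := _root_.mem_nhds_iff.1 h1
    have h2 : IsOpen (G '' O) := hG.opn O (fun x hx => (hO hx).2) hOo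
    rw [mem_map]
    refine mem_of_superset (h2.mem_nhds ⟨ζ, hzO, rfl⟩) ?_
    rintro _ ⟨x, hx, rfl⟩
    change g (G x) ∈ U
    rw [hgG x (hO hx).2]
    exact (hO hx).1
  set ψ : ℂ → ℂ := fun w => g (F.symm w) with hψ
  have hψG : ∀ ζ ∈ ball (0 : ℂ) k, ψ (F (G ζ)) = ζ := by
    intro ζ hζ
    show g (F.symm (F (G ζ))) = ζ
    rw [F.symm_apply_apply, hgG ζ hζ]
  have hne : G 0 ≠ G (1 / 2) := by
    intro h
    have := hG.inj h0 h12 h
    norm_num at this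
  have hNo' : IsOpen (G '' ball 0 k \ {G 0, G (1 / 2)}) :=
    hVo.sdiff (Set.toFinite _).isClosed
  have hcN : ∀ w ∈ F '' (G '' ball 0 k), ContinuousAt ψ w := by
    rintro _ ⟨z, hz, rfl⟩
    have h1 : ContinuousAt g (F.symm (F z)) := by
      rw [F.symm_apply_apply]
      exact hgc.continuousAt (hVo.mem_nhds hz)
    exact ContinuousAt.comp (f := F.symm) (g := g) h1 F.symm.continuous.continuousAt
  refine ⟨ψ, hψG, ?_⟩
  refine
    { ne := fun h => hne (F.injective h)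
      cpt := ?_
      pJ := ⟨G 0, Or.inr (Or.inl rfl), rfl⟩
      qJ := ⟨G (1 / 2), Or.inr (Or.inr rfl), rfl⟩
      int := ?_
      openN := F.isOpenMap _ hNo'
      sub := ?_
      pN := ?_
      qN := ?_
      cont := ?_
      inj := ?_
      opn := ?_
      hol := ?_ }
  · have h1 : IsCompact (G '' closedBall 0 1) :=
      (isCompact_closedBall _ _).image_of_continuousOn (hG.cont.mono hsub1)
    exact ((hKc.inter_right h1.isClosed).union (Set.toFinite _).isCompact).image F.continuous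
  · rw [← F.image_interior]
    have h1 : IsCompact (G '' closedBall 0 1) :=
      (isCompact_closedBall _ _).image_of_continuousOn (hG.cont.mono hsub1)
    have h2 : IsClosed (K ∩ G '' closedBall 0 1) := (hKc.inter_right h1.isClosed).isClosed
    have h3 : interior (K ∩ G '' closedBall 0 1) = ∅ := by
      rw [← subset_empty_iff, ← hK]
      exact interior_mono inter_subset_left
    rw [interior_union_isClosed_of_interior_empty h2, h3, image_empty]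
    exact interior_eq_empty_iff_dense_compl.2
      ((Set.toFinite ({G 0, G (1 / 2)} : Set ℂ)).countable.dense_compl ℝ)
  · rintro _ ⟨⟨z, hz, rfl⟩, hne'⟩
    refine ⟨z, ⟨?_, ?_⟩, rfl⟩
    · rcases hz with ⟨-, ζ, hζ, rfl⟩ | h | h
      · exact ⟨ζ, hsub1 hζ, rfl⟩
      · rw [h]
        exact ⟨0, h0, rfl⟩
      · rw [mem_singleton_iff] at h
        rw [h]
        exact ⟨1 / 2, h12, rfl⟩
    · rintro (h | h)
      · exact hne' (Or.inl (by rw [h]))
      · exact hne' (Or.inr (by rw [h]; rfl))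
  · rintro ⟨z, hz, hzp⟩
    exact hz.2 (Or.inl (F.injective hzp))
  · rintro ⟨z, hz, hzp⟩
    exact hz.2 (Or.inr (F.injective hzp))
  · intro w hw
    exact (hcN w (image_mono sdiff_subset hw)).continuousWithinAt
  · rintro _ ⟨_, ⟨⟨ζ, hζ, rfl⟩, -⟩, rfl⟩ _ ⟨_, ⟨⟨ζ', hζ', rfl⟩, -⟩, rfl⟩ h
    rw [hψG ζ hζ, hψG ζ' hζ'] at h
    rw [h]
  · intro U hU hUo
    have h1 : ψ '' U = ball 0 k ∩ G ⁻¹' (F ⁻¹' U) := by
      ext ζ
      constructor
      · rintro ⟨y, hy, rfl⟩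
        obtain ⟨_, ⟨⟨ζ', hζ', rfl⟩, -⟩, rfl⟩ := hU hy
        rw [hψG ζ' hζ']
        exact ⟨hζ', hy⟩
      · rintro ⟨hζ, hζ'⟩
        exact ⟨F (G ζ), hζ', hψG ζ hζ⟩
    rw [h1]
    exact hG.cont.isOpen_inter_preimage isOpen_ball (hUo.preimage F.continuous)
  · rintro w ⟨hw, hwJ⟩
    obtain ⟨_, ⟨⟨ζ, hζ, rfl⟩, hz2⟩, rfl⟩ := hw
    refine DifferentiableAt.differentiableWithinAt ?_
    have hO : IsOpen {ζ | ζ ∈ ball (0 : ℂ) k ∧ (1 < ‖ζ‖ ∨ G ζ ∉ K)} := by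
      have h1 : {ζ | ζ ∈ ball (0 : ℂ) k ∧ (1 < ‖ζ‖ ∨ G ζ ∉ K)} =
          (ball (0 : ℂ) k ∩ {ζ | 1 < ‖ζ‖}) ∪ (ball (0 : ℂ) k ∩ G ⁻¹' Kᶜ) := by
        ext x
        simp only [mem_ofPred_eq, mem_union, mem_inter_iff, mem_preimage, mem_compl_iff]
        tauto
      rw [h1]
      exact (isOpen_ball.inter (isOpen_lt continuous_const continuous_norm)).union
        (hG.cont.isOpen_inter_preimage isOpen_ball hKc.isClosed.isOpen_compl)
    have hζO : ζ ∈ {ζ | ζ ∈ ball (0 : ℂ) k ∧ (1 < ‖ζ‖ ∨ G ζ ∉ K)} := by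
      refine ⟨hζ, ?_⟩
      by_contra hcon
      push Not at hcon
      refine hwJ ⟨G ζ, Or.inl ⟨hcon.2, ζ, ?_, rfl⟩, rfl⟩
      simpa using hcon.1
    refine inv_diff (f := fun ζ => F (G ζ)) hO (fi_hol hKc.isClosed hF hG) ?_ hζO ?_ ?_ ?_
    · intro x hx y hy hxy
      exact hG.inj hx.1 hy.1 (F.injective hxy)
    · exact hcN _ ⟨G ζ, ⟨ζ, hζ, rfl⟩, rfl⟩
    · intro y hy
      exact hψG y hy.1
    · have h1 : IsOpen ((fun ζ => F (G ζ)) '' {ζ | ζ ∈ ball (0 : ℂ) k ∧ (1 < ‖ζ‖ ∨ G ζ ∉ K)}) := by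
        have h2 : (fun ζ => F (G ζ)) '' {ζ | ζ ∈ ball (0 : ℂ) k ∧ (1 < ‖ζ‖ ∨ G ζ ∉ K)} =
            F '' (G '' {ζ | ζ ∈ ball (0 : ℂ) k ∧ (1 < ‖ζ‖ ∨ G ζ ∉ K)}) := by
          rw [image_image]
        rw [h2]
        exact F.isOpenMap _ (hG.opn _ (fun x hx => hx.1) hO)
      exact h1.mem_nhds ⟨ζ, hζO, rfl⟩

end Pool.Agent.FB018
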