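import Pool.Agent.Lib.MP_018119_an_FB.ETow
import Pool.Agent.Lib.MP_018119_an_FB.ECant
import Pool.Agent.Lib.MP_018119_an_MX.HomSt
import Pool.Agent.Lib.MP_018119_an_MX.CrvOf

/-!
# FB: the frozen statement S03671 from the free interface lemma
-/

set_option autoImplicit false

open Topology Filter Set Metric

namespace Pool.Agent.FB018

open Pool.Agent.MX018 Pool.Agent.MY018

/-- Parameters of the gates. -/
noncomputable def par (n : ℕ) : ℝ :=
  if n = 0 then 0 else if n = 1 then 1 else TopologicalSpace.denseSeq ℝ (n - 2)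

theorem par_dense {a b : ℝ} (h : a < b) : ∃ n, par n ∈ Ioo a b := by
  obtain ⟨n, hn⟩ := (TopologicalSpace.denseRange_denseSeq ℝ).exists_mem_open isOpen_Ioo
    (nonempty_Ioo.2 h)
  refine ⟨n + 2, ?_⟩
  have h1 : par (n + 2) = TopologicalSpace.denseSeq ℝ n := by
    simp [par]
  rw [h1]
  exact hn

/-- The free interface lemma implies S03671. -/
theorem s03671_of_free (hFI : FreeInt) :
    ∀ C : Set ℂ,
      ((∃ γ : ℝ → ℂ, ContinuousOn γ (Set.Icc 0 1) ∧ Set.InjOn γ (Set.Icc 0 1) ∧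
          C = γ '' Set.Icc 0 1) ∨
        (∃ γ : Circle → ℂ, Continuous γ ∧ Function.Injective γ ∧ C = Set.range γ)) →
      (∃ f : ℂ ≃ₜ ℂ, DifferentiableOn ℂ (⇑f) Cᶜ ∧ ¬ ∃ a b : ℂ, ∀ z, f z = a * z + b) →
      ∃ K : Set ℂ, K ⊆ C ∧ IsCompact K ∧ Perfect K ∧ IsTotallyDisconnected K ∧ K.Nonempty ∧
        ∃ f : ℂ ≃ₜ ℂ, DifferentiableOn ℂ (⇑f) Kᶜ ∧ ¬ ∃ a b : ℂ, ∀ z, f z = a * z + b := by
  intro C hC hf0
  obtain ⟨f, hf, hna⟩ := hf0
  obtain ⟨γ, hγ, rfl⟩ := crv_of hC
  have hCc : IsCompact (γ '' Icc 0 1) := isCompact_Icc.image_of_continuousOn hγ.cont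
  obtain ⟨a, b, ha, hab⟩ := homeo_norm f hCc hf
  have h₀ := st_of_homeo f hCc hf ha hab
  -- the initial map is not the identity
  have hne : ∃ z₀ : ℂ, (f z₀ - b) / a ≠ z₀ := by
    by_contra hcon
    push Not at hcon
    apply hna
    refine ⟨a, b, fun z => ?_⟩
    have := hcon z
    rw [div_eq_iff ha] at this
    linear_combination this
  obtain ⟨z₀, hz₀⟩ := hne
  have hdpos : 0 < ‖(f z₀ - b) / a - z₀‖ := norm_pos_iff.2 (sub_ne_zero.2 hz₀)
  obtain ⟨K, F, ε, hF0, hK0, hT, hz⟩ := tw_exists hFI h₀ (interior_crv hγ)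
    (fun n => γ (par n)) (half_pos hdpos)
  obtain ⟨G, hG1, hG2, hG3⟩ := tw_limit hT
  have hKs : ∀ n, (⋂ n, K n) ⊆ K n := fun n => iInter_subset _ n
  have hKC : (⋂ n, K n) ⊆ γ '' Icc 0 1 := by
    rw [← hK0]
    exact hKs 0
  have hKcl : IsClosed (⋂ n, K n) := isClosed_iInter fun n => (hT.st n).cpt.isClosed
  have hKz : ∀ n, γ (par n) ∉ ⋂ n, K n := fun n h => hz n (hKs (n + 1) h)
  have htd : IsTotallyDisconnected (⋂ n, K n) := by
    refine td_of_dense hγ hKcl hKC ?_ ?_ ?_
    · have := hKz 0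
      simpa [par] using this
    · have := hKz 1
      simpa [par] using this
    · intro x y _ hxy _
      obtain ⟨n, hn⟩ := par_dense hxy
      exact ⟨par n, hn, hKz n⟩
  -- the singular set
  have hS1 : {z | ¬ AnalyticAt ℂ G z} ⊆ ⋂ n, K n := by
    intro z hz
    by_contra h
    exact hz (hG1.analyticAt (hKcl.isOpen_compl.mem_nhds h))
  have hScl : IsClosed {z | ¬ AnalyticAt ℂ G z} := (isOpen_analyticAt ℂ G).isClosed_compl
  have hSne : {z | ¬ AnalyticAt ℂ G z}.Nonempty := by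
    by_contra h
    rw [not_nonempty_iff_eq_empty, eq_empty_iff_forall_notMem] at h
    have h1 : ∀ z, AnalyticAt ℂ G z := fun z => not_not.1 (h z)
    have h2 : Differentiable ℂ fun z => G z - z := fun z =>
      (h1 z).differentiableAt.sub differentiableAt_id
    have h3 := congrFun (h2.eq_const_of_tendsto_cocompact hG2) z₀
    have h4 : G z₀ = z₀ := by
      simp only [Function.const_apply] at h3
      exact sub_eq_zero.1 h3
    have h5 := hG3 z₀
    rw [h4, hF0, norm_sub_rev] at h5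
    linarith
  refine ⟨{z | ¬ AnalyticAt ℂ G z}, hS1.trans hKC, hCc.of_isClosed_subset hScl (hS1.trans hKC),
    ⟨hScl, ?_⟩, ?_, hSne, G, ?_, ?_⟩
  · intro x hx
    by_contra hcon
    rw [accPt_iff_frequently_nhdsNE, not_frequently] at hcon
    apply hx
    refine Complex.analyticAt_of_differentiable_on_punctured_nhds_of_continuousAt ?_
      G.continuous.continuousAt
    filter_upwards [hcon] with y hy
    exact (not_not.1 hy).differentiableAt
  · intro T hT' hcT
    exact htd T (hT'.trans hS1) hcT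
  · intro z hz
    exact (not_not.1 hz).differentiableAt.differentiableWithinAt
  · rintro ⟨a', b', hab'⟩
    obtain ⟨x, hx⟩ := hSne
    apply hx
    have h1 : (G : ℂ → ℂ) = fun z => a' * z + b' := funext hab'
    rw [h1]
    exact (analyticAt_const.mul analyticAt_id).add analyticAt_const

end Pool.Agent.FB018
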