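import Pool.Agent.Lib.MP_018119_an_FB.EGate

/-!
# FB: the new state after a gate step with a free interface
-/

set_option autoImplicit false

open Topology Filter Set Metric

namespace Pool.Agent.FB018

open Pool.Agent.MX018 Pool.Agent.MY018 Pool.Agent.Lib.MP_1f4a82_an

theorem estep_cocompact {F : ℂ → ℂ}
    (h : Tendsto (fun z => F z - z) (cocompact ℂ) (𝓝 0)) :
    Tendsto F (cocompact ℂ) (cocompact ℂ) := by
  rw [← Metric.cobounded_eq_cocompact] at h ⊢
  rw [← tendsto_norm_atTop_iff_cobounded]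
  have h1 : ∀ᶠ z in Bornology.cobounded ℂ, ‖z‖ - 1 ≤ ‖F z‖ := by
    have h2 : ∀ᶠ z in Bornology.cobounded ℂ, ‖F z - z‖ < 1 := by
      have h3 := h.norm
      rw [norm_zero] at h3
      exact h3.eventually (gt_mem_nhds zero_lt_one)
    filter_upwards [h2] with z hz
    have h3 : ‖z‖ ≤ ‖F z‖ + ‖F z - z‖ := by
      have h4 := norm_sub_le (F z) (F z - z)
      rwa [sub_sub_cancel] at h4
    linarith
  refine tendsto_atTop_mono' _ h1 ?_
  exact tendsto_atTop_add_const_right _ (-1 : ℝ) tendsto_norm_cobounded_atTop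

theorem estep_ev {T : Set ℂ} (hT : T.Finite) (z : ℂ) : ∀ᶠ x in 𝓝[≠] z, x ∉ T := by
  have h1 : (T \ {z}).Finite := hT.subset sdiff_subset
  have h2 : ∀ᶠ x in 𝓝 z, x ∈ (T \ {z})ᶜ :=
    h1.isClosed.isOpen_compl.mem_nhds (fun h => h.2 rfl)
  have h3 : ∀ᶠ x in 𝓝[≠] z, x ∈ (T \ {z})ᶜ := nhdsWithin_le_nhds h2
  filter_upwards [h3, self_mem_nhdsWithin] with x hx hxz hxT
  exact hx ⟨hxT, hxz⟩

/-- The gate step. -/
theorem gate_free {F : ℂ → ℂ} {K : Set ℂ} (hS : St F ∅ K) (hK : interior K = ∅) {z₀ : ℂ} {η k : ℝ}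
    {G : ℂ → ℂ} (hG : FI F z₀ η k G) :
    ∃ F' : ℂ → ℂ, St F' ∅ (K \ G '' ball 0 1) ∧ ∀ z, ‖F' z - F z‖ ≤ 10 * η := by
  classical
  obtain ⟨e, he⟩ := st_homeo' hS
  have heF : (e : ℂ → ℂ) = F := funext he
  have hFd : DifferentiableOn ℂ e Kᶜ := by
    rw [heF]; exact hS.hol
  have hG' : FI e z₀ η k G := by
    rw [heF]; exact hG
  obtain ⟨ψ, hψ, hgate⟩ := gate_fi hS.cpt hFd hK hG'
  obtain ⟨Φ, hΦ⟩ := gate_map hgate
  rw [← heF] at hS
  rw [← heF]
  clear he heF hG
  have hk := hG'.one_lt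
  have hsub1 : ball (0 : ℂ) 1 ⊆ ball 0 k := ball_subset_ball hk.le
  have h0 : (0 : ℂ) ∈ ball (0 : ℂ) 1 := mem_ball_self one_pos
  have h12 : (1 / 2 : ℂ) ∈ ball (0 : ℂ) 1 := by
    rw [mem_ball_zero_iff]
    norm_num
  set A : Set ℂ := G '' ball 0 1 with hA
  have hAo : IsOpen A := hG'.opn _ hsub1 isOpen_ball
  set p : ℂ := G 0 with hp
  set q : ℂ := G (1 / 2) with hq
  have hpA : p ∈ A := ⟨0, h0, rfl⟩
  have hqA : q ∈ A := ⟨1 / 2, h12, rfl⟩
  have hpq : p ≠ q := fun h => hgate.ne (by rw [h])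
  set J : Set ℂ := e '' (K ∩ G '' closedBall 0 1 ∪ {p, q}) with hJ
  -- the chart is `G⁻¹`
  have hne : ∀ z, z ≠ p → z ≠ q → e z ≠ e p ∧ e z ≠ e q := fun z h1 h2 =>
    ⟨fun h => h1 (e.injective h), fun h => h2 (e.injective h)⟩
  have hcl : IsClosed (K \ A) := hS.cpt.isClosed.sdiff hAo
  -- holomorphy of the new map
  have hhol : ∀ z, z ∉ K \ A → z ≠ p → z ≠ q → DifferentiableAt ℂ (fun z => Φ (e z)) z := by
    intro z hz hzp hzq
    obtain ⟨hz1, hz2⟩ := hne z hzp hzq
    have hw := hΦ.hol (e z) hz1 hz2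
    by_cases hzK : z ∈ K
    · have hzA : z ∈ A := by
        by_contra h
        exact hz ⟨hzK, h⟩
      obtain ⟨ζ, hζ, hζz⟩ := hzA
      obtain ⟨g, hg1, hg2⟩ := hw.2 ⟨z, Or.inl ⟨hzK, ζ, ball_subset_closedBall hζ, hζz⟩, rfl⟩
      have h1 : ∀ᶠ x in 𝓝 z, Φ (e x) = g (ψ (e x)) :=
        e.continuous.continuousAt.eventually hg2
      -- `ψ ∘ e` is holomorphic at `z = G ζ`
      have h2 : DifferentiableAt ℂ (fun x => ψ (e x)) z := by
        rw [← hζz]
        refine inv_diff (f := G) isOpen_ball hG'.holI (hG'.inj.mono hsub1) hζ ?_ ?_ ?_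
        · have h3 : ContinuousAt ψ (e z) := by
            refine hgate.cont.continuousAt (hgate.openN.mem_nhds ⟨z, ⟨⟨ζ, hsub1 hζ, hζz⟩, ?_⟩, rfl⟩)
            rintro (h | h)
            · exact hzp h
            · exact hzq h
          rw [hζz]
          exact ContinuousAt.comp (f := e) h3 e.continuous.continuousAt
        · intro y hy
          exact hψ y (hsub1 hy)
        · exact hAo.mem_nhds ⟨ζ, hζ, rfl⟩
      have h3 : DifferentiableAt ℂ (g ∘ fun x => ψ (e x)) z :=
        DifferentiableAt.comp z hg1.differentiableAt h2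
      exact h3.congr_of_eventuallyEq h1
    · have hwJ : e z ∉ J := by
        rintro ⟨y, hy, hyz⟩
        have h1 : y = z := e.injective hyz
        rw [h1] at hy
        rcases hy with h | h | h
        · exact hzK h.1
        · exact hzp h
        · exact hzq h
      exact DifferentiableAt.comp z (hw.1 hwJ).differentiableAt
        (hFd.differentiableAt (hS.cpt.isClosed.isOpen_compl.mem_nhds hzK))
  -- the estimate
  have hJb : J ⊆ closedBall (e z₀) η := by
    rintro _ ⟨z, hz, rfl⟩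
    have h1 : ∃ ζ ∈ ball (0 : ℂ) k, G ζ = z := by
      rcases hz with ⟨-, ζ, hζ, hζz⟩ | h | h
      · exact ⟨ζ, closedBall_subset_ball hk hζ, hζz⟩
      · exact ⟨0, hsub1 h0, h.symm⟩
      · exact ⟨1 / 2, hsub1 h12, h.symm⟩
    obtain ⟨ζ, hζ, rfl⟩ := h1
    exact ball_subset_closedBall (hG'.small hζ)
  have hbd : ∀ z, z ≠ p → z ≠ q → ‖Φ (e z) - e z‖ ≤ 10 * η := by
    intro z h1 h2
    obtain ⟨h3, h4⟩ := hne z h1 h2
    exact hΦ.bd _ _ hJb _ h3 h4
  -- the state with two exceptional points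
  have hS1 : St (fun z => Φ (e z)) (insert q (insert p ∅)) (K \ A ∪ {p, q}) := by
    have hout : ∀ z ∉ (insert q (insert p ∅) : Set ℂ), z ≠ p ∧ z ≠ q := by
      intro z hz
      exact ⟨fun h => hz (by rw [h]; simp), fun h => hz (by rw [h]; simp)⟩
    have hmap : ∀ z ∉ (insert q (insert p ∅) : Set ℂ), e z ∈ ({e p, e q}ᶜ : Set ℂ) := by
      intro z hz h
      obtain ⟨h1, h2⟩ := hout z hz
      obtain ⟨h3, h4⟩ := hne z h1 h2
      rcases h with h | h
      · exact h3 h
      · exact h4 h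
    refine ⟨Set.toFinite _, ?_, ?_, ?_, ?_, ?_, ?_, ?_⟩
    · intro z hz
      simp only [insert_empty_eq, mem_insert_iff, mem_singleton_iff] at hz
      rcases hz with h | h
      · exact Or.inr (Or.inr h)
      · exact Or.inr (Or.inl h)
    · exact (hS.cpt.of_isClosed_subset hcl sdiff_subset).union (Set.toFinite _).isCompact
    · exact hΦ.cont.comp e.continuous.continuousOn fun z hz => hmap z hz
    · intro U hU hUo
      have h1 : (fun z => Φ (e z)) '' U = Φ '' (e '' U) := by rw [image_image]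
      rw [h1]
      refine hΦ.opn _ ?_ (e.isOpenMap U hUo)
      rintro _ ⟨z, hz, rfl⟩
      exact hmap z (hU hz)
    · intro η' hη'
      obtain ⟨δ, hδ, h1⟩ := hS.sep η' hη'
      obtain ⟨δ', hδ', h2⟩ := hΦ.sep δ hδ
      refine ⟨δ', hδ', fun x hx y hy hxy => ?_⟩
      exact h2 _ (hmap x hx) _ (hmap y hy) (h1 x (notMem_empty _) y (notMem_empty _) hxy)
    · intro z hz
      refine (hhol z (fun h => hz (Or.inl h)) ?_ ?_).differentiableWithinAt
      · exact fun h => hz (Or.inr (Or.inl h))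
      · exact fun h => hz (Or.inr (Or.inr h))
    · have h1 := hΦ.inf.comp (estep_cocompact hS.inf)
      have h2 := h1.add hS.inf
      rw [add_zero] at h2
      refine h2.congr fun z => ?_
      rw [Function.comp_apply]
      ring
  -- the limits at the two points
  have hlim : ∀ x ∈ A, ∃ L, Tendsto (fun z => Φ (e z)) (𝓝[≠] x) (𝓝 L) := by
    intro x hx
    have hev1 : ∀ᶠ z in 𝓝[≠] x, z ∈ A := nhdsWithin_le_nhds (hAo.mem_nhds hx)
    have hev := hev1.and (estep_ev (Set.toFinite ({p, q} : Set ℂ)) x)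
    refine ⟨_, Complex.tendsto_limUnder_of_differentiable_on_punctured_nhds_of_bounded_under ?_ ?_⟩
    · filter_upwards [hev] with z hz
      exact hhol z (fun h => h.2 hz.1) (fun h => hz.2 (Or.inl h)) (fun h => hz.2 (Or.inr h))
    · have hce : ∀ᶠ z in 𝓝[≠] x, ‖e z - e x‖ < 1 := by
        have h1 : Tendsto (fun z => ‖e z - e x‖) (𝓝 x) (𝓝 ‖e x - e x‖) :=
          ((e.continuous.sub continuous_const).norm).continuousAt
        rw [sub_self, norm_zero] at h1
        exact nhdsWithin_le_nhds (h1.eventually (gt_mem_nhds one_pos))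
      refine ⟨10 * η + 1 + ‖e x - Φ (e x)‖, ?_⟩
      rw [eventually_map]
      filter_upwards [hev, hce] with z hz hz2
      have h2 := hbd z (fun h => hz.2 (Or.inl h)) (fun h => hz.2 (Or.inr h))
      have h3 : Φ (e z) - Φ (e x) = (Φ (e z) - e z) + (e z - e x) + (e x - Φ (e x)) := by ring
      rw [h3]
      refine (norm_add₃_le).trans ?_
      linarith
  obtain ⟨L₁, hL₁⟩ := hlim q hqA
  obtain ⟨L₂, hL₂⟩ := hlim p hpA
  have hq1 : q ∉ (insert p ∅ : Set ℂ) := by
    simp only [insert_empty_eq, mem_singleton_iff]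
    exact Ne.symm hpq
  have hS2 := st_fill hS1 hq1 hL₁
  have hL2' : Tendsto (Function.update (fun z => Φ (e z)) q L₁) (𝓝[≠] p) (𝓝 L₂) := by
    refine hL₂.congr' ?_
    filter_upwards [estep_ev (Set.finite_singleton q) p] with x hx
    rw [Function.update_of_ne hx]
  have hS3 := st_fill hS2 (notMem_empty p) hL2'
  set F3 : ℂ → ℂ := Function.update (Function.update (fun z => Φ (e z)) q L₁) p L₂ with hF3
  have hF3v : ∀ z, z ≠ p → z ≠ q → F3 z = Φ (e z) := by
    intro z h1 h2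
    rw [hF3, Function.update_of_ne h1, Function.update_of_ne h2]
  have hF3c : Continuous F3 := by
    rw [← continuousOn_univ, ← compl_empty]
    exact hS3.cont
  refine ⟨F3, ⟨hS3.fin, empty_subset _, hS.cpt.of_isClosed_subset hcl sdiff_subset, hS3.cont,
    hS3.opn, hS3.sep, ?_, hS3.inf⟩, ?_⟩
  · intro z hz
    refine DifferentiableAt.differentiableWithinAt ?_
    have hO : ∀ᶠ x in 𝓝[≠] z, x ∈ (K \ A)ᶜ := nhdsWithin_le_nhds (hcl.isOpen_compl.mem_nhds hz)
    refine (Complex.analyticAt_of_differentiable_on_punctured_nhds_of_continuousAt ?_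
      hF3c.continuousAt).differentiableAt
    have hclu : IsClosed (K \ A ∪ {p, q}) := hcl.union (Set.toFinite _).isClosed
    filter_upwards [hO, estep_ev (Set.toFinite ({p, q} : Set ℂ)) z] with x hx hx2
    refine hS3.hol.differentiableAt (hclu.isOpen_compl.mem_nhds ?_)
    rintro (h | h)
    · exact hx h
    · exact hx2 h
  · intro z
    have h1 : Tendsto (fun x => ‖F3 x - e x‖) (𝓝[≠] z) (𝓝 ‖F3 z - e z‖) :=
      ((hF3c.sub e.continuous).norm).continuousAt.tendsto.mono_left nhdsWithin_le_nhds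
    refine le_of_tendsto h1 ?_
    filter_upwards [estep_ev (Set.toFinite ({p, q} : Set ℂ)) z] with x hx
    have hxp : x ≠ p := fun h => hx (Or.inl h)
    have hxq : x ≠ q := fun h => hx (Or.inr h)
    rw [hF3v x hxp hxq]
    exact hbd x hxp hxq

end Pool.Agent.FB018
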