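import Pool.Agent.Lib.MP_018119_an_FB.EStep
import Pool.Agent.Lib.MP_018119_an_MX.TowLim

/-!
# FB: the tower of gate steps and its limit
-/

set_option autoImplicit false

open Topology Filter Set Metric

namespace Pool.Agent.FB018

open Pool.Agent.MX018 Pool.Agent.MY018

/-- A convergent tower of states without exceptional points. -/
structure Tw (K : ℕ → Set ℂ) (F : ℕ → ℂ → ℂ) (ε : ℕ → ℝ) (ε₀ : ℝ) : Prop where
  anti : ∀ n, K (n + 1) ⊆ K n
  st : ∀ n, St (F n) ∅ (K n)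
  close : ∀ n z, ‖F (n + 1) z - F n z‖ ≤ ε n
  pos : ∀ n, 0 < ε n
  half : ∀ n, ε (n + 1) ≤ ε n / 2
  zero : ε 0 ≤ ε₀ / 2
  sep : ∀ (n : ℕ) (x y : ℂ), 1 / ((n : ℝ) + 1) ≤ dist x y → 6 * ε n ≤ dist (F n x) (F n y)

theorem Tw.anti' {K : ℕ → Set ℂ} {F : ℕ → ℂ → ℂ} {ε : ℕ → ℝ} {ε₀ : ℝ} (h : Tw K F ε ε₀) {m n : ℕ}
    (hmn : m ≤ n) : K n ⊆ K m := by
  induction hmn with
  | refl => exact Subset.rfl
  | step _ ih => exact (h.anti _).trans ih

theorem etow_closed {F : ℂ → ℂ} (hc : Continuous F)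
    (hs : ∀ η > 0, ∃ δ > 0, ∀ x y : ℂ, η ≤ dist x y → δ ≤ dist (F x) (F y)) :
    IsClosed (range F) := by
  rw [← closure_subset_iff_isClosed]
  intro w hw
  obtain ⟨u, hu, hlim⟩ := mem_closure_iff_seq_limit.1 hw
  choose x hx using hu
  have hx' : ∀ n, F (x n) = u n := hx
  have hcau : CauchySeq x := by
    rw [Metric.cauchySeq_iff]
    intro η hη
    obtain ⟨δ, hδ, h1⟩ := hs η hη
    obtain ⟨N, hN⟩ := Metric.cauchySeq_iff.1 hlim.cauchySeq δ hδ
    refine ⟨N, fun m hm n hn => ?_⟩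
    by_contra hcon
    push Not at hcon
    have h2 := h1 (x m) (x n) hcon
    rw [hx' m, hx' n] at h2
    have h3 := hN m hm n hn
    linarith
  obtain ⟨x0, hx0⟩ := cauchySeq_tendsto_of_complete hcau
  have h1 : Tendsto (fun n => F (x n)) atTop (𝓝 (F x0)) := (hc.tendsto x0).comp hx0
  have h2 : Tendsto (fun n => F (x n)) atTop (𝓝 w) := by
    simpa only [hx'] using hlim
  exact ⟨x0, tendsto_nhds_unique h1 h2⟩

/-- The limit of a tower is a homeomorphism, holomorphic off the intersection. -/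
theorem tw_limit {K : ℕ → Set ℂ} {F : ℕ → ℂ → ℂ} {ε : ℕ → ℝ} {ε₀ : ℝ} (h : Tw K F ε ε₀) :
    ∃ G : ℂ ≃ₜ ℂ, DifferentiableOn ℂ G (⋂ n, K n)ᶜ ∧
      Tendsto (fun z => G z - z) (cocompact ℂ) (𝓝 0) ∧ ∀ z, ‖G z - F 0 z‖ ≤ ε₀ := by
  obtain ⟨hsum, htail⟩ := eps_sum h.pos h.half
  have hlim : ∀ z : ℂ, ∃ w : ℂ, ∀ n, dist (F n z) w ≤ 2 * ε n := by
    intro z
    have hd : ∀ n, dist (F n z) (F n.succ z) ≤ ε n := by
      intro n
      rw [dist_comm, dist_eq_norm]
      exact h.close n z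
    obtain ⟨w, hw⟩ := cauchySeq_tendsto_of_complete (cauchySeq_of_dist_le_of_summable ε hd hsum)
    exact ⟨w, fun n => (dist_le_tsum_of_dist_le_of_tendsto ε hd hsum hw n).trans (htail n)⟩
  choose G hG using hlim
  have hG : ∀ n z, dist (F n z) (G z) ≤ 2 * ε n := fun n z => hG z n
  have h0 : Tendsto ε atTop (𝓝 0) := hsum.tendsto_atTop_zero
  have hU : TendstoUniformlyOn F G atTop univ := by
    rw [Metric.tendstoUniformlyOn_iff]
    intro e he
    have h1 : ∀ᶠ n in atTop, ε n < e / 2 := h0.eventually (gt_mem_nhds (by linarith))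
    filter_upwards [h1] with n hn z _
    rw [dist_comm]
    have := hG n z
    linarith
  have hGc : Continuous G := by
    rw [← continuousOn_univ]
    refine hU.continuousOn (Filter.Eventually.frequently (Eventually.of_forall fun n => ?_))
    have h1 := (h.st n).cont
    rwa [compl_empty] at h1
  have hsep : ∀ η > 0, ∃ δ > 0, ∀ x y : ℂ, η ≤ dist x y → δ ≤ dist (G x) (G y) := by
    intro η hη
    obtain ⟨n, hn⟩ := exists_nat_one_div_lt hη
    refine ⟨2 * ε n, by have := h.pos n; positivity, fun x y hxy => ?_⟩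
    have h1 := h.sep n x y (hn.le.trans hxy)
    have h2 := hG n x
    have h3 := hG n y
    have h4 := dist_triangle4 (F n x) (G x) (G y) (F n y)
    rw [dist_comm (G y) (F n y)] at h4
    linarith
  have hhol : DifferentiableOn ℂ G (⋂ n, K n)ᶜ := by
    intro z hz
    have hz' : ∃ n, z ∉ K n := by
      rw [mem_compl_iff, mem_iInter] at hz
      push Not at hz
      exact hz
    obtain ⟨n, hn⟩ := hz'
    have hO : IsOpen (K n)ᶜ := (h.st n).cpt.isClosed.isOpen_compl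
    have hd : DifferentiableOn ℂ G (K n)ᶜ := by
      refine (hU.mono (subset_univ _)).tendstoLocallyUniformlyOn.differentiableOn ?_ hO
      filter_upwards [eventually_ge_atTop n] with m hm
      exact (h.st m).hol.mono (compl_subset_compl.2 (h.anti' hm))
    exact (hd.differentiableAt (hO.mem_nhds hn)).differentiableWithinAt
  have hinf : Tendsto (fun z => G z - z) (cocompact ℂ) (𝓝 0) := by
    rw [Metric.tendsto_nhds]
    intro e he
    obtain ⟨n, hn⟩ : ∃ n, ε n < e / 4 := (h0.eventually (gt_mem_nhds (by linarith))).exists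
    have h1 := (Metric.tendsto_nhds.1 (h.st n).inf) (e / 2) (by linarith)
    filter_upwards [h1] with z hz1
    have h3 := hG n z
    rw [dist_zero_right] at hz1 ⊢
    have h5 : G z - z = (G z - F n z) + (F n z - z) := by ring
    rw [h5]
    refine (norm_add_le _ _).trans_lt ?_
    rw [← dist_eq_norm, dist_comm]
    linarith
  have hinj : Function.Injective G := by
    intro x y hxy
    by_contra hne
    obtain ⟨δ, hδ, h1⟩ := hsep (dist x y) (dist_pos.2 hne)
    have h2 := h1 x y le_rfl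
    rw [hxy, dist_self] at h2
    linarith
  have hsurj : Function.Surjective G := by
    intro w
    have hst : ∀ n, ∃ x, F n x = w := fun n => st_surj (h.st n) w
    choose x hx using hst
    have hlim : Tendsto (fun n => G (x n)) atTop (𝓝 w) := by
      rw [tendsto_iff_dist_tendsto_zero]
      refine squeeze_zero (fun n => dist_nonneg) (fun n => ?_)
        (by simpa using h0.const_mul 2 : Tendsto (fun n => 2 * ε n) atTop (𝓝 0))
      have h1 := hG n (x n)
      rw [hx n, dist_comm] at h1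
      exact h1
    have h1 : w ∈ closure (range G) :=
      mem_closure_of_tendsto hlim (Eventually.of_forall fun n => mem_range_self _)
    rw [(etow_closed hGc hsep).closure_eq] at h1
    exact h1
  let e : ℂ ≃ ℂ := Equiv.ofBijective G ⟨hinj, hsurj⟩
  have hes : ∀ b, G (e.symm b) = b := fun b => e.apply_symm_apply b
  have hinv : Continuous e.symm := by
    rw [Metric.continuous_iff]
    intro b η hη
    obtain ⟨δ, hδ, h1⟩ := hsep η hη
    refine ⟨δ, hδ, fun a ha => ?_⟩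
    by_contra hcon
    push Not at hcon
    have h2 := h1 _ _ hcon
    rw [hes, hes] at h2
    linarith
  refine ⟨{ e with
    continuous_toFun := hGc
    continuous_invFun := hinv }, hhol, hinf, fun z => ?_⟩
  have h1 := hG 0 z
  have h2 := h.zero
  change ‖G z - F 0 z‖ ≤ ε₀
  rw [← dist_eq_norm, dist_comm]
  linarith

/-- one step of the tower -/
theorem tw_step (hFI : FreeInt) {F : ℂ → ℂ} {K : Set ℂ} (hS : St F ∅ K) (hK : interior K = ∅)
    (z₀ : ℂ) {ε : ℝ} (hε : 0 < ε) :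
    ∃ (F' : ℂ → ℂ) (K' : Set ℂ), St F' ∅ K' ∧ K' ⊆ K ∧ z₀ ∉ K' ∧ ∀ z, ‖F' z - F z‖ ≤ ε := by
  obtain ⟨e, he⟩ := st_homeo' hS
  have heF : (e : ℂ → ℂ) = F := funext he
  have hFd : DifferentiableOn ℂ e Kᶜ := by
    rw [heF]; exact hS.hol
  obtain ⟨k, G, hG⟩ := hFI e K hS.cpt hK hFd z₀ (ε / 10) (by positivity)
  rw [heF] at hG
  obtain ⟨F', hF', hb⟩ := gate_free hS hK hG
  refine ⟨F', _, hF', sdiff_subset, ?_, fun z => ?_⟩
  · rintro ⟨-, h⟩
    exact h ⟨0, mem_ball_self one_pos, hG.zero⟩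
  · have := hb z
    linarith

/-- The state of the recursion. -/
structure TwS (K₀ : Set ℂ) where
  F : ℂ → ℂ
  K : Set ℂ
  ε : ℝ
  st : St F ∅ K
  sub : K ⊆ K₀
  pos : 0 < ε

theorem exists_eps {F : ℂ → ℂ} {K : Set ℂ} (hS : St F ∅ K) (n : ℕ) {b : ℝ} (hb : 0 < b) :
    ∃ ε > 0, ε ≤ b ∧ ∀ x y, 1 / ((n : ℝ) + 1) ≤ dist x y → 6 * ε ≤ dist (F x) (F y) := by
  obtain ⟨δ, hδ, h⟩ := hS.sep (1 / ((n : ℝ) + 1)) (by positivity)
  refine ⟨min b (δ / 6), lt_min hb (by positivity), min_le_left _ _, fun x y hxy => ?_⟩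
  have h1 := h x (notMem_empty x) y (notMem_empty y) hxy
  have h2 := min_le_right b (δ / 6)
  linarith

/-- Existence of the tower. -/
theorem tw_exists (hFI : FreeInt) {F₀ : ℂ → ℂ} {K₀ : Set ℂ} (hS : St F₀ ∅ K₀)
    (hK : interior K₀ = ∅) (z : ℕ → ℂ) {ε₀ : ℝ} (hε : 0 < ε₀) :
    ∃ (K : ℕ → Set ℂ) (F : ℕ → ℂ → ℂ) (ε : ℕ → ℝ), F 0 = F₀ ∧ K 0 = K₀ ∧ Tw K F ε ε₀ ∧
      ∀ n, z n ∉ K (n + 1) := by
  classical
  -- the recursion: pairs (F, K, ε) where ε is admissible for F at stage n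
  have hint : ∀ K : Set ℂ, K ⊆ K₀ → interior K = ∅ := fun K h => by
    rw [← subset_empty_iff, ← hK]
    exact interior_mono h
  have hnext : ∀ (n : ℕ) (s : TwS K₀), ∃ s' : TwS K₀, s'.K ⊆ s.K ∧ z n ∉ s'.K ∧
      (∀ x, ‖s'.F x - s.F x‖ ≤ s.ε) ∧ s'.ε ≤ s.ε / 2 ∧
      ∀ x y, 1 / (((n + 1 : ℕ) : ℝ) + 1) ≤ dist x y → 6 * s'.ε ≤ dist (s'.F x) (s'.F y) := by
    intro n s
    obtain ⟨F', K', h1, h2, h3, h4⟩ := tw_step hFI s.st (hint _ s.sub) (z n) s.pos
    obtain ⟨ε', h5, h6, h7⟩ := exists_eps h1 (n + 1) (half_pos s.pos)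
    exact ⟨⟨F', K', ε', h1, h2.trans s.sub, h5⟩, h2, h3, h4, h6, h7⟩
  choose nx hnx using hnext
  obtain ⟨e0, he0, he1, he2⟩ := exists_eps hS 0 (half_pos hε)
  let s : ℕ → TwS K₀ := fun n => Nat.rec ⟨F₀, K₀, e0, hS, Subset.rfl, he0⟩ (fun n s => nx n s) n
  have hs0 : s 0 = ⟨F₀, K₀, e0, hS, Subset.rfl, he0⟩ := rfl
  have hsn : ∀ n, s (n + 1) = nx n (s n) := fun n => rfl
  refine ⟨fun n => (s n).K, fun n => (s n).F, fun n => (s n).ε, rfl, rfl, ?_, ?_⟩
  · refine ⟨?_, fun n => (s n).st, ?_, fun n => (s n).pos, ?_, he1, ?_⟩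
    · intro n
      show (s (n + 1)).K ⊆ (s n).K
      rw [hsn]
      exact (hnx n (s n)).1
    · intro n x
      show ‖(s (n + 1)).F x - (s n).F x‖ ≤ (s n).ε
      rw [hsn]
      exact (hnx n (s n)).2.2.1 x
    · intro n
      show (s (n + 1)).ε ≤ (s n).ε / 2
      rw [hsn]
      exact (hnx n (s n)).2.2.2.1
    · intro n
      cases n with
      | zero => exact he2
      | succ n =>
        show ∀ x y, 1 / (((n + 1 : ℕ) : ℝ) + 1) ≤ dist x y →
          6 * (s (n + 1)).ε ≤ dist ((s (n + 1)).F x) ((s (n + 1)).F y)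
        rw [hsn]
        exact (hnx n (s n)).2.2.2.2
  · intro n
    show z n ∉ (s (n + 1)).K
    rw [hsn]
    exact (hnx n (s n)).2.1

end Pool.Agent.FB018
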