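import Mathlib

/-!
# The discrete free interface problem: existence

Two square grids (z-cells and F-cells), an incidence relation `R` between them.  Existence of the
two phases `a`, `b` with common flux `π` and `a q * b p = 0` for incident cells, by the
Knaster-Tarski theorem for a penalised problem and a limit.
-/

namespace FBX

open Filter Topology

/-- Sum over the four nearest neighbours. -/
def nsum (u : ℤ × ℤ → ℝ) (q : ℤ × ℤ) : ℝ :=
  u (q.1 + 1, q.2) + u (q.1 - 1, q.2) + u (q.1, q.2 + 1) + u (q.1, q.2 - 1)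

/-- The graph Laplacian of the square grid (positive operator). -/
def lap (u : ℤ × ℤ → ℝ) (q : ℤ × ℤ) : ℝ := 4 * u q - nsum u q

/-- Maximum principle with a nonnegative potential. -/
theorem max_principle (V : Finset (ℤ × ℤ)) (D : ℤ × ℤ → ℝ) (hD : ∀ q ∈ V, 0 ≤ D q)
    (u : ℤ × ℤ → ℝ) (hoff : ∀ q, q ∉ V → u q ≤ 0)
    (hu : ∀ q ∈ V, lap u q + D q * u q ≤ 0) : ∀ q, u q ≤ 0 := by
  by_contra hcon
  push Not at hcon
  obtain ⟨q0, hq0⟩ := hcon
  have hq0V : q0 ∈ V := by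
    by_contra h
    exact absurd (hoff q0 h) (not_le.mpr hq0)
  obtain ⟨q1, hq1V, hq1⟩ := Finset.exists_max_image V u ⟨q0, hq0V⟩
  have hm : 0 < u q1 := lt_of_lt_of_le hq0 (hq1 q0 hq0V)
  have hall : ∀ q, u q ≤ u q1 := by
    intro q
    by_cases h : q ∈ V
    · exact hq1 q h
    · exact le_trans (hoff q h) hm.le
  let S := V.filter (fun q => u q = u q1)
  have hS : S.Nonempty := ⟨q1, Finset.mem_filter.mpr ⟨hq1V, rfl⟩⟩
  obtain ⟨q2, hq2S, hq2⟩ := Finset.exists_max_image S (fun q => q.1) hS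
  have hq2V : q2 ∈ V := (Finset.mem_filter.mp hq2S).1
  have hq2u : u q2 = u q1 := (Finset.mem_filter.mp hq2S).2
  have h1 := hu q2 hq2V
  have hD2 : 0 ≤ D q2 * u q2 := mul_nonneg (hD q2 hq2V) (by rw [hq2u]; exact hm.le)
  have e1 := hall (q2.1 - 1, q2.2)
  have e2 := hall (q2.1, q2.2 + 1)
  have e3 := hall (q2.1, q2.2 - 1)
  have e4 : u q1 ≤ u (q2.1 + 1, q2.2) := by
    unfold lap nsum at h1
    rw [hq2u] at h1
    rw [hq2u] at hD2
    linarith
  have e5 : u (q2.1 + 1, q2.2) = u q1 := le_antisymm (hall _) e4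
  have e6 : (q2.1 + 1, q2.2) ∈ V := by
    by_contra h
    have := hoff _ h
    rw [e5] at this
    linarith
  have e7 : (q2.1 + 1, q2.2) ∈ S := Finset.mem_filter.mpr ⟨e6, e5⟩
  have e8 := hq2 _ e7
  simp only at e8
  omega

/-- Maximum principle with constant bound. -/
theorem max_le (V : Finset (ℤ × ℤ)) (u : ℤ × ℤ → ℝ) (m : ℝ) (hoff : ∀ q, q ∉ V → u q ≤ m)
    (hu : ∀ q ∈ V, lap u q ≤ 0) : ∀ q, u q ≤ m := by
  have := max_principle V (fun _ => 0) (fun _ _ => le_refl _) (fun q => u q - m)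
    (fun q hq => by have := hoff q hq; linarith)
    (fun q hq => by
      have := hu q hq
      unfold lap nsum at this ⊢
      linarith)
  intro q
  have := this q
  linarith

/-- extension by zero -/
noncomputable def ext0 (V : Finset (ℤ × ℤ)) (x : V → ℝ) (q : ℤ × ℤ) : ℝ :=
  if h : q ∈ V then x ⟨q, h⟩ else 0

/-- The linear operator of the Dirichlet problem. -/
noncomputable def opT (V : Finset (ℤ × ℤ)) (D : ℤ × ℤ → ℝ) : (V → ℝ) →ₗ[ℝ] (V → ℝ) where
  toFun x := fun q => lap (ext0 V x) q.1 + D q.1 * ext0 V x q.1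
  map_add' x y := by
    funext q
    have hadd : ∀ r, ext0 V (x + y) r = ext0 V x r + ext0 V y r := by
      intro r
      unfold ext0
      split_ifs <;> simp
    simp only [lap, nsum, hadd, Pi.add_apply]
    ring
  map_smul' c x := by
    funext q
    have hadd : ∀ r, ext0 V (c • x) r = c * ext0 V x r := by
      intro r
      unfold ext0
      split_ifs <;> simp
    simp only [lap, nsum, hadd, Pi.smul_apply, RingHom.id_apply, smul_eq_mul]
    ring

theorem opT_injective (V : Finset (ℤ × ℤ)) (D : ℤ × ℤ → ℝ) (hD : ∀ q ∈ V, 0 ≤ D q) :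
    Function.Injective (opT V D) := by
  rw [← LinearMap.ker_eq_bot, LinearMap.ker_eq_bot']
  intro x hx
  have h0 : ∀ q, q ∉ V → ext0 V x q = 0 := fun q hq => by unfold ext0; rw [dif_neg hq]
  have h1 : ∀ q ∈ V, lap (ext0 V x) q + D q * ext0 V x q = 0 := fun q hq => by
    have := congrFun hx ⟨q, hq⟩
    exact this
  have h2 := max_principle V D hD (ext0 V x) (fun q hq => (h0 q hq).le) (fun q hq => (h1 q hq).le)
  have h3 := max_principle V D hD (fun q => - ext0 V x q) (fun q hq => by rw [h0 q hq]; simp)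
    (fun q hq => by
      have := h1 q hq
      unfold lap nsum at this ⊢
      linarith)
  funext q
  have h4 := h2 q.1
  have h5 := h3 q.1
  have h6 : ext0 V x q.1 = x q := by unfold ext0; rw [dif_pos q.2]
  rw [h6] at h4 h5
  simp only [Pi.zero_apply]
  linarith

/-- Solvability of the Dirichlet problem. -/
theorem exists_dirichlet (V : Finset (ℤ × ℤ)) (D : ℤ × ℤ → ℝ) (hD : ∀ q ∈ V, 0 ≤ D q)
    (f g : ℤ × ℤ → ℝ) :
    ∃ a : ℤ × ℤ → ℝ, (∀ q, q ∉ V → a q = g q) ∧ ∀ q ∈ V, lap a q + D q * a q = f q := by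
  classical
  let g0 : ℤ × ℤ → ℝ := fun q => if q ∈ V then 0 else g q
  have hsurj : Function.Surjective (opT V D) :=
    LinearMap.injective_iff_surjective.mp (opT_injective V D hD)
  obtain ⟨x, hx⟩ := hsurj (fun q => f q.1 - lap g0 q.1)
  refine ⟨fun q => ext0 V x q + g0 q, ?_, ?_⟩
  · intro q hq
    simp only [g0, ext0, dif_neg hq, if_neg hq, zero_add]
  · intro q hq
    have h1 := congrFun hx ⟨q, hq⟩
    have h2 : lap (ext0 V x) q + D q * ext0 V x q = f q - lap g0 q := h1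
    have h3 : g0 q = 0 := by simp only [g0, if_pos hq]
    unfold lap nsum at h2 ⊢
    dsimp only
    rw [h3] at h2 ⊢
    linarith

open Classical in
/-- incidence potential on the z-side -/
noncomputable def dz (R : ℤ × ℤ → ℤ × ℤ → Prop) (W : Finset (ℤ × ℤ)) (l : ℝ)
    (b : ℤ × ℤ → ℝ) (q : ℤ × ℤ) : ℝ := l * ∑ p ∈ W, if R q p then b p else 0

open Classical in
/-- incidence potential on the F-side -/
noncomputable def df (R : ℤ × ℤ → ℤ × ℤ → Prop) (V : Finset (ℤ × ℤ)) (l : ℝ)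
    (a : ℤ × ℤ → ℝ) (p : ℤ × ℤ) : ℝ := l * ∑ q ∈ V, if R q p then a q else 0

theorem dz_nonneg (R : ℤ × ℤ → ℤ × ℤ → Prop) (W : Finset (ℤ × ℤ)) (l : ℝ) (hl : 0 ≤ l)
    (b : ℤ × ℤ → ℝ) (hb : ∀ p, 0 ≤ b p) (q : ℤ × ℤ) : 0 ≤ dz R W l b q := by
  unfold dz
  refine mul_nonneg hl (Finset.sum_nonneg fun p _ => ?_)
  split_ifs
  · exact hb p
  · exact le_refl _

theorem dz_mono (R : ℤ × ℤ → ℤ × ℤ → Prop) (W : Finset (ℤ × ℤ)) (l : ℝ) (hl : 0 ≤ l)
    (b b' : ℤ × ℤ → ℝ) (hb : ∀ p, b p ≤ b' p) (q : ℤ × ℤ) : dz R W l b q ≤ dz R W l b' q := by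
  unfold dz
  refine mul_le_mul_of_nonneg_left (Finset.sum_le_sum fun p _ => ?_) hl
  split_ifs
  · exact hb p
  · exact le_refl _

theorem df_nonneg (R : ℤ × ℤ → ℤ × ℤ → Prop) (V : Finset (ℤ × ℤ)) (l : ℝ) (hl : 0 ≤ l)
    (a : ℤ × ℤ → ℝ) (ha : ∀ q, 0 ≤ a q) (p : ℤ × ℤ) : 0 ≤ df R V l a p := by
  unfold df
  refine mul_nonneg hl (Finset.sum_nonneg fun q _ => ?_)
  split_ifs
  · exact ha q
  · exact le_refl _

theorem df_mono (R : ℤ × ℤ → ℤ × ℤ → Prop) (V : Finset (ℤ × ℤ)) (l : ℝ) (hl : 0 ≤ l)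
    (a a' : ℤ × ℤ → ℝ) (ha : ∀ q, a q ≤ a' q) (p : ℤ × ℤ) : df R V l a p ≤ df R V l a' p := by
  unfold df
  refine mul_le_mul_of_nonneg_left (Finset.sum_le_sum fun q _ => ?_) hl
  split_ifs
  · exact ha q
  · exact le_refl _

/-- antitone dependence on the potential, nonnegative solutions -/
theorem compare (V : Finset (ℤ × ℤ)) (D D' : ℤ × ℤ → ℝ) (hD : ∀ q ∈ V, 0 ≤ D q)
    (hDD : ∀ q ∈ V, D q ≤ D' q) (f g : ℤ × ℤ → ℝ) (a a' : ℤ × ℤ → ℝ)
    (ha0 : ∀ q, 0 ≤ a q)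
    (h1 : ∀ q, q ∉ V → a q = g q) (h2 : ∀ q ∈ V, lap a q + D q * a q = f q)
    (h1' : ∀ q, q ∉ V → a' q = g q) (h2' : ∀ q ∈ V, lap a' q + D' q * a' q = f q) :
    ∀ q, a' q ≤ a q := by
  have := max_principle V D' (fun q hq => le_trans (hD q hq) (hDD q hq)) (fun q => a' q - a q)
    (fun q hq => by rw [h1 q hq, h1' q hq]; simp)
    (fun q hq => by
      have e1 := h2 q hq
      have e2 := h2' q hq
      have e3 : 0 ≤ (D' q - D q) * a q :=
        mul_nonneg (by linarith [hDD q hq]) (ha0 q)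
      unfold lap nsum at e1 e2 ⊢
      nlinarith)
  intro q
  have := this q
  linarith

theorem sol_nonneg (V : Finset (ℤ × ℤ)) (D : ℤ × ℤ → ℝ) (hD : ∀ q ∈ V, 0 ≤ D q)
    (f g : ℤ × ℤ → ℝ) (hf : ∀ q, 0 ≤ f q) (hg : ∀ q, 0 ≤ g q) (a : ℤ × ℤ → ℝ)
    (h1 : ∀ q, q ∉ V → a q = g q) (h2 : ∀ q ∈ V, lap a q + D q * a q = f q) :
    ∀ q, 0 ≤ a q := by
  have := max_principle V D hD (fun q => - a q)
    (fun q hq => by have := hg q; rw [h1 q hq]; linarith)
    (fun q hq => by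
      have e1 := h2 q hq
      have e2 := hf q
      unfold lap nsum at e1 ⊢
      linarith)
  intro q
  have := this q
  linarith

theorem sol_le (V : Finset (ℤ × ℤ)) (D : ℤ × ℤ → ℝ) (hD : ∀ q ∈ V, 0 ≤ D q) (M : ℝ) (hM : 0 ≤ M)
    (a : ℤ × ℤ → ℝ)
    (h1 : ∀ q, q ∉ V → a q = M) (h2 : ∀ q ∈ V, lap a q + D q * a q = 0) :
    ∀ q, a q ≤ M := by
  have := max_principle V D hD (fun q => a q - M)
    (fun q hq => by rw [h1 q hq]; simp)
    (fun q hq => by
      have e1 := h2 q hq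
      have e2 : 0 ≤ D q * M := mul_nonneg (hD q hq) hM
      unfold lap nsum at e1 ⊢
      nlinarith)
  intro q
  have := this q
  linarith

/-- The sum of the Laplacian of a nonnegative function vanishing off `V` is nonnegative. -/
theorem sum_lap_nonneg (V : Finset (ℤ × ℤ)) (a : ℤ × ℤ → ℝ) (ha : ∀ q, 0 ≤ a q)
    (hoff : ∀ q, q ∉ V → a q = 0) : 0 ≤ ∑ q ∈ V, lap a q := by
  have key : ∀ (s t : ℤ), ∑ q ∈ V, a (q.1 + s, q.2 + t) ≤ ∑ q ∈ V, a q := by
    intro s t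
    have e1 : ∑ q ∈ V, a (q.1 + s, q.2 + t)
        = ∑ q ∈ V.map ⟨fun q : ℤ × ℤ => (q.1 + s, q.2 + t), by
            intro x y h
            simp only [Prod.mk.injEq] at h
            ext
            · linarith [h.1]
            · linarith [h.2]⟩, a q := by
      rw [Finset.sum_map]
      rfl
    rw [e1]
    set V' := V.map ⟨fun q : ℤ × ℤ => (q.1 + s, q.2 + t), by
            intro x y h
            simp only [Prod.mk.injEq] at h
            ext
            · linarith [h.1]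
            · linarith [h.2]⟩ with hV'
    calc ∑ q ∈ V', a q = ∑ q ∈ V' ∩ V, a q := by
          symm
          apply Finset.sum_subset Finset.inter_subset_left
          intro q hq hq2
          apply hoff
          intro h
          exact hq2 (Finset.mem_inter.mpr ⟨hq, h⟩)
      _ ≤ ∑ q ∈ V, a q :=
          Finset.sum_le_sum_of_subset_of_nonneg Finset.inter_subset_right (fun q _ _ => ha q)
  have k1 := key 1 0
  have k2 := key (-1) 0
  have k3 := key 0 1
  have k4 := key 0 (-1)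
  simp only [add_zero] at k1 k2 k3 k4
  have e : ∑ q ∈ V, lap a q = 4 * ∑ q ∈ V, a q - (∑ q ∈ V, a (q.1 + 1, q.2)
      + ∑ q ∈ V, a (q.1 + -1, q.2) + ∑ q ∈ V, a (q.1, q.2 + 1) + ∑ q ∈ V, a (q.1, q.2 + -1)) := by
    rw [Finset.mul_sum, ← Finset.sum_add_distrib, ← Finset.sum_add_distrib,
      ← Finset.sum_add_distrib, ← Finset.sum_sub_distrib]
    refine Finset.sum_congr rfl fun q _ => ?_
    unfold lap nsum
    simp only [sub_eq_add_neg]
  rw [e]
  linarith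

open Classical in
/-- the penalised problem -/
theorem exists_penalised (V W : Finset (ℤ × ℤ)) (R : ℤ × ℤ → ℤ × ℤ → Prop) (q0 : ℤ × ℤ)
    (M : ℝ) (hM : 0 ≤ M) (l : ℝ) (hl : 0 ≤ l) :
    ∃ a b : ℤ × ℤ → ℝ, (∀ q, 0 ≤ a q) ∧ (∀ q, q ∉ V → a q = 0) ∧
      (∀ p, 0 ≤ b p) ∧ (∀ p, b p ≤ M) ∧ (∀ p, p ∉ W → b p = M) ∧
      (∀ q ∈ V, lap a q + dz R W l b q * a q = if q = q0 then 1 else 0) ∧
      (∀ p ∈ W, lap b p + df R V l a p * b p = 0) := by
  let f : ℤ × ℤ → ℝ := fun q => if q = q0 then 1 else 0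
  have hf : ∀ q, 0 ≤ f q := fun q => by simp only [f]; split_ifs <;> norm_num
  -- the map b -> a[b]
  have hA : ∀ b : ℤ × ℤ → Set.Icc (0 : ℝ) M, ∃ a : ℤ × ℤ → ℝ, (∀ q, q ∉ V → a q = 0) ∧
      ∀ q ∈ V, lap a q + dz R W l (fun p => (b p : ℝ)) q * a q = f q := by
    intro b
    exact exists_dirichlet V _ (fun q _ => dz_nonneg R W l hl _ (fun p => (b p).2.1) q) f
      (fun _ => 0)
  choose A hA1 hA2 using hA
  have hA0 : ∀ b q, 0 ≤ A b q := fun b =>
    sol_nonneg V _ (fun q _ => dz_nonneg R W l hl _ (fun p => (b p).2.1) q) f (fun _ => 0) hf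
      (fun _ => le_refl _) (A b) (hA1 b) (hA2 b)
  have hAanti : ∀ b b' : ℤ × ℤ → Set.Icc (0 : ℝ) M, b ≤ b' → ∀ q, A b' q ≤ A b q := by
    intro b b' hbb
    exact compare V _ _ (fun q _ => dz_nonneg R W l hl _ (fun p => (b p).2.1) q)
      (fun q _ => dz_mono R W l hl _ _ (fun p => hbb p) q) f (fun _ => 0) (A b) (A b') (hA0 b)
      (hA1 b) (hA2 b) (hA1 b') (hA2 b')
  -- the map b -> b[a[b]]
  have hB : ∀ b : ℤ × ℤ → Set.Icc (0 : ℝ) M, ∃ c : ℤ × ℤ → ℝ, (∀ p, p ∉ W → c p = M) ∧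
      ∀ p ∈ W, lap c p + df R V l (A b) p * c p = 0 := by
    intro b
    exact exists_dirichlet W _ (fun p _ => df_nonneg R V l hl _ (hA0 b) p) (fun _ => 0)
      (fun _ => M)
  choose B hB1 hB2 using hB
  have hB0 : ∀ b p, 0 ≤ B b p := fun b =>
    sol_nonneg W _ (fun p _ => df_nonneg R V l hl _ (hA0 b) p) (fun _ => 0) (fun _ => M)
      (fun _ => le_refl _) (fun _ => hM) (B b) (hB1 b) (hB2 b)
  have hBM : ∀ b p, B b p ≤ M := fun b =>
    sol_le W _ (fun p _ => df_nonneg R V l hl _ (hA0 b) p) M hM (B b) (hB1 b) (hB2 b)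
  have hBmono : ∀ b b' : ℤ × ℤ → Set.Icc (0 : ℝ) M, b ≤ b' → ∀ p, B b p ≤ B b' p := by
    intro b b' hbb
    exact compare W _ _ (fun p _ => df_nonneg R V l hl _ (hA0 b') p)
      (fun p _ => df_mono R V l hl _ _ (hAanti b b' hbb) p) (fun _ => 0) (fun _ => M) (B b')
      (B b) (hB0 b') (hB1 b') (hB2 b') (hB1 b) (hB2 b)
  have : Fact ((0 : ℝ) ≤ M) := ⟨hM⟩
  let Φ : (ℤ × ℤ → Set.Icc (0 : ℝ) M) →o (ℤ × ℤ → Set.Icc (0 : ℝ) M) :=
    { toFun := fun b p => ⟨B b p, hB0 b p, hBM b p⟩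
      monotone' := by
        intro b b' hbb p
        exact hBmono b b' hbb p }
  let b := OrderHom.lfp Φ
  have hfix : Φ b = b := OrderHom.map_lfp Φ
  have hbB : ∀ p, (b p : ℝ) = B b p := by
    intro p
    have := congrFun hfix p
    have h2 : ((Φ b) p : ℝ) = B b p := rfl
    rw [← h2, this]
  refine ⟨A b, B b, hA0 b, hA1 b, hB0 b, hBM b, hB1 b, ?_, ?_⟩
  · intro q hq
    have h := hA2 b q hq
    have e : (fun p => (b p : ℝ)) = B b := funext hbB
    rw [e] at h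
    exact h
  · exact hB2 b

theorem exists_ulim (x : ℕ → ℝ) (C : ℝ) (hx : ∀ j, x j ∈ Set.Icc 0 C) :
    ∃ t ∈ Set.Icc (0 : ℝ) C, Tendsto x (hyperfilter ℕ) (𝓝 t) := by
  have h := (isCompact_Icc (a := (0 : ℝ)) (b := C)).ultrafilter_le_nhds
    (Ultrafilter.map x (hyperfilter ℕ)) (by
      rw [le_principal_iff]
      show x ⁻¹' Set.Icc 0 C ∈ (hyperfilter ℕ : Filter ℕ)
      exact Filter.univ_mem' hx)
  obtain ⟨t, ht, h2⟩ := h
  exact ⟨t, ht, h2⟩

open Classical in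
/-- Existence for the discrete free interface problem. -/
theorem exists_solution (V W : Finset (ℤ × ℤ)) (R : ℤ × ℤ → ℤ × ℤ → Prop) (q0 : ℤ × ℤ)
    (M : ℝ) (hM : 0 ≤ M) :
    ∃ (a b : ℤ × ℤ → ℝ) (π : ℤ × ℤ → ℤ × ℤ → ℝ),
      (∀ q, 0 ≤ a q) ∧ (∀ q, q ∉ V → a q = 0) ∧
      (∀ p, 0 ≤ b p) ∧ (∀ p, b p ≤ M) ∧ (∀ p, p ∉ W → b p = M) ∧
      (∀ q p, 0 ≤ π q p) ∧ (∀ q p, ¬ (R q p ∧ q ∈ V ∧ p ∈ W) → π q p = 0) ∧
      (∀ q ∈ V, lap a q = (if q = q0 then 1 else 0) - ∑ p ∈ W, π q p) ∧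
      (∀ p ∈ W, lap b p = - ∑ q ∈ V, π q p) ∧
      (∀ q ∈ V, ∀ p ∈ W, R q p → a q * b p = 0) ∧
      (∑ q ∈ V, ∑ p ∈ W, π q p ≤ 1) := by
  choose a b ha0 haoff hb0 hbM hboff hS1 hS2 using
    fun j : ℕ => exists_penalised V W R q0 M hM (j : ℝ) (Nat.cast_nonneg j)
  let P : ℕ → ℤ × ℤ → ℤ × ℤ → ℝ := fun j q p =>
    if R q p ∧ q ∈ V ∧ p ∈ W then (j : ℝ) * a j q * b j p else 0
  have hP0 : ∀ j q p, 0 ≤ P j q p := by
    intro j q p
    simp only [P]
    split_ifs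
    · exact mul_nonneg (mul_nonneg (Nat.cast_nonneg j) (ha0 j q)) (hb0 j p)
    · exact le_refl _
  have hT1 : ∀ j, ∀ q ∈ V, lap (a j) q = (if q = q0 then 1 else 0) - ∑ p ∈ W, P j q p := by
    intro j q hq
    have h := hS1 j q hq
    have e : ∑ p ∈ W, P j q p = dz R W j (b j) q * a j q := by
      unfold dz
      rw [mul_assoc, Finset.sum_mul, Finset.mul_sum]
      refine Finset.sum_congr rfl fun p hp => ?_
      simp only [P, hq, hp, and_true]
      split_ifs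
      · ring
      · ring
    rw [e]
    linarith
  have hT2 : ∀ j, ∀ p ∈ W, lap (b j) p = - ∑ q ∈ V, P j q p := by
    intro j p hp
    have h := hS2 j p hp
    have e : ∑ q ∈ V, P j q p = df R V j (a j) p * b j p := by
      unfold df
      rw [mul_assoc, Finset.sum_mul, Finset.mul_sum]
      refine Finset.sum_congr rfl fun q hq => ?_
      simp only [P, hq, hp, and_true]
      split_ifs
      · ring
      · ring
    rw [e]
    linarith
  have hPsum : ∀ j, ∑ q ∈ V, ∑ p ∈ W, P j q p ≤ 1 := by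
    intro j
    have h1 := sum_lap_nonneg V (a j) (ha0 j) (haoff j)
    have h2 : ∑ q ∈ V, lap (a j) q
        = ∑ q ∈ V, (if q = q0 then (1 : ℝ) else 0) - ∑ q ∈ V, ∑ p ∈ W, P j q p := by
      rw [← Finset.sum_sub_distrib]
      exact Finset.sum_congr rfl fun q hq => hT1 j q hq
    have h3 : ∑ q ∈ V, (if q = q0 then (1 : ℝ) else 0) ≤ 1 := by
      rw [Finset.sum_ite_eq' V q0]
      split_ifs <;> norm_num
    linarith
  have hP1 : ∀ j q p, P j q p ≤ 1 := by
    intro j q p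
    by_cases h : R q p ∧ q ∈ V ∧ p ∈ W
    · calc P j q p ≤ ∑ p ∈ W, P j q p :=
            Finset.single_le_sum (f := fun p => P j q p) (fun p _ => hP0 j q p) h.2.2
        _ ≤ ∑ q ∈ V, ∑ p ∈ W, P j q p :=
            Finset.single_le_sum (f := fun q => ∑ p ∈ W, P j q p)
              (fun q _ => Finset.sum_nonneg fun p _ => hP0 j q p) h.2.1
        _ ≤ 1 := hPsum j
    · simp only [P, if_neg h]
      norm_num
  -- uniform bound of a
  obtain ⟨a0, ha01, ha02⟩ := exists_dirichlet V (fun _ => 0) (fun _ _ => le_refl _)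
    (fun q => if q = q0 then 1 else 0) (fun _ => 0)
  have ha0nn := sol_nonneg V (fun _ => 0) (fun _ _ => le_refl _)
    (fun q => if q = q0 then 1 else 0) (fun _ => 0)
    (fun q => by split_ifs <;> norm_num) (fun _ => le_refl _) a0 ha01 ha02
  have hale : ∀ j q, a j q ≤ a0 q := by
    intro j
    exact compare V (fun _ => 0) (dz R W j (b j)) (fun _ _ => le_refl _)
      (fun q _ => dz_nonneg R W j (Nat.cast_nonneg j) _ (hb0 j) q)
      (fun q => if q = q0 then 1 else 0) (fun _ => 0) a0 (a j) ha0nn ha01 ha02 (haoff j) (hS1 j)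
  choose α hα1 hα2 using fun q => exists_ulim (fun j => a j q) (a0 q)
    (fun j => ⟨ha0 j q, hale j q⟩)
  choose β hβ1 hβ2 using fun p => exists_ulim (fun j => b j p) M (fun j => ⟨hb0 j p, hbM j p⟩)
  choose ϖ hϖ1 hϖ2 using fun q => fun p => exists_ulim (fun j => P j q p) 1
    (fun j => ⟨hP0 j q p, hP1 j q p⟩)
  have hlapα : ∀ q, Tendsto (fun j => lap (a j) q) (hyperfilter ℕ) (𝓝 (lap α q)) := by
    intro q
    unfold lap nsum
    exact ((hα2 q).const_mul 4).sub ((((hα2 _).add (hα2 _)).add (hα2 _)).add (hα2 _))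
  have hlapβ : ∀ q, Tendsto (fun j => lap (b j) q) (hyperfilter ℕ) (𝓝 (lap β q)) := by
    intro q
    unfold lap nsum
    exact ((hβ2 q).const_mul 4).sub ((((hβ2 _).add (hβ2 _)).add (hβ2 _)).add (hβ2 _))
  refine ⟨α, β, ϖ, fun q => (hα1 q).1, ?_, fun p => (hβ1 p).1, fun p => (hβ1 p).2, ?_,
    fun q p => (hϖ1 q p).1, ?_, ?_, ?_, ?_, ?_⟩
  · intro q hq
    refine tendsto_nhds_unique (hα2 q) ?_
    have e : (fun j => a j q) = fun _ => (0 : ℝ) := funext fun j => haoff j q hq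
    rw [e]
    exact tendsto_const_nhds
  · intro p hp
    refine tendsto_nhds_unique (hβ2 p) ?_
    have e : (fun j => b j p) = fun _ => M := funext fun j => hboff j p hp
    rw [e]
    exact tendsto_const_nhds
  · intro q p h
    refine tendsto_nhds_unique (hϖ2 q p) ?_
    simp only [P, if_neg h]
    exact tendsto_const_nhds
  · intro q hq
    refine tendsto_nhds_unique (hlapα q) ?_
    simp only [fun j => hT1 j q hq]
    exact tendsto_const_nhds.sub (tendsto_finsetSum _ fun p _ => hϖ2 q p)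
  · intro p hp
    refine tendsto_nhds_unique (hlapβ p) ?_
    simp only [fun j => hT2 j p hp]
    exact (tendsto_finsetSum _ fun q _ => hϖ2 q p).neg
  · intro q hq p hp hR
    have h1 : Tendsto (fun j => a j q * b j p) (hyperfilter ℕ) (𝓝 (α q * β p)) :=
      (hα2 q).mul (hβ2 p)
    have h2 : Tendsto (fun j : ℕ => (1 : ℝ) / (j : ℝ)) (hyperfilter ℕ) (𝓝 0) :=
      (tendsto_one_div_atTop_nhds_zero_nat).mono_left Nat.hyperfilter_le_atTop
    refine tendsto_nhds_unique h1 ?_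
    refine squeeze_zero' (Filter.Eventually.of_forall fun j =>
      mul_nonneg (ha0 j q) (hb0 j p)) ?_ h2
    have h3 : ∀ᶠ j : ℕ in (hyperfilter ℕ : Filter ℕ), 0 < j :=
      (Filter.eventually_gt_atTop 0).filter_mono Nat.hyperfilter_le_atTop
    filter_upwards [h3] with j hj
    have hj' : (0 : ℝ) < j := by exact_mod_cast hj
    rw [le_div_iff₀ hj']
    have h4 := hP1 j q p
    simp only [P, hR, hq, hp, and_true, if_true] at h4
    linarith
  · have h1 : Tendsto (fun j => ∑ q ∈ V, ∑ p ∈ W, P j q p) (hyperfilter ℕ)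
        (𝓝 (∑ q ∈ V, ∑ p ∈ W, ϖ q p)) :=
      tendsto_finsetSum _ fun q _ => tendsto_finsetSum _ fun p _ => hϖ2 q p
    exact le_of_tendsto h1 (Filter.Eventually.of_forall hPsum)

end FBX
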