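import Pool.Agent.Lib.MP_018119_an_FB.Exist

/-!
# The discrete free interface problem: general data and the plateau version
-/

namespace FBX

open Filter Topology

theorem sol_le' (V : Finset (ℤ × ℤ)) (D : ℤ × ℤ → ℝ) (hD : ∀ q ∈ V, 0 ≤ D q) (M : ℝ) (hM : 0 ≤ M)
    (a g : ℤ × ℤ → ℝ) (hg : ∀ q, g q ≤ M)
    (h1 : ∀ q, q ∉ V → a q = g q) (h2 : ∀ q ∈ V, lap a q + D q * a q = 0) :
    ∀ q, a q ≤ M := by
  have := max_principle V D hD (fun q => a q - M)
    (fun q hq => by have := hg q; rw [h1 q hq]; linarith)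
    (fun q hq => by
      have e1 := h2 q hq
      have e2 : 0 ≤ D q * M := mul_nonneg (hD q hq) hM
      unfold lap nsum at e1 ⊢
      nlinarith)
  intro q
  have := this q
  linarith

open Classical in
/-- the penalised problem with general data -/
theorem exists_penalised_gen (V V' W : Finset (ℤ × ℤ)) (R : ℤ × ℤ → ℤ × ℤ → Prop)
    (f α β : ℤ × ℤ → ℝ) (M : ℝ) (hf : ∀ q, 0 ≤ f q) (hα : ∀ q, 0 ≤ α q) (hβ : ∀ p, 0 ≤ β p)
    (hβM : ∀ p, β p ≤ M) (l : ℝ) (hl : 0 ≤ l) :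
    ∃ a b : ℤ × ℤ → ℝ, (∀ q, 0 ≤ a q) ∧ (∀ q, q ∉ V → a q = α q) ∧
      (∀ p, 0 ≤ b p) ∧ (∀ p, b p ≤ M) ∧ (∀ p, p ∉ W → b p = β p) ∧
      (∀ q ∈ V, lap a q + dz R W l b q * a q = f q) ∧
      (∀ p ∈ W, lap b p + df R V' l a p * b p = 0) := by
  have hM : 0 ≤ M := le_trans (hβ (0, 0)) (hβM (0, 0))
  -- the map b -> a[b]
  have hA : ∀ b : ℤ × ℤ → Set.Icc (0 : ℝ) M, ∃ a : ℤ × ℤ → ℝ, (∀ q, q ∉ V → a q = α q) ∧
      ∀ q ∈ V, lap a q + dz R W l (fun p => (b p : ℝ)) q * a q = f q := by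
    intro b
    exact exists_dirichlet V _ (fun q _ => dz_nonneg R W l hl _ (fun p => (b p).2.1) q) f α
  choose A hA1 hA2 using hA
  have hA0 : ∀ b q, 0 ≤ A b q := fun b =>
    sol_nonneg V _ (fun q _ => dz_nonneg R W l hl _ (fun p => (b p).2.1) q) f α hf
      hα (A b) (hA1 b) (hA2 b)
  have hAanti : ∀ b b' : ℤ × ℤ → Set.Icc (0 : ℝ) M, b ≤ b' → ∀ q, A b' q ≤ A b q := by
    intro b b' hbb
    exact compare V _ _ (fun q _ => dz_nonneg R W l hl _ (fun p => (b p).2.1) q)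
      (fun q _ => dz_mono R W l hl _ _ (fun p => hbb p) q) f α (A b) (A b') (hA0 b)
      (hA1 b) (hA2 b) (hA1 b') (hA2 b')
  -- the map b -> b[a[b]]
  have hB : ∀ b : ℤ × ℤ → Set.Icc (0 : ℝ) M, ∃ c : ℤ × ℤ → ℝ, (∀ p, p ∉ W → c p = β p) ∧
      ∀ p ∈ W, lap c p + df R V' l (A b) p * c p = 0 := by
    intro b
    exact exists_dirichlet W _ (fun p _ => df_nonneg R V' l hl _ (hA0 b) p) (fun _ => 0) β
  choose B hB1 hB2 using hB
  have hB0 : ∀ b p, 0 ≤ B b p := fun b =>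
    sol_nonneg W _ (fun p _ => df_nonneg R V' l hl _ (hA0 b) p) (fun _ => 0) β
      (fun _ => le_refl _) hβ (B b) (hB1 b) (hB2 b)
  have hBM : ∀ b p, B b p ≤ M := fun b =>
    sol_le' W _ (fun p _ => df_nonneg R V' l hl _ (hA0 b) p) M hM (B b) β hβM (hB1 b) (hB2 b)
  have hBmono : ∀ b b' : ℤ × ℤ → Set.Icc (0 : ℝ) M, b ≤ b' → ∀ p, B b p ≤ B b' p := by
    intro b b' hbb
    exact compare W _ _ (fun p _ => df_nonneg R V' l hl _ (hA0 b') p)
      (fun p _ => df_mono R V' l hl _ _ (hAanti b b' hbb) p) (fun _ => 0) β (B b')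
      (B b) (hB0 b') (hB1 b') (hB2 b') (hB1 b) (hB2 b)
  have : Fact ((0 : ℝ) ≤ M) := ⟨hM⟩
  let Φ : (ℤ × ℤ → Set.Icc (0 : ℝ) M) →o (ℤ × ℤ → Set.Icc (0 : ℝ) M) :=
    { toFun := fun b p => ⟨B b p, hB0 b p, hBM b p⟩
      monotone' := by
        intro b b' hbb p
        exact hBmono b b' hbb p }
  let b := OrderHom.lfp Φ
  have hfix : Φ b = b := OrderHom.map_lfp Φ
  have hbB : ∀ p, (b p : ℝ) = B b p := by
    intro p
    have := congrFun hfix p
    have h2 : ((Φ b) p : ℝ) = B b p := rfl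
    rw [← h2, this]
  refine ⟨A b, B b, hA0 b, hA1 b, hB0 b, hBM b, hB1 b, ?_, ?_⟩
  · intro q hq
    have h := hA2 b q hq
    have e : (fun p => (b p : ℝ)) = B b := funext hbB
    rw [e] at h
    exact h
  · exact hB2 b

open Classical in
/-- Existence for the discrete free interface problem, general data: `V ⊆ V'` are z-cells, `W`
F-cells, `a` is unknown on `V`, `b` on `W`; the flux lives on the incident pairs of `V' × W`. -/
theorem exists_solution_gen (V V' W : Finset (ℤ × ℤ)) (hV : V ⊆ V') (R : ℤ × ℤ → ℤ × ℤ → Prop)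
    (f α β : ℤ × ℤ → ℝ) (M : ℝ) (hf : ∀ q, 0 ≤ f q) (hα : ∀ q, 0 ≤ α q) (hβ : ∀ p, 0 ≤ β p)
    (hβM : ∀ p, β p ≤ M) :
    ∃ (a b : ℤ × ℤ → ℝ) (π : ℤ × ℤ → ℤ × ℤ → ℝ),
      (∀ q, 0 ≤ a q) ∧ (∀ q, q ∉ V → a q = α q) ∧
      (∀ p, 0 ≤ b p) ∧ (∀ p, b p ≤ M) ∧ (∀ p, p ∉ W → b p = β p) ∧
      (∀ q p, 0 ≤ π q p) ∧ (∀ q p, ¬ (R q p ∧ q ∈ V' ∧ p ∈ W) → π q p = 0) ∧
      (∀ q ∈ V, lap a q = f q - ∑ p ∈ W, π q p) ∧
      (∀ p ∈ W, lap b p = - ∑ q ∈ V', π q p) ∧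
      (∀ q ∈ V', ∀ p ∈ W, R q p → a q * b p = 0) := by
  have hM : 0 ≤ M := le_trans (hβ (0, 0)) (hβM (0, 0))
  choose a b ha0 haoff hb0 hbM hboff hS1 hS2 using
    fun j : ℕ => exists_penalised_gen V V' W R f α β M hf hα hβ hβM (j : ℝ) (Nat.cast_nonneg j)
  let P : ℕ → ℤ × ℤ → ℤ × ℤ → ℝ := fun j q p =>
    if R q p ∧ q ∈ V' ∧ p ∈ W then (j : ℝ) * a j q * b j p else 0
  have hP0 : ∀ j q p, 0 ≤ P j q p := by
    intro j q p
    simp only [P]
    split_ifs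
    · exact mul_nonneg (mul_nonneg (Nat.cast_nonneg j) (ha0 j q)) (hb0 j p)
    · exact le_refl _
  have hT1 : ∀ j, ∀ q ∈ V, lap (a j) q = f q - ∑ p ∈ W, P j q p := by
    intro j q hq
    have h := hS1 j q hq
    have hq' := hV hq
    have e : ∑ p ∈ W, P j q p = dz R W j (b j) q * a j q := by
      unfold dz
      rw [mul_assoc, Finset.sum_mul, Finset.mul_sum]
      refine Finset.sum_congr rfl fun p hp => ?_
      simp only [P, hq', hp, and_true]
      split_ifs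
      · ring
      · ring
    rw [e]
    linarith
  have hT2 : ∀ j, ∀ p ∈ W, lap (b j) p = - ∑ q ∈ V', P j q p := by
    intro j p hp
    have h := hS2 j p hp
    have e : ∑ q ∈ V', P j q p = df R V' j (a j) p * b j p := by
      unfold df
      rw [mul_assoc, Finset.sum_mul, Finset.mul_sum]
      refine Finset.sum_congr rfl fun q hq => ?_
      simp only [P, hq, hp, and_true]
      split_ifs
      · ring
      · ring
    rw [e]
    linarith
  have hP1 : ∀ j q p, P j q p ≤ 4 * M := by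
    intro j q p
    by_cases h : R q p ∧ q ∈ V' ∧ p ∈ W
    · have h1 : P j q p ≤ ∑ q ∈ V', P j q p :=
        Finset.single_le_sum (f := fun q => P j q p) (fun q _ => hP0 j q p) h.2.1
      have h2 := hT2 j p h.2.2
      have h3 : - lap (b j) p ≤ 4 * M := by
        have e1 := hbM j (p.1 + 1, p.2)
        have e2 := hbM j (p.1 - 1, p.2)
        have e3 := hbM j (p.1, p.2 + 1)
        have e4 := hbM j (p.1, p.2 - 1)
        have e5 := hb0 j p
        unfold lap nsum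
        linarith
      linarith
    · simp only [P, if_neg h]
      linarith
  -- uniform bound of a
  obtain ⟨a0, ha01, ha02⟩ := exists_dirichlet V (fun _ => 0) (fun _ _ => le_refl _) f α
  have ha0nn := sol_nonneg V (fun _ => 0) (fun _ _ => le_refl _) f α hf hα a0 ha01 ha02
  have hale : ∀ j q, a j q ≤ a0 q := by
    intro j
    exact compare V (fun _ => 0) (dz R W j (b j)) (fun _ _ => le_refl _)
      (fun q _ => dz_nonneg R W j (Nat.cast_nonneg j) _ (hb0 j) q)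
      f α a0 (a j) ha0nn ha01 ha02 (haoff j) (hS1 j)
  choose A hα1 hα2 using fun q => exists_ulim (fun j => a j q) (a0 q)
    (fun j => ⟨ha0 j q, hale j q⟩)
  choose B hβ1 hβ2 using fun p => exists_ulim (fun j => b j p) M (fun j => ⟨hb0 j p, hbM j p⟩)
  choose ϖ hϖ1 hϖ2 using fun q => fun p => exists_ulim (fun j => P j q p) (4 * M)
    (fun j => ⟨hP0 j q p, hP1 j q p⟩)
  have hlapα : ∀ q, Tendsto (fun j => lap (a j) q) (hyperfilter ℕ) (𝓝 (lap A q)) := by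
    intro q
    unfold lap nsum
    exact ((hα2 q).const_mul 4).sub ((((hα2 _).add (hα2 _)).add (hα2 _)).add (hα2 _))
  have hlapβ : ∀ q, Tendsto (fun j => lap (b j) q) (hyperfilter ℕ) (𝓝 (lap B q)) := by
    intro q
    unfold lap nsum
    exact ((hβ2 q).const_mul 4).sub ((((hβ2 _).add (hβ2 _)).add (hβ2 _)).add (hβ2 _))
  refine ⟨A, B, ϖ, fun q => (hα1 q).1, ?_, fun p => (hβ1 p).1, fun p => (hβ1 p).2, ?_,
    fun q p => (hϖ1 q p).1, ?_, ?_, ?_, ?_⟩
  · intro q hq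
    refine tendsto_nhds_unique (hα2 q) ?_
    have e : (fun j => a j q) = fun _ => α q := funext fun j => haoff j q hq
    rw [e]
    exact tendsto_const_nhds
  · intro p hp
    refine tendsto_nhds_unique (hβ2 p) ?_
    have e : (fun j => b j p) = fun _ => β p := funext fun j => hboff j p hp
    rw [e]
    exact tendsto_const_nhds
  · intro q p h
    refine tendsto_nhds_unique (hϖ2 q p) ?_
    simp only [P, if_neg h]
    exact tendsto_const_nhds
  · intro q hq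
    refine tendsto_nhds_unique (hlapα q) ?_
    simp only [fun j => hT1 j q hq]
    exact tendsto_const_nhds.sub (tendsto_finsetSum _ fun p _ => hϖ2 q p)
  · intro p hp
    refine tendsto_nhds_unique (hlapβ p) ?_
    simp only [fun j => hT2 j p hp]
    exact (tendsto_finsetSum _ fun q _ => hϖ2 q p).neg
  · intro q hq p hp hR
    have h1 : Tendsto (fun j => a j q * b j p) (hyperfilter ℕ) (𝓝 (A q * B p)) :=
      (hα2 q).mul (hβ2 p)
    have h2 : Tendsto (fun j : ℕ => (4 * M) * ((1 : ℝ) / (j : ℝ))) (hyperfilter ℕ)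
        (𝓝 ((4 * M) * 0)) :=
      ((tendsto_one_div_atTop_nhds_zero_nat).mono_left Nat.hyperfilter_le_atTop).const_mul _
    rw [mul_zero] at h2
    refine tendsto_nhds_unique h1 ?_
    refine squeeze_zero' (Filter.Eventually.of_forall fun j =>
      mul_nonneg (ha0 j q) (hb0 j p)) ?_ h2
    have h3 : ∀ᶠ j : ℕ in (hyperfilter ℕ : Filter ℕ), 0 < j :=
      (Filter.eventually_gt_atTop 0).filter_mono Nat.hyperfilter_le_atTop
    filter_upwards [h3] with j hj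
    have hj' : (0 : ℝ) < j := by exact_mod_cast hj
    rw [mul_one_div, le_div_iff₀ hj']
    have h4 := hP1 j q p
    simp only [P, hR, hq, hp, and_true, if_true] at h4
    linarith

/-- Plateau version: `a = 1` on `K`, `a = 0` off `V'`, `b = 1` off `W`. -/
theorem exists_plateau (K V' W : Finset (ℤ × ℤ)) (hK : K ⊆ V') (R : ℤ × ℤ → ℤ × ℤ → Prop)
    (hR : ∀ q ∈ V', ∀ p, R q p → p ∈ W) :
    ∃ (a b : ℤ × ℤ → ℝ) (π : ℤ × ℤ → ℤ × ℤ → ℝ),
      (∀ q, 0 ≤ a q) ∧ (∀ q, a q ≤ 1) ∧ (∀ q ∈ K, a q = 1) ∧ (∀ q, q ∉ V' → a q = 0) ∧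
      (∀ p, 0 ≤ b p) ∧ (∀ p, b p ≤ 1) ∧ (∀ p, p ∉ W → b p = 1) ∧
      (∀ q p, 0 ≤ π q p) ∧ (∀ q p, ¬ (R q p ∧ q ∈ V' ∧ p ∈ W) → π q p = 0) ∧
      (∀ q ∈ V', q ∉ K → lap a q = - ∑ p ∈ W, π q p) ∧
      (∀ p ∈ W, lap b p = - ∑ q ∈ V', π q p) ∧
      (∀ q p, R q p → a q * b p = 0) ∧
      (∀ q, q ∉ K → lap a q ≤ 0) ∧ (∀ p ∈ W, lap b p ≤ 0) := by
  classical
  obtain ⟨a, b, π, h1, h2, h3, h4, h5, h6, h7, h8, h9, h10⟩ :=
    exists_solution_gen (V' \ K) V' W Finset.sdiff_subset R (fun _ => 0)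
      (fun q => if q ∈ K then 1 else 0) (fun _ => 1) 1 (fun _ => le_refl _)
      (fun q => by split_ifs <;> norm_num) (fun _ => zero_le_one) (fun _ => le_refl _)
  have ha0 : ∀ q, q ∉ V' → a q = 0 := by
    intro q hq
    have := h2 q (fun h => hq (Finset.mem_sdiff.mp h).1)
    rw [this, if_neg (fun h => hq (hK h))]
  have hle : ∀ q, q ∉ K → lap a q ≤ 0 := by
    intro q hq
    by_cases hV : q ∈ V'
    · rw [h8 q (Finset.mem_sdiff.mpr ⟨hV, hq⟩)]
      have : 0 ≤ ∑ p ∈ W, π q p := Finset.sum_nonneg fun p _ => h6 q p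
      linarith
    · have e1 := h1 (q.1 + 1, q.2)
      have e2 := h1 (q.1 - 1, q.2)
      have e3 := h1 (q.1, q.2 + 1)
      have e4 := h1 (q.1, q.2 - 1)
      unfold lap nsum
      rw [ha0 q hV]
      linarith
  refine ⟨a, b, π, h1, ?_, ?_, ha0, h3, h4, h5, h6, h7, ?_, h9, ?_, hle, ?_⟩
  · refine max_le (V' \ K) a 1 ?_ ?_
    · intro q hq
      rw [h2 q hq]
      split_ifs <;> norm_num
    · intro q hq
      exact hle q (Finset.mem_sdiff.mp hq).2
  · intro q hq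
    rw [h2 q (fun h => (Finset.mem_sdiff.mp h).2 hq), if_pos hq]
  · intro q hq hqK
    rw [h8 q (Finset.mem_sdiff.mpr ⟨hq, hqK⟩)]
    simp
  · intro q p hqp
    by_cases hV : q ∈ V'
    · exact h10 q hV p (hR q hV p hqp) hqp
    · rw [ha0 q hV, zero_mul]
  · intro p hp
    rw [h9 p hp]
    have : 0 ≤ ∑ q ∈ V', π q p := Finset.sum_nonneg fun q _ => h6 q p
    linarith

end FBX
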