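import Pool.Agent.Lib.MP_018119_an_FB.PWeyl

/-!
# MP_018119_an, project FB: harmonicity of the two potentials and the support of `T`
-/

set_option autoImplicit false

open MeasureTheory Set Metric Filter Topology
open scoped ContDiff

namespace Pool.Agent.FB018

/-- A finite measure which kills all test functions supported in an open set kills the set. -/
theorem null_of_test {T : Measure ℂ} [IsFiniteMeasure T] {U : Set ℂ} (hU : IsOpen U)
    (h : ∀ φ : ℂ → ℝ, ContDiff ℝ ∞ φ → HasCompactSupport φ → tsupport φ ⊆ U → (∀ x, 0 ≤ φ x) →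
      ∫ z, φ z ∂T = 0) : T U = 0 := by
  apply measure_null_of_locally_null
  intro x hx
  obtain ⟨ε, hε, hball⟩ := Metric.isOpen_iff.1 hU x hx
  let b : ContDiffBump x := ⟨ε / 4, ε / 2, by positivity, by linarith⟩
  have hbs : tsupport (b : ℂ → ℝ) ⊆ U := by
    rw [b.tsupport_eq]
    exact (closedBall_subset_ball (by show ε / 2 < ε; linarith)).trans hball
  have h1 := h b b.contDiff b.hasCompactSupport hbs fun x => b.nonneg
  have h2 : (b : ℂ → ℝ) =ᵐ[T] 0 :=
    (integral_eq_zero_iff_of_nonneg (fun x => b.nonneg)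
      (b.continuous.integrable_of_hasCompactSupport b.hasCompactSupport)).1 h1
  refine ⟨ball x (ε / 4), mem_nhdsWithin_of_mem_nhds (ball_mem_nhds x (by positivity)), ?_⟩
  have h3 : ball x (ε / 4) ⊆ {y | ¬ (b y = (0 : ℂ → ℝ) y)} := by
    intro y hy
    have : b y = 1 := b.one_of_mem_closedBall (ball_subset_closedBall hy)
    simp [this]
  exact measure_mono_null h3 h2

theorem sn_cont : Continuous sn := by
  unfold sn
  exact (Complex.continuous_re.abs).max Complex.continuous_im.abs

theorem isOpen_sq (r : ℝ) : IsOpen (sq r) := isOpen_lt sn_cont continuous_const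

variable {F : ℂ ≃ₜ ℂ} {s r : ℝ} {A B : ℂ → ℝ} {T : Measure ℂ}

theorem TP.B_zero (H : TP F s r A B T) {z : ℂ} (hz : 0 < A z) : B (F z) = 0 := by
  rcases mul_eq_zero.1 (H.AB z) with h | h
  · exact absurd h hz.ne'
  · exact h

theorem TP.A_zero (H : TP F s r A B T) {z : ℂ} (hz : 0 < B (F z)) : A z = 0 := by
  rcases mul_eq_zero.1 (H.AB z) with h | h
  · exact h
  · exact absurd h hz.ne'

theorem TP.lt_r (H : TP F s r A B T) {z : ℂ} (hz : 0 < A z) : sn (F z) < r := by
  by_contra h
  push Not at h
  have h1 := H.B_one _ h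
  rw [H.B_zero hz] at h1
  norm_num at h1

theorem TP.s_lt (H : TP F s r A B T) {z : ℂ} (hz : 0 < B (F z)) : s < sn z := by
  by_contra h
  push Not at h
  have h1 := H.A_one _ h
  rw [H.A_zero hz] at h1
  norm_num at h1

theorem TP.isOpen_A (H : TP F s r A B T) : IsOpen {z | 0 < A z} :=
  isOpen_lt continuous_const H.A_cont

theorem TP.isOpen_B (H : TP F s r A B T) : IsOpen {w | 0 < B w} :=
  isOpen_lt continuous_const H.B_cont

/-- `T` does not charge `{A > 0}`. -/
theorem TP.T_A (H : TP F s r A B T) : T {z | 0 < A z} = 0 := by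
  have := H.T_fin
  have : IsFiniteMeasure (T.map F) := by
    constructor
    rw [Measure.map_apply F.continuous.measurable MeasurableSet.univ]
    exact measure_lt_top _ _
  have h1 : (T.map F) (F.symm ⁻¹' {z | 0 < A z}) = 0 := by
    refine null_of_test (H.isOpen_A.preimage F.symm.continuous) ?_
    intro ψ h1 h2 h3 _
    have h4 : tsupport ψ ⊆ sq r := by
      intro w hw
      have := H.lt_r (h3 hw)
      rwa [F.apply_symm_apply] at this
    rw [integral_map F.continuous.measurable.aemeasurable
      h1.continuous.aestronglyMeasurable, ← H.weakB ψ h1 h2 h4]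
    apply integral_eq_zero_of_ae
    refine Eventually.of_forall fun w => ?_
    by_cases hw : w ∈ tsupport ψ
    · have := H.B_zero (h3 hw)
      rw [F.apply_symm_apply] at this
      simp [this]
    · have : lap ψ w = 0 := by
        by_contra h
        exact hw (lap_supp ψ h)
      simp [this]
  rw [Measure.map_apply F.continuous.measurable
    (H.isOpen_A.preimage F.symm.continuous).measurableSet] at h1
  refine measure_mono_null ?_ h1
  intro z hz
  simpa using hz

/-- `T` does not charge `{B ∘ F > 0}`. -/
theorem TP.T_B (H : TP F s r A B T) : T {z | 0 < B (F z)} = 0 := by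
  have := H.T_fin
  refine null_of_test (H.isOpen_B.preimage F.continuous) ?_
  intro φ h1 h2 h3 _
  rw [← H.weakA φ h1 h2 fun z hz => H.s_lt (h3 hz)]
  apply integral_eq_zero_of_ae
  refine Eventually.of_forall fun z => ?_
  by_cases hz : z ∈ tsupport φ
  · simp [H.A_zero (h3 hz)]
  · have : lap φ z = 0 := by
      by_contra h
      exact hz (lap_supp φ h)
    simp [this]

/-- `T` lives on the open set `{s < sn z, sn (F z) < r}`. -/
theorem TP.T_out (H : TP F s r A B T) : T {z | sn z ≤ s ∨ r ≤ sn (F z)} = 0 := by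
  refine measure_mono_null ?_ (measure_union_null H.T_A H.T_B)
  rintro z (hz | hz)
  · left
    show 0 < A z
    rw [H.A_one z hz]; norm_num
  · right
    show 0 < B (F z)
    rw [H.B_one _ hz]; norm_num

/-- `A` is harmonic on every open set outside the plateau which is not charged by `T`. -/
theorem TP.harmA' (H : TP F s r A B T) {U : Set ℂ} (hU : IsOpen U) (hs : ∀ z ∈ U, s < sn z)
    (hT : T U = 0) : InnerProductSpace.HarmonicOnNhd A U := by
  refine weyl_cont hU H.A_cont.continuousOn ?_
  intro φ h1 h2 h3
  rw [H.weakA φ h1 h2 fun z hz => hs z (h3 hz)]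
  apply integral_eq_zero_of_ae
  have h4 : ∀ᵐ z ∂T, z ∉ U := measure_eq_zero_iff_ae_notMem.1 hT
  filter_upwards [h4] with z hz
  exact image_eq_zero_of_notMem_tsupport fun h => hz (h3 h)

/-- `B` is harmonic on every open subset of the square which is not charged by `T`. -/
theorem TP.harmB' (H : TP F s r A B T) {U : Set ℂ} (hU : IsOpen U) (hs : ∀ w ∈ U, sn w < r)
    (hT : T (F ⁻¹' U) = 0) : InnerProductSpace.HarmonicOnNhd B U := by
  refine weyl_cont hU H.B_cont.continuousOn ?_
  intro ψ h1 h2 h3
  rw [H.weakB ψ h1 h2 fun z hz => hs z (h3 hz)]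
  apply integral_eq_zero_of_ae
  have h4 : ∀ᵐ z ∂T, z ∉ F ⁻¹' U := measure_eq_zero_iff_ae_notMem.1 hT
  filter_upwards [h4] with z hz
  exact image_eq_zero_of_notMem_tsupport fun h => hz (h3 h)

/-- `A` is harmonic where it is positive, outside the plateau. -/
theorem TP.harmA (H : TP F s r A B T) :
    InnerProductSpace.HarmonicOnNhd A {z | s < sn z ∧ 0 < A z} :=
  H.harmA' ((isOpen_lt continuous_const sn_cont).inter H.isOpen_A) (fun _ hz => hz.1)
    (measure_mono_null (fun _ hz => hz.2) H.T_A)

/-- `B` is harmonic where it is positive, outside the plateau. -/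
theorem TP.harmB (H : TP F s r A B T) :
    InnerProductSpace.HarmonicOnNhd B {w | sn w < r ∧ 0 < B w} :=
  H.harmB' ((isOpen_lt sn_cont continuous_const).inter H.isOpen_B) (fun _ hz => hz.1)
    (measure_mono_null (fun _ hz => hz.2) H.T_B)

/-- `T` has no atoms. -/
theorem TP.no_atom (H : TP F s r A B T) (x : ℂ) : T {x} = 0 := by
  have := H.T_fin
  by_cases hx : s < sn x
  · exact no_atom_of_weak (V := {z | s < sn z}) (isOpen_lt continuous_const sn_cont)
      H.A_cont.continuousOn H.weakA hx
  · push Not at hx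
    refine measure_mono_null ?_ H.T_out
    intro z hz
    rw [mem_singleton_iff] at hz
    left
    rw [hz]
    exact hx

end Pool.Agent.FB018
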