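import Pool.Agent.Lib.MP_018119_an_FB.PMDefs
import Pool.Agent.Lib.MP_018119_an_FB.PHarm
import Pool.Agent.Lib.MP_018119_an_FB.EDefs

/-!
# FB: the free interface lemma from the two potentials and the welding lemma
-/

set_option autoImplicit false

open MeasureTheory Set Metric Filter Topology

namespace Pool.Agent.FB018

theorem PFin_norm_lt {w : ℂ} {r : ℝ} (h : sn w < r) : ‖w‖ < 2 * r := by
  have h1 : |w.re| < r := lt_of_le_of_lt (le_max_left _ _) h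
  have h2 : |w.im| < r := lt_of_le_of_lt (le_max_right _ _) h
  have h3 := Complex.norm_le_abs_re_add_abs_im w
  linarith

theorem An_open (κ : ℝ) : IsOpen (An κ) :=
  (isOpen_lt continuous_const continuous_norm).inter (isOpen_lt continuous_norm continuous_const)

theorem PFin_open_of_inj {f : ℂ → ℂ} {V : Set ℂ} (hV : IsOpen V) (hf : DifferentiableOn ℂ f V)
    (hi : InjOn f V) {U : Set ℂ} (hU : IsOpen U) (hUV : U ⊆ V) : IsOpen (f '' U) := by
  rw [isOpen_iff_mem_nhds]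
  rintro _ ⟨x, hx, rfl⟩
  have ha : AnalyticAt ℂ f x := hf.analyticAt (hV.mem_nhds (hUV hx))
  rcases ha.eventually_constant_or_nhds_le_map_nhds with h | h
  · exfalso
    have h1 : ∀ᶠ z in 𝓝 x, f z = f x ∧ z ∈ V := h.and (hV.mem_nhds (hUV hx))
    have h2 : ∀ᶠ z in 𝓝[≠] x, False := by
      filter_upwards [nhdsWithin_le_nhds h1, self_mem_nhdsWithin] with z hz hne
      exact hne (hi hz.2 (hUV hx) hz.1)
    rw [eventually_false_iff_eq_bot] at h2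
    exact (NormedField.nhdsNE_neBot x).ne h2
  · exact h (image_mem_map (hU.mem_nhds hx))

theorem PM.exists_FI {F : ℂ ≃ₜ ℂ} {s r : ℝ} {A B : ℂ → ℝ} {T : Measure ℂ} (hT : TP F s r A B T)
    {κ κ' : ℝ} {g₀ g Φ θ : ℂ → ℂ} (h : PM F A B r κ κ' g₀ g Φ θ) :
    ∃ (k : ℝ) (G : ℂ → ℂ), FI F 0 (2 * r) k G := by
  obtain ⟨c, hc, Gt, hGc, hGi, hGo, hGin, hGout⟩ := h.wa.exists_glue
  set k : ℝ := Real.exp κ' with hk
  have hk1 : 1 < k := Real.one_lt_exp_iff.mpr h.κ'pos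
  have hk0 : Real.exp (-κ') < 1 := by
    have h0 : Real.exp (-κ') < Real.exp 0 := Real.exp_lt_exp.mpr (by linarith [h.κ'pos])
    simpa using h0
  set G : ℂ → ℂ := fun ζ => if ‖ζ‖ < 1 then g₀ ζ else Gt (θ ζ) with hG
  have hGball : ∀ ζ ∈ ball (0 : ℂ) 1, G ζ = g₀ ζ := by
    intro ζ hζ
    simp only [hG, if_pos (mem_ball_zero_iff.mp hζ)]
  have hGan : ∀ ζ ∈ An κ', G ζ = Gt (θ ζ) := by
    intro ζ hζ
    by_cases h1 : ‖ζ‖ < 1
    · simp only [hG, if_pos h1]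
      rw [hGin _ (h.θ_mem hζ).1 (h.θ_in ζ hζ h1), h.g_θ ζ hζ h1]
    · simp only [hG, if_neg h1]
  have hcover : ∀ ζ ∈ ball (0 : ℂ) k, ζ ∈ ball (0 : ℂ) 1 ∨ ζ ∈ An κ' := by
    intro ζ hζ
    by_cases h1 : ‖ζ‖ < 1
    · exact Or.inl (mem_ball_zero_iff.mpr h1)
    · push Not at h1
      exact Or.inr ⟨lt_of_lt_of_le hk0 h1, mem_ball_zero_iff.mp hζ⟩
  have hAnk : An κ' ⊆ ball (0 : ℂ) k := fun ζ hζ => mem_ball_zero_iff.mpr hζ.2
  have hθc : ContinuousOn θ (An κ') := h.θ_hol.continuousOn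
  have hcomp : ContinuousOn (fun ζ => Gt (θ ζ)) (An κ') := hGc.comp hθc h.θ_mem
  have hcont : ContinuousOn G (ball 0 k) := by
    intro ζ hζ
    refine ContinuousAt.continuousWithinAt ?_
    rcases hcover ζ hζ with h1 | h1
    · have h2 : ContinuousAt g₀ ζ := h.hol₀.continuousOn.continuousAt (isOpen_ball.mem_nhds h1)
      refine h2.congr ?_
      filter_upwards [isOpen_ball.mem_nhds h1] with x hx
      exact (hGball x hx).symm
    · have h2 : ContinuousAt (fun ζ => Gt (θ ζ)) ζ := hcomp.continuousAt ((An_open κ').mem_nhds h1)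
      refine h2.congr ?_
      filter_upwards [(An_open κ').mem_nhds h1] with x hx
      exact (hGan x hx).symm
  -- outside points
  have hout : ∀ ζ ∈ An κ', 1 < ‖ζ‖ → F (G ζ) = Φ (c * θ ζ) ∧ 0 < B (F (G ζ)) ∧
      sn (F (G ζ)) < r := by
    intro ζ hζ h1
    have h2 := h.θ_out ζ hζ h1
    have h3 := (h.θ_mem hζ).2
    have h4 := hGout _ h2 h3
    rw [← hGan ζ hζ] at h4
    have h5 : ‖c * θ ζ‖ = ‖θ ζ‖ := by rw [norm_mul, hc, one_mul]
    have h6 := h.posΦ (c * θ ζ) (by rw [h5]; exact h2) (by rw [h5]; exact h3)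
    rw [h4]
    exact ⟨rfl, h6.1, h6.2⟩
  have hAout : ∀ ζ ∈ An κ', 1 < ‖ζ‖ → A (G ζ) = 0 := fun ζ hζ h1 =>
    hT.A_zero (hout ζ hζ h1).2.1
  have hBin : ∀ ζ ∈ ball (0 : ℂ) 1, B (F (G ζ)) = 0 := by
    intro ζ hζ
    rw [hGball ζ hζ]
    exact hT.B_zero (h.pos₀ ζ hζ)
  -- on the circle
  have hcirc : ∀ ζ : ℂ, ‖ζ‖ = 1 → A (G ζ) = 0 ∧ B (F (G ζ)) = 0 := by
    intro ζ hζ
    have hAn : ζ ∈ An κ' := ⟨by rw [hζ]; exact hk0, by rw [hζ]; exact hk1⟩
    have hct : ContinuousAt G ζ := hcont.continuousAt (isOpen_ball.mem_nhds (hAnk hAn))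
    have hpath : ContinuousAt (fun t : ℝ => (t : ℂ) * ζ) 1 := by fun_prop
    have hpt : Tendsto (fun t : ℝ => (t : ℂ) * ζ) (𝓝 1) (𝓝 ζ) := by
      have := hpath.tendsto
      simpa using this
    have hnorm : ∀ t : ℝ, ‖(t : ℂ) * ζ‖ = |t| := by
      intro t
      rw [norm_mul, hζ, mul_one, Complex.norm_real, Real.norm_eq_abs]
    constructor
    · have h1 : Tendsto (fun t : ℝ => A (G ((t : ℂ) * ζ))) (𝓝[>] 1) (𝓝 (A (G ζ))) :=
        ((hT.A_cont.continuousAt.comp hct).tendsto.comp hpt).mono_left nhdsWithin_le_nhds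
      have h2 : Tendsto (fun t : ℝ => A (G ((t : ℂ) * ζ))) (𝓝[>] 1) (𝓝 0) := by
        refine tendsto_const_nhds.congr' ?_
        filter_upwards [(hpt.mono_left nhdsWithin_le_nhds).eventually
          ((An_open κ').mem_nhds hAn), self_mem_nhdsWithin] with t ht1 ht2
        refine (hAout _ ht1 ?_).symm
        rw [hnorm, abs_of_pos (by linarith [mem_Ioi.mp ht2])]
        exact ht2
      exact tendsto_nhds_unique h1 h2
    · have hBF : Continuous fun z => B (F z) := hT.B_cont.comp F.continuous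
      have h1 : Tendsto (fun t : ℝ => B (F (G ((t : ℂ) * ζ)))) (𝓝[<] 1) (𝓝 (B (F (G ζ)))) :=
        ((hBF.continuousAt.comp hct).tendsto.comp hpt).mono_left nhdsWithin_le_nhds
      have h2 : Tendsto (fun t : ℝ => B (F (G ((t : ℂ) * ζ)))) (𝓝[<] 1) (𝓝 0) := by
        refine tendsto_const_nhds.congr' ?_
        filter_upwards [self_mem_nhdsWithin, nhdsWithin_le_nhds (lt_mem_nhds (zero_lt_one' ℝ))]
          with t ht1 ht2
        refine (hBin _ ?_).symm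
        rw [mem_ball_zero_iff, hnorm, abs_of_pos ht2]
        exact ht1
      exact tendsto_nhds_unique h1 h2
  have hneg : ∀ ζ ∈ ball (0 : ℂ) k, ζ ∉ ball (0 : ℂ) 1 → A (G ζ) = 0 := by
    intro ζ hζ h1
    rw [mem_ball_zero_iff] at h1
    push Not at h1
    rcases h1.eq_or_lt with h2 | h2
    · exact (hcirc ζ h2.symm).1
    · exact hAout ζ ⟨lt_of_lt_of_le hk0 h1, mem_ball_zero_iff.mp hζ⟩ h2
  refine ⟨k, G, hk1, ?_, hcont, ?_, ?_, ?_, ?_, ?_⟩
  · rw [hGball 0 (mem_ball_self one_pos), h.zero]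
  · intro x hx y hy hxy
    by_cases h1 : x ∈ ball (0 : ℂ) 1
    · by_cases h2 : y ∈ ball (0 : ℂ) 1
      · rw [hGball x h1, hGball y h2] at hxy
        exact h.inj₀ h1 h2 hxy
      · exfalso
        have h3 := hneg y hy h2
        have h4 := h.pos₀ x h1
        rw [← hGball x h1, hxy, h3] at h4
        exact lt_irrefl _ h4
    · by_cases h2 : y ∈ ball (0 : ℂ) 1
      · exfalso
        have h3 := hneg x hx h1
        have h4 := h.pos₀ y h2
        rw [← hGball y h2, ← hxy, h3] at h4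
        exact lt_irrefl _ h4
      · have h3 : x ∈ An κ' := (hcover x hx).resolve_left h1
        have h4 : y ∈ An κ' := (hcover y hy).resolve_left h2
        rw [hGan x h3, hGan y h4] at hxy
        exact h.θ_inj h3 h4 (hGi (h.θ_mem h3) (h.θ_mem h4) hxy)
  · intro U hU hUo
    have h1 : G '' U = g₀ '' (U ∩ ball 0 1) ∪ Gt '' (θ '' (U ∩ An κ')) := by
      ext w
      constructor
      · rintro ⟨x, hx, rfl⟩
        rcases hcover x (hU hx) with h2 | h2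
        · exact Or.inl ⟨x, ⟨hx, h2⟩, (hGball x h2).symm⟩
        · exact Or.inr ⟨θ x, ⟨x, ⟨hx, h2⟩, rfl⟩, (hGan x h2).symm⟩
      · rintro (⟨x, ⟨hx, h2⟩, rfl⟩ | ⟨_, ⟨x, ⟨hx, h2⟩, rfl⟩, rfl⟩)
        · exact ⟨x, hx, hGball x h2⟩
        · exact ⟨x, hx, hGan x h2⟩
    rw [h1]
    refine (PFin_open_of_inj isOpen_ball h.hol₀ h.inj₀ (hUo.inter isOpen_ball)
      inter_subset_right).union ?_
    have h2 : IsOpen (θ '' (U ∩ An κ')) :=
      PFin_open_of_inj (An_open κ') h.θ_hol h.θ_inj (hUo.inter (An_open κ')) inter_subset_right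
    rw [isOpen_iff_mem_nhds]
    rintro _ ⟨x, hx, rfl⟩
    refine hGo x ?_ _ (h2.mem_nhds hx)
    obtain ⟨y, hy, rfl⟩ := hx
    exact h.θ_mem hy.2
  · intro ζ hζ
    rw [mem_ball, hT.F0, dist_zero_right]
    apply PFin_norm_lt
    show sn (F (G ζ)) < r
    by_cases h1 : ζ ∈ ball (0 : ℂ) 1
    · rw [hGball ζ h1]
      exact hT.lt_r (h.pos₀ ζ h1)
    · rw [mem_ball_zero_iff] at h1
      push Not at h1
      rcases h1.eq_or_lt with h2 | h2
      · have h3 := (hcirc ζ h2.symm).2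
        by_contra h4
        push Not at h4
        have h5 := hT.B_one _ h4
        rw [h3] at h5
        norm_num at h5
      · exact (hout ζ ⟨lt_of_lt_of_le hk0 h1, mem_ball_zero_iff.mp hζ⟩ h2).2.2
  · exact h.hol₀.congr hGball
  · have h1 : ∀ ζ ∈ {ζ : ℂ | 1 < ‖ζ‖ ∧ ‖ζ‖ < k}, F (G ζ) = Φ (c * θ ζ) := by
      intro ζ hζ
      exact (hout ζ ⟨hk0.trans hζ.1, hζ.2⟩ hζ.1).1
    refine DifferentiableOn.congr ?_ h1
    have h2 : DifferentiableOn ℂ (fun ζ => c * θ ζ) {ζ : ℂ | 1 < ‖ζ‖ ∧ ‖ζ‖ < k} :=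
      (h.θ_hol.mono fun ζ hζ => ⟨hk0.trans hζ.1, hζ.2⟩).const_mul c
    refine h.wa.holΦ.comp h2 ?_
    intro ζ hζ
    have hAn : ζ ∈ An κ' := ⟨hk0.trans hζ.1, hζ.2⟩
    have h5 : ‖c * θ ζ‖ = ‖θ ζ‖ := by rw [norm_mul, hc, one_mul]
    exact ⟨by rw [h5]; exact h.θ_out ζ hAn hζ.1, by rw [h5]; exact (h.θ_mem hAn).2⟩

/-- The translate of `F` with `0 ↦ 0`. -/
noncomputable def shF (F : ℂ ≃ₜ ℂ) (z₀ : ℂ) : ℂ ≃ₜ ℂ :=
  ((Homeomorph.addRight z₀).trans F).trans (Homeomorph.addRight (-F z₀))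

theorem shF_apply (F : ℂ ≃ₜ ℂ) (z₀ z : ℂ) : shF F z₀ z = F (z + z₀) - F z₀ := by
  simp [shF, sub_eq_add_neg]

theorem shF_pos {F : ℂ ≃ₜ ℂ} (h : Pos F) (z₀ : ℂ) : Pos (shF F z₀) := by
  obtain ⟨V, hV, ⟨x, hx⟩, hF⟩ := h
  refine ⟨{z | z + z₀ ∈ V}, hV.preimage (by fun_prop), ⟨x - z₀, by simpa using hx⟩, ?_⟩
  have h2 : DifferentiableOn ℂ (fun z : ℂ => z + z₀) {z | z + z₀ ∈ V} := by fun_prop
  have h3 : DifferentiableOn ℂ (fun z => F (z + z₀) - F z₀) {z | z + z₀ ∈ V} :=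
    (hF.comp h2 fun z hz => hz).sub_const _
  exact h3.congr fun z _ => shF_apply F z₀ z

/-- The free interface lemma for all homeomorphisms which are holomorphic somewhere. -/
def FreePos : Prop :=
  ∀ F : ℂ ≃ₜ ℂ, Pos F → ∀ (z₀ : ℂ) (η : ℝ), 0 < η → ∃ (k : ℝ) (G : ℂ → ℂ), FI F z₀ η k G

/-- **The free interface lemma**, from the two halves. -/
theorem freePos_of
    (h1 : ∀ F : ℂ ≃ₜ ℂ, F 0 = 0 → ∀ r : ℝ, 0 < r →
      ∃ (s : ℝ) (A B : ℂ → ℝ) (T : Measure ℂ), TP F s r A B T)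
    (h2 : ∀ (F : ℂ ≃ₜ ℂ) (s r : ℝ) (A B : ℂ → ℝ) (T : Measure ℂ), TP F s r A B T → Pos F →
      ∃ (κ κ' : ℝ) (g₀ g Φ θ : ℂ → ℂ), PM F A B r κ κ' g₀ g Φ θ) : FreePos := by
  intro F hF z₀ η hη
  have h0 : shF F z₀ 0 = 0 := by rw [shF_apply]; simp
  have hpos : Pos (shF F z₀) := shF_pos hF z₀
  obtain ⟨s, A, B, T, hT⟩ := h1 (shF F z₀) h0 (η / 2) (by linarith)
  obtain ⟨κ, κ', g₀, g, Φ, θ, hP⟩ := h2 _ _ _ _ _ _ hT hpos
  obtain ⟨k, G, hG⟩ := hP.exists_FI hT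
  have hFG : ∀ ζ, F (G ζ + z₀) = shF F z₀ (G ζ) + F z₀ := by
    intro ζ
    rw [shF_apply]
    ring
  refine ⟨k, fun ζ => G ζ + z₀, hG.one_lt, ?_, ?_, ?_, ?_, ?_, ?_, ?_⟩
  · simp [hG.zero]
  · exact hG.cont.add continuousOn_const
  · intro x hx y hy hxy
    exact hG.inj hx hy (add_right_cancel hxy)
  · intro U hU hUo
    have h3 : (fun ζ => G ζ + z₀) '' U = (fun z => z + z₀) '' (G '' U) := by
      rw [image_image]
    rw [h3]
    exact (Homeomorph.addRight z₀).isOpenMap _ (hG.opn U hU hUo)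
  · intro ζ hζ
    have h3 := hG.small hζ
    simp only [mem_ball] at h3 ⊢
    rw [hFG]
    rw [h0, dist_zero_right] at h3
    rw [dist_eq_norm, add_sub_cancel_right]
    linarith
  · exact hG.holI.add_const _
  · have h3 : DifferentiableOn ℂ (fun ζ => shF F z₀ (G ζ) + F z₀) {ζ : ℂ | 1 < ‖ζ‖ ∧ ‖ζ‖ < k} :=
      hG.holO.add_const _
    exact h3.congr fun ζ _ => hFG ζ

theorem FreePos.freeInt (h : FreePos) : FreeInt := by
  intro F K hK _ hF z₀ η hη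
  refine h F ⟨Kᶜ, hK.isClosed.isOpen_compl, ?_, hF⟩ z₀ η hη
  by_contra hne
  rw [not_nonempty_iff_eq_empty, compl_empty_iff] at hne
  rw [hne] at hK
  exact noncompact_univ ℂ hK

end Pool.Agent.FB018
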