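import Mathlib
import Pool.Agent.Lib.MP_099f24_an.SC.Wind

/-!
# MP_018119_an, free interface: variation of a continuous logarithm along a path

`Vr c a b z` is the variation along `[a, b]` of a continuous logarithm of `c - z`
(`0` if there is none). All curves are functions `ℝ → ℂ` which matter only on `[a, b]`.
-/

set_option autoImplicit false

open Filter Topology Set Metric

namespace Pool.Agent.FB018

open Pool.Agent.MP099f24

/-- `L` is a continuous logarithm of `c - z` on `[a, b]`. -/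
def IsLg (c : ℝ → ℂ) (a b : ℝ) (z : ℂ) (L : ℝ → ℂ) : Prop :=
  ContinuousOn L (Icc a b) ∧ ∀ t ∈ Icc a b, Complex.exp (L t) = c t - z

open Classical in
/-- The variation of a continuous logarithm of `c - z` along `[a, b]`. -/
noncomputable def Vr (c : ℝ → ℂ) (a b : ℝ) (z : ℂ) : ℂ :=
  if h : ∃ L, IsLg c a b z L then h.choose b - h.choose a else 0

theorem IsLg.unique {c : ℝ → ℂ} {a b : ℝ} {z : ℂ} {L L' : ℝ → ℂ} (hab : a ≤ b)
    (h : IsLg c a b z L) (h' : IsLg c a b z L') : L b - L a = L' b - L' a := by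
  have h1 := wind_const (A := Icc a b) isPreconnected_Icc (M := fun t => L t - L' t)
    (h.1.sub h'.1) (fun t ht => by
      rw [Complex.exp_sub, h.2 t ht, h'.2 t ht]
      refine div_self ?_
      rw [← h.2 t ht]
      exact Complex.exp_ne_zero _) (s := b) (t := a) (right_mem_Icc.2 hab) (left_mem_Icc.2 hab)
  linear_combination h1

theorem vr_eq {c : ℝ → ℂ} {a b : ℝ} {z : ℂ} {L : ℝ → ℂ} (hab : a ≤ b)
    (h : IsLg c a b z L) : Vr c a b z = L b - L a := by
  classical
  have hex : ∃ L, IsLg c a b z L := ⟨L, h⟩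
  unfold Vr
  rw [dif_pos hex]
  exact hex.choose_spec.unique hab h

theorem exists_lg {c : ℝ → ℂ} {a b : ℝ} {z : ℂ} (hab : a ≤ b) (hc : ContinuousOn c (Icc a b))
    (hz : ∀ t ∈ Icc a b, c t ≠ z) : ∃ L, IsLg c a b z L := by
  have h1 : Continuous (IccExtend hab ((Icc a b).domRestrict c)) :=
    (continuousOn_iff_continuous_domRestrict.1 hc).Icc_extend'
  obtain ⟨L, hL, hL'⟩ := wind_lift (w := z) h1 (fun t => by
    rw [IccExtend_apply]
    exact hz _ (projIcc a b hab t).2)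
  refine ⟨L, hL.continuousOn, fun t ht => ?_⟩
  rw [hL', IccExtend_of_mem hab _ ht]
  rfl

theorem vr_congr {c c' : ℝ → ℂ} {a b : ℝ} (h : EqOn c c' (Icc a b)) (z : ℂ) :
    Vr c a b z = Vr c' a b z := by
  have h1 : IsLg c a b z = IsLg c' a b z := by
    funext L
    unfold IsLg
    have : (∀ t ∈ Icc a b, Complex.exp (L t) = c t - z) ↔
        (∀ t ∈ Icc a b, Complex.exp (L t) = c' t - z) := by
      refine forall_congr' fun t => imp_congr_right fun ht => ?_
      rw [h ht]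
    rw [this]
  unfold Vr
  rw [h1]

/-- Multiplication of `c - z` with the exponential of a continuous function. -/
theorem vr_mul_exp {c d : ℝ → ℂ} {a b : ℝ} {z w : ℂ} (hab : a ≤ b) (hd : ContinuousOn d (Icc a b))
    (hw : ∀ t ∈ Icc a b, d t ≠ w) {M : ℝ → ℂ} (hM : ContinuousOn M (Icc a b))
    (h : ∀ t ∈ Icc a b, c t - z = Complex.exp (M t) * (d t - w)) :
    Vr c a b z = Vr d a b w + (M b - M a) := by
  obtain ⟨L, hL⟩ := exists_lg hab hd hw
  rw [vr_eq hab hL, vr_eq (L := fun t => L t + M t) hab ⟨hL.1.add hM, fun t ht => by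
    rw [Complex.exp_add, hL.2 t ht, h t ht, mul_comm]⟩]
  ring

theorem exp_vr {c : ℝ → ℂ} {a b : ℝ} {z : ℂ} (hab : a ≤ b) (hc : ContinuousOn c (Icc a b))
    (hz : ∀ t ∈ Icc a b, c t ≠ z) : Complex.exp (Vr c a b z) = (c b - z) / (c a - z) := by
  obtain ⟨L, hL⟩ := exists_lg hab hc hz
  rw [vr_eq hab hL, Complex.exp_sub, hL.2 b (right_mem_Icc.2 hab), hL.2 a (left_mem_Icc.2 hab)]

theorem vr_add {c : ℝ → ℂ} {a b d : ℝ} {z : ℂ} (hab : a ≤ b) (hbd : b ≤ d)
    (hc : ContinuousOn c (Icc a d)) (hz : ∀ t ∈ Icc a d, c t ≠ z) :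
    Vr c a d z = Vr c a b z + Vr c b d z := by
  obtain ⟨L, hL⟩ := exists_lg (hab.trans hbd) hc hz
  have s1 : Icc a b ⊆ Icc a d := Icc_subset_Icc_right hbd
  have s2 : Icc b d ⊆ Icc a d := Icc_subset_Icc_left hab
  rw [vr_eq (hab.trans hbd) hL, vr_eq (L := L) hab ⟨hL.1.mono s1, fun t ht => hL.2 t (s1 ht)⟩,
    vr_eq (L := L) hbd ⟨hL.1.mono s2, fun t ht => hL.2 t (s2 ht)⟩]
  ring

theorem vr_self {c : ℝ → ℂ} {a : ℝ} {z : ℂ} : Vr c a a z = 0 := by
  unfold Vr
  split_ifs with h <;> simp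

/-- Reparametrisation. -/
theorem vr_comp {c : ℝ → ℂ} {φ : ℝ → ℝ} {a b a' b' : ℝ} {z : ℂ} (hab : a ≤ b) (hab' : a' ≤ b')
    (hφ : ContinuousOn φ (Icc a b)) (hm : MapsTo φ (Icc a b) (Icc a' b')) (ha : φ a = a')
    (hb : φ b = b') (hc : ContinuousOn c (Icc a' b')) (hz : ∀ t ∈ Icc a' b', c t ≠ z) :
    Vr (fun t => c (φ t)) a b z = Vr c a' b' z := by
  obtain ⟨L, hL⟩ := exists_lg hab' hc hz
  rw [vr_eq hab' hL, vr_eq (L := fun t => L (φ t)) hab ⟨hL.1.comp hφ hm, fun t ht =>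
    hL.2 _ (hm ht)⟩]
  simp only [ha, hb]

/-- Reversal, together with a reparametrisation. -/
theorem vr_comp_rev {c : ℝ → ℂ} {φ : ℝ → ℝ} {a b a' b' : ℝ} {z : ℂ} (hab : a ≤ b) (hab' : a' ≤ b')
    (hφ : ContinuousOn φ (Icc a b)) (hm : MapsTo φ (Icc a b) (Icc a' b')) (ha : φ a = b')
    (hb : φ b = a') (hc : ContinuousOn c (Icc a' b')) (hz : ∀ t ∈ Icc a' b', c t ≠ z) :
    Vr (fun t => c (φ t)) a b z = - Vr c a' b' z := by
  obtain ⟨L, hL⟩ := exists_lg hab' hc hz
  rw [vr_eq hab' hL, vr_eq (L := fun t => L (φ t)) hab ⟨hL.1.comp hφ hm, fun t ht =>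
    hL.2 _ (hm ht)⟩]
  simp only [ha, hb]
  ring

/-- Invariance under affine maps. -/
theorem vr_affine {c : ℝ → ℂ} {a b : ℝ} {z α β : ℂ} (hα : α ≠ 0) (hab : a ≤ b)
    (hc : ContinuousOn c (Icc a b)) (hz : ∀ t ∈ Icc a b, c t ≠ z) :
    Vr (fun t => α * c t + β) a b (α * z + β) = Vr c a b z := by
  have h := vr_mul_exp (c := fun t => α * c t + β) (z := α * z + β) hab hc hz
    (M := fun _ => Complex.log α) continuousOn_const (fun t _ => by
      rw [Complex.exp_log hα]; ring)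
  rw [h]
  ring

/-- If `c - z` stays in a slit plane seen from a direction `u`, the variation is a logarithm. -/
theorem vr_slit {c : ℝ → ℂ} {a b : ℝ} {z u : ℂ} (hab : a ≤ b) (hc : ContinuousOn c (Icc a b))
    (hu : u ≠ 0) (h : ∀ t ∈ Icc a b, (c t - z) / u ∈ Complex.slitPlane) :
    Vr c a b z = Complex.log ((c b - z) / u) - Complex.log ((c a - z) / u) := by
  rw [vr_eq (L := fun t => Complex.log ((c t - z) / u) + Complex.log u) hab ⟨?_, fun t ht => ?_⟩]
  · ring
  · exact (ContinuousOn.clog ((hc.sub continuousOn_const).div_const u) h).add continuousOn_const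
  · rw [Complex.exp_add, Complex.exp_log hu, Complex.exp_log (Complex.slitPlane_ne_zero (h t ht)),
      div_mul_cancel₀ _ hu]

/-- A path which is constant. -/
theorem vr_const {c : ℝ → ℂ} {a b : ℝ} {x z : ℂ} (hab : a ≤ b) (hc : ∀ t ∈ Icc a b, c t = x)
    (hx : x ≠ z) : Vr c a b z = 0 := by
  rw [vr_eq (L := fun _ => Complex.log (x - z)) hab ⟨continuousOn_const, fun t ht => by
    rw [Complex.exp_log (sub_ne_zero.2 hx), hc t ht]⟩]
  ring

/-- A closed path in a ball about points outside of the ball. -/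
theorem vr_ball {c : ℝ → ℂ} {a b : ℝ} {z p : ℂ} {r : ℝ} (hab : a ≤ b)
    (hc : ContinuousOn c (Icc a b)) (hcl : c a = c b) (hr : ∀ t ∈ Icc a b, ‖c t - p‖ ≤ r)
    (hz : r < ‖z - p‖) : Vr c a b z = 0 := by
  have hr0 : 0 ≤ r := (norm_nonneg _).trans (hr a (left_mem_Icc.2 hab))
  have hpz : p - z ≠ 0 := by
    intro h
    rw [← neg_sub, h, neg_zero, norm_zero] at hz
    linarith
  rw [vr_slit hab hc hpz, hcl, sub_self]
  intro t ht
  have h1 : (c t - z) / (p - z) = 1 + (c t - p) / (p - z) := by field_simp; ring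
  refine Or.inl ?_
  rw [h1, Complex.add_re, Complex.one_re]
  have h2 : ‖(c t - p) / (p - z)‖ < 1 := by
    rw [norm_div, div_lt_one (norm_pos_iff.2 hpz), norm_sub_rev p z]
    exact (hr t ht).trans_lt hz
  have h3 := Complex.abs_re_le_norm ((c t - p) / (p - z))
  have h4 := abs_le.1 (h3.trans h2.le)
  have h5 : -1 < ((c t - p) / (p - z)).re := by
    rcases (abs_lt.1 (h3.trans_lt h2)) with ⟨h6, -⟩
    exact h6
  linarith

theorem vr_closed {c : ℝ → ℂ} {a b : ℝ} {z : ℂ} (hab : a ≤ b)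
    (hc : ContinuousOn c (Icc a b)) (hcl : c a = c b) (hz : ∀ t ∈ Icc a b, c t ≠ z) :
    Complex.exp (Vr c a b z) = 1 := by
  rw [exp_vr hab hc hz, hcl]
  exact div_self (sub_ne_zero.2 (hz b (right_mem_Icc.2 hab)))

theorem vr_closed_int {c : ℝ → ℂ} {a b : ℝ} {z : ℂ} (hab : a ≤ b)
    (hc : ContinuousOn c (Icc a b)) (hcl : c a = c b) (hz : ∀ t ∈ Icc a b, c t ≠ z) :
    ∃ n : ℤ, Vr c a b z = n * (2 * Real.pi * Complex.I) :=
  Complex.exp_eq_one_iff.1 (vr_closed hab hc hcl hz)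

/-- The variation depends continuously on the point. -/
theorem vr_continuousAt {c : ℝ → ℂ} {a b : ℝ} {w : ℂ} (hab : a ≤ b)
    (hc : ContinuousOn c (Icc a b)) (hw : ∀ t ∈ Icc a b, c t ≠ w) :
    ContinuousAt (fun z => Vr c a b z) w := by
  have hcomp : IsCompact (c '' Icc a b) := isCompact_Icc.image_of_continuousOn hc
  have hne : w ∉ c '' Icc a b := by rintro ⟨t, ht, h⟩; exact hw t ht h
  obtain ⟨δ, hδ, hδ'⟩ : ∃ δ > 0, ∀ t ∈ Icc a b, δ ≤ ‖c t - w‖ := by
    obtain ⟨δ, hδ, h4⟩ := Metric.isOpen_iff.1 hcomp.isClosed.isOpen_compl w hne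
    refine ⟨δ, hδ, fun t ht => ?_⟩
    by_contra hlt
    push Not at hlt
    exact h4 (by rwa [mem_ball, dist_eq_norm]) (mem_image_of_mem c ht)
  have hslit : ∀ w', ‖w' - w‖ < δ → ∀ t ∈ Icc a b, 0 < ((c t - w') / (c t - w)).re := by
    intro w' hw' t ht
    have h5 : c t - w ≠ 0 := sub_ne_zero.2 (hw t ht)
    have h6 : (c t - w') / (c t - w) = 1 - (w' - w) / (c t - w) := by field_simp; ring
    rw [h6, Complex.sub_re, Complex.one_re, sub_pos]
    refine (Complex.re_le_norm _).trans_lt ?_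
    rw [norm_div, div_lt_one (norm_pos_iff.2 h5)]
    exact hw'.trans_le (hδ' t ht)
  have ha := left_mem_Icc.2 hab
  have hb := right_mem_Icc.2 hab
  have key : ∀ᶠ w' in 𝓝 w, Vr c a b w' = Vr c a b w +
      (Complex.log ((c b - w') / (c b - w)) - Complex.log ((c a - w') / (c a - w))) := by
    filter_upwards [ball_mem_nhds w hδ] with w' hw'
    rw [mem_ball, dist_eq_norm] at hw'
    refine vr_mul_exp (M := fun t => Complex.log ((c t - w') / (c t - w))) hab hc hw ?_ ?_
    · refine ContinuousOn.clog ?_ fun t ht => Or.inl (hslit w' hw' t ht)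
      exact (hc.sub continuousOn_const).div (hc.sub continuousOn_const)
        fun t ht => sub_ne_zero.2 (hw t ht)
    · intro t ht
      have h5 : c t - w ≠ 0 := sub_ne_zero.2 (hw t ht)
      have h6 : (c t - w') / (c t - w) ≠ 0 := by
        intro h0
        have := hslit w' hw' t ht
        rw [h0] at this
        simp at this
      rw [Complex.exp_log h6, div_mul_cancel₀ _ h5]
  refine ContinuousAt.congr ?_ (key.mono fun w' h => h.symm)
  have c0 : c a - w ≠ 0 := sub_ne_zero.2 (hw a ha)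
  have c1 : c b - w ≠ 0 := sub_ne_zero.2 (hw b hb)
  refine continuousAt_const.add (ContinuousAt.sub ?_ ?_)
  · refine ContinuousAt.clog (by fun_prop) ?_
    rw [div_self c1]
    simp
  · refine ContinuousAt.clog (by fun_prop) ?_
    rw [div_self c0]
    simp

/-- The same on a set, for points which depend continuously on a parameter. -/
theorem vr_continuousOn {c : ℝ → ℂ} {a b : ℝ} {X : Type*} [TopologicalSpace X] {w : X → ℂ}
    {S : Set X} (hab : a ≤ b) (hc : ContinuousOn c (Icc a b)) (hwc : ContinuousOn w S)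
    (hw : ∀ x ∈ S, ∀ t ∈ Icc a b, c t ≠ w x) : ContinuousOn (fun x => Vr c a b (w x)) S :=
  fun x hx => (vr_continuousAt hab hc (hw x hx)).comp_continuousWithinAt (hwc x hx)

/-- A continuous function on a preconnected set all of whose values are logarithms of `1`. -/
theorem log_one_const {X : Type*} [TopologicalSpace X] {S : Set X} (hS : IsPreconnected S)
    {M : X → ℂ} (hM : ContinuousOn M S) (h1 : ∀ t ∈ S, Complex.exp (M t) = 1) {s t : X}
    (hs : s ∈ S) (ht : t ∈ S) : M s = M t := by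
  refine hS.induction₂' (fun s t => M s = M t) ?_ (fun _ _ _ _ _ _ h h' => h.trans h') hs ht
  intro x hx
  have h2 : ∀ᶠ y in 𝓝[S] x, dist (M y) (M x) < 1 := hM x hx (ball_mem_nhds _ one_pos)
  filter_upwards [h2, self_mem_nhdsWithin] with y hy hyA
  have h3 : M y = M x := by
    refine wind_eq_of_close ((h1 y hyA).trans (h1 x hx).symm) ?_
    rw [Complex.dist_eq] at hy
    linarith
  exact ⟨h3.symm, h3⟩

/-- The index is constant on connected sets which do not meet the closed curve. -/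
theorem vr_connected {c : ℝ → ℂ} {a b : ℝ} (hab : a ≤ b) (hc : ContinuousOn c (Icc a b))
    (hcl : c a = c b) {S : Set ℂ} (hS : IsPreconnected S) (hw : ∀ w ∈ S, ∀ t ∈ Icc a b, c t ≠ w)
    {w w' : ℂ} (h : w ∈ S) (h' : w' ∈ S) : Vr c a b w = Vr c a b w' :=
  log_one_const hS (vr_continuousOn hab hc continuousOn_id hw)
    (fun w hwS => vr_closed hab hc hcl (hw w hwS)) h h'

/-- The index is locally constant. -/
theorem vr_locally {c : ℝ → ℂ} {a b : ℝ} (hab : a ≤ b) (hc : ContinuousOn c (Icc a b))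
    (hcl : c a = c b) {w : ℂ} (hw : ∀ t ∈ Icc a b, c t ≠ w) :
    ∀ᶠ w' in 𝓝 w, (∀ t ∈ Icc a b, c t ≠ w') ∧ Vr c a b w' = Vr c a b w := by
  have hcomp : IsCompact (c '' Icc a b) := isCompact_Icc.image_of_continuousOn hc
  have hne : w ∉ c '' Icc a b := by rintro ⟨t, ht, h⟩; exact hw t ht h
  obtain ⟨δ, hδ, h4⟩ := Metric.isOpen_iff.1 hcomp.isClosed.isOpen_compl w hne
  have hav : ∀ w' ∈ ball w δ, ∀ t ∈ Icc a b, c t ≠ w' :=
    fun w' hw' t ht he => h4 hw' ⟨t, ht, he⟩
  filter_upwards [ball_mem_nhds w hδ] with w' hw'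
  exact ⟨hav w' hw', vr_connected hab hc hcl (convex_ball w δ).isPreconnected hav hw'
    (mem_ball_self hδ)⟩

/-- A point of nonzero index is within the diameter of the curve. -/
theorem vr_diam {c : ℝ → ℂ} {a b : ℝ} (hab : a ≤ b) (hc : ContinuousOn c (Icc a b))
    (hcl : c a = c b) {w p : ℂ} {r : ℝ} (h : Vr c a b w ≠ 0) (hr : ∀ t ∈ Icc a b, ‖c t - p‖ ≤ r) :
    ‖w - p‖ ≤ r := by
  by_contra hlt
  push Not at hlt
  exact h (vr_ball hab hc hcl hr hlt)

/-- The variation along a segment which does not contain the point. -/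
theorem vr_segment {p q w : ℂ} (hw : w ∉ segment ℝ p q) {a b : ℝ} (hab : a ≤ b) {c : ℝ → ℂ}
    (hc : ContinuousOn c (Icc a b)) (hs : ∀ t ∈ Icc a b, c t ∈ segment ℝ p q) (ha : c a = p) :
    Vr c a b w = Complex.log ((c b - w) / (p - w)) := by
  have hp : p ≠ w := by rintro rfl; exact hw (left_mem_segment ℝ _ _)
  have hp' : p - w ≠ 0 := sub_ne_zero.2 hp
  rw [vr_slit hab hc hp', ha, div_self hp', Complex.log_one, sub_zero]
  intro t ht
  refine wind_slit fun h => hw ?_
  have h1 := hs t ht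
  exact (convex_segment p q).segment_subset (left_mem_segment ℝ _ _) h1 h

end Pool.Agent.FB018
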