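import Mathlib
import Pool.Agent.Lib.MP_018119_an_FB.VrB
import Pool.Agent.Lib.MP_1f4a82_an.Local

/-!
# MP_018119_an, free interface: Lemma J (index of a loop which passes through a conformal image)
-/

set_option autoImplicit false

open Filter Topology Set Metric

namespace Pool.Agent.FB018

/-- A continuous logarithm of the divided differences of an injective holomorphic function on a
convex open set. -/
theorem exists_dd_log {R : Set ℂ} (hR : IsOpen R) (hcv : Convex ℝ R) {g : ℂ → ℂ}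
    (hg : DifferentiableOn ℂ g R) (hi : InjOn g R) :
    ∃ l : ℂ × ℂ → ℂ, ContinuousOn l (R ×ˢ R) ∧
      ∀ x ∈ R, ∀ y ∈ R, g x - g y = Complex.exp (l (x, y)) * (x - y) := by
  classical
  rcases R.eq_empty_or_nonempty with rfl | hne
  · exact ⟨fun _ => 0, by simp, fun x hx => absurd hx (notMem_empty x)⟩
  have han : ∀ z ∈ R, AnalyticAt ℂ g z := fun z hz => hg.analyticAt (hR.mem_nhds hz)
  have hder : ∀ z ∈ R, deriv g z ≠ 0 := fun z hz =>
    Pool.Agent.Lib.MP_1f4a82_an.deriv_ne_zero_of_injOn (han z hz) (hR.mem_nhds hz) hi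
  set D : ℂ × ℂ → ℂ := fun p => if p.1 = p.2 then deriv g p.2 else (g p.1 - g p.2) / (p.1 - p.2)
    with hD
  have hD0 : ∀ p ∈ R ×ˢ R, D p ≠ 0 := by
    rintro ⟨x, y⟩ ⟨hx, hy⟩
    simp only [hD]
    split_ifs with h
    · exact hder y hy
    · exact div_ne_zero (sub_ne_zero.2 fun h' => h (hi hx hy h')) (sub_ne_zero.2 h)
  have hDc : ContinuousOn D (R ×ˢ R) := by
    rintro ⟨x, y⟩ ⟨hx, hy⟩
    refine ContinuousAt.continuousWithinAt ?_
    have hgx : ContinuousAt g x := (han x hx).continuousAt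
    have hgy : ContinuousAt g y := (han y hy).continuousAt
    by_cases hxy : x = y
    · subst hxy
      have hst : HasStrictDerivAt g (deriv g x) x := (han x hx).hasStrictDerivAt
      have hst' := hst.hasStrictFDerivAt.isLittleO
      have hdc : ContinuousAt (deriv g) x := (han x hx).deriv.continuousAt
      rw [ContinuousAt]
      have hDx : D (x, x) = deriv g x := by simp [hD]
      rw [hDx, Metric.tendsto_nhds]
      intro ε hε
      have e1 := hst'.def (half_pos hε)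
      have e2 : ∀ᶠ p : ℂ × ℂ in 𝓝 (x, x), dist (deriv g p.2) (deriv g x) < ε := by
        have h1 : ContinuousAt (fun p : ℂ × ℂ => deriv g p.2) (x, x) :=
          ContinuousAt.comp (x := (x, x)) (g := deriv g) hdc continuousAt_snd
        exact h1 (ball_mem_nhds _ hε)
      filter_upwards [e1, e2] with p h1 h2
      simp only [hD]
      split_ifs with h
      · exact h2
      · have h3 : p.1 - p.2 ≠ 0 := sub_ne_zero.2 h
        have h4 : (g p.1 - g p.2) / (p.1 - p.2) - deriv g x =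
            (g p.1 - g p.2 - (p.1 - p.2) * deriv g x) / (p.1 - p.2) := by
          field_simp
        rw [dist_eq_norm, h4, norm_div, div_lt_iff₀ (norm_pos_iff.2 h3)]
        have h5 : ‖g p.1 - g p.2 - (p.1 - p.2) * deriv g x‖ ≤ ε / 2 * ‖p.1 - p.2‖ := by
          simpa [smul_eq_mul, mul_comm] using h1
        refine h5.trans_lt ?_
        have := norm_pos_iff.2 h3
        nlinarith
    · have h1 : ∀ᶠ p : ℂ × ℂ in 𝓝 (x, y), p.1 ≠ p.2 :=
        (isOpen_ne_fun continuous_fst continuous_snd).mem_nhds hxy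
      have h2 : ContinuousAt (fun p : ℂ × ℂ => (g p.1 - g p.2) / (p.1 - p.2)) (x, y) := by
        refine ContinuousAt.div ?_ (by fun_prop) (sub_ne_zero.2 hxy)
        exact (ContinuousAt.comp (x := (x, y)) (g := g) hgx continuousAt_fst).sub
          (ContinuousAt.comp (x := (x, y)) (g := g) hgy continuousAt_snd)
      refine h2.congr ?_
      filter_upwards [h1] with p hp
      simp only [hD, if_neg hp]
  have hcv2 : Convex ℝ (R ×ˢ R) := hcv.prod hcv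
  have hne2 : (R ×ˢ R).Nonempty := hne.prod hne
  have hsc : IsSimplyConnected (R ×ˢ R) := by
    haveI : ContractibleSpace (R ×ˢ R : Set (ℂ × ℂ)) := hcv2.contractibleSpace hne2
    exact SimplyConnectedSpace.ofContractible _
  obtain ⟨l, hl, hl'⟩ := Complex.exists_continuousOn_eqOn_exp_comp hsc (hR.prod hR) hDc
    (by rintro ⟨p, hp, h0⟩; exact hD0 p hp h0)
  refine ⟨l, hl, fun x hx y hy => ?_⟩
  have h1 : Complex.exp (l (x, y)) = D (x, y) := hl' (mk_mem_prod hx hy)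
  rw [h1]
  simp only [hD]
  split_ifs with h
  · subst h
    ring
  · rw [div_mul_cancel₀ _ (sub_ne_zero.2 h)]

/-- Lemma J. Let `g` be injective and holomorphic on the convex open set `R`, `J` and `γ` closed
curves such that `γ` is in `R` on `(0, c)` and not in `R` for the other times, `J = g ∘ γ` on
`(0, c)` and `J` does not meet `g '' R` at the other times. Then the difference of the indices
`n(J, g ζ) - n(γ, ζ)` does not depend on `ζ ∈ R` off `γ`. -/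
theorem jump {R : Set ℂ} (hR : IsOpen R) (hcv : Convex ℝ R) {g : ℂ → ℂ}
    (hg : DifferentiableOn ℂ g R) (hi : InjOn g R) {J γ : ℝ → ℂ} {c : ℝ} (hc0 : 0 < c)
    (hc1 : c ≤ 1) (hJ : ContinuousOn J (Icc 0 1)) (hγ : ContinuousOn γ (Icc 0 1))
    (J01 : J 0 = J 1) (γ01 : γ 0 = γ 1) (hin : ∀ t ∈ Ioo 0 c, γ t ∈ R)
    (hJγ : ∀ t ∈ Ioo 0 c, J t = g (γ t)) (hout : ∀ t ∈ Icc c 1, γ t ∉ R)
    (hJout : ∀ t ∈ Icc c 1, J t ∉ g '' R) {ζ₀ ζ₁ : ℂ} (h₀ : ζ₀ ∈ R) (h₁ : ζ₁ ∈ R)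
    (n₀ : ∀ t ∈ Ioo 0 c, γ t ≠ ζ₀) (n₁ : ∀ t ∈ Ioo 0 c, γ t ≠ ζ₁) :
    Vr J 0 1 (g ζ₀) - Vr γ 0 1 ζ₀ = Vr J 0 1 (g ζ₁) - Vr γ 0 1 ζ₁ := by
  obtain ⟨l, hl, hl'⟩ := exists_dd_log hR hcv hg hi
  have hc1' : c ∈ Icc c 1 := ⟨le_rfl, hc1⟩
  have m1 : (1 : ℝ) ∈ Icc c 1 := ⟨hc1, le_rfl⟩
  have γ0 : γ 0 ∉ R := by rw [γ01]; exact hout 1 m1
  have γc : γ c ∉ R := hout c hc1'
  have J0 : J 0 ∉ g '' R := by rw [J01]; exact hJout 1 m1
  -- a margin
  obtain ⟨δ, hδ, hb₀, hb₁⟩ : ∃ δ > 0, ball ζ₀ (2 * δ) ⊆ R ∧ ball ζ₁ (2 * δ) ⊆ R := by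
    obtain ⟨δ₀, hδ₀, h2⟩ := Metric.isOpen_iff.1 hR ζ₀ h₀
    obtain ⟨δ₁, hδ₁, h3⟩ := Metric.isOpen_iff.1 hR ζ₁ h₁
    refine ⟨min δ₀ δ₁ / 2, by positivity, ?_, ?_⟩
    · refine (ball_subset_ball ?_).trans h2
      linarith [min_le_left δ₀ δ₁]
    · refine (ball_subset_ball ?_).trans h3
      linarith [min_le_right δ₀ δ₁]
  set R' : Set ℂ := interior {ζ | ball ζ δ ⊆ R} with hR'
  have hR'o : IsOpen R' := isOpen_interior
  have hcv' : Convex ℝ {ζ | ball ζ δ ⊆ R} := by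
    intro x hx y hy a b ha hb hab
    intro z hz
    rw [mem_ball, dist_eq_norm] at hz
    set v := z - (a • x + b • y) with hv
    have hxv : x + v ∈ R := hx (by rw [mem_ball, dist_eq_norm]; simpa using hz)
    have hyv : y + v ∈ R := hy (by rw [mem_ball, dist_eq_norm]; simpa using hz)
    have h4 := hcv hxv hyv ha hb hab
    have h5 : a • (x + v) + b • (y + v) = z := by
      have : a • (x + v) + b • (y + v) = a • x + b • y + (a + b) • v := by
        rw [smul_add, smul_add, add_smul]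
        abel
      rw [this, hab, one_smul, hv]
      abel
    rwa [h5] at h4
  have hR'c : Convex ℝ R' := hcv'.interior
  have hR'R : R' ⊆ R := fun ζ hζ => interior_subset hζ (mem_ball_self hδ)
  have hmem : ∀ ζ, ball ζ (2 * δ) ⊆ R → ζ ∈ R' := by
    intro ζ hζ
    rw [hR', mem_interior]
    refine ⟨ball ζ δ, fun ξ hξ η hη => hζ ?_, isOpen_ball, mem_ball_self hδ⟩
    rw [mem_ball] at hξ hη ⊢
    calc dist η ζ ≤ dist η ξ + dist ξ ζ := dist_triangle _ _ _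
      _ < 2 * δ := by linarith
  have h₀' : ζ₀ ∈ R' := hmem _ hb₀
  have h₁' : ζ₁ ∈ R' := hmem _ hb₁
  have hfar : ∀ ξ η : ℂ, η ∉ R → dist ξ η < δ → ξ ∉ R' := by
    intro ξ η hη hd hξ
    exact hη (interior_subset hξ (by rw [mem_ball, dist_comm]; exact hd))
  -- the times s and t
  obtain ⟨s, hs0, hsc, hs⟩ : ∃ s, 0 < s ∧ s < c / 2 ∧ ∀ τ ∈ Icc 0 s, γ τ ∉ R' := by
    have h1 : ContinuousWithinAt γ (Icc 0 1) 0 := hγ 0 (by simp)
    obtain ⟨η, hη, h2⟩ := Metric.continuousWithinAt_iff.1 h1 δ hδ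
    refine ⟨min (η / 2) (c / 4), by positivity, ?_, fun τ hτ => ?_⟩
    · have := min_le_right (η / 2) (c / 4)
      linarith
    · have h3 : τ ≤ η / 2 := hτ.2.trans (min_le_left _ _)
      have h4 : τ ≤ c / 4 := hτ.2.trans (min_le_right _ _)
      have h5 : dist τ 0 < η := by
        rw [Real.dist_eq, sub_zero, abs_of_nonneg hτ.1]
        linarith
      exact hfar _ _ γ0 (h2 ⟨hτ.1, by linarith⟩ h5)
  obtain ⟨t, htc, ht0, ht⟩ : ∃ t, t < c ∧ c / 2 < t ∧ ∀ τ ∈ Icc t 1, γ τ ∉ R' := by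
    have h1 : ContinuousWithinAt γ (Icc 0 1) c := hγ c ⟨hc0.le, hc1⟩
    obtain ⟨η, hη, h2⟩ := Metric.continuousWithinAt_iff.1 h1 δ hδ
    refine ⟨c - min (η / 2) (c / 4), ?_, ?_, fun τ hτ => ?_⟩
    · have : 0 < min (η / 2) (c / 4) := by positivity
      linarith
    · have := min_le_right (η / 2) (c / 4)
      linarith
    · rcases le_or_gt c τ with h3 | h3
      · exact fun h => hout τ ⟨h3, hτ.2⟩ (hR'R h)
      · have h4 := min_le_left (η / 2) (c / 4)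
        have h6 := min_le_right (η / 2) (c / 4)
        have h5 : dist τ c < η := by
          rw [Real.dist_eq, abs_sub_comm, abs_of_pos (by linarith)]
          linarith [hτ.1]
        exact hfar _ _ γc (h2 ⟨by linarith [hτ.1], hτ.2⟩ h5)
  have hst : s < t := by linarith
  have htle : t ≤ 1 := htc.le.trans hc1
  have hsmem : s ∈ Ioo 0 c := ⟨hs0, by linarith⟩
  have htmem : t ∈ Ioo 0 c := ⟨by linarith, htc⟩
  have i1 : Icc 0 s ⊆ Icc (0 : ℝ) 1 := Icc_subset_Icc_right (by linarith)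
  have i2 : Icc t 1 ⊆ Icc (0 : ℝ) 1 := Icc_subset_Icc_left (by linarith)
  have i3 : Icc s t ⊆ Icc (0 : ℝ) 1 := Icc_subset_Icc hs0.le htle
  have i4 : Icc s t ⊆ Ioo 0 c := fun τ hτ => ⟨hs0.trans_le hτ.1, hτ.2.trans_lt htc⟩
  -- avoidance
  have av : ∀ ζ ∈ R, ∀ τ ∈ Icc (0 : ℝ) 1, (τ ∈ Ioo 0 c → γ τ ≠ ζ) → γ τ ≠ ζ ∧ J τ ≠ g ζ := by
    intro ζ hζ τ hτ h
    by_cases hτ' : τ ∈ Ioo 0 c
    · refine ⟨h hτ', ?_⟩
      rw [hJγ τ hτ']
      exact fun he => h hτ' (hi (hin τ hτ') hζ he)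
    · have h5 : γ τ ∉ R ∧ J τ ∉ g '' R := by
        rcases hτ.1.eq_or_lt with h6 | h6
        · rw [← h6]
          exact ⟨γ0, J0⟩
        · have h7 : c ≤ τ := by
            by_contra h8
            push Not at h8
            exact hτ' ⟨h6, h8⟩
          exact ⟨hout τ ⟨h7, hτ.2⟩, hJout τ ⟨h7, hτ.2⟩⟩
      refine ⟨fun he => h5.1 (he ▸ hζ), fun he => h5.2 ?_⟩
      rw [he]
      exact mem_image_of_mem g hζ
  have av1 : ∀ ζ ∈ R', ∀ τ ∈ Icc 0 s, γ τ ≠ ζ ∧ J τ ≠ g ζ := fun ζ hζ τ hτ =>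
    av ζ (hR'R hζ) τ (i1 hτ) fun _ he => hs τ hτ (he ▸ hζ)
  have av2 : ∀ ζ ∈ R', ∀ τ ∈ Icc t 1, γ τ ≠ ζ ∧ J τ ≠ g ζ := fun ζ hζ τ hτ =>
    av ζ (hR'R hζ) τ (i2 hτ) fun _ he => ht τ hτ (he ▸ hζ)
  -- the continuous function
  set C : ℂ → ℂ := fun ζ => (l (γ t, ζ) - l (γ s, ζ)) + (Vr J 0 s (g ζ) + Vr J t 1 (g ζ)) -
    (Vr γ 0 s ζ + Vr γ t 1 ζ) with hC
  have hgc : ContinuousOn g R' := hg.continuousOn.mono hR'R
  have hCc : ContinuousOn C R' := by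
    have c1 : ∀ x ∈ R, ContinuousOn (fun ζ => l (x, ζ)) R' := fun x hx =>
      hl.comp (by fun_prop) fun ζ hζ => ⟨hx, hR'R hζ⟩
    refine ((((c1 _ (hin t htmem)).sub (c1 _ (hin s hsmem))).add ?_)).sub ?_
    · exact (vr_continuousOn hs0.le (hJ.mono i1) hgc fun ζ hζ τ hτ => (av1 ζ hζ τ hτ).2).add
        (vr_continuousOn htle (hJ.mono i2) hgc fun ζ hζ τ hτ => (av2 ζ hζ τ hτ).2)
    · exact (vr_continuousOn hs0.le (hγ.mono i1) continuousOn_id
        fun ζ hζ τ hτ => (av1 ζ hζ τ hτ).1).add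
        (vr_continuousOn htle (hγ.mono i2) continuousOn_id fun ζ hζ τ hτ => (av2 ζ hζ τ hτ).1)
  have hC1 : ∀ ζ ∈ R', Complex.exp (C ζ) = 1 := by
    intro ζ hζ
    have hζR := hR'R hζ
    have e1 := exp_vr hs0.le (hJ.mono i1) fun τ hτ => (av1 ζ hζ τ hτ).2
    have e2 := exp_vr htle (hJ.mono i2) fun τ hτ => (av2 ζ hζ τ hτ).2
    have e3 := exp_vr hs0.le (hγ.mono i1) fun τ hτ => (av1 ζ hζ τ hτ).1
    have e4 := exp_vr htle (hγ.mono i2) fun τ hτ => (av2 ζ hζ τ hτ).1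
    have z0 : (0 : ℝ) ∈ Icc 0 s := ⟨le_rfl, hs0.le⟩
    have zs : s ∈ Icc 0 s := ⟨hs0.le, le_rfl⟩
    have zt : t ∈ Icc t 1 := ⟨le_rfl, htle⟩
    have z1 : (1 : ℝ) ∈ Icc t 1 := ⟨htle, le_rfl⟩
    have d1 := hl' (γ t) (hin t htmem) ζ hζR
    have d2 := hl' (γ s) (hin s hsmem) ζ hζR
    rw [← hJγ t htmem] at d1
    rw [← hJγ s hsmem] at d2
    have q1 : γ t - ζ ≠ 0 := sub_ne_zero.2 (av2 ζ hζ t zt).1
    have q2 : γ s - ζ ≠ 0 := sub_ne_zero.2 (av1 ζ hζ s zs).1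
    have q3 : J t - g ζ ≠ 0 := sub_ne_zero.2 (av2 ζ hζ t zt).2
    have q4 : J s - g ζ ≠ 0 := sub_ne_zero.2 (av1 ζ hζ s zs).2
    have q5 : γ 1 - ζ ≠ 0 := sub_ne_zero.2 (av2 ζ hζ 1 z1).1
    have q6 : J 1 - g ζ ≠ 0 := sub_ne_zero.2 (av2 ζ hζ 1 z1).2
    have f1 : Complex.exp (l (γ t, ζ)) = (J t - g ζ) / (γ t - ζ) := by
      rw [d1, mul_div_assoc, div_self q1, mul_one]
    have f2 : Complex.exp (l (γ s, ζ)) = (J s - g ζ) / (γ s - ζ) := by
      rw [d2, mul_div_assoc, div_self q2, mul_one]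
    simp only [hC]
    rw [Complex.exp_sub, Complex.exp_add, Complex.exp_sub, Complex.exp_add, Complex.exp_add,
      e1, e2, e3, e4, f1, f2, J01, γ01]
    field_simp
  -- the values at the two points
  have hval : ∀ ζ ∈ R', (∀ τ ∈ Ioo 0 c, γ τ ≠ ζ) → C ζ = Vr J 0 1 (g ζ) - Vr γ 0 1 ζ := by
    intro ζ hζ hn
    have hζR := hR'R hζ
    have hav : ∀ τ ∈ Icc (0 : ℝ) 1, γ τ ≠ ζ ∧ J τ ≠ g ζ := fun τ hτ =>
      av ζ hζR τ hτ (hn τ)
    have a1 := vr_add (z := g ζ) (by linarith : (0 : ℝ) ≤ t) htle hJ fun τ hτ => (hav τ hτ).2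
    have a2 := vr_add (z := g ζ) hs0.le hst.le (hJ.mono (Icc_subset_Icc_right htle))
      fun τ hτ => (hav τ (Icc_subset_Icc_right htle hτ)).2
    have b1 := vr_add (z := ζ) (by linarith : (0 : ℝ) ≤ t) htle hγ fun τ hτ => (hav τ hτ).1
    have b2 := vr_add (z := ζ) hs0.le hst.le (hγ.mono (Icc_subset_Icc_right htle))
      fun τ hτ => (hav τ (Icc_subset_Icc_right htle hτ)).1
    have m := vr_mul_exp (c := J) (d := γ) (z := g ζ) (w := ζ) (M := fun τ => l (γ τ, ζ)) hst.le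
      (hγ.mono i3) (fun τ hτ => (hav τ (i3 hτ)).1)
      (hl.comp (((hγ.mono i3)).prodMk continuousOn_const) fun τ hτ => ⟨hin τ (i4 hτ), hζR⟩)
      (fun τ hτ => by rw [hJγ τ (i4 hτ)]; exact hl' _ (hin τ (i4 hτ)) _ hζR)
    simp only [hC]
    rw [a1, a2, b1, b2, m]
    ring
  rw [← hval ζ₀ h₀' n₀, ← hval ζ₁ h₁' n₁]
  exact log_one_const hR'c.isPreconnected hCc hC1 h₀' h₁'

end Pool.Agent.FB018
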