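import Mathlib
import Pool.Agent.Lib.MP_018119_an_FB.VrB

/-!
# MP_018119_an, project FB, block WELD: definitions

Welding of two conformal collars.  Strip coordinate `w`; the left collar is the image of
`SL κ = {-κ < re w < 0}` under `E.symm ∘ h`, `h` holomorphic, `2 π i`-periodic, injective modulo the
period, `E` a homeomorphism of the plane.  The right collar is described in the same way, with
`-w` as the coordinate.
-/

set_option autoImplicit false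

open MeasureTheory Set Metric Filter Topology
open Complex (I exp)

noncomputable section

namespace Pool.Agent.FB018

/-- the strip -/
def SL (κ : ℝ) : Set ℂ := {w | -κ < w.re ∧ w.re < 0}

/-- One collar. -/
structure Side (κ : ℝ) (h : ℂ → ℂ) : Prop where
  κpos : 0 < κ
  hol : DifferentiableOn ℂ h (SL κ)
  per : ∀ w, h (w + 2 * Real.pi * I) = h w
  inj : ∀ w ∈ SL κ, ∀ w' ∈ SL κ, h w = h w' → ∃ n : ℤ, w' = w + n * (2 * Real.pi * I)
  bd : ∃ R, ∀ w ∈ SL κ, ‖h w‖ ≤ R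

/-- The homeomorphism is holomorphic on some nonempty open set (hence it preserves the
orientation). -/
def Pos (E : ℂ ≃ₜ ℂ) : Prop := ∃ V : Set ℂ, IsOpen V ∧ V.Nonempty ∧ DifferentiableOn ℂ E V

/-- The data of the welding problem. -/
structure Weld (κ : ℝ) (E₁ E₂ : ℂ ≃ₜ ℂ) (h₁ h₂ : ℂ → ℂ) : Prop where
  s1 : Side κ h₁
  s2 : Side κ h₂
  p1 : Pos E₁
  p2 : Pos E₂
  disj : ∀ w ∈ SL κ, ∀ w' ∈ SL κ, E₁.symm (h₁ w) ≠ E₂.symm (h₂ w')
  means : ∀ φ : ℂ → ℝ, Continuous φ → HasCompactSupport φ → ∃ τ : ℝ,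
    Tendsto (fun x : ℝ => ∫ y in (0:ℝ)..2 * Real.pi, φ (E₁.symm (h₁ (x + y * I)))) (𝓝[<] 0) (𝓝 τ) ∧
    Tendsto (fun x : ℝ => ∫ y in (0:ℝ)..2 * Real.pi, φ (E₂.symm (h₂ (x + y * I)))) (𝓝[<] 0) (𝓝 τ)

/-- the horizontal line at the height `y` has finite length near `re w = 0` -/
def Good (κ : ℝ) (h : ℂ → ℂ) (y : ℝ) : Prop :=
  IntegrableOn (fun x : ℝ => ‖deriv h (x + y * I)‖) (Ioo (-κ / 2) 0)

/-- the radial limit -/
def sx (h : ℂ → ℂ) (y : ℝ) : ℂ := limUnder (𝓝[<] (0:ℝ)) fun x : ℝ => h (x + y * I)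

/-- the radial limit exists -/
def Rl (h : ℂ → ℂ) (y : ℝ) : Prop := Tendsto (fun x : ℝ => h (x + y * I)) (𝓝[<] 0) (𝓝 (sx h y))

/-- the extension by the radial limits -/
def hx (h : ℂ → ℂ) (w : ℂ) : ℂ := if w.re < 0 then h w else sx h w.im

/-- the extended collar map -/
def ux (E : ℂ ≃ₜ ℂ) (h : ℂ → ℂ) (w : ℂ) : ℂ := E.symm (hx h w)

/-- The variation along the three sides of the rectangle `[x, 0] × [y₁, y₂]`: from `(0, y₂)` to
`(x, y₂)`, to `(x, y₁)`, to `(0, y₁)`. -/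
def Ush (u : ℂ → ℂ) (x y₁ y₂ : ℝ) (z : ℂ) : ℂ :=
  Vr (fun t : ℝ => u (t + y₁ * I)) x 0 z - Vr (fun t : ℝ => u (t + y₂ * I)) x 0 z -
    Vr (fun t : ℝ => u (x + t * I)) y₁ y₂ z

/-- the three sides -/
def Usd (u : ℂ → ℂ) (x y₁ y₂ : ℝ) : Set ℂ :=
  (fun t : ℝ => u (t + y₁ * I)) '' Icc x 0 ∪ (fun t : ℝ => u (t + y₂ * I)) '' Icc x 0 ∪
    (fun t : ℝ => u (x + t * I)) '' Icc y₁ y₂

end Pool.Agent.FB018
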