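import Mathlib
import Pool.Agent.Lib.MP_018119_an_FB.VrB
import Pool.Agent.Lib.MP_1f4a82_an.Local

/-!
# MP_018119_an, free interface: variations of logarithms under a homeomorphism
-/

set_option autoImplicit false

open Filter Topology Set Metric

namespace Pool.Agent.FB018

/-- The divided differences of a homeomorphism of the plane which is holomorphic on some nonempty
open set have a continuous logarithm off the diagonal. -/
theorem exists_hom_log (E : ℂ ≃ₜ ℂ) {V : Set ℂ} (hV : IsOpen V) (hne : V.Nonempty)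
    (hE : DifferentiableOn ℂ E V) :
    ∃ M : ℂ × ℂ → ℂ, ContinuousOn M {p | p.1 ≠ p.2} ∧
      ∀ w z, w ≠ z → E w - E z = Complex.exp (M (w, z)) * (w - z) := by
  obtain ⟨z₀, hz₀⟩ := hne
  set H : ℂ × ℂ → ℂ := fun p => (E (p.2 + Complex.exp p.1) - E p.2) / Complex.exp p.1 with hH
  have hHc : Continuous H := by
    have h1 : Continuous fun p : ℂ × ℂ => E (p.2 + Complex.exp p.1) :=
      E.continuous.comp (continuous_snd.add (Complex.continuous_exp.comp continuous_fst))
    exact (h1.sub (E.continuous.comp continuous_snd)).div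
      (Complex.continuous_exp.comp continuous_fst) fun p => Complex.exp_ne_zero _
  have hH0 : ∀ p, H p ≠ 0 := by
    intro p
    refine div_ne_zero (sub_ne_zero.2 fun h => ?_) (Complex.exp_ne_zero _)
    have h1 := E.injective h
    exact Complex.exp_ne_zero p.1 (by linear_combination h1)
  have hsc : IsSimplyConnected (univ : Set (ℂ × ℂ)) := by
    have : ContractibleSpace (univ : Set (ℂ × ℂ)) := convex_univ.contractibleSpace ⟨0, trivial⟩
    exact SimplyConnectedSpace.ofContractible _
  obtain ⟨M', hM', he'⟩ := Complex.exists_continuousOn_eqOn_exp_comp hsc isOpen_univ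
    (g := H) hHc.continuousOn (by rintro ⟨t, -, ht⟩; exact hH0 t ht)
  have hM : Continuous M' := continuousOn_univ.1 hM'
  have he : ∀ p, Complex.exp (M' p) = H p := fun p => he' (mem_univ p)
  -- the period
  have hper : ∀ u z : ℂ, M' (u + 2 * Real.pi * Complex.I, z) = M' (u, z) := by
    have hexp : ∀ p : ℂ × ℂ,
        Complex.exp (M' (p.1 + 2 * Real.pi * Complex.I, p.2) - M' p) = 1 := by
      intro p
      rw [Complex.exp_sub, he, he]
      have h1 : H (p.1 + 2 * Real.pi * Complex.I, p.2) = H p := by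
        simp only [hH]
        rw [Complex.exp_add, Complex.exp_two_pi_mul_I, mul_one]
      rw [h1]
      exact div_self (hH0 p)
    have hcont : Continuous fun p : ℂ × ℂ =>
        M' (p.1 + 2 * Real.pi * Complex.I, p.2) - M' p :=
      (hM.comp (by fun_prop)).sub hM
    -- the point where `E` is holomorphic
    obtain ⟨u₀, hu₀⟩ : ∃ u₀ : ℂ,
        M' (u₀ + 2 * Real.pi * Complex.I, z₀) - M' (u₀, z₀) = 0 := by
      have han : AnalyticAt ℂ E z₀ := hE.analyticAt (hV.mem_nhds hz₀)
      have hd : deriv E z₀ ≠ 0 := Pool.Agent.Lib.MP_1f4a82_an.deriv_ne_zero_of_injOn han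
        (U := univ) univ_mem E.injective.injOn
      set d := deriv E z₀ with hdd
      have hslope : Tendsto (slope E z₀) (𝓝[≠] z₀) (𝓝 d) :=
        hasDerivAt_iff_tendsto_slope.1 han.differentiableAt.hasDerivAt
      have hdpos : 0 < ‖d‖ := norm_pos_iff.2 hd
      obtain ⟨δ, hδ, hδ'⟩ : ∃ δ > 0, ∀ w, w ≠ z₀ → dist w z₀ < δ →
          dist (slope E z₀ w) d < ‖d‖ := by
        obtain ⟨δ, hδ, h⟩ := Metric.mem_nhdsWithin_iff.1 (hslope (ball_mem_nhds d hdpos))
        exact ⟨δ, hδ, fun w h1 h2 => h ⟨h2, h1⟩⟩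
      refine ⟨((Real.log (δ / 2) : ℝ) : ℂ), ?_⟩
      set u₀ : ℂ := ((Real.log (δ / 2) : ℝ) : ℂ) with hu
      set c : ℝ → ℂ := fun t => u₀ + t * (2 * Real.pi * Complex.I) with hc
      have hcc : Continuous c := by rw [hc]; fun_prop
      have hnorm : ∀ t : ℝ, ‖Complex.exp (c t)‖ = δ / 2 := by
        intro t
        rw [Complex.norm_exp]
        have : (c t).re = Real.log (δ / 2) := by simp [hc, hu]
        rw [this, Real.exp_log (by positivity)]
      have hHs : ∀ t : ℝ, H (c t, z₀) = slope E z₀ (z₀ + Complex.exp (c t)) := by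
        intro t
        rw [slope_def_field]
        simp only [hH]
        rw [add_sub_cancel_left]
      have hball : ∀ t : ℝ, ‖H (c t, z₀) - d‖ < ‖d‖ := by
        intro t
        rw [hHs, ← dist_eq_norm]
        refine hδ' _ ?_ ?_
        · intro h
          exact Complex.exp_ne_zero (c t) (by linear_combination h)
        · rw [dist_eq_norm, add_sub_cancel_left, hnorm]
          linarith
      have hslit : ∀ t ∈ Icc (0 : ℝ) 1, (H (c t, z₀) - 0) / d ∈ Complex.slitPlane := by
        intro t _
        refine Or.inl ?_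
        have h1 : (H (c t, z₀) - 0) / d = 1 + (H (c t, z₀) - d) / d := by field_simp; ring
        have h2 : ‖(H (c t, z₀) - d) / d‖ < 1 := by
          rw [norm_div, div_lt_one hdpos]
          exact hball t
        rw [h1, Complex.add_re, Complex.one_re]
        have h3 := (abs_lt.1 ((Complex.abs_re_le_norm _).trans_lt h2)).1
        linarith
      have e1 := vr_slit (c := fun t => H (c t, z₀)) (z := 0) zero_le_one
        (hHc.comp (by fun_prop)).continuousOn hd hslit
      have e2 := vr_eq (c := fun t => H (c t, z₀)) (z := 0) (L := fun t => M' (c t, z₀))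
        zero_le_one ⟨(hM.comp (by fun_prop)).continuousOn, fun t _ => by rw [he, sub_zero]⟩
      have h01 : H (c 1, z₀) = H (c 0, z₀) := by
        have h1 : Complex.exp (c 1) = Complex.exp (c 0) := by
          simp only [hc]
          rw [Complex.ofReal_one, one_mul, Complex.ofReal_zero, zero_mul, add_zero,
            Complex.exp_add, Complex.exp_two_pi_mul_I, mul_one]
        simp only [hH, h1]
      rw [h01, sub_self] at e1
      rw [e1] at e2
      have c1 : c 1 = u₀ + 2 * Real.pi * Complex.I := by simp [hc]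
      have c0 : c 0 = u₀ := by simp [hc]
      rw [c1, c0] at e2
      exact e2.symm
    intro u z
    have h1 := log_one_const (S := (univ : Set (ℂ × ℂ))) isPreconnected_univ
      hcont.continuousOn (fun p _ => hexp p) (mem_univ (u, z)) (mem_univ (u₀, z₀))
    simp only at h1
    rw [hu₀] at h1
    exact sub_eq_zero.1 h1
  have hperZ : ∀ (n : ℤ) (u z : ℂ), M' (u + n * (2 * Real.pi * Complex.I), z) = M' (u, z) := by
    intro n u z
    have h1 : Function.Periodic (fun u => M' (u, z)) (2 * Real.pi * Complex.I) :=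
      fun u => hper u z
    exact h1.int_mul n u
  refine ⟨fun p => M' (Complex.log (p.1 - p.2), p.2), ?_, ?_⟩
  · rintro ⟨w₀, z₁⟩ hp
    have hne : w₀ - z₁ ≠ 0 := sub_ne_zero.2 hp
    refine ContinuousAt.continuousWithinAt ?_
    set U : ℂ × ℂ → ℂ := fun p => Complex.log ((p.1 - p.2) / (w₀ - z₁)) + Complex.log (w₀ - z₁)
      with hU
    have hUc : ContinuousAt U (w₀, z₁) := by
      refine ContinuousAt.add (ContinuousAt.clog (by fun_prop) ?_) continuousAt_const
      simp [div_self hne]
    have h2 : ContinuousAt (fun p : ℂ × ℂ => M' (U p, p.2)) (w₀, z₁) :=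
      hM.continuousAt.comp (hUc.prodMk continuousAt_snd)
    refine h2.congr ?_
    have h3 : ∀ᶠ p : ℂ × ℂ in 𝓝 (w₀, z₁), p.1 ≠ p.2 :=
      (isOpen_ne_fun continuous_fst continuous_snd).mem_nhds hp
    filter_upwards [h3] with p hp'
    have hne' : p.1 - p.2 ≠ 0 := sub_ne_zero.2 hp'
    have h4 : Complex.exp (U p) = Complex.exp (Complex.log (p.1 - p.2)) := by
      simp only [hU]
      rw [Complex.exp_add, Complex.exp_log (div_ne_zero hne' hne), Complex.exp_log hne,
        Complex.exp_log hne', div_mul_cancel₀ _ hne]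
    obtain ⟨n, hn⟩ := Complex.exp_eq_exp_iff_exists_int.1 h4
    rw [hn, hperZ]
  · intro w z hwz
    have hne : w - z ≠ 0 := sub_ne_zero.2 hwz
    rw [he]
    simp only [hH]
    rw [Complex.exp_log hne, div_mul_cancel₀ _ hne, add_sub_cancel]

/-- The variation under a homeomorphism, `M` as in `exists_hom_log`. -/
theorem vr_hom {E : ℂ ≃ₜ ℂ} {M : ℂ × ℂ → ℂ} (hM : ContinuousOn M {p | p.1 ≠ p.2})
    (h : ∀ w z, w ≠ z → E w - E z = Complex.exp (M (w, z)) * (w - z)) {c : ℝ → ℂ} {a b : ℝ}
    {z : ℂ} (hab : a ≤ b) (hc : ContinuousOn c (Icc a b)) (hz : ∀ t ∈ Icc a b, c t ≠ z) :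
    Vr (fun t => E (c t)) a b (E z) = Vr c a b z + (M (c b, z) - M (c a, z)) :=
  vr_mul_exp (M := fun t => M (c t, z)) hab hc hz
    (hM.comp (hc.prodMk continuousOn_const) fun t ht => hz t ht)
    fun t ht => h _ _ (hz t ht)

/-- The index of a closed curve is invariant. -/
theorem vr_hom_closed {E : ℂ ≃ₜ ℂ} {V : Set ℂ} (hV : IsOpen V) (hne : V.Nonempty)
    (hE : DifferentiableOn ℂ E V) {c : ℝ → ℂ} {a b : ℝ}
    {z : ℂ} (hab : a ≤ b) (hc : ContinuousOn c (Icc a b)) (hz : ∀ t ∈ Icc a b, c t ≠ z)
    (hcl : c a = c b) : Vr (fun t => E (c t)) a b (E z) = Vr c a b z := by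
  obtain ⟨M, hM, h⟩ := exists_hom_log E hV hne hE
  rw [vr_hom hM h hab hc hz, hcl]
  ring

end Pool.Agent.FB018
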