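import Pool.Agent.Lib.MP_018119_an_FB.WAEnd

/-!
# FB, block WELD: the law of the radial limits
-/

set_option autoImplicit false

open Topology Filter Set Metric MeasureTheory

namespace Pool.Agent.FB018

instance mu2_prob : IsProbabilityMeasure mu2 := by
  constructor
  rw [mu2, Measure.smul_apply, Measure.restrict_apply_univ, Real.volume_Ioc, sub_zero, smul_eq_mul]
  exact ENNReal.inv_mul_cancel (ENNReal.ofReal_pos.mpr Real.two_pi_pos).ne' ENNReal.ofReal_ne_top

theorem mu2_ac : mu2 ≪ (volume : Measure ℝ) := by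
  rw [mu2]
  exact (Measure.smul_absolutelyContinuous).trans Measure.absolutelyContinuous_restrict |>.trans
    Measure.AbsolutelyContinuous.rfl

theorem mu2_ae {P : ℝ → Prop} (h : ∀ᵐ y : ℝ, P y) : ∀ᵐ y ∂mu2, P y := mu2_ac.ae_le h

/-- `2π`-periodic properties. -/
theorem ae_of_mu2 {P : ℝ → Prop} (hP : ∀ y, P (y + 2 * Real.pi) ↔ P y)
    (h : ∀ᵐ y ∂mu2, P y) : ∀ᵐ y : ℝ, P y := by
  refine ae_of_period hP ?_
  rw [ae_iff] at h ⊢
  rw [mu2, Measure.smul_apply, smul_eq_mul, mul_eq_zero] at h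
  rcases h with h | h
  · exact absurd h (ENNReal.inv_ne_zero.mpr ENNReal.ofReal_ne_top)
  · exact h

theorem integral_mu2 (f : ℝ → ℝ) :
    ∫ y, f y ∂mu2 = (2 * Real.pi)⁻¹ * ∫ y in (0 : ℝ)..(2 * Real.pi), f y := by
  rw [mu2, integral_smul_measure, intervalIntegral.integral_of_le Real.two_pi_pos.le,
    ENNReal.toReal_inv, ENNReal.toReal_ofReal Real.two_pi_pos.le, smul_eq_mul]

/-- Convergence of the means. -/
theorem law_tend {h : ℝ → ℝ → ℂ} {u : ℝ → ℂ}
    (hc : ∀ᶠ x in 𝓝[>] (0 : ℝ), Continuous (fun y => h x y))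
    (hu : ∀ᵐ y : ℝ, Tendsto (fun x => h x y) (𝓝[>] (0 : ℝ)) (𝓝 (u y)))
    {φ : ℂ → ℝ} (hφ : Continuous φ) {C : ℝ}
    (hφC : ∀ᶠ x in 𝓝[>] (0 : ℝ), ∀ y, |φ (h x y)| ≤ C) :
    Tendsto (fun x => ∫ y, φ (h x y) ∂mu2) (𝓝[>] (0 : ℝ)) (𝓝 (∫ y, φ (u y) ∂mu2)) := by
  refine tendsto_integral_filter_of_dominated_convergence (fun _ => C) ?_ ?_ ?_ ?_
  · filter_upwards [hc] with x hx
    exact (hφ.comp hx).aestronglyMeasurable
  · filter_upwards [hφC] with x hx
    exact Eventually.of_forall fun y => by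
      rw [Real.norm_eq_abs]; exact hx _
  · exact integrable_const C
  · refine mu2_ae ?_
    filter_upwards [hu] with y hy
    exact (hφ.tendsto _).comp hy

/-- Two laws agree if the integrals of the test functions agree. -/
theorem law_ext {u v : ℝ → ℂ} (hu : AEMeasurable u mu2) (hv : AEMeasurable v mu2)
    (h : ∀ φ : ℂ → ℝ, Continuous φ → HasCompactSupport φ →
      ∫ y, φ (u y) ∂mu2 = ∫ y, φ (v y) ∂mu2) :
    Measure.map u mu2 = Measure.map v mu2 := by
  have : IsProbabilityMeasure (Measure.map u mu2) := Measure.isProbabilityMeasure_map hu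
  have : IsProbabilityMeasure (Measure.map v mu2) := Measure.isProbabilityMeasure_map hv
  refine Measure.ext_of_integral_eq_on_compactlySupported (fun φ => ?_)
  have h1 := h φ φ.continuous φ.hasCompactSupport
  have h2 : Continuous (fun z => φ z) := φ.continuous
  rw [integral_map hu (f := fun z => φ z) h2.aestronglyMeasurable,
    integral_map hv (f := fun z => φ z) h2.aestronglyMeasurable]
  exact h1

/-- The law is the given measure. -/
theorem law_eq {u : ℝ → ℂ} (hu : AEMeasurable u mu2) {T : Measure ℂ} [IsFiniteMeasure T]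
    (h : ∀ φ : ℂ → ℝ, Continuous φ → HasCompactSupport φ →
      ∫ y, φ (u y) ∂mu2 = ∫ z, φ z ∂T) : Measure.map u mu2 = T := by
  have : IsProbabilityMeasure (Measure.map u mu2) := Measure.isProbabilityMeasure_map hu
  refine Measure.ext_of_integral_eq_on_compactlySupported (fun φ => ?_)
  have h1 := h φ φ.continuous φ.hasCompactSupport
  have h2 : Continuous (fun z => φ z) := φ.continuous
  rw [integral_map hu (f := fun z => φ z) h2.aestronglyMeasurable]
  exact h1

/-- A continuous function with compact support is bounded. -/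
theorem cc_bdd {φ : ℂ → ℝ} (hφ : Continuous φ) (hc : HasCompactSupport φ) :
    ∃ C, ∀ z, |φ z| ≤ C := by
  obtain ⟨C, hC⟩ := hc.exists_bound_of_continuous hφ
  exact ⟨C, fun z => by simpa using hC z⟩

end Pool.Agent.FB018
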