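import Pool.Agent.Lib.MP_018119_an_FB.WACol
import Pool.Agent.Lib.MP_018119_an_FB.WALaw

/-!
# FB, block WELD: no atoms

For a holomorphic function without zeros on the strip, `2πi`-periodic, the mean of `log |f|` on a
vertical segment is an affine function of the abscissa. Fatou.
-/

set_option autoImplicit false

open Topology Filter Set Metric MeasureTheory
open Complex (I exp)

namespace Pool.Agent.FB018

theorem convex_SL (κ : ℝ) : Convex ℝ (SL κ) := by
  have h1 : SL κ = Complex.reLm ⁻¹' (Ioo (-κ) 0) := by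
    ext w
    simp [SL]
  rw [h1]
  exact (convex_Ioo _ _).linear_preimage _

/-- A holomorphic logarithm on the strip. -/
theorem exists_hlog {κ : ℝ} (hκ : 0 < κ) {f : ℂ → ℂ} (hf : DifferentiableOn ℂ f (SL κ))
    (h0 : ∀ w ∈ SL κ, f w ≠ 0) :
    ∃ l : ℂ → ℂ, DifferentiableOn ℂ l (SL κ) ∧ ∀ w ∈ SL κ, exp (l w) = f w := by
  have hne : (SL κ).Nonempty := ⟨((-κ / 2 : ℝ) : ℂ), by
    constructor
    · show -κ < (((-κ / 2 : ℝ) : ℂ)).re
      rw [Complex.ofReal_re]; linarith
    · show (((-κ / 2 : ℝ) : ℂ)).re < 0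
      rw [Complex.ofReal_re]; linarith⟩
  have hsc : IsSimplyConnected (SL κ) := by
    have : ContractibleSpace (SL κ : Set ℂ) := (convex_SL κ).contractibleSpace hne
    exact SimplyConnectedSpace.ofContractible _
  obtain ⟨l, hl, hl'⟩ := Complex.exists_continuousOn_eqOn_exp_comp hsc (open_SL κ) hf.continuousOn
    (by rintro ⟨p, hp, h⟩; exact h0 p hp h)
  refine ⟨l, ?_, fun w hw => hl' hw⟩
  intro w hw
  have hwo := (open_SL κ).mem_nhds hw
  -- near `w`, `l z = l w + log (f z / f w)`
  have h1 : ∀ᶠ z in 𝓝 w, dist (l z) (l w) < 1 :=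
    (hl.continuousAt hwo).eventually (ball_mem_nhds _ one_pos)
  have h2 : (fun z => l w + Complex.log (f z / f w)) =ᶠ[𝓝 w] l := by
    filter_upwards [h1, hwo] with z hz hzS
    have e1 : f z / f w = exp (l z - l w) := by
      rw [Complex.exp_sub]
      have a1 : exp (l z) = f z := hl' hzS
      have a2 : exp (l w) = f w := hl' hw
      rw [a1, a2]
    have him : |(l z - l w).im| < 1 := by
      rw [dist_eq_norm] at hz
      exact (Complex.abs_im_le_norm _).trans_lt hz
    rw [abs_lt] at him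
    have hpi := Real.pi_gt_three
    rw [e1, Complex.log_exp (by linarith [him.1]) (by linarith [him.2])]
    ring
  have h3 : DifferentiableAt ℂ (fun z => l w + Complex.log (f z / f w)) w := by
    have a1 : DifferentiableAt ℂ f w := hf.differentiableAt hwo
    have a2 : f w / f w = 1 := div_self (h0 w hw)
    have a3 : DifferentiableAt ℂ Complex.log (f w / f w) := by
      rw [a2]
      exact (Complex.hasStrictDerivAt_log Complex.one_mem_slitPlane).hasDerivAt.differentiableAt
    have a4 : DifferentiableAt ℂ (fun z => f z / f w) w := a1.div_const _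
    have a5 : DifferentiableAt ℂ (fun z => Complex.log (f z / f w)) w :=
      DifferentiableAt.comp (g := Complex.log) (f := fun z => f z / f w) w a3 a4
    exact (differentiableAt_const _).add a5
  exact (h3.congr_of_eventuallyEq h2.symm).differentiableWithinAt

/-- The mean of a periodic holomorphic function on vertical segments is constant. -/
theorem mean_const {κ : ℝ} {P : ℂ → ℂ} (hP : DifferentiableOn ℂ P (SL κ))
    (hper : ∀ w ∈ SL κ, P (w + 2 * Real.pi * I) = P w) {x x' : ℝ} (hx : x ∈ Ioo (-κ) 0)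
    (hx' : x' ∈ Ioo (-κ) 0) :
    ∫ y in (0 : ℝ)..(2 * Real.pi), P (x + y * I) = ∫ y in (0 : ℝ)..(2 * Real.pi), P (x' + y * I) := by
  have h1 := Complex.integral_boundary_rect_eq_zero_of_differentiableOn P (x : ℂ)
    (x' + (2 * Real.pi : ℝ) * I) ?_
  · simp only [Complex.ofReal_re, Complex.ofReal_im, Complex.add_re, Complex.add_im,
      Complex.mul_re, Complex.mul_im, Complex.I_re, Complex.I_im, mul_zero, mul_one, sub_zero,
      add_zero, zero_add] at h1
    have h2 : ∫ t in x..x', P ((t : ℂ) + ((0 : ℝ) : ℂ) * I) =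
        ∫ t in x..x', P ((t : ℂ) + ((2 * Real.pi : ℝ) : ℂ) * I) := by
      refine intervalIntegral.integral_congr fun t ht => ?_
      have ht2 : (t : ℂ) ∈ SL κ := by
        have h3 : t ∈ Ioo (-κ) 0 := by
          rw [mem_uIcc] at ht
          rcases ht with ht | ht
          · exact ⟨hx.1.trans_le ht.1, ht.2.trans_lt hx'.2⟩
          · exact ⟨hx'.1.trans_le ht.1, ht.2.trans_lt hx.2⟩
        exact ⟨by simpa using h3.1, by simpa using h3.2⟩
      have h4 := hper t ht2
      have h5 : (t : ℂ) + ((2 * Real.pi : ℝ) : ℂ) * I = t + 2 * Real.pi * I := by push_cast; ring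
      show P ((t : ℂ) + ((0 : ℝ) : ℂ) * I) = P ((t : ℂ) + ((2 * Real.pi : ℝ) : ℂ) * I)
      rw [h5, h4]
      simp
    rw [h2, sub_self, zero_add] at h1
    have h3 := sub_eq_zero.mp h1
    exact (smul_right_injective ℂ Complex.I_ne_zero h3).symm
  · refine hP.mono ?_
    intro w hw
    rw [Complex.mem_reProdIm] at hw
    have h2 := hw.1
    simp only [Complex.ofReal_re, Complex.add_re, Complex.mul_re, Complex.I_re, Complex.I_im,
      Complex.ofReal_im, mul_zero, mul_one, sub_zero, add_zero] at h2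
    rw [mem_uIcc] at h2
    rcases h2 with h2 | h2
    · exact ⟨hx.1.trans_le h2.1, h2.2.trans_lt hx'.2⟩
    · exact ⟨hx'.1.trans_le h2.1, h2.2.trans_lt hx.2⟩

theorem cont_vert {κ : ℝ} {l : ℂ → ℂ} (hl : ContinuousOn l (SL κ)) {x : ℝ} (hx : x ∈ Ioo (-κ) 0) :
    Continuous (fun y : ℝ => l (x + y * I)) := by
  have h1 : Continuous (fun y : ℝ => ((x : ℂ) + y * I)) := by fun_prop
  exact hl.comp_continuous h1 (fun y => mem_SL_iff.mpr hx)

/-- The means of `log |f|` are affine. -/
theorem mean_log {κ : ℝ} (hκ : 0 < κ) {f : ℂ → ℂ} (hf : DifferentiableOn ℂ f (SL κ))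
    (h0 : ∀ w ∈ SL κ, f w ≠ 0) (hper : ∀ w, f (w + 2 * Real.pi * I) = f w) :
    ∃ B : ℝ, ∀ x ∈ Ioo (-κ) 0, ∀ x' ∈ Ioo (-κ) 0,
      (∫ y in (0 : ℝ)..(2 * Real.pi), Real.log ‖f (x + y * I)‖) -
        ∫ y in (0 : ℝ)..(2 * Real.pi), Real.log ‖f (x' + y * I)‖ = B * (x - x') := by
  obtain ⟨l, hl, hle⟩ := exists_hlog hκ hf h0
  have hsh : ∀ w ∈ SL κ, w + 2 * Real.pi * I ∈ SL κ := by
    intro w hw
    have h1 : (w + 2 * Real.pi * I).re = w.re := by simp
    exact ⟨by rw [h1]; exact hw.1, by rw [h1]; exact hw.2⟩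
  -- the period of the logarithm
  have hQ : ∀ w ∈ SL κ, ∀ w' ∈ SL κ,
      l (w + 2 * Real.pi * I) - l w = l (w' + 2 * Real.pi * I) - l w' := by
    intro w hw w' hw'
    refine log_one_const (S := SL κ) (M := fun w => l (w + 2 * Real.pi * I) - l w)
      (convex_SL κ).isPreconnected ?_ ?_ hw hw'
    · refine ContinuousOn.sub ?_ hl.continuousOn
      have h1 : Continuous (fun w : ℂ => w + 2 * Real.pi * I) := by fun_prop
      exact hl.continuousOn.comp h1.continuousOn hsh
    · intro t ht
      show exp (l (t + 2 * Real.pi * I) - l t) = 1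
      rw [Complex.exp_sub, hle _ (hsh t ht), hle t ht, hper, div_self (h0 t ht)]
  set w₀ : ℂ := ((-κ / 2 : ℝ) : ℂ) with hw₀
  have hw₀m : w₀ ∈ SL κ := by
    constructor
    · show -κ < (((-κ / 2 : ℝ) : ℂ)).re
      rw [Complex.ofReal_re]; linarith
    · show (((-κ / 2 : ℝ) : ℂ)).re < 0
      rw [Complex.ofReal_re]; linarith
  set c : ℂ := l (w₀ + 2 * Real.pi * I) - l w₀ with hc
  set e : ℂ := c / (2 * Real.pi * I) with he
  have h2pi : (2 * Real.pi * I : ℂ) ≠ 0 := by
    have : (Real.pi : ℂ) ≠ 0 := by exact_mod_cast Real.pi_ne_zero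
    simp [this]
  have hP : DifferentiableOn ℂ (fun w => l w - e * w) (SL κ) :=
    hl.sub ((differentiable_id.const_mul e).differentiableOn)
  have hPper : ∀ w ∈ SL κ, (fun w => l w - e * w) (w + 2 * Real.pi * I) =
      (fun w => l w - e * w) w := by
    intro w hw
    have h1 := hQ w hw w₀ hw₀m
    have h2 : e * (2 * Real.pi * I) = c := div_mul_cancel₀ _ h2pi
    show l (w + 2 * Real.pi * I) - e * (w + 2 * Real.pi * I) = l w - e * w
    have h3 : l (w + 2 * Real.pi * I) = l w + c := by rw [hc, ← h1]; ring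
    rw [h3, mul_add, h2]
    ring
  refine ⟨(e * (2 * Real.pi)).re, fun x hx x' hx' => ?_⟩
  have hlog : ∀ x ∈ Ioo (-κ) 0, ∫ y in (0 : ℝ)..(2 * Real.pi), Real.log ‖f (x + y * I)‖ =
      (∫ y in (0 : ℝ)..(2 * Real.pi), l (x + y * I)).re := by
    intro x hx
    have h1 : ∀ y : ℝ, Real.log ‖f (x + y * I)‖ = (l (x + y * I)).re := by
      intro y
      rw [← hle _ (mem_SL_iff.mpr hx), Complex.norm_exp, Real.log_exp]
    simp only [h1]
    have h2 := Complex.reCLM.intervalIntegral_comp_comm
      ((cont_vert hl.continuousOn hx).intervalIntegrable (μ := volume) 0 (2 * Real.pi))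
    simpa using h2
  have hsplit : ∀ x ∈ Ioo (-κ) 0, ∫ y in (0 : ℝ)..(2 * Real.pi), l (x + y * I) =
      (∫ y in (0 : ℝ)..(2 * Real.pi), (fun w => l w - e * w) (x + y * I)) +
        (e * x * (2 * Real.pi) + ∫ y in (0 : ℝ)..(2 * Real.pi), e * (y * I)) := by
    intro x hx
    have i1 : IntervalIntegrable (fun y : ℝ => (fun w => l w - e * w) (x + y * I)) volume 0
        (2 * Real.pi) :=
      (cont_vert hP.continuousOn hx).intervalIntegrable _ _
    have i2 : IntervalIntegrable (fun y : ℝ => e * x) volume 0 (2 * Real.pi) :=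
      intervalIntegrable_const
    have i3 : IntervalIntegrable (fun y : ℝ => e * (y * I)) volume 0 (2 * Real.pi) := by
      have : Continuous (fun y : ℝ => e * (y * I)) := by fun_prop
      exact this.intervalIntegrable _ _
    have h1 : ∫ y in (0 : ℝ)..(2 * Real.pi), e * (x : ℂ) = e * x * (2 * Real.pi) := by
      rw [intervalIntegral.integral_const, sub_zero, Complex.real_smul]
      push_cast
      ring
    rw [← h1, ← intervalIntegral.integral_add i2 i3, ← intervalIntegral.integral_add i1 (i2.add i3)]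
    refine intervalIntegral.integral_congr fun y _ => ?_
    show l (x + y * I) = (l (x + y * I) - e * (x + y * I)) + (e * x + e * (y * I))
    ring
  rw [hlog x hx, hlog x' hx', ← Complex.sub_re, hsplit x hx, hsplit x' hx',
    mean_const hP hPper hx hx']
  have h1 : ∀ A D : ℂ, A + (e * x * (2 * Real.pi) + D) - (A + (e * x' * (2 * Real.pi) + D)) =
      (e * (2 * Real.pi)) * ((x - x' : ℝ) : ℂ) := by
    intro A D
    push_cast
    ring
  rw [h1, Complex.mul_re, Complex.ofReal_re, Complex.ofReal_im, mul_zero, sub_zero]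

/-- The limit along a sequence is almost never a value which is not taken. -/
theorem Side.no_atom_aux {κ : ℝ} {h : ℂ → ℂ} (hS : Side κ h) {z₀ : ℂ}
    (h0 : ∀ w ∈ SL κ, h w ≠ z₀) {xn : ℕ → ℝ} (hxn : ∀ n, xn n ∈ Ioo (-κ) 0) :
    ∀ᵐ y : ℝ ∂(volume.restrict (Ioc 0 (2 * Real.pi))),
      ¬ Tendsto (fun n => h (xn n + y * I)) atTop (𝓝 z₀) := by
  have hκ := hS.κpos
  obtain ⟨R, hR⟩ := hS.bd
  have hR0 : 0 ≤ R := (norm_nonneg _).trans (hR _ ((mem_SL_iff (y := 0)).mpr (hxn 0)))
  set f : ℂ → ℂ := fun w => h w - z₀ with hf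
  have hfd : DifferentiableOn ℂ f (SL κ) := hS.hol.sub_const _
  have hf0 : ∀ w ∈ SL κ, f w ≠ 0 := fun w hw => sub_ne_zero.mpr (h0 w hw)
  have hfper : ∀ w, f (w + 2 * Real.pi * I) = f w := fun w => by simp only [hf, hS.per]
  obtain ⟨B, hB⟩ := mean_log hκ hfd hf0 hfper
  set C : ℝ := Real.log (R + ‖z₀‖ + 1) with hC
  have hCle : ∀ w ∈ SL κ, Real.log ‖f w‖ ≤ C := by
    intro w hw
    refine Real.log_le_log (norm_pos_iff.mpr (hf0 w hw)) ?_
    have := norm_sub_le (h w) z₀
    linarith [hR w hw]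
  have hcont : ∀ n, Continuous (fun y : ℝ => C - Real.log ‖f (xn n + y * I)‖) := by
    intro n
    refine continuous_const.sub ?_
    refine (cont_vert hfd.continuousOn (hxn n)).norm.log fun y => ?_
    exact (norm_pos_iff.mpr (hf0 _ (mem_SL_iff.mpr (hxn n)))).ne'
  set k : ℕ → ℝ → ENNReal := fun n y => ENNReal.ofReal (C - Real.log ‖f (xn n + y * I)‖) with hk
  have hkm : ∀ n, Measurable (k n) := fun n => (hcont n).measurable.ennreal_ofReal
  set M : ℕ → ℝ := fun n => ∫ y in (0 : ℝ)..(2 * Real.pi), Real.log ‖f (xn n + y * I)‖ with hM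
  set D : ℝ := 2 * Real.pi * |C| + |M 0| + |B| * κ with hD
  have hkn : ∀ n, ∫⁻ y in Ioc 0 (2 * Real.pi), k n y ≤ ENNReal.ofReal D := by
    intro n
    have hint : IntegrableOn (fun y : ℝ => C - Real.log ‖f (xn n + y * I)‖)
        (Ioc 0 (2 * Real.pi)) := (hcont n).integrableOn_Ioc
    have h1 := ofReal_integral_eq_lintegral_ofReal hint
      (Eventually.of_forall fun y => sub_nonneg.mpr (hCle _ (mem_SL_iff.mpr (hxn n))))
    rw [← h1]
    refine ENNReal.ofReal_le_ofReal ?_
    rw [← intervalIntegral.integral_of_le Real.two_pi_pos.le, intervalIntegral.integral_sub]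
    · rw [intervalIntegral.integral_const, sub_zero, smul_eq_mul]
      have h2 := hB _ (hxn n) _ (hxn 0)
      have h3 : M n = M 0 + B * (xn n - xn 0) := by
        have : M n - M 0 = B * (xn n - xn 0) := h2
        linarith
      show 2 * Real.pi * C - M n ≤ D
      rw [h3]
      have h4 : |xn n - xn 0| ≤ κ := by
        rw [abs_le]
        constructor
        · linarith [(hxn n).1, (hxn 0).2]
        · linarith [(hxn n).2, (hxn 0).1]
      have h5 : |B * (xn n - xn 0)| ≤ |B| * κ := by
        rw [abs_mul]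
        exact mul_le_mul_of_nonneg_left h4 (abs_nonneg _)
      have h6 := neg_abs_le (B * (xn n - xn 0))
      have h7 := neg_abs_le (M 0)
      have h8 : 2 * Real.pi * C ≤ 2 * Real.pi * |C| :=
        mul_le_mul_of_nonneg_left (le_abs_self C) Real.two_pi_pos.le
      linarith
    · exact continuous_const.intervalIntegrable _ _
    · have h9 : Continuous (fun y : ℝ => Real.log ‖f (xn n + y * I)‖) := by
        have h10 := (continuous_const (y := C)).sub (hcont n)
        refine h10.congr fun y => ?_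
        simp
      exact h9.intervalIntegrable _ _
  have hfatou : ∫⁻ y in Ioc 0 (2 * Real.pi), liminf (fun n => k n y) atTop ≤ ENNReal.ofReal D := by
    refine (lintegral_liminf_le hkm).trans ?_
    refine liminf_le_of_frequently_le' (Frequently.of_forall hkn)
  have hfin : ∀ᵐ y ∂(volume.restrict (Ioc 0 (2 * Real.pi))), liminf (fun n => k n y) atTop < ⊤ :=
    ae_lt_top (Measurable.liminf hkm) (hfatou.trans_lt ENNReal.ofReal_lt_top).ne
  filter_upwards [hfin] with y hy hcon
  have h1 : Tendsto (fun n => ‖f (xn n + y * I)‖) atTop (𝓝[>] 0) := by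
    rw [tendsto_nhdsWithin_iff]
    constructor
    · have h2 : Tendsto (fun n => f (xn n + y * I)) atTop (𝓝 (z₀ - z₀)) := hcon.sub_const z₀
      rw [sub_self] at h2
      simpa using h2.norm
    · exact Eventually.of_forall fun n => norm_pos_iff.mpr (hf0 _ (mem_SL_iff.mpr (hxn n)))
  have h2 : Tendsto (fun n => C - Real.log ‖f (xn n + y * I)‖) atTop atTop := by
    have h3 := Real.tendsto_log_nhdsGT_zero.comp h1
    have h4 := (tendsto_neg_atBot_atTop.comp h3)
    have h5 := tendsto_atTop_add_const_left atTop C h4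
    refine h5.congr fun n => ?_
    simp only [Function.comp_apply]
    ring
  have h3 : Tendsto (fun n => k n y) atTop (𝓝 ⊤) := ENNReal.tendsto_ofReal_atTop.comp h2
  rw [h3.liminf_eq] at hy
  exact lt_irrefl _ hy

end Pool.Agent.FB018
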