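import Pool.Agent.Lib.MP_018119_an_FB.WAEnd

/-!
# FB, block WELD: small boxes
-/

set_option autoImplicit false

open Topology Filter Set Metric MeasureTheory

namespace Pool.Agent.FB018

variable {h : ℝ → ℝ → ℂ} {ρ : ℝ → ℝ → ℝ} {b : ℝ}

/-- The area of a thin collar tends to zero. -/
theorem HC.area_tend (H : HC h ρ b) (c : ℝ) :
    Tendsto (fun δ => ∫⁻ y in Ioc c (c + 2 * Real.pi), ∫⁻ x in Ioo 0 δ, ENNReal.ofReal (ρ x y) ^ 2)
      (𝓝[>] (0 : ℝ)) (𝓝 0) := by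
  have h0 : Tendsto (fun δ => ∫⁻ y in Ioc c (c + 2 * Real.pi),
      ∫⁻ x in Ioo 0 δ, ENNReal.ofReal (ρ x y) ^ 2) (𝓝[>] (0 : ℝ))
      (𝓝 (∫⁻ _ in Ioc c (c + 2 * Real.pi), 0)) := by
    refine tendsto_lintegral_filter_of_dominated_convergence
      (fun y => ∫⁻ x in Ioo 0 b, ENNReal.ofReal (ρ x y) ^ 2) ?_ ?_ (H.win c) ?_
    · exact Eventually.of_forall fun δ => H.gmeas (Ioo 0 δ)
    · filter_upwards [Ioo_mem_nhdsGT H.pos] with δ hδ
      exact Eventually.of_forall fun y => lintegral_mono_set (Ioo_subset_Ioo_right hδ.2.le)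
    · refine ae_restrict_of_ae ?_
      filter_upwards [H.ae_fin] with y hy
      have h1 : Tendsto ((volume.restrict (Ioo 0 b)) ∘ fun x : ℝ => Ioo 0 x)
          (𝓝[>] (0 : ℝ)) (𝓝 0) := by
        have h2 : Tendsto (fun x : ℝ => ENNReal.ofReal x) (𝓝[>] (0 : ℝ)) (𝓝 0) := by
          have h3 := (ENNReal.continuous_ofReal.tendsto 0).mono_left
            (nhdsWithin_le_nhds (s := Ioi (0 : ℝ)))
          rwa [ENNReal.ofReal_zero] at h3
        refine tendsto_of_tendsto_of_tendsto_of_le_of_le tendsto_const_nhds h2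
          (fun _ => bot_le) ?_
        intro x
        show (volume.restrict (Ioo 0 b)) (Ioo 0 x) ≤ ENNReal.ofReal x
        refine (Measure.restrict_apply_le _ _).trans ?_
        rw [Real.volume_Ioo, sub_zero]
      have h2 := tendsto_setLIntegral_zero (μ := volume.restrict (Ioo 0 b)) hy h1
      refine h2.congr' ?_
      filter_upwards [Ioo_mem_nhdsGT H.pos] with x hx
      rw [Measure.restrict_restrict measurableSet_Ioo]
      congr 2
      exact inter_eq_left.mpr (Ioo_subset_Ioo_right hx.2.le)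
  simpa using h0

/-- Most angles near any point have a short radial end, most radii have a short arc. -/
theorem HC.most (H : HC h ρ b) {η : ℝ} (hη : 0 < η) :
    ∀ᶠ δ in 𝓝[>] (0 : ℝ), ∀ c : ℝ,
      volume {y ∈ Ioo c (c + δ) | ENNReal.ofReal η ≤
        ∫⁻ x in Ioo 0 (2 * δ), ENNReal.ofReal (ρ x y)} ≤ ENNReal.ofReal (δ / 8) ∧
      volume {x ∈ Ioo δ (2 * δ) | ENNReal.ofReal η ≤
        ∫⁻ y in Ioo c (c + 4 * δ), ENNReal.ofReal (ρ x y)} ≤ ENNReal.ofReal (δ / 4) := by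
  have hpi := Real.pi_gt_three
  have h2δ : Tendsto (fun δ : ℝ => 2 * δ) (𝓝[>] (0 : ℝ)) (𝓝[>] (0 : ℝ)) := by
    rw [tendsto_nhdsWithin_iff]
    constructor
    · have h1 : Tendsto (fun δ : ℝ => 2 * δ) (𝓝 0) (𝓝 (2 * 0)) :=
        (continuous_const.mul continuous_id).tendsto 0
      rw [mul_zero] at h1
      exact h1.mono_left nhdsWithin_le_nhds
    · filter_upwards [self_mem_nhdsWithin] with δ hδ
      have : (0 : ℝ) < δ := hδ
      show (0 : ℝ) < 2 * δ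
      linarith
  have hA := (H.area_tend 0).comp h2δ
  have hε : (0 : ENNReal) < ENNReal.ofReal (η ^ 2 / 16) := ENNReal.ofReal_pos.mpr (by positivity)
  filter_upwards [hA.eventually_lt_const hε, Ioo_mem_nhdsGT (show (0 : ℝ) < 1 by norm_num)]
    with δ hδA hδ1
  have hδ0 : 0 < δ := hδ1.1
  simp only [Function.comp_apply] at hδA
  have hwin : ∀ {c d : ℝ}, d ≤ c + 4 * δ →
      ∫⁻ y in Ioo c d, ∫⁻ x in Ioo 0 (2 * δ), ENNReal.ofReal (ρ x y) ^ 2 ≤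
        ENNReal.ofReal (η ^ 2 / 16) := by
    intro c d hd
    have h0 : ∫⁻ y in Ioc c (c + 2 * Real.pi), ∫⁻ x in Ioo 0 (2 * δ), ENNReal.ofReal (ρ x y) ^ 2 =
        ∫⁻ y in Ioc 0 (0 + 2 * Real.pi),
          ∫⁻ x in Ioo 0 (2 * δ), ENNReal.ofReal (ρ x y) ^ 2 := by
      have hper : ∀ y, (fun y => ∫⁻ x in Ioo 0 (2 * δ), ENNReal.ofReal (ρ x y) ^ 2)
          (y + 2 * Real.pi) = (fun y => ∫⁻ x in Ioo 0 (2 * δ), ENNReal.ofReal (ρ x y) ^ 2) y := by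
        intro y
        simp only [H.perρ]
      rw [zero_add]
      exact lint_period hper c
    refine le_trans (lintegral_mono_set ?_) (h0.trans_lt hδA).le
    intro y hy
    refine ⟨hy.1, ?_⟩
    have := hy.2; linarith [hδ1.2]
  have hcancel : ∀ {v : ENNReal} {t : ℝ}, 0 ≤ t →
      v * ENNReal.ofReal η ^ 2 ≤ ENNReal.ofReal t * ENNReal.ofReal (η ^ 2 / 16) →
      v ≤ ENNReal.ofReal (t / 16) := by
    intro v t ht hv
    rw [← ENNReal.ofReal_pow hη.le, ← ENNReal.ofReal_mul ht] at hv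
    have h1 : t * (η ^ 2 / 16) = (t / 16) * η ^ 2 := by ring
    rw [h1, ENNReal.ofReal_mul (by positivity)] at hv
    exact (ENNReal.mul_le_mul_iff_left (ENNReal.ofReal_pos.mpr (by positivity)).ne'
      ENNReal.ofReal_ne_top).mp hv
  intro c
  constructor
  · have h1 := cheb (k := fun x y => ENNReal.ofReal (ρ x y)) H.kmeas (Ioo 0 (2 * δ))
      (Ioo c (c + δ)) measurableSet_Ioo (ENNReal.ofReal η)
    rw [Real.volume_Ioo, sub_zero] at h1
    have h2 := hcancel (t := 2 * δ) (by linarith)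
      (h1.trans (mul_le_mul_right (hwin (by linarith)) _))
    exact h2.trans (ENNReal.ofReal_le_ofReal (by linarith))
  · have h1 := cheb (k := fun y x => ENNReal.ofReal (ρ x y)) (H.kmeas.comp measurable_swap)
      (Ioo c (c + 4 * δ)) (Ioo δ (2 * δ)) measurableSet_Ioo (ENNReal.ofReal η)
    rw [Real.volume_Ioo] at h1
    have hsw : ∫⁻ x in Ioo δ (2 * δ), ∫⁻ y in Ioo c (c + 4 * δ),
        ENNReal.ofReal (ρ x y) ^ 2 ≤ ENNReal.ofReal (η ^ 2 / 16) := by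
      rw [lintegral_lintegral_swap]
      · refine le_trans (lintegral_mono fun y => ?_) (hwin le_rfl)
        exact lintegral_mono_set (Ioo_subset_Ioo_left hδ0.le)
      · exact (H.kmeas.pow_const 2).aemeasurable
    have h2 := hcancel (t := c + 4 * δ - c) (by linarith)
      (h1.trans (mul_le_mul_right hsw _))
    exact h2.trans (ENNReal.ofReal_le_ofReal (by linarith))

/-- All sides of the half box are short. -/
structure SB (h : ℝ → ℝ → ℂ) (ε x y₁ y₂ : ℝ) : Prop where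
  left : ∀ s ∈ Ioc 0 x, dist (h s y₁) (h x y₁) ≤ ε
  right : ∀ s ∈ Ioc 0 x, dist (h s y₂) (h x y₂) ≤ ε
  arc : ∀ y ∈ Icc y₁ y₂, dist (h x y₁) (h x y) ≤ ε

/-- Small boxes with good sides around a point of the circle, on both sides at the same time. -/
theorem exists_box {h' : ℝ → ℝ → ℂ} {ρ' : ℝ → ℝ → ℝ} {b' : ℝ} (H : HC h ρ b) (H' : HC h' ρ' b')
    {E : Set ℝ} (hE : ∀ᵐ y : ℝ, y ∈ E) {ε δ₀ : ℝ} (hε : 0 < ε) (hδ₀ : 0 < δ₀) (y₀ : ℝ) :
    ∃ x x' y₁ y₂ : ℝ, x ∈ Ioo 0 (min δ₀ b) ∧ x' ∈ Ioo 0 (min δ₀ b') ∧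
      y₁ ∈ Ioo (y₀ - δ₀) y₀ ∧ y₂ ∈ Ioo y₀ (y₀ + δ₀) ∧ y₁ ∈ E ∧ y₂ ∈ E ∧
      Gd ρ b y₁ ∧ Gd ρ b y₂ ∧ Gd ρ' b' y₁ ∧ Gd ρ' b' y₂ ∧
      SB h ε x y₁ y₂ ∧ SB h' ε x' y₁ y₂ := by
  have hm : 0 < min (min δ₀ b) b' / 2 := by
    have := H.pos; have := H'.pos
    positivity
  obtain ⟨δ, ⟨hδ, hδ'⟩, hδm⟩ :=
    (((H.most hε).and (H'.most hε)).and (Ioo_mem_nhdsGT hm)).exists
  have hδ0 : 0 < δ := hδm.1
  have hδ1 : 2 * δ < min (min δ₀ b) b' := by linarith [hδm.2]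
  have hδδ : 2 * δ < δ₀ := hδ1.trans_le ((min_le_left _ _).trans (min_le_left _ _))
  have hδb : 2 * δ < b := hδ1.trans_le ((min_le_left _ _).trans (min_le_right _ _))
  have hδb' : 2 * δ < b' := hδ1.trans_le (min_le_right _ _)
  have hη : 0 < ENNReal.ofReal (δ / 4) := ENNReal.ofReal_pos.mpr (by positivity)
  -- the choice of an angle
  have hy : ∀ c ∈ Icc (y₀ - 2 * δ) (y₀ + δ), ∃ y ∈ Ioo c (c + δ), y ∈ E ∧ Gd ρ b y ∧ Gd ρ' b' y ∧
      ∫⁻ x in Ioo 0 (2 * δ), ENNReal.ofReal (ρ x y) ≤ ENNReal.ofReal ε ∧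
      ∫⁻ x in Ioo 0 (2 * δ), ENNReal.ofReal (ρ' x y) ≤ ENNReal.ofReal ε := by
    intro c hc
    by_contra hcon
    push Not at hcon
    have hsub : Ioo c (c + δ) ⊆
        {y ∈ Ioo c (c + δ) | ENNReal.ofReal ε ≤ ∫⁻ x in Ioo 0 (2 * δ), ENNReal.ofReal (ρ x y)} ∪
        ({y ∈ Ioo c (c + δ) | ENNReal.ofReal ε ≤
          ∫⁻ x in Ioo 0 (2 * δ), ENNReal.ofReal (ρ' x y)} ∪
        {y | ¬ (y ∈ E ∧ Gd ρ b y ∧ Gd ρ' b' y)}) := by
      intro y hy
      by_cases h1 : y ∈ E ∧ Gd ρ b y ∧ Gd ρ' b' y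
      · by_cases h2 : ∫⁻ x in Ioo 0 (2 * δ), ENNReal.ofReal (ρ x y) ≤ ENNReal.ofReal ε
        · exact Or.inr (Or.inl ⟨hy, (hcon y hy h1.1 h1.2.1 h1.2.2 h2).le⟩)
        · exact Or.inl ⟨hy, (not_le.mp h2).le⟩
      · exact Or.inr (Or.inr h1)
    have hnull : volume {y | ¬ (y ∈ E ∧ Gd ρ b y ∧ Gd ρ' b' y)} = 0 := by
      rw [← ae_iff]
      filter_upwards [hE, H.ae_gd, H'.ae_gd] with y h1 h2 h3 using ⟨h1, h2, h3⟩
    have h1 := (measure_mono (μ := volume) hsub).trans ((measure_union_le _ _).trans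
      (add_le_add le_rfl (measure_union_le _ _)))
    rw [hnull, add_zero, Real.volume_Ioo] at h1
    have h2 := h1.trans (add_le_add (hδ c).1 (hδ' c).1)
    rw [← ENNReal.ofReal_add (by positivity) (by positivity),
      ENNReal.ofReal_le_ofReal_iff (by positivity)] at h2
    linarith
  -- the choice of a radius
  have hc4 : y₀ - 2 * δ + 4 * δ = y₀ + 2 * δ := by ring
  have hx : ∀ {ρ'' : ℝ → ℝ → ℝ}, volume {x ∈ Ioo δ (2 * δ) | ENNReal.ofReal ε ≤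
        ∫⁻ y in Ioo (y₀ - 2 * δ) (y₀ - 2 * δ + 4 * δ), ENNReal.ofReal (ρ'' x y)} ≤
          ENNReal.ofReal (δ / 4) → ∃ x ∈ Ioo δ (2 * δ),
          ∫⁻ y in Ioo (y₀ - 2 * δ) (y₀ + 2 * δ), ENNReal.ofReal (ρ'' x y) ≤ ENNReal.ofReal ε := by
    intro ρ'' hv
    rw [hc4] at hv
    by_contra hcon
    push Not at hcon
    have hsub : Ioo δ (2 * δ) ⊆ {x ∈ Ioo δ (2 * δ) | ENNReal.ofReal ε ≤
        ∫⁻ y in Ioo (y₀ - 2 * δ) (y₀ + 2 * δ), ENNReal.ofReal (ρ'' x y)} :=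
      fun x hx => ⟨hx, (hcon x hx).le⟩
    have h1 := (measure_mono hsub).trans hv
    rw [Real.volume_Ioo, ENNReal.ofReal_le_ofReal_iff (by positivity)] at h1
    linarith
  have hc1 : y₀ - 2 * δ ∈ Icc (y₀ - 2 * δ) (y₀ + δ) := ⟨le_rfl, by linarith⟩
  have hc2 : y₀ + δ ∈ Icc (y₀ - 2 * δ) (y₀ + δ) := ⟨by linarith, le_rfl⟩
  obtain ⟨y₁, hy₁, hE₁, hg₁, hg₁', hl₁, hl₁'⟩ := hy _ hc1
  obtain ⟨y₂, hy₂, hE₂, hg₂, hg₂', hl₂, hl₂'⟩ := hy _ hc2
  obtain ⟨x, hxm, hxl⟩ := hx (hδ _).2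
  obtain ⟨x', hxm', hxl'⟩ := hx (hδ' _).2
  have hx0 : 0 < x := hδ0.trans hxm.1
  have hx0' : 0 < x' := hδ0.trans hxm'.1
  have conv : ∀ {p q : ℂ}, edist p q ≤ ENNReal.ofReal ε → dist p q ≤ ε := by
    intro p q hpq
    rw [edist_dist] at hpq
    exact (ENNReal.ofReal_le_ofReal_iff hε.le).mp hpq
  refine ⟨x, x', y₁, y₂, ⟨hx0, lt_min (by linarith [hxm.2]) (by linarith [hxm.2])⟩,
    ⟨hx0', lt_min (by linarith [hxm'.2]) (by linarith [hxm'.2])⟩,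
    ⟨by linarith [hy₁.1], by linarith [hy₁.2]⟩, ⟨by linarith [hy₂.1], by linarith [hy₂.2]⟩,
    hE₁, hE₂, hg₁, hg₂, hg₁', hg₂', ⟨?_, ?_, ?_⟩, ⟨?_, ?_, ?_⟩⟩
  · intro s hs
    refine conv ((H.edist_x hs.1 hs.2 (by linarith [hxm.2])).trans (le_trans ?_ hl₁))
    exact lintegral_mono_set (Ioo_subset_Ioo hs.1.le hxm.2.le)
  · intro s hs
    refine conv ((H.edist_x hs.1 hs.2 (by linarith [hxm.2])).trans (le_trans ?_ hl₂))
    exact lintegral_mono_set (Ioo_subset_Ioo hs.1.le hxm.2.le)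
  · intro y hy
    refine conv ((H.edist_y hx0 (by linarith [hxm.2]) hy.1).trans (le_trans ?_ hxl))
    exact lintegral_mono_set (Ioo_subset_Ioo (by linarith [hy₁.1]) (by linarith [hy.2, hy₂.2]))
  · intro s hs
    refine conv ((H'.edist_x hs.1 hs.2 (by linarith [hxm'.2])).trans (le_trans ?_ hl₁'))
    exact lintegral_mono_set (Ioo_subset_Ioo hs.1.le hxm'.2.le)
  · intro s hs
    refine conv ((H'.edist_x hs.1 hs.2 (by linarith [hxm'.2])).trans (le_trans ?_ hl₂'))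
    exact lintegral_mono_set (Ioo_subset_Ioo hs.1.le hxm'.2.le)
  · intro y hy
    refine conv ((H'.edist_y hx0' (by linarith [hxm'.2]) hy.1).trans (le_trans ?_ hxl'))
    exact lintegral_mono_set (Ioo_subset_Ioo (by linarith [hy₁.1]) (by linarith [hy.2, hy₂.2]))

end Pool.Agent.FB018
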