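import Pool.Agent.Lib.MP_018119_an_FB.WAEnd
import Pool.Agent.Lib.MP_018119_an_FB.WDefs

/-!
# FB, block WELD: a holomorphic collar is a half collar of finite area
-/

set_option autoImplicit false

open Topology Filter Set Metric MeasureTheory
open Complex (I exp)

namespace Pool.Agent.FB018

private theorem wa_det (c : ℂ) : (c • (1 : ℂ →L[ℝ] ℂ)).det = ‖c‖ ^ 2 := by
  have h1 : ((c • (1 : ℂ →L[ℝ] ℂ) : ℂ →L[ℝ] ℂ) : ℂ →ₗ[ℝ] ℂ) = LinearMap.mul ℝ ℂ c := by
    refine LinearMap.ext fun z => ?_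
    rfl
  have h2 : (c • (1 : ℂ →L[ℝ] ℂ)).det = Algebra.norm ℝ c := by
    rw [Algebra.norm_apply]
    change LinearMap.det ((c • (1 : ℂ →L[ℝ] ℂ) : ℂ →L[ℝ] ℂ) : ℂ →ₗ[ℝ] ℂ) = _
    rw [h1]
    rfl
  rw [h2, Algebra.norm_complex_apply, Complex.sq_norm]

/-- Change of variables for a holomorphic injection. -/
theorem wa_cov {W : Set ℂ} (hW : MeasurableSet W) {F : ℂ → ℂ}
    (hd : ∀ z ∈ W, DifferentiableAt ℂ F z) (hi : InjOn F W) (g : ℂ → ENNReal) :
    ∫⁻ w in F '' W, g w = ∫⁻ z in W, g (F z) * ‖deriv F z‖ₑ ^ 2 := by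
  have h1 := lintegral_image_eq_lintegral_abs_det_fderiv_mul (volume : Measure ℂ) hW
    (f' := fun z => deriv F z • (1 : ℂ →L[ℝ] ℂ))
    (fun z hz => (hd z hz).hasDerivAt.complexToReal_fderiv.hasFDerivWithinAt) hi g
  rw [h1]
  refine setLIntegral_congr_fun hW fun z _ => ?_
  rw [wa_det, abs_of_nonneg (sq_nonneg _), mul_comm, ENNReal.ofReal_pow (norm_nonneg _),
    ofReal_norm]

/-- The collar in the coordinates of `HC`. -/
def hh (h : ℂ → ℂ) (x y : ℝ) : ℂ := h (((-x : ℝ) : ℂ) + (y : ℂ) * I)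

/-- The speed. -/
noncomputable def rr (h : ℂ → ℂ) (x y : ℝ) : ℝ := ‖deriv h (((-x : ℝ) : ℂ) + (y : ℂ) * I)‖

theorem mem_SL_iff {κ x y : ℝ} : (((x : ℝ) : ℂ) + (y : ℂ) * I) ∈ SL κ ↔ -κ < x ∧ x < 0 := by
  simp [SL]

theorem open_SL (κ : ℝ) : IsOpen (SL κ) :=
  (isOpen_lt continuous_const Complex.continuous_re).inter
    (isOpen_lt Complex.continuous_re continuous_const)

variable {κ : ℝ} {h : ℂ → ℂ}

theorem Side.perI (hS : Side κ h) (n : ℤ) (w : ℂ) : h (w + n * (2 * Real.pi * I)) = h w := by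
  induction n using Int.induction_on with
  | zero => simp
  | succ n ih =>
      have h1 : w + ((n : ℤ) + 1 : ℤ) * (2 * Real.pi * I) =
          (w + ((n : ℤ) : ℂ) * (2 * Real.pi * I)) + 2 * Real.pi * I := by
        push_cast; ring
      rw [h1, hS.per, ih]
  | pred n ih =>
      have h1 : w + ((-(n : ℤ) : ℤ) : ℂ) * (2 * Real.pi * I) =
          (w + ((-(n : ℤ) - 1 : ℤ) : ℂ) * (2 * Real.pi * I)) + 2 * Real.pi * I := by
        push_cast; ring
      rw [← ih, h1, hS.per]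

theorem Side.deriv_per (hS : Side κ h) (w : ℂ) : deriv h (w + 2 * Real.pi * I) = deriv h w := by
  have h1 : (fun z => h (z + 2 * Real.pi * I)) = h := funext hS.per
  have h2 := deriv_comp_add_const (f := h) (2 * Real.pi * I) w
  rw [h1] at h2
  exact h2.symm

theorem Side.diffAt (hS : Side κ h) {w : ℂ} (hw : w ∈ SL κ) : DifferentiableAt ℂ h w :=
  hS.hol.differentiableAt ((open_SL κ).mem_nhds hw)

/-- the area of the image of one period is finite -/
theorem Side.area_lt (hS : Side κ h) :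
    ∫⁻ w in {w : ℂ | w ∈ SL κ ∧ w.im ∈ Ioc 0 (2 * Real.pi)}, ‖deriv h w‖ₑ ^ 2 < ⊤ := by
  set S : Set ℂ := {w : ℂ | w ∈ SL κ ∧ w.im ∈ Ioc 0 (2 * Real.pi)} with hSd
  have hm : MeasurableSet S :=
    (open_SL κ).measurableSet.inter (Complex.measurable_im measurableSet_Ioc)
  have hi : InjOn h S := by
    intro w hw w' hw' he
    obtain ⟨n, hn⟩ := hS.inj w hw.1 w' hw'.1 he
    have h1 : w'.im = w.im + n * (2 * Real.pi) := by rw [hn]; simp
    have hpi := Real.two_pi_pos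
    have hn0 : n = 0 := by
      have h2 : (n : ℝ) * (2 * Real.pi) < 2 * Real.pi := by
        have := hw'.2.2; have := hw.2.1; linarith
      have h3 : -(2 * Real.pi) < (n : ℝ) * (2 * Real.pi) := by
        have := hw'.2.1; have := hw.2.2; linarith
      have h4 : (n : ℝ) < 1 := by
        by_contra hc
        push Not at hc
        nlinarith
      have h5 : (-1 : ℝ) < n := by
        by_contra hc
        push Not at hc
        nlinarith
      have h6 : n < 1 := by exact_mod_cast h4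
      have h7 : -1 < n := by exact_mod_cast h5
      omega
    rw [hn, hn0]; simp
  obtain ⟨R, hR⟩ := hS.bd
  have h1 := wa_cov hm (fun z hz => hS.diffAt hz.1) hi (fun _ => 1)
  simp only [one_mul] at h1
  rw [← h1, setLIntegral_one]
  have h2 : h '' S ⊆ closedBall 0 R := by
    rintro _ ⟨w, hw, rfl⟩
    rw [mem_closedBall_zero_iff]
    exact hR w hw.1
  exact (measure_mono h2).trans_lt measure_closedBall_lt_top

theorem Side.hc (hS : Side κ h) {b : ℝ} (hb : 0 < b) (hbκ : b ≤ κ) : HC (hh h) (rr h) b := by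
  have hmem : ∀ x ∈ Ioo 0 b, ∀ y : ℝ, (((-x : ℝ) : ℂ) + (y : ℂ) * I) ∈ SL κ := by
    intro x hx y
    rw [mem_SL_iff]
    constructor
    · linarith [hx.2]
    · linarith [hx.1]
  have hmeas : Measurable (fun p : ℝ × ℝ => rr h p.1 p.2) := by
    have h1 : Continuous (fun p : ℝ × ℝ => (((-p.1 : ℝ) : ℂ) + (p.2 : ℂ) * I)) := by fun_prop
    exact ((measurable_deriv h).comp h1.measurable).norm
  refine ⟨hb, fun _ _ => norm_nonneg _, ?_, ?_, ?_, hmeas, ?_, ?_, ?_⟩
  · intro x hx y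
    have h1 := (hS.diffAt (hmem x hx y)).hasDerivAt
    have h2 : HasDerivAt (fun s : ℝ => (((-s : ℝ) : ℂ) + (y : ℂ) * I)) (-1) x := by
      have h3 : HasDerivAt (fun s : ℝ => ((s : ℝ) : ℂ)) 1 x := Complex.ofRealCLM.hasDerivAt
      have h4 := (h3.neg).add_const ((y : ℂ) * I)
      refine h4.congr_of_eventuallyEq (Eventually.of_forall fun s => ?_)
      simp
    refine ⟨_, h1.comp_of_eq x h2 rfl, ?_⟩
    simp [rr]
  · intro x hx y
    have h1 := (hS.diffAt (hmem x hx y)).hasDerivAt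
    have h2 : HasDerivAt (fun s : ℝ => (((-x : ℝ) : ℂ) + (s : ℂ) * I)) I y := by
      have h3 : HasDerivAt (fun s : ℝ => ((s : ℝ) : ℂ)) 1 y := Complex.ofRealCLM.hasDerivAt
      have h4 := (h3.mul_const I).const_add (((-x : ℝ) : ℂ))
      simpa using h4
    refine ⟨_, h1.comp_of_eq y h2 rfl, ?_⟩
    simp [rr]
  · have h1 : Continuous (fun p : ℝ × ℝ => (((-p.1 : ℝ) : ℂ) + (p.2 : ℂ) * I)) := by fun_prop
    have h2 : ContinuousOn (deriv h) (SL κ) := (hS.hol.deriv (open_SL κ)).continuousOn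
    exact (h2.comp h1.continuousOn (fun p hp => hmem p.1 hp.1 p.2)).norm
  · intro x y
    have h1 : (((-x : ℝ) : ℂ) + ((y + 2 * Real.pi : ℝ) : ℂ) * I) =
        (((-x : ℝ) : ℂ) + (y : ℂ) * I) + 2 * Real.pi * I := by push_cast; ring
    rw [hh, h1, hS.per]; rfl
  · intro x y
    have h1 : (((-x : ℝ) : ℂ) + ((y + 2 * Real.pi : ℝ) : ℂ) * I) =
        (((-x : ℝ) : ℂ) + (y : ℂ) * I) + 2 * Real.pi * I := by push_cast; ring
    rw [rr, h1, hS.deriv_per]; rfl
  · have h3 : ∫⁻ y in Ioc 0 (2 * Real.pi), ∫⁻ x in Ioo 0 b, ENNReal.ofReal (rr h x y) ^ 2 ≤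
        ∫⁻ w in {w : ℂ | w ∈ SL κ ∧ w.im ∈ Ioc 0 (2 * Real.pi)}, ‖deriv h w‖ₑ ^ 2 := by
      have hk : Measurable (fun p : ℝ × ℝ => ENNReal.ofReal (rr h p.1 p.2) ^ 2) :=
        (hmeas.ennreal_ofReal).pow_const 2
      -- swap and reflect
      have hmk : Measurable (fun p : ℝ × ℝ => (⟨p.1, p.2⟩ : ℂ)) := by
        have : (fun p : ℝ × ℝ => (⟨p.1, p.2⟩ : ℂ)) = Complex.measurableEquivRealProd.symm := by
          funext p
          apply Complex.measurableEquivRealProd.injective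
          rw [MeasurableEquiv.apply_symm_apply, Complex.measurableEquivRealProd_apply]
        rw [this]
        exact Complex.measurableEquivRealProd.symm.measurable
      have hD : Measurable (fun w : ℂ => ‖deriv h w‖ₑ ^ 2) := (measurable_deriv h).enorm.pow_const 2
      have e1 : ∫⁻ w in {w : ℂ | w ∈ SL κ ∧ w.im ∈ Ioc 0 (2 * Real.pi)}, ‖deriv h w‖ₑ ^ 2 =
          ∫⁻ p in (Ioo (-κ) 0 ×ˢ Ioc 0 (2 * Real.pi)), ‖deriv h ⟨p.1, p.2⟩‖ₑ ^ 2 := by
        have h3 := Complex.volume_preserving_equiv_real_prod.setLIntegral_comp_preimage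
          ((measurableSet_Ioo (a := -κ) (b := (0 : ℝ))).prod
            (measurableSet_Ioc (a := (0 : ℝ)) (b := 2 * Real.pi)))
          (f := fun z : ℝ × ℝ => ‖deriv h ⟨z.1, z.2⟩‖ₑ ^ 2) (hD.comp hmk)
        exact h3
      rw [e1]
      have e2 : ∫⁻ p in (Ioo (-κ) 0 ×ˢ Ioc 0 (2 * Real.pi)), ‖deriv h ⟨p.1, p.2⟩‖ₑ ^ 2 =
          ∫⁻ y in Ioc 0 (2 * Real.pi), ∫⁻ x in Ioo (-κ) 0, ‖deriv h ⟨x, y⟩‖ₑ ^ 2 := by
        rw [Measure.volume_eq_prod, ← Measure.prod_restrict]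
        exact lintegral_prod_symm' _ (hD.comp hmk)
      rw [e2]
      refine lintegral_mono fun y => ?_
      have e3 : ∫⁻ x in Ioo (-κ) 0, ‖deriv h ⟨x, y⟩‖ₑ ^ 2 =
          ∫⁻ x in Ioo 0 κ, ‖deriv h ⟨-x, y⟩‖ₑ ^ 2 := by
        have hmp : MeasurePreserving (fun x : ℝ => -x) volume volume :=
          Measure.measurePreserving_neg volume
        have h5 := hmp.setLIntegral_comp_preimage (measurableSet_Ioo (a := -κ) (b := (0 : ℝ)))
          (f := fun x : ℝ => ‖deriv h ⟨x, y⟩‖ₑ ^ 2)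
          (hD.comp (hmk.comp (measurable_id.prodMk measurable_const)))
        rw [← h5]
        congr 2
        ext x
        simp only [mem_preimage, mem_Ioo]
        constructor
        · rintro ⟨h1, h2⟩; constructor <;> linarith
        · rintro ⟨h1, h2⟩; constructor <;> linarith
      rw [e3]
      refine (lintegral_mono_set (Ioo_subset_Ioo_right hbκ)).trans (lintegral_mono fun x => ?_)
      have h6 : (((-x : ℝ) : ℂ) + (y : ℂ) * I) = ⟨-x, y⟩ := by
        apply Complex.ext <;> simp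
      rw [rr, h6, ofReal_norm]
    exact (h3.trans_lt hS.area_lt).ne

end Pool.Agent.FB018
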