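import Pool.Agent.Lib.MP_018119_an_FB.WALaw

/-!
# FB, block WELD: equal laws have equal values almost everywhere (Egorov)
-/

set_option autoImplicit false

open Topology Filter Set Metric MeasureTheory

namespace Pool.Agent.FB018

/-- If `u` and `v` have the same law and `v` is an a.e. limit of continuous functions, then almost
every value of `u` is a value of `v` at a point of the given set of full measure. -/
theorem matched {u v : ℝ → ℂ} (hu : AEMeasurable u mu2) {vn : ℕ → ℝ → ℂ}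
    (hvn : ∀ n, Continuous (vn n)) (hv : ∀ᵐ y ∂mu2, Tendsto (fun n => vn n y) atTop (𝓝 (v y)))
    (hlaw : Measure.map u mu2 = Measure.map v mu2) {E : Set ℝ} (hE : ∀ᵐ y ∂mu2, y ∈ E) :
    ∀ᵐ y ∂mu2, ∃ t ∈ E, v t = u y := by
  have hvm : AEMeasurable v mu2 :=
    aemeasurable_of_tendsto_metrizable_ae atTop (fun n => (hvn n).measurable.aemeasurable) hv
  set v' : ℝ → ℂ := hvm.mk v with hv'
  have hv'm : Measurable v' := hvm.measurable_mk
  have hE0 : ∀ᵐ y ∂mu2, y ∈ E ∧ v y = v' y := by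
    filter_upwards [hE, hvm.ae_eq_mk] with y h1 h2 using ⟨h1, h2⟩
  set N : Set ℝ := toMeasurable mu2 {y | ¬ (y ∈ E ∧ v y = v' y)} with hN
  have hN0 : mu2 N = 0 := by
    rw [hN, measure_toMeasurable]
    exact ae_iff.mp hE0
  have hNs : ∀ y, y ∉ N → y ∈ E ∧ v y = v' y := by
    intro y hy
    by_contra hc
    exact hy (subset_toMeasurable _ _ hc)
  have hNm : MeasurableSet N := measurableSet_toMeasurable _ _
  have hlim : ∀ᵐ y ∂mu2, Tendsto (fun n => vn n y) atTop (𝓝 (v' y)) := by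
    filter_upwards [hv, hvm.ae_eq_mk] with y h1 h2
    rw [hv', ← h2]
    exact h1
  have key : ∀ m : ℕ, ∃ K : Set ℝ, IsCompact K ∧ (∀ y ∈ K, y ∉ N) ∧ ContinuousOn v' K ∧
      mu2 Kᶜ ≤ ENNReal.ofReal (2 / ((m : ℝ) + 1)) := by
    intro m
    have hm : (0 : ℝ) < 1 / ((m : ℝ) + 1) := by positivity
    obtain ⟨t, htm, htμ, htu⟩ := tendstoUniformlyOn_of_ae_tendsto'
      (fun n => (hvn n).stronglyMeasurable) hv'm.stronglyMeasurable hlim hm
    have hc : ContinuousOn v' tᶜ :=
      htu.continuousOn (Frequently.of_forall fun n => (hvn n).continuousOn)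
    have hSm : MeasurableSet (tᶜ ∩ Nᶜ) := htm.compl.inter hNm.compl
    obtain ⟨K, hKs, hK, hKm⟩ := hSm.exists_isCompact_sdiff_lt (measure_ne_top mu2 _)
      (ENNReal.ofReal_pos.mpr hm).ne'
    refine ⟨K, hK, fun y hy => (hKs hy).2, hc.mono fun y hy => (hKs hy).1, ?_⟩
    have hsub : Kᶜ ⊆ t ∪ (N ∪ ((tᶜ ∩ Nᶜ) \ K)) := by
      intro y hy
      by_cases h1 : y ∈ t
      · exact Or.inl h1
      · by_cases h2 : y ∈ N
        · exact Or.inr (Or.inl h2)
        · exact Or.inr (Or.inr ⟨⟨h1, h2⟩, hy⟩)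
    calc mu2 Kᶜ ≤ mu2 t + (mu2 N + mu2 ((tᶜ ∩ Nᶜ) \ K)) :=
          (measure_mono hsub).trans ((measure_union_le _ _).trans
            (add_le_add le_rfl (measure_union_le _ _)))
      _ ≤ ENNReal.ofReal (1 / ((m : ℝ) + 1)) + (0 + ENNReal.ofReal (1 / ((m : ℝ) + 1))) := by
          refine add_le_add htμ (add_le_add hN0.le hKm.le)
      _ = ENNReal.ofReal (2 / ((m : ℝ) + 1)) := by
          rw [zero_add, ← ENNReal.ofReal_add hm.le hm.le]
          congr 1
          ring
  choose K hK hKN hKc hKm using key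
  have hY : ∀ m, IsCompact (v' '' K m) := fun m => (hK m).image_of_continuousOn (hKc m)
  have hbd : ∀ m, mu2 {y | u y ∉ v' '' K m} ≤ ENNReal.ofReal (2 / ((m : ℝ) + 1)) := by
    intro m
    have h1 := congrArg (fun μ : Measure ℂ => μ (v' '' K m)ᶜ) hlaw
    rw [Measure.map_apply_of_aemeasurable hu (hY m).measurableSet.compl,
      Measure.map_apply_of_aemeasurable hvm (hY m).measurableSet.compl] at h1
    have h2 : {y | u y ∉ v' '' K m} = u ⁻¹' (v' '' K m)ᶜ := rfl
    rw [h2, h1]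
    refine (measure_mono ?_).trans (hKm m)
    intro y hy hyK
    refine hy ⟨y, hyK, ?_⟩
    exact ((hNs y (hKN m y hyK)).2).symm
  have hz : mu2 {y | ¬ ∃ t ∈ E, v t = u y} = 0 := by
    have h0 : ∀ m : ℕ, mu2 {y | ¬ ∃ t ∈ E, v t = u y} ≤ ENNReal.ofReal (2 / ((m : ℝ) + 1)) := by
      intro m
      refine (measure_mono ?_).trans (hbd m)
      rintro y hy ⟨t, ht, hty⟩
      have h3 := hNs t (hKN m t ht)
      exact hy ⟨t, h3.1, h3.2.trans hty⟩
    have h1 : Tendsto (fun m : ℕ => ENNReal.ofReal (2 / ((m : ℝ) + 1))) atTop (𝓝 0) := by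
      have h2 : Tendsto (fun m : ℕ => 2 / ((m : ℝ) + 1)) atTop (𝓝 0) := by
        have h3 : Tendsto (fun m : ℕ => ((m : ℝ) + 1)) atTop atTop :=
          tendsto_atTop_add_const_right _ _ tendsto_natCast_atTop_atTop
        exact h3.const_div_atTop 2
      have h4 := ENNReal.tendsto_ofReal h2
      rwa [ENNReal.ofReal_zero] at h4
    exact le_antisymm (ge_of_tendsto h1 (Eventually.of_forall h0)) bot_le
  exact ae_iff.mpr hz

end Pool.Agent.FB018
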