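import Mathlib
import Pool.Agent.Lib.MP_018119_an_FB.WDefs
import Pool.Agent.Lib.MP_018119_an_FB.WABox
import Pool.Agent.Lib.MP_018119_an_FB.WALaw
import Pool.Agent.Lib.MP_018119_an_FB.WACol
import Pool.Agent.Lib.MP_018119_an_FB.WAMatch
import Pool.Agent.Lib.MP_018119_an_FB.WAAtom

/-!
# MP_018119_an, project FB, block WELD: radial ends of one collar
-/

set_option autoImplicit false

open MeasureTheory Set Metric Filter Topology
open Complex (I exp)

noncomputable section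

namespace Pool.Agent.FB018

variable {κ : ℝ} {h : ℂ → ℂ}

/-- a point of the strip -/
lemma mem_SL {κ x y : ℝ} : ((x : ℂ) + y * I) ∈ SL κ ↔ -κ < x ∧ x < 0 := mem_SL_iff

lemma isOpen_SL (κ : ℝ) : IsOpen (SL κ) := open_SL κ

/-- `h` is periodic, `n` periods -/
lemma Side.per_int (hS : Side κ h) (n : ℤ) (w : ℂ) : h (w + n * (2 * Real.pi * I)) = h w :=
  hS.perI n w

lemma Side.sx_per (hS : Side κ h) (y : ℝ) : sx h (y + 2 * Real.pi) = sx h y := by
  have h1 : ∀ x : ℝ, h (x + ((y + 2 * Real.pi : ℝ) : ℂ) * I) = h (x + y * I) := by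
    intro x
    have h2 : (x : ℂ) + ((y + 2 * Real.pi : ℝ) : ℂ) * I = (x + y * I) + 2 * Real.pi * I := by
      push_cast; ring
    rw [h2, hS.per]
  simp only [sx, h1]

/-- the reflection `x ↦ -x` -/
theorem tendsto_neg_lt : Tendsto (fun x : ℝ => -x) (𝓝[<] 0) (𝓝[>] (0 : ℝ)) := by
  have h1 := tendsto_neg_nhdsLT (a := (0 : ℝ))
  rwa [neg_zero] at h1

theorem tendsto_neg_gt : Tendsto (fun x : ℝ => -x) (𝓝[>] 0) (𝓝[<] (0 : ℝ)) := by
  have h1 := tendsto_neg_nhdsGT (a := (0 : ℝ))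
  rwa [neg_zero] at h1

theorem hh_neg (h : ℂ → ℂ) (x y : ℝ) : hh h (-x) y = h (x + y * I) := by
  simp [hh]

/-- finite length in the two descriptions -/
theorem good_iff_gd (κ : ℝ) (h : ℂ → ℂ) (y : ℝ) : Good κ h y ↔ Gd (rr h) (κ / 2) y := by
  have hm : Measurable (fun x : ℝ => ‖deriv h (x + y * I)‖) := by
    have h1 : Continuous (fun x : ℝ => ((x : ℂ) + y * I)) := by fun_prop
    exact ((measurable_deriv h).comp h1.measurable).norm
  have e1 : ∫⁻ x in Ioo 0 (κ / 2), ENNReal.ofReal (rr h x y) =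
      ∫⁻ x in Ioo (-κ / 2) 0, ‖‖deriv h (x + y * I)‖‖ₑ := by
    have hmp : MeasurePreserving (fun x : ℝ => -x) volume volume :=
      Measure.measurePreserving_neg volume
    have h5 := hmp.setLIntegral_comp_preimage (measurableSet_Ioo (a := -κ / 2) (b := (0 : ℝ)))
      (f := fun x : ℝ => ‖‖deriv h (x + y * I)‖‖ₑ) hm.enorm
    rw [← h5]
    have h6 : (fun x : ℝ => -x) ⁻¹' Ioo (-κ / 2) 0 = Ioo 0 (κ / 2) := by
      ext x
      simp only [mem_preimage, mem_Ioo]
      constructor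
      · rintro ⟨h1, h2⟩; constructor <;> linarith
      · rintro ⟨h1, h2⟩; constructor <;> linarith
    rw [h6]
    refine lintegral_congr fun x => ?_
    rw [rr, ← ofReal_norm, norm_norm]
  rw [Good, Gd, e1, IntegrableOn, Integrable, hasFiniteIntegral_def, lt_top_iff_ne_top]
  exact ⟨fun h1 => h1.2, fun h1 => ⟨hm.aestronglyMeasurable, h1⟩⟩

lemma Side.good_per (hS : Side κ h) (y : ℝ) : Good κ h (y + 2 * Real.pi) ↔ Good κ h y := by
  rw [good_iff_gd, good_iff_gd]
  have h1 := (hS.hc hS.κpos le_rfl).perρ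
  simp only [Gd, h1]

theorem Side.hc2 (hS : Side κ h) : HC (hh h) (rr h) (κ / 2) :=
  hS.hc (by linarith [hS.κpos]) (by linarith [hS.κpos])

/-- Area: `∫ ‖h'‖²` over one period is at most the area of the image, which is bounded. -/
theorem Side.area (hS : Side κ h) : IntegrableOn (fun w => ‖deriv h w‖ ^ 2)
    (SL κ ∩ {w | 0 ≤ w.im ∧ w.im < 2 * Real.pi}) := by
  set S : Set ℂ := SL κ ∩ {w | 0 ≤ w.im ∧ w.im < 2 * Real.pi} with hSd
  have hm : MeasurableSet S :=
    (isOpen_SL κ).measurableSet.inter (Complex.measurable_im measurableSet_Ico)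
  have hi : InjOn h S := by
    intro w hw w' hw' he
    obtain ⟨n, hn⟩ := hS.inj w hw.1 w' hw'.1 he
    have h1 : w'.im = w.im + n * (2 * Real.pi) := by rw [hn]; simp
    have hpi := Real.two_pi_pos
    have a1 := hw.2.1
    have a2 := hw.2.2
    have a3 := hw'.2.1
    have a4 := hw'.2.2
    have hn0 : n = 0 := by
      have h4 : (n : ℝ) < 1 := by
        by_contra hc
        push Not at hc
        nlinarith
      have h5 : (-1 : ℝ) < n := by
        by_contra hc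
        push Not at hc
        nlinarith
      have h6 : n < 1 := by exact_mod_cast h4
      have h7 : -1 < n := by exact_mod_cast h5
      omega
    rw [hn, hn0]; simp
  obtain ⟨R, hR⟩ := hS.bd
  have h1 := wa_cov hm (fun z hz => hS.diffAt hz.1) hi (fun _ => 1)
  simp only [one_mul] at h1
  rw [setLIntegral_one] at h1
  have h2 : h '' S ⊆ closedBall 0 R := by
    rintro _ ⟨w, hw, rfl⟩
    rw [mem_closedBall_zero_iff]
    exact hR w hw.1
  have h3 := (measure_mono (μ := volume) h2).trans_lt measure_closedBall_lt_top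
  refine ⟨((measurable_deriv h).norm.pow_const 2).aestronglyMeasurable, ?_⟩
  rw [hasFiniteIntegral_def]
  have h4 : ∫⁻ w in S, ‖‖deriv h w‖ ^ 2‖ₑ = ∫⁻ w in S, ‖deriv h w‖ₑ ^ 2 := by
    refine lintegral_congr fun w => ?_
    rw [enorm_pow, enorm_norm]
  rw [h4, ← h1]
  exact h3

theorem Side.ae_good (hS : Side κ h) : ∀ᵐ y : ℝ, Good κ h y := by
  filter_upwards [hS.hc2.ae_gd] with y hy
  exact (good_iff_gd κ h y).mpr hy

/-- a limit which exists is the radial limit -/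
lemma rl_of_tendsto {y : ℝ} {a : ℂ} (ha : Tendsto (fun x : ℝ => h (x + y * I)) (𝓝[<] 0) (𝓝 a)) :
    Rl h y ∧ sx h y = a := by
  have h1 : sx h y = a := ha.limUnder_eq
  refine ⟨?_, h1⟩
  rw [Rl, h1]
  exact ha

theorem Side.tend' (hS : Side κ h) {y : ℝ} (hy : Good κ h y) :
    Tendsto (fun x : ℝ => h (x + y * I)) (𝓝[<] 0) (𝓝 (FB018.rl (hh h) y)) := by
  have h1 := (hS.hc2.rl_tendsto ((good_iff_gd κ h y).mp hy)).comp tendsto_neg_lt
  refine h1.congr fun x => ?_
  exact hh_neg h x y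

theorem Side.rl (hS : Side κ h) {y : ℝ} (hy : Good κ h y) : Rl h y :=
  (rl_of_tendsto (hS.tend' hy)).1

theorem Side.sx_eq (hS : Side κ h) {y : ℝ} (hy : Good κ h y) : sx h y = FB018.rl (hh h) y :=
  (rl_of_tendsto (hS.tend' hy)).2

/-- a holomorphic injection modulo the period is open -/
theorem Side.nhds_le (hS : Side κ h) {w : ℂ} (hw : w ∈ SL κ) : 𝓝 (h w) ≤ map h (𝓝 w) := by
  have han : AnalyticAt ℂ h w := hS.hol.analyticAt ((isOpen_SL κ).mem_nhds hw)
  rcases han.eventually_constant_or_nhds_le_map_nhds with hc | hc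
  · exfalso
    -- `h` would be constant near `w`
    have h1 : ∀ᶠ z in 𝓝 w, h z = h w ∧ z ∈ SL κ := hc.and ((isOpen_SL κ).mem_nhds hw)
    obtain ⟨r, hr, hb⟩ := Metric.eventually_nhds_iff.mp h1
    have hpi := Real.two_pi_pos
    set t : ℝ := min (r / 2) 1 with ht
    have ht0 : 0 < t := by positivity
    have htr : t < r := lt_of_le_of_lt (min_le_left _ _) (by linarith)
    have hz := hb (y := w + t * I) (by
      rw [dist_eq_norm]
      simp [abs_of_pos ht0, htr])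
    obtain ⟨n, hn⟩ := hS.inj w hw _ hz.2 hz.1.symm
    have h2 : t = n * (2 * Real.pi) := by
      have := congrArg Complex.im hn
      simpa using this
    have ht1 : t ≤ 1 := min_le_right _ _
    have hpi3 := Real.pi_gt_three
    have h4 : (n : ℝ) < 1 := by
      by_contra hc
      push Not at hc
      nlinarith
    have h5 : (0 : ℝ) < n := by
      by_contra hc
      push Not at hc
      nlinarith
    have h6 : n < 1 := by exact_mod_cast h4
    have h7 : 0 < n := by exact_mod_cast h5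
    omega
  · exact hc

/-- The radial limit is not in the collar: if `sx h y = h w` then, `h` being an open injective map
modulo the period, `h (x + y I)` would be the value of `h` at a point near `w` for small `|x|`. -/
theorem Side.sx_ne (hS : Side κ h) {y : ℝ} (hy : Rl h y) {w : ℂ} (hw : w ∈ SL κ) :
    sx h y ≠ h w := by
  intro he
  rw [Rl, he] at hy
  have hV : {z : ℂ | z ∈ SL κ ∧ z.re < w.re / 2} ∈ 𝓝 w := by
    have h1 : IsOpen {z : ℂ | z ∈ SL κ ∧ z.re < w.re / 2} :=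
      (isOpen_SL κ).inter (isOpen_lt Complex.continuous_re continuous_const)
    refine h1.mem_nhds ⟨hw, ?_⟩
    have := hw.2
    show w.re < w.re / 2
    linarith
  have h1 : h '' {z : ℂ | z ∈ SL κ ∧ z.re < w.re / 2} ∈ 𝓝 (h w) :=
    hS.nhds_le hw (image_mem_map hV)
  have h2 : ∀ᶠ x : ℝ in 𝓝[<] 0, w.re / 2 < x ∧ -κ < x ∧ x < 0 := by
    have hw0 : w.re / 2 < 0 := by have := hw.2; linarith
    have hk : -κ < 0 := by linarith [hS.κpos]
    have h3 : Ioo (max (w.re / 2) (-κ)) 0 ∈ 𝓝[<] (0 : ℝ) := Ioo_mem_nhdsLT (max_lt hw0 hk)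
    filter_upwards [h3] with x hx
    exact ⟨(le_max_left _ _).trans_lt hx.1, (le_max_right _ _).trans_lt hx.1, hx.2⟩
  obtain ⟨x, hx, hx2, hx3, hx4⟩ := ((hy.eventually h1).and h2).exists
  obtain ⟨z, ⟨hz1, hz2⟩, hz3⟩ := hx
  obtain ⟨n, hn⟩ := hS.inj z hz1 _ (mem_SL.mpr ⟨hx3, hx4⟩) hz3
  have h5 : x = z.re := by
    have := congrArg Complex.re hn
    simpa using this
  linarith

/-- the extended path is continuous -/
theorem Side.cont_hor (hS : Side κ h) {y : ℝ} (hy : Rl h y) {x : ℝ} (hx : x ∈ Ioo (-κ) 0)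
    (E : ℂ ≃ₜ ℂ) : ContinuousOn (fun t : ℝ => ux E h (t + y * I)) (Icc x 0) := by
  have hmain : ContinuousOn (fun t : ℝ => FB018.hx h (t + y * I)) (Icc x 0) := by
    intro t ht
    rcases ht.2.lt_or_eq with h0 | h0
    · -- interior
      refine ContinuousAt.continuousWithinAt ?_
      have h1 : (fun s : ℝ => FB018.hx h (s + y * I)) =ᶠ[𝓝 t] fun s : ℝ => h (s + y * I) := by
        filter_upwards [isOpen_Iio.mem_nhds (show t ∈ Iio 0 from h0)] with s hs
        have : ((s : ℂ) + y * I).re < 0 := by simpa using hs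
        rw [FB018.hx, if_pos this]
      have h2 : ContinuousAt (fun s : ℝ => h (s + y * I)) t := by
        have h3 : ((t : ℂ) + y * I) ∈ SL κ := mem_SL.mpr ⟨hx.1.trans_le ht.1, h0⟩
        have h4 : ContinuousAt h ((t : ℂ) + y * I) := (hS.diffAt h3).continuousAt
        have h5 : ContinuousAt (fun s : ℝ => ((s : ℂ) + y * I)) t := by fun_prop
        exact ContinuousAt.comp (f := fun s : ℝ => ((s : ℂ) + y * I)) h4 h5
      exact h2.congr h1.symm
    · subst h0
      have h1 : FB018.hx h (((0 : ℝ) : ℂ) + y * I) = sx h y := by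
        rw [FB018.hx, if_neg (by simp)]
        simp
      have h2 : Tendsto (fun s : ℝ => FB018.hx h (s + y * I)) (𝓝[<] 0) (𝓝 (sx h y)) := by
        refine hy.congr' ?_
        filter_upwards [self_mem_nhdsWithin] with s hs
        have : ((s : ℂ) + y * I).re < 0 := by simpa using hs
        rw [FB018.hx, if_pos this]
      have h3 : ContinuousWithinAt (fun t : ℝ => FB018.hx h (t + y * I)) (Iic 0) 0 := by
        rw [← Iio_insert, continuousWithinAt_insert_self]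
        show Tendsto _ _ (𝓝 (FB018.hx h (((0 : ℝ) : ℂ) + y * I)))
        rw [h1]
        exact h2
      exact h3.mono Icc_subset_Iic_self
  exact E.symm.continuous.comp_continuousOn hmain

theorem Side.cont_ver (hS : Side κ h) {x : ℝ} (hx : x ∈ Ioo (-κ) 0) (E : ℂ ≃ₜ ℂ) :
    Continuous (fun t : ℝ => ux E h (x + t * I)) := by
  have h1 : (fun t : ℝ => ux E h (x + t * I)) = fun t : ℝ => E.symm (h (x + t * I)) := by
    funext t
    have : ((x : ℂ) + t * I).re < 0 := by simpa using hx.2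
    rw [ux, FB018.hx, if_pos this]
  rw [h1]
  refine E.symm.continuous.comp ?_
  rw [continuous_iff_continuousAt]
  intro t
  have h3 : ((x : ℂ) + t * I) ∈ SL κ := mem_SL.mpr hx
  have h4 : ContinuousAt h ((x : ℂ) + t * I) := (hS.diffAt h3).continuousAt
  have h5 : ContinuousAt (fun s : ℝ => ((x : ℂ) + s * I)) t := by fun_prop
  exact ContinuousAt.comp (f := fun s : ℝ => ((x : ℂ) + s * I)) h4 h5

/-- **No atoms.**  For `z₀ = h w` it is `sx_ne`.  Otherwise `h - z₀` has a holomorphic logarithm `ℓ`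
on the strip, `ℓ (w + 2 π i) = ℓ w + 2 π i m`, and `ℓ w - m w` is periodic, so its mean over
`{re w = x}` does not depend on `x`; so `∫₀^{2π} log ‖h (x + i y) - z₀‖ dy` is an affine function of
`x`, bounded as `x → 0`.  Fatou for `C - log ‖h (x_n + i y) - z₀‖ ≥ 0`. -/
theorem Side.no_atom (hS : Side κ h) (z₀ : ℂ) : ∀ᵐ y : ℝ, sx h y ≠ z₀ := by
  by_cases hz : ∃ w ∈ SL κ, h w = z₀
  · obtain ⟨w, hw, rfl⟩ := hz
    filter_upwards [hS.ae_good] with y hy
    exact hS.sx_ne (hS.rl hy) hw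
  · push Not at hz
    have hκ := hS.κpos
    have hκ2 : 0 < κ / 2 := by positivity
    have hxn : ∀ n : ℕ, (-(κ / 2 / ((n : ℝ) + 2)) : ℝ) ∈ Ioo (-κ) 0 := by
      intro n
      have h1 := seq_lt hκ2 n
      have h2 : 0 < κ / 2 / ((n : ℝ) + 2) := by positivity
      constructor <;> linarith
    refine ae_of_period (fun y => ?_) ?_
    · rw [hS.sx_per]
    · have h1 := hS.no_atom_aux hz hxn
      filter_upwards [h1, ae_restrict_of_ae hS.ae_good] with y hy hg hcon
      refine hy ?_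
      have h2 := hS.rl hg
      rw [Rl, hcon] at h2
      have h3 := h2.comp (tendsto_neg_gt.comp (seq_tend hκ2))
      exact h3

theorem Side.measurable_sx (hS : Side κ h) : AEMeasurable (sx h) := by
  refine hS.hc2.aem.congr ?_
  filter_upwards [hS.ae_good] with y hy
  exact (hS.sx_eq hy).symm

/-- Short horizontal lines: the exceptional heights have measure at most `δ / 8`. -/
theorem Side.short_hor (hS : Side κ h) {η : ℝ} (hη : 0 < η) :
    ∃ δ₀ > 0, 2 * δ₀ < κ ∧ ∀ δ ∈ Ioc 0 δ₀, ∀ y₀ : ℝ,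
      volume {a ∈ Ioo y₀ (y₀ + δ) |
        ¬(∀ x ∈ Icc (-(2 * δ)) 0, ‖hx h (x + a * I) - sx h a‖ ≤ η)} ≤ ENNReal.ofReal (δ / 8) := by
  have H := hS.hc2
  have hκ := hS.κpos
  have h1 := (H.most hη).and (Ioo_mem_nhdsGT (show (0 : ℝ) < κ / 8 by positivity))
  obtain ⟨u, hu, hu2⟩ := (mem_nhdsGT_iff_exists_Ioo_subset).mp h1
  have hu0 : (0 : ℝ) < u := hu
  set δ₀ : ℝ := u / 2 with hδ₀
  have hδ₀0 : 0 < δ₀ := by positivity
  have hin : ∀ δ ∈ Ioc 0 δ₀, δ ∈ Ioo 0 u := fun δ hδ => ⟨hδ.1, by linarith [hδ.2]⟩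
  have hδκ : δ₀ < κ / 8 := (hu2 (hin δ₀ ⟨hδ₀0, le_rfl⟩)).2.2
  refine ⟨δ₀, hδ₀0, by linarith, fun δ hδ y₀ => ?_⟩
  have h2 := ((hu2 (hin δ hδ)).1 y₀).1
  refine le_trans ?_ h2
  have hnull : volume {a : ℝ | ¬ Good κ h a} = 0 := by
    rw [← ae_iff]
    exact hS.ae_good
  have hsub : {a ∈ Ioo y₀ (y₀ + δ) |
        ¬(∀ x ∈ Icc (-(2 * δ)) 0, ‖hx h (x + a * I) - sx h a‖ ≤ η)} ⊆
      {y ∈ Ioo y₀ (y₀ + δ) | ENNReal.ofReal η ≤
        ∫⁻ x in Ioo 0 (2 * δ), ENNReal.ofReal (rr h x y)} ∪ {a : ℝ | ¬ Good κ h a} := by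
    rintro a ⟨ha, hna⟩
    by_cases hg : Good κ h a
    · left
      refine ⟨ha, ?_⟩
      by_contra hlt
      rw [not_le] at hlt
      refine hna fun x hx => ?_
      rcases hx.2.lt_or_eq with h0 | h0
      · have h3 : ((x : ℂ) + a * I).re < 0 := by simpa using h0
        rw [FB018.hx, if_pos h3, hS.sx_eq hg]
        have h4 := H.edist_rl (x := -x) ((good_iff_gd κ h a).mp hg) (by linarith)
          (by linarith [hx.1, hδ.2])
        rw [hh_neg] at h4
        have h5 : edist (FB018.rl (hh h) a) (h (x + a * I)) ≤ ENNReal.ofReal η := by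
          refine h4.trans (le_trans ?_ hlt.le)
          exact lintegral_mono_set (Ioo_subset_Ioo_right (by linarith [hx.1]))
        rw [edist_comm, edist_dist, dist_eq_norm] at h5
        exact (ENNReal.ofReal_le_ofReal_iff hη.le).mp h5
      · subst h0
        rw [FB018.hx, if_neg (by simp)]
        simp [hη.le]
    · right
      exact hg
  calc volume _ ≤ volume ({y ∈ Ioo y₀ (y₀ + δ) | ENNReal.ofReal η ≤
        ∫⁻ x in Ioo 0 (2 * δ), ENNReal.ofReal (rr h x y)} ∪ {a : ℝ | ¬ Good κ h a}) :=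
        measure_mono hsub
    _ ≤ _ := by
        refine (measure_union_le _ _).trans ?_
        rw [hnull, add_zero]

/-- Short vertical lines. -/
theorem Side.short_ver (hS : Side κ h) {η : ℝ} (hη : 0 < η) :
    ∃ δ₀ > 0, 2 * δ₀ < κ ∧ ∀ δ ∈ Ioc 0 δ₀, ∀ y₀ : ℝ, ∃ x ∈ Ioo δ (2 * δ),
      ∀ y ∈ Icc (y₀ - 2 * δ) (y₀ + 2 * δ), ∀ y' ∈ Icc (y₀ - 2 * δ) (y₀ + 2 * δ),
        ‖h (-x + y * I) - h (-x + y' * I)‖ ≤ η := by
  have H := hS.hc2
  have hκ := hS.κpos
  have h1 := (H.most hη).and (Ioo_mem_nhdsGT (show (0 : ℝ) < κ / 8 by positivity))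
  obtain ⟨u, hu, hu2⟩ := (mem_nhdsGT_iff_exists_Ioo_subset).mp h1
  have hu0 : (0 : ℝ) < u := hu
  set δ₀ : ℝ := u / 2 with hδ₀
  have hδ₀0 : 0 < δ₀ := by positivity
  have hin : ∀ δ ∈ Ioc 0 δ₀, δ ∈ Ioo 0 u := fun δ hδ => ⟨hδ.1, by linarith [hδ.2]⟩
  have hδκ : δ₀ < κ / 8 := (hu2 (hin δ₀ ⟨hδ₀0, le_rfl⟩)).2.2
  refine ⟨δ₀, hδ₀0, by linarith, fun δ hδ y₀ => ?_⟩
  have h2 := ((hu2 (hin δ hδ)).1 (y₀ - 2 * δ)).2
  have hc4 : y₀ - 2 * δ + 4 * δ = y₀ + 2 * δ := by ring
  rw [hc4] at h2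
  have hδ0 := hδ.1
  obtain ⟨x, hxm, hxl⟩ : ∃ x ∈ Ioo δ (2 * δ),
      ∫⁻ y in Ioo (y₀ - 2 * δ) (y₀ + 2 * δ), ENNReal.ofReal (rr h x y) ≤ ENNReal.ofReal η := by
    by_contra hcon
    push Not at hcon
    have hsub : Ioo δ (2 * δ) ⊆ {x ∈ Ioo δ (2 * δ) | ENNReal.ofReal η ≤
        ∫⁻ y in Ioo (y₀ - 2 * δ) (y₀ + 2 * δ), ENNReal.ofReal (rr h x y)} :=
      fun x hx => ⟨hx, (hcon x hx).le⟩
    have h1 := (measure_mono hsub).trans h2
    rw [Real.volume_Ioo, ENNReal.ofReal_le_ofReal_iff (by positivity)] at h1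
    linarith
  refine ⟨x, hxm, ?_⟩
  have key : ∀ y ∈ Icc (y₀ - 2 * δ) (y₀ + 2 * δ), ∀ y' ∈ Icc (y₀ - 2 * δ) (y₀ + 2 * δ), y ≤ y' →
      ‖h (-x + y * I) - h (-x + y' * I)‖ ≤ η := by
    intro y hy y' hy' hyy
    have h3 := H.edist_y (x := x) (by linarith [hxm.1]) (by linarith [hxm.2, hδ.2]) hyy
    have h4 : edist (hh h x y) (hh h x y') ≤ ENNReal.ofReal η := by
      refine h3.trans (le_trans ?_ hxl)
      exact lintegral_mono_set (Ioo_subset_Ioo hy.1 hy'.2)
    rw [edist_dist, dist_eq_norm] at h4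
    have h5 := (ENNReal.ofReal_le_ofReal_iff hη.le).mp h4
    simpa [hh] using h5
  intro y hy y' hy'
  rcases le_total y y' with h3 | h3
  · exact key y hy y' hy' h3
  · rw [norm_sub_rev]
    exact key y' hy' y hy h3

/-- the means converge to the mean of the radial limits -/
theorem Side.means (hS : Side κ h) (E : ℂ ≃ₜ ℂ) {φ : ℂ → ℝ} (hφ : Continuous φ) :
    Tendsto (fun x : ℝ => ∫ y in (0:ℝ)..2 * Real.pi, φ (E.symm (h (x + y * I)))) (𝓝[<] 0)
      (𝓝 (∫ y in (0:ℝ)..2 * Real.pi, φ (E.symm (sx h y)))) := by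
  have H := hS.hc2
  obtain ⟨R, hR⟩ := hS.bd
  have hψ : Continuous (fun z => φ (E.symm z)) := hφ.comp E.symm.continuous
  obtain ⟨C, hC⟩ := (isCompact_closedBall (0 : ℂ) R).exists_bound_of_continuousOn hψ.continuousOn
  have h1 := law_tend (h := hh h) (u := fun y => sx h y) ?_ ?_ hψ (C := C) ?_
  · rw [integral_mu2] at h1
    have h2 := (h1.comp tendsto_neg_lt).const_mul (2 * Real.pi)
    have h3 : 2 * Real.pi * ((2 * Real.pi)⁻¹ *
        ∫ y in (0 : ℝ)..(2 * Real.pi), φ (E.symm (sx h y))) =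
        ∫ y in (0 : ℝ)..(2 * Real.pi), φ (E.symm (sx h y)) := by
      rw [← mul_assoc, mul_inv_cancel₀ Real.two_pi_pos.ne', one_mul]
    rw [h3] at h2
    refine h2.congr fun x => ?_
    simp only [Function.comp_apply]
    rw [integral_mu2, ← mul_assoc, mul_inv_cancel₀ Real.two_pi_pos.ne', one_mul]
    simp only [hh_neg]
  · filter_upwards [Ioo_mem_nhdsGT H.pos] with x hx
    exact H.cont_y hx.1 hx.2
  · filter_upwards [hS.ae_good] with y hy
    rw [hS.sx_eq hy]
    exact H.rl_tendsto ((good_iff_gd κ h y).mp hy)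
  · filter_upwards [Ioo_mem_nhdsGT H.pos] with x hx
    intro y
    have h2 : ‖hh h x y‖ ≤ R := by
      refine hR _ (mem_SL_iff.mpr ⟨?_, ?_⟩)
      · linarith [hx.2, hS.κpos]
      · linarith [hx.1]
    have h3 := hC (hh h x y) (mem_closedBall_zero_iff.mpr h2)
    rwa [Real.norm_eq_abs] at h3

variable {E₁ E₂ : ℂ ≃ₜ ℂ} {h₁ h₂ : ℂ → ℂ}

theorem aem_ends {κ : ℝ} {E : ℂ ≃ₜ ℂ} {h : ℂ → ℂ} (hS : Side κ h) :
    AEMeasurable (fun y => E.symm (sx h y)) mu2 :=
  E.symm.continuous.measurable.comp_aemeasurable (hS.measurable_sx.mono_ac mu2_ac)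

theorem Weld.laws (W : Weld κ E₁ E₂ h₁ h₂) :
    Measure.map (fun y => E₁.symm (sx h₁ y)) mu2 = Measure.map (fun y => E₂.symm (sx h₂ y)) mu2 := by
  refine law_ext (aem_ends W.s1) (aem_ends W.s2) fun φ hφ hc => ?_
  obtain ⟨τ, h1, h2⟩ := W.means φ hφ hc
  have h3 := tendsto_nhds_unique h1 (W.s1.means E₁ hφ)
  have h4 := tendsto_nhds_unique h2 (W.s2.means E₂ hφ)
  rw [integral_mu2, integral_mu2, ← h3, ← h4]

theorem mu2_apply (S : Set ℝ) :
    mu2 S = (ENNReal.ofReal (2 * Real.pi))⁻¹ * volume (S ∩ Ioc 0 (2 * Real.pi)) := by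
  rw [mu2, Measure.smul_apply, smul_eq_mul, Measure.restrict_apply' measurableSet_Ioc]

/-- the two laws are equal -/
theorem Weld.law (W : Weld κ E₁ E₂ h₁ h₂) {S : Set ℂ} (hS : MeasurableSet S) :
    volume {y ∈ Ioc 0 (2 * Real.pi) | E₁.symm (sx h₁ y) ∈ S} =
      volume {y ∈ Ioc 0 (2 * Real.pi) | E₂.symm (sx h₂ y) ∈ S} := by
  have h1 := congrArg (fun m : Measure ℂ => m S) W.laws
  change Measure.map _ _ S = Measure.map _ _ S at h1
  rw [Measure.map_apply_of_aemeasurable (aem_ends W.s1) hS,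
    Measure.map_apply_of_aemeasurable (aem_ends W.s2) hS, mu2_apply, mu2_apply] at h1
  have h2 := (ENNReal.mul_right_inj (ENNReal.inv_ne_zero.mpr ENNReal.ofReal_ne_top)
    (ENNReal.inv_ne_top.mpr (ENNReal.ofReal_pos.mpr Real.two_pi_pos).ne')).mp h1
  have e : ∀ u : ℝ → ℂ, {y ∈ Ioc 0 (2 * Real.pi) | u y ∈ S} =
      (u ⁻¹' S) ∩ Ioc 0 (2 * Real.pi) := by
    intro u
    ext y
    simp only [mem_setOf_eq, mem_inter_iff, mem_preimage]
    tauto
  rw [e (fun y => E₁.symm (sx h₁ y)), e (fun y => E₂.symm (sx h₂ y))]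
  exact h2

/-- Almost every end of the first collar is an end of the second one (Egorov: there are compact
sets `K` of good heights with `sx h₂` continuous on `K`, of almost full measure; the image of `K`
is compact, use `Weld.law`). -/
theorem Weld.pair (W : Weld κ E₁ E₂ h₁ h₂) :
    ∀ᵐ y : ℝ, ∃ t : ℝ, Good κ h₂ t ∧ E₁.symm (sx h₁ y) = E₂.symm (sx h₂ t) := by
  refine ae_of_mu2 (fun y => by rw [W.s1.sx_per]) ?_
  have H := W.s2.hc2
  have hκ2 := H.pos
  have h1 := matched (aem_ends W.s1)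
    (vn := fun (n : ℕ) t => E₂.symm (hh h₂ (κ / 2 / ((n : ℝ) + 2)) t)) ?_ ?_ W.laws
    (E := {t | Good κ h₂ t}) ?_
  · filter_upwards [h1] with y hy
    obtain ⟨t, ht, he⟩ := hy
    exact ⟨t, ht, he.symm⟩
  · intro n
    refine E₂.symm.continuous.comp (H.cont_y ?_ (seq_lt hκ2 n))
    positivity
  · refine mu2_ae ?_
    filter_upwards [W.s2.ae_good] with y hy
    have h2 := (H.rl_tendsto ((good_iff_gd κ h₂ y).mp hy)).comp (seq_tend hκ2)
    rw [← W.s2.sx_eq hy] at h2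
    exact (E₂.symm.continuous.tendsto _).comp h2
  · exact mu2_ae W.s2.ae_good

end Pool.Agent.FB018
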