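import Mathlib
import Pool.Agent.Lib.MP_018119_an_FB.VrB

/-!
# MP_018119_an, free interface: the index of the boundary of a rectangle
-/

set_option autoImplicit false

open Filter Topology Set Metric
open Complex (I exp)

namespace Pool.Agent.FB018

/-- The variation along the boundary of `[x, x'] × [y₁, y₂]`, counterclockwise. -/
noncomputable def Rct (u : ℂ → ℂ) (x x' y₁ y₂ : ℝ) (z : ℂ) : ℂ :=
  Vr (fun t : ℝ => u (t + y₁ * I)) x x' z + Vr (fun t : ℝ => u (x' + t * I)) y₁ y₂ z -
    Vr (fun t : ℝ => u (t + y₂ * I)) x x' z - Vr (fun t : ℝ => u (x + t * I)) y₁ y₂ z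

theorem rct_out {x x' y₁ y₂ : ℝ} (hx : x ≤ x') (hy : y₁ ≤ y₂) {w : ℂ} (hw : w.re < x) :
    Rct (fun v => v) x x' y₁ y₂ w = 0 := by
  have h1 : ∀ c : ℝ → ℂ, Continuous c → ∀ a b : ℝ, a ≤ b → (∀ t ∈ Icc a b, x ≤ (c t).re) →
      Vr c a b w = Complex.log ((c b - w) / 1) - Complex.log ((c a - w) / 1) := by
    intro c hc a b hab ht
    refine vr_slit hab hc.continuousOn one_ne_zero fun t htt => Or.inl ?_
    rw [div_one, Complex.sub_re]
    linarith [ht t htt]
  unfold Rct
  rw [h1 _ (by fun_prop) _ _ hx (fun t ht => by simpa using ht.1),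
    h1 _ (by fun_prop) _ _ hy (fun t _ => by simpa using hx),
    h1 _ (by fun_prop) _ _ hx (fun t ht => by simpa using ht.1),
    h1 _ (by fun_prop) _ _ hy (fun t _ => by simp)]
  ring

/-- The imaginary part of the logarithm of the quotient. -/
theorem rct_arg {p q : ℂ} (h : 0 < q.im * p.re - q.re * p.im) :
    0 < (Complex.log (q / p)).im ∧ (Complex.log (q / p)).im < Real.pi := by
  have hp : p ≠ 0 := by
    rintro rfl
    simp at h
  have h1 : 0 < (q / p).im := by
    rw [Complex.div_im]
    have h2 : 0 < Complex.normSq p := Complex.normSq_pos.2 hp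
    rw [← sub_div]
    exact div_pos (by linarith) h2
  rw [Complex.log_im]
  refine ⟨?_, ?_⟩
  · rcases (Complex.arg_nonneg_iff.2 h1.le).lt_or_eq with h2 | h2
    · exact h2
    · have := Complex.arg_eq_zero_iff.1 h2.symm
      linarith [this.2]
  · rcases (Complex.arg_le_pi (q / p)).lt_or_eq with h2 | h2
    · exact h2
    · have := Complex.arg_eq_pi_iff.1 h2
      linarith [this.2]

theorem rct_side {c : ℝ → ℂ} (hc : Continuous c) {a b : ℝ} (hab : a ≤ b) {w u : ℂ} (hu : u ≠ 0)
    (h : ∀ t ∈ Icc a b, 0 < ((c t - w) / u).re) :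
    Vr c a b w = Complex.log ((c b - w) / u) - Complex.log ((c a - w) / u) :=
  vr_slit hab hc.continuousOn hu fun t ht => Or.inl (h t ht)

/-- Multiplication with `I` of a number in the open fourth quadrant. -/
theorem rct_quad {z : ℂ} (h1 : 0 < z.re) (h2 : z.im < 0) :
    Complex.log (z * I) - Complex.log z = (Real.pi / 2 : ℝ) * I := by
  have hz : z ≠ 0 := by
    rintro rfl
    simp at h1
  have e1 : Complex.log (z * I) = Complex.log z + Complex.log I := by
    refine (Complex.log_mul_eq_add_log_iff hz Complex.I_ne_zero).2 ?_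
    rw [Complex.arg_I]
    have a1 := abs_lt.1 (Complex.abs_arg_lt_pi_div_two_iff.2 (Or.inl h1))
    have a2 := Real.pi_pos
    exact ⟨by linarith [a1.1], by linarith [a1.2]⟩
  rw [e1, Complex.log_I]
  push_cast
  ring

theorem rct_in {x x' y₁ y₂ : ℝ} {w : ℂ} (h1 : x < w.re) (h2 : w.re < x') (h3 : y₁ < w.im)
    (h4 : w.im < y₂) : Rct (fun v => v) x x' y₁ y₂ w = 2 * Real.pi * I := by
  have hx : x ≤ x' := by linarith
  have hy : y₁ ≤ y₂ := by linarith
  have hI : (-I : ℂ) ≠ 0 := neg_ne_zero.2 Complex.I_ne_zero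
  have h1I : (-1 : ℂ) ≠ 0 := by norm_num
  unfold Rct
  rw [rct_side (u := -I) (by fun_prop) hx hI (fun t _ => by simpa [Complex.div_re] using h3),
    rct_side (u := 1) (by fun_prop) hy one_ne_zero (fun t _ => by simpa using h2),
    rct_side (u := I) (by fun_prop) hx Complex.I_ne_zero
      (fun t _ => by simpa [Complex.div_re] using h4),
    rct_side (u := -1) (by fun_prop) hy h1I (fun t _ => by simpa [div_neg] using h1)]
  -- the four corners
  set p1 : ℂ := (x' : ℂ) + y₁ * I - w with hp1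
  set p2 : ℂ := (x' : ℂ) + y₂ * I - w with hp2
  set p3 : ℂ := (x : ℂ) + y₂ * I - w with hp3
  set p4 : ℂ := (x : ℂ) + y₁ * I - w with hp4
  have q1 := rct_quad (z := p1 / 1) (by simp [hp1]; linarith) (by simp [hp1]; linarith)
  have q2 := rct_quad (z := p2 / I) (by simp [hp2]; linarith) (by simp [hp2]; linarith)
  have q3 := rct_quad (z := p3 / (-1)) (by simp [hp3, div_neg]; linarith)
    (by simp [hp3, div_neg]; linarith)
  have q4 := rct_quad (z := p4 / (-I)) (by simp [hp4, div_neg]; linarith)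
    (by simp [hp4, div_neg]; linarith)
  have r1 : p1 / 1 * I = p1 / (-I) := by rw [div_one, div_neg, Complex.div_I, neg_neg]
  have r2 : p2 / I * I = p2 / 1 := by rw [div_one, div_mul_cancel₀ _ Complex.I_ne_zero]
  have r3 : p3 / (-1) * I = p3 / I := by rw [div_neg, div_one, Complex.div_I]; ring
  have r4 : p4 / (-I) * I = p4 / (-1) := by
    rw [div_neg, div_neg, div_one, Complex.div_I]
    linear_combination p4 * Complex.I_mul_I
  rw [r1] at q1
  rw [r2] at q2
  rw [r3] at q3
  rw [r4] at q4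
  push_cast at q1 q2 q3 q4
  linear_combination q1 + q2 + q3 + q4

end Pool.Agent.FB018
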