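import Mathlib
import Pool.Agent.Lib.MP_018119_an_FB.WDefs
import Pool.Agent.Lib.MP_018119_an_FB.WRad
import Pool.Agent.Lib.MP_018119_an_FB.WRect
import Pool.Agent.Lib.MP_018119_an_FB.WHom
import Pool.Agent.Lib.MP_018119_an_FB.JLem

/-!
# MP_018119_an, project FB, block WELD: the jump of the index

`u = ux E h`; the curve consists of the three sides of the box `[x, 0] × [y₁, y₂]` and of a rest with
the variation `τ z`.  The index is constant outside the box and larger by one inside.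

Proof.  Let `O = {w ∈ SL κ | re w < x ∨ y₂ < im w < y₁ + 2 π}` and `W` the open box.  `O` and `W` are
preconnected, `u` maps them off the sides (`Side.inj`, `Side.sx_ne`), `Ush + τ` is continuous there and
is a logarithm of 1: constant (`log_one_const`).  Jump: let `x < x' < 0`.  By `vr_add` the difference
of `Ush u x y₁ y₂ z` and `Ush u x' y₁ y₂ z` is the variation along the boundary of the rectangle
`[x, x'] × [y₁, y₂]` (counterclockwise), for `z = E.symm (h w)` it is `2 π i` if `w` is inside and 0 if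
`re w < x` (rectangle lemma: by the homeomorphism lemma it is the same as for `h` and `h w`;
`h v - h w = (v - w) q (v)` with a continuous nonvanishing `q` on the closed rectangle, which has a
logarithm).  And `Ush u x' y₁ y₂ + τ` is constant on `u {re w < x'}`.
-/

set_option autoImplicit false

open MeasureTheory Set Metric Filter Topology
open Complex (I exp)

noncomputable section

namespace Pool.Agent.FB018

variable {κ : ℝ} {h : ℂ → ℂ} {E : ℂ ≃ₜ ℂ}

theorem ux_neg {w : ℂ} (hw : w.re < 0) : ux E h w = E.symm (h w) := by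
  simp [ux, hx, hw]

theorem ux_zero (y : ℝ) : ux E h (((0 : ℝ) : ℂ) + y * I) = E.symm (sx h y) := by
  simp [ux, hx]

/-- the sides are compact -/
theorem Side.isCompact_Usd (hS : Side κ h) {x y₁ y₂ : ℝ} (hx : x ∈ Ioo (-κ) 0) (hy : y₁ < y₂)
    (g1 : Rl h y₁) (g2 : Rl h y₂) : IsCompact (Usd (ux E h) x y₁ y₂) :=
  ((isCompact_Icc.image_of_continuousOn (hS.cont_hor g1 hx E)).union
    (isCompact_Icc.image_of_continuousOn (hS.cont_hor g2 hx E))).union
    (isCompact_Icc.image (hS.cont_ver hx E))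

theorem notMem_Usd_iff {u : ℂ → ℂ} {x y₁ y₂ : ℝ} {z : ℂ} : z ∉ Usd u x y₁ y₂ ↔
    (∀ t ∈ Icc x 0, u (((t : ℝ) : ℂ) + y₁ * I) ≠ z) ∧
      (∀ t ∈ Icc x 0, u (((t : ℝ) : ℂ) + y₂ * I) ≠ z) ∧
      ∀ t ∈ Icc y₁ y₂, u ((x : ℂ) + (t : ℝ) * I) ≠ z := by
  unfold Usd
  simp only [mem_union, mem_image, not_or, not_exists, not_and, and_assoc]

/-- the variation along the three sides is continuous off the sides -/
theorem Side.Ush_continuousAt (hS : Side κ h) {x y₁ y₂ : ℝ} (hx : x ∈ Ioo (-κ) 0) (hy : y₁ < y₂)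
    (g1 : Rl h y₁) (g2 : Rl h y₂) {z : ℂ} (hz : z ∉ Usd (ux E h) x y₁ y₂) :
    ContinuousAt (Ush (ux E h) x y₁ y₂) z := by
  obtain ⟨h1, h2, h3⟩ := notMem_Usd_iff.1 hz
  exact ((vr_continuousAt hx.2.le (hS.cont_hor g1 hx E) h1).sub
    (vr_continuousAt hx.2.le (hS.cont_hor g2 hx E) h2)).sub
    (vr_continuousAt hy.le (hS.cont_ver hx E).continuousOn h3)

/-- the variation along the three sides is a logarithm of the quotient of the ends -/
theorem Side.exp_Ush (hS : Side κ h) {x y₁ y₂ : ℝ} (hx : x ∈ Ioo (-κ) 0) (hy : y₁ < y₂)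
    (g1 : Rl h y₁) (g2 : Rl h y₂) {z : ℂ} (hz : z ∉ Usd (ux E h) x y₁ y₂) :
    exp (Ush (ux E h) x y₁ y₂ z) = (E.symm (sx h y₁) - z) / (E.symm (sx h y₂) - z) := by
  obtain ⟨h1, h2, h3⟩ := notMem_Usd_iff.1 hz
  have e1 := exp_vr hx.2.le (hS.cont_hor g1 hx E) h1
  have e2 := exp_vr hx.2.le (hS.cont_hor g2 hx E) h2
  have e3 := exp_vr hy.le (hS.cont_ver hx E).continuousOn h3
  have m0 : (0 : ℝ) ∈ Icc x 0 := right_mem_Icc.2 hx.2.le
  have mx : x ∈ Icc x 0 := left_mem_Icc.2 hx.2.le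
  have n1 := h1 0 m0
  have n2 := h1 x mx
  have n3 := h2 0 m0
  have n4 := h2 x mx
  rw [ux_zero] at n1 n3
  simp only [ux_zero] at e1 e2
  have n1' := sub_ne_zero.2 n1
  have n2' := sub_ne_zero.2 n2
  have n3' := sub_ne_zero.2 n3
  have n4' := sub_ne_zero.2 n4
  have alg : ∀ a b c d : ℂ, a ≠ 0 → b ≠ 0 → c ≠ 0 → d ≠ 0 →
      a / b / (c / d) / (d / b) = a / c := by
    intro a b c d _ _ _ _
    field_simp
  unfold Ush
  rw [Complex.exp_sub, Complex.exp_sub, e1, e2, e3]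
  exact alg _ _ _ _ n1' n2' n3' n4'

/-- points of the collar outside of the box and inside of the open box are not on the sides -/
theorem Side.notMem_Usd (hS : Side κ h) {x y₁ y₂ : ℝ} (hx : x ∈ Ioo (-κ) 0) (hy : y₁ < y₂)
    (hy' : y₂ < y₁ + 2 * Real.pi) (g1 : Rl h y₁) (g2 : Rl h y₂) {w : ℂ} (hw : w ∈ SL κ)
    (ho : w.re < x ∨ (y₂ < w.im ∧ w.im < y₁ + 2 * Real.pi) ∨
      (x < w.re ∧ y₁ < w.im ∧ w.im < y₂)) : E.symm (h w) ∉ Usd (ux E h) x y₁ y₂ := by
  have hpi := Real.pi_pos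
  -- the equation of values
  have key : ∀ t s : ℝ, x ≤ t → t < 0 → ux E h ((t : ℂ) + s * I) = E.symm (h w) →
      t = w.re ∧ ∃ n : ℤ, w.im = s + n * (2 * Real.pi) := by
    intro t s ht1 ht2 he
    have hm : ((t : ℂ) + s * I) ∈ SL κ := by
      refine ⟨?_, ?_⟩
      · simpa using hx.1.trans_le ht1
      · simpa using ht2
    rw [ux_neg (by simpa using ht2)] at he
    obtain ⟨n, hn⟩ := hS.inj _ hm _ hw (E.symm.injective he)
    refine ⟨?_, n, ?_⟩
    · rw [hn]; simp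
    · rw [hn]; simp
  have zero : ∀ y : ℝ, Rl h y → ux E h (((0 : ℝ) : ℂ) + y * I) ≠ E.symm (h w) := by
    intro y hy he
    rw [ux_zero] at he
    exact hS.sx_ne hy hw (E.symm.injective he)
  have int1 : ∀ n : ℤ, -1 < (n : ℝ) → 0 ≤ n := by
    intro n hn
    have : (-1 : ℤ) < n := by exact_mod_cast hn
    omega
  have int2 : ∀ n : ℤ, (n : ℝ) < 1 → n ≤ 0 := by
    intro n hn
    have : n < (1 : ℤ) := by exact_mod_cast hn
    omega
  rw [notMem_Usd_iff]
  refine ⟨?_, ?_, ?_⟩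
  · intro t ht he
    rcases ht.2.lt_or_eq with h0 | h0
    · obtain ⟨a1, n, hn⟩ := key t y₁ ht.1 h0 he
      rcases ho with h1 | ⟨h1, h2⟩ | ⟨h1, h2, h3⟩
      · linarith [ht.1]
      · have b1 := int1 n (by nlinarith)
        have b2 := int2 n (by nlinarith)
        have b3 : n = 0 := le_antisymm b2 b1
        rw [b3] at hn
        simp at hn
        linarith
      · have b1 := int1 n (by nlinarith)
        have b2 := int2 n (by nlinarith)
        have b3 : n = 0 := le_antisymm b2 b1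
        rw [b3] at hn
        simp at hn
        linarith
    · subst h0
      exact zero y₁ g1 he
  · intro t ht he
    rcases ht.2.lt_or_eq with h0 | h0
    · obtain ⟨a1, n, hn⟩ := key t y₂ ht.1 h0 he
      rcases ho with h1 | ⟨h1, h2⟩ | ⟨h1, h2, h3⟩
      · linarith [ht.1]
      · have b1 := int1 n (by nlinarith)
        have b2 := int2 n (by nlinarith)
        have b3 : n = 0 := le_antisymm b2 b1
        rw [b3] at hn
        simp at hn
        linarith
      · have b1 := int1 n (by nlinarith)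
        have b2 := int2 n (by nlinarith)
        have b3 : n = 0 := le_antisymm b2 b1
        rw [b3] at hn
        simp at hn
        linarith
    · subst h0
      exact zero y₂ g2 he
  · intro t ht he
    obtain ⟨a1, n, hn⟩ := key x t le_rfl hx.2 he
    rcases ho with h1 | ⟨h1, h2⟩ | ⟨h1, h2, h3⟩
    · linarith
    · have b1 := int1 n (by nlinarith [ht.1, ht.2])
      have b2 := int2 n (by nlinarith [ht.1, ht.2])
      have b3 : n = 0 := le_antisymm b2 b1
      rw [b3] at hn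
      simp at hn
      linarith [ht.1, ht.2]
    · linarith

/-- The index of the image of the boundary of a rectangle. -/
theorem Side.rct (hS : Side κ h) (hE : Pos E) {x x' y₁ y₂ : ℝ} (hx : -κ < x) (hxx : x < x')
    (hx' : x' < 0) (hy : y₁ < y₂) (hy' : y₂ < y₁ + 2 * Real.pi) {w : ℂ} (hw : w ∈ SL κ)
    (h1 : w.re ≠ x) (h2 : w.re < x') (h3 : y₁ < w.im) (h4 : w.im < y₂) :
    Rct (ux E h) x x' y₁ y₂ (E.symm (h w)) = Rct (fun v => v) x x' y₁ y₂ w := by
  obtain ⟨V, hV, hVn, hVd⟩ := hE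
  obtain ⟨M, hM, hM'⟩ := exists_hom_log E hV hVn hVd
  -- a convex region on which `h` is injective
  set ε : ℝ := (2 * Real.pi - (y₂ - y₁)) / 2 with hε
  have hε0 : 0 < ε := by rw [hε]; linarith
  set R : Set ℂ := {v | -κ < v.re} ∩ {v | v.re < 0} ∩ ({v | y₁ - ε < v.im} ∩ {v | v.im < y₂ + ε})
    with hR
  have hRo : IsOpen R := ((isOpen_lt continuous_const Complex.continuous_re).inter
    (isOpen_lt Complex.continuous_re continuous_const)).inter
    ((isOpen_lt continuous_const Complex.continuous_im).inter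
      (isOpen_lt Complex.continuous_im continuous_const))
  have hRc : Convex ℝ R := ((convex_halfSpace_re_gt _).inter (convex_halfSpace_re_lt _)).inter
    ((convex_halfSpace_im_gt _).inter (convex_halfSpace_im_lt _))
  have hRS : R ⊆ SL κ := fun v hv => ⟨hv.1.1, hv.1.2⟩
  have hRi : InjOn h R := by
    intro v hv v' hv' he
    obtain ⟨n, hn⟩ := hS.inj v (hRS hv) v' (hRS hv') he
    have him : v'.im = v.im + n * (2 * Real.pi) := by rw [hn]; simp
    have hpi := Real.pi_pos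
    have a1 : y₁ - ε < v.im := hv.2.1
    have a2 : v.im < y₂ + ε := hv.2.2
    have a3 : y₁ - ε < v'.im := hv'.2.1
    have a4 : v'.im < y₂ + ε := hv'.2.2
    have a5 : y₂ + ε - (y₁ - ε) = 2 * Real.pi := by rw [hε]; ring
    have b1 : -1 < (n : ℝ) := by nlinarith
    have b2 : (n : ℝ) < 1 := by nlinarith
    have c1 : (-1 : ℤ) < n := by exact_mod_cast b1
    have c2 : n < (1 : ℤ) := by exact_mod_cast b2
    have c3 : n = 0 := by omega
    rw [hn, c3]
    simp
  obtain ⟨l, hl, hl'⟩ := exists_dd_log hRo hRc (hS.hol.mono hRS) hRi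
  have hwR : w ∈ R := ⟨⟨hw.1, hw.2⟩, ⟨by simp only [mem_setOf_eq]; linarith,
    by simp only [mem_setOf_eq]; linarith⟩⟩
  set N : ℂ → ℂ := fun v => l (v, w) - M (ux E h v, ux E h w) with hN
  have hwn : w.re < 0 := hw.2
  have hhc : ContinuousOn h (SL κ) := hS.hol.continuousOn
  -- one side
  have side : ∀ (c : ℝ → ℂ) (a b : ℝ), Continuous c → a ≤ b → (∀ t ∈ Icc a b, c t ∈ R) →
      (∀ t ∈ Icc a b, c t ≠ w) → Vr (fun t => ux E h (c t)) a b (E.symm (h w)) =
        Vr c a b w + (N (c b) - N (c a)) := by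
    intro c a b hc hab hcR hcw
    have hne : ∀ t ∈ Icc a b, ux E h (c t) ≠ ux E h w := by
      intro t ht he
      rw [ux_neg (hcR t ht).1.2, ux_neg hwn] at he
      exact hcw t ht (hRi (hcR t ht) hwR (E.symm.injective he))
    have huc : ContinuousOn (fun t => ux E h (c t)) (Icc a b) := by
      have e1 : ContinuousOn (fun t => E.symm (h (c t))) (Icc a b) :=
        E.symm.continuous.comp_continuousOn
          (hhc.comp hc.continuousOn fun t ht => hRS (hcR t ht))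
      refine e1.congr fun t ht => ?_
      exact ux_neg (hcR t ht).1.2
    refine vr_mul_exp (M := fun t => N (c t)) hab hc.continuousOn hcw ?_ ?_
    · refine ContinuousOn.sub ?_ ?_
      · exact hl.comp (hc.continuousOn.prodMk continuousOn_const) fun t ht => ⟨hcR t ht, hwR⟩
      · exact hM.comp (huc.prodMk continuousOn_const) fun t ht => hne t ht
    · intro t ht
      have e1 := hM' _ _ (hne t ht)
      have e2 := hl' (c t) (hcR t ht) w hwR
      rw [ux_neg (hcR t ht).1.2, ux_neg hwn] at e1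
      rw [E.apply_symm_apply, E.apply_symm_apply, e2] at e1
      simp only [hN]
      rw [ux_neg (hcR t ht).1.2, ux_neg hwn, Complex.exp_sub]
      rw [div_mul_eq_mul_div, e1, mul_comm, mul_div_assoc, div_self (Complex.exp_ne_zero _),
        mul_one]
  have inR : ∀ s t : ℝ, x ≤ s → s ≤ x' → y₁ ≤ t → t ≤ y₂ → ((s : ℂ) + t * I) ∈ R := by
    intro s t a1 a2 a3 a4
    refine ⟨⟨?_, ?_⟩, ?_, ?_⟩
    · simpa using hx.trans_le a1
    · simpa using a2.trans_lt hx'
    · simp only [mem_setOf_eq]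
      simp
      linarith
    · simp only [mem_setOf_eq]
      simp
      linarith
  have avoid_im : ∀ s t : ℝ, t ≠ w.im → ((s : ℂ) + t * I) ≠ w := by
    rintro s t a1 rfl
    exact a1 (by simp)
  have avoid_re : ∀ s t : ℝ, s ≠ w.re → ((s : ℂ) + t * I) ≠ w := by
    rintro s t a1 rfl
    exact a1 (by simp)
  have s1 := side (fun t : ℝ => (t : ℂ) + y₁ * I) x x' (by fun_prop) hxx.le
    (fun t ht => inR t y₁ ht.1 ht.2 le_rfl hy.le) (fun t _ => avoid_im t y₁ h3.ne)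
  have s2 := side (fun t : ℝ => (x' : ℂ) + t * I) y₁ y₂ (by fun_prop) hy.le
    (fun t ht => inR x' t hxx.le le_rfl ht.1 ht.2) (fun t _ => avoid_re x' t h2.ne')
  have s3 := side (fun t : ℝ => (t : ℂ) + y₂ * I) x x' (by fun_prop) hxx.le
    (fun t ht => inR t y₂ ht.1 ht.2 hy.le le_rfl) (fun t _ => avoid_im t y₂ h4.ne')
  have s4 := side (fun t : ℝ => (x : ℂ) + t * I) y₁ y₂ (by fun_prop) hy.le
    (fun t ht => inR x t le_rfl hxx.le ht.1 ht.2) (fun t _ => avoid_re x t h1.symm)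
  unfold Rct
  rw [s1, s2, s3, s4]
  ring

/-- The difference of two shapes is a rectangle. -/
theorem Side.Ush_sub (hS : Side κ h) {x x' y₁ y₂ : ℝ} (hx : x ∈ Ioo (-κ) 0) (hxx : x < x')
    (hx' : x' < 0) (g1 : Rl h y₁) (g2 : Rl h y₂) {z : ℂ} (hz : z ∉ Usd (ux E h) x y₁ y₂) :
    Ush (ux E h) x y₁ y₂ z = Ush (ux E h) x' y₁ y₂ z + Rct (ux E h) x x' y₁ y₂ z := by
  obtain ⟨h1, h2, h3⟩ := notMem_Usd_iff.1 hz
  have a1 := vr_add hxx.le hx'.le (hS.cont_hor g1 hx E) h1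
  have a2 := vr_add hxx.le hx'.le (hS.cont_hor g2 hx E) h2
  unfold Ush Rct
  rw [a1, a2]
  ring

/-- **The jump.** -/
theorem Side.jump (hS : Side κ h) (hE : Pos E) {x y₁ y₂ : ℝ} (hx : x ∈ Ioo (-κ) 0) (hy : y₁ < y₂)
    (hy' : y₂ < y₁ + 2 * Real.pi) (g1 : Rl h y₁) (g2 : Rl h y₂) {τ : ℂ → ℂ}
    (hτ : ContinuousOn τ ((fun w => E.symm (h w)) '' SL κ))
    (hcl : ∀ w ∈ SL κ, exp (τ (E.symm (h w))) =
      (E.symm (sx h y₂) - E.symm (h w)) / (E.symm (sx h y₁) - E.symm (h w))) :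
    ∃ m : ℂ, (∀ w ∈ SL κ, (w.re < x ∨ (y₂ < w.im ∧ w.im < y₁ + 2 * Real.pi)) →
        Ush (ux E h) x y₁ y₂ (E.symm (h w)) + τ (E.symm (h w)) = m) ∧
      ∀ w ∈ SL κ, x < w.re → y₁ < w.im → w.im < y₂ →
        Ush (ux E h) x y₁ y₂ (E.symm (h w)) + τ (E.symm (h w)) = m + 2 * Real.pi * I := by
  have hwc : ContinuousOn (fun w => E.symm (h w)) (SL κ) :=
    E.symm.continuous.comp_continuousOn hS.hol.continuousOn
  have hne : ∀ y : ℝ, Rl h y → ∀ w ∈ SL κ, E.symm (sx h y) - E.symm (h w) ≠ 0 := by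
    intro y hy w hw he
    exact hS.sx_ne hy hw (E.symm.injective (sub_eq_zero.1 he))
  -- constancy on preconnected sets off the sides
  have cst : ∀ x' ∈ Ioo (-κ) 0, ∀ S : Set ℂ, IsPreconnected S → S ⊆ SL κ →
      (∀ w ∈ S, w.re < x' ∨ (y₂ < w.im ∧ w.im < y₁ + 2 * Real.pi) ∨
        (x' < w.re ∧ y₁ < w.im ∧ w.im < y₂)) → ∀ w ∈ S, ∀ w' ∈ S,
      Ush (ux E h) x' y₁ y₂ (E.symm (h w)) + τ (E.symm (h w)) =
        Ush (ux E h) x' y₁ y₂ (E.symm (h w')) + τ (E.symm (h w')) := by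
    intro x' hx' S hSc hSS hSo w hw w' hw'
    have hn : ∀ v ∈ S, E.symm (h v) ∉ Usd (ux E h) x' y₁ y₂ := fun v hv =>
      hS.notMem_Usd hx' hy hy' g1 g2 (hSS hv) (hSo v hv)
    refine log_one_const hSc (M := fun w => Ush (ux E h) x' y₁ y₂ (E.symm (h w)) +
      τ (E.symm (h w))) ?_ ?_ hw hw'
    · refine ContinuousOn.add ?_ ?_
      · intro v hv
        exact (hS.Ush_continuousAt hx' hy g1 g2 (hn v hv)).comp_continuousWithinAt
          (f := fun w => E.symm (h w)) ((hwc v (hSS hv)).mono hSS)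
      · exact hτ.comp (hwc.mono hSS) fun v hv => mem_image_of_mem _ (hSS hv)
    · intro v hv
      rw [Complex.exp_add, hS.exp_Ush hx' hy g1 g2 (hn v hv), hcl v (hSS hv)]
      have b1 := hne y₁ g1 v (hSS hv)
      have b2 := hne y₂ g2 v (hSS hv)
      field_simp
  -- the regions
  have hO : ∀ x' ∈ Ioo (-κ) 0,
      IsPreconnected {w | w ∈ SL κ ∧ (w.re < x' ∨ (y₂ < w.im ∧ w.im < y₁ + 2 * Real.pi))} := by
    intro x' hx'
    have e : {w | w ∈ SL κ ∧ (w.re < x' ∨ (y₂ < w.im ∧ w.im < y₁ + 2 * Real.pi))} =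
        ({w : ℂ | -κ < w.re} ∩ {w | w.re < x'}) ∪
          (({w : ℂ | -κ < w.re} ∩ {w | w.re < 0}) ∩
            ({w | y₂ < w.im} ∩ {w | w.im < y₁ + 2 * Real.pi})) := by
      ext w
      simp only [SL, mem_setOf_eq, mem_union, mem_inter_iff]
      constructor
      · rintro ⟨⟨a, b⟩, c | ⟨c, d⟩⟩
        · exact Or.inl ⟨a, c⟩
        · exact Or.inr ⟨⟨a, b⟩, c, d⟩
      · rintro (⟨a, c⟩ | ⟨⟨a, b⟩, c, d⟩)
        · exact ⟨⟨a, c.trans hx'.2⟩, Or.inl c⟩
        · exact ⟨⟨a, b⟩, Or.inr ⟨c, d⟩⟩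
    rw [e]
    set p : ℂ := (((-κ + x') / 2 : ℝ) : ℂ) + (((y₂ + (y₁ + 2 * Real.pi)) / 2 : ℝ) : ℂ) * I with hp
    have pre : p.re = (-κ + x') / 2 := by rw [hp]; simp
    have pim : p.im = (y₂ + (y₁ + 2 * Real.pi)) / 2 := by rw [hp]; simp
    have p1 : p ∈ ({w : ℂ | -κ < w.re} ∩ {w | w.re < x'}) := by
      refine ⟨?_, ?_⟩
      · rw [mem_setOf_eq, pre]; linarith [hx'.1]
      · rw [mem_setOf_eq, pre]; linarith [hx'.1]
    refine IsPreconnected.union p p1 ⟨⟨p1.1, ?_⟩, ?_, ?_⟩ ?_ ?_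
    · exact lt_trans (show p.re < x' from p1.2) hx'.2
    · rw [mem_setOf_eq, pim]; linarith
    · rw [mem_setOf_eq, pim]; linarith
    · exact ((convex_halfSpace_re_gt _).inter (convex_halfSpace_re_lt _)).isPreconnected
    · exact (((convex_halfSpace_re_gt _).inter (convex_halfSpace_re_lt _)).inter
        ((convex_halfSpace_im_gt _).inter (convex_halfSpace_im_lt _))).isPreconnected
  have hW : IsPreconnected {w : ℂ | w ∈ SL κ ∧ x < w.re ∧ y₁ < w.im ∧ w.im < y₂} := by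
    have e : {w : ℂ | w ∈ SL κ ∧ x < w.re ∧ y₁ < w.im ∧ w.im < y₂} =
        ({w : ℂ | x < w.re} ∩ {w | w.re < 0}) ∩ ({w | y₁ < w.im} ∩ {w | w.im < y₂}) := by
      ext w
      simp only [SL, mem_setOf_eq, mem_inter_iff]
      constructor
      · rintro ⟨⟨a, b⟩, c, d, f⟩
        exact ⟨⟨c, b⟩, d, f⟩
      · rintro ⟨⟨c, b⟩, d, f⟩
        exact ⟨⟨hx.1.trans c, b⟩, c, d, f⟩
    rw [e]
    exact (((convex_halfSpace_re_gt _).inter (convex_halfSpace_re_lt _)).inter
        ((convex_halfSpace_im_gt _).inter (convex_halfSpace_im_lt _))).isPreconnected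
  -- base points
  set x' : ℝ := x / 2 with hx'
  have hxx : x < x' := by rw [hx']; linarith [hx.2]
  have hx'0 : x' < 0 := by rw [hx']; linarith [hx.2]
  have hx'm : x' ∈ Ioo (-κ) 0 := ⟨hx.1.trans hxx, hx'0⟩
  set ym : ℝ := (y₁ + y₂) / 2 with hym
  set w₁ : ℂ := (((-κ + x) / 2 : ℝ) : ℂ) + (ym : ℂ) * I with hw₁
  set w₂ : ℂ := (((x + x') / 2 : ℝ) : ℂ) + (ym : ℂ) * I with hw₂
  have re1 : w₁.re = (-κ + x) / 2 := by rw [hw₁]; simp
  have im1 : w₁.im = ym := by rw [hw₁]; simp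
  have re2 : w₂.re = (x + x') / 2 := by rw [hw₂]; simp
  have im2 : w₂.im = ym := by rw [hw₂]; simp
  have m1 : w₁ ∈ SL κ := ⟨by rw [re1]; linarith [hx.1], by rw [re1]; linarith [hx.1, hx.2]⟩
  have m2 : w₂ ∈ SL κ := ⟨by rw [re2]; linarith [hx.1], by rw [re2]; linarith [hx.1, hx.2]⟩
  have i1 : y₁ < ym := by rw [hym]; linarith
  have i2 : ym < y₂ := by rw [hym]; linarith
  have r1 : w₁.re < x := by rw [re1]; linarith [hx.1]
  have r2 : x < w₂.re := by rw [re2]; linarith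
  have r3 : w₂.re < x' := by rw [re2]; linarith
  -- values
  have v1 := hS.Ush_sub (E := E) hx hxx hx'0 g1 g2
    (hS.notMem_Usd (E := E) hx hy hy' g1 g2 m1 (Or.inl r1))
  have v2 := hS.Ush_sub (E := E) hx hxx hx'0 g1 g2
    (hS.notMem_Usd (E := E) hx hy hy' g1 g2 m2
      (Or.inr (Or.inr ⟨r2, by rw [im2]; exact i1, by rw [im2]; exact i2⟩)))
  rw [hS.rct hE hx.1 hxx hx'0 hy hy' m1 r1.ne (r1.trans hxx) (by rw [im1]; exact i1)
    (by rw [im1]; exact i2), rct_out hxx.le hy.le r1, add_zero] at v1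
  rw [hS.rct hE hx.1 hxx hx'0 hy hy' m2 r2.ne' r3 (by rw [im2]; exact i1)
    (by rw [im2]; exact i2), rct_in r2 r3 (by rw [im2]; exact i1) (by rw [im2]; exact i2)] at v2
  have c1 := cst x' hx'm _ (hO x' hx'm) (fun w hw => hw.1)
    (fun w hw => hw.2.elim Or.inl fun h => Or.inr (Or.inl h)) w₁ ⟨m1, Or.inl (r1.trans hxx)⟩
    w₂ ⟨m2, Or.inl r3⟩
  refine ⟨Ush (ux E h) x y₁ y₂ (E.symm (h w₁)) + τ (E.symm (h w₁)), ?_, ?_⟩
  · intro w hw ho
    exact cst x hx _ (hO x hx) (fun w hw => hw.1)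
      (fun w hw => hw.2.elim Or.inl fun h => Or.inr (Or.inl h)) w ⟨hw, ho⟩ w₁ ⟨m1, Or.inl r1⟩
  · intro w hw a1 a2 a3
    have c2 := cst x hx _ hW (fun w hw => hw.1) (fun w hw => Or.inr (Or.inr hw.2)) w
      ⟨hw, a1, a2, a3⟩ w₂ ⟨m2, r2, by rw [im2]; exact i1, by rw [im2]; exact i2⟩
    rw [c2, v2, v1]
    linear_combination -c1

end Pool.Agent.FB018
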