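import Mathlib
import Pool.Agent.Lib.MP_018119_an_FB.WJump

/-!
# MP_018119_an, project FB, block WELD: the index of the closed curve in both collars
-/

set_option autoImplicit false

open MeasureTheory Set Metric Filter Topology
open Complex (I exp)

noncomputable section

namespace Pool.Agent.FB018

variable {κ : ℝ} {E₁ E₂ : ℂ ≃ₜ ℂ} {h₁ h₂ : ℂ → ℂ}

/-- the collar is open -/
theorem Side.isOpen_img {h : ℂ → ℂ} (hS : Side κ h) (E : ℂ ≃ₜ ℂ) :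
    IsOpen ((fun w => E.symm (h w)) '' SL κ) := by
  have hκ := hS.κpos
  have hop : IsOpen (SL κ) := isOpen_SL κ
  have hcv : Convex ℝ (SL κ) := by
    have e : SL κ = {w : ℂ | -κ < w.re} ∩ {w | w.re < 0} := rfl
    rw [e]
    exact (convex_halfSpace_re_gt _).inter (convex_halfSpace_re_lt _)
  have han : AnalyticOnNhd ℂ h (SL κ) := hS.hol.analyticOnNhd hop
  have h1 : IsOpen (h '' SL κ) := by
    rcases han.is_constant_or_isOpen hcv.isPreconnected with ⟨w, hw⟩ | hopen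
    · exfalso
      set a : ℂ := ((-κ / 2 : ℝ) : ℂ) with ha
      have m1 : a ∈ SL κ := by
        constructor
        · rw [ha]; simp; linarith
        · rw [ha]; simp; linarith
      have m2 : a + I ∈ SL κ := by
        constructor
        · rw [ha]; simp; linarith
        · rw [ha]; simp; linarith
      obtain ⟨n, hn⟩ := hS.inj a m1 (a + I) m2 (by rw [hw a m1, hw (a + I) m2])
      have h2 := congrArg Complex.im hn
      simp at h2
      have hpi := Real.pi_gt_three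
      have h3 : (n : ℝ) * (2 * Real.pi) = 1 := h2.symm
      have h4 : 0 < (n : ℝ) := by
        by_contra hcon
        push Not at hcon
        nlinarith
      have h5 : (0 : ℤ) < n := by exact_mod_cast h4
      have h6 : (1 : ℝ) ≤ n := by exact_mod_cast h5
      nlinarith
    · exact hopen (SL κ) le_rfl hop
  have e : (fun w => E.symm (h w)) '' SL κ = E.symm '' (h '' SL κ) := by
    rw [image_image]
  rw [e]
  exact E.symm.isOpenMap _ h1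

/-- a radial limit of the first collar is not in the second collar -/
theorem Weld.sx_ne_two (W : Weld κ E₁ E₂ h₁ h₂) {y : ℝ} (hy : Rl h₁ y) {w : ℂ} (hw : w ∈ SL κ) :
    E₁.symm (sx h₁ y) ≠ E₂.symm (h₂ w) := by
  intro he
  have hκ := W.s1.κpos
  have h1 : IsClosed ((fun w => E₂.symm (h₂ w)) '' SL κ)ᶜ := (W.s2.isOpen_img E₂).isClosed_compl
  have h2 : Tendsto (fun x : ℝ => E₁.symm (h₁ (x + y * I))) (𝓝[<] 0)
      (𝓝 (E₁.symm (sx h₁ y))) := (E₁.symm.continuous.tendsto _).comp hy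
  have h3 : ∀ᶠ x : ℝ in 𝓝[<] 0, E₁.symm (h₁ (x + y * I)) ∈
      ((fun w => E₂.symm (h₂ w)) '' SL κ)ᶜ := by
    filter_upwards [Ioo_mem_nhdsLT (show -κ < 0 by linarith)] with x hx
    rintro ⟨w', hw', he'⟩
    exact W.disj (x + y * I) (mem_SL.2 hx) w' hw' he'.symm
  have h4 := h1.mem_of_tendsto h2 h3
  exact h4 ⟨w, hw, he.symm⟩

/-- the first collar does not meet the three sides in the second collar -/
theorem Weld.notMem_two (W : Weld κ E₁ E₂ h₁ h₂) {x' y₁ y₂ t₁ t₂ : ℝ}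
    (hx' : x' ∈ Ioo (-κ) 0) (g1 : Rl h₁ y₁) (g2 : Rl h₁ y₂)
    (e1 : E₁.symm (sx h₁ y₁) = E₂.symm (sx h₂ t₂)) (e2 : E₁.symm (sx h₁ y₂) = E₂.symm (sx h₂ t₁))
    {w : ℂ} (hw : w ∈ SL κ) : E₁.symm (h₁ w) ∉ Usd (ux E₂ h₂) x' t₁ t₂ := by
  have int : ∀ t s : ℝ, x' ≤ t → t < 0 → ux E₂ h₂ ((t : ℂ) + s * I) ≠ E₁.symm (h₁ w) := by
    intro t s ht1 ht2 he
    rw [ux_neg (by simpa using ht2)] at he
    exact W.disj w hw _ (mem_SL.2 ⟨hx'.1.trans_le ht1, ht2⟩) he.symm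
  rw [notMem_Usd_iff]
  refine ⟨fun t ht he => ?_, fun t ht he => ?_, fun t ht he => ?_⟩
  · rcases ht.2.lt_or_eq with h0 | h0
    · exact int t t₁ ht.1 h0 he
    · subst h0
      rw [ux_zero, ← e2] at he
      exact W.s1.sx_ne g2 hw (E₁.symm.injective he)
  · rcases ht.2.lt_or_eq with h0 | h0
    · exact int t t₂ ht.1 h0 he
    · subst h0
      rw [ux_zero, ← e1] at he
      exact W.s1.sx_ne g1 hw (E₁.symm.injective he)
  · exact int x' t le_rfl hx'.2 he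

/-- The index along a closed curve which consists of three sides of a box in each collar, as seen
from the first collar.

Proof.  `Side.jump` with `τ = Ush (ux E₂ h₂) x' t₁ t₂`, which is continuous on the first collar and has
`exp τ = (p₁ - z) / (p₂ - z)` (`exp_Ush`, `e1`, `e2`). -/
theorem Weld.jump1 (W : Weld κ E₁ E₂ h₁ h₂) {x x' y₁ y₂ t₁ t₂ : ℝ} (hx : x ∈ Ioo (-κ) 0)
    (hx' : x' ∈ Ioo (-κ) 0) (hy : y₁ < y₂) (hy' : y₂ < y₁ + 2 * Real.pi) (ht : t₁ < t₂)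
    (g1 : Rl h₁ y₁) (g2 : Rl h₁ y₂) (k1 : Rl h₂ t₁) (k2 : Rl h₂ t₂)
    (e1 : E₁.symm (sx h₁ y₁) = E₂.symm (sx h₂ t₂)) (e2 : E₁.symm (sx h₁ y₂) = E₂.symm (sx h₂ t₁)) :
    ∃ m : ℂ, (∀ w ∈ SL κ, (w.re < x ∨ (y₂ < w.im ∧ w.im < y₁ + 2 * Real.pi)) →
        Ush (ux E₁ h₁) x y₁ y₂ (E₁.symm (h₁ w)) + Ush (ux E₂ h₂) x' t₁ t₂ (E₁.symm (h₁ w)) = m) ∧
      ∀ w ∈ SL κ, x < w.re → y₁ < w.im → w.im < y₂ →
        Ush (ux E₁ h₁) x y₁ y₂ (E₁.symm (h₁ w)) + Ush (ux E₂ h₂) x' t₁ t₂ (E₁.symm (h₁ w)) =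
          m + 2 * Real.pi * I := by
  refine W.s1.jump (E := E₁) W.p1 hx hy hy' g1 g2 (τ := Ush (ux E₂ h₂) x' t₁ t₂) ?_ ?_
  · rintro z ⟨w, hw, rfl⟩
    exact (W.s2.Ush_continuousAt hx' ht k1 k2
      (W.notMem_two hx' g1 g2 e1 e2 hw)).continuousWithinAt
  · intro w hw
    rw [W.s2.exp_Ush hx' ht k1 k2 (W.notMem_two hx' g1 g2 e1 e2 hw), ← e1, ← e2]

/-- exchange of the two collars -/
theorem Weld.swap (W : Weld κ E₁ E₂ h₁ h₂) : Weld κ E₂ E₁ h₂ h₁ where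
  s1 := W.s2
  s2 := W.s1
  p1 := W.p2
  p2 := W.p1
  disj := fun w hw w' hw' he => W.disj w' hw' w hw he.symm
  means := fun φ hφ hc => by
    obtain ⟨τ, a, b⟩ := W.means φ hφ hc
    exact ⟨τ, b, a⟩

/-- The values of the index on the radial limits: let `N z = Ush .. + Ush ..`.  For almost every `y`
in `(y₁, y₂)` the point `E₁.symm (sx h₁ y)` is not on the closed curve (`sx_ne`, disjointness,
`no_atom` for the two points `E₁.symm (sx h₁ y₁)`, `E₁.symm (sx h₁ y₂)`) and `N` is continuous there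
(`Ush_continuousAt`), so `N = m + 2 π i`; for almost every `y` in `(y₂, y₁ + 2 π)` it is `m`. -/
theorem Weld.index_ae (W : Weld κ E₁ E₂ h₁ h₂) {x x' y₁ y₂ t₁ t₂ : ℝ} (hx : x ∈ Ioo (-κ) 0)
    (hx' : x' ∈ Ioo (-κ) 0) (hy : y₁ < y₂) (hy' : y₂ < y₁ + 2 * Real.pi) (ht : t₁ < t₂)
    (g1 : Rl h₁ y₁) (g2 : Rl h₁ y₂) (k1 : Rl h₂ t₁) (k2 : Rl h₂ t₂)
    (e1 : E₁.symm (sx h₁ y₁) = E₂.symm (sx h₂ t₂)) (e2 : E₁.symm (sx h₁ y₂) = E₂.symm (sx h₂ t₁)) :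
    ∃ m : ℂ, (∀ᵐ y : ℝ, y ∈ Ioo y₁ y₂ →
        E₁.symm (sx h₁ y) ∉ Usd (ux E₁ h₁) x y₁ y₂ ∪ Usd (ux E₂ h₂) x' t₁ t₂ ∧
        Ush (ux E₁ h₁) x y₁ y₂ (E₁.symm (sx h₁ y)) + Ush (ux E₂ h₂) x' t₁ t₂ (E₁.symm (sx h₁ y)) =
          m + 2 * Real.pi * I) ∧
      ∀ᵐ y : ℝ, y ∈ Ioo y₂ (y₁ + 2 * Real.pi) →
        E₁.symm (sx h₁ y) ∉ Usd (ux E₁ h₁) x y₁ y₂ ∪ Usd (ux E₂ h₂) x' t₁ t₂ ∧
        Ush (ux E₁ h₁) x y₁ y₂ (E₁.symm (sx h₁ y)) + Ush (ux E₂ h₂) x' t₁ t₂ (E₁.symm (sx h₁ y)) =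
          m := by
  obtain ⟨m, hm1, hm2⟩ := W.jump1 hx hx' hy hy' ht g1 g2 k1 k2 e1 e2
  have hκ := W.s1.κpos
  -- the points which are not on the curve
  have off : ∀ y : ℝ, Rl h₁ y → sx h₁ y ≠ sx h₁ y₁ → sx h₁ y ≠ sx h₁ y₂ →
      E₁.symm (sx h₁ y) ∉ Usd (ux E₁ h₁) x y₁ y₂ ∧
        E₁.symm (sx h₁ y) ∉ Usd (ux E₂ h₂) x' t₁ t₂ := by
    intro y hr n1 n2
    have i1 : ∀ t s : ℝ, x ≤ t → t < 0 → ux E₁ h₁ ((t : ℂ) + s * I) ≠ E₁.symm (sx h₁ y) := by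
      intro t s a1 a2 he
      rw [ux_neg (by simpa using a2)] at he
      exact W.s1.sx_ne hr (mem_SL.2 ⟨hx.1.trans_le a1, a2⟩) (E₁.symm.injective he).symm
    have i2 : ∀ t s : ℝ, x' ≤ t → t < 0 → ux E₂ h₂ ((t : ℂ) + s * I) ≠ E₁.symm (sx h₁ y) := by
      intro t s a1 a2 he
      rw [ux_neg (by simpa using a2)] at he
      exact W.sx_ne_two hr (mem_SL.2 ⟨hx'.1.trans_le a1, a2⟩) he.symm
    have j1 : E₁.symm (sx h₁ y₁) ≠ E₁.symm (sx h₁ y) := fun he =>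
      n1 (E₁.symm.injective he).symm
    have j2 : E₁.symm (sx h₁ y₂) ≠ E₁.symm (sx h₁ y) := fun he =>
      n2 (E₁.symm.injective he).symm
    rw [notMem_Usd_iff, notMem_Usd_iff]
    refine ⟨⟨fun t ht he => ?_, fun t ht he => ?_, fun t _ => i1 x t le_rfl hx.2⟩,
      fun t ht he => ?_, fun t ht he => ?_, fun t _ => i2 x' t le_rfl hx'.2⟩
    · rcases ht.2.lt_or_eq with h0 | h0
      · exact i1 t y₁ ht.1 h0 he
      · subst h0
        rw [ux_zero] at he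
        exact j1 he
    · rcases ht.2.lt_or_eq with h0 | h0
      · exact i1 t y₂ ht.1 h0 he
      · subst h0
        rw [ux_zero] at he
        exact j2 he
    · rcases ht.2.lt_or_eq with h0 | h0
      · exact i2 t t₁ ht.1 h0 he
      · subst h0
        rw [ux_zero, ← e2] at he
        exact j2 he
    · rcases ht.2.lt_or_eq with h0 | h0
      · exact i2 t t₂ ht.1 h0 he
      · subst h0
        rw [ux_zero, ← e1] at he
        exact j1 he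
  -- the value at a radial limit
  have val : ∀ y : ℝ, Rl h₁ y → sx h₁ y ≠ sx h₁ y₁ → sx h₁ y ≠ sx h₁ y₂ → ∀ a : ℂ,
      (∀ s : ℝ, x < s → s < 0 → Ush (ux E₁ h₁) x y₁ y₂ (E₁.symm (h₁ (s + y * I))) +
        Ush (ux E₂ h₂) x' t₁ t₂ (E₁.symm (h₁ (s + y * I))) = a) →
      Ush (ux E₁ h₁) x y₁ y₂ (E₁.symm (sx h₁ y)) +
        Ush (ux E₂ h₂) x' t₁ t₂ (E₁.symm (sx h₁ y)) = a := by
    intro y hr n1 n2 a ha
    obtain ⟨o1, o2⟩ := off y hr n1 n2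
    have c : ContinuousAt (fun z => Ush (ux E₁ h₁) x y₁ y₂ z + Ush (ux E₂ h₂) x' t₁ t₂ z)
        (E₁.symm (sx h₁ y)) :=
      (W.s1.Ush_continuousAt hx hy g1 g2 o1).add (W.s2.Ush_continuousAt hx' ht k1 k2 o2)
    have h2 : Tendsto (fun s : ℝ => E₁.symm (h₁ (s + y * I))) (𝓝[<] 0)
        (𝓝 (E₁.symm (sx h₁ y))) := (E₁.symm.continuous.tendsto _).comp hr
    have h3 := c.tendsto.comp h2
    refine tendsto_nhds_unique h3 ?_
    refine tendsto_const_nhds.congr' ?_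
    filter_upwards [Ioo_mem_nhdsLT hx.2] with s hs
    exact (ha s hs.1 hs.2).symm
  refine ⟨m, ?_, ?_⟩
  · filter_upwards [W.s1.ae_good, W.s1.no_atom (sx h₁ y₁), W.s1.no_atom (sx h₁ y₂)] with
      y a1 a2 a3 hyy
    have hr := W.s1.rl a1
    refine ⟨fun hmem => hmem.elim (off y hr a2 a3).1 (off y hr a2 a3).2,
      val y hr a2 a3 _ fun s s1 s2 => ?_⟩
    exact hm2 _ (mem_SL.2 ⟨hx.1.trans s1, s2⟩) (by simpa using s1) (by simpa using hyy.1)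
      (by simpa using hyy.2)
  · filter_upwards [W.s1.ae_good, W.s1.no_atom (sx h₁ y₁), W.s1.no_atom (sx h₁ y₂)] with
      y a1 a2 a3 hyy
    have hr := W.s1.rl a1
    refine ⟨fun hmem => hmem.elim (off y hr a2 a3).1 (off y hr a2 a3).2,
      val y hr a2 a3 _ fun s s1 s2 => ?_⟩
    exact hm1 _ (mem_SL.2 ⟨hx.1.trans s1, s2⟩)
      (Or.inr ⟨by simpa using hyy.1, by simpa using hyy.2⟩)

end Pool.Agent.FB018
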