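import Mathlib
import Pool.Agent.Lib.MP_018119_an_FB.WMatA

/-!
# MP_018119_an, project FB, block WELD: matching of two pairs of ends
-/

set_option autoImplicit false

open MeasureTheory Set Metric Filter Topology
open Complex (I exp)

noncomputable section

namespace Pool.Agent.FB018

variable {κ : ℝ} {E₁ E₂ : ℂ ≃ₜ ℂ} {h₁ h₂ : ℂ → ℂ}

/-- the heights which are in `(a, b)` modulo `2 π` -/
def Qp (a b : ℝ) : Set ℝ := {y | ∃ n : ℤ, y + n * (2 * Real.pi) ∈ Ioo a b}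

theorem isOpen_Qp (a b : ℝ) : IsOpen (Qp a b) := by
  have e : Qp a b = ⋃ n : ℤ, (fun y : ℝ => y + n * (2 * Real.pi)) ⁻¹' Ioo a b := by
    ext y
    simp only [Qp, mem_setOf_eq, mem_iUnion, mem_preimage]
  rw [e]
  exact isOpen_iUnion fun n => isOpen_Ioo.preimage (by fun_prop)

theorem vol_Qp {a b : ℝ} (hb : b ≤ a + 2 * Real.pi) :
    volume (Qp a b ∩ Ioc 0 (2 * Real.pi)) = ENNReal.ofReal (b - a) := by
  have hT : 0 < 2 * Real.pi := by positivity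
  have h1 := isAddFundamentalDomain_Ioc hT 0 (volume : Measure ℝ)
  have h2 := isAddFundamentalDomain_Ioc hT a (volume : Measure ℝ)
  rw [zero_add] at h1
  have h3 := h1.measure_set_eq h2 (isOpen_Qp a b).measurableSet (by
    rintro ⟨g, hg⟩
    obtain ⟨k, rfl⟩ := AddSubgroup.mem_zmultiples_iff.1 hg
    ext y
    simp only [mem_preimage, Qp, mem_setOf_eq]
    constructor
    · rintro ⟨n, hn⟩
      refine ⟨n + k, ?_⟩
      have e : y + ((n + k : ℤ) : ℝ) * (2 * Real.pi) =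
          (k • (2 * Real.pi) + y) + n * (2 * Real.pi) := by
        rw [zsmul_eq_mul]; push_cast; ring
      rw [e]
      exact hn
    · rintro ⟨n, hn⟩
      refine ⟨n - k, ?_⟩
      have e : (k • (2 * Real.pi) + y) + ((n - k : ℤ) : ℝ) * (2 * Real.pi) =
          y + n * (2 * Real.pi) := by
        rw [zsmul_eq_mul]; push_cast; ring
      have e' : ((⟨k • (2 * Real.pi), hg⟩ : AddSubgroup.zmultiples (2 * Real.pi)) +ᵥ y) =
          k • (2 * Real.pi) + y := rfl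
      rw [e', e]
      exact hn)
  rw [h3]
  have e : Qp a b ∩ Ioc a (a + 2 * Real.pi) = Ioo a b := by
    ext y
    simp only [Qp, mem_inter_iff, mem_setOf_eq, mem_Ioc, mem_Ioo]
    constructor
    · rintro ⟨⟨n, hn1, hn2⟩, hy1, hy2⟩
      have b1 : -1 < (n : ℝ) := by nlinarith
      have b2 : (n : ℝ) < 1 := by nlinarith
      have c1 : (-1 : ℤ) < n := by exact_mod_cast b1
      have c2 : n < (1 : ℤ) := by exact_mod_cast b2
      have c3 : n = 0 := by omega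
      subst c3
      simp at hn1 hn2
      exact ⟨hn1, hn2⟩
    · rintro ⟨h1, h2⟩
      exact ⟨⟨0, by simpa using h1, by simpa using h2⟩, h1, by linarith⟩
  rw [e, Real.volume_Ioo]

theorem ae_Qp {a b : ℝ} {P : ℝ → Prop} (hP : ∀ y, P (y + 2 * Real.pi) ↔ P y)
    (h : ∀ᵐ y : ℝ, y ∈ Ioo a b → P y) : ∀ᵐ y : ℝ, y ∈ Qp a b → P y := by
  have hper : Function.Periodic P (2 * Real.pi) := fun y => propext (hP y)
  have h1 : ∀ n : ℤ, ∀ᵐ y : ℝ, y + n * (2 * Real.pi) ∈ Ioo a b → P (y + n * (2 * Real.pi)) :=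
    fun n => (measurePreserving_add_right (volume : Measure ℝ)
      (n * (2 * Real.pi))).quasiMeasurePreserving.tendsto_ae.eventually h
  filter_upwards [ae_all_iff.2 h1] with y hy
  rintro ⟨n, hn⟩
  have h2 := hy n hn
  rwa [hper.int_mul n y] at h2

theorem ae_cover (y₁ y₂ : ℝ) :
    ∀ᵐ y : ℝ, y ∈ Qp y₁ y₂ ∨ y ∈ Qp y₂ (y₁ + 2 * Real.pi) := by
  have hT : 0 < 2 * Real.pi := by positivity
  have hc : ∀ z : ℝ, ∀ᵐ y : ℝ, y ∉ range fun n : ℤ => z - n * (2 * Real.pi) :=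
    fun z => (countable_range _).ae_notMem _
  filter_upwards [hc y₁, hc y₂] with y n1 n2
  obtain ⟨n, hn, -⟩ := existsUnique_add_zsmul_mem_Ico hT y y₁
  rw [zsmul_eq_mul] at hn
  have d1 : y + n * (2 * Real.pi) ≠ y₁ := fun he => n1 ⟨n, by simp only; linarith⟩
  have d2 : y + n * (2 * Real.pi) ≠ y₂ := fun he => n2 ⟨n, by simp only; linarith⟩
  rcases lt_or_gt_of_ne d2 with h | h
  · exact Or.inl ⟨n, lt_of_le_of_ne hn.1 (Ne.symm d1), h⟩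
  · exact Or.inr ⟨n, h, hn.2⟩

/-- the level sets of the index -/
def Lvs (U₁ U₂ : Set ℂ) (N₁ N₂ : ℂ → ℂ) (a : ℂ) : Set ℂ := {z | z ∉ U₁ ∪ U₂ ∧ N₁ z + N₂ z = a}

theorem Lvs_comm (U₁ U₂ : Set ℂ) (N₁ N₂ : ℂ → ℂ) (a : ℂ) :
    Lvs U₁ U₂ N₁ N₂ a = Lvs U₂ U₁ N₂ N₁ a := by
  unfold Lvs
  simp only [union_comm U₁ U₂, add_comm (N₁ _) (N₂ _)]

open Classical in
/-- the measures of the level sets -/
theorem Weld.law1 (W : Weld κ E₁ E₂ h₁ h₂) {x x' y₁ y₂ t₁ t₂ : ℝ} (hx : x ∈ Ioo (-κ) 0)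
    (hx' : x' ∈ Ioo (-κ) 0) (hy : y₁ < y₂) (hy' : y₂ < y₁ + 2 * Real.pi) (ht : t₁ < t₂)
    (g1 : Rl h₁ y₁) (g2 : Rl h₁ y₂) (k1 : Rl h₂ t₁) (k2 : Rl h₂ t₂)
    (e1 : E₁.symm (sx h₁ y₁) = E₂.symm (sx h₂ t₂)) (e2 : E₁.symm (sx h₁ y₂) = E₂.symm (sx h₂ t₁)) :
    ∃ m : ℂ, ∀ a : ℂ, volume {y ∈ Ioc 0 (2 * Real.pi) | E₁.symm (sx h₁ y) ∈
      Lvs (Usd (ux E₁ h₁) x y₁ y₂) (Usd (ux E₂ h₂) x' t₁ t₂) (Ush (ux E₁ h₁) x y₁ y₂)
        (Ush (ux E₂ h₂) x' t₁ t₂) a} =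
      if a = m + 2 * Real.pi * I then ENNReal.ofReal (y₂ - y₁) else
        if a = m then ENNReal.ofReal (2 * Real.pi - (y₂ - y₁)) else 0 := by
  obtain ⟨m, hm1, hm2⟩ := W.index_ae hx hx' hy hy' ht g1 g2 k1 k2 e1 e2
  have hT : (2 * Real.pi * I : ℂ) ≠ 0 := Complex.two_pi_I_ne_zero
  refine ⟨m, fun a => ?_⟩
  have hper : ∀ b : ℂ, ∀ y : ℝ,
      (E₁.symm (sx h₁ (y + 2 * Real.pi)) ∈
      Lvs (Usd (ux E₁ h₁) x y₁ y₂) (Usd (ux E₂ h₂) x' t₁ t₂) (Ush (ux E₁ h₁) x y₁ y₂)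
        (Ush (ux E₂ h₂) x' t₁ t₂) b) ↔ (E₁.symm (sx h₁ y) ∈
      Lvs (Usd (ux E₁ h₁) x y₁ y₂) (Usd (ux E₂ h₂) x' t₁ t₂) (Ush (ux E₁ h₁) x y₁ y₂)
        (Ush (ux E₂ h₂) x' t₁ t₂) b) := by
    intro b y
    rw [W.s1.sx_per]
  have a1 := ae_Qp (hper (m + 2 * Real.pi * I)) hm1
  have a2 := ae_Qp (hper m) hm2
  have key : ∀ S : Set ℝ, (∀ᵐ y : ℝ, (E₁.symm (sx h₁ y) ∈
      Lvs (Usd (ux E₁ h₁) x y₁ y₂) (Usd (ux E₂ h₂) x' t₁ t₂) (Ush (ux E₁ h₁) x y₁ y₂)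
        (Ush (ux E₂ h₂) x' t₁ t₂) a) ↔ y ∈ S) →
      volume {y ∈ Ioc 0 (2 * Real.pi) | E₁.symm (sx h₁ y) ∈
      Lvs (Usd (ux E₁ h₁) x y₁ y₂) (Usd (ux E₂ h₂) x' t₁ t₂) (Ush (ux E₁ h₁) x y₁ y₂)
        (Ush (ux E₂ h₂) x' t₁ t₂) a} = volume (S ∩ Ioc 0 (2 * Real.pi)) := by
    intro S hS
    refine measure_congr ?_
    filter_upwards [hS] with y hy
    refine propext ?_
    change (y ∈ Ioc 0 (2 * Real.pi) ∧ _) ↔ (y ∈ S ∧ y ∈ Ioc 0 (2 * Real.pi))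
    rw [← hy, and_comm]
  have hne : m + 2 * Real.pi * I ≠ m := fun h => hT (by linear_combination h)
  split_ifs with c1 c2
  · rw [key (Qp y₁ y₂), vol_Qp hy'.le]
    subst c1
    filter_upwards [a1, a2, ae_cover y₁ y₂] with y b1 b2 b3
    refine ⟨fun h => b3.resolve_right fun h4 => ?_, b1⟩
    have h5 := b2 h4
    exact hne (h.2.symm.trans h5.2)
  · rw [key (Qp y₂ (y₁ + 2 * Real.pi)), vol_Qp (by linarith)]
    · congr 1
      ring
    · subst c2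
      filter_upwards [a1, a2, ae_cover y₁ y₂] with y b1 b2 b3
      refine ⟨fun h => b3.resolve_left fun h4 => ?_, b2⟩
      have h5 := b1 h4
      exact hne (h5.2.symm.trans h.2)
  · rw [key ∅, empty_inter, measure_empty]
    filter_upwards [a1, a2, ae_cover y₁ y₂] with y b1 b2 b3
    refine ⟨fun h => ?_, fun h => absurd h (notMem_empty y)⟩
    rcases b3 with b3 | b3
    · exact c1 (h.2.symm.trans (b1 b3).2)
    · exact c2 (h.2.symm.trans (b2 b3).2)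

/-- **Matching of two pairs.**  `S a = {z off the closed curve | N z = a}` is Borel; by `index_ae` and
periodicity `volume {y ∈ Ioc 0 2π | E₁.symm (sx h₁ y) ∈ S a}` is `y₂ - y₁` for `a = m + 2 π i`,
`2 π - (y₂ - y₁)` for `a = m` and 0 for all other `a`.  The same with `t₂ - t₁`, `m'` from the other
side (`Weld.swap`); `Weld.law`: `{m, m + 2 π i} = {m', m' + 2 π i}`, so `m = m'`. -/
theorem Weld.match_two (W : Weld κ E₁ E₂ h₁ h₂) {y₁ y₂ t₁ t₂ : ℝ} (hy : y₁ < y₂)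
    (hy' : y₂ < y₁ + 2 * Real.pi) (ht : t₁ < t₂) (ht' : t₂ < t₁ + 2 * Real.pi)
    (g1 : Rl h₁ y₁) (g2 : Rl h₁ y₂) (k1 : Rl h₂ t₁) (k2 : Rl h₂ t₂)
    (e1 : E₁.symm (sx h₁ y₁) = E₂.symm (sx h₂ t₂)) (e2 : E₁.symm (sx h₁ y₂) = E₂.symm (sx h₂ t₁)) :
    y₂ - y₁ = t₂ - t₁ := by
  classical
  have hκ := W.s1.κpos
  have hx : (-κ / 2) ∈ Ioo (-κ) 0 := ⟨by linarith, by linarith⟩
  have hT : (2 * Real.pi * I : ℂ) ≠ 0 := Complex.two_pi_I_ne_zero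
  obtain ⟨m, hm⟩ := W.law1 hx hx hy hy' ht g1 g2 k1 k2 e1 e2
  obtain ⟨m', hm'⟩ := W.swap.law1 hx hx ht ht' hy k1 k2 g1 g2 e2.symm e1.symm
  have hmeas : ∀ a : ℂ, MeasurableSet (Lvs (Usd (ux E₁ h₁) (-κ / 2) y₁ y₂)
      (Usd (ux E₂ h₂) (-κ / 2) t₁ t₂) (Ush (ux E₁ h₁) (-κ / 2) y₁ y₂)
        (Ush (ux E₂ h₂) (-κ / 2) t₁ t₂) a) := by
    intro a
    set U : Set ℂ := (Usd (ux E₁ h₁) (-κ / 2) y₁ y₂ ∪ Usd (ux E₂ h₂) (-κ / 2) t₁ t₂)ᶜ with hU
    have hUo : IsOpen U := ((W.s1.isCompact_Usd hx hy g1 g2).union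
      (W.s2.isCompact_Usd hx ht k1 k2)).isClosed.isOpen_compl
    set N : ℂ → ℂ := fun z => Ush (ux E₁ h₁) (-κ / 2) y₁ y₂ z + Ush (ux E₂ h₂) (-κ / 2) t₁ t₂ z
      with hN
    have hNc : ContinuousOn N U := by
      intro z hz
      have z1 : z ∉ Usd (ux E₁ h₁) (-κ / 2) y₁ y₂ := fun h => hz (Or.inl h)
      have z2 : z ∉ Usd (ux E₂ h₂) (-κ / 2) t₁ t₂ := fun h => hz (Or.inr h)
      exact ((W.s1.Ush_continuousAt hx hy g1 g2 z1).add
        (W.s2.Ush_continuousAt hx ht k1 k2 z2)).continuousWithinAt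
    have h1 : IsOpen (U ∩ N ⁻¹' {a}ᶜ) := hNc.isOpen_inter_preimage hUo isOpen_compl_singleton
    have e : Lvs (Usd (ux E₁ h₁) (-κ / 2) y₁ y₂)
      (Usd (ux E₂ h₂) (-κ / 2) t₁ t₂) (Ush (ux E₁ h₁) (-κ / 2) y₁ y₂)
        (Ush (ux E₂ h₂) (-κ / 2) t₁ t₂) a = U \ (U ∩ N ⁻¹' {a}ᶜ) := by
      ext z
      constructor
      · rintro ⟨z1, z2⟩
        exact ⟨z1, fun h => h.2 z2⟩
      · rintro ⟨z1, z2⟩
        refine ⟨z1, ?_⟩
        by_contra hcon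
        exact z2 ⟨z1, hcon⟩
    rw [e]
    exact hUo.measurableSet.diff h1.measurableSet
  have heq : ∀ a : ℂ, (if a = m + 2 * Real.pi * I then ENNReal.ofReal (y₂ - y₁) else
        if a = m then ENNReal.ofReal (2 * Real.pi - (y₂ - y₁)) else 0) =
      (if a = m' + 2 * Real.pi * I then ENNReal.ofReal (t₂ - t₁) else
        if a = m' then ENNReal.ofReal (2 * Real.pi - (t₂ - t₁)) else 0) := by
    intro a
    rw [← hm a, ← hm' a, Lvs_comm, W.law]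
    rw [Lvs_comm]
    exact hmeas a
  have p1 : ENNReal.ofReal (y₂ - y₁) ≠ 0 := by
    rw [ne_eq, ENNReal.ofReal_eq_zero]
    push Not
    linarith
  have p2 : ENNReal.ofReal (2 * Real.pi - (y₂ - y₁)) ≠ 0 := by
    rw [ne_eq, ENNReal.ofReal_eq_zero]
    push Not
    linarith
  have hmm : m ≠ m + 2 * Real.pi * I := fun h => hT (by linear_combination -h)
  have q1 := heq (m + 2 * Real.pi * I)
  have q2 := heq m
  rw [if_pos rfl] at q1
  rw [if_neg hmm, if_pos rfl] at q2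
  have hmain : m = m' := by
    by_cases c1 : m + 2 * Real.pi * I = m' + 2 * Real.pi * I
    · exact add_right_cancel c1
    · rw [if_neg c1] at q1
      by_cases c2 : m + 2 * Real.pi * I = m'
      · exfalso
        by_cases c3 : m = m' + 2 * Real.pi * I
        · have : (2 : ℂ) * (2 * Real.pi * I) = 0 := by linear_combination c2 - c3
          exact hT ((mul_eq_zero.1 this).resolve_left two_ne_zero)
        · rw [if_neg c3] at q2
          by_cases c4 : m = m'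
          · exact hmm (c4.trans c2.symm)
          · rw [if_neg c4] at q2
            exact p2 q2
      · rw [if_neg c2] at q1
        exact absurd q1 p1
  rw [hmain, if_pos rfl] at q1
  exact (ENNReal.ofReal_eq_ofReal_iff (by linarith) (by linarith)).1 q1

end Pool.Agent.FB018
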