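import Mathlib
import Pool.Agent.Lib.MP_018119_an_FB.WMatB

/-!
# MP_018119_an, project FB, block WELD: the rotation
-/

set_option autoImplicit false

open MeasureTheory Set Metric Filter Topology
open Complex (I exp)

noncomputable section

namespace Pool.Agent.FB018

variable {κ : ℝ} {E₁ E₂ : ℂ ≃ₜ ℂ} {h₁ h₂ : ℂ → ℂ}

/-- **The rotation.**  Take one pair `(y₁, τ₀)` (`Weld.pair`), `c = y₁ + τ₀`.  For almost every `y`
there is a `t` with `E₁.symm (sx h₁ y) = E₂.symm (sx h₂ t)`, different from the value at `y₁`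
(`no_atom`).  Reduce `y` to `(y₁, y₁ + 2 π)` and `t` to `(τ₀ - 2 π, τ₀)` by periods and apply
`match_two` with `y₂ = y`, `t₁ = t`, `t₂ = τ₀`: `t = c - y`. -/
theorem Weld.exists_rot (W : Weld κ E₁ E₂ h₁ h₂) : ∃ c : ℝ, ∀ᵐ y : ℝ, Good κ h₁ y ∧
    Good κ h₂ (c - y) ∧ E₁.symm (sx h₁ y) = E₂.symm (sx h₂ (c - y)) := by
  have hT : 0 < 2 * Real.pi := by positivity
  have P1 : Function.Periodic (sx h₁) (2 * Real.pi) := W.s1.sx_per
  have P2 : Function.Periodic (sx h₂) (2 * Real.pi) := W.s2.sx_per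
  have G1 : Function.Periodic (Good κ h₁) (2 * Real.pi) := fun y => propext (W.s1.good_per y)
  have G2 : Function.Periodic (Good κ h₂) (2 * Real.pi) := fun y => propext (W.s2.good_per y)
  obtain ⟨y₁, hy1, τ₀, hτ, hp⟩ := (W.s1.ae_good.and W.pair).exists
  refine ⟨y₁ + τ₀, ?_⟩
  filter_upwards [W.s1.ae_good, W.pair, W.s1.no_atom (sx h₁ y₁)] with y gy hyp hna
  obtain ⟨t, gt, het⟩ := hyp
  obtain ⟨n, hn, -⟩ := existsUnique_add_zsmul_mem_Ico hT y y₁
  obtain ⟨k, hk, -⟩ := existsUnique_add_zsmul_mem_Ioc hT t (τ₀ - 2 * Real.pi)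
  rw [zsmul_eq_mul] at hn hk
  set y' := y + n * (2 * Real.pi) with hy'
  set t' := t + k * (2 * Real.pi) with ht'
  have sy : sx h₁ y' = sx h₁ y := P1.int_mul n y
  have st : sx h₂ t' = sx h₂ t := P2.int_mul k t
  have gy' : Good κ h₁ y' := by
    have : Good κ h₁ y' = Good κ h₁ y := G1.int_mul n y
    rw [this]; exact gy
  have gt' : Good κ h₂ t' := by
    have : Good κ h₂ t' = Good κ h₂ t := G2.int_mul k t
    rw [this]; exact gt
  have ney : y₁ ≠ y' := by
    intro he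
    exact hna (by rw [he, sy])
  have net : t' ≠ τ₀ := by
    intro he
    apply hna
    apply E₁.symm.injective
    rw [het, ← st, he, hp]
  have hk2 : t' < τ₀ := lt_of_le_of_ne (by linarith [hk.2]) net
  have key := W.match_two (y₁ := y₁) (y₂ := y') (t₁ := t') (t₂ := τ₀)
    (lt_of_le_of_ne hn.1 ney) hn.2 hk2 (by linarith [hk.1]) (W.s1.rl hy1) (W.s1.rl gy')
    (W.s2.rl gt') (W.s2.rl hτ) hp (by rw [sy, st, het])
  have e : y₁ + τ₀ - y = t + ((k + n : ℤ) : ℝ) * (2 * Real.pi) := by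
    rw [hy', ht'] at key
    push_cast
    linarith
  rw [e]
  refine ⟨gy, ?_, ?_⟩
  · have : Good κ h₂ (t + ((k + n : ℤ) : ℝ) * (2 * Real.pi)) = Good κ h₂ t :=
      G2.int_mul (k + n) t
    rw [this]; exact gt
  · rw [P2.int_mul (k + n) t]
    exact het

end Pool.Agent.FB018
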