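import Mathlib
import Pool.Agent.Lib.MP_018119_an_FB.WMatC

/-!
# MP_018119_an, project FB, block WELD: the matched problem, definitions

After a rotation the radial limits of the two collars agree at the heights `y` and `-y`.
-/

set_option autoImplicit false

open MeasureTheory Set Metric Filter Topology
open Complex (I exp)

noncomputable section

namespace Pool.Agent.FB018

/-- The matched welding problem. -/
structure WeldM (κ : ℝ) (E₁ E₂ : ℂ ≃ₜ ℂ) (h₁ h₂ : ℂ → ℂ) : Prop extends Weld κ E₁ E₂ h₁ h₂ where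
  mt : ∀ᵐ y : ℝ, Good κ h₁ y ∧ Good κ h₂ (-y) ∧ E₁.symm (sx h₁ y) = E₂.symm (sx h₂ (-y))

/-- the glued map off the interface `re w = 0` -/
def Gw (E₁ E₂ : ℂ ≃ₜ ℂ) (h₁ h₂ : ℂ → ℂ) (w : ℂ) : ℂ :=
  open Classical in if w.re < 0 then E₁.symm (h₁ w) else E₂.symm (h₂ (-w))

/-- the glued map -/
def Gx (E₁ E₂ : ℂ ≃ₜ ℂ) (h₁ h₂ : ℂ → ℂ) (w : ℂ) : ℂ :=
  extendFrom {w : ℂ | w.re ≠ 0} (Gw E₁ E₂ h₁ h₂) w

/-- the open strip on both sides -/
def SS (κ : ℝ) : Set ℂ := {w | |w.re| < κ}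

variable {κ : ℝ} {E₁ E₂ : ℂ ≃ₜ ℂ} {h₁ h₂ : ℂ → ℂ}

private lemma WMDefs_SL {κ c : ℝ} {w : ℂ} (hw : w ∈ SL κ) : w + c * I ∈ SL κ := by
  have h1 : (w + c * I).re = w.re := by simp
  exact ⟨by rw [h1]; exact hw.1, by rw [h1]; exact hw.2⟩

private lemma WMDefs_side {κ : ℝ} {h : ℂ → ℂ} (hS : Side κ h) (c : ℝ) :
    Side κ (fun w => h (w + c * I)) where
  κpos := hS.κpos
  hol := hS.hol.comp ((differentiable_id.add_const (c * I : ℂ)).differentiableOn)
    (fun w hw => WMDefs_SL hw)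
  per := fun w => by
    have e : w + 2 * Real.pi * I + c * I = w + c * I + 2 * Real.pi * I := by ring
    change h (w + 2 * Real.pi * I + c * I) = h (w + c * I)
    rw [e, hS.per]
  inj := fun w hw w' hw' e => by
    obtain ⟨n, hn⟩ := hS.inj _ (WMDefs_SL (c := c) hw) _ (WMDefs_SL (c := c) hw') e
    refine ⟨n, ?_⟩
    linear_combination hn
  bd := by
    obtain ⟨R, hR⟩ := hS.bd
    exact ⟨R, fun w hw => hR _ (WMDefs_SL hw)⟩

private lemma WMDefs_good {κ : ℝ} (h : ℂ → ℂ) (c y : ℝ) :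
    Good κ (fun w => h (w + c * I)) (-y) = Good κ h (c - y) := by
  unfold Good
  have e : ∀ x : ℝ, (x : ℂ) + (-y : ℝ) * I + c * I = x + (c - y : ℝ) * I := by
    intro x
    push_cast
    ring
  congr 1
  funext x
  rw [deriv_comp_add_const, e]

private lemma WMDefs_sx (h : ℂ → ℂ) (c y : ℝ) :
    sx (fun w => h (w + c * I)) (-y) = sx h (c - y) := by
  unfold sx
  have e : ∀ x : ℝ, (x : ℂ) + (-y : ℝ) * I + c * I = x + (c - y : ℝ) * I := by
    intro x
    push_cast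
    ring
  congr 1
  funext x
  exact congrArg h (e x)

private lemma WMDefs_int {κ : ℝ} {E : ℂ ≃ₜ ℂ} {h : ℂ → ℂ} (hS : Side κ h) (φ : ℂ → ℝ) (c x : ℝ) :
    ∫ y in (0:ℝ)..2 * Real.pi, φ (E.symm (h (x + y * I + c * I))) =
      ∫ y in (0:ℝ)..2 * Real.pi, φ (E.symm (h (x + y * I))) := by
  have hp : Function.Periodic (fun y : ℝ => φ (E.symm (h (x + y * I)))) (2 * Real.pi) := by
    intro y
    have e : (x : ℂ) + (y + 2 * Real.pi : ℝ) * I = x + y * I + 2 * Real.pi * I := by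
      push_cast
      ring
    change φ (E.symm (h (x + (y + 2 * Real.pi : ℝ) * I))) = φ (E.symm (h (x + y * I)))
    rw [e, hS.per]
  have h1 : (fun y : ℝ => φ (E.symm (h (x + y * I + c * I)))) =
      fun y : ℝ => (fun y : ℝ => φ (E.symm (h (x + y * I)))) (y + c) := by
    funext y
    have e : (x : ℂ) + y * I + c * I = x + (y + c : ℝ) * I := by
      push_cast
      ring
    change φ (E.symm (h (x + y * I + c * I))) = φ (E.symm (h (x + (y + c : ℝ) * I)))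
    rw [e]
  have h3 := intervalIntegral.integral_comp_add_right (a := (0:ℝ)) (b := 2 * Real.pi)
    (fun y : ℝ => φ (E.symm (h (x + y * I)))) c
  have h2 := hp.intervalIntegral_add_eq c 0
  rw [zero_add] at h2
  rw [zero_add, add_comm (2 * Real.pi) c, h2] at h3
  rw [h1]
  exact h3

/-- rotation: `h₂ (· + c i)` instead of `h₂` -/
theorem Weld.toM (W : Weld κ E₁ E₂ h₁ h₂) : ∃ c : ℝ,
    WeldM κ E₁ E₂ h₁ (fun w => h₂ (w + c * I)) := by
  obtain ⟨c, hc⟩ := W.exists_rot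
  refine ⟨c, ⟨⟨W.s1, WMDefs_side W.s2 c, W.p1, W.p2, fun w hw w' hw' =>
    W.disj w hw _ (WMDefs_SL hw'), fun φ h1 h2 => ?_⟩, ?_⟩⟩
  · obtain ⟨τ, t1, t2⟩ := W.means φ h1 h2
    refine ⟨τ, t1, t2.congr fun x => ?_⟩
    exact (WMDefs_int W.s2 φ c x).symm
  · filter_upwards [hc] with y hy
    rw [WMDefs_good, WMDefs_sx]
    exact hy

theorem WeldM.swap (W : WeldM κ E₁ E₂ h₁ h₂) : WeldM κ E₂ E₁ h₂ h₁ := by
  refine ⟨W.toWeld.swap, ?_⟩
  have h1 := (Measure.measurePreserving_neg (volume : Measure ℝ)).quasiMeasurePreserving.ae W.mt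
  filter_upwards [h1] with y hy
  obtain ⟨a, b, c⟩ := hy
  rw [neg_neg] at b c
  exact ⟨b, a, c.symm⟩

end Pool.Agent.FB018
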