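import Mathlib
import Pool.Agent.Lib.MP_018119_an_FB.WMDefs

/-!
# MP_018119_an, project FB, block WELD: small closed curves
-/

set_option autoImplicit false

open MeasureTheory Set Metric Filter Topology
open Complex (I exp)

noncomputable section

namespace Pool.Agent.FB018

variable {κ : ℝ} {E₁ E₂ : ℂ ≃ₜ ℂ} {h₁ h₂ : ℂ → ℂ}

section aux

variable {h : ℂ → ℂ}

private theorem WBoxA_hx {w : ℂ} (hw : w.re < 0) : hx h w = h w := by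
  simp [hx, hw]

private theorem WBoxA_sx_norm (hS : Side κ h) {R : ℝ} (hR : ∀ w ∈ SL κ, ‖h w‖ ≤ R) {c : ℝ}
    (gc : Rl h c) : ‖sx h c‖ ≤ R := by
  refine le_of_tendsto gc.norm ?_
  have h1 : ∀ᶠ t in 𝓝[<] (0 : ℝ), t ∈ Ioo (-κ) 0 :=
    Ioo_mem_nhdsLT (neg_lt_zero.2 hS.κpos)
  filter_upwards [h1] with t ht
  exact hR _ (mem_SL.2 ⟨ht.1, ht.2⟩)

private theorem WBoxA_hx_norm (hS : Side κ h) {R : ℝ} (hR : ∀ w ∈ SL κ, ‖h w‖ ≤ R) {c t : ℝ}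
    (gc : Rl h c) (h1 : -κ < t) (h2 : t ≤ 0) : ‖hx h (t + c * I)‖ ≤ R := by
  rcases h2.lt_or_eq with h3 | h3
  · rw [WBoxA_hx (by simpa using h3)]
    exact hR _ (mem_SL.2 ⟨h1, h3⟩)
  · have h4 : hx h ((t : ℂ) + c * I) = sx h c := by
      simp [hx, h3]
    rw [h4]
    exact WBoxA_sx_norm hS hR gc

/-- the three sides of one box are short -/
private theorem WBoxA_side (hS : Side κ h) (E : ℂ ≃ₜ ℂ) {R η ε δ y₀ c d x : ℝ}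
    (hR : ∀ w ∈ SL κ, ‖h w‖ ≤ R) (hκ : 2 * δ < κ) (hδ : 0 < δ)
    (hx1 : -(2 * δ) < x) (hx2 : x < -δ) (gc : Rl h c) (gd : Rl h d)
    (hc : c ∈ Icc (y₀ - 2 * δ) (y₀ + 2 * δ)) (hd : d ∈ Icc (y₀ - 2 * δ) (y₀ + 2 * δ))
    (Hc : ∀ t ∈ Icc (-(2 * δ)) 0, ‖hx h (t + c * I) - sx h c‖ ≤ η)
    (Hd : ∀ t ∈ Icc (-(2 * δ)) 0, ‖hx h (t + d * I) - sx h d‖ ≤ η)
    (Hv : ∀ y ∈ Icc (y₀ - 2 * δ) (y₀ + 2 * δ), ∀ y' ∈ Icc (y₀ - 2 * δ) (y₀ + 2 * δ),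
      ‖h (x + y * I) - h (x + y' * I)‖ ≤ η)
    (hE : ∀ z ∈ closedBall (0 : ℂ) R, ∀ z' ∈ closedBall (0 : ℂ) R, ‖z - z'‖ ≤ 4 * η →
      ‖E.symm z - E.symm z'‖ ≤ ε) :
    ∀ z ∈ Usd (ux E h) x c d, ‖z - E.symm (sx h c)‖ ≤ ε ∧ ‖z - E.symm (sx h d)‖ ≤ ε := by
  have hx0 : x < 0 := by linarith
  have hmx : x ∈ Icc (-(2 * δ)) 0 := ⟨hx1.le, hx0.le⟩
  have e1 : hx h ((x : ℂ) + c * I) = h (x + c * I) := WBoxA_hx (by simpa using hx0)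
  have e2 : hx h ((x : ℂ) + d * I) = h (x + d * I) := WBoxA_hx (by simpa using hx0)
  have a1 : ‖h (x + c * I) - sx h c‖ ≤ η := by
    have := Hc x hmx
    rwa [e1] at this
  have a2 : ‖h (x + d * I) - sx h d‖ ≤ η := by
    have := Hd x hmx
    rwa [e2] at this
  have a3 : ‖h (x + c * I) - h (x + d * I)‖ ≤ η := Hv c hc d hd
  have hη : 0 ≤ η := (norm_nonneg _).trans a1
  have tri : ∀ u v w : ℂ, ‖u - w‖ ≤ ‖u - v‖ + ‖v - w‖ := fun u v w =>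
    norm_sub_le_norm_sub_add_norm_sub u v w
  have sw : ∀ u v : ℂ, ‖u - v‖ = ‖v - u‖ := fun u v => norm_sub_rev u v
  have a4 : ‖sx h c - sx h d‖ ≤ 3 * η := by
    have t1 := tri (sx h c) (h (x + c * I)) (sx h d)
    have t2 := tri (h (x + c * I)) (h (x + d * I)) (sx h d)
    rw [sw (sx h c) (h (x + c * I))] at t1
    linarith
  have key : ∀ v : ℂ, ‖v‖ ≤ R → ‖v - sx h c‖ ≤ 4 * η → ‖v - sx h d‖ ≤ 4 * η →
      ‖E.symm v - E.symm (sx h c)‖ ≤ ε ∧ ‖E.symm v - E.symm (sx h d)‖ ≤ ε := by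
    intro v hv h1 h2
    have hv' : v ∈ closedBall (0 : ℂ) R := by simpa using hv
    have hc' : sx h c ∈ closedBall (0 : ℂ) R := by simpa using WBoxA_sx_norm hS hR gc
    have hd' : sx h d ∈ closedBall (0 : ℂ) R := by simpa using WBoxA_sx_norm hS hR gd
    exact ⟨hE v hv' _ hc' h1, hE v hv' _ hd' h2⟩
  rintro z ((⟨t, ht, rfl⟩ | ⟨t, ht, rfl⟩) | ⟨t, ht, rfl⟩)
  · have ht' : t ∈ Icc (-(2 * δ)) 0 := ⟨hx1.le.trans ht.1, ht.2⟩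
    have b1 := Hc t ht'
    refine key _ (WBoxA_hx_norm hS hR gc (by linarith [ht.1]) ht.2) (by linarith) ?_
    have t1 := tri (hx h (t + c * I)) (sx h c) (sx h d)
    linarith
  · have ht' : t ∈ Icc (-(2 * δ)) 0 := ⟨hx1.le.trans ht.1, ht.2⟩
    have b1 := Hd t ht'
    refine key _ (WBoxA_hx_norm hS hR gd (by linarith [ht.1]) ht.2) ?_ (by linarith)
    have t1 := tri (hx h (t + d * I)) (sx h d) (sx h c)
    rw [sw (sx h d) (sx h c)] at t1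
    linarith
  · have e3 : hx h ((x : ℂ) + t * I) = h (x + t * I) := WBoxA_hx (by simpa using hx0)
    have ht' : t ∈ Icc (y₀ - 2 * δ) (y₀ + 2 * δ) := ⟨hc.1.trans ht.1, ht.2.trans hd.2⟩
    have b1 := Hv t ht' c hc
    have b2 := Hv t ht' d hd
    have t1 := tri (h (x + t * I)) (h (x + c * I)) (sx h c)
    have t2 := tri (h (x + t * I)) (h (x + d * I)) (sx h d)
    have b3 : ‖h (x + t * I)‖ ≤ R := hR _ (mem_SL.2 ⟨by linarith, hx0⟩)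
    have b4 := key (h (x + t * I)) b3 (by linarith) (by linarith)
    change ‖E.symm (hx h ((x : ℂ) + t * I)) - _‖ ≤ ε ∧ ‖E.symm (hx h ((x : ℂ) + t * I)) - _‖ ≤ ε
    rw [e3]
    exact b4

private theorem WBoxA_unif (E : ℂ ≃ₜ ℂ) (R : ℝ) {ε : ℝ} (hε : 0 < ε) :
    ∃ η > 0, ∀ z ∈ closedBall (0 : ℂ) R, ∀ z' ∈ closedBall (0 : ℂ) R, ‖z - z'‖ ≤ 4 * η →
      ‖E.symm z - E.symm z'‖ ≤ ε := by
  have h1 : UniformContinuousOn E.symm (closedBall (0 : ℂ) R) :=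
    (isCompact_closedBall (0 : ℂ) R).uniformContinuousOn_of_continuous
      E.symm.continuous.continuousOn
  obtain ⟨δ, hδ, h2⟩ := Metric.uniformContinuousOn_iff.1 h1 ε hε
  refine ⟨δ / 5, by positivity, fun z hz z' hz' h3 => ?_⟩
  have h4 := h2 z hz z' hz' (by rw [dist_eq_norm]; linarith)
  rw [dist_eq_norm] at h4
  exact h4.le

/-- a height in an interval outside of three exceptional sets -/
private theorem WBoxA_pick {P Q : ℝ → Prop} {δ s : ℝ} (hδ : 0 < δ)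
    (h1 : volume {a ∈ Ioo s (s + δ) | ¬ P a} ≤ ENNReal.ofReal (δ / 8))
    (h2 : volume {a ∈ Ioo (-s - δ) (-s) | ¬ Q a} ≤ ENNReal.ofReal (δ / 8)) {Z : ℝ → Prop}
    (h3 : ∀ᵐ a : ℝ, Z a) : ∃ a ∈ Ioo s (s + δ), P a ∧ Q (-a) ∧ Z a := by
  by_contra hcon
  push Not at hcon
  have h4 : Ioo s (s + δ) ⊆ {a ∈ Ioo s (s + δ) | ¬ P a} ∪
      (Neg.neg ⁻¹' {a ∈ Ioo (-s - δ) (-s) | ¬ Q a} ∪ {a | ¬ Z a}) := by
    intro a ha
    by_cases hP : P a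
    · by_cases hQ : Q (-a)
      · exact Or.inr (Or.inr (hcon a ha hP hQ))
      · refine Or.inr (Or.inl ⟨⟨?_, ?_⟩, hQ⟩)
        · linarith [ha.2]
        · linarith [ha.1]
    · exact Or.inl ⟨ha, hP⟩
  have h5 : volume (Neg.neg ⁻¹' {a ∈ Ioo (-s - δ) (-s) | ¬ Q a}) =
      volume {a ∈ Ioo (-s - δ) (-s) | ¬ Q a} := Measure.measure_preimage_neg _ _
  have h6 : volume {a : ℝ | ¬ Z a} = 0 := h3
  have h7 := (measure_mono (μ := volume) h4).trans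
    ((measure_union_le _ _).trans (add_le_add le_rfl (measure_union_le _ _)))
  rw [h5, h6, add_zero, Real.volume_Ioo, add_sub_cancel_left] at h7
  have h8 := h7.trans (add_le_add h1 h2)
  rw [← ENNReal.ofReal_add (by positivity) (by positivity),
    ENNReal.ofReal_le_ofReal_iff (by positivity)] at h8
  linarith

end aux

/-- **Small closed curves.**  From `short_hor`, `short_ver` for both sides with a small `η` and the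
uniform continuity of `E₁.symm`, `E₂.symm` on a ball which contains all values (`Side.bd`): the
exceptional heights have measure `≤ δ / 8 + δ / 8 < δ`, and almost all heights are matched. -/
theorem WeldM.exists_box (W : WeldM κ E₁ E₂ h₁ h₂) {ε δ₁ : ℝ} (hε : 0 < ε) (hδ₁ : 0 < δ₁) :
    ∃ δ > 0, δ < δ₁ ∧ 2 * δ < κ ∧ 4 * δ < Real.pi ∧ ∀ y₀ : ℝ, ∃ a ∈ Ioo (y₀ - 2 * δ) (y₀ - δ),
      ∃ b ∈ Ioo (y₀ + δ) (y₀ + 2 * δ), ∃ x ∈ Ioo (-(2 * δ)) (-δ), ∃ x' ∈ Ioo (-(2 * δ)) (-δ),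
      Rl h₁ a ∧ Rl h₁ b ∧ Rl h₂ (-b) ∧ Rl h₂ (-a) ∧
      E₁.symm (sx h₁ a) = E₂.symm (sx h₂ (-a)) ∧ E₁.symm (sx h₁ b) = E₂.symm (sx h₂ (-b)) ∧
      (∀ z ∈ Usd (ux E₁ h₁) x a b, ‖z - E₁.symm (sx h₁ a)‖ ≤ ε) ∧
      ∀ z ∈ Usd (ux E₂ h₂) x' (-b) (-a), ‖z - E₁.symm (sx h₁ a)‖ ≤ ε := by
  have s1 := W.s1
  have s2 := W.s2
  obtain ⟨R₁, hR₁⟩ := s1.bd
  obtain ⟨R₂, hR₂⟩ := s2.bd
  obtain ⟨η₁, hη₁, hE₁⟩ := WBoxA_unif E₁ R₁ hε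
  obtain ⟨η₂, hη₂, hE₂⟩ := WBoxA_unif E₂ R₂ hε
  obtain ⟨d1, hd1, hk1, H1⟩ := s1.short_hor hη₁
  obtain ⟨d2, hd2, hk2, H2⟩ := s2.short_hor hη₂
  obtain ⟨d3, hd3, hk3, V1⟩ := s1.short_ver hη₁
  obtain ⟨d4, hd4, hk4, V2⟩ := s2.short_ver hη₂
  obtain ⟨δ, hδ, l1, l2, l3, l4, l5, l6⟩ : ∃ δ > 0, δ ≤ d1 ∧ δ ≤ d2 ∧ δ ≤ d3 ∧ δ ≤ d4 ∧
      4 * δ < Real.pi ∧ δ < δ₁ := by
    have hc : 0 < min (1 / 4) (δ₁ / 2) := lt_min (by norm_num) (by linarith)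
    refine ⟨min (min d1 d2) (min (min d3 d4) (min (1 / 4) (δ₁ / 2))), by positivity,
      ?_, ?_, ?_, ?_, ?_, ?_⟩
    · exact (min_le_left _ _).trans (min_le_left _ _)
    · exact (min_le_left _ _).trans (min_le_right _ _)
    · exact (min_le_right _ _).trans ((min_le_left _ _).trans (min_le_left _ _))
    · exact (min_le_right _ _).trans ((min_le_left _ _).trans (min_le_right _ _))
    · have h1 : min (min d1 d2) (min (min d3 d4) (min (1 / 4) (δ₁ / 2))) ≤ 1 / 4 :=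
        (min_le_right _ _).trans ((min_le_right _ _).trans (min_le_left _ _))
      linarith [Real.pi_gt_three]
    · have h1 : min (min d1 d2) (min (min d3 d4) (min (1 / 4) (δ₁ / 2))) ≤ δ₁ / 2 :=
        (min_le_right _ _).trans ((min_le_right _ _).trans (min_le_right _ _))
      linarith
  have hκ : 2 * δ < κ := by linarith
  refine ⟨δ, hδ, l6, hκ, l5, fun y₀ => ?_⟩
  have g : ∀ᵐ y : ℝ, Rl h₁ y ∧ Rl h₂ (-y) ∧ E₁.symm (sx h₁ y) = E₂.symm (sx h₂ (-y)) :=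
    W.mt.mono fun y hy => ⟨s1.rl hy.1, s2.rl hy.2.1, hy.2.2⟩
  obtain ⟨a, ha, pa, qa, ga1, ga2, ga3⟩ := WBoxA_pick (s := y₀ - 2 * δ) hδ
    (H1 δ ⟨hδ, l1⟩ (y₀ - 2 * δ)) (Q := fun a => ∀ x ∈ Icc (-(2 * δ)) 0,
      ‖hx h₂ (x + a * I) - sx h₂ a‖ ≤ η₂) (by
      have h1 := H2 δ ⟨hδ, l2⟩ (-(y₀ - 2 * δ) - δ)
      rwa [sub_add_cancel] at h1) g
  obtain ⟨b, hb, pb, qb, gb1, gb2, gb3⟩ := WBoxA_pick (s := y₀ + δ) hδ
    (H1 δ ⟨hδ, l1⟩ (y₀ + δ)) (Q := fun a => ∀ x ∈ Icc (-(2 * δ)) 0,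
      ‖hx h₂ (x + a * I) - sx h₂ a‖ ≤ η₂) (by
      have h1 := H2 δ ⟨hδ, l2⟩ (-(y₀ + δ) - δ)
      rwa [sub_add_cancel] at h1) g
  obtain ⟨x, hx', vx⟩ := V1 δ ⟨hδ, l3⟩ y₀
  obtain ⟨x', hx'', vx'⟩ := V2 δ ⟨hδ, l4⟩ (-y₀)
  have ha2 : a < y₀ - δ := by linarith [ha.2]
  have hb2 : b < y₀ + 2 * δ := by linarith [hb.2]
  have S1 := WBoxA_side s1 E₁ (x := -x) hR₁ hκ hδ (by linarith [hx'.2]) (by linarith [hx'.1])
    ga1 gb1 (y₀ := y₀) ⟨by linarith [ha.1], by linarith⟩ ⟨by linarith [hb.1], by linarith⟩ pa pb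
    (by
      intro y hy y' hy'
      have := vx y hy y' hy'
      simpa using this) hE₁
  have S2 := WBoxA_side s2 E₂ (x := -x') (c := -b) (d := -a) hR₂ hκ hδ (by linarith [hx''.2])
    (by linarith [hx''.1]) gb2 ga2 (y₀ := -y₀) ⟨by linarith, by linarith [hb.1]⟩
    ⟨by linarith, by linarith [ha.1]⟩ qb qa
    (by
      intro y hy y' hy'
      have := vx' y hy y' hy'
      simpa using this) hE₂
  refine ⟨a, ⟨ha.1, ha2⟩, b, ⟨hb.1, hb2⟩, -x, ⟨by linarith [hx'.2], by linarith [hx'.1]⟩,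
    -x', ⟨by linarith [hx''.2], by linarith [hx''.1]⟩, ga1, gb1, gb2, ga2, ga3, gb3,
    fun z hz => (S1 z hz).1, fun z hz => ?_⟩
  rw [ga3]
  exact (S2 z hz).2

end Pool.Agent.FB018
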