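import Mathlib
import Pool.Agent.Lib.MP_018119_an_FB.WMDefs

/-!
# MP_018119_an, project FB, block WELD: index of a small box
-/

set_option autoImplicit false

open MeasureTheory Set Metric Filter Topology
open Complex (I exp)

noncomputable section

namespace Pool.Agent.FB018

variable {κ : ℝ} {E₁ E₂ : ℂ ≃ₜ ℂ} {h₁ h₂ : ℂ → ℂ}

private theorem WBoxB_vr {c : ℝ → ℂ} {a b : ℝ} {z p : ℂ} {r : ℝ} (hab : a ≤ b)
    (hc : ContinuousOn c (Icc a b)) (hr : ∀ t ∈ Icc a b, ‖c t - p‖ ≤ r)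
    (hz : r < ‖z - p‖) : Vr c a b z =
      Complex.log ((c b - z) / (p - z)) - Complex.log ((c a - z) / (p - z)) := by
  have hr0 : 0 ≤ r := (norm_nonneg _).trans (hr a (left_mem_Icc.2 hab))
  have hpz : p - z ≠ 0 := by
    intro h
    rw [← neg_sub, h, neg_zero, norm_zero] at hz
    linarith
  refine vr_slit hab hc hpz ?_
  intro t ht
  have h1 : (c t - z) / (p - z) = 1 + (c t - p) / (p - z) := by field_simp; ring
  refine Or.inl ?_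
  rw [h1, Complex.add_re, Complex.one_re]
  have h2 : ‖(c t - p) / (p - z)‖ < 1 := by
    rw [norm_div, div_lt_one (norm_pos_iff.2 hpz), norm_sub_rev p z]
    exact (hr t ht).trans_lt hz
  have h3 := Complex.abs_re_le_norm ((c t - p) / (p - z))
  have h5 := (abs_lt.1 (h3.trans_lt h2)).1
  linarith

private theorem WBoxB_ush {h : ℂ → ℂ} (hS : Side κ h) (E : ℂ ≃ₜ ℂ) {x a b : ℝ}
    (hx : x ∈ Ioo (-κ) 0) (hab : a < b) (g1 : Rl h a) (g2 : Rl h b) {p : ℂ} {r : ℝ}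
    (c : ∀ z ∈ Usd (ux E h) x a b, ‖z - p‖ ≤ r) {z : ℂ} (hz : r < ‖z - p‖) :
    Ush (ux E h) x a b z = Complex.log ((E.symm (sx h a) - z) / (p - z)) -
      Complex.log ((E.symm (sx h b) - z) / (p - z)) := by
  have e1 := WBoxB_vr hx.2.le (hS.cont_hor g1 hx E)
    (fun t ht => c _ (Or.inl (Or.inl (mem_image_of_mem _ ht)))) hz
  have e2 := WBoxB_vr hx.2.le (hS.cont_hor g2 hx E)
    (fun t ht => c _ (Or.inl (Or.inr (mem_image_of_mem _ ht)))) hz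
  have e3 := WBoxB_vr hab.le (hS.cont_ver hx E).continuousOn
    (fun t ht => c _ (Or.inr (mem_image_of_mem _ ht))) hz
  simp only [ux_zero] at e1 e2
  unfold Ush
  rw [e1, e2, e3]
  ring

/-- If the closed curve is in a ball then the two variations cancel outside of the ball. -/
theorem Weld.far (W : Weld κ E₁ E₂ h₁ h₂) {x x' a b : ℝ} (hx : x ∈ Ioo (-κ) 0)
    (hx' : x' ∈ Ioo (-κ) 0) (hab : a < b) (g1 : Rl h₁ a) (g2 : Rl h₁ b) (k1 : Rl h₂ (-b))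
    (k2 : Rl h₂ (-a)) (e1 : E₁.symm (sx h₁ a) = E₂.symm (sx h₂ (-a)))
    (e2 : E₁.symm (sx h₁ b) = E₂.symm (sx h₂ (-b))) {p : ℂ} {r : ℝ}
    (c1 : ∀ z ∈ Usd (ux E₁ h₁) x a b, ‖z - p‖ ≤ r)
    (c2 : ∀ z ∈ Usd (ux E₂ h₂) x' (-b) (-a), ‖z - p‖ ≤ r) {z : ℂ} (hz : r < ‖z - p‖) :
    Ush (ux E₁ h₁) x a b z + Ush (ux E₂ h₂) x' (-b) (-a) z = 0 := by
  rw [WBoxB_ush W.s1 E₁ hx hab g1 g2 c1 hz, WBoxB_ush W.s2 E₂ hx' (neg_lt_neg hab) k1 k2 c2 hz,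
    e1, e2]
  ring

/-- There is a distance `d > 0` such that no ball of radius `d` contains the first collar outside of a
small box: two points at the real part `- 3 κ / 4` with different values. -/
theorem Side.spread {h : ℂ → ℂ} (hS : Side κ h) (E : ℂ ≃ₜ ℂ) : ∃ d > 0, ∀ p : ℂ, ∃ w : ℂ,
    w.re = -(3 * κ / 4) ∧ d < ‖E.symm (h w) - p‖ := by
  have hκ := hS.κpos
  have hpi := Real.pi_pos
  obtain ⟨w₁, hw₁⟩ : ∃ w : ℂ, w = ((-(3 * κ / 4) : ℝ) : ℂ) := ⟨_, rfl⟩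
  obtain ⟨w₂, hw₂⟩ : ∃ w : ℂ, w = ((-(3 * κ / 4) : ℝ) : ℂ) + (Real.pi : ℝ) * I := ⟨_, rfl⟩
  have r1 : w₁.re = -(3 * κ / 4) := by rw [hw₁]; exact Complex.ofReal_re _
  have r2 : w₂.re = -(3 * κ / 4) := by
    rw [hw₂, Complex.add_re, Complex.ofReal_re, Complex.re_ofReal_mul, Complex.I_re]
    ring
  have i1 : w₁.im = 0 := by rw [hw₁]; exact Complex.ofReal_im _
  have i2 : w₂.im = Real.pi := by
    rw [hw₂, Complex.add_im, Complex.ofReal_im, Complex.im_ofReal_mul, Complex.I_im]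
    ring
  have m1 : w₁ ∈ SL κ := ⟨by rw [r1]; linarith, by rw [r1]; linarith⟩
  have m2 : w₂ ∈ SL κ := ⟨by rw [r2]; linarith, by rw [r2]; linarith⟩
  have hne : E.symm (h w₁) ≠ E.symm (h w₂) := by
    intro he
    obtain ⟨n, hn⟩ := hS.inj _ m1 _ m2 (E.symm.injective he)
    have h1 := congrArg Complex.im hn
    have h2 : (w₁ + n * (2 * Real.pi * I)).im = n * (2 * Real.pi) := by
      rw [Complex.add_im, i1]
      simp
    rw [i2, h2] at h1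
    have h3 : (2 : ℝ) * n = 1 := by
      have h4 : Real.pi * (2 * n - 1) = 0 := by linarith
      rcases mul_eq_zero.1 h4 with h5 | h5
      · exact absurd h5 hpi.ne'
      · linarith
    have h4 : (2 : ℤ) * n = 1 := by exact_mod_cast h3
    omega
  have hd : 0 < ‖E.symm (h w₁) - E.symm (h w₂)‖ := norm_pos_iff.2 (sub_ne_zero.2 hne)
  refine ⟨‖E.symm (h w₁) - E.symm (h w₂)‖ / 3, by linarith, fun p => ?_⟩
  by_contra hc
  push Not at hc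
  have h1 := hc w₁ r1
  have h2 := hc w₂ r2
  have h3 : ‖E.symm (h w₁) - E.symm (h w₂)‖ ≤ ‖E.symm (h w₁) - p‖ + ‖E.symm (h w₂) - p‖ := by
    rw [← norm_neg (E.symm (h w₂) - p)]
    refine le_trans (le_of_eq ?_) (norm_add_le _ _)
    congr 1
    ring
  linarith

/-- **Index of the small box** `exists_box` for small `ε`: 0 at the points of the first collar outside
of the box, `2 π i` inside.  `Weld.jump1` with `y₁ = a`, `y₂ = b`, `t₁ = -b`, `t₂ = -a`; `m = 0` by `spread`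
and `far`. -/
theorem WeldM.box_index (W : WeldM κ E₁ E₂ h₁ h₂) : ∃ ε₀ > 0, ∀ ε ∈ Ioc 0 ε₀, ∀ x x' a b : ℝ,
    x ∈ Ioo (-κ / 2) 0 → x' ∈ Ioo (-κ / 2) 0 → a < b → b < a + 2 * Real.pi →
    Rl h₁ a → Rl h₁ b → Rl h₂ (-b) → Rl h₂ (-a) →
    E₁.symm (sx h₁ a) = E₂.symm (sx h₂ (-a)) → E₁.symm (sx h₁ b) = E₂.symm (sx h₂ (-b)) →
    (∀ z ∈ Usd (ux E₁ h₁) x a b, ‖z - E₁.symm (sx h₁ a)‖ ≤ ε) →
    (∀ z ∈ Usd (ux E₂ h₂) x' (-b) (-a), ‖z - E₁.symm (sx h₁ a)‖ ≤ ε) →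
    ∀ w ∈ SL κ, x < w.re → a < w.im → w.im < b →
      Ush (ux E₁ h₁) x a b (E₁.symm (h₁ w)) + Ush (ux E₂ h₂) x' (-b) (-a) (E₁.symm (h₁ w)) =
        2 * Real.pi * I := by
  have hκ := W.s1.κpos
  obtain ⟨d, hd, hsp⟩ := W.s1.spread E₁
  refine ⟨d, hd, fun ε hε x x' a b hx hx' hab hb g1 g2 k1 k2 e1 e2 c1 c2 w hw h1 h2 h3 => ?_⟩
  have hx1 : x ∈ Ioo (-κ) 0 := ⟨by linarith [hx.1], hx.2⟩
  have hx1' : x' ∈ Ioo (-κ) 0 := ⟨by linarith [hx'.1], hx'.2⟩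
  obtain ⟨m, hm1, hm2⟩ := W.toWeld.jump1 hx1 hx1' hab hb (neg_lt_neg hab) g1 g2 k1 k2 e1 e2
  obtain ⟨w₀, hr, hd₀⟩ := hsp (E₁.symm (sx h₁ a))
  have hw₀ : w₀ ∈ SL κ := ⟨by rw [hr]; linarith, by rw [hr]; linarith⟩
  have hm3 := hm1 w₀ hw₀ (Or.inl (by rw [hr]; linarith [hx.1]))
  have hm4 := W.toWeld.far hx1 hx1' hab g1 g2 k1 k2 e1 e2 c1 c2 (z := E₁.symm (h₁ w₀))
    (hε.2.trans_lt hd₀)
  have hm0 : m = 0 := hm3.symm.trans hm4
  have hm5 := hm2 w hw h1 h2 h3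
  rw [hm5, hm0, zero_add]

end Pool.Agent.FB018
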