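import Mathlib
import Pool.Agent.Lib.MP_018119_an_FB.WBoxA
import Pool.Agent.Lib.MP_018119_an_FB.WBoxB

/-!
# MP_018119_an, project FB, block WELD: uniform continuity at the interface
-/

set_option autoImplicit false

open MeasureTheory Set Metric Filter Topology
open Complex (I exp)

noncomputable section

namespace Pool.Agent.FB018

variable {κ : ℝ} {E₁ E₂ : ℂ ≃ₜ ℂ} {h₁ h₂ : ℂ → ℂ}

/-- restriction to a thinner strip -/
private theorem wboxC_restrict (W : WeldM κ E₁ E₂ h₁ h₂) : WeldM (κ / 2) E₁ E₂ h₁ h₂ := by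
  have hκ : 0 < κ := W.s1.κpos
  have hsub : SL (κ / 2) ⊆ SL κ := by
    intro w hw
    exact ⟨by linarith [hw.1], hw.2⟩
  have hside : ∀ h : ℂ → ℂ, Side κ h → Side (κ / 2) h := by
    intro h hS
    obtain ⟨R, hR⟩ := hS.bd
    exact ⟨by linarith, hS.hol.mono hsub, hS.per,
      fun w hw w' hw' e => hS.inj w (hsub hw) w' (hsub hw') e, ⟨R, fun w hw => hR w (hsub hw)⟩⟩
  have hgood : ∀ (h : ℂ → ℂ) (y : ℝ), Good κ h y → Good (κ / 2) h y := by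
    intro h y hg
    refine IntegrableOn.mono_set hg (Ioo_subset_Ioo_left (by linarith))
  exact
    { s1 := hside _ W.s1
      s2 := hside _ W.s2
      p1 := W.p1
      p2 := W.p2
      disj := fun w hw w' hw' => W.disj w (hsub hw) w' (hsub hw')
      means := W.means
      mt := W.mt.mono fun y hy => ⟨hgood _ _ hy.1, hgood _ _ hy.2.1, hy.2.2⟩ }

/-- the half of the box in the first collar is mapped into the closed ball -/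
private theorem wboxC_half (W : WeldM κ E₁ E₂ h₁ h₂) {ε₀ : ℝ}
    (hI : ∀ ε ∈ Ioc 0 ε₀, ∀ x x' a b : ℝ,
    x ∈ Ioo (-κ / 2) 0 → x' ∈ Ioo (-κ / 2) 0 → a < b → b < a + 2 * Real.pi →
    Rl h₁ a → Rl h₁ b → Rl h₂ (-b) → Rl h₂ (-a) →
    E₁.symm (sx h₁ a) = E₂.symm (sx h₂ (-a)) → E₁.symm (sx h₁ b) = E₂.symm (sx h₂ (-b)) →
    (∀ z ∈ Usd (ux E₁ h₁) x a b, ‖z - E₁.symm (sx h₁ a)‖ ≤ ε) →
    (∀ z ∈ Usd (ux E₂ h₂) x' (-b) (-a), ‖z - E₁.symm (sx h₁ a)‖ ≤ ε) →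
    ∀ w ∈ SL κ, x < w.re → a < w.im → w.im < b →
      Ush (ux E₁ h₁) x a b (E₁.symm (h₁ w)) + Ush (ux E₂ h₂) x' (-b) (-a) (E₁.symm (h₁ w)) =
        2 * Real.pi * I)
    {x x' a b e : ℝ} {p : ℂ} (he : 0 < e) (he2 : 2 * e ≤ ε₀)
    (hx : x ∈ Ioo (-κ / 2) 0) (hx' : x' ∈ Ioo (-κ / 2) 0) (hab : a < b)
    (hba : b < a + 2 * Real.pi) (g1 : Rl h₁ a) (g2 : Rl h₁ b) (k1 : Rl h₂ (-b))
    (k2 : Rl h₂ (-a)) (e1 : E₁.symm (sx h₁ a) = E₂.symm (sx h₂ (-a)))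
    (e2 : E₁.symm (sx h₁ b) = E₂.symm (sx h₂ (-b)))
    (c1 : ∀ z ∈ Usd (ux E₁ h₁) x a b, ‖z - p‖ ≤ e)
    (c2 : ∀ z ∈ Usd (ux E₂ h₂) x' (-b) (-a), ‖z - p‖ ≤ e) {w : ℂ} (hw : w ∈ SL κ)
    (h1 : x < w.re) (h2 : a < w.im) (h3 : w.im < b) : ‖E₁.symm (h₁ w) - p‖ ≤ e := by
  have hκ : 0 < κ := W.s1.κpos
  by_contra hcon
  push Not at hcon
  have hmem : E₁.symm (sx h₁ a) ∈ Usd (ux E₁ h₁) x a b := by
    refine Or.inl (Or.inl ⟨0, ⟨hx.2.le, le_refl _⟩, ?_⟩)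
    simp [ux, Pool.Agent.FB018.hx]
  have hq := c1 _ hmem
  have htri : ∀ z : ℂ, ‖z - p‖ ≤ e → ‖z - E₁.symm (sx h₁ a)‖ ≤ 2 * e := by
    intro z hz
    calc ‖z - E₁.symm (sx h₁ a)‖ = ‖(z - p) - (E₁.symm (sx h₁ a) - p)‖ := by congr 1; ring
      _ ≤ ‖z - p‖ + ‖E₁.symm (sx h₁ a) - p‖ := norm_sub_le _ _
      _ ≤ 2 * e := by linarith
  have hv := hI (2 * e) ⟨by linarith, he2⟩ x x' a b hx hx' hab hba g1 g2 k1 k2 e1 e2
    (fun z hz => htri z (c1 z hz)) (fun z hz => htri z (c2 z hz)) w hw h1 h2 h3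
  have hz0 := W.toWeld.far (x := x) (x' := x') ⟨by linarith [hx.1], hx.2⟩
    ⟨by linarith [hx'.1], hx'.2⟩ hab g1 g2 k1 k2 e1 e2 c1 c2 hcon
  rw [hz0] at hv
  exact Complex.two_pi_I_ne_zero hv.symm

/-- the box is mapped into the closed ball -/
private theorem wboxC_core (W : WeldM κ E₁ E₂ h₁ h₂) {ε : ℝ} (hε : 0 < ε) : ∃ δ > 0,
    2 * δ < κ / 2 ∧ ∀ y₀ : ℝ, ∃ p : ℂ, ∀ w : ℂ, w.re ≠ 0 → |w.re| < δ → |w.im - y₀| < δ →
      ‖Gw E₁ E₂ h₁ h₂ w - p‖ ≤ ε := by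
  obtain ⟨ε₁, hε₁, hI₁⟩ := W.box_index
  obtain ⟨ε₂, hε₂, hI₂⟩ := W.swap.box_index
  set e : ℝ := min ε (min (ε₁ / 2) (ε₂ / 2)) with hedef
  have he : 0 < e := lt_min hε (lt_min (by linarith) (by linarith))
  have he1 : 2 * e ≤ ε₁ := by
    have : e ≤ ε₁ / 2 := (min_le_right _ _).trans (min_le_left _ _)
    linarith
  have he2 : 2 * e ≤ ε₂ := by
    have : e ≤ ε₂ / 2 := (min_le_right _ _).trans (min_le_right _ _)
    linarith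
  obtain ⟨δ, hδ, -, hδκ, hδπ, hbox⟩ := (wboxC_restrict W).exists_box he one_pos
  refine ⟨δ, hδ, hδκ, fun y₀ => ?_⟩
  obtain ⟨a, ha, b, hb, x, hx, x', hx', g1, g2, k1, k2, e1, e2, c1, c2⟩ := hbox y₀
  have hxk : x ∈ Ioo (-κ / 2) 0 := ⟨by linarith [hx.1], by linarith [hx.2]⟩
  have hxk' : x' ∈ Ioo (-κ / 2) 0 := ⟨by linarith [hx'.1], by linarith [hx'.2]⟩
  have hab : a < b := by linarith [ha.2, hb.1]
  have hba : b < a + 2 * Real.pi := by linarith [ha.1, hb.2, Real.pi_pos]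
  refine ⟨E₁.symm (sx h₁ a), fun w hw0 hwr hwi => ?_⟩
  rw [abs_lt] at hwr hwi
  refine le_trans ?_ (min_le_left ε (min (ε₁ / 2) (ε₂ / 2)))
  rw [← hedef]
  by_cases hneg : w.re < 0
  · have hG : Gw E₁ E₂ h₁ h₂ w = E₁.symm (h₁ w) := by
      unfold Gw
      rw [if_pos hneg]
    rw [hG]
    exact wboxC_half W hI₁ he he1 hxk hxk' hab hba g1 g2 k1 k2 e1 e2 c1 c2
      (w := w) ⟨by linarith [hwr.1], hneg⟩ (by linarith [hwr.1, hx.2])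
      (by linarith [hwi.1, ha.2]) (by linarith [hwi.2, hb.1])
  · have hpos : 0 < w.re := lt_of_le_of_ne (not_lt.1 hneg) (Ne.symm hw0)
    have hG : Gw E₁ E₂ h₁ h₂ w = E₂.symm (h₂ (-w)) := by
      unfold Gw
      rw [if_neg hneg]
    rw [hG]
    refine wboxC_half W.swap hI₂ he he2 (x := x') (x' := x) (a := -b) (b := -a) hxk' hxk
      (by linarith) (by linarith) k1 k2 (by rwa [neg_neg]) (by rwa [neg_neg]) ?_ ?_ c2 ?_
      (w := -w) ⟨?_, ?_⟩ ?_ ?_ ?_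
    · rw [neg_neg]; exact e2.symm
    · rw [neg_neg]; exact e1.symm
    · rw [neg_neg, neg_neg]; exact c1
    · rw [Complex.neg_re]; linarith [hwr.2]
    · rw [Complex.neg_re]; linarith
    · rw [Complex.neg_re]; linarith [hwr.2, hx'.2]
    · rw [Complex.neg_im]; linarith [hwi.2, hb.1]
    · rw [Complex.neg_im]; linarith [hwi.1, ha.2]

/-- **Uniform continuity at the interface.**  The box of `exists_box` contains all points with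
`|re w| < δ`, `|im w - y₀| < δ`; its two halves are mapped into the closed ball (`box_index` and
`far` for both sides, `WeldM.swap`). -/
theorem WeldM.unif (W : WeldM κ E₁ E₂ h₁ h₂) {ε : ℝ} (hε : 0 < ε) : ∃ δ > 0, δ < κ ∧
    ∀ w w' : ℂ, w.re ≠ 0 → w'.re ≠ 0 → |w.re| < δ → |w'.re| < δ → |w.im - w'.im| < δ →
      ‖Gw E₁ E₂ h₁ h₂ w - Gw E₁ E₂ h₁ h₂ w'‖ ≤ ε := by
  have hκ : 0 < κ := W.s1.κpos
  obtain ⟨δ, hδ, hδκ, hcore⟩ := wboxC_core W (half_pos hε)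
  refine ⟨δ, hδ, by linarith, fun w w' h0 h0' hr hr' hi => ?_⟩
  obtain ⟨p, hp⟩ := hcore w.im
  have h1 := hp w h0 hr (by rw [sub_self, abs_zero]; exact hδ)
  have h2 := hp w' h0' hr' (by rw [abs_sub_comm]; exact hi)
  calc ‖Gw E₁ E₂ h₁ h₂ w - Gw E₁ E₂ h₁ h₂ w'‖
      = ‖(Gw E₁ E₂ h₁ h₂ w - p) - (Gw E₁ E₂ h₁ h₂ w' - p)‖ := by congr 1; ring
    _ ≤ ‖Gw E₁ E₂ h₁ h₂ w - p‖ + ‖Gw E₁ E₂ h₁ h₂ w' - p‖ := norm_sub_le _ _
    _ ≤ ε := by linarith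

end Pool.Agent.FB018
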