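import Mathlib
import Pool.Agent.Lib.MP_018119_an_FB.WBoxC

/-!
# MP_018119_an, project FB, block WELD: the glued map
-/

set_option autoImplicit false

open MeasureTheory Set Metric Filter Topology
open Complex (I exp)

noncomputable section

namespace Pool.Agent.FB018

variable {κ : ℝ} {E₁ E₂ : ℂ ≃ₜ ℂ} {h₁ h₂ : ℂ → ℂ}

private lemma WExtA_closure (w : ℂ) : w ∈ closure {w : ℂ | w.re ≠ 0} := by
  by_cases h : w.re = 0
  · have h1 : w ∈ closure {z : ℂ | z.re < 0} := by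
      rw [Complex.closure_setOfPred_re_lt]
      exact h.le
    refine closure_mono ?_ h1
    intro z hz
    exact ne_of_lt hz
  · exact subset_closure h

private lemma WExtA_left (W : WeldM κ E₁ E₂ h₁ h₂) {w : ℂ} (hw : w ∈ SL κ) :
    Tendsto (Gw E₁ E₂ h₁ h₂) (𝓝[{w : ℂ | w.re ≠ 0}] w) (𝓝 (E₁.symm (h₁ w))) := by
  have h1 : Tendsto (fun z => E₁.symm (h₁ z)) (𝓝 w) (𝓝 (E₁.symm (h₁ w))) :=
    (E₁.symm.continuous.tendsto _).comp (W.s1.diffAt hw).continuousAt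
  refine (h1.congr' ?_).mono_left nhdsWithin_le_nhds
  have h2 : {z : ℂ | z.re < 0} ∈ 𝓝 w :=
    (isOpen_lt Complex.continuous_re continuous_const).mem_nhds hw.2
  filter_upwards [h2] with z hz
  have hz' : z.re < 0 := hz
  unfold Gw
  rw [if_pos hz']

private lemma WExtA_right (W : WeldM κ E₁ E₂ h₁ h₂) {w : ℂ} (hw : -w ∈ SL κ) :
    Tendsto (Gw E₁ E₂ h₁ h₂) (𝓝[{w : ℂ | w.re ≠ 0}] w) (𝓝 (E₂.symm (h₂ (-w)))) := by
  have hc : ContinuousAt h₂ (-w) := (W.s2.diffAt hw).continuousAt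
  have hn : Tendsto (fun z : ℂ => -z) (𝓝 w) (𝓝 (-w)) := (continuous_neg.tendsto w)
  have h1 : Tendsto (fun z => E₂.symm (h₂ (-z))) (𝓝 w) (𝓝 (E₂.symm (h₂ (-w)))) :=
    (E₂.symm.continuous.tendsto _).comp (Tendsto.comp hc hn)
  refine (h1.congr' ?_).mono_left nhdsWithin_le_nhds
  have hw2 : 0 < w.re := by
    have := hw.2
    rw [Complex.neg_re] at this
    linarith
  have h2 : {z : ℂ | 0 < z.re} ∈ 𝓝 w :=
    (isOpen_lt continuous_const Complex.continuous_re).mem_nhds hw2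
  filter_upwards [h2] with z hz
  have hz' : ¬ z.re < 0 := not_lt.2 (le_of_lt hz)
  unfold Gw
  rw [if_neg hz']

private lemma WExtA_mid (W : WeldM κ E₁ E₂ h₁ h₂) {w : ℂ} (hw : w.re = 0) :
    ∃ l, Tendsto (Gw E₁ E₂ h₁ h₂) (𝓝[{w : ℂ | w.re ≠ 0}] w) (𝓝 l) := by
  have : (𝓝[{w : ℂ | w.re ≠ 0}] w).NeBot := mem_closure_iff_nhdsWithin_neBot.1 (WExtA_closure w)
  rw [← cauchy_map_iff_exists_tendsto, Metric.cauchy_iff]
  refine ⟨inferInstance, fun ε hε => ?_⟩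
  obtain ⟨δ, hδ, -, hun⟩ := W.unif (half_pos hε)
  refine ⟨Gw E₁ E₂ h₁ h₂ '' (ball w (δ / 2) ∩ {w : ℂ | w.re ≠ 0}), ?_, ?_⟩
  · refine image_mem_map ?_
    rw [inter_comm]
    exact inter_mem_nhdsWithin _ (ball_mem_nhds w (half_pos hδ))
  · rintro _ ⟨a, ⟨ha, ha0⟩, rfl⟩ _ ⟨b, ⟨hb, hb0⟩, rfl⟩
    rw [mem_ball, dist_eq_norm] at ha hb
    have a1 : |a.re| < δ := by
      have := (Complex.abs_re_le_norm (a - w))
      rw [Complex.sub_re, hw, sub_zero] at this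
      linarith
    have b1 : |b.re| < δ := by
      have := (Complex.abs_re_le_norm (b - w))
      rw [Complex.sub_re, hw, sub_zero] at this
      linarith
    have a2 := Complex.abs_im_le_norm (a - w)
    have b2 := Complex.abs_im_le_norm (b - w)
    rw [Complex.sub_im] at a2 b2
    have c : |a.im - b.im| < δ := by
      rw [abs_lt]
      rw [abs_le] at a2 b2
      constructor <;> linarith [a2.1, a2.2, b2.1, b2.2]
    have := hun a b ha0 hb0 a1 b1 c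
    rw [dist_eq_norm]
    linarith

private lemma WExtA_ex (W : WeldM κ E₁ E₂ h₁ h₂) {w : ℂ} (hw : w ∈ SS κ) :
    ∃ l, Tendsto (Gw E₁ E₂ h₁ h₂) (𝓝[{w : ℂ | w.re ≠ 0}] w) (𝓝 l) := by
  have hw' : |w.re| < κ := hw
  rw [abs_lt] at hw'
  rcases lt_trichotomy w.re 0 with h | h | h
  · exact ⟨_, WExtA_left W ⟨hw'.1, h⟩⟩
  · exact WExtA_mid W h
  · refine ⟨_, WExtA_right W ⟨?_, ?_⟩⟩
    · rw [Complex.neg_re]; linarith
    · rw [Complex.neg_re]; linarith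

private lemma WExtA_gwper (W : WeldM κ E₁ E₂ h₁ h₂) (z : ℂ) :
    Gw E₁ E₂ h₁ h₂ (z - 2 * Real.pi * I) = Gw E₁ E₂ h₁ h₂ z := by
  have hre : (z - 2 * Real.pi * I).re = z.re := by simp
  have e1 : h₁ (z - 2 * Real.pi * I) = h₁ z := by
    rw [← W.s1.per (z - 2 * Real.pi * I), sub_add_cancel]
  have e2 : h₂ (-(z - 2 * Real.pi * I)) = h₂ (-z) := by
    rw [← W.s2.per (-z)]
    congr 1
    ring
  unfold Gw
  rw [hre, e1, e2]

/-- off the interface the glued map is the old one (it is continuous there) -/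
theorem WeldM.Gx_left (W : WeldM κ E₁ E₂ h₁ h₂) {w : ℂ} (hw : w ∈ SL κ) :
    Gx E₁ E₂ h₁ h₂ w = E₁.symm (h₁ w) := by
  exact extendFrom_eq (WExtA_closure w) (WExtA_left W hw)

theorem WeldM.Gx_right (W : WeldM κ E₁ E₂ h₁ h₂) {w : ℂ} (hw : -w ∈ SL κ) :
    Gx E₁ E₂ h₁ h₂ w = E₂.symm (h₂ (-w)) := by
  exact extendFrom_eq (WExtA_closure w) (WExtA_right W hw)

/-- `continuousOn_extendFrom`; the limits exist by `unif` (Cauchy). -/
theorem WeldM.Gx_cont (W : WeldM κ E₁ E₂ h₁ h₂) : ContinuousOn (Gx E₁ E₂ h₁ h₂) (SS κ) := by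
  exact continuousOn_extendFrom (fun w _ => WExtA_closure w) fun w hw => WExtA_ex W hw

theorem WeldM.Gx_per (W : WeldM κ E₁ E₂ h₁ h₂) {w : ℂ} (hw : w ∈ SS κ) :
    Gx E₁ E₂ h₁ h₂ (w + 2 * Real.pi * I) = Gx E₁ E₂ h₁ h₂ w := by
  have h1 : Tendsto (Gw E₁ E₂ h₁ h₂) (𝓝[{w : ℂ | w.re ≠ 0}] w) (𝓝 (Gx E₁ E₂ h₁ h₂ w)) :=
    tendsto_extendFrom (WExtA_ex W hw)
  have h2 : Tendsto (fun z : ℂ => z - 2 * Real.pi * I)
      (𝓝[{w : ℂ | w.re ≠ 0}] (w + 2 * Real.pi * I)) (𝓝[{w : ℂ | w.re ≠ 0}] w) := by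
    refine tendsto_nhdsWithin_iff.2 ⟨?_, ?_⟩
    · have h3 : Tendsto (fun z : ℂ => z - 2 * Real.pi * I) (𝓝 (w + 2 * Real.pi * I))
          (𝓝 (w + 2 * Real.pi * I - 2 * Real.pi * I)) :=
        (continuous_id.sub continuous_const).tendsto _
      rw [add_sub_cancel_right] at h3
      exact h3.mono_left nhdsWithin_le_nhds
    · filter_upwards [self_mem_nhdsWithin] with z hz
      have hre : (z - 2 * Real.pi * I).re = z.re := by simp
      show (z - 2 * Real.pi * I).re ≠ 0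
      rw [hre]
      exact hz
  refine extendFrom_eq (WExtA_closure _) ?_
  refine (h1.comp h2).congr fun z => ?_
  exact WExtA_gwper W z

/-- the radial limits exist everywhere -/
theorem WeldM.Gx_rl (W : WeldM κ E₁ E₂ h₁ h₂) (y : ℝ) : Rl h₁ y ∧ Rl h₂ (-y) ∧
    Gx E₁ E₂ h₁ h₂ (y * I) = E₁.symm (sx h₁ y) ∧ Gx E₁ E₂ h₁ h₂ (y * I) = E₂.symm (sx h₂ (-y)) := by
  have hκ : 0 < κ := W.s1.κpos
  have hmem : ((y : ℂ) * I) ∈ SS κ := by
    show |((y : ℂ) * I).re| < κ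
    simp [hκ]
  have hopen : IsOpen (SS κ) :=
    isOpen_lt (continuous_abs.comp Complex.continuous_re) continuous_const
  have hcont : ContinuousAt (Gx E₁ E₂ h₁ h₂) ((y : ℂ) * I) :=
    W.Gx_cont.continuousAt (hopen.mem_nhds hmem)
  have hnear : Ioo (-κ) 0 ∈ 𝓝[<] (0 : ℝ) := Ioo_mem_nhdsLT (by linarith)
  have hl : Tendsto (fun x : ℝ => h₁ (x + y * I)) (𝓝[<] 0)
      (𝓝 (E₁ (Gx E₁ E₂ h₁ h₂ (y * I)))) := by
    have h1 : Tendsto (fun x : ℝ => (x : ℂ) + y * I) (𝓝[<] 0) (𝓝 ((y : ℂ) * I)) := by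
      have h2 : Tendsto (fun x : ℝ => (x : ℂ) + y * I) (𝓝 0) (𝓝 (((0 : ℝ) : ℂ) + y * I)) :=
        Continuous.tendsto (by fun_prop) 0
      rw [Complex.ofReal_zero, zero_add] at h2
      exact h2.mono_left nhdsWithin_le_nhds
    have h3 : Tendsto (fun x : ℝ => E₁ (Gx E₁ E₂ h₁ h₂ ((x : ℂ) + y * I))) (𝓝[<] 0)
        (𝓝 (E₁ (Gx E₁ E₂ h₁ h₂ (y * I)))) :=
      (E₁.continuous.tendsto _).comp (Tendsto.comp hcont h1)
    refine h3.congr' ?_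
    filter_upwards [hnear] with x hx
    rw [W.Gx_left (mem_SL.2 hx), E₁.apply_symm_apply]
  have hr : Tendsto (fun x : ℝ => h₂ (x + ((-y : ℝ) : ℂ) * I)) (𝓝[<] 0)
      (𝓝 (E₂ (Gx E₁ E₂ h₁ h₂ (y * I)))) := by
    have h1 : Tendsto (fun x : ℝ => -((x : ℂ) + ((-y : ℝ) : ℂ) * I)) (𝓝[<] 0)
        (𝓝 ((y : ℂ) * I)) := by
      have h2 : Tendsto (fun x : ℝ => -((x : ℂ) + ((-y : ℝ) : ℂ) * I)) (𝓝 0)
          (𝓝 (-(((0 : ℝ) : ℂ) + ((-y : ℝ) : ℂ) * I))) :=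
        Continuous.tendsto (by fun_prop) 0
      have h4 : -(((0 : ℝ) : ℂ) + ((-y : ℝ) : ℂ) * I) = (y : ℂ) * I := by
        push_cast
        ring
      rw [h4] at h2
      exact h2.mono_left nhdsWithin_le_nhds
    have h3 : Tendsto (fun x : ℝ => E₂ (Gx E₁ E₂ h₁ h₂ (-((x : ℂ) + ((-y : ℝ) : ℂ) * I))))
        (𝓝[<] 0) (𝓝 (E₂ (Gx E₁ E₂ h₁ h₂ (y * I)))) :=
      (E₂.continuous.tendsto _).comp (Tendsto.comp hcont h1)
    refine h3.congr' ?_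
    filter_upwards [hnear] with x hx
    have hm : -(-((x : ℂ) + ((-y : ℝ) : ℂ) * I)) ∈ SL κ := by
      rw [neg_neg]
      exact mem_SL.2 hx
    rw [W.Gx_right hm, E₂.apply_symm_apply, neg_neg]
  obtain ⟨r1, s1⟩ := rl_of_tendsto hl
  obtain ⟨r2, s2⟩ := rl_of_tendsto hr
  refine ⟨r1, r2, ?_, ?_⟩
  · rw [s1, E₁.symm_apply_apply]
  · rw [s2, E₂.symm_apply_apply]

end Pool.Agent.FB018
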