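import Mathlib
import Pool.Agent.Lib.MP_018119_an_FB.WExtA

/-!
# MP_018119_an, project FB, block WELD: injectivity
-/

set_option autoImplicit false

open MeasureTheory Set Metric Filter Topology
open Complex (I exp)

noncomputable section

namespace Pool.Agent.FB018

variable {κ : ℝ} {E₁ E₂ : ℂ ≃ₜ ℂ} {h₁ h₂ : ℂ → ℂ}

/-- the collar is preconnected -/
lemma WExtB_conn {κ : ℝ} {h : ℂ → ℂ} (hS : Side κ h) (E : ℂ ≃ₜ ℂ) :
    IsPreconnected ((fun w => E.symm (h w)) '' SL κ) := by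
  have h1 : Convex ℝ (SL κ) := by
    have : SL κ = Complex.reLm ⁻¹' (Ioo (-κ) 0) := by
      ext w
      simp [SL]
    rw [this]
    exact (convex_Ioo _ _).linear_preimage _
  exact h1.isPreconnected.image _ (E.symm.continuous.comp_continuousOn hS.hol.continuousOn)

/-- approach to a radial limit -/
lemma WExtB_tendsto {h : ℂ → ℂ} (E : ℂ ≃ₜ ℂ) {y : ℝ} (hy : Rl h y) :
    Tendsto (fun x : ℝ => E.symm (h (x + y * I))) (𝓝[<] 0) (𝓝 (E.symm (sx h y))) :=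
  (E.symm.continuous.tendsto _).comp hy

/-- the points of the sides of a closed box of one collar -/
lemma WExtB_mem {κ : ℝ} {h : ℂ → ℂ} (E : ℂ ≃ₜ ℂ) {x y₁ y₂ : ℝ} (hx : x ∈ Ioo (-κ) 0) {z : ℂ}
    (hz : z ∈ Usd (ux E h) x y₁ y₂) :
    (∃ w ∈ SL κ, z = E.symm (h w)) ∨ z = E.symm (sx h y₁) ∨ z = E.symm (sx h y₂) := by
  have key : ∀ t y : ℝ, x ≤ t → t ≤ 0 → ux E h (t + y * I) = z →
      (∃ w ∈ SL κ, z = E.symm (h w)) ∨ z = E.symm (sx h y) := by
    intro t y h1 h2 h3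
    rcases lt_or_eq_of_le h2 with h4 | h4
    · left
      refine ⟨t + y * I, mem_SL.2 ⟨by linarith [hx.1], h4⟩, ?_⟩
      rw [← h3, ux_neg (by simpa using h4)]
    · right
      rw [← h3, h4, ux_zero]
  rcases hz with (⟨t, ht, h3⟩ | ⟨t, ht, h3⟩) | ⟨t, ht, h3⟩
  · rcases key t y₁ ht.1 ht.2 h3 with h4 | h4
    · exact Or.inl h4
    · exact Or.inr (Or.inl h4)
  · rcases key t y₂ ht.1 ht.2 h3 with h4 | h4
    · exact Or.inl h4
    · exact Or.inr (Or.inr h4)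
  · rcases key x t le_rfl hx.2.le h3 with h4 | h4
    · exact Or.inl h4
    · left
      refine ⟨x + t * I, mem_SL.2 ⟨hx.1, hx.2⟩, ?_⟩
      have h5 : ux E h (x + t * I) = E.symm (h (x + t * I)) := ux_neg (by simpa using hx.2)
      exact h3.symm.trans h5

/-- **Injectivity on the interface.**  Let `0 < y₂ - y₁ < 2 π` and `Gx (y₁ i) = Gx (y₂ i) = p`.
`Side.jump` with `τ = 0` (the three sides are a closed curve in the first collar and `p`): the index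
`N` is `m + 2 π i` in the box and `m` outside; on the second collar, which is connected and does not
meet the curve, it is constant.  A point `Gx (y i) ≠ p`, `y₁ < y < y₂`, is not on the curve and is a
limit of points of the box and of points of the second collar; for `y₂ < y < y₁ + 2 π` it is a limit
of points outside of the box and of points of the second collar.  So `Gx = p` on one of the two
intervals, against `no_atom`. -/
theorem WeldM.inj_line (W : WeldM κ E₁ E₂ h₁ h₂) {y₁ y₂ : ℝ} (hy : y₁ < y₂)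
    (hy' : y₂ < y₁ + 2 * Real.pi) : Gx E₁ E₂ h₁ h₂ (y₁ * I) ≠ Gx E₁ E₂ h₁ h₂ (y₂ * I) := by
  intro he
  have hκ := W.s1.κpos
  obtain ⟨g1, k1, a1, b1⟩ := W.Gx_rl y₁
  obtain ⟨g2, k2, a2, b2⟩ := W.Gx_rl y₂
  set p := Gx E₁ E₂ h₁ h₂ (y₁ * I) with hp
  have a2' : p = E₁.symm (sx h₁ y₂) := he.trans a2
  have hx : (-(κ / 2)) ∈ Ioo (-κ) 0 := ⟨by linarith, by linarith⟩
  set N := Ush (ux E₁ h₁) (-(κ / 2)) y₁ y₂ with hN
  -- the jump
  obtain ⟨m, hm1, hm2⟩ := W.s1.jump W.p1 hx hy hy' g1 g2 (τ := fun _ => 0) continuousOn_const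
    (fun w hw => by
      have h1 : E₁.symm (sx h₁ y₁) - E₁.symm (h₁ w) ≠ 0 :=
        sub_ne_zero.2 fun h => W.s1.sx_ne g1 hw (E₁.symm.injective h)
      rw [← a2', a1, div_self h1, Complex.exp_zero])
  simp only [add_zero] at hm1 hm2
  -- points which are not on the curve
  have hoff : ∀ z, z ≠ p → (∀ w ∈ SL κ, z ≠ E₁.symm (h₁ w)) →
      z ∉ Usd (ux E₁ h₁) (-(κ / 2)) y₁ y₂ := by
    intro z hz1 hz2 hz3
    rcases WExtB_mem E₁ hx hz3 with ⟨w, hw, h4⟩ | h4 | h4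
    · exact hz2 w hw h4
    · exact hz1 (h4.trans a1.symm)
    · exact hz1 (h4.trans a2'.symm)
  -- the second collar
  have hC2 : ∀ w ∈ SL κ, E₂.symm (h₂ w) ∉ Usd (ux E₁ h₁) (-(κ / 2)) y₁ y₂ := by
    intro w hw
    refine hoff _ ?_ fun w' hw' h => W.disj w' hw' w hw h.symm
    intro h
    rw [b1] at h
    exact W.s2.sx_ne k1 hw (E₂.symm.injective h.symm)
  have hexp : ∀ z, z ∉ Usd (ux E₁ h₁) (-(κ / 2)) y₁ y₂ → z ≠ p → exp (N z) = 1 := by
    intro z hz hzp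
    rw [hN, W.s1.exp_Ush hx hy g1 g2 hz, ← a1, ← a2']
    exact div_self (sub_ne_zero.2 hzp.symm)
  obtain ⟨m₂, hm₂⟩ : ∃ m₂, ∀ w ∈ SL κ, N (E₂.symm (h₂ w)) = m₂ := by
    have hw0 : (((-(κ / 2) : ℝ) : ℂ) + (0 : ℝ) * I) ∈ SL κ := mem_SL.2 hx
    refine ⟨N (E₂.symm (h₂ (((-(κ / 2) : ℝ) : ℂ) + (0 : ℝ) * I))), fun w hw => ?_⟩
    refine log_one_const (WExtB_conn W.s2 E₂) (M := N) ?_ ?_ (mem_image_of_mem _ hw)
      (mem_image_of_mem _ hw0)
    · rintro _ ⟨w, hw, rfl⟩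
      exact (W.s1.Ush_continuousAt hx hy g1 g2 (hC2 w hw)).continuousWithinAt
    · rintro _ ⟨w, hw, rfl⟩
      refine hexp _ (hC2 w hw) ?_
      intro h
      rw [b1] at h
      exact W.s2.sx_ne k1 hw (E₂.symm.injective h.symm)
  -- the values of the index at the points of the interface
  have hlim1 : ∀ (y : ℝ) (v : ℂ), Gx E₁ E₂ h₁ h₂ (y * I) ≠ p →
      (∀ᶠ x : ℝ in 𝓝[<] 0, N (E₁.symm (h₁ (x + y * I))) = v) →
      N (Gx E₁ E₂ h₁ h₂ (y * I)) = v := by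
    intro y v hne hv
    obtain ⟨g, k, a, b⟩ := W.Gx_rl y
    have hnot : Gx E₁ E₂ h₁ h₂ (y * I) ∉ Usd (ux E₁ h₁) (-(κ / 2)) y₁ y₂ := by
      refine hoff _ hne fun w hw h => ?_
      rw [a] at h
      exact W.s1.sx_ne g hw (E₁.symm.injective h)
    have hc := W.s1.Ush_continuousAt hx hy g1 g2 hnot
    rw [a] at hc ⊢
    have t1 := hc.tendsto.comp (WExtB_tendsto E₁ g)
    exact tendsto_nhds_unique (t1.congr' hv) tendsto_const_nhds
  have hlim2 : ∀ y : ℝ, Gx E₁ E₂ h₁ h₂ (y * I) ≠ p → N (Gx E₁ E₂ h₁ h₂ (y * I)) = m₂ := by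
    intro y hne
    obtain ⟨g, k, a, b⟩ := W.Gx_rl y
    have hnot : Gx E₁ E₂ h₁ h₂ (y * I) ∉ Usd (ux E₁ h₁) (-(κ / 2)) y₁ y₂ := by
      refine hoff _ hne fun w hw h => ?_
      rw [a] at h
      exact W.s1.sx_ne g hw (E₁.symm.injective h)
    have hc := W.s1.Ush_continuousAt hx hy g1 g2 hnot
    rw [b] at hc ⊢
    have t1 := hc.tendsto.comp (WExtB_tendsto E₂ k)
    refine tendsto_nhds_unique (t1.congr' ?_) tendsto_const_nhds
    filter_upwards [Ioo_mem_nhdsLT (neg_lt_zero.2 hκ)] with x hxx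
    exact hm₂ _ (mem_SL.2 hxx)
  have hev : ∀ᶠ x : ℝ in 𝓝[<] 0, x ∈ Ioo (-(κ / 2)) 0 :=
    Ioo_mem_nhdsLT (by linarith)
  have hin : ∀ y ∈ Ioo y₁ y₂, Gx E₁ E₂ h₁ h₂ (y * I) ≠ p → m₂ = m + 2 * Real.pi * I := by
    intro y hyy hne
    rw [← hlim2 y hne]
    refine hlim1 y _ hne ?_
    filter_upwards [hev] with x hxx
    exact hm2 _ (mem_SL.2 ⟨by linarith [hxx.1], hxx.2⟩) (by simpa using hxx.1)
      (by simpa using hyy.1) (by simpa using hyy.2)
  have hout : ∀ y ∈ Ioo y₂ (y₁ + 2 * Real.pi), Gx E₁ E₂ h₁ h₂ (y * I) ≠ p → m₂ = m := by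
    intro y hyy hne
    rw [← hlim2 y hne]
    refine hlim1 y _ hne ?_
    filter_upwards [hev] with x hxx
    exact hm1 _ (mem_SL.2 ⟨by linarith [hxx.1], hxx.2⟩)
      (Or.inr ⟨by simpa using hyy.1, by simpa using hyy.2⟩)
  -- no atoms
  have hno : ∀ a b : ℝ, a < b → ∃ y ∈ Ioo a b, Gx E₁ E₂ h₁ h₂ (y * I) ≠ p := by
    intro a b hab
    by_contra hcon
    push Not at hcon
    have h1 := W.s1.no_atom (E₁ p)
    have h2 : volume (Ioo a b) = 0 := by
      refine measure_mono_null ?_ (ae_iff.1 h1)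
      intro y hyy
      simp only [mem_ofPred_eq, not_not]
      have h3 := hcon y hyy
      rw [(W.Gx_rl y).2.2.1] at h3
      rw [← h3, Homeomorph.apply_symm_apply]
    rw [Real.volume_Ioo, ENNReal.ofReal_eq_zero] at h2
    linarith
  obtain ⟨y, hy1, hy2⟩ := hno y₁ y₂ hy
  obtain ⟨y', hy1', hy2'⟩ := hno y₂ (y₁ + 2 * Real.pi) hy'
  have e1 := hin y hy1 hy2
  have e2 := hout y' hy1' hy2'
  rw [e2] at e1
  have e3 : (2 * Real.pi * I : ℂ) = 0 := by linear_combination -e1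
  simp [Real.pi_ne_zero] at e3

/-- injectivity modulo the period -/
theorem WeldM.Gx_inj (W : WeldM κ E₁ E₂ h₁ h₂) {w w' : ℂ} (hw : w ∈ SS κ) (hw' : w' ∈ SS κ)
    (he : Gx E₁ E₂ h₁ h₂ w = Gx E₁ E₂ h₁ h₂ w') : ∃ n : ℤ, w' = w + n * (2 * Real.pi * I) := by
  have hw2 : -κ < w.re ∧ w.re < κ := abs_lt.1 (show |w.re| < κ from hw)
  have hw2' : -κ < w'.re ∧ w'.re < κ := abs_lt.1 (show |w'.re| < κ from hw')
  have hI : ∀ v : ℂ, v.re = 0 → v = (v.im : ℂ) * I := by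
    intro v hv
    apply Complex.ext <;> simp [hv]
  have hneg : ∀ v : ℂ, 0 < v.re → v.re < κ → -v ∈ SL κ := by
    intro v h1 h2
    exact ⟨by rw [Complex.neg_re]; linarith, by rw [Complex.neg_re]; linarith⟩
  -- a point of the interface is not in the collars
  have hl : ∀ v u : ℂ, v ∈ SL κ → u.re = 0 → Gx E₁ E₂ h₁ h₂ v ≠ Gx E₁ E₂ h₁ h₂ u := by
    intro v u hv hu h
    obtain ⟨g, -, a, -⟩ := W.Gx_rl u.im
    rw [W.Gx_left hv, hI u hu, a] at h
    exact W.s1.sx_ne g hv (E₁.symm.injective h.symm)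
  have hr : ∀ v u : ℂ, -v ∈ SL κ → u.re = 0 → Gx E₁ E₂ h₁ h₂ v ≠ Gx E₁ E₂ h₁ h₂ u := by
    intro v u hv hu h
    obtain ⟨-, k, -, b⟩ := W.Gx_rl u.im
    rw [W.Gx_right hv, hI u hu, b] at h
    exact W.s2.sx_ne k hv (E₂.symm.injective h.symm)
  rcases lt_trichotomy w.re 0 with h1 | h1 | h1
  · have m1 : w ∈ SL κ := ⟨hw2.1, h1⟩
    rcases lt_trichotomy w'.re 0 with h2 | h2 | h2
    · have m2 : w' ∈ SL κ := ⟨hw2'.1, h2⟩
      rw [W.Gx_left m1, W.Gx_left m2] at he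
      exact W.s1.inj _ m1 _ m2 (E₁.symm.injective he)
    · exact absurd he (hl _ _ m1 h2)
    · rw [W.Gx_left m1, W.Gx_right (hneg _ h2 hw2'.2)] at he
      exact absurd he (W.disj _ m1 _ (hneg _ h2 hw2'.2))
  · rcases lt_trichotomy w'.re 0 with h2 | h2 | h2
    · exact absurd he.symm (hl _ _ ⟨hw2'.1, h2⟩ h1)
    · -- both points are on the interface
      have hpi := Real.two_pi_pos
      obtain ⟨n, hn, -⟩ := existsUnique_add_zsmul_mem_Ico hpi w'.im w.im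
      have hper : Function.Periodic (sx h₁) (2 * Real.pi) := W.s1.sx_per
      have e1 : Gx E₁ E₂ h₁ h₂ (((w'.im + n • (2 * Real.pi) : ℝ) : ℂ) * I) =
          Gx E₁ E₂ h₁ h₂ w' := by
        have e3 : Gx E₁ E₂ h₁ h₂ w' = Gx E₁ E₂ h₁ h₂ ((w'.im : ℂ) * I) := by rw [← hI w' h2]
        rw [e3, (W.Gx_rl _).2.2.1, (W.Gx_rl _).2.2.1, zsmul_eq_mul, hper.int_mul n w'.im]
      have e2 : w.im = w'.im + n • (2 * Real.pi) := by
        by_contra hne
        have hlt : w.im < w'.im + n • (2 * Real.pi) := lt_of_le_of_ne hn.1 hne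
        refine W.inj_line hlt hn.2 ?_
        rw [e1, ← he, ← hI w h1]
      refine ⟨-n, ?_⟩
      apply Complex.ext
      · simp [h1, h2]
      · simp only [zsmul_eq_mul] at e2
        simp [e2]
    · exact absurd he.symm (hr _ _ (hneg _ h2 hw2'.2) h1)
  · have m1 := hneg _ h1 hw2.2
    rcases lt_trichotomy w'.re 0 with h2 | h2 | h2
    · rw [W.Gx_right m1, W.Gx_left ⟨hw2'.1, h2⟩] at he
      exact absurd he.symm (W.disj _ ⟨hw2'.1, h2⟩ _ m1)
    · exact absurd he (hr _ _ m1 h2)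
    · have m2 := hneg _ h2 hw2'.2
      rw [W.Gx_right m1, W.Gx_right m2] at he
      obtain ⟨n, hn⟩ := W.s2.inj _ m1 _ m2 (E₂.symm.injective he)
      refine ⟨-n, ?_⟩
      push_cast
      linear_combination -hn

end Pool.Agent.FB018
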