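import Mathlib
import Pool.Agent.Lib.MP_018119_an_FB.WExtB

/-!
# MP_018119_an, project FB, block WELD: openness
-/

set_option autoImplicit false

open MeasureTheory Set Metric Filter Topology
open Complex (I exp)

noncomputable section

namespace Pool.Agent.FB018

variable {κ : ℝ} {E₁ E₂ : ℂ ≃ₜ ℂ} {h₁ h₂ : ℂ → ℂ}

/-- the closed box -/
def WExtC_box (δ y₀ : ℝ) : Set ℂ := {w | -δ ≤ w.re ∧ w.re ≤ δ ∧ y₀ - δ ≤ w.im ∧ w.im ≤ y₀ + δ}

/-- the glued map on the first half -/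
theorem WExtC_left (W : WeldM κ E₁ E₂ h₁ h₂) {t s : ℝ} (h1 : -κ < t) (h2 : t ≤ 0) :
    ux E₁ h₁ ((t : ℂ) + s * I) = Gx E₁ E₂ h₁ h₂ (t + s * I) := by
  rcases h2.lt_or_eq with h3 | h3
  · rw [ux_neg (by simpa using h3), W.Gx_left (mem_SL.2 ⟨h1, h3⟩)]
  · subst h3
    rw [ux_zero, ← (W.Gx_rl s).2.2.1]
    simp

/-- the glued map on the second half -/
theorem WExtC_right (W : WeldM κ E₁ E₂ h₁ h₂) {t s : ℝ} (h1 : -κ < t) (h2 : t ≤ 0) :
    ux E₂ h₂ ((t : ℂ) + s * I) = Gx E₁ E₂ h₁ h₂ (((-t : ℝ) : ℂ) + ((-s : ℝ) : ℂ) * I) := by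
  have e : -((((-t : ℝ) : ℂ) + ((-s : ℝ) : ℂ) * I)) = (t : ℂ) + s * I := by push_cast; ring
  rcases h2.lt_or_eq with h3 | h3
  · rw [ux_neg (by simpa using h3), W.Gx_right (by rw [e]; exact mem_SL.2 ⟨h1, h3⟩), e]
  · subst h3
    have e2 := (W.Gx_rl (-s)).2.2.2
    rw [neg_neg] at e2
    rw [ux_zero, ← e2]
    simp

/-- **Openness at the interface.**  Let `w₀ = y₀ i` and a small box around `w₀` (`exists_box`,
`box_index`), `R` the closed box, `N z` the sum of the two variations = variation of `Gx` along the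
boundary of `R`.  `z₀ = Gx w₀` is not on the curve (`Gx_inj`), `N z₀ = 2 π i` (limit of points of the
box), so `N z = 2 π i` for `z` near `z₀` (locally constant).  If such a `z` is not in `Gx '' R` then
`Gx - z` has a continuous logarithm on `R` and `N z = 0`. -/
theorem WeldM.nhds_line (W : WeldM κ E₁ E₂ h₁ h₂) (y₀ : ℝ) {U : Set ℂ} (hU : U ∈ 𝓝 ((y₀ : ℂ) * I)) :
    Gx E₁ E₂ h₁ h₂ '' U ∈ 𝓝 (Gx E₁ E₂ h₁ h₂ (y₀ * I)) := by
  have hκ : 0 < κ := W.s1.κpos
  have hpi := Real.pi_gt_three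
  obtain ⟨ε₀, hε₀, hbox⟩ := W.box_index
  set G := Gx E₁ E₂ h₁ h₂ with hG
  set w₀ : ℂ := (y₀ : ℂ) * I with hw₀
  have hre₀ : w₀.re = 0 := by rw [hw₀]; simp
  have him₀ : w₀.im = y₀ := by rw [hw₀]; simp
  have hSSo : IsOpen (SS κ) := isOpen_lt (by fun_prop) continuous_const
  have hw₀S : w₀ ∈ SS κ := by
    change |w₀.re| < κ
    rw [hre₀, abs_zero]
    exact hκ
  have hGc : ContinuousAt G w₀ := W.Gx_cont.continuousAt (hSSo.mem_nhds hw₀S)
  -- a small box
  obtain ⟨δ, hδ, hδκ, hδ1, hδU, hδG⟩ : ∃ δ > 0, δ < κ / 2 ∧ δ < 1 ∧ WExtC_box δ y₀ ⊆ U ∧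
      ∀ w ∈ WExtC_box δ y₀, ‖G w - G w₀‖ ≤ ε₀ / 2 := by
    have h1 : ∀ᶠ w in 𝓝 w₀, w ∈ U ∧ ‖G w - G w₀‖ < ε₀ / 2 := by
      refine (show ∀ᶠ w in 𝓝 w₀, w ∈ U from hU).and ?_
      filter_upwards [hGc (ball_mem_nhds (G w₀) (half_pos hε₀))] with w hw
      rwa [mem_preimage, mem_ball, dist_eq_norm] at hw
    obtain ⟨r, hr, h2⟩ := Metric.eventually_nhds_iff.1 h1
    refine ⟨min (r / 3) (min (κ / 3) (1 / 2)), by positivity, ?_, ?_, ?_, ?_⟩
    · have := (min_le_right (r / 3) (min (κ / 3) (1 / 2))).trans (min_le_left _ _)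
      linarith
    · have := (min_le_right (r / 3) (min (κ / 3) (1 / 2))).trans (min_le_right _ _)
      linarith
    all_goals
      intro w hw
      have h3 := min_le_left (r / 3) (min (κ / 3) (1 / 2))
      have h4 : dist w w₀ < r := by
        rw [dist_eq_norm]
        refine (Complex.norm_le_abs_re_add_abs_im _).trans_lt ?_
        have a1 : |(w - w₀).re| ≤ r / 3 := by
          rw [Complex.sub_re, hre₀, sub_zero, abs_le]
          exact ⟨by linarith [hw.1], by linarith [hw.2.1]⟩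
        have a2 : |(w - w₀).im| ≤ r / 3 := by
          rw [Complex.sub_im, him₀, abs_le]
          exact ⟨by linarith [hw.2.2.1], by linarith [hw.2.2.2]⟩
        linarith
    · exact (h2 h4).1
    · exact (h2 h4).2.le
  set a := y₀ - δ with ha
  set b := y₀ + δ with hb
  have hab : a < b := by linarith
  obtain ⟨g1, k1, ga, -⟩ := W.Gx_rl a
  obtain ⟨g2, k2, gb, -⟩ := W.Gx_rl b
  have ga2 := (W.Gx_rl a).2.2.2
  have gb2 := (W.Gx_rl b).2.2.2
  have e1 : E₁.symm (sx h₁ a) = E₂.symm (sx h₂ (-a)) := ga.symm.trans ga2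
  have e2 : E₁.symm (sx h₁ b) = E₂.symm (sx h₂ (-b)) := gb.symm.trans gb2
  have hx : -δ ∈ Ioo (-κ / 2) 0 := ⟨by linarith, by linarith⟩
  have hx1 : -δ ∈ Ioo (-κ) 0 := ⟨by linarith, by linarith⟩
  -- the sides
  have side1 : ∀ z ∈ Usd (ux E₁ h₁) (-δ) a b, ∃ w ∈ WExtC_box δ y₀, w ≠ w₀ ∧ z = G w := by
    rintro z ((⟨t, ht, h3⟩ | ⟨t, ht, h3⟩) | ⟨t, ht, h3⟩)
    · refine ⟨t + a * I, ⟨by simpa using ht.1, by simp; linarith [ht.2], by simp [ha],
        by simp; linarith⟩, fun h => ?_, ?_⟩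
      · have := congrArg Complex.im h
        rw [him₀] at this
        simp at this
        linarith
      · rw [← h3]; exact WExtC_left W (by linarith [ht.1]) ht.2
    · refine ⟨t + b * I, ⟨by simpa using ht.1, by simp; linarith [ht.2], by simp; linarith,
        by simp [hb]⟩, fun h => ?_, ?_⟩
      · have := congrArg Complex.im h
        rw [him₀] at this
        simp at this
        linarith
      · rw [← h3]; exact WExtC_left W (by linarith [ht.1]) ht.2
    · refine ⟨((-δ : ℝ) : ℂ) + t * I, ⟨by simp, by simp; linarith, by simp; linarith [ht.1],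
        by simp; linarith [ht.2]⟩, fun h => ?_, ?_⟩
      · have := congrArg Complex.re h
        rw [hre₀] at this
        simp at this
        linarith
      · rw [← h3]; exact WExtC_left W (by linarith) (by linarith)
  have side2 : ∀ z ∈ Usd (ux E₂ h₂) (-δ) (-b) (-a), ∃ w ∈ WExtC_box δ y₀, w ≠ w₀ ∧ z = G w := by
    rintro z ((⟨t, ht, h3⟩ | ⟨t, ht, h3⟩) | ⟨t, ht, h3⟩)
    · refine ⟨((-t : ℝ) : ℂ) + ((- -b : ℝ) : ℂ) * I, ⟨by simp; linarith [ht.2],
        by simp; linarith [ht.1], by simp; linarith, by simp [hb]⟩, fun h => ?_, ?_⟩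
      · have := congrArg Complex.im h
        rw [him₀] at this
        simp at this
        linarith
      · rw [← h3]; exact WExtC_right W (by linarith [ht.1]) ht.2
    · refine ⟨((-t : ℝ) : ℂ) + ((- -a : ℝ) : ℂ) * I, ⟨by simp; linarith [ht.2],
        by simp; linarith [ht.1], by simp [ha], by simp; linarith⟩, fun h => ?_, ?_⟩
      · have := congrArg Complex.im h
        rw [him₀] at this
        simp at this
        linarith
      · rw [← h3]; exact WExtC_right W (by linarith [ht.1]) ht.2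
    · refine ⟨((- -δ : ℝ) : ℂ) + ((-t : ℝ) : ℂ) * I, ⟨by simp; linarith, by simp,
        by simp; linarith [ht.2], by simp; linarith [ht.1]⟩, fun h => ?_, ?_⟩
      · have := congrArg Complex.re h
        rw [hre₀] at this
        simp at this
        linarith
      · rw [← h3]; exact WExtC_right W (by linarith) (by linarith)
  have hpa : ‖E₁.symm (sx h₁ a) - G w₀‖ ≤ ε₀ / 2 := by
    rw [← ga]
    refine hδG _ ⟨by simp; linarith, by simp; linarith, by simp [ha], by simp; linarith⟩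
  have c1 : ∀ z ∈ Usd (ux E₁ h₁) (-δ) a b, ‖z - E₁.symm (sx h₁ a)‖ ≤ ε₀ := by
    intro z hz
    obtain ⟨w, hw, -, rfl⟩ := side1 z hz
    have h3 := hδG w hw
    have h4 := norm_sub_le_norm_sub_add_norm_sub (G w) (G w₀) (E₁.symm (sx h₁ a))
    rw [norm_sub_rev (G w₀)] at h4
    linarith
  have c2 : ∀ z ∈ Usd (ux E₂ h₂) (-δ) (-b) (-a), ‖z - E₁.symm (sx h₁ a)‖ ≤ ε₀ := by
    intro z hz
    obtain ⟨w, hw, -, rfl⟩ := side2 z hz
    have h3 := hδG w hw
    have h4 := norm_sub_le_norm_sub_add_norm_sub (G w) (G w₀) (E₁.symm (sx h₁ a))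
    rw [norm_sub_rev (G w₀)] at h4
    linarith
  have hidx := hbox ε₀ ⟨hε₀, le_rfl⟩ (-δ) (-δ) a b hx hx hab (by linarith) g1 g2 k2 k1 e1 e2 c1 c2
  -- the point is not on the sides
  have hinj : ∀ w ∈ WExtC_box δ y₀, G w = G w₀ → w = w₀ := by
    intro w hw he
    have hwS : w ∈ SS κ := by
      change |w.re| < κ
      rw [abs_lt]
      exact ⟨by linarith [hw.1], by linarith [hw.2.1]⟩
    obtain ⟨n, hn⟩ := W.Gx_inj hw₀S hwS he.symm
    have him : w.im = y₀ + n * (2 * Real.pi) := by rw [hn]; simp [him₀]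
    have i1 := hw.2.2.1
    have i2 := hw.2.2.2
    have b1 : -1 < (n : ℝ) := by nlinarith
    have b2 : (n : ℝ) < 1 := by nlinarith
    have c1 : (-1 : ℤ) < n := by exact_mod_cast b1
    have c2 : n < (1 : ℤ) := by exact_mod_cast b2
    have c3 : n = 0 := by omega
    rw [hn, c3]
    simp
  have n1 : G w₀ ∉ Usd (ux E₁ h₁) (-δ) a b := by
    intro hz
    obtain ⟨w, hw, hne, he⟩ := side1 _ hz
    exact hne (hinj w hw he.symm)
  have n2 : G w₀ ∉ Usd (ux E₂ h₂) (-δ) (-b) (-a) := by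
    intro hz
    obtain ⟨w, hw, hne, he⟩ := side2 _ hz
    exact hne (hinj w hw he.symm)
  set N : ℂ → ℂ := fun z => Ush (ux E₁ h₁) (-δ) a b z + Ush (ux E₂ h₂) (-δ) (-b) (-a) z with hN
  have hNc : ContinuousAt N (G w₀) :=
    (W.s1.Ush_continuousAt hx1 hab g1 g2 n1).add
      (W.s2.Ush_continuousAt hx1 (neg_lt_neg hab) k2 k1 n2)
  -- its index
  have hN0 : N (G w₀) = 2 * Real.pi * I := by
    obtain ⟨gr, -, gy, -⟩ := W.Gx_rl y₀
    have h2 : Tendsto (fun s : ℝ => E₁.symm (h₁ (s + y₀ * I))) (𝓝[<] 0) (𝓝 (G w₀)) := by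
      rw [hG, hw₀, gy]
      exact (E₁.symm.continuous.tendsto _).comp gr
    refine tendsto_nhds_unique (hNc.tendsto.comp h2) ?_
    refine tendsto_const_nhds.congr' ?_
    filter_upwards [Ioo_mem_nhdsLT hx.2] with s hs
    exact (hidx _ (mem_SL.2 ⟨by linarith [hs.1], hs.2⟩) (by simpa using hs.1)
      (by simp; linarith) (by simp; linarith)).symm
  -- near points
  have hcpt1 := W.s1.isCompact_Usd (E := E₁) hx1 hab g1 g2
  have hcpt2 := W.s2.isCompact_Usd (E := E₂) hx1 (neg_lt_neg hab) k2 k1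
  have near : ∀ᶠ z in 𝓝 (G w₀), z ∉ Usd (ux E₁ h₁) (-δ) a b ∧
      z ∉ Usd (ux E₂ h₂) (-δ) (-b) (-a) ∧ N z ≠ 0 := by
    have m1 : ∀ᶠ z in 𝓝 (G w₀), z ∉ Usd (ux E₁ h₁) (-δ) a b :=
      hcpt1.isClosed.isOpen_compl.mem_nhds n1
    have m2 : ∀ᶠ z in 𝓝 (G w₀), z ∉ Usd (ux E₂ h₂) (-δ) (-b) (-a) :=
      hcpt2.isClosed.isOpen_compl.mem_nhds n2
    have m3 : ∀ᶠ z in 𝓝 (G w₀), N z ≠ 0 := by
      refine hNc.eventually_ne ?_
      rw [hN0]
      exact Complex.two_pi_I_ne_zero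
    exact m1.and (m2.and m3)
  have hGbox : ContinuousOn G (WExtC_box δ y₀) := W.Gx_cont.mono fun w hw => by
    change |w.re| < κ
    rw [abs_lt]
    exact ⟨by linarith [hw.1], by linarith [hw.2.1]⟩
  filter_upwards [near] with z hz
  by_contra hcon
  -- a continuous logarithm
  have hav : ∀ w ∈ WExtC_box δ y₀, G w ≠ z := fun w hw he => hcon ⟨w, hδU hw, he⟩
  set r : ℂ → ℂ := fun w => ((max (-δ) (min w.re δ) : ℝ) : ℂ) +
    ((max (y₀ - δ) (min w.im (y₀ + δ)) : ℝ) : ℂ) * I with hr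
  have hrc : Continuous r := by
    rw [hr]
    fun_prop
  have hrm : ∀ w, r w ∈ WExtC_box δ y₀ := by
    intro w
    refine ⟨?_, ?_, ?_, ?_⟩
    · simp [hr]
    · simp [hr, hδ.le]
    · simp [hr]
    · simp only [hr]
      simp
      linarith
  have hrid : ∀ w ∈ WExtC_box δ y₀, r w = w := by
    intro w hw
    have a1 : max (-δ) (min w.re δ) = w.re := by
      rw [min_eq_left hw.2.1, max_eq_right hw.1]
    have a2 : max (y₀ - δ) (min w.im (y₀ + δ)) = w.im := by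
      rw [min_eq_left hw.2.2.2, max_eq_right hw.2.2.1]
    simp only [hr]
    rw [a1, a2, Complex.re_add_im]
  have hHc : Continuous fun w => G (r w) - z :=
    (hGbox.comp_continuous hrc hrm).sub continuous_const
  have hsc : IsSimplyConnected (univ : Set ℂ) := by
    have : ContractibleSpace (univ : Set ℂ) := convex_univ.contractibleSpace ⟨0, trivial⟩
    exact SimplyConnectedSpace.ofContractible _
  obtain ⟨L, hL, hL'⟩ := Complex.exists_continuousOn_eqOn_exp_comp hsc isOpen_univ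
    (g := fun w => G (r w) - z) hHc.continuousOn (by
      rintro ⟨w, -, h0⟩
      exact hav (r w) (hrm w) (sub_eq_zero.1 h0))
  have hLc : Continuous L := continuousOn_univ.1 hL
  have hLe : ∀ w ∈ WExtC_box δ y₀, exp (L w) = G w - z := by
    intro w hw
    have := hL' (mem_univ w)
    simp only [Function.comp_apply] at this
    rw [this, hrid w hw]
  -- the variation along one side
  have one : ∀ (u : ℝ → ℂ) (c : ℝ → ℂ) (s t : ℝ), s ≤ t → Continuous c →
      (∀ τ ∈ Icc s t, c τ ∈ WExtC_box δ y₀) → (∀ τ ∈ Icc s t, u τ = G (c τ)) →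
      Vr u s t z = L (c t) - L (c s) := by
    intro u c s t hst hc hcb hu
    exact vr_eq (L := fun τ => L (c τ)) hst ⟨(hLc.comp hc).continuousOn, fun τ hτ => by
      rw [hLe _ (hcb τ hτ), hu τ hτ]⟩
  have hδ0 : -δ ≤ 0 := by linarith
  have v1 := one (fun t : ℝ => ux E₁ h₁ (t + a * I)) (fun t : ℝ => (t : ℂ) + a * I) (-δ) 0 hδ0
    (by fun_prop) (fun t ht => ⟨by simpa using ht.1, by simp; linarith [ht.2], by simp [ha],
        by simp; linarith⟩) (fun t ht => WExtC_left W (by linarith [ht.1]) ht.2)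
  have v2 := one (fun t : ℝ => ux E₁ h₁ (t + b * I)) (fun t : ℝ => (t : ℂ) + b * I) (-δ) 0 hδ0
    (by fun_prop) (fun t ht => ⟨by simpa using ht.1, by simp; linarith [ht.2], by simp; linarith,
        by simp [hb]⟩) (fun t ht => WExtC_left W (by linarith [ht.1]) ht.2)
  have v3 := one (fun t : ℝ => ux E₁ h₁ (((-δ : ℝ) : ℂ) + t * I))
    (fun t : ℝ => ((-δ : ℝ) : ℂ) + t * I) a b hab.le
    (by fun_prop) (fun t ht => ⟨by simp, by simp; linarith, by simp; linarith [ht.1],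
        by simp; linarith [ht.2]⟩) (fun t ht => WExtC_left W (by linarith) hδ0)
  have v4 := one (fun t : ℝ => ux E₂ h₂ (t + ((-b : ℝ) : ℂ) * I))
    (fun t : ℝ => ((-t : ℝ) : ℂ) + ((- -b : ℝ) : ℂ) * I) (-δ) 0 hδ0
    (by fun_prop) (fun t ht => ⟨by simp; linarith [ht.2],
        by simp; linarith [ht.1], by simp; linarith, by simp [hb]⟩)
    (fun t ht => WExtC_right W (by linarith [ht.1]) ht.2)
  have v5 := one (fun t : ℝ => ux E₂ h₂ (t + ((-a : ℝ) : ℂ) * I))
    (fun t : ℝ => ((-t : ℝ) : ℂ) + ((- -a : ℝ) : ℂ) * I) (-δ) 0 hδ0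
    (by fun_prop) (fun t ht => ⟨by simp; linarith [ht.2],
        by simp; linarith [ht.1], by simp [ha], by simp; linarith⟩)
    (fun t ht => WExtC_right W (by linarith [ht.1]) ht.2)
  have v6 := one (fun t : ℝ => ux E₂ h₂ (((-δ : ℝ) : ℂ) + t * I))
    (fun t : ℝ => ((- -δ : ℝ) : ℂ) + ((-t : ℝ) : ℂ) * I) (-b) (-a) (neg_le_neg hab.le)
    (by fun_prop) (fun t ht => ⟨by simp; linarith, by simp,
        by simp; linarith [ht.2], by simp; linarith [ht.1]⟩)
    (fun t ht => WExtC_right W (by linarith) hδ0)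
  have hzero : N z = 0 := by
    simp only [hN, Ush]
    rw [v1, v2, v3, v4, v5, v6]
    simp only [neg_neg, neg_zero]
    ring
  exact hz.2.2 hzero

/-- openness of one collar -/
theorem WExtC_open {h : ℂ → ℂ} (hS : Side κ h) (E : ℂ ≃ₜ ℂ) {w : ℂ} (hw : w ∈ SL κ) :
    𝓝 (E.symm (h w)) ≤ map (fun v => E.symm (h v)) (𝓝 w) := by
  have han : AnalyticAt ℂ h w := hS.hol.analyticAt ((isOpen_SL κ).mem_nhds hw)
  have h1 : 𝓝 (h w) ≤ map h (𝓝 w) := by
    rcases han.eventually_constant_or_nhds_le_map_nhds with h2 | h2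
    · exfalso
      obtain ⟨r, hr, h3⟩ := Metric.eventually_nhds_iff.1
        (h2.and ((isOpen_SL κ).mem_nhds hw : ∀ᶠ v in 𝓝 w, v ∈ SL κ))
      set s : ℝ := min (r / 2) 1 with hs
      have hs0 : 0 < s := by rw [hs]; positivity
      have hd : dist (w + s * I) w < r := by
        rw [dist_eq_norm, add_sub_cancel_left, norm_mul, Complex.norm_I, mul_one,
          Complex.norm_real, Real.norm_eq_abs, abs_of_pos hs0]
        have := min_le_left (r / 2) 1
        linarith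
      obtain ⟨h4, h5⟩ := h3 hd
      obtain ⟨n, hn⟩ := hS.inj w hw _ h5 h4.symm
      have h6 := congrArg Complex.im hn
      simp at h6
      have hpi := Real.pi_gt_three
      have h7 := min_le_right (r / 2) 1
      have b1 : -1 < (n : ℝ) := by nlinarith
      have b2 : (n : ℝ) < 1 := by nlinarith
      have c1 : (-1 : ℤ) < n := by exact_mod_cast b1
      have c2 : n < (1 : ℤ) := by exact_mod_cast b2
      have c3 : n = 0 := by omega
      rw [c3] at h6
      simp at h6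
      linarith
    · exact h2
  have h2 : map (fun v => E.symm (h v)) (𝓝 w) = map E.symm (map h (𝓝 w)) := by
    rw [Filter.map_map]
    rfl
  rw [h2, ← E.symm.map_nhds_eq (h w)]
  exact Filter.map_mono h1

/-- openness -/
theorem WeldM.Gx_nhds (W : WeldM κ E₁ E₂ h₁ h₂) {w₀ : ℂ} (hw₀ : w₀ ∈ SS κ) {U : Set ℂ}
    (hU : U ∈ 𝓝 w₀) : Gx E₁ E₂ h₁ h₂ '' U ∈ 𝓝 (Gx E₁ E₂ h₁ h₂ w₀) := by
  have hab : -κ < w₀.re ∧ w₀.re < κ := abs_lt.1 (show |w₀.re| < κ from hw₀)
  rcases lt_trichotomy w₀.re 0 with h | h | h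
  · have hw : w₀ ∈ SL κ := ⟨hab.1, h⟩
    rw [W.Gx_left hw]
    have hU' : U ∩ SL κ ∈ 𝓝 w₀ := inter_mem hU ((isOpen_SL κ).mem_nhds hw)
    have h1 := WExtC_open W.s1 E₁ hw (image_mem_map hU')
    refine mem_of_superset h1 ?_
    rintro _ ⟨v, hv, rfl⟩
    exact ⟨v, hv.1, W.Gx_left hv.2⟩
  · have e : w₀ = (w₀.im : ℂ) * I := Complex.ext (by simp [h]) (by simp)
    rw [e] at hU ⊢
    exact W.nhds_line w₀.im hU
  · have hw : -w₀ ∈ SL κ := ⟨by simp; linarith [hab.2], by simpa using h⟩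
    rw [W.Gx_right hw]
    have hU2 : (Neg.neg ⁻¹' U : Set ℂ) ∈ 𝓝 (-w₀) := by
      refine (continuous_neg.continuousAt (x := -w₀)).preimage_mem_nhds ?_
      rwa [neg_neg]
    have hU' : (Neg.neg ⁻¹' U) ∩ SL κ ∈ 𝓝 (-w₀) := inter_mem hU2 ((isOpen_SL κ).mem_nhds hw)
    have h1 := WExtC_open W.s2 E₂ hw (image_mem_map hU')
    refine mem_of_superset h1 ?_
    rintro _ ⟨v, hv, rfl⟩
    refine ⟨-v, hv.1, ?_⟩
    rw [W.Gx_right (by rw [neg_neg]; exact hv.2), neg_neg]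

end Pool.Agent.FB018
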