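import Mathlib
import Pool.Agent.Lib.MP_018119_an_FB.WExtC

/-!
# MP_018119_an, project FB, block WELD: the welding lemma in the annulus
-/

set_option autoImplicit false

open MeasureTheory Set Metric Filter Topology
open Complex (I exp)

noncomputable section

namespace Pool.Agent.FB018

/-- the annulus `exp (-κ) < |ζ| < exp κ` -/
def An (κ : ℝ) : Set ℂ := {ζ | Real.exp (-κ) < ‖ζ‖ ∧ ‖ζ‖ < Real.exp κ}

/-- The hypotheses of the welding lemma: conformal maps `g` of the inner collar into the plane of `z`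
and `Φ` of the outer collar into the plane of `F z`, disjoint images, asymptotically equal means on
circles. -/
structure WA (F : ℂ ≃ₜ ℂ) (κ : ℝ) (g Φ : ℂ → ℂ) : Prop where
  κpos : 0 < κ
  orient : Pos F
  holg : DifferentiableOn ℂ g {ζ | Real.exp (-κ) < ‖ζ‖ ∧ ‖ζ‖ < 1}
  injg : InjOn g {ζ | Real.exp (-κ) < ‖ζ‖ ∧ ‖ζ‖ < 1}
  bdg : ∃ R, ∀ ζ, Real.exp (-κ) < ‖ζ‖ → ‖ζ‖ < 1 → ‖g ζ‖ ≤ R
  holΦ : DifferentiableOn ℂ Φ {ζ | 1 < ‖ζ‖ ∧ ‖ζ‖ < Real.exp κ}
  injΦ : InjOn Φ {ζ | 1 < ‖ζ‖ ∧ ‖ζ‖ < Real.exp κ}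
  bdΦ : ∃ R, ∀ ζ, 1 < ‖ζ‖ → ‖ζ‖ < Real.exp κ → ‖Φ ζ‖ ≤ R
  disj : ∀ ζ ζ', Real.exp (-κ) < ‖ζ‖ → ‖ζ‖ < 1 → 1 < ‖ζ'‖ → ‖ζ'‖ < Real.exp κ → F (g ζ) ≠ Φ ζ'
  means : ∀ φ : ℂ → ℝ, Continuous φ → HasCompactSupport φ → ∃ τ : ℝ,
    Tendsto (fun ρ : ℝ => Real.circleAverage (fun ζ => φ (g ζ)) 0 ρ) (𝓝[<] 1) (𝓝 τ) ∧
    Tendsto (fun ρ : ℝ => Real.circleAverage (fun ζ => φ (F.symm (Φ ζ))) 0 ρ) (𝓝[>] 1) (𝓝 τ)

private theorem wFin_norm_exp (w : ℂ) : ‖exp w‖ = Real.exp w.re := Complex.norm_exp w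

private theorem wFin_lt1 {x : ℝ} (hx : x < 0) : Real.exp x < 1 := by
  rw [← Real.exp_zero]
  exact Real.exp_lt_exp.2 hx

private theorem wFin_sl {κ : ℝ} {w : ℂ} (hw : w ∈ SL κ) :
    Real.exp (-κ) < ‖exp w‖ ∧ ‖exp w‖ < 1 := by
  rw [wFin_norm_exp]
  exact ⟨Real.exp_lt_exp.2 hw.1, wFin_lt1 hw.2⟩

private theorem wFin_sl_neg {κ : ℝ} {w : ℂ} (hw : w ∈ SL κ) :
    1 < ‖exp (-w)‖ ∧ ‖exp (-w)‖ < Real.exp κ := by
  rw [wFin_norm_exp, Complex.neg_re]
  exact ⟨Real.one_lt_exp_iff.2 (by linarith [hw.2]), Real.exp_lt_exp.2 (by linarith [hw.1])⟩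

private theorem wFin_avg (f : ℂ → ℝ) (ρ : ℝ) :
    ∫ y in (0:ℝ)..2 * Real.pi, f (circleMap 0 ρ y) = 2 * Real.pi * Real.circleAverage f 0 ρ := by
  rw [Real.circleAverage_def, smul_eq_mul, ← mul_assoc, mul_inv_cancel₀ (by positivity), one_mul]

private theorem wFin_in (f : ℂ → ℝ) (x : ℝ) :
    ∫ y in (0:ℝ)..2 * Real.pi, f (exp ((x : ℂ) + (y : ℂ) * I)) =
      2 * Real.pi * Real.circleAverage f 0 (Real.exp x) := by
  rw [← wFin_avg]
  refine intervalIntegral.integral_congr fun y _ => ?_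
  simp only [circleMap_zero]
  rw [Complex.exp_add, Complex.ofReal_exp]

private theorem wFin_out (f : ℂ → ℝ) (x : ℝ) :
    ∫ y in (0:ℝ)..2 * Real.pi, f (exp (-((x : ℂ) + (y : ℂ) * I))) =
      2 * Real.pi * Real.circleAverage f 0 (Real.exp (-x)) := by
  rw [← wFin_avg]
  have h1 : ∀ y : ℝ, f (exp (-((x : ℂ) + (y : ℂ) * I))) =
      (fun t : ℝ => f (circleMap 0 (Real.exp (-x)) t)) (-y) := by
    intro y
    simp only [circleMap_zero]
    rw [Complex.ofReal_exp, ← Complex.exp_add]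
    congr 2
    push_cast
    ring
  rw [intervalIntegral.integral_congr (g := fun y : ℝ =>
    (fun t : ℝ => f (circleMap 0 (Real.exp (-x)) t)) (-y)) (fun y _ => h1 y)]
  rw [intervalIntegral.integral_comp_neg (f := fun t : ℝ => f (circleMap 0 (Real.exp (-x)) t))]
  have hp : Function.Periodic (fun t : ℝ => f (circleMap 0 (Real.exp (-x)) t)) (2 * Real.pi) := by
    intro t
    simp only
    rw [(periodic_circleMap 0 (Real.exp (-x))) t]
  have h2 := hp.intervalIntegral_add_eq (-(2 * Real.pi)) 0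
  rw [neg_add_cancel, zero_add] at h2
  rw [neg_zero]
  exact h2

/-- `h₁ w = g (exp w)`, `h₂ w = Φ (exp (-w))`, `E₁ = id`, `E₂ = F`. -/
theorem WA.weld {F : ℂ ≃ₜ ℂ} {κ : ℝ} {g Φ : ℂ → ℂ} (W : WA F κ g Φ) :
    Weld κ (Homeomorph.refl ℂ) F (fun w => g (exp w)) (fun w => Φ (exp (-w))) := by
  have hper : ∀ w : ℂ, exp (w + 2 * Real.pi * I) = exp w := fun w => Complex.exp_periodic w
  have hinj : ∀ w w' : ℂ, exp w = exp w' → ∃ n : ℤ, w' = w + n * (2 * Real.pi * I) := by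
    intro w w' h
    exact Complex.exp_eq_exp_iff_exists_int.1 h.symm
  refine ⟨⟨W.κpos, ?_, ?_, ?_, ?_⟩, ⟨W.κpos, ?_, ?_, ?_, ?_⟩, ?_, W.orient, ?_, ?_⟩
  · exact W.holg.comp Complex.differentiable_exp.differentiableOn fun w hw => wFin_sl hw
  · intro w
    simp only [hper]
  · intro w hw w' hw' h
    exact hinj w w' (W.injg (wFin_sl hw) (wFin_sl hw') h)
  · obtain ⟨R, hR⟩ := W.bdg
    exact ⟨R, fun w hw => hR _ (wFin_sl hw).1 (wFin_sl hw).2⟩
  · exact W.holΦ.comp (Complex.differentiable_exp.comp differentiable_neg).differentiableOn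
      fun w hw => wFin_sl_neg hw
  · intro w
    have h : exp (-(w + 2 * Real.pi * I)) = exp (-w) := by
      have := hper (-(w + 2 * Real.pi * I))
      rw [← this]
      congr 1
      ring
    simp only [h]
  · intro w hw w' hw' h
    obtain ⟨n, hn⟩ := hinj (-w) (-w') (W.injΦ (wFin_sl_neg hw) (wFin_sl_neg hw') h)
    refine ⟨-n, ?_⟩
    push_cast
    linear_combination -hn
  · obtain ⟨R, hR⟩ := W.bdΦ
    exact ⟨R, fun w hw => hR _ (wFin_sl_neg hw).1 (wFin_sl_neg hw).2⟩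
  · exact ⟨univ, isOpen_univ, univ_nonempty, differentiable_id.differentiableOn⟩
  · intro w hw w' hw' h
    refine W.disj _ _ (wFin_sl hw).1 (wFin_sl hw).2 (wFin_sl_neg hw').1 (wFin_sl_neg hw').2 ?_
    have h2 : g (exp w) = F.symm (Φ (exp (-w'))) := h
    rw [h2, F.apply_symm_apply]
  · intro φ hφ hc
    obtain ⟨τ, h1, h2⟩ := W.means φ hφ hc
    refine ⟨2 * Real.pi * τ, ?_, ?_⟩
    · have he : Tendsto (fun x : ℝ => Real.exp x) (𝓝[<] 0) (𝓝[<] 1) := by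
        refine tendsto_nhdsWithin_iff.2 ⟨?_, ?_⟩
        · have := (Real.continuous_exp.tendsto 0).mono_left (nhdsWithin_le_nhds (s := Iio 0))
          rwa [Real.exp_zero] at this
        · filter_upwards [self_mem_nhdsWithin] with x hx
          exact wFin_lt1 hx
      refine ((h1.comp he).const_mul (2 * Real.pi)).congr fun x => ?_
      exact (wFin_in (fun ζ => φ (g ζ)) x).symm
    · have he : Tendsto (fun x : ℝ => Real.exp (-x)) (𝓝[<] 0) (𝓝[>] 1) := by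
        refine tendsto_nhdsWithin_iff.2 ⟨?_, ?_⟩
        · exact ((Real.continuous_exp.comp continuous_neg).tendsto' 0 1 (by simp)).mono_left
            (nhdsWithin_le_nhds (s := Iio 0))
        · filter_upwards [self_mem_nhdsWithin] with x hx
          exact Real.one_lt_exp_iff.2 (by linarith [mem_Iio.1 hx])
      refine ((h2.comp he).const_mul (2 * Real.pi)).congr fun x => ?_
      exact (wFin_out (fun ζ => φ (F.symm (Φ ζ))) x).symm

/-- **Welding lemma.**  `Weld.toM`; `G ζ = Gx w` for any `w` with `exp w = ζ` (`Gx_per`); `exp` is an open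
map and a local homeomorphism, so `Gx_cont`, `Gx_inj`, `Gx_nhds` give the three properties. -/
theorem WA.exists_glue {F : ℂ ≃ₜ ℂ} {κ : ℝ} {g Φ : ℂ → ℂ} (W : WA F κ g Φ) :
    ∃ c : ℂ, ‖c‖ = 1 ∧ ∃ G : ℂ → ℂ, ContinuousOn G (An κ) ∧ InjOn G (An κ) ∧
      (∀ ζ ∈ An κ, ∀ U ∈ 𝓝 ζ, G '' U ∈ 𝓝 (G ζ)) ∧
      (∀ ζ, Real.exp (-κ) < ‖ζ‖ → ‖ζ‖ < 1 → G ζ = g ζ) ∧
      ∀ ζ, 1 < ‖ζ‖ → ‖ζ‖ < Real.exp κ → F (G ζ) = Φ (c * ζ) := by
  obtain ⟨c, M⟩ := W.weld.toM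
  set h₁ : ℂ → ℂ := fun w => g (exp w) with hh₁
  set h₂ : ℂ → ℂ := fun w => Φ (exp (-(w + c * I))) with hh₂
  set K : ℂ → ℂ := Gx (Homeomorph.refl ℂ) F h₁ h₂ with hK
  have hSS : ∀ (w : ℂ) (n : ℤ), w ∈ SS κ → w + n * (2 * Real.pi * I) ∈ SS κ := by
    intro w n hw
    have : (w + n * (2 * Real.pi * I)).re = w.re := by simp
    simpa [SS, this] using hw
  have hnat : ∀ (n : ℕ) (w : ℂ), w ∈ SS κ → K (w + n * (2 * Real.pi * I)) = K w := by
    intro n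
    induction n with
    | zero => intro w _; simp
    | succ n ih =>
      intro w hw
      have h1 : K (w + ((n : ℤ) : ℂ) * (2 * Real.pi * I) + 2 * Real.pi * I) =
          K (w + ((n : ℤ) : ℂ) * (2 * Real.pi * I)) := M.Gx_per (hSS w n hw)
      rw [Int.cast_natCast, ih w hw] at h1
      rw [← h1]
      congr 1
      push_cast
      ring
  have hint : ∀ (n : ℤ) (w : ℂ), w ∈ SS κ → K (w + n * (2 * Real.pi * I)) = K w := by
    intro n w hw
    obtain ⟨m, rfl | rfl⟩ := n.eq_nat_or_neg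
    · exact_mod_cast hnat m w hw
    · have h1 := hnat m _ (hSS w (-m) hw)
      rw [← h1]
      congr 1
      push_cast
      ring
  have hne : ∀ ζ ∈ An κ, ζ ≠ 0 := by
    intro ζ hζ h0
    rw [h0] at hζ
    have h1 := hζ.1
    rw [norm_zero] at h1
    exact absurd h1 (not_lt.2 (Real.exp_pos _).le)
  have hlog : ∀ ζ ∈ An κ, Complex.log ζ ∈ SS κ := by
    intro ζ hζ
    have hpos : 0 < ‖ζ‖ := norm_pos_iff.2 (hne ζ hζ)
    show |(Complex.log ζ).re| < κ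
    rw [Complex.log_re, abs_lt]
    exact ⟨(Real.lt_log_iff_exp_lt hpos).2 hζ.1, (Real.log_lt_iff_lt_exp hpos).2 hζ.2⟩
  have hG : ∀ w ∈ SS κ, exp w ∈ An κ → K (Complex.log (exp w)) = K w := by
    intro w hw _
    have h1 : exp (Complex.log (exp w)) = exp w := Complex.exp_log (Complex.exp_ne_zero w)
    obtain ⟨n, hn⟩ := Complex.exp_eq_exp_iff_exists_int.1 h1
    rw [hn]
    exact hint n w hw
  have hexp : ∀ w ∈ SS κ, exp w ∈ An κ := by
    intro w hw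
    have h1 := abs_lt.1 (show |w.re| < κ from hw)
    refine ⟨?_, ?_⟩
    · rw [wFin_norm_exp]
      exact Real.exp_lt_exp.2 h1.1
    · rw [wFin_norm_exp]
      exact Real.exp_lt_exp.2 h1.2
  have hopen : IsOpen (SS κ) :=
    isOpen_lt (continuous_abs.comp Complex.continuous_re) continuous_const
  refine ⟨exp (-(c * I)), ?_, fun ζ => K (Complex.log ζ), ?_, ?_, ?_, ?_, ?_⟩
  · rw [wFin_norm_exp]
    simp
  · intro ζ hζ
    have hw := hlog ζ hζ
    have hel : exp (Complex.log ζ) = ζ := Complex.exp_log (hne ζ hζ)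
    refine ContinuousAt.continuousWithinAt ?_
    intro U hU
    have h1 : K ⁻¹' U ∈ 𝓝 (Complex.log ζ) :=
      ((M.Gx_cont (Complex.log ζ) hw).continuousAt (hopen.mem_nhds hw)) hU
    have h2 : K ⁻¹' U ∩ SS κ ∈ 𝓝 (Complex.log ζ) := inter_mem h1 (hopen.mem_nhds hw)
    have h3 : exp '' (K ⁻¹' U ∩ SS κ) ∈ 𝓝 (exp (Complex.log ζ)) :=
      Complex.isOpenMap_exp.image_mem_nhds h2
    rw [hel] at h3
    show (fun ζ => K (Complex.log ζ)) ⁻¹' U ∈ 𝓝 ζ
    refine mem_of_superset h3 ?_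
    rintro _ ⟨w, ⟨hwU, hwS⟩, rfl⟩
    show K (Complex.log (exp w)) ∈ U
    rw [hG w hwS (hexp w hwS)]
    exact hwU
  · intro ζ hζ ζ' hζ' h
    obtain ⟨n, hn⟩ := M.Gx_inj (hlog ζ hζ) (hlog ζ' hζ') h
    have h1 : exp (Complex.log ζ') = exp (Complex.log ζ) := by
      rw [hn]
      exact Complex.exp_eq_exp_iff_exists_int.2 ⟨n, rfl⟩
    rw [Complex.exp_log (hne ζ hζ), Complex.exp_log (hne ζ' hζ')] at h1
    exact h1.symm
  · intro ζ hζ U hU
    have hw := hlog ζ hζ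
    have hel : exp (Complex.log ζ) = ζ := Complex.exp_log (hne ζ hζ)
    have h1 : exp ⁻¹' U ∈ 𝓝 (Complex.log ζ) := by
      refine Complex.continuous_exp.continuousAt.preimage_mem_nhds ?_
      rwa [hel]
    have h2 := M.Gx_nhds hw (inter_mem h1 (hopen.mem_nhds hw))
    refine mem_of_superset h2 ?_
    rintro _ ⟨w, ⟨hwU, hwS⟩, rfl⟩
    exact ⟨exp w, hwU, hG w hwS (hexp w hwS)⟩
  · intro ζ h1 h2
    have hζ : ζ ∈ An κ := ⟨h1, h2.trans (Real.one_lt_exp_iff.2 W.κpos)⟩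
    have hpos : 0 < ‖ζ‖ := norm_pos_iff.2 (hne ζ hζ)
    have hw : Complex.log ζ ∈ SL κ := by
      refine ⟨?_, ?_⟩
      · rw [Complex.log_re]
        exact (Real.lt_log_iff_exp_lt hpos).2 h1
      · rw [Complex.log_re]
        exact Real.log_neg hpos h2
    have h3 : K (Complex.log ζ) = (Homeomorph.refl ℂ).symm (h₁ (Complex.log ζ)) := M.Gx_left hw
    show K (Complex.log ζ) = g ζ
    rw [h3]
    show g (exp (Complex.log ζ)) = g ζ
    rw [Complex.exp_log (hne ζ hζ)]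
  · intro ζ h1 h2
    have hζ : ζ ∈ An κ := ⟨(wFin_lt1 (by linarith [W.κpos])).trans h1, h2⟩
    have hpos : 0 < ‖ζ‖ := norm_pos_iff.2 (hne ζ hζ)
    have hw : -Complex.log ζ ∈ SL κ := by
      refine ⟨?_, ?_⟩
      · rw [Complex.neg_re, Complex.log_re]
        linarith [(Real.log_lt_iff_lt_exp hpos).2 h2]
      · rw [Complex.neg_re, Complex.log_re]
        linarith [Real.log_pos h1]
    have h3 : K (Complex.log ζ) = F.symm (h₂ (-Complex.log ζ)) := M.Gx_right hw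
    show F (K (Complex.log ζ)) = Φ (exp (-(c * I)) * ζ)
    rw [h3, F.apply_symm_apply]
    show Φ (exp (-(-Complex.log ζ + c * I))) = Φ (exp (-(c * I)) * ζ)
    congr 1
    rw [show -(-Complex.log ζ + (c : ℂ) * I) = -(c * I) + Complex.log ζ by ring, Complex.exp_add,
      Complex.exp_log (hne ζ hζ)]

end Pool.Agent.FB018
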