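import Pool.Agent.Lib.MP_018119_an_FB.Defs
import Pool.Agent.Lib.MP_018119_an_FB.WFin

/-!
# FB, continuum half: the normalised maps (interface between `PMaps` and `PFin`)
-/

set_option autoImplicit false

open MeasureTheory Set Metric Filter Topology

namespace Pool.Agent.FB018

/-- What is made out of `TP`: the Riemann map `g₀` of `{0 < A}`, the normalised collar maps `g`, `Φ`
of `WA`, and the coordinate change `θ` near the unit circle with `g ∘ θ = g₀` inside. -/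
structure PM (F : ℂ ≃ₜ ℂ) (A B : ℂ → ℝ) (r κ κ' : ℝ) (g₀ g Φ θ : ℂ → ℂ) : Prop where
  κ'pos : 0 < κ'
  zero : g₀ 0 = 0
  hol₀ : DifferentiableOn ℂ g₀ (ball 0 1)
  inj₀ : InjOn g₀ (ball 0 1)
  pos₀ : ∀ ζ ∈ ball (0 : ℂ) 1, 0 < A (g₀ ζ)
  wa : WA F κ g Φ
  posΦ : ∀ ζ, 1 < ‖ζ‖ → ‖ζ‖ < Real.exp κ → 0 < B (Φ ζ) ∧ sn (Φ ζ) < r
  θ_hol : DifferentiableOn ℂ θ (An κ')
  θ_inj : InjOn θ (An κ')
  θ_mem : MapsTo θ (An κ') (An κ)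
  θ_in : ∀ ζ ∈ An κ', ‖ζ‖ < 1 → ‖θ ζ‖ < 1
  θ_on : ∀ ζ ∈ An κ', ‖ζ‖ = 1 → ‖θ ζ‖ = 1
  θ_out : ∀ ζ ∈ An κ', 1 < ‖ζ‖ → 1 < ‖θ ζ‖
  g_θ : ∀ ζ ∈ An κ', ‖ζ‖ < 1 → g (θ ζ) = g₀ ζ

end Pool.Agent.FB018
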