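import Pool.Agent.Lib.MP_018119_an_FB.PSideAB
import Pool.Agent.Lib.MP_018119_an_FB.PMDefs

/-!
# MP_018119_an, project FB: the normalised maps out of the two phase potential
-/

set_option autoImplicit false

open Topology Filter Set Metric MeasureTheory
open scoped ContDiff

namespace Pool.Agent.FB018

variable {F : ℂ ≃ₜ ℂ} {s r : ℝ} {A B : ℂ → ℝ} {T : Measure ℂ}

theorem re_add_int (z : ℂ) (n : ℤ) : (z + n * (2 * Real.pi * Complex.I)).re = z.re := by
  simp

section side

variable {P : ℂ → ℝ} {β lam E : ℂ → ℂ} {S R w₁ p s' c δ : ℝ} {ν : Measure ℂ}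

theorem PSd.chi_hol (h : PSd P β S R ν) (H : Clr (fun z => P (β z)) S w₁ p s' c δ lam E) :
    DifferentiableOn ℂ (fun w => β (lam w)) {z : ℂ | 0 < z.re ∧ z.re < w₁} :=
  h.hol.comp H.lam_hol fun w hw => H.lam_pos w hw.1 hw.2

theorem PSd.chi_per (h : PSd P β S R ν) (H : Clr (fun z => P (β z)) S w₁ p s' c δ lam E) :
    ∀ z : ℂ, 0 < z.re → z.re < w₁ → β (lam (z + 2 * Real.pi * Complex.I)) = β (lam z) := by
  intro z h1 h2
  rw [H.lam_per z h1 h2, h.per]

theorem PSd.chi_inj (h : PSd P β S R ν) (H : Clr (fun z => P (β z)) S w₁ p s' c δ lam E) :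
    ∀ z w : ℂ, 0 < z.re → z.re < w₁ → 0 < w.re → w.re < w₁ → β (lam z) = β (lam w) →
      ∃ n : ℤ, z = w + n * (2 * Real.pi * Complex.I) := by
  intro z w h1 h2 h3 h4 h5
  obtain ⟨n, hn⟩ := h.inj _ _ (H.lam_pos z h1 h2) (H.lam_pos w h3 h4) h5
  refine ⟨n, H.lam_inj ⟨h1, h2⟩ ?_ ?_⟩
  · constructor <;> simp [h3, h4]
  · rw [per_add_int (a := 0) (b := w₁) H.lam_per n w h3 h4, hn]

end side

/-- Points of an annulus inside, in the coordinate. -/
theorem neg_log_re {a b : ℝ} {ζ : ℂ} (h1 : Real.exp a < ‖ζ‖) (h2 : ‖ζ‖ < Real.exp b) :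
    -b < (-Complex.log ζ).re ∧ (-Complex.log ζ).re < -a := by
  have h3 : 0 < ‖ζ‖ := (Real.exp_pos a).trans h1
  have h4 := (Real.lt_log_iff_exp_lt h3).2 h1
  have h5 := (Real.log_lt_iff_lt_exp h3).2 h2
  rw [Complex.neg_re, Complex.log_re]
  constructor <;> linarith

theorem log_re' {a b : ℝ} {ζ : ℂ} (h1 : Real.exp a < ‖ζ‖) (h2 : ‖ζ‖ < Real.exp b) :
    a < (Complex.log ζ).re ∧ (Complex.log ζ).re < b := by
  have h3 : 0 < ‖ζ‖ := (Real.exp_pos a).trans h1
  rw [Complex.log_re]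
  exact ⟨(Real.lt_log_iff_exp_lt h3).2 h1, (Real.log_lt_iff_lt_exp h3).2 h2⟩

theorem ne_zero_of_exp {a : ℝ} {ζ : ℂ} (h1 : Real.exp a < ‖ζ‖) : ζ ≠ 0 :=
  norm_pos_iff.1 ((Real.exp_pos a).trans h1)

/-- Means over circles inside, with `-log ζ`. -/
theorem circ_in' {u : ℂ → ℝ} {χ : ℂ → ℂ} {w₁ : ℝ}
    (hper : ∀ z : ℂ, 0 < z.re → z.re < w₁ → χ (z + 2 * Real.pi * Complex.I) = χ z) {c : ℝ}
    (h0 : 0 < c) (h1 : c < w₁) :
    Real.circleAverage (fun ζ => u (χ (-Complex.log ζ))) 0 (Real.exp (-c)) =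
      (2 * Real.pi)⁻¹ * ∫ θ in (0 : ℝ)..(2 * Real.pi), u (χ ((c : ℂ) + θ * Complex.I)) := by
  rw [← circ_in hper h0 h1, Real.circleAverage_def, Real.circleAverage_def]
  congr 1
  refine intervalIntegral.integral_congr fun θ _ => ?_
  have hne : circleMap 0 (Real.exp (-c)) θ ≠ 0 := circleMap_ne_center (Real.exp_pos _).ne'
  have hnorm : ‖circleMap 0 (Real.exp (-c)) θ‖ = Real.exp (-c) := by
    rw [norm_circleMap_zero, abs_of_pos (Real.exp_pos _)]
  have h2 : Complex.exp (Complex.log (circleMap 0 (Real.exp (-c)) θ)⁻¹) =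
      Complex.exp (-Complex.log (circleMap 0 (Real.exp (-c)) θ)) := by
    rw [Complex.exp_log (inv_ne_zero hne), Complex.exp_neg, Complex.exp_log hne]
  obtain ⟨n, hn⟩ := Complex.exp_eq_exp_iff_exists_int.1 h2
  have h3 : (-Complex.log (circleMap 0 (Real.exp (-c)) θ)).re = c := by
    rw [Complex.neg_re, Complex.log_re, hnorm, Real.log_exp, neg_neg]
  show u (χ (-Complex.log (circleMap 0 (Real.exp (-c)) θ))) =
    u (χ (Complex.log (circleMap 0 (Real.exp (-c)) θ)⁻¹))
  rw [hn, per_int' hper n _ (by rw [h3]; exact h0) (by rw [h3]; exact h1)]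

/-- **The normalised maps.** -/
theorem TP.exists_PM (h : TP F s r A B T) (hF : Pos F) :
    ∃ (κ κ' : ℝ) (g₀ g Φ θ : ℂ → ℂ), PM F A B r κ κ' g₀ g Φ θ := by
  have hTfin := h.T_fin
  obtain ⟨g₀, G₀, hA⟩ := h.exists_RM_A
  obtain ⟨gv, Gv, hB⟩ := h.exists_RM_B
  obtain ⟨SA, RA, pA⟩ := h.sideA hA
  obtain ⟨SB, RB, pB, hBr⟩ := h.sideB hB
  obtain ⟨wA, qA, sA, cA, δA, lamA, EA, HA, massA, limA⟩ := pA.side
  obtain ⟨wB, qB, sB, cB, δB, lamB, EB, HB, massB, limB⟩ := pB.side
  obtain ⟨t, M, ht, htδ, hMd, hMi, hME, hM0, hMn, hMp⟩ := HA.refl pA.col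
  set βA : ℂ → ℂ := fun z => g₀ (Complex.exp (-z)) with hβA
  set βB : ℂ → ℂ := fun z => (gv (Complex.exp (-z)))⁻¹ with hβB
  set κ : ℝ := min wA wB with hκdef
  have hκ : 0 < κ := lt_min HA.w₁pos HB.w₁pos
  have hκA : κ ≤ wA := min_le_left _ _
  have hκB : κ ≤ wB := min_le_right _ _
  obtain ⟨δ', hδ', hlim⟩ := pA.lim (qA * κ) (mul_pos HA.ppos hκ)
  set κ' : ℝ := min t δ' with hκ'def
  have hκ' : 0 < κ' := lt_min ht hδ'
  have hκt : κ' ≤ t := min_le_left _ _
  have hκδ : κ' ≤ δ' := min_le_right _ _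
  -- the two charts
  have perA := pA.chi_per HA
  have perB := pB.chi_per HB
  have injA := pA.chi_inj HA
  have injB := pB.chi_inj HB
  have holA := pA.chi_hol HA
  have holB := pB.chi_hol HB
  -- mass
  have hmA : 0 < T.real univ := by
    rw [← massA]
    have := HA.ppos
    positivity
  have hmap : (T.map F).real univ = T.real univ := by
    rw [measureReal_def, measureReal_def, Measure.map_apply F.continuous.measurable
      MeasurableSet.univ, preimage_univ]
  rw [hmap] at massB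
  -- real part of `E`
  have hEpos : ∀ z : ℂ, 0 < z.re → z.re < κ' → 0 < (EA z).re := fun z h1 h2 =>
    HA.E_pos z h1 (h2.trans_le (hκt.trans htδ))
  have hElt : ∀ z : ℂ, 0 < z.re → z.re < κ' → (EA z).re < κ := by
    intro z h1 h2
    have h3 := hlim z h1 (h2.trans_le hκδ)
    have h4 : A (βA z) = qA * (EA z).re :=
      HA.b_E z h1 (h2.trans_le ((hκt.trans htδ).trans HA.δs))
    rw [h4] at h3
    exact lt_of_mul_lt_mul_left h3 HA.ppos.le
  -- real part of `M`
  have hMneg : ∀ z : ℂ, -κ' < z.re → z.re < 0 → (M z).re = -(EA (-(starRingEnd ℂ) z)).re := by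
    intro z h1 h2
    rw [hMn z (by linarith) h2]
    simp
  have hcz : ∀ z : ℂ, (-(starRingEnd ℂ) z).re = -z.re := fun z => by simp
  have hMlt : ∀ z : ℂ, -κ' < z.re → z.re < κ' → -κ < (M z).re ∧ (M z).re < κ := by
    intro z h1 h2
    rcases lt_trichotomy z.re 0 with h3 | h3 | h3
    · rw [hMneg z h1 h3]
      have h4 := hEpos (-(starRingEnd ℂ) z) (by rw [hcz]; linarith) (by rw [hcz]; linarith)
      have h5 := hElt (-(starRingEnd ℂ) z) (by rw [hcz]; linarith) (by rw [hcz]; linarith)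
      constructor <;> linarith
    · rw [hM0 z h3]
      constructor <;> linarith
    · rw [hME z h3 (by linarith)]
      have h4 := hEpos z h3 h2
      have h5 := hElt z h3 h2
      constructor <;> linarith
  set θ : ℂ → ℂ := fun ζ => Complex.exp (-M (-Complex.log ζ)) with hθ
  set g : ℂ → ℂ := fun ζ => βA (lamA (-Complex.log ζ)) with hg
  set Φ : ℂ → ℂ := fun ζ => βB (lamB (Complex.log ζ)) with hΦ
  have hθn : ∀ ζ, ‖θ ζ‖ = Real.exp (-(M (-Complex.log ζ)).re) := fun ζ => by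
    rw [hθ]
    simp only
    rw [Complex.norm_exp, Complex.neg_re]
  have hAn : ∀ ζ ∈ An κ', -κ' < (-Complex.log ζ).re ∧ (-Complex.log ζ).re < κ' := by
    intro ζ hζ
    have h1 := neg_log_re hζ.1 hζ.2
    rwa [neg_neg] at h1
  have hg1 : ∀ ζ : ℂ, Real.exp (-κ) < ‖ζ‖ → ‖ζ‖ < 1 →
      0 < (-Complex.log ζ).re ∧ (-Complex.log ζ).re < κ := by
    intro ζ h1 h2
    rw [← Real.exp_zero] at h2
    have h3 := neg_log_re h1 h2
    rwa [neg_neg, neg_zero] at h3
  have hΦ1 : ∀ ζ : ℂ, 1 < ‖ζ‖ → ‖ζ‖ < Real.exp κ →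
      0 < (Complex.log ζ).re ∧ (Complex.log ζ).re < κ := by
    intro ζ h1 h2
    rw [← Real.exp_zero] at h1
    exact log_re' h1 h2
  have hposg : ∀ ζ : ℂ, Real.exp (-κ) < ‖ζ‖ → ‖ζ‖ < 1 → 0 < A (g ζ) := by
    intro ζ h1 h2
    have h3 := hg1 ζ h1 h2
    exact pA.pos _ (HA.lam_pos _ h3.1 (h3.2.trans_le hκA))
  have hposΦ : ∀ ζ : ℂ, 1 < ‖ζ‖ → ‖ζ‖ < Real.exp κ → 0 < B (Φ ζ) ∧ sn (Φ ζ) < r := by
    intro ζ h1 h2
    have h3 := hΦ1 ζ h1 h2
    have h4 := HB.lam_pos _ h3.1 (h3.2.trans_le hκB)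
    exact ⟨pB.pos _ h4, hBr _ h4 (HB.lam_lt _ h3.1 (h3.2.trans_le hκB))⟩
  refine ⟨κ, κ', g₀, g, Φ, θ, ?_⟩
  refine ⟨hκ', hA.zero, hA.hol, hA.inj, fun ζ hζ => hA.maps hζ, ?_, hposΦ, ?_, ?_, ?_, ?_, ?_, ?_,
    ?_⟩
  · -- the hypotheses of the welding lemma
    refine ⟨hκ, hF, ?_, ?_, ?_, ?_, ?_, ?_, ?_, ?_⟩
    · -- holomorphy of `g`
      have h1 : DifferentiableOn ℂ (fun z => βA (lamA (-z))) {z : ℂ | -κ < z.re ∧ z.re < 0} := by
        refine holA.comp (differentiable_neg.differentiableOn) fun z hz => ?_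
        show 0 < (-z).re ∧ (-z).re < wA
        rw [Complex.neg_re]
        exact ⟨by linarith [hz.2], by linarith [hz.1]⟩
      have h2 : ∀ z : ℂ, -κ < z.re → z.re < 0 →
          βA (lamA (-(z + 2 * Real.pi * Complex.I))) = βA (lamA (-z)) := by
        intro z h3 h4
        have h5 := per_int' (f := fun w => βA (lamA w)) perA (-1) (-z)
          (by rw [Complex.neg_re]; linarith) (by rw [Complex.neg_re]; linarith)
        refine Eq.trans ?_ h5
        congr 2
        push_cast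
        ring
      have h3 := hol_log h1 h2
      rwa [Real.exp_zero] at h3
    · -- injectivity of `g`
      intro ζ hζ ζ' hζ' he
      have h1 := hg1 ζ hζ.1 hζ.2
      have h2 := hg1 ζ' hζ'.1 hζ'.2
      obtain ⟨n, hn⟩ := injA _ _ h1.1 (h1.2.trans_le hκA) h2.1 (h2.2.trans_le hκA) he
      rw [← Complex.exp_log (ne_zero_of_exp hζ.1), ← Complex.exp_log (ne_zero_of_exp hζ'.1)]
      refine Complex.exp_eq_exp_iff_exists_int.2 ⟨-n, ?_⟩
      push_cast
      linear_combination -hn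
    · refine ⟨RA, fun ζ h1 h2 => ?_⟩
      have h3 := hg1 ζ h1 h2
      exact pA.bdd _ (HA.lam_pos _ h3.1 (h3.2.trans_le hκA)) (HA.lam_lt _ h3.1 (h3.2.trans_le hκA))
    · -- holomorphy of `Φ`
      have h1 : DifferentiableOn ℂ (fun w => βB (lamB w)) {z : ℂ | 0 < z.re ∧ z.re < κ} :=
        holB.mono fun z hz => ⟨hz.1, hz.2.trans_le hκB⟩
      have h3 := hol_log h1 fun z h4 h5 => perB z h4 (h5.trans_le hκB)
      rwa [Real.exp_zero] at h3
    · -- injectivity of `Φ`
      intro ζ hζ ζ' hζ' he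
      have h1 := hΦ1 ζ hζ.1 hζ.2
      have h2 := hΦ1 ζ' hζ'.1 hζ'.2
      obtain ⟨n, hn⟩ := injB _ _ h1.1 (h1.2.trans_le hκB) h2.1 (h2.2.trans_le hκB) he
      have hz : ζ ≠ 0 := norm_pos_iff.1 (one_pos.trans hζ.1)
      have hz' : ζ' ≠ 0 := norm_pos_iff.1 (one_pos.trans hζ'.1)
      rw [← Complex.exp_log hz, ← Complex.exp_log hz']
      exact Complex.exp_eq_exp_iff_exists_int.2 ⟨n, hn⟩
    · refine ⟨RB, fun ζ h1 h2 => ?_⟩
      have h3 := hΦ1 ζ h1 h2
      exact pB.bdd _ (HB.lam_pos _ h3.1 (h3.2.trans_le hκB)) (HB.lam_lt _ h3.1 (h3.2.trans_le hκB))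
    · -- disjointness
      intro ζ ζ' h1 h2 h3 h4 he
      have h5 := h.AB (g ζ)
      rw [he] at h5
      exact absurd h5 (mul_pos (hposg ζ h1 h2) (hposΦ ζ' h3 h4).1).ne'
    · -- means
      intro φ hφ hφc
      have key : ∀ q : ℝ, 0 < q → ∀ X : ℝ, (q * (2 * Real.pi))⁻¹ * (q * X) =
          (2 * Real.pi)⁻¹ * X := by
        intro q hq X
        field_simp
      refine ⟨(T.real univ)⁻¹ * ∫ x, φ x ∂T, ?_, ?_⟩
      · have h1 : Tendsto (fun ρ : ℝ => -Real.log ρ) (𝓝[<] 1) (𝓝[>] 0) := by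
          rw [tendsto_nhdsWithin_iff]
          constructor
          · have h2 : ContinuousAt (fun ρ : ℝ => -Real.log ρ) 1 :=
              (Real.continuousAt_log one_ne_zero).neg
            have h3 := h2.tendsto
            simp only [Real.log_one, neg_zero] at h3
            exact h3.mono_left nhdsWithin_le_nhds
          · filter_upwards [self_mem_nhdsWithin, nhdsWithin_le_nhds (Ioi_mem_nhds one_pos)]
              with ρ h2 h3
            have h4 := Real.log_neg h3 h2
            show 0 < -Real.log ρ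
            linarith
        have h2 := (limA φ hφ hφc).comp h1
        have h3 := h2.const_mul (T.real univ)⁻¹
        refine h3.congr' ?_
        have h4 : ∀ᶠ ρ : ℝ in 𝓝[<] 1, -Real.log ρ < wA := by
          have h5 := (tendsto_nhdsWithin_iff.1 h1).1
          exact h5.eventually_lt_const HA.w₁pos
        filter_upwards [self_mem_nhdsWithin, nhdsWithin_le_nhds (Ioi_mem_nhds one_pos), h4]
          with ρ h5 h6 h7
        have h8 : 0 < -Real.log ρ := by
          have := Real.log_neg h6 h5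
          linarith
        have h9 := circ_in' (u := φ) (χ := fun w => βA (lamA w)) perA h8 h7
        rw [neg_neg, Real.exp_log h6] at h9
        show (T.real univ)⁻¹ * (qA * _) = _
        rw [hg]
        refine Eq.trans ?_ h9.symm
        rw [← massA]
        exact key qA HA.ppos _
      · have h1 : Tendsto (fun ρ : ℝ => Real.log ρ) (𝓝[>] 1) (𝓝[>] 0) := by
          rw [tendsto_nhdsWithin_iff]
          constructor
          · have h2 : ContinuousAt (fun ρ : ℝ => Real.log ρ) 1 :=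
              Real.continuousAt_log one_ne_zero
            have h3 := h2.tendsto
            simp only [Real.log_one] at h3
            exact h3.mono_left nhdsWithin_le_nhds
          · filter_upwards [self_mem_nhdsWithin] with ρ h2
            exact Real.log_pos h2
        have hφF : Continuous fun w => φ (F.symm w) := hφ.comp F.symm.continuous
        have hφFc : HasCompactSupport fun w => φ (F.symm w) := hφc.comp_homeomorph F.symm
        have h2 := (limB _ hφF hφFc).comp h1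
        have h3 := h2.const_mul (T.real univ)⁻¹
        have h10 : ∫ x, φ (F.symm x) ∂(T.map F) = ∫ x, φ x ∂T := by
          rw [integral_map F.continuous.measurable.aemeasurable hφF.aestronglyMeasurable]
          simp
        rw [h10] at h3
        refine h3.congr' ?_
        have h4 : ∀ᶠ ρ : ℝ in 𝓝[>] 1, Real.log ρ < wB := by
          have h5 := (tendsto_nhdsWithin_iff.1 h1).1
          exact h5.eventually_lt_const HB.w₁pos
        filter_upwards [self_mem_nhdsWithin, h4] with ρ h5 h7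
        have h6 : (0 : ℝ) < ρ := one_pos.trans h5
        have h9 := circ_out (u := fun w => φ (F.symm w)) (χ := fun w => βB (lamB w)) perB
          (Real.log_pos h5) h7
        rw [Real.exp_log h6] at h9
        show (T.real univ)⁻¹ * (qB * _) = _
        refine Eq.trans ?_ h9.symm
        rw [← massB]
        exact key qB HB.ppos _
  · -- holomorphy of `θ`
    have h1 : DifferentiableOn ℂ (fun z => Complex.exp (-M (-z)))
        {z : ℂ | -κ' < z.re ∧ z.re < κ'} := by
      have h2 : DifferentiableOn ℂ (fun z => M (-z)) {z : ℂ | -κ' < z.re ∧ z.re < κ'} := by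
        refine hMd.comp (differentiable_neg.differentiableOn) fun z hz => ?_
        show -t < (-z).re ∧ (-z).re < t
        rw [Complex.neg_re]
        exact ⟨by linarith [hz.2], by linarith [hz.1]⟩
      exact h2.neg.cexp
    refine hol_log h1 fun z h2 h3 => ?_
    have h4 := per_add_int hMp (-1) (-z) (by rw [Complex.neg_re]; linarith)
      (by rw [Complex.neg_re]; linarith)
    have e : -(z + 2 * Real.pi * Complex.I) = -z + ((-1 : ℤ) : ℂ) * (2 * Real.pi * Complex.I) := by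
      push_cast
      ring
    rw [e, h4]
    refine Complex.exp_eq_exp_iff_exists_int.2 ⟨1, ?_⟩
    push_cast
    ring
  · -- injectivity of `θ`
    intro ζ hζ ζ' hζ' he
    have h1 := hAn ζ hζ
    have h2 := hAn ζ' hζ'
    obtain ⟨n, hn⟩ := Complex.exp_eq_exp_iff_exists_int.1 he
    have h3 := per_add_int hMp n (-Complex.log ζ) (by linarith) (by linarith)
    have h4 : M (-Complex.log ζ') = M (-Complex.log ζ + n * (2 * Real.pi * Complex.I)) := by
      rw [h3]
      linear_combination hn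
    have h5 := hMi (show _ ∈ {z : ℂ | -t < z.re ∧ z.re < t} from ⟨by linarith, by linarith⟩)
      (show _ ∈ {z : ℂ | -t < z.re ∧ z.re < t} from
        ⟨by rw [re_add_int]; linarith, by rw [re_add_int]; linarith⟩) h4
    rw [← Complex.exp_log (ne_zero_of_exp hζ.1), ← Complex.exp_log (ne_zero_of_exp hζ'.1)]
    refine Complex.exp_eq_exp_iff_exists_int.2 ⟨n, ?_⟩
    linear_combination h5
  · intro ζ hζ
    have h1 := hAn ζ hζ
    have h2 := hMlt _ h1.1 h1.2
    show Real.exp (-κ) < ‖θ ζ‖ ∧ ‖θ ζ‖ < Real.exp κ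
    rw [hθn]
    exact ⟨Real.exp_lt_exp.2 (by linarith), Real.exp_lt_exp.2 (by linarith)⟩
  · intro ζ hζ h1
    have h2 := hAn ζ hζ
    rw [← Real.exp_zero] at h1
    have h3 := (neg_log_re hζ.1 h1).1
    rw [neg_zero] at h3
    rw [hθn, Real.exp_lt_one_iff, hME _ h3 (by linarith)]
    have := hEpos _ h3 h2.2
    linarith
  · intro ζ hζ h1
    rw [hθn, hM0 _ (by rw [Complex.neg_re, Complex.log_re, h1, Real.log_one, neg_zero]), neg_zero,
      Real.exp_zero]
  · intro ζ hζ h1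
    have h2 := hAn ζ hζ
    rw [← Real.exp_zero] at h1
    have h3 := (neg_log_re h1 hζ.2).2
    rw [neg_zero] at h3
    rw [hθn, Real.one_lt_exp_iff, hMneg _ h2.1 h3]
    have := hEpos (-(starRingEnd ℂ) (-Complex.log ζ)) (by rw [hcz]; linarith)
      (by rw [hcz]; linarith)
    linarith
  · intro ζ hζ h1
    have h2 := hAn ζ hζ
    rw [← Real.exp_zero] at h1
    have h3 := (neg_log_re hζ.1 h1).1
    rw [neg_zero] at h3
    have h4 : θ ζ = Complex.exp (-EA (-Complex.log ζ)) := by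
      rw [hθ]
      simp only
      rw [hME _ h3 (by linarith)]
    obtain ⟨n, hn⟩ := log_exp_shift (-EA (-Complex.log ζ))
    have h5 : -Complex.log (θ ζ) = EA (-Complex.log ζ) + ((-n : ℤ) : ℂ) *
        (2 * Real.pi * Complex.I) := by
      rw [h4, hn]
      push_cast
      ring
    have h6 := hEpos _ h3 h2.2
    have h7 := hElt _ h3 h2.2
    show βA (lamA (-Complex.log (θ ζ))) = g₀ ζ
    rw [h5]
    refine (per_int' (f := fun w => βA (lamA w)) perA (-n) _ h6 (h7.trans_le hκA)).trans ?_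
    rw [HA.lam_E _ h3 (h2.2.trans_le (hκt.trans htδ))]
    show g₀ (Complex.exp (-(-Complex.log ζ))) = g₀ ζ
    rw [neg_neg, Complex.exp_log (ne_zero_of_exp hζ.1)]

end Pool.Agent.FB018
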