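import Pool.Agent.Lib.MP_018119_an_FB.DFin
import Pool.Agent.Lib.MP_018119_an_FB.PMaps
import Pool.Agent.Lib.MP_018119_an_FB.PFin
import Pool.Agent.Lib.MP_018119_an_FB.EMain

/-!
# MP_018119_an: the free interface lemma and the frozen statement S03671
-/

set_option autoImplicit false

namespace Pool.Agent.FB018

/-- The free interface lemma, for all homeomorphisms which are holomorphic somewhere. -/
theorem freePos : FreePos :=
  freePos_of (fun F hF _ hr => exists_TP F hF hr) fun _ _ _ _ _ _ h hF => h.exists_PM hF

/-- **The free interface lemma.** -/
theorem freeInt : FreeInt := freePos.freeInt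

end Pool.Agent.FB018
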