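import Pool.Agent.Lib.MP_018119_an_FB.Defs

/-!
# MP_018119_an, project FB: harmonic functions as real parts of analytic functions
-/

set_option autoImplicit false

open Topology Filter Set Metric

namespace Pool.Agent.FB018

/-- `u` is near `z` the real part of an analytic function. -/
def Hm (u : ℂ → ℝ) (z : ℂ) : Prop :=
  ∃ f : ℂ → ℂ, AnalyticAt ℂ f z ∧ ∀ᶠ w in 𝓝 z, u w = (f w).re

theorem Hm.congr {u v : ℂ → ℝ} {z : ℂ} (h : Hm u z) (huv : ∀ᶠ w in 𝓝 z, v w = u w) : Hm v z := by
  obtain ⟨f, hf, he⟩ := h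
  refine ⟨f, hf, ?_⟩
  filter_upwards [he, huv] with w h1 h2
  rw [h2, h1]

theorem Hm.eventually {u : ℂ → ℝ} {z : ℂ} (h : Hm u z) : ∀ᶠ w in 𝓝 z, Hm u w := by
  obtain ⟨f, hf, he⟩ := h
  filter_upwards [hf.eventually_analyticAt, he.eventually_nhds] with w h1 h2
  exact ⟨f, h1, h2⟩

theorem Hm.continuousAt {u : ℂ → ℝ} {z : ℂ} (h : Hm u z) : ContinuousAt u z := by
  obtain ⟨f, hf, he⟩ := h
  have h1 : ContinuousAt (fun w => (f w).re) z :=
    Complex.continuous_re.continuousAt.comp hf.continuousAt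
  exact h1.congr (he.mono fun w hw => hw.symm)

theorem Hm.const (c : ℝ) (z : ℂ) : Hm (fun _ => c) z :=
  ⟨fun _ => (c : ℂ), analyticAt_const, Eventually.of_forall fun _ => by simp⟩

theorem Hm.re (z : ℂ) : Hm (fun w => w.re) z :=
  ⟨fun w => w, analyticAt_id, Eventually.of_forall fun _ => rfl⟩

theorem Hm.add {u v : ℂ → ℝ} {z : ℂ} (hu : Hm u z) (hv : Hm v z) : Hm (fun w => u w + v w) z := by
  obtain ⟨f, hf, he⟩ := hu
  obtain ⟨g, hg, he'⟩ := hv
  refine ⟨fun w => f w + g w, hf.add hg, ?_⟩
  filter_upwards [he, he'] with w h1 h2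
  rw [h1, h2, Complex.add_re]

theorem Hm.neg {u : ℂ → ℝ} {z : ℂ} (hu : Hm u z) : Hm (fun w => -u w) z := by
  obtain ⟨f, hf, he⟩ := hu
  refine ⟨fun w => -f w, hf.neg, ?_⟩
  filter_upwards [he] with w h1
  rw [h1, Complex.neg_re]

theorem Hm.sub {u v : ℂ → ℝ} {z : ℂ} (hu : Hm u z) (hv : Hm v z) : Hm (fun w => u w - v w) z := by
  have := hu.add hv.neg
  simpa only [sub_eq_add_neg] using this

theorem Hm.const_mul {u : ℂ → ℝ} {z : ℂ} (hu : Hm u z) (c : ℝ) : Hm (fun w => c * u w) z := by
  obtain ⟨f, hf, he⟩ := hu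
  refine ⟨fun w => (c : ℂ) * f w, analyticAt_const.mul hf, ?_⟩
  filter_upwards [he] with w h1
  rw [h1, Complex.re_ofReal_mul]

theorem Hm.comp {u : ℂ → ℝ} {χ : ℂ → ℂ} {z : ℂ} (hu : Hm u (χ z)) (hχ : AnalyticAt ℂ χ z) :
    Hm (fun w => u (χ w)) z := by
  obtain ⟨f, hf, he⟩ := hu
  exact ⟨fun w => f (χ w), hf.comp hχ, hχ.continuousAt.eventually he⟩

/-- Local maximum principle. -/
theorem Hm.localMax {u : ℂ → ℝ} {z : ℂ} (hu : Hm u z) (hm : ∀ᶠ w in 𝓝 z, u w ≤ u z) :
    ∀ᶠ w in 𝓝 z, u w = u z := by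
  obtain ⟨f, hf, he⟩ := hu
  have hz : u z = (f z).re := he.self_of_nhds
  have hd : ∀ᶠ w in 𝓝 z, DifferentiableAt ℂ (fun w => Complex.exp (f w)) w := by
    filter_upwards [hf.eventually_analyticAt] with w hw
    exact hw.differentiableAt.cexp
  have hmax : IsLocalMax (norm ∘ fun w => Complex.exp (f w)) z := by
    filter_upwards [hm, he] with w h1 h2
    simp only [Function.comp, Complex.norm_exp]
    rw [← h2, ← hz]
    exact Real.exp_le_exp.2 h1
  have h1 := Complex.norm_eventually_eq_of_isLocalMax hd hmax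
  filter_upwards [h1, he] with w h2 h3
  rw [Complex.norm_exp, Complex.norm_exp, Real.exp_eq_exp] at h2
  rw [h3, h2, hz]

/-- On a convex open set a harmonic function is the real part of a holomorphic function. -/
theorem exists_conj {V : Set ℂ} (hV : IsOpen V) (hVc : Convex ℝ V) {u : ℂ → ℝ}
    (hu : ∀ z ∈ V, Hm u z) :
    ∃ H : ℂ → ℂ, DifferentiableOn ℂ H V ∧ ∀ z ∈ V, (H z).re = u z := by
  classical
  rcases V.eq_empty_or_nonempty with rfl | ⟨z₀, hz₀⟩
  · exact ⟨0, by simp, by simp⟩
  choose! f hf he using hu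
  -- the derivative is well defined
  have key : ∀ z ∈ V, ∀ᶠ w in 𝓝 z, deriv (f w) w = deriv (f z) w := by
    intro z hz
    filter_upwards [hV.mem_nhds hz, (hf z hz).eventually_analyticAt, (he z hz).eventually_nhds]
      with w hw h1 h2
    -- near `w` the two functions have the same real part
    have h3 : ∀ᶠ x in 𝓝 w, (f w x - f z x).re = 0 := by
      filter_upwards [he w hw, h2] with x h4 h5
      rw [Complex.sub_re, ← h4, ← h5, sub_self]
    have ha : AnalyticAt ℂ (fun x => f w x - f z x) w := (hf w hw).sub h1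
    have h4 : (∀ᶠ x in 𝓝 w, f w x - f z x = f w w - f z w) ∨
        𝓝 (f w w - f z w) ≤ map (fun x => f w x - f z x) (𝓝 w) :=
      ha.eventually_constant_or_nhds_le_map_nhds
    rcases h4 with h4 | h4
    · have h5 : deriv (fun x => f w x - f z x) w = 0 := by
        have : (fun x => f w x - f z x) =ᶠ[𝓝 w] fun _ => f w w - f z w := h4
        rw [this.deriv_eq, deriv_const]
      rw [deriv_fun_sub (hf w hw).differentiableAt h1.differentiableAt, sub_eq_zero] at h5
      exact h5
    · exfalso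
      have h5 : {y : ℂ | y.re = 0} ∈ 𝓝 (f w w - f z w) := h4 h3
      obtain ⟨ε, hε, h6⟩ := Metric.mem_nhds_iff.1 h5
      have h7 : f w w - f z w + ((ε / 2 : ℝ) : ℂ) ∈ {y : ℂ | y.re = 0} := by
        apply h6
        rw [mem_ball, dist_eq_norm, add_sub_cancel_left, Complex.norm_real, Real.norm_of_nonneg
          (by positivity)]
        linarith
      have h8 : (f w w - f z w).re = 0 := h3.self_of_nhds
      have h9 : (f w w - f z w + ((ε / 2 : ℝ) : ℂ)).re = 0 := h7
      rw [Complex.add_re, h8, Complex.ofReal_re] at h9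
      linarith
  have hd : DifferentiableOn ℂ (fun z => deriv (f z) z) V := by
    intro z hz
    have h1 : (fun w => deriv (f w) w) =ᶠ[𝓝 z] deriv (f z) := key z hz
    exact ((hf z hz).deriv.differentiableAt.congr_of_eventuallyEq h1).differentiableWithinAt
  obtain ⟨H, hH⟩ := hVc.exists_forall_hasDerivWithinAt hd
  have hH' : ∀ z ∈ V, HasDerivAt H (deriv (f z) z) z := fun z hz =>
    (hH z hz).hasDerivAt (hV.mem_nhds hz)
  -- the difference of the real parts is locally constant
  have hloc : ∀ z ∈ V, HasFDerivAt (fun w => (H w).re - u w) (0 : ℂ →L[ℝ] ℝ) z := by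
    intro z hz
    have h1 : HasDerivAt (fun w => H w - f z w) 0 z := by
      have := (hH' z hz).sub (hf z hz).differentiableAt.hasDerivAt
      rwa [sub_self] at this
    have h2 : HasFDerivAt (fun w => H w - f z w) (0 : ℂ →L[ℝ] ℂ) z := by
      have h3 := h1.hasFDerivAt.restrictScalars ℝ
      refine h3.congr_fderiv ?_
      ext <;> simp
    have h3 : HasFDerivAt (fun w => (H w - f z w).re) (0 : ℂ →L[ℝ] ℝ) z := by
      have h4 := (Complex.reCLM.hasFDerivAt (x := H z - f z z)).comp z h2
      rw [ContinuousLinearMap.comp_zero] at h4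
      exact h4
    refine h3.congr_of_eventuallyEq ?_
    filter_upwards [he z hz] with w hw
    rw [Complex.sub_re, hw]
  have hconst : ∀ z ∈ V, (H z).re - u z = (H z₀).re - u z₀ := by
    intro z hz
    exact hV.is_const_of_fderiv_eq_zero (𝕜 := ℝ) hVc.isPreconnected
      (fun w hw => (hloc w hw).differentiableAt.differentiableWithinAt)
      (fun w hw => (hloc w hw).fderiv) hz hz₀
  refine ⟨fun z => H z - (((H z₀).re - u z₀ : ℝ) : ℂ), ?_, ?_⟩
  · intro z hz
    exact ((hH' z hz).differentiableAt.sub_const _).differentiableWithinAt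
  · intro z hz
    have := hconst z hz
    rw [Complex.sub_re, Complex.ofReal_re]
    linarith

/-- Maximum principle on a bounded open set. -/
theorem hm_max {V : Set ℂ} (hV : IsOpen V) (hVb : Bornology.IsBounded V) {u : ℂ → ℝ} {c : ℝ}
    (hu : ∀ z ∈ V, Hm u z) (hb : ∀ z ∈ frontier V, ∀ ε > 0, ∀ᶠ w in 𝓝[V] z, u w < c + ε) :
    ∀ z ∈ V, u z ≤ c := by
  intro z hz
  by_contra hcon
  push Not at hcon
  set m : ℝ := (u z + c) / 2 with hm
  have hm1 : c < m := by rw [hm]; linarith
  have hm2 : m < u z := by rw [hm]; linarith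
  -- the set where `u` is at least `m` is compact
  set K : Set ℂ := {w | w ∈ V ∧ m ≤ u w} with hK
  have hKc : IsCompact K := by
    have hcl : IsClosed K := by
      rw [← isOpen_compl_iff, isOpen_iff_mem_nhds]
      intro w hw
      by_cases hwV : w ∈ V
      · have h1 : u w < m := by
          by_contra h
          exact hw ⟨hwV, not_lt.1 h⟩
        filter_upwards [(hu w hwV).continuousAt.eventually_lt_const h1] with x hx hx2
        exact absurd hx2.2 (not_le.2 hx)
      · by_cases hwc : w ∈ closure V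
        · have h1 := hb w (by rw [frontier, hV.interior_eq]; exact ⟨hwc, hwV⟩) (m - c) (by linarith)
          rw [eventually_nhdsWithin_iff] at h1
          filter_upwards [h1] with x hx hx2
          have := hx hx2.1
          linarith [hx2.2]
        · filter_upwards [isClosed_closure.isOpen_compl.mem_nhds hwc] with x hx hx2
          exact hx (subset_closure hx2.1)
    exact Metric.isCompact_of_isClosed_isBounded hcl (hVb.subset fun w hw => hw.1)
  have hne : K.Nonempty := ⟨z, hz, hm2.le⟩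
  obtain ⟨x₀, hx₀, hmax⟩ := hKc.exists_isMaxOn hne
    (fun w hw => (hu w hw.1).continuousAt.continuousWithinAt)
  -- the set of maximum points is open and closed
  have hmx : ∀ w ∈ V, u w ≤ u x₀ := by
    intro w hw
    rcases le_or_gt m (u w) with h | h
    · exact hmax ⟨hw, h⟩
    · exact h.le.trans hx₀.2
  set E : Set ℂ := {w | w ∈ K ∧ u w = u x₀} with hE
  have hEo : IsOpen E := by
    rw [isOpen_iff_mem_nhds]
    intro w hw
    have h1 : ∀ᶠ x in 𝓝 w, u x = u w := by
      refine (hu w hw.1.1).localMax ?_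
      filter_upwards [hV.mem_nhds hw.1.1] with x hx
      rw [hw.2]
      exact hmx x hx
    filter_upwards [h1, hV.mem_nhds hw.1.1] with x hx hxV
    refine ⟨⟨hxV, ?_⟩, by rw [hx, hw.2]⟩
    rw [hx]
    exact hw.1.2
  have hEc : IsClosed E := by
    have h1 : E = K ∩ {w | w ∈ K ∧ u x₀ ≤ u w} := by
      ext w
      constructor
      · rintro ⟨h1, h2⟩
        exact ⟨h1, h1, h2.ge⟩
      · rintro ⟨h1, -, h3⟩
        exact ⟨h1, le_antisymm (hmax h1) h3⟩
    have h2 : IsClosed {w | w ∈ K ∧ u x₀ ≤ u w} := by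
      have hc : ContinuousOn u K := fun w hw => (hu w hw.1).continuousAt.continuousWithinAt
      have := hc.preimage_isClosed_of_isClosed hKc.isClosed (isClosed_Ici (a := u x₀))
      exact this
    rw [h1]
    exact hKc.isClosed.inter h2
  have hEu : E = univ := IsClopen.eq_univ ⟨hEc, hEo⟩ ⟨x₀, hx₀, rfl⟩
  have hKu : K = univ := by
    rw [eq_univ_iff_forall]
    intro w
    have : w ∈ E := by rw [hEu]; exact mem_univ w
    exact this.1
  have := hKc
  rw [hKu] at this
  exact noncompact_univ ℂ this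

/-- A nonnegative harmonic function on a connected open set which vanishes at one point vanishes. -/
theorem hm_zero {V : Set ℂ} (hV : IsOpen V) (hVc : IsPreconnected V) {u : ℂ → ℝ}
    (hu : ∀ z ∈ V, Hm u z) (h0 : ∀ z ∈ V, 0 ≤ u z) {z₀ : ℂ} (hz₀ : z₀ ∈ V) (h1 : u z₀ = 0) :
    ∀ z ∈ V, u z = 0 := by
  have hs : V ⊆ {w | ∀ᶠ x in 𝓝 w, u x = 0} := by
    refine hVc.subset_of_closure_inter_subset ?_ ⟨z₀, hz₀, ?_⟩ ?_
    · exact isOpen_setOfPred_eventually_nhds
    · have h2 : ∀ᶠ w in 𝓝 z₀, (fun w => -u w) w ≤ (fun w => -u w) z₀ := by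
        filter_upwards [hV.mem_nhds hz₀] with w hw
        have := h0 w hw
        simp only [h1]
        linarith
      filter_upwards [(hu z₀ hz₀).neg.localMax h2] with w hw
      have hw' : -u w = -u z₀ := hw
      rw [h1] at hw'
      linarith
    · rintro w ⟨hw, hwV⟩
      have hw0 : u w = 0 := by
        -- `u` is continuous at `w` and zero at points near `w`
        by_contra hne
        have h2 : ∀ᶠ x in 𝓝 w, u x ≠ 0 := (hu w hwV).continuousAt.eventually_ne hne
        obtain ⟨x, hx1, hx2⟩ := mem_closure_iff_nhds.1 hw _ h2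
        exact hx1 hx2.self_of_nhds
      have h2 : ∀ᶠ x in 𝓝 w, (fun w => -u w) x ≤ (fun w => -u w) w := by
        filter_upwards [hV.mem_nhds hwV] with x hx
        have := h0 x hx
        simp only [hw0]
        linarith
      filter_upwards [(hu w hwV).neg.localMax h2] with x hx
      have hx' : -u x = -u w := hx
      rw [hw0] at hx'
      linarith
  intro z hz
  exact (hs hz).self_of_nhds

end Pool.Agent.FB018
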