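import Pool.Agent.Lib.MP_018119_an_FB.PerMax

/-!
# MP_018119_an, project FB: the Hopf lemma in the strip

The derivative in the direction of `re` of a positive periodic harmonic function which tends to zero
at the left line is bounded below near this line (comparison of difference quotients with a linear
function; no reflection).
-/

set_option autoImplicit false

open Topology Filter Set Metric

namespace Pool.Agent.FB018

/-- The derivative of the conjugate function is bounded on lines and it is periodic. -/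
theorem Col.deriv_bdd {b : ℂ → ℝ} {S : ℝ} (_h : Col b S) {H : ℂ → ℂ} {κ : ℝ}
    (hH : DifferentiableOn ℂ H {z : ℂ | 0 < z.re ∧ z.re < S})
    (hκ : ∀ z : ℂ, 0 < z.re → z.re < S → H (z + 2 * Real.pi * Complex.I) = H z + κ * Complex.I)
    {a₁ a₂ : ℝ} (h0 : 0 < a₁) (h2 : a₂ < S) :
    ∃ C : ℝ, 0 ≤ C ∧ ∀ z : ℂ, a₁ ≤ z.re → z.re ≤ a₂ → ‖deriv H z‖ ≤ C := by
  set V : Set ℂ := {z : ℂ | 0 < z.re ∧ z.re < S} with hV
  have hVo : IsOpen V := isOpen_strip 0 S
  have hd1 : ∀ z ∈ V, deriv H (z + 2 * Real.pi * Complex.I) = deriv H z := by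
    intro z hz
    have h3 : (fun w => H (w + 2 * Real.pi * Complex.I)) =ᶠ[𝓝 z] fun w => H w + κ * Complex.I := by
      filter_upwards [hVo.mem_nhds hz] with w hw
      exact hκ w hw.1 hw.2
    have h4 := h3.deriv_eq
    rw [deriv_comp_add_const, deriv_add_const] at h4
    exact h4
  have hdn : ∀ n : ℕ, ∀ z ∈ V, deriv H (z + n * (2 * Real.pi * Complex.I)) = deriv H z := by
    intro n
    induction n with
    | zero => intro z _; simp
    | succ n ih =>
      intro z hz
      have h3 : z + n * (2 * Real.pi * Complex.I) ∈ V := by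
        constructor <;> simp [hz.1, hz.2]
      have h4 : z + ((n + 1 : ℕ) : ℂ) * (2 * Real.pi * Complex.I) =
          z + n * (2 * Real.pi * Complex.I) + 2 * Real.pi * Complex.I := by
        push_cast
        ring
      rw [h4, hd1 _ h3, ih z hz]
  have hdz : ∀ n : ℤ, ∀ z ∈ V, deriv H (z - n • (2 * Real.pi * Complex.I : ℂ)) = deriv H z := by
    intro n z hz
    have h3 : z - n • (2 * Real.pi * Complex.I : ℂ) ∈ V :=
      ⟨by rw [re_period]; exact hz.1, by rw [re_period]; exact hz.2⟩
    rcases Int.eq_nat_or_neg n with ⟨m, hm | hm⟩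
    · have h4 := hdn m _ h3
      rw [← h4]
      congr 1
      rw [hm]
      simp
    · have h4 := hdn m z hz
      rw [← h4]
      congr 1
      rw [hm]
      simp
  have hKc := isCompact_rect a₁ a₂
  have hc : ContinuousOn (deriv H)
      {z : ℂ | (a₁ ≤ z.re ∧ z.re ≤ a₂) ∧ 0 ≤ z.im ∧ z.im ≤ 2 * Real.pi} :=
    (hH.deriv hVo).continuousOn.mono fun z hz => ⟨h0.trans_le hz.1.1, hz.1.2.trans_lt h2⟩
  obtain ⟨C, hC⟩ := hKc.exists_bound_of_continuousOn hc
  refine ⟨max C 0, le_max_right _ _, fun z hz1 hz2 => ?_⟩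
  obtain ⟨n, hn1, hn2⟩ := exists_period z
  rw [← hdz n z ⟨h0.trans_le hz1, hz2.trans_lt h2⟩]
  refine (hC _ ⟨⟨?_, ?_⟩, hn1, hn2.le⟩).trans (le_max_left _ _)
  · rw [re_period]; exact hz1
  · rw [re_period]; exact hz2

/-- Hopf lemma. -/
theorem Col.hopf {b : ℂ → ℝ} {S : ℝ} (h : Col b S) {H : ℂ → ℂ} {κ : ℝ}
    (hH : DifferentiableOn ℂ H {z : ℂ | 0 < z.re ∧ z.re < S})
    (hre : ∀ z : ℂ, 0 < z.re → z.re < S → (H z).re = b z)
    (hκ : ∀ z : ℂ, 0 < z.re → z.re < S → H (z + 2 * Real.pi * Complex.I) = H z + κ * Complex.I) :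
    ∃ s > 0, s < S ∧ ∃ c > 0, ∀ z : ℂ, 0 < z.re → z.re < s → c ≤ (deriv H z).re := by
  have hS := h.pos
  set V : Set ℂ := {z : ℂ | 0 < z.re ∧ z.re < S} with hV
  have hVo : IsOpen V := isOpen_strip 0 S
  set S₁ : ℝ := S / 3 with hS1
  set S₂ : ℝ := 2 * S / 3 with hS2
  have hS1p : 0 < S₁ := by positivity
  have hS12 : S₁ < S₂ := by rw [hS1, hS2]; linarith
  have hS2S : S₂ < S := by rw [hS2]; linarith
  obtain ⟨c, hc, hlow⟩ := h.lower (S' := S₂) (by linarith) hS2S
  obtain ⟨C, hC0, hC⟩ := h.deriv_bdd hH hκ hS1p hS2S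
  have hder : ∀ z ∈ V, HasDerivAt H (deriv H z) z := fun z hz =>
    (hH.differentiableAt (hVo.mem_nhds hz)).hasDerivAt
  -- lower bound for the increments
  have hinc : ∀ t : ℝ, 0 < t → t < S₂ - S₁ → ∀ z : ℂ, 0 < z.re → z.re ≤ S₁ →
      t * (c - (c + C) * (z.re / S₁)) ≤ b (z + t) - b z := by
    intro t ht ht2 z hz1 hz2
    have hright : ∀ w : ℂ, w.re = S₁ → -(C * t) ≤ b (w + t) - b w := by
      intro w hw
      have hseg : ∀ x ∈ {x : ℂ | S₁ ≤ x.re ∧ x.re ≤ S₂}, x ∈ V := fun x hx =>
        ⟨hS1p.trans_le hx.1, hx.2.trans_lt hS2S⟩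
      have hcv : Convex ℝ {x : ℂ | S₁ ≤ x.re ∧ x.re ≤ S₂} :=
        (convex_halfSpace_re_ge S₁).inter (convex_halfSpace_re_le S₂)
      have h1 := hcv.norm_image_sub_le_of_norm_deriv_le (𝕜 := ℂ) (f := H) (C := C)
        (fun x hx => (hder x (hseg x hx)).differentiableAt) (fun x hx => hC x hx.1 hx.2)
        (x := w) (y := w + t) ⟨hw.ge, by rw [hw]; exact hS12.le⟩
        ⟨by rw [Complex.add_re, Complex.ofReal_re, hw]; linarith,
          by rw [Complex.add_re, Complex.ofReal_re, hw]; linarith⟩
      rw [add_sub_cancel_left, Complex.norm_real, Real.norm_of_nonneg ht.le] at h1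
      have h2 := (Complex.abs_re_le_norm (H (w + t) - H w)).trans h1
      rw [Complex.sub_re, hre w (by rw [hw]; exact hS1p) (by rw [hw]; linarith),
        hre (w + t) (by rw [Complex.add_re, Complex.ofReal_re, hw]; linarith)
          (by rw [Complex.add_re, Complex.ofReal_re, hw]; linarith)] at h2
      exact (abs_le.1 h2).1
    have key : ∀ ε > 0, t * (c - (c + C) * (z.re / S₁)) - (b (z + t) - b z) ≤ ε := by
      intro ε hε
      obtain ⟨δ₀, hδ₀, hlim⟩ := h.lim ε hε
      set δ : ℝ := min (δ₀ / 2) (z.re / 2) with hδ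
      have hδp : 0 < δ := by positivity
      have hδ1 : δ < δ₀ := (min_le_left _ _).trans_lt (by linarith)
      have hδ2 : δ < z.re := (min_le_right _ _).trans_lt (by linarith)
      have hin : ∀ w : ℂ, δ ≤ w.re → w.re ≤ S₁ → Hm (fun w : ℂ =>
          t * (c - (c + C) * (w.re / S₁)) - (b (w + t) - b w)) w := by
        intro w hw1 hw2
        have h1 : Hm b w := h.hm w (hδp.trans_le hw1) (by linarith)
        have h2 : Hm (fun w => b (w + t)) w := by
          refine Hm.comp (χ := fun w => w + (t : ℂ)) (h.hm (w + t) ?_ ?_)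
            (analyticAt_id.add analyticAt_const)
          · rw [Complex.add_re, Complex.ofReal_re]; linarith
          · rw [Complex.add_re, Complex.ofReal_re]; linarith
        have h3 : Hm (fun w : ℂ => t * (c - (c + C) * (w.re / S₁))) w := by
          have h4 := ((Hm.const c w).sub ((Hm.re w).const_mul ((c + C) / S₁))).const_mul t
          refine h4.congr (Eventually.of_forall fun x => ?_)
          show t * (c - (c + C) * (x.re / S₁)) = t * (c - (c + C) / S₁ * x.re)
          ring
        exact h3.sub (h2.sub h1)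
      refine per_max (u := fun w : ℂ =>
          t * (c - (c + C) * (w.re / S₁)) - (b (w + t) - b w)) (hδ2.le.trans hz2)
        (fun w hw1 hw2 => hin w hw1.le hw2.le)
        (fun w hw => (hin w hw.1 hw.2).continuousAt.continuousWithinAt) ?_ ?_ ?_ z hδ2.le hz2
      · intro w
        have h1 : w + 2 * Real.pi * Complex.I + (t : ℂ) = w + t + 2 * Real.pi * Complex.I := by
          ring
        rw [h1, h.per, h.per]
        simp
      · intro w hw
        have h1 : b w < ε := hlim w (by rw [hw]; exact hδp) (by rw [hw]; exact hδ1)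
        have h2 : c * (w + t).re ≤ b (w + t) := by
          refine hlow _ ?_ ?_
          · rw [Complex.add_re, Complex.ofReal_re, hw]; linarith
          · rw [Complex.add_re, Complex.ofReal_re, hw]; linarith
        rw [Complex.add_re, Complex.ofReal_re, hw] at h2
        have h3 : 0 ≤ (c + C) * (w.re / S₁) := by
          rw [hw]; positivity
        have h4 : t * (c - (c + C) * (w.re / S₁)) ≤ t * c := by
          refine mul_le_mul_of_nonneg_left ?_ ht.le
          linarith
        have h5 : 0 < c * δ := by positivity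
        nlinarith
      · intro w hw
        have h1 := hright w hw
        have h2 : w.re / S₁ = 1 := by rw [hw]; field_simp
        rw [h2]
        have : t * (c - (c + C) * 1) = -(C * t) := by ring
        rw [this]
        linarith
    by_contra hcon
    push Not at hcon
    have := key ((t * (c - (c + C) * (z.re / S₁)) - (b (z + t) - b z)) / 2) (by linarith)
    linarith
  refine ⟨c * S₁ / (2 * (c + C)), by positivity, ?_, c / 2, by positivity, fun z hz1 hz2 => ?_⟩
  · have : c * S₁ / (2 * (c + C)) ≤ S₁ / 2 := by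
      rw [div_le_div_iff₀ (by positivity) (by positivity)]
      nlinarith
    linarith
  · have hle : c * S₁ / (2 * (c + C)) ≤ S₁ / 2 := by
      rw [div_le_div_iff₀ (by positivity) (by positivity)]
      nlinarith
    have hzS : z.re ≤ S₁ := by linarith
    have hzV : z ∈ V := ⟨hz1, by linarith⟩
    -- the real part of the derivative as a limit of difference quotients
    have h1 : HasDerivAt (fun t : ℝ => b (z + t)) (deriv H z).re 0 := by
      have h2 : HasDerivAt (fun t : ℂ => H (z + t)) (deriv H z) ((0 : ℝ) : ℂ) := by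
        have h3 : HasDerivAt H (deriv H z) (z + ((0 : ℝ) : ℂ)) := by simpa using hder z hzV
        exact h3.comp_const_add z _
      have h4 := h2.real_of_complex
      refine h4.congr_of_eventuallyEq ?_
      have h5 : Tendsto (fun t : ℝ => z + (t : ℂ)) (𝓝 0) (𝓝 z) := by
        have : Continuous fun t : ℝ => z + (t : ℂ) := by fun_prop
        simpa using this.tendsto 0
      filter_upwards [h5 (hVo.mem_nhds hzV)] with t ht
      exact (hre _ ht.1 ht.2).symm
    have h2 := h1.tendsto_slope_zero_right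
    refine ge_of_tendsto h2 ?_
    have h3 : ∀ᶠ t : ℝ in 𝓝[>] 0, t < S₂ - S₁ :=
      mem_nhdsWithin_of_mem_nhds (Iio_mem_nhds (by linarith))
    filter_upwards [h3, self_mem_nhdsWithin] with t ht1 ht2
    have ht2 : 0 < t := ht2
    have h4 := hinc t ht2 ht1 z hz1 hzS
    have h5 : (c + C) * (z.re / S₁) ≤ c / 2 := by
      rw [lt_div_iff₀ (by positivity)] at hz2
      rw [mul_div_assoc', div_le_iff₀ hS1p]
      nlinarith
    have h6 : t * (c / 2) ≤ b (z + t) - b z := by
      refine le_trans ?_ h4
      refine mul_le_mul_of_nonneg_left ?_ ht2.le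
      linarith
    have e1 : b (z + ((0 + t : ℝ) : ℂ)) = b (z + t) := by rw [zero_add]
    have e2 : b (z + ((0 : ℝ) : ℂ)) = b z := by simp
    rw [e1, e2, smul_eq_mul, le_inv_mul_iff₀ ht2]
    exact h6

end Pool.Agent.FB018
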