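import Pool.Agent.Lib.MP_018119_an_FB.Defs

/-!
# MP_018119_an, project FB: derivatives of `ψ ∘ χ` along lines, `χ` holomorphic
-/

set_option autoImplicit false

open Topology Filter Set Metric MeasureTheory
open scoped ContDiff

namespace Pool.Agent.FB018

/-- First derivative of `ψ ∘ χ` at `z` in the direction `v`. -/
noncomputable def d1 (χ : ℂ → ℂ) (ψ : ℂ → ℝ) (v z : ℂ) : ℝ := fderiv ℝ ψ (χ z) (deriv χ z * v)

/-- Second derivative of `ψ ∘ χ` at `z` in the direction `v`. -/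
noncomputable def d2 (χ : ℂ → ℂ) (ψ : ℂ → ℝ) (v z : ℂ) : ℝ :=
  fderiv ℝ (fderiv ℝ ψ) (χ z) (deriv χ z * v) (deriv χ z * v) +
    fderiv ℝ ψ (χ z) (deriv (deriv χ) z * v * v)

/-- Laplacian of a composition with a holomorphic function. -/
theorem lap_chain (χ : ℂ → ℂ) (ψ : ℂ → ℝ) (z : ℂ) :
    d2 χ ψ 1 z + d2 χ ψ Complex.I z = ‖deriv χ z‖ ^ 2 * lap ψ (χ z) := by
  unfold d2 lap
  set B := fderiv ℝ (fderiv ℝ ψ) (χ z) with hB
  set a := deriv χ z with ha
  have e1 : a * 1 = a.re • (1 : ℂ) + a.im • Complex.I := by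
    apply Complex.ext <;> simp
  have e2 : a * Complex.I = (-a.im) • (1 : ℂ) + a.re • Complex.I := by
    apply Complex.ext <;> simp
  have h1 : B (a * 1) (a * 1) = a.re ^ 2 * B 1 1 + a.re * a.im * (B 1 Complex.I + B Complex.I 1) +
      a.im ^ 2 * B Complex.I Complex.I := by
    rw [e1]
    simp only [map_add, map_smul, _root_.add_apply, _root_.smul_apply,
      smul_eq_mul]
    ring
  have h2 : B (a * Complex.I) (a * Complex.I) = a.im ^ 2 * B 1 1 -
      a.re * a.im * (B 1 Complex.I + B Complex.I 1) + a.re ^ 2 * B Complex.I Complex.I := by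
    rw [e2]
    simp only [map_add, map_smul, _root_.add_apply, _root_.smul_apply,
      smul_eq_mul]
    ring
  have h3 : deriv (deriv χ) z * Complex.I * Complex.I = -(deriv (deriv χ) z * 1 * 1) := by
    rw [mul_assoc, Complex.I_mul_I]
    ring
  have h4 : ‖a‖ ^ 2 = a.re ^ 2 + a.im ^ 2 := by
    rw [Complex.sq_norm, Complex.normSq_apply]
    ring
  rw [h1, h2, h3, h4, map_neg]
  ring

section

variable {χ : ℂ → ℂ} {ψ : ℂ → ℝ} {V : Set ℂ}

theorem hasDerivAt_line (hV : IsOpen V) (hχ : DifferentiableOn ℂ χ V) (hψ : ContDiff ℝ ∞ ψ)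
    {a v : ℂ} {t : ℝ} (ht : a + t * v ∈ V) :
    HasDerivAt (fun t : ℝ => ψ (χ (a + t * v))) (d1 χ ψ v (a + t * v)) t := by
  have h1 : HasDerivAt χ (deriv χ (a + t * v)) (a + t * v) :=
    (hχ.differentiableAt (hV.mem_nhds ht)).hasDerivAt
  have h2 : HasDerivAt (fun t : ℝ => a + t * v) v t := by
    have h3 : HasDerivAt (fun t : ℝ => (t : ℂ)) 1 t := Complex.ofRealCLM.hasDerivAt
    simpa using (h3.mul_const v).const_add a
  have h3 : HasDerivAt (fun t : ℝ => χ (a + t * v)) (deriv χ (a + t * v) * v) t :=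
    h1.comp t h2
  have h4 : HasFDerivAt ψ (fderiv ℝ ψ (χ (a + t * v))) (χ (a + t * v)) :=
    (hψ.differentiable (by simp)).differentiableAt.hasFDerivAt
  exact h4.comp_hasDerivAt t h3

theorem hasDerivAt_line2 (hV : IsOpen V) (hχ : DifferentiableOn ℂ χ V) (hψ : ContDiff ℝ ∞ ψ)
    {a v : ℂ} {t : ℝ} (ht : a + t * v ∈ V) :
    HasDerivAt (fun t : ℝ => d1 χ ψ v (a + t * v)) (d2 χ ψ v (a + t * v)) t := by
  have h1 : HasDerivAt χ (deriv χ (a + t * v)) (a + t * v) :=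
    (hχ.differentiableAt (hV.mem_nhds ht)).hasDerivAt
  have h1' : HasDerivAt (deriv χ) (deriv (deriv χ) (a + t * v)) (a + t * v) :=
    ((hχ.deriv hV).differentiableAt (hV.mem_nhds ht)).hasDerivAt
  have h2 : HasDerivAt (fun t : ℝ => a + t * v) v t := by
    have h3 : HasDerivAt (fun t : ℝ => (t : ℂ)) 1 t := Complex.ofRealCLM.hasDerivAt
    simpa using (h3.mul_const v).const_add a
  have h3 : HasDerivAt (fun t : ℝ => χ (a + t * v)) (deriv χ (a + t * v) * v) t :=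
    h1.comp t h2
  have h3a : HasDerivAt (fun t : ℝ => deriv χ (a + t * v))
      (deriv (deriv χ) (a + t * v) * v) t := HasDerivAt.comp (h₂ := deriv χ) t h1' h2
  have h3' : HasDerivAt (fun t : ℝ => deriv χ (a + t * v) * v)
      (deriv (deriv χ) (a + t * v) * v * v) t := h3a.mul_const v
  have h4 : HasFDerivAt (fderiv ℝ ψ) (fderiv ℝ (fderiv ℝ ψ) (χ (a + t * v))) (χ (a + t * v)) := by
    have h5 : ContDiff ℝ 1 (fderiv ℝ ψ) := hψ.fderiv_right (m := 1) (by norm_cast)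
    exact (h5.differentiable (by simp)).differentiableAt.hasFDerivAt
  have h5 : HasDerivAt (fun t : ℝ => fderiv ℝ ψ (χ (a + t * v)))
      (fderiv ℝ (fderiv ℝ ψ) (χ (a + t * v)) (deriv χ (a + t * v) * v)) t :=
    h4.comp_hasDerivAt t h3
  exact h5.clm_apply h3'

theorem continuousOn_d1 (hV : IsOpen V) (hχ : DifferentiableOn ℂ χ V) (hψ : ContDiff ℝ ∞ ψ)
    (v : ℂ) : ContinuousOn (d1 χ ψ v) V := by
  have h1 : ContinuousOn (fun z => fderiv ℝ ψ (χ z)) V :=
    (hψ.continuous_fderiv (by simp)).comp_continuousOn hχ.continuousOn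
  exact h1.clm_apply ((hχ.deriv hV).continuousOn.mul continuousOn_const)

theorem continuousOn_d2 (hV : IsOpen V) (hχ : DifferentiableOn ℂ χ V) (hψ : ContDiff ℝ ∞ ψ)
    (v : ℂ) : ContinuousOn (d2 χ ψ v) V := by
  have h0 : ContDiff ℝ 1 (fderiv ℝ ψ) := hψ.fderiv_right (m := 1) (by norm_cast)
  have h1 : ContinuousOn (fun z => fderiv ℝ ψ (χ z)) V :=
    (hψ.continuous_fderiv (by simp)).comp_continuousOn hχ.continuousOn
  have h2 : ContinuousOn (fun z => fderiv ℝ (fderiv ℝ ψ) (χ z)) V :=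
    (h0.continuous_fderiv (by simp)).comp_continuousOn hχ.continuousOn
  have h3 : ContinuousOn (fun z => deriv χ z * v) V :=
    (hχ.deriv hV).continuousOn.mul continuousOn_const
  have h4 : ContinuousOn (fun z => deriv (deriv χ) z * v * v) V :=
    (((hχ.deriv hV).deriv hV).continuousOn.mul continuousOn_const).mul continuousOn_const
  exact ((h2.clm_apply h3).clm_apply h3).add (h1.clm_apply h4)

/-- Where `ψ ∘ χ` vanishes its derivatives vanish. -/
theorem d1_zero (hV : IsOpen V) (hχ : DifferentiableOn ℂ χ V) (hψ : ContDiff ℝ ∞ ψ)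
    (h0 : ∀ z ∈ V, ψ (χ z) = 0) (v : ℂ) : ∀ z ∈ V, d1 χ ψ v z = 0 := by
  intro z hz
  have e : z + ((0 : ℝ) : ℂ) * v = z := by simp
  have h1 := hasDerivAt_line hV hχ hψ (a := z) (v := v) (t := 0) (by rw [e]; exact hz)
  rw [e] at h1
  have h2 : (fun t : ℝ => ψ (χ (z + t * v))) =ᶠ[𝓝 0] fun _ => (0 : ℝ) := by
    have h3 : Tendsto (fun t : ℝ => z + (t : ℂ) * v) (𝓝 0) (𝓝 z) := by
      have : Continuous fun t : ℝ => z + (t : ℂ) * v := by fun_prop
      simpa using this.tendsto 0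
    filter_upwards [h3 (hV.mem_nhds hz)] with t ht
    exact h0 _ ht
  exact h1.unique ((hasDerivAt_const (0 : ℝ) (0 : ℝ)).congr_of_eventuallyEq h2)

theorem d2_zero (hV : IsOpen V) (hχ : DifferentiableOn ℂ χ V) (hψ : ContDiff ℝ ∞ ψ)
    (h0 : ∀ z ∈ V, ψ (χ z) = 0) (v : ℂ) : ∀ z ∈ V, d2 χ ψ v z = 0 := by
  intro z hz
  have e : z + ((0 : ℝ) : ℂ) * v = z := by simp
  have h1 := hasDerivAt_line2 hV hχ hψ (a := z) (v := v) (t := 0) (by rw [e]; exact hz)
  rw [e] at h1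
  have h2 : (fun t : ℝ => d1 χ ψ v (z + t * v)) =ᶠ[𝓝 0] fun _ => (0 : ℝ) := by
    have h3 : Tendsto (fun t : ℝ => z + (t : ℂ) * v) (𝓝 0) (𝓝 z) := by
      have : Continuous fun t : ℝ => z + (t : ℂ) * v := by fun_prop
      simpa using this.tendsto 0
    filter_upwards [h3 (hV.mem_nhds hz)] with t ht
    exact d1_zero hV hχ hψ h0 v _ ht
  exact h1.unique ((hasDerivAt_const (0 : ℝ) (0 : ℝ)).congr_of_eventuallyEq h2)

end

end Pool.Agent.FB018
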