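import Pool.Agent.Lib.MP_018119_an_FB.PHarm
import Pool.Agent.Lib.MP_018119_an_FB.HmB

/-!
# MP_018119_an, project FB: the two phases and their complements are connected
-/

set_option autoImplicit false

open MeasureTheory Set Metric Filter Topology
open scoped ContDiff

namespace Pool.Agent.FB018

/-- Mathlib's harmonic functions are locally real parts of analytic functions. -/
theorem Hm.of_harmonicAt {u : ℂ → ℝ} {z : ℂ} (h : InnerProductSpace.HarmonicAt u z) : Hm u z := by
  obtain ⟨ε, hε, hb⟩ := Metric.isOpen_iff.1 (InnerProductSpace.isOpen_setOfPred_harmonicAt u) z h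
  obtain ⟨f, hf, he⟩ := InnerProductSpace.HarmonicOnNhd.exists_analyticOnNhd_ball_re_eq
    (f := u) (z := z) (R := ε) (fun y hy => hb hy)
  refine ⟨f, hf z (mem_ball_self hε), ?_⟩
  filter_upwards [ball_mem_nhds z hε] with w hw
  exact (he hw).symm

/-- A nonempty compact subset of the plane is not open. -/
theorem not_clopen {E : Set ℂ} (hc : IsCompact E) (ho : IsOpen E) : E = ∅ := by
  by_contra hne
  have h1 : E = univ := IsClopen.eq_univ ⟨hc.isClosed, ho⟩ (nonempty_iff_ne_empty.2 hne)
  rw [h1] at hc
  exact noncompact_univ ℂ hc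

/-- A preconnected set which meets an open set and its complement meets the frontier. -/
theorem meets_frontier {S U : Set ℂ} (hS : IsPreconnected S) (hU : IsOpen U)
    {x y : ℂ} (hx : x ∈ S) (hxU : x ∈ U) (hy : y ∈ S) (hyU : y ∉ U) :
    (S ∩ frontier U).Nonempty := by
  by_contra hcon
  rw [not_nonempty_iff_eq_empty] at hcon
  have hsub : S ⊆ U := by
    refine hS.subset_of_closure_inter_subset hU ⟨x, hx, hxU⟩ ?_
    rintro z ⟨hz1, hz2⟩
    by_contra h
    have : z ∈ S ∩ frontier U := ⟨hz2, by rw [hU.frontier_eq]; exact ⟨hz1, h⟩⟩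
    rw [hcon] at this
    exact this
  exact hyU (hsub hy)

/-- Maximum principle on a bounded open set. -/
theorem max_zero {N : Set ℂ} (hN : IsOpen N) (hb : Bornology.IsBounded N) {u : ℂ → ℝ}
    (hu : Continuous u) (hh : ∀ z ∈ N, Hm u z) (h0 : ∀ z ∈ frontier N, u z ≤ 0) :
    ∀ z ∈ N, u z ≤ 0 := by
  intro z₁ hz₁
  by_contra hpos
  push Not at hpos
  have hK : IsCompact (closure N) := hb.isCompact_closure
  obtain ⟨m, hm, hmax⟩ := hK.exists_isMaxOn ⟨z₁, subset_closure hz₁⟩ hu.continuousOn
  have hm0 : 0 < u m := hpos.trans_le (hmax (subset_closure hz₁))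
  set M : Set ℂ := closure N ∩ {z | u z = u m} with hM
  have hMc : IsCompact M := hK.inter_right (isClosed_eq hu continuous_const)
  have hMN : M ⊆ N := by
    intro z hz
    by_contra hzN
    have h1 : z ∈ frontier N := ⟨hz.1, fun h => hzN (interior_subset h)⟩
    have h2 := h0 z h1
    have h3 : u z = u m := hz.2
    linarith
  have hMo : IsOpen M := by
    rw [isOpen_iff_mem_nhds]
    intro z hz
    have h1 : ∀ᶠ w in 𝓝 z, u w ≤ u z := by
      filter_upwards [hN.mem_nhds (hMN hz)] with w hw
      have h2 : u z = u m := hz.2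
      rw [h2]
      exact hmax (subset_closure hw)
    filter_upwards [(hh z (hMN hz)).localMax h1, hN.mem_nhds (hMN hz)] with w hw hwN
    exact ⟨subset_closure hwN, hw.trans hz.2⟩
  have h4 := not_clopen hMc hMo
  have h5 : m ∈ M := ⟨hm, rfl⟩
  rw [h4] at h5
  exact h5

/-- A continuous nonnegative function `u` which is harmonic on the components of `{u > 0}` outside a
connected set `P ⊆ {u > 0}` with bounded complementary part: `{u > 0}` is connected. -/
theorem conn_pos {u : ℂ → ℝ} (hu : Continuous u) {P : Set ℂ} (hP : IsPreconnected P)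
    {p : ℂ} (hp : p ∈ P) (hPu : ∀ z ∈ P, 0 < u z)
    (hb : Bornology.IsBounded ({z | 0 < u z} \ P))
    (hh : ∀ z, z ∉ P → 0 < u z → Hm u z) : IsConnected {z | 0 < u z} := by
  have hO : IsOpen {z | 0 < u z} := isOpen_lt continuous_const hu
  set C := connectedComponentIn {z | 0 < u z} p with hC
  have hpC : p ∈ {z | 0 < u z} := hPu p hp
  have hPC : P ⊆ C := hP.subset_connectedComponentIn hp hPu
  have hCO : IsOpen C := hO.connectedComponentIn
  have hCs : C ⊆ {z | 0 < u z} := connectedComponentIn_subset _ _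
  set N : Set ℂ := {z | 0 < u z} \ C with hN
  have hNO : IsOpen N := by
    rw [isOpen_iff_mem_nhds]
    intro z hz
    have h1 : IsOpen (connectedComponentIn {z | 0 < u z} z) := hO.connectedComponentIn
    filter_upwards [h1.mem_nhds (mem_connectedComponentIn hz.1)] with w hw
    refine ⟨connectedComponentIn_subset _ _ hw, fun hwC => hz.2 ?_⟩
    have h2 := connectedComponentIn_eq hw
    have h3 := connectedComponentIn_eq hwC
    rw [hC, h3, ← h2]
    exact mem_connectedComponentIn hz.1
  have hNb : Bornology.IsBounded N := hb.subset fun z hz => ⟨hz.1, fun h => hz.2 (hPC h)⟩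
  have hfr : ∀ z ∈ frontier N, u z ≤ 0 := by
    intro z hz
    by_contra hpos
    push Not at hpos
    have h1 : z ∉ N := by
      rw [hNO.frontier_eq] at hz
      exact hz.2
    have h2 : z ∈ C := by
      by_contra h
      exact h1 ⟨hpos, h⟩
    have h3 : z ∈ closure N := hz.1
    obtain ⟨w, hw1, hw2⟩ := mem_closure_iff.1 h3 C hCO h2
    exact hw2.2 hw1
  have h4 := max_zero hNO hNb hu (fun z hz => hh z (fun h => hz.2 (hPC h)) hz.1) hfr
  have h5 : {z | 0 < u z} = C := by
    apply Subset.antisymm _ hCs
    intro z hz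
    by_contra h
    have h6 : (0 : ℝ) < u z := hz
    have := h4 z ⟨hz, h⟩
    linarith
  rw [h5]
  exact ⟨⟨p, mem_connectedComponentIn hpC⟩, isPreconnected_connectedComponentIn⟩

/-- The zero set of a continuous nonnegative function `u` is preconnected, when `D ⊆ {u = 0}` is
preconnected, `{u = 0} \ D` is bounded, `Q` is closed and disjoint from `{u = 0}`, and `u` is
harmonic on every bounded open set `N` with `frontier N` disjoint from `{u = 0}` and `closure N`
disjoint from `D ∪ Q`. -/
theorem conn_zero {u : ℂ → ℝ} (hu : Continuous u) (h0 : ∀ z, 0 ≤ u z) {D Q : Set ℂ}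
    (hD : IsPreconnected D) (hDu : ∀ z ∈ D, u z = 0)
    (hb : Bornology.IsBounded ({z | u z = 0} \ D)) (hQ : IsClosed Q) (hQu : ∀ z ∈ Q, 0 < u z)
    (hh : ∀ N : Set ℂ, IsOpen N → Bornology.IsBounded N → (∀ z ∈ frontier N, 0 < u z) →
      Disjoint (closure N) D → Disjoint (closure N) Q → ∀ z ∈ N, Hm u z) :
    IsPreconnected {z | u z = 0} := by
  have hZ : IsClosed {z | u z = 0} := isClosed_eq hu continuous_const
  rw [isPreconnected_closed_iff]
  intro t t' ht ht' hsub hne hne'
  by_contra hcon
  rw [not_nonempty_iff_eq_empty] at hcon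
  -- one of the two pieces contains `D`; call the other one `E`
  wlog hDt : D ⊆ t' generalizing t t' with H
  · have hDt2 : D ⊆ t := by
      by_contra hD2
      obtain ⟨x, hxD, hxt⟩ := not_subset.1 hD2
      obtain ⟨y, hyD, hyt⟩ := not_subset.1 hDt
      have hx : x ∈ t' := (hsub (hDu x hxD)).resolve_left hxt
      have hy : y ∈ t := (hsub (hDu y hyD)).resolve_right hyt
      obtain ⟨w, hwD, hw⟩ := isPreconnected_closed_iff.1 hD t t' ht ht'
        (fun z hz => hsub (hDu z hz)) ⟨y, hyD, hy⟩ ⟨x, hxD, hx⟩
      have : w ∈ ({z | u z = 0} : Set ℂ) ∩ (t ∩ t') := ⟨hDu w hwD, hw⟩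
      rw [hcon] at this
      exact this
    exact H t' t ht' ht (fun z hz => (hsub hz).symm) hne' hne (by rw [inter_comm t' t]; exact hcon)
      hDt2
  set E : Set ℂ := {z | u z = 0} ∩ t with hE
  have hEb : Bornology.IsBounded E := by
    refine hb.subset fun z hz => ⟨hz.1, fun hzD => ?_⟩
    have : z ∈ ({z | u z = 0} : Set ℂ) ∩ (t ∩ t') := ⟨hz.1, hz.2, hDt hzD⟩
    rw [hcon] at this
    exact this
  have hEc : IsCompact E := Metric.isCompact_of_isClosed_isBounded (hZ.inter ht) hEb
  set W : Set ℂ := ({z | u z = 0} ∩ t') ∪ Q with hW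
  have hWc : IsClosed W := (hZ.inter ht').union hQ
  have hEW : E ⊆ Wᶜ := by
    rintro z hz (hz' | hz')
    · have : z ∈ ({z | u z = 0} : Set ℂ) ∩ (t ∩ t') := ⟨hz.1, hz.2, hz'.2⟩
      rw [hcon] at this
      exact this
    · have h1 := hQu z hz'
      have h2 : u z = 0 := hz.1
      linarith
  obtain ⟨δ, hδ, hδW⟩ := hEc.exists_cthickening_subset_open hWc.isOpen_compl hEW
  set N : Set ℂ := thickening δ E with hN
  have hNo : IsOpen N := isOpen_thickening
  have hEN : E ⊆ N := self_subset_thickening hδ E
  have hclN : closure N ⊆ Wᶜ := (closure_thickening_subset_cthickening δ E).trans hδW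
  have hNb : Bornology.IsBounded N := hEb.thickening
  have hDW : D ⊆ W := fun z hz => Or.inl ⟨hDu z hz, hDt hz⟩
  have hfr : ∀ z ∈ frontier N, 0 < u z := by
    intro z hz
    rcases (h0 z).lt_or_eq with h | h
    · exact h
    · exfalso
      rw [hNo.frontier_eq] at hz
      have h1 : z ∉ W := hclN hz.1
      rcases hsub (show z ∈ {z | u z = 0} from h.symm) with h2 | h2
      · exact hz.2 (hEN ⟨h.symm, h2⟩)
      · exact h1 (Or.inl ⟨h.symm, h2⟩)
  have hharm := hh N hNo hNb hfr
    (disjoint_left.2 fun z hz hzD => hclN hz (hDW hzD))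
    (disjoint_left.2 fun z hz hzQ => hclN hz (Or.inr hzQ))
  have hEo : IsOpen E := by
    rw [isOpen_iff_mem_nhds]
    intro z hz
    have h1 : ∀ᶠ w in 𝓝 z, (fun w => - u w) w ≤ (fun w => - u w) z := by
      refine Eventually.of_forall fun w => ?_
      have h2 : u z = 0 := hz.1
      have := h0 w
      simp only
      linarith
    have h3 := (hharm z (hEN hz)).neg.localMax h1
    filter_upwards [h3, hNo.mem_nhds (hEN hz)] with w hw hwN
    have h4 : u w = 0 := by
      have h2 : u z = 0 := hz.1
      have : - u w = - u z := hw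
      linarith
    refine ⟨h4, ?_⟩
    rcases hsub (show w ∈ {z | u z = 0} from h4) with h5 | h5
    · exact h5
    · exact absurd (Or.inl ⟨h4, h5⟩) (hclN (subset_closure hwN))
  have := not_clopen hEc hEo
  obtain ⟨z, hz⟩ := hne
  rw [this] at hz
  exact hz

theorem sn_zero : sn 0 = 0 := by simp [sn]

theorem sn_nonneg (z : ℂ) : 0 ≤ sn z := le_max_of_le_left (abs_nonneg _)

theorem sn_smul {c : ℝ} (hc : 0 ≤ c) (z : ℂ) : sn (c • z) = c * sn z := by
  unfold sn
  simp only [Complex.smul_re, Complex.smul_im, smul_eq_mul, abs_mul, abs_of_nonneg hc]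
  rw [mul_max_of_nonneg _ _ hc]

theorem norm_le_sn (z : ℂ) : ‖z‖ ≤ 2 * sn z := by
  have h1 := Complex.norm_le_abs_re_add_abs_im z
  have h2 : |z.re| ≤ sn z := le_max_left _ _
  have h3 : |z.im| ≤ sn z := le_max_right _ _
  linarith

theorem sn_pos {z : ℂ} (hz : z ≠ 0) : 0 < sn z := by
  have h1 := norm_le_sn z
  have h2 : 0 < ‖z‖ := norm_pos_iff.2 hz
  linarith

theorem sq_bdd (r : ℝ) : Bornology.IsBounded (sq r) := by
  refine (isBounded_closedBall (x := (0 : ℂ)) (r := 2 * r)).subset fun z hz => ?_
  rw [mem_closedBall, dist_zero_right]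
  have h1 := norm_le_sn z
  have h2 : sn z < r := hz
  linarith

theorem conn_plateau (s : ℝ) : IsPreconnected {z | sn z ≤ s} := by
  apply Convex.isPreconnected
  intro x hx y hy a b ha hb hab
  have h1 : ∀ x y : ℂ, sn (x + y) ≤ sn x + sn y := by
    intro x y
    refine max_le ?_ ?_
    · rw [Complex.add_re]
      exact (abs_add_le _ _).trans (add_le_add (le_max_left _ _) (le_max_left _ _))
    · rw [Complex.add_im]
      exact (abs_add_le _ _).trans (add_le_add (le_max_right _ _) (le_max_right _ _))
  have hx' : sn x ≤ s := hx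
  have hy' : sn y ≤ s := hy
  show sn (a • x + b • y) ≤ s
  calc sn (a • x + b • y) ≤ a * sn x + b * sn y := by
        rw [← sn_smul ha, ← sn_smul hb]; exact h1 _ _
    _ ≤ a * s + b * s := add_le_add (mul_le_mul_of_nonneg_left hx' ha)
        (mul_le_mul_of_nonneg_left hy' hb)
    _ = s := by rw [← add_mul, hab, one_mul]

theorem conn_outside {r : ℝ} (hr : 0 < r) : IsPreconnected {w | r ≤ sn w} := by
  have h1 : IsPreconnected ({0}ᶜ : Set ℂ) :=
    (isConnected_compl_singleton_of_one_lt_rank (by
      rw [Complex.rank_real_complex]; norm_num) 0).isPreconnected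
  have h2 : {w | r ≤ sn w} = (fun w : ℂ => (max (sn w) r / sn w) • w) '' ({0}ᶜ : Set ℂ) := by
    apply Subset.antisymm
    · intro w hw
      have hw' : r ≤ sn w := hw
      have hw0 : sn w ≠ 0 := by linarith
      refine ⟨w, ?_, ?_⟩
      · intro h
        rw [mem_singleton_iff] at h
        rw [h, sn_zero] at hw0
        exact hw0 rfl
      · simp only
        rw [max_eq_left hw', div_self hw0, one_smul]
    · rintro _ ⟨w, hw, rfl⟩
      have hw0 : 0 < sn w := sn_pos hw
      show r ≤ sn _
      rw [sn_smul (by positivity), div_mul_cancel₀ _ hw0.ne']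
      exact le_max_right _ _
  rw [h2]
  refine h1.image _ ?_
  intro w hw
  have hw0 : sn w ≠ 0 := (sn_pos hw).ne'
  apply ContinuousAt.continuousWithinAt
  have e1 : ContinuousAt sn w := sn_cont.continuousAt
  exact ((e1.max continuousAt_const).div e1 hw0).smul continuousAt_id

variable {F : ℂ ≃ₜ ℂ} {s r : ℝ} {A B : ℂ → ℝ} {T : Measure ℂ}

theorem TP.bdd_A' (_ : TP F s r A B T) : Bornology.IsBounded {z | sn (F z) < r} := by
  have h1 : IsCompact (closure (sq r)) := (sq_bdd r).isCompact_closure
  refine (h1.image F.symm.continuous).isBounded.subset ?_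
  intro z hz
  exact ⟨F z, subset_closure hz, F.symm_apply_apply z⟩

theorem TP.bdd_A (H : TP F s r A B T) : Bornology.IsBounded {z | 0 < A z} :=
  H.bdd_A'.subset fun _ hz => H.lt_r hz

theorem TP.bdd_B (H : TP F s r A B T) : Bornology.IsBounded {w | B w = 0} := by
  refine (sq_bdd r).subset fun w hw => ?_
  by_contra h
  have h1 := H.B_one w (not_lt.1 h)
  have h2 : B w = 0 := hw
  rw [h2] at h1
  norm_num at h1

theorem TP.T_of_A (H : TP F s r A B T) {U : Set ℂ} (hU : IsOpen U) (h : ∀ z ∈ U, A z = 0) :
    T U = 0 := by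
  have := H.T_fin
  have hs : ∀ z ∈ U, s < sn z := by
    intro z hz
    by_contra hc
    have h1 := H.A_one z (not_lt.1 hc)
    rw [h z hz] at h1
    norm_num at h1
  refine null_of_test hU ?_
  intro φ h1 h2 h3 _
  rw [← H.weakA φ h1 h2 fun z hz => hs z (h3 hz)]
  apply integral_eq_zero_of_ae
  refine Eventually.of_forall fun z => ?_
  by_cases hz : z ∈ tsupport φ
  · simp [h z (h3 hz)]
  · have : lap φ z = 0 := by
      by_contra h
      exact hz (lap_supp φ h)
    simp [this]

theorem TP.T_of_B (H : TP F s r A B T) {U : Set ℂ} (hU : IsOpen U) (h : ∀ w ∈ U, B w = 0) :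
    T (F ⁻¹' U) = 0 := by
  have := H.T_fin
  have : IsFiniteMeasure (T.map F) := by
    constructor
    rw [Measure.map_apply F.continuous.measurable MeasurableSet.univ]
    exact measure_lt_top _ _
  have hs : U ⊆ sq r := by
    intro w hw
    by_contra hc
    have h1 := H.B_one w (not_lt.1 hc)
    rw [h w hw] at h1
    norm_num at h1
  have h1 : (T.map F) U = 0 := by
    refine null_of_test hU ?_
    intro ψ h1 h2 h3 _
    rw [integral_map F.continuous.measurable.aemeasurable
      h1.continuous.aestronglyMeasurable, ← H.weakB ψ h1 h2 (h3.trans hs)]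
    apply integral_eq_zero_of_ae
    refine Eventually.of_forall fun w => ?_
    by_cases hw : w ∈ tsupport ψ
    · simp [h w (h3 hw)]
    · have : lap ψ w = 0 := by
        by_contra h
        exact hw (lap_supp ψ h)
      simp [this]
  rwa [Measure.map_apply F.continuous.measurable hU.measurableSet] at h1

theorem TP.hmA (H : TP F s r A B T) {z : ℂ} (hz : s < sn z) (h : 0 < A z) : Hm A z :=
  Hm.of_harmonicAt (H.harmA z ⟨hz, h⟩)

theorem TP.hmB (H : TP F s r A B T) {w : ℂ} (hw : sn w < r) (h : 0 < B w) : Hm B w :=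
  Hm.of_harmonicAt (H.harmB w ⟨hw, h⟩)

/-- The inner phase is connected. -/
theorem TP.conn_A (H : TP F s r A B T) : IsConnected {z | 0 < A z} := by
  refine conn_pos H.A_cont (conn_plateau s) (p := 0) ?_ ?_ (H.bdd_A.subset sdiff_subset) ?_
  · show sn 0 ≤ s
    rw [sn_zero]; exact H.s_pos.le
  · intro z hz
    rw [H.A_one z hz]; norm_num
  · intro z hz h
    exact H.hmA (not_le.1 hz) h

/-- The outer phase is connected (in the plane of `w`). -/
theorem TP.conn_B (H : TP F s r A B T) : IsConnected {w | 0 < B w} := by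
  refine conn_pos H.B_cont (conn_outside H.r_pos) (p := (r : ℂ)) ?_ ?_
    ((sq_bdd r).subset ?_) ?_
  · show r ≤ sn (r : ℂ)
    refine le_max_of_le_left ?_
    rw [Complex.ofReal_re]; exact le_abs_self r
  · intro w hw
    rw [H.B_one w hw]; norm_num
  · intro w hw
    by_contra hc
    have h1 : r ≤ sn w := not_lt.1 hc
    exact hw.2 h1
  · intro w hw h
    exact H.hmB (lt_of_not_ge hw) h

/-- The complement of the inner phase is connected. -/
theorem TP.conn_A0 (H : TP F s r A B T) : IsPreconnected {z | A z = 0} := by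
  have hDA : ∀ z, r ≤ sn (F z) → A z = 0 := by
    intro z hz
    apply H.A_zero
    rw [H.B_one _ hz]; norm_num
  have hbd : Bornology.IsBounded ({z | A z = 0} \ {z | r ≤ sn (F z)}) := by
    refine H.bdd_A'.subset fun z hz => ?_
    by_contra hc
    have h1 : r ≤ sn (F z) := not_lt.1 hc
    exact hz.2 h1
  refine conn_zero H.A_cont H.A_nonneg (D := {z | r ≤ sn (F z)}) (Q := {z | sn z ≤ s}) ?_
    hDA hbd (isClosed_le sn_cont continuous_const) ?_ ?_
  · have h1 : {z | r ≤ sn (F z)} = F.symm '' {w | r ≤ sn w} := by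
      rw [F.symm.image_eq_preimage_symm]
      rfl
    rw [h1]
    exact (conn_outside H.r_pos).image _ F.symm.continuous.continuousOn
  · intro z hz
    rw [H.A_one z hz]; norm_num
  · intro N hNo hNb hfr hND hNQ
    have hT : T N = 0 := by
      have hU : IsOpen (F.symm ⁻¹' N) := hNo.preimage F.symm.continuous
      have h1 : ∀ w ∈ F.symm ⁻¹' N, B w = 0 := by
        intro w hw
        by_contra hne
        have hpos : 0 < B w := lt_of_le_of_ne (H.B_nonneg w) (Ne.symm hne)
        have h2 : ({w | 0 < B w} ∩ frontier (F.symm ⁻¹' N)).Nonempty := by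
          refine meets_frontier H.conn_B.isPreconnected hU (x := w) (y := (r : ℂ)) hpos hw ?_ ?_
          · show 0 < B r
            rw [H.B_one]
            · norm_num
            · refine le_max_of_le_left ?_
              rw [Complex.ofReal_re]; exact le_abs_self r
          · intro h3
            refine disjoint_left.1 hND (subset_closure h3) ?_
            show r ≤ sn (F (F.symm r))
            rw [F.apply_symm_apply]
            refine le_max_of_le_left ?_
            rw [Complex.ofReal_re]; exact le_abs_self r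
        obtain ⟨v, hv1, hv2⟩ := h2
        rw [← F.symm.preimage_frontier] at hv2
        have h4 : 0 < A (F.symm v) := hfr _ hv2
        have h5 := H.B_zero h4
        rw [F.apply_symm_apply] at h5
        have h6 : 0 < B v := hv1
        linarith
      have h2 := H.T_of_B hU h1
      refine measure_mono_null ?_ h2
      intro z hz
      simpa using hz
    intro z hz
    refine Hm.of_harmonicAt (H.harmA' hNo (fun z hz => ?_) hT z hz)
    by_contra hc
    exact disjoint_left.1 hNQ (subset_closure hz) (not_lt.1 hc)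

/-- The complement of the outer phase is connected (in the plane of `w`). -/
theorem TP.conn_B0 (H : TP F s r A B T) : IsPreconnected {w | B w = 0} := by
  refine conn_zero H.B_cont H.B_nonneg (D := F '' {z | sn z ≤ s}) (Q := {w | r ≤ sn w})
    ((conn_plateau s).image _ F.continuous.continuousOn) ?_
    (H.bdd_B.subset sdiff_subset) (isClosed_le continuous_const sn_cont) ?_ ?_
  · rintro _ ⟨z, hz, rfl⟩
    apply H.B_zero
    rw [H.A_one z hz]; norm_num
  · intro w hw
    rw [H.B_one w hw]; norm_num
  · intro N hNo hNb hfr hND hNQ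
    have hT : T (F ⁻¹' N) = 0 := by
      refine H.T_of_A (hNo.preimage F.continuous) ?_
      intro z hz
      by_contra hne
      have hpos : 0 < A z := lt_of_le_of_ne (H.A_nonneg z) (Ne.symm hne)
      have h0 : sn 0 ≤ s := by rw [sn_zero]; exact H.s_pos.le
      have h2 : ({z | 0 < A z} ∩ frontier (F ⁻¹' N)).Nonempty := by
        refine meets_frontier H.conn_A.isPreconnected (hNo.preimage F.continuous) (x := z)
          (y := 0) hpos hz ?_ ?_
        · show 0 < A 0
          rw [H.A_one 0 h0]; norm_num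
        · intro h3
          exact disjoint_left.1 hND (subset_closure h3) ⟨0, h0, rfl⟩
      obtain ⟨v, hv1, hv2⟩ := h2
      rw [← F.preimage_frontier] at hv2
      have h4 : 0 < B (F v) := hfr _ hv2
      have h5 := H.A_zero h4
      have h6 : 0 < A v := hv1
      linarith
    intro w hw
    refine Hm.of_harmonicAt (H.harmB' hNo (fun w hw => ?_) hT w hw)
    by_contra hc
    exact disjoint_left.1 hNQ (subset_closure hw) (not_lt.1 hc)

theorem TP.compl_A (H : TP F s r A B T) : {z | 0 < A z}ᶜ = {z | A z = 0} := by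
  ext z
  simp only [mem_compl_iff, mem_ofPred_eq, not_lt]
  exact ⟨fun h => le_antisymm h (H.A_nonneg z), fun h => h.le⟩

theorem TP.compl_B (H : TP F s r A B T) : {w | 0 < B w}ᶜ = {w | B w = 0} := by
  ext w
  simp only [mem_compl_iff, mem_ofPred_eq, not_lt]
  exact ⟨fun h => le_antisymm h (H.B_nonneg w), fun h => h.le⟩

end Pool.Agent.FB018
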