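import Pool.Agent.Lib.MP_018119_an_FB.Defs
import Pool.Agent.Lib.MP_099f24_an.TM.WeakHol

/-!
# MP_018119_an, project FB: Weyl's lemma and absence of atoms

* `weyl_cont`: a continuous function which is weakly harmonic on an open set is harmonic there.
* `no_atom_of_weak`: the Riesz measure of a continuous function has no atoms.
-/

set_option autoImplicit false

open MeasureTheory Set Metric Filter Topology
open scoped ContDiff Convolution
open Pool.Agent.MP099f24

namespace Pool.Agent.FB018

theorem lap_eq {φ : ℂ → ℝ} (hφ : ContDiff ℝ 2 φ) (x : ℂ) :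
    lap φ x = fderiv ℝ (fun y => fderiv ℝ φ y 1) x 1 +
      fderiv ℝ (fun y => fderiv ℝ φ y Complex.I) x Complex.I := by
  have hd : DifferentiableAt ℝ (fderiv ℝ φ) x :=
    ((hφ.fderiv_right (m := 1) (by norm_num)).differentiable (by simp)) x
  have e : ∀ a b : ℂ, fderiv ℝ (fun y => fderiv ℝ φ y a) x b = fderiv ℝ (fderiv ℝ φ) x b a := by
    intro a b
    have h1 := hd.hasFDerivAt.clm_apply (hasFDerivAt_const a x)
    rw [h1.fderiv]
    simp
  rw [e, e]
  rfl

theorem lap_cont {φ : ℂ → ℝ} (hφ : ContDiff ℝ 2 φ) : Continuous (lap φ) := by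
  have h1 : ContDiff ℝ 1 (fderiv ℝ φ) := hφ.fderiv_right (by norm_num)
  have h2 : Continuous (fderiv ℝ (fderiv ℝ φ)) := h1.continuous_fderiv (by simp)
  unfold lap
  fun_prop

theorem lap_supp (φ : ℂ → ℝ) : Function.support (lap φ) ⊆ tsupport φ := by
  intro x hx
  by_contra h
  apply hx
  have h1 : fderiv ℝ (fderiv ℝ φ) x = 0 := by
    have h2 : x ∉ tsupport (fderiv ℝ φ) := fun h3 => h (tsupport_fderiv_subset ℝ h3)
    have h3 : x ∉ tsupport (fderiv ℝ (fderiv ℝ φ)) := fun h4 => h2 (tsupport_fderiv_subset ℝ h4)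
    exact image_eq_zero_of_notMem_tsupport h3
  simp [lap, h1]

theorem lap_compact {φ : ℂ → ℝ} (hc : HasCompactSupport φ) : HasCompactSupport (lap φ) :=
  HasCompactSupport.of_support_subset_isCompact hc (lap_supp φ)

theorem lap_mathlib {φ : ℂ → ℝ} (x : ℂ) : Laplacian.laplacian φ x = lap φ x := by
  rw [InnerProductSpace.laplacian_eq_iteratedFDeriv_complexPlane]
  simp [iteratedFDeriv_two_apply, lap]

/-- Integration over the open set `V` and over the plane are the same. -/
theorem int_lap_restrict {V : Set ℂ} (hV : IsOpen V) {A φ : ℂ → ℝ} (hs : tsupport φ ⊆ V) :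
    ∫ x in V, A x * lap φ x = ∫ x, A x * lap φ x := by
  rw [← integral_indicator hV.measurableSet]
  refine integral_congr_ae (Eventually.of_forall fun x => ?_)
  by_cases hx : x ∈ V
  · simp [indicator_of_mem hx]
  · have : lap φ x = 0 := by
      by_contra h
      exact hx (hs (lap_supp φ h))
    simp [indicator_of_notMem hx, this]

/-- the radial mollification is smooth -/
theorem weyl_v_smooth {w : ℂ → ℝ} (hw : Integrable w) {R : ℝ} (hR : 0 < R) :
    ContDiff ℝ ∞ (weyl_v w (1 / R ^ 2)) := by
  have h1 : weyl_v w (1 / R ^ 2) =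
      (w ⋆[ContinuousLinearMap.mul ℝ ℝ, volume] (tewh_ker (1 / R ^ 2))) := by
    funext x
    show _ = ∫ t, w t * tewh_ker (1 / R ^ 2) (x - t)
    unfold weyl_v
    refine integral_congr_ae (Eventually.of_forall fun t => ?_)
    simp only [tewh_ker]
    rw [norm_sub_rev]
  rw [h1]
  exact (tewh_ker_compact hR).contDiff_convolution_right _ hw.locallyIntegrable
    (tewh_ker_smooth _)

/-- integration by parts for the Laplacian -/
theorem int_mul_lap {v φ : ℂ → ℝ} (hv : ContDiff ℝ ∞ v) (hφ : ContDiff ℝ ∞ φ)
    (hc : HasCompactSupport φ) : ∫ x, v x * lap φ x = ∫ x, lap v x * φ x := by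
  have h2 : ∀ {f : ℂ → ℝ}, ContDiff ℝ ∞ f → ContDiff ℝ 2 f := fun h => h.of_le (by
    exact WithTop.coe_le_coe.2 le_top)
  have hsm : ∀ {f : ℂ → ℝ}, ContDiff ℝ ∞ f → ∀ a : ℂ, ContDiff ℝ ∞ (fun x => fderiv ℝ f x a) :=
    fun h a => tewh_fd_smooth h a
  have hts : ∀ a : ℂ, HasCompactSupport (fun x => fderiv ℝ φ x a) := fun a =>
    IsCompact.of_isClosed_subset hc (isClosed_tsupport _) (tsupport_fderiv_apply_subset ℝ a)
  have hts2 : ∀ a : ℂ, HasCompactSupport (fun x => fderiv ℝ (fun y => fderiv ℝ φ y a) x a) :=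
    fun a => IsCompact.of_isClosed_subset (hts a) (isClosed_tsupport _)
      (tsupport_fderiv_apply_subset ℝ a)
  have key : ∀ a : ℂ, ∫ x, v x * fderiv ℝ (fun y => fderiv ℝ φ y a) x a =
      ∫ x, fderiv ℝ (fun y => fderiv ℝ v y a) x a * φ x := by
    intro a
    have e1 := integral_mul_fderiv_eq_neg_fderiv_mul_of_integrable (μ := (volume : Measure ℂ))
      (f := v) (g := fun y => fderiv ℝ φ y a) (v := a)
      (((hsm hv a).continuous.mul (hsm hφ a).continuous).integrable_of_hasCompactSupport
        ((hts a).mul_left))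
      ((hv.continuous.mul (hsm (hsm hφ a) a).continuous).integrable_of_hasCompactSupport
        ((hts2 a).mul_left))
      ((hv.continuous.mul (hsm hφ a).continuous).integrable_of_hasCompactSupport
        ((hts a).mul_left))
      (fun x _ => hv.differentiable (by simp) x)
      (fun x _ => (hsm hφ a).differentiable (by simp) x)
    have e2 := integral_mul_fderiv_eq_neg_fderiv_mul_of_integrable (μ := (volume : Measure ℂ))
      (f := fun y => fderiv ℝ v y a) (g := φ) (v := a)
      (((hsm (hsm hv a) a).continuous.mul hφ.continuous).integrable_of_hasCompactSupport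
        (hc.mul_left))
      (((hsm hv a).continuous.mul (hsm hφ a).continuous).integrable_of_hasCompactSupport
        ((hts a).mul_left))
      (((hsm hv a).continuous.mul hφ.continuous).integrable_of_hasCompactSupport
        (hc.mul_left))
      (fun x _ => (hsm hv a).differentiable (by simp) x)
      (fun x _ => hφ.differentiable (by simp) x)
    rw [e1, e2, neg_neg]
  have i1 : ∀ a : ℂ, Integrable (fun x => v x * fderiv ℝ (fun y => fderiv ℝ φ y a) x a) :=
    fun a => (hv.continuous.mul (hsm (hsm hφ a) a).continuous).integrable_of_hasCompactSupport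
        ((hts2 a).mul_left)
  have i2 : ∀ a : ℂ, Integrable (fun x => fderiv ℝ (fun y => fderiv ℝ v y a) x a * φ x) :=
    fun a => ((hsm (hsm hv a) a).continuous.mul hφ.continuous).integrable_of_hasCompactSupport
        (hc.mul_left)
  have e1 : (fun x => v x * lap φ x) = fun x =>
      v x * fderiv ℝ (fun y => fderiv ℝ φ y 1) x 1 +
        v x * fderiv ℝ (fun y => fderiv ℝ φ y Complex.I) x Complex.I := by
    funext x
    rw [lap_eq (h2 hφ), mul_add]
  have e2 : (fun x => lap v x * φ x) = fun x =>
      fderiv ℝ (fun y => fderiv ℝ v y 1) x 1 * φ x +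
        fderiv ℝ (fun y => fderiv ℝ v y Complex.I) x Complex.I * φ x := by
    funext x
    rw [lap_eq (h2 hv), add_mul]
  rw [e1, e2, integral_add (i1 1) (i1 Complex.I), integral_add (i2 1) (i2 Complex.I), key, key]

/-- **Weyl's lemma** for continuous functions. -/
theorem weyl_cont {V : Set ℂ} (hV : IsOpen V) {A : ℂ → ℝ} (hA : ContinuousOn A V)
    (h : ∀ φ : ℂ → ℝ, ContDiff ℝ ∞ φ → HasCompactSupport φ → tsupport φ ⊆ V →
      ∫ z, A z * lap φ z = 0) :
    InnerProductSpace.HarmonicOnNhd A V := by
  intro x₀ hx₀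
  obtain ⟨ε, hε, hball⟩ := Metric.isOpen_iff.1 hV x₀ hx₀
  obtain ⟨R, hR⟩ : ∃ R, R = ε / 3 := ⟨_, rfl⟩
  have hR0 : 0 < R := by rw [hR]; positivity
  have hKU : closedBall x₀ (2 * R) ⊆ V := (closedBall_subset_ball (by linarith)).trans hball
  have hBV : ball x₀ R ⊆ V := (ball_subset_closedBall.trans
    (closedBall_subset_closedBall (by linarith))).trans hKU
  have hloc : LocallyIntegrableOn A V := hA.locallyIntegrableOn hV.measurableSet
  have hweak : ∀ φ : ℂ → ℝ, ContDiff ℝ ∞ φ → HasCompactSupport φ → tsupport φ ⊆ V →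
      ∫ x in V, A x * (fderiv ℝ (fun y => fderiv ℝ φ y 1) x 1 +
        fderiv ℝ (fun y => fderiv ℝ φ y Complex.I) x Complex.I) = 0 := by
    intro φ h1 h2 h3
    rw [← h φ h1 h2 h3, ← int_lap_restrict hV h3]
    refine integral_congr_ae (Eventually.of_forall fun x => ?_)
    simp only
    rw [lap_eq (h1.of_le (WithTop.coe_le_coe.2 le_top))]
  have hae := tewh_repr hV hloc hweak hR0 hKU
  have hwi : Integrable ((closedBall x₀ (2 * R)).indicator A) :=
    (integrable_indicator_iff measurableSet_closedBall).2
      (hloc.integrableOn_compact_subset hKU (isCompact_closedBall _ _))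
  obtain ⟨v, hv⟩ : ∃ v : ℂ → ℝ, v = fun x =>
      weyl_v ((closedBall x₀ (2 * R)).indicator A) (1 / R ^ 2) x / (∫ z : ℂ, weyl_k (‖z‖ ^ 2)) :=
    ⟨_, rfl⟩
  have hvs : ContDiff ℝ ∞ v := by
    rw [hv]
    exact (weyl_v_smooth hwi hR0).div_const _
  have hEq : EqOn A v (ball x₀ R) := by
    refine Measure.eqOn_open_of_ae_eq (μ := volume) ?_ isOpen_ball (hA.mono hBV)
      hvs.continuous.continuousOn
    rw [hv]
    exact hae
  have hlapv : EqOn (lap v) 0 (ball x₀ R) := by
    have h1 : ∀ᵐ x ∂(volume : Measure ℂ), x ∈ ball x₀ R → lap v x = 0 := by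
      refine isOpen_ball.ae_eq_zero_of_integral_contDiff_smul_eq_zero
        ((lap_cont (hvs.of_le (WithTop.coe_le_coe.2 le_top))).locallyIntegrable.locallyIntegrableOn
          _) ?_
      intro g hg hgc hgs
      have h2 := h g hg hgc (hgs.trans hBV)
      have h3 : ∫ z, A z * lap g z = ∫ z, v z * lap g z := by
        refine integral_congr_ae (Eventually.of_forall fun x => ?_)
        simp only
        by_cases hx : x ∈ ball x₀ R
        · rw [hEq hx]
        · have : lap g x = 0 := by
            by_contra h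
            exact hx (hgs (lap_supp g h))
          rw [this, mul_zero, mul_zero]
      rw [h3, int_mul_lap hvs hg hgc] at h2
      rw [← h2]
      refine integral_congr_ae (Eventually.of_forall fun x => ?_)
      simp only [smul_eq_mul]
      rw [mul_comm]
    refine Measure.eqOn_open_of_ae_eq (μ := volume) ?_ isOpen_ball
      (lap_cont (hvs.of_le (WithTop.coe_le_coe.2 le_top))).continuousOn continuousOn_const
    rw [EventuallyEq, ae_restrict_iff' measurableSet_ball]
    exact h1
  have hAv : A =ᶠ[𝓝 x₀] v := by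
    filter_upwards [ball_mem_nhds x₀ hR0] with y hy
    exact hEq hy
  have hvh : InnerProductSpace.HarmonicAt v x₀ := by
    refine ⟨(hvs.of_le (WithTop.coe_le_coe.2 le_top)).contDiffAt, ?_⟩
    filter_upwards [ball_mem_nhds x₀ hR0] with y hy
    rw [lap_mathlib]
    exact hlapv hy
  exact (InnerProductSpace.harmonicAt_congr_nhds hAv).2 hvh

/-- the Laplacian of a rescaled function -/
theorem lap_rescale (φ : ℂ → ℝ) (x : ℂ) (c : ℝ) (z : ℂ) :
    lap (fun z => φ (c • (z - x))) z = c ^ 2 * lap φ (c • (z - x)) := by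
  have h1 : ∀ z, fderiv ℝ (fun z => φ (c • (z - x))) z = c • fderiv ℝ φ (c • (z - x)) := by
    intro z
    have e1 := fderiv_comp_sub (𝕜 := ℝ) (f := fun y => φ (c • y)) (x := z) x
    rw [e1, fderiv_comp_smul]
  have h2 : fderiv ℝ (fderiv ℝ (fun z => φ (c • (z - x)))) z =
      c ^ 2 • fderiv ℝ (fderiv ℝ φ) (c • (z - x)) := by
    have e0 : fderiv ℝ (fun z => φ (c • (z - x))) = fun z => c • fderiv ℝ φ (c • (z - x)) :=
      funext h1
    rw [e0]
    have e1 := fderiv_comp_sub (𝕜 := ℝ) (f := fun y => c • fderiv ℝ φ (c • y)) (x := z) x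
    rw [e1]
    have e2 := fderiv_comp_smul (𝕜 := ℝ) (f := fun y => c • fderiv ℝ φ y) (x := z - x) c
    rw [e2]
    rcases eq_or_ne c 0 with rfl | hc
    · simp
    · have := invertibleOfNonzero hc
      have e3 := fderiv_const_smul_of_invertible (𝕜 := ℝ) (f := fderiv ℝ φ)
        (x := c • (z - x)) (R := ℝ) c
      have e4 : (fun y => c • fderiv ℝ φ y) = c • fderiv ℝ φ := rfl
      rw [e4, e3, smul_smul, pow_two]
  unfold lap
  rw [h2]
  simp only [_root_.smul_apply, smul_eq_mul]
  ring

/-- the integral of a Laplacian vanishes -/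
theorem int_lap_zero {φ : ℂ → ℝ} (hφ : ContDiff ℝ ∞ φ) (hc : HasCompactSupport φ) :
    ∫ x, lap φ x = 0 := by
  have h1 := int_mul_lap (v := fun _ => 1) contDiff_const hφ hc
  have h2 : ∀ x, lap (fun _ : ℂ => (1 : ℝ)) x = 0 := by
    intro x
    simp [lap]
  simpa [h2] using h1

/-- **No atoms**: the Riesz measure of a continuous function has no atoms. -/
theorem no_atom_of_weak {V : Set ℂ} (hV : IsOpen V) {A : ℂ → ℝ} (hA : ContinuousOn A V)
    {T : Measure ℂ} [IsFiniteMeasure T]
    (h : ∀ φ : ℂ → ℝ, ContDiff ℝ ∞ φ → HasCompactSupport φ → tsupport φ ⊆ V →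
      ∫ z, A z * lap φ z = ∫ z, φ z ∂T) {x : ℂ} (hx : x ∈ V) : T {x} = 0 := by
  obtain ⟨ε, hε, hball⟩ := Metric.isOpen_iff.1 hV x hx
  let b : ContDiffBump (0 : ℂ) := ⟨1 / 2, 1, by norm_num, by norm_num⟩
  have hbs : ContDiff ℝ ∞ (b : ℂ → ℝ) := b.contDiff
  have hbc : HasCompactSupport (b : ℂ → ℝ) := b.hasCompactSupport
  set I : ℝ := ∫ z : ℂ, |lap b z| with hI
  have hI0 : 0 ≤ I := integral_nonneg fun _ => abs_nonneg _
  by_contra hT
  have hTr : 0 < T.real {x} := by
    rw [Measure.real, ENNReal.toReal_pos_iff]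
    exact ⟨pos_iff_ne_zero.2 hT, measure_lt_top _ _⟩
  -- continuity of `A` at `x`
  have hAx : ContinuousAt A x := hA.continuousAt (hV.mem_nhds hx)
  obtain ⟨δ, hδ, hδA⟩ := Metric.continuousAt_iff.1 hAx (T.real {x} / (2 * (I + 1))) (by positivity)
  obtain ⟨r, hr⟩ : ∃ r, r = min δ ε / 2 := ⟨_, rfl⟩
  have hr0 : 0 < r := by rw [hr]; positivity
  have hrδ : r < δ := by
    rw [hr]; have := min_le_left δ ε; have : 0 < min δ ε := by positivity
    linarith
  have hrε : r < ε := by
    rw [hr]; have := min_le_right δ ε; have : 0 < min δ ε := by positivity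
    linarith
  set φ : ℂ → ℝ := fun z => b (r⁻¹ • (z - x)) with hφd
  have hφ : ContDiff ℝ ∞ φ := hbs.comp (by fun_prop)
  have hφs : tsupport φ ⊆ closedBall x r := by
    apply closure_minimal _ isClosed_closedBall
    intro z hz
    rw [Function.mem_support] at hz
    by_contra hc
    rw [mem_closedBall, dist_eq_norm] at hc
    push Not at hc
    apply hz
    apply b.zero_of_le_dist
    rw [dist_zero_right, norm_smul, norm_inv, Real.norm_eq_abs, abs_of_pos hr0]
    show (1 : ℝ) ≤ _
    rw [inv_mul_eq_div, le_div_iff₀ hr0]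
    linarith
  have hφc : HasCompactSupport φ :=
    IsCompact.of_isClosed_subset (isCompact_closedBall x r) (isClosed_tsupport _) hφs
  have hφV : tsupport φ ⊆ V := (hφs.trans (closedBall_subset_ball hrε)).trans hball
  have e1 := h φ hφ hφc hφV
  -- lower bound
  have e2 : T.real {x} ≤ ∫ z, φ z ∂T := by
    have hint : Integrable φ T :=
      hφ.continuous.integrable_of_hasCompactSupport hφc
    calc T.real {x} = ∫ z, ({x} : Set ℂ).indicator (fun _ => (1 : ℝ)) z ∂T := by
          rw [integral_indicator (measurableSet_singleton x)]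
          simp [Measure.real]
      _ ≤ ∫ z, φ z ∂T := by
          refine integral_mono ((integrable_indicator_iff (measurableSet_singleton x)).2
            (integrable_const _).integrableOn) hint ?_
          intro z
          by_cases hz : z = x
          · subst hz
            simp only [mem_singleton_iff, indicator_of_mem]
            have : φ z = 1 := by
              simp only [hφd, sub_self, smul_zero]
              apply b.one_of_mem_closedBall
              simp [b]
            rw [this]
          · have : z ∉ ({x} : Set ℂ) := hz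
            simp only [indicator_of_notMem this]
            exact b.nonneg
  -- upper bound
  have hlc : Continuous (lap φ) := lap_cont (hφ.of_le (WithTop.coe_le_coe.2 le_top))
  have hls : HasCompactSupport (lap φ) := lap_compact hφc
  have i1 : Integrable (fun z => A z * lap φ z) := by
    have h2 : IntegrableOn (fun z => A z * lap φ z) (closedBall x r) := by
      refine ContinuousOn.integrableOn_compact (isCompact_closedBall x r) ?_
      exact (hA.mono ((closedBall_subset_ball hrε).trans hball)).mul hlc.continuousOn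
    rw [← integrableOn_univ]
    refine h2.of_forall_sdiff_eq_zero MeasurableSet.univ ?_
    intro z hz
    have : lap φ z = 0 := by
      by_contra h
      exact hz.2 (hφs (lap_supp φ h))
    rw [this, mul_zero]
  have i2 : Integrable (fun z => A x * lap φ z) :=
    (hlc.integrable_of_hasCompactSupport hls).const_mul _
  have e3 : ∫ z, A z * lap φ z = ∫ z, (A z - A x) * lap φ z := by
    have : ∫ z, A x * lap φ z = 0 := by
      rw [integral_const_mul, int_lap_zero hφ hφc, mul_zero]
    have h3 : (fun z => (A z - A x) * lap φ z) = fun z => A z * lap φ z - A x * lap φ z := by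
      funext z; ring
    rw [h3, integral_sub i1 i2, this, sub_zero]
  have e4 : ∫ z : ℂ, |lap φ z| = I := by
    have h4 : (fun z => |lap φ z|) = fun z => (r⁻¹) ^ 2 * |lap b (r⁻¹ • (z - x))| := by
      funext z
      rw [hφd, lap_rescale, abs_mul, abs_of_nonneg (sq_nonneg _)]
    rw [h4, integral_const_mul,
      integral_sub_right_eq_self (fun z => |lap b (r⁻¹ • z)|) x,
      Measure.integral_comp_smul (volume : Measure ℂ) (fun z => |lap b z|) r⁻¹,
      Complex.finrank_real_complex, smul_eq_mul, ← mul_assoc, abs_of_pos (by positivity),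
      mul_inv_cancel₀ (by positivity), one_mul]
  have e5 : |∫ z, (A z - A x) * lap φ z| ≤ T.real {x} / (2 * (I + 1)) * I := by
    have e5' : T.real {x} / (2 * (I + 1)) * I =
        ∫ z : ℂ, T.real {x} / (2 * (I + 1)) * |lap φ z| := by
      rw [integral_const_mul, e4]
    rw [e5']
    refine (abs_integral_le_integral_abs).trans ?_
    refine integral_mono_of_nonneg (Eventually.of_forall fun _ => abs_nonneg _)
      ((hlc.integrable_of_hasCompactSupport hls).abs.const_mul _) ?_
    refine Eventually.of_forall fun z => ?_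
    simp only
    rw [abs_mul]
    by_cases hz : z ∈ closedBall x r
    · refine mul_le_mul_of_nonneg_right ?_ (abs_nonneg _)
      have : dist z x < δ := lt_of_le_of_lt hz hrδ
      exact (hδA this).le
    · have : lap φ z = 0 := by
        by_contra h
        exact hz (hφs (lap_supp φ h))
      simp [this]
  have e6 : T.real {x} ≤ T.real {x} / (2 * (I + 1)) * I := by
    calc T.real {x} ≤ ∫ z, (A z - A x) * lap φ z := by rw [← e3, e1]; exact e2
      _ ≤ _ := (le_abs_self _).trans e5
  have e7 : T.real {x} / (2 * (I + 1)) * I < T.real {x} := by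
    rw [div_mul_eq_mul_div, div_lt_iff₀ (by positivity)]
    nlinarith
  linarith

end Pool.Agent.FB018
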