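import Pool.Agent.Lib.MP_018119_an_FB.StripM
import Pool.Agent.Lib.MP_018119_an_FB.PWeyl

/-!
# MP_018119_an, project FB: circle means tend to the Riesz measure
-/

set_option autoImplicit false

open Topology Filter Set Metric MeasureTheory
open scoped ContDiff

namespace Pool.Agent.FB018

/-- A smooth function which vanishes near `K` and is one near `Z`. -/
theorem exists_eta {K Z : Set ℂ} (hK : IsClosed K) (hZ : IsClosed Z) (hd : Disjoint K Z) :
    ∃ η : ℂ → ℝ, ContDiff ℝ ∞ η ∧ (∀ x ∈ K, ∀ᶠ y in 𝓝 x, η y = 0) ∧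
      ∀ x ∈ Z, ∀ᶠ y in 𝓝 x, η y = 1 := by
  obtain ⟨f, h1, h2, -⟩ := exists_contMDiffMap_zero_one_nhds_of_isClosed (modelWithCornersSelf ℝ ℂ)
    hK hZ hd (n := ⊤)
  refine ⟨f, f.contMDiff.contDiff, fun x hx => ?_, fun x hx => ?_⟩
  · exact (eventually_nhdsSet_iff_forall.1 h1) x hx
  · exact (eventually_nhdsSet_iff_forall.1 h2) x hx

section

variable {χ : ℂ → ℂ} {P : ℂ → ℝ} {w₁ p : ℝ} {K : Set ℂ} {ν : Measure ℂ}

/-- Smooth test functions. -/
theorem means_smooth [IsFiniteMeasure ν] (hw : 0 < w₁) (hp : 0 < p)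
    (hχ : DifferentiableOn ℂ χ {z : ℂ | 0 < z.re ∧ z.re < w₁})
    (hper : ∀ z : ℂ, 0 < z.re → z.re < w₁ → χ (z + 2 * Real.pi * Complex.I) = χ z)
    (hinj : ∀ z w : ℂ, 0 < z.re → z.re < w₁ → 0 < w.re → w.re < w₁ → χ z = χ w →
      ∃ n : ℤ, z = w + n * (2 * Real.pi * Complex.I))
    (hP : ∀ z : ℂ, 0 < z.re → z.re < w₁ → P (χ z) = p * z.re)
    (hPc : Continuous P) (hP0 : ∀ x, 0 ≤ P x) (hK : IsClosed K) (hKP : ∀ x ∈ K, 0 < P x)
    (hcov : ∀ x, 0 < P x → x ∈ K ∨ ∃ z : ℂ, 0 < z.re ∧ z.re < w₁ ∧ χ z = x)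
    (hKχ : ∀ z : ℂ, w₁ / 2 ≤ z.re → z.re < w₁ → χ z ∈ K)
    (hν : ν {x | 0 < P x} = 0)
    (hweak : ∀ ψ : ℂ → ℝ, ContDiff ℝ ∞ ψ → HasCompactSupport ψ → (∀ x ∈ K, x ∉ tsupport ψ) →
      ∫ x, P x * lap ψ x = ∫ x, ψ x ∂ν)
    {φ : ℂ → ℝ} (hφ : ContDiff ℝ ∞ φ) (hφc : HasCompactSupport φ) :
    Tendsto (fun c : ℝ => p * ∫ θ in (0 : ℝ)..(2 * Real.pi), φ (χ ((c : ℂ) + θ * Complex.I)))
      (𝓝[>] 0) (𝓝 (∫ x, φ x ∂ν)) := by
  have hZ : IsClosed {x | P x = 0} := isClosed_eq hPc continuous_const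
  have hdis : Disjoint K {x | P x = 0} := by
    rw [Set.disjoint_left]
    intro x hx hx2
    have := hKP x hx
    rw [show P x = 0 from hx2] at this
    exact lt_irrefl _ this
  obtain ⟨η, hη, hη0, hη1⟩ := exists_eta hK hZ hdis
  set ψ : ℂ → ℝ := fun x => φ x * η x with hψdef
  have hψ : ContDiff ℝ ∞ ψ := hφ.mul hη
  have hψc : HasCompactSupport ψ := hφc.mul_right
  have hψK : ∀ x ∈ K, ∀ᶠ y in 𝓝 x, ψ y = 0 := by
    intro x hx
    filter_upwards [hη0 x hx] with y hy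
    simp only [hψdef]
    rw [hy, mul_zero]
  have hψt : ∀ x ∈ K, x ∉ tsupport ψ := by
    intro x hx
    rw [notMem_tsupport_iff_eventuallyEq]
    exact hψK x hx
  have hψ2 : ContDiff ℝ 2 ψ := hψ.of_le (by norm_cast)
  have hlapK : ∀ x ∈ K, lap ψ x = 0 := by
    intro x hx
    by_contra h
    exact hψt x hx (lap_supp ψ h)
  have hlim := strip_mean (χ := χ) (P := P) (ψ := ψ) (S := w₁) (S₁ := w₁ / 2) (p := p)
    (by positivity) (by linarith) hχ hper hinj hP hψ (fun z h1 h2 => (hψK _ (hKχ z h1 h2)).self_of_nhds)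
    (by
      intro x hx
      rcases (hP0 x).lt_or_eq with h1 | h1
      · rcases hcov x h1 with h2 | ⟨z, h2, h3, h4⟩
        · rw [hlapK x h2, mul_zero]
        · exact absurd h4 (hx z h2 h3)
      · rw [← h1, zero_mul])
    ((hPc.mul (lap_cont hψ2)).integrable_of_hasCompactSupport (lap_compact hψc).mul_left)
  rw [hweak ψ hψ hψc hψt] at hlim
  have hae : ∫ x, ψ x ∂ν = ∫ x, φ x ∂ν := by
    refine integral_congr_ae ?_
    have h1 : ∀ᵐ x ∂ν, x ∉ {x | 0 < P x} := measure_eq_zero_iff_ae_notMem.1 hν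
    filter_upwards [h1] with x hx
    have h2 : P x = 0 := le_antisymm (not_lt.1 hx) (hP0 x)
    simp only [hψdef]
    rw [(hη1 x h2).self_of_nhds, mul_one]
  rw [hae] at hlim
  refine hlim.congr' ?_
  -- for small `c` the factor `η` is one
  set L : Set ℂ := tsupport φ ∩ {x | ∀ᶠ y in 𝓝 x, η y = 1}ᶜ with hL
  have hLc : IsCompact L := by
    have h1 : IsOpen {x | ∀ᶠ y in 𝓝 x, η y = 1} := isOpen_setOfPred_eventually_nhds
    exact hφc.isCompact.inter_right h1.isClosed_compl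
  have hLP : ∀ x ∈ L, 0 < P x := by
    intro x hx
    rcases (hP0 x).lt_or_eq with h1 | h1
    · exact h1
    · exact absurd (hη1 x h1.symm) hx.2
  obtain ⟨m, hm, hmL⟩ : ∃ m > 0, ∀ x ∈ L, m ≤ P x := by
    rcases L.eq_empty_or_nonempty with h1 | h1
    · exact ⟨1, one_pos, fun x hx => by rw [h1] at hx; exact absurd hx (notMem_empty x)⟩
    · obtain ⟨x₀, hx₀, hmin⟩ := hLc.exists_isMinOn h1 hPc.continuousOn
      exact ⟨P x₀, hLP x₀ hx₀, fun x hx => hmin hx⟩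
  have hev : ∀ᶠ c : ℝ in 𝓝[>] 0, c < min w₁ (m / p) :=
    mem_nhdsWithin_of_mem_nhds (Iio_mem_nhds (by positivity))
  filter_upwards [hev, self_mem_nhdsWithin] with c hc1 hc2
  have hc2 : 0 < c := hc2
  congr 1
  refine intervalIntegral.integral_congr fun θ _ => ?_
  have hre : ((c : ℂ) + θ * Complex.I).re = c := by simp
  have h1 := hP ((c : ℂ) + θ * Complex.I) (by rw [hre]; exact hc2)
    (by rw [hre]; exact hc1.trans_le (min_le_left _ _))
  rw [hre] at h1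
  have h2 : p * c < m := by
    have := hc1.trans_le (min_le_right _ _)
    rw [lt_div_iff₀ hp] at this
    linarith
  simp only [hψdef]
  by_cases h3 : χ ((c : ℂ) + θ * Complex.I) ∈ tsupport φ
  · have h4 : ∀ᶠ y in 𝓝 (χ ((c : ℂ) + θ * Complex.I)), η y = 1 := by
      by_contra h5
      have h6 := hmL _ ⟨h3, h5⟩
      rw [h1] at h6
      linarith
    rw [h4.self_of_nhds, mul_one]
  · rw [image_eq_zero_of_notMem_tsupport h3, zero_mul]

/-- Continuous test functions. -/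
theorem means_cont [IsFiniteMeasure ν] (hw : 0 < w₁) (hp : 0 < p)
    (hχ : DifferentiableOn ℂ χ {z : ℂ | 0 < z.re ∧ z.re < w₁})
    (hper : ∀ z : ℂ, 0 < z.re → z.re < w₁ → χ (z + 2 * Real.pi * Complex.I) = χ z)
    (hinj : ∀ z w : ℂ, 0 < z.re → z.re < w₁ → 0 < w.re → w.re < w₁ → χ z = χ w →
      ∃ n : ℤ, z = w + n * (2 * Real.pi * Complex.I))
    (hP : ∀ z : ℂ, 0 < z.re → z.re < w₁ → P (χ z) = p * z.re)
    (hPc : Continuous P) (hP0 : ∀ x, 0 ≤ P x) (hK : IsClosed K) (hKP : ∀ x ∈ K, 0 < P x)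
    (hcov : ∀ x, 0 < P x → x ∈ K ∨ ∃ z : ℂ, 0 < z.re ∧ z.re < w₁ ∧ χ z = x)
    (hKχ : ∀ z : ℂ, w₁ / 2 ≤ z.re → z.re < w₁ → χ z ∈ K)
    (hν : ν {x | 0 < P x} = 0)
    (hweak : ∀ ψ : ℂ → ℝ, ContDiff ℝ ∞ ψ → HasCompactSupport ψ → (∀ x ∈ K, x ∉ tsupport ψ) →
      ∫ x, P x * lap ψ x = ∫ x, ψ x ∂ν)
    {φ : ℂ → ℝ} (hφ : Continuous φ) (hφc : HasCompactSupport φ) :
    Tendsto (fun c : ℝ => p * ∫ θ in (0 : ℝ)..(2 * Real.pi), φ (χ ((c : ℂ) + θ * Complex.I)))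
      (𝓝[>] 0) (𝓝 (∫ x, φ x ∂ν)) := by
  rw [Metric.tendsto_nhds]
  intro ε hε
  have hpi := Real.two_pi_pos
  set C : ℝ := p * (2 * Real.pi) + ν.real univ + 1 with hC
  have hC0 : 0 < C := by positivity
  set e : ℝ := ε / (3 * C) with he
  have he0 : 0 < e := by positivity
  have heC : e * C = ε / 3 := by rw [he]; field_simp
  obtain ⟨f, hf, hfe, hfs⟩ := hφ.exists_contDiff_approx (E := ℂ) (F := ℝ) ⊤
    (continuous_const (y := e)) (fun _ => he0)
  have hfc : HasCompactSupport f := hφc.mono hfs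
  have hlim := means_smooth hw hp hχ hper hinj hP hPc hP0 hK hKP hcov hKχ hν hweak
    (φ := f) (hf.of_le le_rfl) hfc
  rw [Metric.tendsto_nhds] at hlim
  have h2 : dist (∫ x, f x ∂ν) (∫ x, φ x ∂ν) ≤ e * ν.real univ := by
    rw [dist_eq_norm, ← integral_sub (hf.continuous.integrable_of_hasCompactSupport hfc)
      (hφ.integrable_of_hasCompactSupport hφc)]
    refine (norm_integral_le_of_norm_le_const (C := e) (Eventually.of_forall fun x => ?_))
    rw [← dist_eq_norm]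
    exact (hfe x).le
  have hev : ∀ᶠ c : ℝ in 𝓝[>] 0, c < w₁ := mem_nhdsWithin_of_mem_nhds (Iio_mem_nhds hw)
  filter_upwards [hlim (ε / 3) (by positivity), hev, self_mem_nhdsWithin] with c hc hc1 hc2
  have hc2 : 0 < c := hc2
  have hcont : ∀ u : ℂ → ℝ, Continuous u → Continuous fun θ : ℝ => u (χ ((c : ℂ) + θ * Complex.I)) := by
    intro u hu
    refine hu.comp ?_
    rw [continuous_iff_continuousAt]
    intro θ
    have h3 : ContinuousAt χ ((c : ℂ) + θ * Complex.I) := by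
      refine (hχ.differentiableAt ((isOpen_strip 0 w₁).mem_nhds ?_)).continuousAt
      constructor
      · simpa using hc2
      · simpa using hc1
    have h4 : ContinuousAt (fun θ : ℝ => (c : ℂ) + θ * Complex.I) θ := by fun_prop
    exact ContinuousAt.comp (f := fun θ : ℝ => (c : ℂ) + θ * Complex.I) h3 h4
  have h3 : dist (p * ∫ θ in (0 : ℝ)..(2 * Real.pi), φ (χ ((c : ℂ) + θ * Complex.I)))
      (p * ∫ θ in (0 : ℝ)..(2 * Real.pi), f (χ ((c : ℂ) + θ * Complex.I))) ≤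
      e * (p * (2 * Real.pi)) := by
    rw [dist_eq_norm, ← mul_sub, ← intervalIntegral.integral_sub
      ((hcont φ hφ).intervalIntegrable _ _) ((hcont f hf.continuous).intervalIntegrable _ _),
      norm_mul, Real.norm_of_nonneg hp.le]
    have h4 := intervalIntegral.norm_integral_le_of_norm_le_const (a := 0) (b := 2 * Real.pi)
      (C := e) (f := fun θ : ℝ => φ (χ ((c : ℂ) + θ * Complex.I)) - f (χ ((c : ℂ) + θ * Complex.I)))
      (fun θ _ => by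
        rw [← dist_eq_norm, dist_comm]
        exact (hfe _).le)
    rw [sub_zero, abs_of_pos hpi] at h4
    calc p * ‖∫ θ in (0 : ℝ)..(2 * Real.pi), (φ (χ ((c : ℂ) + θ * Complex.I)) -
          f (χ ((c : ℂ) + θ * Complex.I)))‖ ≤ p * (e * (2 * Real.pi)) :=
          mul_le_mul_of_nonneg_left h4 hp.le
      _ = e * (p * (2 * Real.pi)) := by ring
  have h4 : e * (p * (2 * Real.pi)) + e * ν.real univ ≤ ε / 3 := by
    rw [← heC, hC]
    have : 0 < e := he0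
    nlinarith
  calc dist (p * ∫ θ in (0 : ℝ)..(2 * Real.pi), φ (χ ((c : ℂ) + θ * Complex.I))) (∫ x, φ x ∂ν)
      ≤ dist (p * ∫ θ in (0 : ℝ)..(2 * Real.pi), φ (χ ((c : ℂ) + θ * Complex.I)))
          (p * ∫ θ in (0 : ℝ)..(2 * Real.pi), f (χ ((c : ℂ) + θ * Complex.I))) +
        dist (p * ∫ θ in (0 : ℝ)..(2 * Real.pi), f (χ ((c : ℂ) + θ * Complex.I))) (∫ x, f x ∂ν) +
        dist (∫ x, f x ∂ν) (∫ x, φ x ∂ν) := dist_triangle4 _ _ _ _
    _ < ε := by linarith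

/-- The constant. -/
theorem means_const [IsFiniteMeasure ν] (hw : 0 < w₁) (hp : 0 < p)
    (hχ : DifferentiableOn ℂ χ {z : ℂ | 0 < z.re ∧ z.re < w₁})
    (hper : ∀ z : ℂ, 0 < z.re → z.re < w₁ → χ (z + 2 * Real.pi * Complex.I) = χ z)
    (hinj : ∀ z w : ℂ, 0 < z.re → z.re < w₁ → 0 < w.re → w.re < w₁ → χ z = χ w →
      ∃ n : ℤ, z = w + n * (2 * Real.pi * Complex.I))
    (hP : ∀ z : ℂ, 0 < z.re → z.re < w₁ → P (χ z) = p * z.re)
    (hPc : Continuous P) (hP0 : ∀ x, 0 ≤ P x) (hK : IsClosed K) (hKP : ∀ x ∈ K, 0 < P x)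
    (hcov : ∀ x, 0 < P x → x ∈ K ∨ ∃ z : ℂ, 0 < z.re ∧ z.re < w₁ ∧ χ z = x)
    (hKχ : ∀ z : ℂ, w₁ / 2 ≤ z.re → z.re < w₁ → χ z ∈ K)
    (hν : ν {x | 0 < P x} = 0)
    (hweak : ∀ ψ : ℂ → ℝ, ContDiff ℝ ∞ ψ → HasCompactSupport ψ → (∀ x ∈ K, x ∉ tsupport ψ) →
      ∫ x, P x * lap ψ x = ∫ x, ψ x ∂ν)
    {R : ℝ} (hR : ∀ z : ℂ, 0 < z.re → z.re < w₁ → ‖χ z‖ ≤ R) (hνR : ν (closedBall 0 R)ᶜ = 0) :
    p * (2 * Real.pi) = ν.real univ := by
  -- a continuous function with compact support which is one on the ball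
  set φ : ℂ → ℝ := fun x => max 0 (min 1 (R + 2 - ‖x‖)) with hφ
  have hφc : Continuous φ := by fun_prop
  have hφ1 : ∀ x : ℂ, ‖x‖ ≤ R → φ x = 1 := by
    intro x hx
    simp only [hφ]
    rw [min_eq_left (by linarith), max_eq_right zero_le_one]
  have hφs : HasCompactSupport φ := by
    refine HasCompactSupport.intro (isCompact_closedBall (0 : ℂ) (R + 2)) fun x hx => ?_
    rw [mem_closedBall, dist_zero_right] at hx
    push Not at hx
    simp only [hφ]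
    exact max_eq_left ((min_le_right _ _).trans (by linarith))
  have hlim := means_cont hw hp hχ hper hinj hP hPc hP0 hK hKP hcov hKχ hν hweak hφc hφs
  have h1 : ∫ x, φ x ∂ν = ν.real univ := by
    have h2 : ∀ᵐ x ∂ν, x ∉ (closedBall (0 : ℂ) R)ᶜ := measure_eq_zero_iff_ae_notMem.1 hνR
    have h3 : ∫ x, φ x ∂ν = ∫ _, (1 : ℝ) ∂ν := by
      refine integral_congr_ae ?_
      filter_upwards [h2] with x hx
      rw [notMem_compl_iff, mem_closedBall, dist_zero_right] at hx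
      exact hφ1 x hx
    rw [h3, integral_const, smul_eq_mul, mul_one]
  rw [h1] at hlim
  have hev : ∀ᶠ c : ℝ in 𝓝[>] 0, c < w₁ := mem_nhdsWithin_of_mem_nhds (Iio_mem_nhds hw)
  have h4 : (fun c : ℝ => p * ∫ θ in (0 : ℝ)..(2 * Real.pi), φ (χ ((c : ℂ) + θ * Complex.I)))
      =ᶠ[𝓝[>] 0] fun _ => p * (2 * Real.pi) := by
    filter_upwards [hev, self_mem_nhdsWithin] with c hc1 hc2
    have hc2 : 0 < c := hc2
    have h5 : ∀ θ : ℝ, φ (χ ((c : ℂ) + θ * Complex.I)) = 1 := fun θ =>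
      hφ1 _ (hR _ (by simpa using hc2) (by simpa using hc1))
    simp only [h5]
    simp
  exact tendsto_nhds_unique (tendsto_const_nhds.congr' h4.symm) hlim

end

end Pool.Agent.FB018
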