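import Mathlib

/-!
# FB, block P-RMT: pushing a pole to infinity

If `W` is open, connected, disjoint from the open bounded set `V`, and contains a point outside of a
disc which contains `V`, then for every `ζ ∈ W` the function `1 / (z - ζ)` has a primitive on `V`.
-/

set_option autoImplicit false

open Topology Filter Set Metric

namespace Pool.Agent.FB018

/-- `1 / (z - ζ)` has a primitive on `V`. -/
def PPrim (V : Set ℂ) (ζ : ℂ) : Prop := ∃ P : ℂ → ℂ, ∀ z ∈ V, HasDerivAt P (1 / (z - ζ)) z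

/-- the quotient is in the slit plane -/
theorem ppole_slit {z ζ ζ' : ℂ} (h : ‖ζ - ζ'‖ < ‖z - ζ'‖) :
    (z - ζ) / (z - ζ') ∈ Complex.slitPlane := by
  have hne : z - ζ' ≠ 0 := by
    intro h0
    rw [h0, norm_zero] at h
    exact absurd h (not_lt.2 (norm_nonneg _))
  have h1 : (z - ζ) / (z - ζ') = 1 + (ζ' - ζ) / (z - ζ') := by
    field_simp
    ring
  rw [h1]
  apply Complex.mem_slitPlane_of_norm_lt_one
  rw [norm_div, norm_sub_rev, div_lt_one (norm_pos_iff.2 hne)]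
  exact h

theorem ppole_log {z ζ ζ' : ℂ} (hz : z ≠ ζ) (h : ‖ζ - ζ'‖ < ‖z - ζ'‖) :
    HasDerivAt (fun z => Complex.log ((z - ζ) / (z - ζ'))) (1 / (z - ζ) - 1 / (z - ζ')) z := by
  have hne : z - ζ' ≠ 0 := by
    intro h0
    rw [h0, norm_zero] at h
    exact absurd h (not_lt.2 (norm_nonneg _))
  have hne2 : z - ζ ≠ 0 := sub_ne_zero.2 hz
  have h1 : HasDerivAt (fun z => (z - ζ) / (z - ζ'))
      ((1 * (z - ζ') - (z - ζ) * 1) / (z - ζ') ^ 2) z :=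
    ((hasDerivAt_id z).sub_const ζ).div ((hasDerivAt_id z).sub_const ζ') hne
  have h2 := h1.clog (ppole_slit h)
  convert h2 using 1
  field_simp

theorem ppole_step {V : Set ℂ} {ζ ζ' : ℂ} (h : ∀ z ∈ V, z ≠ ζ ∧ ‖ζ - ζ'‖ < ‖z - ζ'‖)
    (hp : PPrim V ζ') : PPrim V ζ := by
  obtain ⟨P, hP⟩ := hp
  refine ⟨fun z => P z + Complex.log ((z - ζ) / (z - ζ')), fun z hz => ?_⟩
  have h1 := (hP z hz).add (ppole_log (h z hz).1 (h z hz).2)
  have e : 1 / (z - ζ') + (1 / (z - ζ) - 1 / (z - ζ')) = 1 / (z - ζ) := by ring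
  rw [e] at h1
  exact h1

theorem ppole_far {V : Set ℂ} {ζ : ℂ} (h : ∀ z ∈ V, ‖z‖ < ‖ζ‖) : PPrim V ζ := by
  refine ⟨fun z => Complex.log (1 - z / ζ), fun z hz => ?_⟩
  have h0 : ζ ≠ 0 := by
    intro h0
    have := h z hz
    rw [h0, norm_zero] at this
    exact absurd this (not_lt.2 (norm_nonneg _))
  have h1 : 1 - z / ζ ∈ Complex.slitPlane := by
    rw [sub_eq_add_neg]
    apply Complex.mem_slitPlane_of_norm_lt_one
    rw [norm_neg, norm_div, div_lt_one (norm_pos_iff.2 h0)]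
    exact h z hz
  have h2 : HasDerivAt (fun z : ℂ => 1 - z / ζ) (-(1 / ζ)) z := by
    have := ((hasDerivAt_id z).div_const ζ).const_sub 1
    simpa using this
  have h3 := h2.clog h1
  convert h3 using 1
  have h4 : z - ζ ≠ 0 := by
    intro h5
    have h6 := h z hz
    rw [sub_eq_zero.1 h5] at h6
    exact lt_irrefl _ h6
  have h5 : 1 - z / ζ ≠ 0 := Complex.slitPlane_ne_zero h1
  have h6 : ζ - z ≠ 0 := by
    intro h7
    exact h4 (by linear_combination -h7)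
  have h7 : 1 - z / ζ = (ζ - z) / ζ := by
    field_simp
  rw [h7]
  field_simp
  ring

/-- Pushing the pole. -/
theorem ppole {V W : Set ℂ} (hW : IsOpen W) (hWc : IsPreconnected W) (hd : Disjoint V W)
    {ζ₁ : ℂ} (h1 : ζ₁ ∈ W) (hfar : ∀ z ∈ V, ‖z‖ < ‖ζ₁‖) : ∀ ζ ∈ W, PPrim V ζ := by
  have hloc : ∀ ζ₀ ∈ W, ∃ δ > 0, ball ζ₀ δ ⊆ W ∧ ∀ ζ ∈ ball ζ₀ δ, ∀ ζ' ∈ ball ζ₀ δ,
      PPrim V ζ' → PPrim V ζ := by
    intro ζ₀ hζ₀
    obtain ⟨δ, hδ, hb⟩ := Metric.isOpen_iff.1 hW ζ₀ hζ₀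
    refine ⟨δ / 4, by positivity, (ball_subset_ball (by linarith)).trans hb, ?_⟩
    intro ζ hζ ζ' hζ' hp
    refine ppole_step (fun z hz => ?_) hp
    have hz0 : δ ≤ dist z ζ₀ := by
      by_contra hcon
      push Not at hcon
      exact disjoint_left.1 hd hz (hb hcon)
    rw [mem_ball] at hζ hζ'
    have e1 := dist_triangle z ζ ζ₀
    have e2 := dist_triangle z ζ' ζ₀
    have e3 := dist_triangle ζ ζ₀ ζ'
    rw [dist_comm ζ₀ ζ'] at e3
    refine ⟨?_, ?_⟩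
    · rintro rfl
      rw [dist_self] at e1
      linarith
    · rw [← dist_eq_norm, ← dist_eq_norm]
      linarith
  have hu : IsOpen {ζ | ζ ∈ W ∧ PPrim V ζ} := by
    rw [Metric.isOpen_iff]
    rintro ζ ⟨hζ, hp⟩
    obtain ⟨δ, hδ, hb, h⟩ := hloc ζ hζ
    exact ⟨δ, hδ, fun x hx => ⟨hb hx, h x hx ζ (mem_ball_self hδ) hp⟩⟩
  have hv : IsOpen {ζ | ζ ∈ W ∧ ¬ PPrim V ζ} := by
    rw [Metric.isOpen_iff]
    rintro ζ ⟨hζ, hp⟩
    obtain ⟨δ, hδ, hb, h⟩ := hloc ζ hζ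
    exact ⟨δ, hδ, fun x hx => ⟨hb hx, fun hp' => hp (h ζ (mem_ball_self hδ) x hx hp')⟩⟩
  rcases isPreconnected_iff_subset_of_disjoint.1 hWc _ _ hu hv (fun ζ hζ => by
      by_cases h : PPrim V ζ
      · exact Or.inl ⟨hζ, h⟩
      · exact Or.inr ⟨hζ, h⟩) (by
      rw [eq_empty_iff_forall_notMem]
      rintro ζ ⟨-, h, h'⟩
      exact h'.2 h.2) with h | h
  · exact fun ζ hζ => (h hζ).2
  · exact absurd (ppole_far hfar) (h h1).2

end Pool.Agent.FB018
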