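import Pool.Agent.Lib.MP_018119_an_FB.PPole
import Pool.Agent.Lib.MP_099f24_an.EA.Cauchy

/-!
# FB, block P-RMT: primitives of holomorphic functions on domains with connected complement
-/

set_option autoImplicit false

open Topology Filter Set Metric MeasureTheory
open scoped ContDiff Manifold

namespace Pool.Agent.FB018

open Pool.Agent.MP099f24

/-- the normalised primitive of `1 / (z - ζ)` on a connected open set is continuous in `ζ` -/
theorem pprim_cont {V W : Set ℂ} (hV : IsOpen V) (hVc : IsPreconnected V) {z₀ : ℂ} (hz₀ : z₀ ∈ V)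
    (hW : IsOpen W) (hd : Disjoint V W) {P : ℂ → ℂ → ℂ}
    (hP : ∀ ζ ∈ W, ∀ z ∈ V, HasDerivAt (P ζ) (1 / (z - ζ)) z) {z : ℂ} (hz : z ∈ V) {ζ₀ : ℂ}
    (hζ₀ : ζ₀ ∈ W) : ContinuousAt (fun ζ => P ζ z - P ζ z₀) ζ₀ := by
  obtain ⟨δ, hδ, hb⟩ := Metric.isOpen_iff.1 hW ζ₀ hζ₀
  have hne : ∀ x ∈ V, δ ≤ dist x ζ₀ := by
    intro x hx
    by_contra hcon
    push Not at hcon
    exact disjoint_left.1 hd hx (hb hcon)
  have key : ∀ ζ ∈ ball ζ₀ δ, ∀ x ∈ V, P ζ x - P ζ z₀ = P ζ₀ x - P ζ₀ z₀ +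
      (Complex.log ((x - ζ) / (x - ζ₀)) - Complex.log ((z₀ - ζ) / (z₀ - ζ₀))) := by
    intro ζ hζ x hx
    have hlog : ∀ y ∈ V, HasDerivAt (fun z => Complex.log ((z - ζ) / (z - ζ₀)))
        (1 / (y - ζ) - 1 / (y - ζ₀)) y := by
      intro y hy
      refine ppole_log ?_ ?_
      · rintro rfl
        exact disjoint_left.1 hd hy (hb hζ)
      · rw [← dist_eq_norm, ← dist_eq_norm]
        exact (mem_ball.1 hζ).trans_le (hne y hy)
    have h1 : ∀ y ∈ V, HasDerivAt (fun y => P ζ₀ y - P ζ₀ z₀ +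
        (Complex.log ((y - ζ) / (y - ζ₀)) - Complex.log ((z₀ - ζ) / (z₀ - ζ₀))))
        (1 / (y - ζ)) y := by
      intro y hy
      have h2 := ((hP ζ₀ hζ₀ y hy).sub_const (P ζ₀ z₀)).add
        ((hlog y hy).sub_const (Complex.log ((z₀ - ζ) / (z₀ - ζ₀))))
      have e : 1 / (y - ζ₀) + (1 / (y - ζ) - 1 / (y - ζ₀)) = 1 / (y - ζ) := by ring
      rw [e] at h2
      exact h2
    have h3 : ∀ y ∈ V, HasDerivAt (fun y => P ζ y - P ζ z₀) (1 / (y - ζ)) y := fun y hy =>
      (hP ζ (hb hζ) y hy).sub_const _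
    have h4 := hV.eqOn_of_deriv_eq hVc
      (fun y hy => (h3 y hy).differentiableAt.differentiableWithinAt)
      (fun y hy => (h1 y hy).differentiableAt.differentiableWithinAt)
      (fun y hy => by rw [(h3 y hy).deriv, (h1 y hy).deriv]) hz₀ (by simp)
    exact h4 hx
  have hc : ∀ x ∈ V, ContinuousAt (fun ζ => Complex.log ((x - ζ) / (x - ζ₀))) ζ₀ := by
    intro x hx
    have h0 : x - ζ₀ ≠ 0 := by
      intro h
      have := hne x hx
      rw [sub_eq_zero.1 h, dist_self] at this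
      linarith
    refine ContinuousAt.clog ?_ ?_
    · exact (continuousAt_const.sub continuousAt_id).div_const _
    · rw [div_self h0]
      exact Complex.one_mem_slitPlane
  have h1 : ContinuousAt (fun ζ => P ζ₀ z - P ζ₀ z₀ +
      (Complex.log ((z - ζ) / (z - ζ₀)) - Complex.log ((z₀ - ζ) / (z₀ - ζ₀)))) ζ₀ :=
    continuousAt_const.add ((hc z hz).sub (hc z₀ hz₀))
  refine h1.congr ?_
  filter_upwards [ball_mem_nhds ζ₀ hδ] with ζ hζ
  exact (key ζ hζ z hz).symm

/-- cut-off function -/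
theorem exists_cut {K U : Set ℂ} (hK : IsCompact K) (hU : IsOpen U) (hKU : K ⊆ U) :
    ∃ (χ : ℂ → ℝ) (L : Set ℂ), IsCompact L ∧ L ⊆ U ∧ ContDiff ℝ ∞ χ ∧
      (∀ᶠ x in 𝓝ˢ K, χ x = 1) ∧ ∀ x ∉ L, χ x = 0 := by
  obtain ⟨L, hL, hKL, hLU⟩ := exists_compact_between hK hU hKU
  obtain ⟨f, h1, h2, -⟩ := exists_contMDiffMap_one_nhds_of_subset_interior (n := (⊤ : ℕ∞))
    𝓘(ℝ, ℂ) hK.isClosed hKL
  exact ⟨f, L, hL, hLU, f.contMDiff.contDiff, h1, h2⟩

/-- A holomorphic function on a neighbourhood of the compact set `K = Wᶜ`, `W` connected, has a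
primitive on every connected open subset of `K`. -/
theorem prim_compact {V W U : Set ℂ} (hV : IsOpen V) (hVc : IsPreconnected V) {z₀ : ℂ}
    (hz₀ : z₀ ∈ V) (hWc : IsPreconnected W) (hVW : Disjoint V W)
    (hK : IsCompact Wᶜ) (hU : IsOpen U) (hKU : Wᶜ ⊆ U) {h : ℂ → ℂ} (hh : DifferentiableOn ℂ h U) :
    ∃ P : ℂ → ℂ, ∀ z ∈ V, HasDerivAt P (h z) z := by
  classical
  have hW : IsOpen W := by
    rw [← isClosed_compl_iff]
    exact hK.isClosed
  have hVK : V ⊆ Wᶜ := fun z hz hzW => disjoint_left.1 hVW hz hzW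
  -- the far point
  obtain ⟨R, hR⟩ := hK.isBounded.subset_closedBall 0
  have hR' : ∀ z ∈ Wᶜ, ‖z‖ ≤ R := fun z hz => by simpa using hR hz
  have hR0 : 0 ≤ R := (norm_nonneg z₀).trans (hR' z₀ (hVK hz₀))
  have hnorm : ‖((R + 1 : ℝ) : ℂ)‖ = R + 1 := by
    rw [Complex.norm_real, Real.norm_of_nonneg (by linarith)]
  have hfarW : ((R + 1 : ℝ) : ℂ) ∈ W := by
    by_contra hcon
    have := hR' _ hcon
    rw [hnorm] at this
    linarith
  have hpole := ppole hW hWc hVW hfarW (fun z hz => by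
    rw [hnorm]
    have := hR' z (hVK hz)
    linarith)
  choose! P hP using hpole
  -- the cut-off
  obtain ⟨χ, L, hL, hLU, hχ, hχ1, hχ0⟩ := exists_cut hK hU hKU
  set F : ℂ → ℂ := fun z => (χ z : ℂ) * h z with hF
  have hFs : ContDiff ℝ ∞ F := by
    rw [contDiff_iff_contDiffAt]
    intro z
    by_cases hz : z ∈ U
    · have h1 : ContDiffAt ℝ ∞ h z := by
        have h2 : AnalyticAt ℂ h z := hh.analyticAt (hU.mem_nhds hz)
        exact (h2.contDiffAt (n := ∞)).restrict_scalars ℝ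
      have h3 : ContDiffAt ℝ ∞ (fun z => (χ z : ℂ)) z :=
        (Complex.ofRealCLM.contDiff.comp hχ).contDiffAt
      exact h3.mul h1
    · have hzL : z ∉ L := fun h => hz (hLU h)
      have h1 : ∀ᶠ x in 𝓝 z, F x = 0 := by
        filter_upwards [hL.isClosed.isOpen_compl.mem_nhds hzL] with x hx
        simp [hF, hχ0 x hx]
      exact contDiffAt_const.congr_of_eventuallyEq h1
  have hFc : HasCompactSupport F := by
    refine HasCompactSupport.intro hL fun z hz => ?_
    simp [hF, hχ0 z hz]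
  set m : ℂ → ℂ := dbar F with hm
  have hfd : Continuous (fderiv ℝ F) := hFs.continuous_fderiv (by simp)
  have hmc : Continuous m := by
    have h1 : Continuous fun x => (fderiv ℝ F x 1 + Complex.I * fderiv ℝ F x Complex.I) / 2 := by
      fun_prop
    exact h1
  have hms : HasCompactSupport m := by
    refine HasCompactSupport.intro hFc fun z hz => ?_
    have h1 : fderiv ℝ F z = 0 := by
      by_contra h2
      exact hz (support_fderiv_subset ℝ h2)
    simp [hm, dbar, h1]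
  -- `F = h` near `K`, so `m = 0` near `K`
  have hFh : ∀ z ∈ Wᶜ, ∀ᶠ x in 𝓝 z, F x = h x := by
    intro z hz
    have h1 := hχ1
    rw [eventually_nhdsSet_iff_forall] at h1
    filter_upwards [h1 z hz] with x hx
    simp [hF, hx]
  have hm0 : ∀ z ∈ Wᶜ, ∀ᶠ x in 𝓝 z, m x = 0 := by
    intro z hz
    have h1 : ∀ᶠ x in 𝓝 z, F =ᶠ[𝓝 x] h := (hFh z hz).eventually_nhds
    have h2 : ∀ᶠ x in 𝓝 z, x ∈ U := hU.mem_nhds (hKU hz)
    filter_upwards [h1, h2] with x hx hxU
    have h3 : fderiv ℝ F x = fderiv ℝ h x := hx.fderiv_eq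
    have h4 : DifferentiableAt ℂ h x := hh.differentiableAt (hU.mem_nhds hxU)
    have h5 : fderiv ℝ h x = (fderiv ℂ h x).restrictScalars ℝ := h4.fderiv_restrictScalars ℝ
    rw [hm, dbar, h3, h5]
    simp only [ContinuousLinearMap.coe_restrictScalars']
    have h6 : fderiv ℂ h x Complex.I = Complex.I * fderiv ℂ h x 1 := by
      have := (fderiv ℂ h x).map_smul Complex.I 1
      rw [smul_eq_mul, mul_one, smul_eq_mul] at this
      exact this
    rw [h6, ← mul_assoc, Complex.I_mul_I]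
    ring
  have hmW : ∀ ζ, m ζ ≠ 0 → ζ ∈ W := by
    intro ζ hζ
    by_contra hcon
    exact hζ (hm0 ζ hcon).self_of_nhds
  -- Pompeiu
  have hpom : ∀ z, ∫ ζ, eacauchy_K (z - ζ) * m ζ = F z := by
    intro z
    rw [← eacauchy_pompeiu hFs hFc z]
    have := integral_sub_left_eq_self (fun w => eacauchy_K w * m (z - w)) volume z
    rw [← this]
    refine integral_congr_ae (ae_of_all _ fun ζ => ?_)
    simp
  -- the kernel
  set Q : ℂ → ℂ → ℂ := fun z ζ => (Real.pi : ℂ)⁻¹ * (m ζ * (P ζ z - P ζ z₀)) with hQ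
  have hQc : ∀ z ∈ V, Continuous (Q z) := by
    intro z hz
    rw [continuous_iff_continuousAt]
    intro ζ
    by_cases hζ : ζ ∈ W
    · exact continuousAt_const.mul (hmc.continuousAt.mul
        (pprim_cont hV hVc hz₀ hW hVW hP hz hζ))
    · have h1 : ∀ᶠ x in 𝓝 ζ, Q z x = 0 := by
        filter_upwards [hm0 ζ hζ] with x hx
        simp [hQ, hx]
      have h2 : Q z ζ = 0 := h1.self_of_nhds
      have h3 : ContinuousAt (fun _ : ℂ => (0 : ℂ)) ζ := continuousAt_const
      exact h3.congr (by filter_upwards [h1] with x hx; exact hx.symm)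
  have hQs : ∀ z, HasCompactSupport (Q z) := by
    intro z
    refine HasCompactSupport.intro hms fun ζ hζ => ?_
    have h1 : m ζ = 0 := image_eq_zero_of_notMem_tsupport hζ
    simp [hQ, h1]
  refine ⟨fun z => ∫ ζ, Q z ζ, fun z hz => ?_⟩
  obtain ⟨r, hr, hrV⟩ := Metric.isOpen_iff.1 hV z hz
  have hsub : ball z (r / 2) ⊆ V := (ball_subset_ball (by linarith)).trans hrV
  have hdist : ∀ x ∈ ball z (r / 2), ∀ ζ ∈ W, r / 2 ≤ ‖x - ζ‖ := by
    intro x hx ζ hζ
    by_contra hcon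
    push Not at hcon
    have h1 : dist ζ z < r := by
      have h2 := dist_triangle ζ x z
      rw [mem_ball] at hx
      rw [← dist_eq_norm, dist_comm] at hcon
      linarith
    exact disjoint_left.1 hVW (hrV h1) hζ
  have hmain := hasDerivAt_integral_of_dominated_loc_of_deriv_le (μ := volume)
    (F := Q) (F' := fun x ζ => (Real.pi : ℂ)⁻¹ * (m ζ * (1 / (x - ζ)))) (x₀ := z)
    (bound := fun ζ => (Real.pi)⁻¹ * (‖m ζ‖ * (2 / r))) (s := ball z (r / 2))
    (ball_mem_nhds z (by positivity)) ?_ ?_ ?_ ?_ ?_ ?_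
  · have h1 := hmain.2
    have h2 : ∫ ζ, (Real.pi : ℂ)⁻¹ * (m ζ * (1 / (z - ζ))) = h z := by
      have h3 := hpom z
      rw [(hFh z (hVK hz)).self_of_nhds] at h3
      rw [← h3]
      refine integral_congr_ae (ae_of_all _ fun ζ => ?_)
      simp only [eacauchy_K]
      rw [mul_inv]
      ring
    rw [h2] at h1
    exact h1
  · filter_upwards [hV.mem_nhds hz] with x hx
    exact (hQc x hx).aestronglyMeasurable
  · exact (hQc z hz).integrable_of_hasCompactSupport (hQs z)
  · apply Measurable.aestronglyMeasurable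
    have := hmc.measurable
    fun_prop
  · refine ae_of_all _ fun ζ x hx => ?_
    by_cases hζ : m ζ = 0
    · simp [hζ]
    · have h1 := hdist x hx ζ (hmW ζ hζ)
      rw [norm_mul, norm_mul, norm_inv, Complex.norm_real, Real.norm_of_nonneg Real.pi_pos.le,
        norm_div, norm_one]
      have h2 : 1 / ‖x - ζ‖ ≤ 2 / r := by
        rw [div_le_div_iff₀ (by linarith) hr]
        linarith
      have := Real.pi_pos
      gcongr
  · have h1 : Integrable (fun ζ => ‖m ζ‖) := (hmc.integrable_of_hasCompactSupport hms).norm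
    exact (h1.mul_const _).const_mul _
  · refine ae_of_all _ fun ζ x hx => ?_
    by_cases hζ : m ζ = 0
    · simp only [hQ, hζ, zero_mul, mul_zero]
      exact hasDerivAt_const x 0
    · have h1 := (hP ζ (hmW ζ hζ) x (hsub hx)).sub_const (P ζ z₀)
      exact (h1.const_mul (m ζ)).const_mul _

end Pool.Agent.FB018
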