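import Pool.Agent.Lib.MP_018119_an_FB.Defs

/-!
# FB, block P-RMT: the outer phase in the coordinate `v = 1 / w`
-/

set_option autoImplicit false

open Topology Filter Set Metric

namespace Pool.Agent.FB018

theorem vdom_punct (L : ℂ) (ρ : ℝ) : IsPreconnected (ball L ρ \ {L}) := by
  have h : (fun q : ℝ × ℝ => L + q.1 * Complex.exp (q.2 * Complex.I)) ''
      (Ioo 0 ρ ×ˢ (univ : Set ℝ)) = ball L ρ \ {L} := by
    ext w
    constructor
    · rintro ⟨⟨s, θ⟩, ⟨⟨hs0, hs⟩, -⟩, rfl⟩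
      have hs0' : (0 : ℝ) < s := hs0
      have hn : ‖(s : ℂ) * Complex.exp (θ * Complex.I)‖ = s := by
        rw [norm_mul, Complex.norm_exp_ofReal_mul_I, mul_one, Complex.norm_real,
          Real.norm_of_nonneg hs0'.le]
      refine ⟨?_, ?_⟩
      · change dist (L + (s : ℂ) * Complex.exp (θ * Complex.I)) L < ρ
        rw [dist_eq_norm, add_sub_cancel_left, hn]
        exact hs
      · intro h1
        have h2 : L + (s : ℂ) * Complex.exp (θ * Complex.I) = L := h1
        have h3 : (s : ℂ) * Complex.exp (θ * Complex.I) = 0 := by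
          rwa [add_eq_left] at h2
        rw [h3, norm_zero] at hn
        exact hs0'.ne hn
    · rintro ⟨h1, h2⟩
      have h2' : w ≠ L := h2
      refine ⟨(‖w - L‖, Complex.arg (w - L)), ⟨⟨norm_pos_iff.2 (sub_ne_zero.2 h2'), ?_⟩,
        mem_univ _⟩, ?_⟩
      · rw [← dist_eq_norm]
        exact h1
      · change L + ((‖w - L‖ : ℝ) : ℂ) * Complex.exp (Complex.arg (w - L) * Complex.I) = w
        rw [Complex.norm_mul_exp_arg_mul_I]
        ring
  rw [← h]
  refine (isPreconnected_Ioo.prod isPreconnected_univ).image _ ?_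
  fun_prop

/-- Removing an interior point from a connected set of the plane. -/
theorem preconnected_diff_point {S : Set ℂ} (hS : IsPreconnected S) {L : ℂ} {ρ : ℝ} (hρ : 0 < ρ)
    (hb : ball L ρ ⊆ S) : IsPreconnected (S \ {L}) := by
  intro u v hu hv hcov hue hve
  by_contra hcon
  rw [not_nonempty_iff_eq_empty] at hcon
  have hdis : ∀ x ∈ S \ {L}, x ∈ u → x ∈ v → False := by
    intro x hx h1 h2
    have : x ∈ (S \ {L}) ∩ (u ∩ v) := ⟨hx, h1, h2⟩
    rw [hcon] at this
    exact this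
  have hsub : ball L ρ \ {L} ⊆ S \ {L} := fun x hx => ⟨hb hx.1, hx.2⟩
  -- the punctured ball lies in one of the two sets
  have hone : ball L ρ \ {L} ⊆ u ∨ ball L ρ \ {L} ⊆ v := by
    refine isPreconnected_iff_subset_of_disjoint.1 (vdom_punct L ρ) u v hu hv
      (hsub.trans hcov) ?_
    rw [eq_empty_iff_forall_notMem]
    rintro x ⟨hx, h1, h2⟩
    exact hdis x (hsub hx) h1 h2
  have key : ∀ u v : Set ℂ, IsOpen u → IsOpen v → S \ {L} ⊆ u ∪ v →
      (S \ {L} ∩ v).Nonempty → ball L ρ \ {L} ⊆ u → (∀ x ∈ S \ {L}, x ∈ u → x ∈ v → False) →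
      False := by
    intro u v hu hv hcov hve hbu hdis
    obtain ⟨y, hy, hyv⟩ := hve
    have hU1 : IsOpen ((u ∪ ball L ρ) : Set ℂ) := hu.union isOpen_ball
    have hV1 : IsOpen (v \ {L}) := hv.sdiff isClosed_singleton
    obtain ⟨x, hx, hxu, hxv⟩ := hS (u ∪ ball L ρ) (v \ {L}) hU1 hV1 (by
      intro x hx
      by_cases hxL : x = L
      · left; right
        rw [hxL]
        exact mem_ball_self hρ
      · rcases hcov ⟨hx, hxL⟩ with h | h
        · exact Or.inl (Or.inl h)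
        · exact Or.inr ⟨h, hxL⟩) ⟨L, hb (mem_ball_self hρ), Or.inr (mem_ball_self hρ)⟩
      ⟨y, hy.1, hyv, hy.2⟩
    have hxL : x ≠ L := hxv.2
    rcases hxu with h | h
    · exact hdis x ⟨hx, hxL⟩ h hxv.1
    · exact hdis x ⟨hx, hxL⟩ (hbu ⟨h, hxL⟩) hxv.1
  rcases hone with h | h
  · exact key u v hu hv hcov hve h hdis
  · exact key v u hv hu (by rwa [union_comm]) hue h fun x hx h1 h2 => hdis x hx h2 h1

/-- The domain in the coordinate `v = 1 / w`. -/
def invDom (D : Set ℂ) : Set ℂ := insert 0 {v | v⁻¹ ∈ D}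

theorem invDom_mem {D : Set ℂ} {v : ℂ} : v ∈ invDom D ↔ v = 0 ∨ v⁻¹ ∈ D :=
  Iff.rfl

theorem invDom_open {D : Set ℂ} (hD : IsOpen D) {R : ℝ} (hR : ∀ w : ℂ, R < ‖w‖ → w ∈ D) :
    IsOpen (invDom D) := by
  rw [isOpen_iff_mem_nhds]
  intro v hv
  by_cases hv0 : v = 0
  · subst hv0
    have hT : 0 < max R 0 + 1 := by
      have := le_max_right R 0
      linarith
    filter_upwards [ball_mem_nhds (0 : ℂ) (inv_pos.2 hT)] with x hx
    by_cases hx0 : x = 0
    · exact Or.inl hx0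
    · refine Or.inr (hR _ ?_)
      rw [norm_inv]
      rw [mem_ball_zero_iff] at hx
      have h1 := (lt_inv_comm₀ hT (norm_pos_iff.2 hx0)).2 hx
      have := le_max_left R 0
      linarith
  · rcases hv with h | h
    · exact absurd h hv0
    · have hc : ContinuousAt (fun v : ℂ => v⁻¹) v := continuousAt_inv₀ hv0
      filter_upwards [hc (hD.mem_nhds h)] with x hx
      exact Or.inr hx

theorem invDom_bounded {D : Set ℂ} {ρ : ℝ} (hρ : 0 < ρ) (hb : ∀ w ∈ D, ρ ≤ ‖w‖) :
    invDom D ⊆ closedBall 0 ρ⁻¹ := by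
  intro v hv
  rw [mem_closedBall_zero_iff]
  rcases hv with h | h
  · rw [h, norm_zero]
    positivity
  · have h1 := hb _ h
    rw [norm_inv] at h1
    have h2 : 0 < ‖v‖ := by
      by_contra hcon
      have h3 : ‖v‖ = 0 := le_antisymm (not_lt.1 hcon) (norm_nonneg _)
      rw [h3, inv_zero] at h1
      linarith
    exact (le_inv_comm₀ hρ h2).1 h1

theorem invDom_preconnected {D : Set ℂ} (hD : IsPreconnected D) (h0 : (0 : ℂ) ∉ D) {R : ℝ}
    (hR : ∀ w : ℂ, R < ‖w‖ → w ∈ D) : IsPreconnected (invDom D) := by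
  have h1 : (fun v : ℂ => v⁻¹) '' D = {v | v⁻¹ ∈ D} := by
    ext v
    constructor
    · rintro ⟨w, hw, rfl⟩
      show (w⁻¹)⁻¹ ∈ D
      rwa [inv_inv]
    · intro hv
      exact ⟨v⁻¹, hv, inv_inv v⟩
  have h2 : IsPreconnected {v : ℂ | v⁻¹ ∈ D} := by
    rw [← h1]
    refine hD.image _ fun w hw => ?_
    have hw0 : w ≠ 0 := fun h => h0 (h ▸ hw)
    exact (continuousAt_inv₀ hw0).continuousWithinAt
  refine h2.subset_closure (subset_insert _ _) ?_
  rintro v (hv | hv)
  · rw [hv]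
    have hT : 0 < max R 0 + 1 := by
      have := le_max_right R 0
      linarith
    rw [Metric.mem_closure_iff]
    intro ε hε
    set t : ℝ := min ((max R 0 + 1)⁻¹) (ε / 2) with ht
    have ht0 : 0 < t := lt_min (inv_pos.2 hT) (by positivity)
    refine ⟨(t : ℂ), hR _ ?_, ?_⟩
    · rw [norm_inv, Complex.norm_real, Real.norm_of_nonneg ht0.le]
      have h3 : max R 0 + 1 ≤ t⁻¹ := (le_inv_comm₀ hT ht0).2 (min_le_left _ _)
      have := le_max_left R 0
      linarith
    · rw [dist_zero_left, Complex.norm_real, Real.norm_of_nonneg ht0.le]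
      have := min_le_right ((max R 0 + 1)⁻¹) (ε / 2)
      linarith
  · exact subset_closure hv

theorem invDom_compl {D : Set ℂ} (hDc : IsPreconnected Dᶜ) {ρ : ℝ} (hρ : 0 < ρ)
    (hb : ball (0 : ℂ) ρ ⊆ Dᶜ) : IsPreconnected (invDom D)ᶜ := by
  have h0 := preconnected_diff_point hDc hρ hb
  have h1 : (invDom D)ᶜ = (fun v : ℂ => v⁻¹) '' (Dᶜ \ {0}) := by
    ext v
    constructor
    · intro hv
      have hv0 : v ≠ 0 := fun h => hv (Or.inl h)
      refine ⟨v⁻¹, ⟨fun h => hv (Or.inr h), ?_⟩, inv_inv v⟩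
      intro h
      exact inv_ne_zero hv0 h
    · rintro ⟨w, ⟨hw, hw0⟩, rfl⟩ hcon
      rcases hcon with h | h
      · exact inv_ne_zero (show w ≠ 0 from hw0) h
      · apply hw
        have h2 : (w⁻¹)⁻¹ ∈ D := h
        rwa [inv_inv] at h2
  rw [h1]
  refine h0.image _ fun w hw => ?_
  exact (continuousAt_inv₀ (show w ≠ 0 from hw.2)).continuousWithinAt

/-- the sup norm and the norm -/
theorem sn_le_norm (w : ℂ) : sn w ≤ ‖w‖ := max_le (Complex.abs_re_le_norm w)
  (Complex.abs_im_le_norm w)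

theorem norm_le_two_sn (w : ℂ) : ‖w‖ ≤ 2 * sn w := by
  have h1 := Complex.norm_le_abs_re_add_abs_im w
  have h2 : |w.re| ≤ sn w := le_max_left _ _
  have h3 : |w.im| ≤ sn w := le_max_right _ _
  linarith

/-- `B = 0` near `0`. -/
theorem TP.B_zero_near {F : ℂ ≃ₜ ℂ} {s r : ℝ} {A B : ℂ → ℝ} {T : MeasureTheory.Measure ℂ}
    (H : TP F s r A B T) : ∃ ρ > 0, ∀ w ∈ ball (0 : ℂ) ρ, B w = 0 := by
  have h1 : ∀ᶠ w in 𝓝 (0 : ℂ), sn (F.symm w) < s := by
    have h2 : F.symm 0 = 0 := by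
      have := F.symm_apply_apply 0
      rwa [H.F0] at this
    have h3 : Continuous fun w => sn (F.symm w) := by
      have h4 : Continuous sn := by
        unfold sn
        fun_prop
      exact h4.comp F.symm.continuous
    have h5 : sn (F.symm 0) < s := by
      rw [h2]
      simp [sn, H.s_pos]
    exact (isOpen_lt h3 continuous_const).mem_nhds h5
  obtain ⟨ρ, hρ, h⟩ := Metric.mem_nhds_iff.1 h1
  refine ⟨ρ, hρ, fun w hw => ?_⟩
  have h2 := H.A_one (F.symm w) (h hw).le
  have h3 := H.AB (F.symm w)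
  rw [h2, F.apply_symm_apply, one_mul] at h3
  exact h3

/-- The outer phase in the coordinate `v = 1 / w`: open, bounded, connected, with connected
complement. -/
theorem TP.vdom {F : ℂ ≃ₜ ℂ} {s r : ℝ} {A B : ℂ → ℝ} {T : MeasureTheory.Measure ℂ}
    (H : TP F s r A B T) (h1 : IsPreconnected {w | 0 < B w}) (h2 : IsPreconnected {w | B w = 0}) :
    IsOpen (invDom {w | 0 < B w}) ∧ Bornology.IsBounded (invDom {w | 0 < B w}) ∧
      IsPreconnected (invDom {w | 0 < B w}) ∧ IsPreconnected (invDom {w | 0 < B w})ᶜ ∧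
      (0 : ℂ) ∈ invDom {w | 0 < B w} := by
  obtain ⟨ρ, hρ, hB0⟩ := H.B_zero_near
  have hR : ∀ w : ℂ, 2 * r < ‖w‖ → w ∈ {w | 0 < B w} := by
    intro w hw
    have h3 := norm_le_two_sn w
    have h4 : r ≤ sn w := by linarith
    show 0 < B w
    rw [H.B_one w h4]
    exact one_pos
  have hopen : IsOpen {w | 0 < B w} := isOpen_lt continuous_const H.B_cont
  have hcompl : {w | 0 < B w}ᶜ = {w | B w = 0} := by
    ext w
    simp only [mem_compl_iff, mem_ofPred_eq, not_lt]
    exact ⟨fun h => le_antisymm h (H.B_nonneg w), fun h => h.le⟩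
  refine ⟨invDom_open hopen hR, isBounded_closedBall.subset (invDom_bounded hρ ?_),
    invDom_preconnected h1 ?_ hR, invDom_compl (by rwa [hcompl]) hρ ?_, Or.inl rfl⟩
  · intro w hw
    by_contra hcon
    push Not at hcon
    have h3 := hB0 w (by simpa using hcon)
    have h4 : 0 < B w := hw
    rw [h3] at h4
    exact lt_irrefl _ h4
  · intro h
    have h3 := hB0 0 (mem_ball_self hρ)
    have h4 : 0 < B 0 := h
    rw [h3] at h4
    exact lt_irrefl _ h4
  · intro w hw
    rw [hcompl]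
    exact hB0 w hw

end Pool.Agent.FB018
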