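import Pool.Agent.Lib.MP_018119_an_FB.PRmt
import Pool.Agent.Lib.MP_018119_an_FB.PVdom
import Pool.Agent.Lib.MP_018119_an_FB.PConn

/-!
# FB, block P-RMT: the Riemann maps of the two phases
-/

set_option autoImplicit false

open Topology Filter Set Metric

namespace Pool.Agent.FB018

variable {F : ℂ ≃ₜ ℂ} {s r : ℝ} {A B : ℂ → ℝ} {T : MeasureTheory.Measure ℂ}

/-- Riemann map `g` of the domain `U` with inverse `G`, `g 0 = z₀`. -/
structure RM (U : Set ℂ) (z₀ : ℂ) (g G : ℂ → ℂ) : Prop where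
  opn : IsOpen U
  bdd : Bornology.IsBounded U
  zero : g 0 = z₀
  hol : DifferentiableOn ℂ g (ball 0 1)
  maps : MapsTo g (ball 0 1) U
  inv_hol : DifferentiableOn ℂ G U
  inv_maps : MapsTo G U (ball 0 1)
  left : ∀ w ∈ ball (0 : ℂ) 1, G (g w) = w
  right : ∀ z ∈ U, g (G z) = z

theorem RM.inj {U : Set ℂ} {z₀ : ℂ} {g G : ℂ → ℂ} (h : RM U z₀ g G) : InjOn g (ball 0 1) := by
  intro x hx y hy hxy
  rw [← h.left x hx, ← h.left y hy, hxy]

theorem RM.image {U : Set ℂ} {z₀ : ℂ} {g G : ℂ → ℂ} (h : RM U z₀ g G) : g '' ball 0 1 = U := by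
  refine Subset.antisymm (image_subset_iff.2 h.maps) fun z hz => ?_
  exact ⟨G z, h.inv_maps hz, h.right z hz⟩

/-- The Riemann map is proper: compact subsets of `U` are left near the circle. -/
theorem RM.proper {U : Set ℂ} {z₀ : ℂ} {g G : ℂ → ℂ} (h : RM U z₀ g G) {C : Set ℂ}
    (hC : IsCompact C) (hCU : C ⊆ U) : ∃ ρ < 1, ∀ w ∈ ball (0 : ℂ) 1, ρ < ‖w‖ → g w ∉ C := by
  have h1 : IsCompact (G '' C) := hC.image_of_continuousOn (h.inv_hol.continuousOn.mono hCU)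
  rcases (G '' C).eq_empty_or_nonempty with he | hne
  · refine ⟨0, one_pos, fun w hw _ hwC => ?_⟩
    have : G (g w) ∈ G '' C := ⟨_, hwC, rfl⟩
    rw [he] at this
    exact this
  · obtain ⟨x, hx, hmax⟩ := h1.exists_isMaxOn hne continuous_norm.continuousOn
    obtain ⟨y, hy, rfl⟩ := hx
    refine ⟨‖G y‖, by simpa using h.inv_maps (hCU hy), fun w hw hlt hwC => ?_⟩
    have h2 : ‖G (g w)‖ ≤ ‖G y‖ := hmax ⟨_, hwC, rfl⟩
    rw [h.left w hw] at h2
    linarith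

theorem exists_RM {U : Set ℂ} (hU : IsOpen U) (hc : IsPreconnected U)
    (hb : Bornology.IsBounded U) (hcc : IsPreconnected Uᶜ) {z₀ : ℂ} (hz₀ : z₀ ∈ U) :
    ∃ g G : ℂ → ℂ, RM U z₀ g G := by
  obtain ⟨g, G, h1, h2, h3, h4, h5, h6, h7⟩ := rmt_of_compl hU hc hb hcc hz₀
  exact ⟨g, G, hU, hb, h1, h2, h3, h4, h5, h6, h7⟩

/-- The Riemann map of the inner phase. -/
theorem TP.exists_RM_A (H : TP F s r A B T) : ∃ g G : ℂ → ℂ, RM {z | 0 < A z} 0 g G := by
  refine exists_RM (isOpen_lt continuous_const H.A_cont) H.conn_A.isPreconnected H.bdd_A ?_ ?_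
  · rw [H.compl_A]
    exact H.conn_A0
  · show 0 < A 0
    rw [H.A_one 0 (by rw [sn_zero]; exact H.s_pos.le)]
    exact one_pos

/-- The Riemann map of the outer phase, in the coordinate `v = 1 / w`. -/
theorem TP.exists_RM_B (H : TP F s r A B T) :
    ∃ g G : ℂ → ℂ, RM (invDom {w | 0 < B w}) 0 g G := by
  obtain ⟨h1, h2, h3, h4, h5⟩ := H.vdom H.conn_B.isPreconnected H.conn_B0
  exact exists_RM h1 h3 h2 h4 h5

end Pool.Agent.FB018
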