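import Pool.Agent.Lib.MP_018119_an_FB.PPrim
import Pool.Agent.Lib.MP_40021b_an.Riemann

/-!
# FB, block P-RMT: the Riemann mapping theorem for bounded domains with connected complement
-/

set_option autoImplicit false

open Topology Filter Set Metric

namespace Pool.Agent.FB018

theorem isPreconnected_thickening' {s : Set ℂ} (hs : IsPreconnected s) {δ : ℝ} (hδ : 0 < δ) :
    IsPreconnected (thickening δ s) := by
  rcases s.eq_empty_or_nonempty with rfl | ⟨x₀, hx₀⟩
  · rw [thickening_empty]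
    exact isPreconnected_empty
  have h1 : thickening δ s = ⋃₀ {t | ∃ x ∈ s, t = s ∪ ball x δ} := by
    ext z
    rw [mem_thickening_iff, mem_sUnion]
    constructor
    · rintro ⟨x, hx, hzx⟩
      exact ⟨s ∪ ball x δ, ⟨x, hx, rfl⟩, Or.inr hzx⟩
    · rintro ⟨t, ⟨x, hx, rfl⟩, hz | hz⟩
      · exact ⟨z, hz, by rw [dist_self]; exact hδ⟩
      · exact ⟨x, hx, hz⟩
  rw [h1]
  refine isPreconnected_sUnion x₀ _ ?_ ?_
  · rintro t ⟨x, hx, rfl⟩
    exact Or.inl hx₀
  · rintro t ⟨x, hx, rfl⟩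
    exact hs.union x hx (mem_ball_self hδ) (convex_ball x δ).isPreconnected

/-- the sets of the exhaustion -/
def prmO (U : Set ℂ) (n : ℕ) : Set ℂ := (cthickening (1 / ((n : ℝ) + 1)) Uᶜ)ᶜ

theorem prmO_open (U : Set ℂ) (n : ℕ) : IsOpen (prmO U n) := isClosed_cthickening.isOpen_compl

theorem prmO_mono (U : Set ℂ) {m n : ℕ} (h : m ≤ n) : prmO U m ⊆ prmO U n := by
  refine compl_subset_compl.2 (cthickening_mono ?_ _)
  have : (m : ℝ) ≤ n := by exact_mod_cast h
  exact one_div_le_one_div_of_le (by positivity) (by linarith)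

/-- the component of the base point -/
def prmV (U : Set ℂ) (z₀ : ℂ) (n : ℕ) : Set ℂ := connectedComponentIn (prmO U n) z₀

theorem prmV_open (U : Set ℂ) (z₀ : ℂ) (n : ℕ) : IsOpen (prmV U z₀ n) :=
  (prmO_open U n).connectedComponentIn

theorem prmV_mono (U : Set ℂ) (z₀ : ℂ) {m n : ℕ} (h : m ≤ n) : prmV U z₀ m ⊆ prmV U z₀ n :=
  connectedComponentIn_mono _ (prmO_mono U h)

theorem prmV_base {U : Set ℂ} {z₀ z : ℂ} {n : ℕ} (h : z ∈ prmV U z₀ n) : z₀ ∈ prmV U z₀ n := by
  have h1 : (connectedComponentIn (prmO U n) z₀).Nonempty := ⟨z, h⟩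
  rw [connectedComponentIn_nonempty_iff] at h1
  exact mem_connectedComponentIn h1

theorem prmV_sub (U : Set ℂ) (z₀ : ℂ) (n : ℕ) : prmV U z₀ n ⊆ prmO U n :=
  connectedComponentIn_subset _ _

theorem prmO_ball {U : Set ℂ} {z : ℂ} {r : ℝ} (h : ball z (2 * r) ⊆ U) {n : ℕ}
    (hn : 1 / ((n : ℝ) + 1) < r) : ball z r ⊆ prmO U n := by
  intro x hx hcon
  rw [mem_ball] at hx
  have h1 := cthickening_subset_thickening' (δ₁ := 1 / ((n : ℝ) + 1)) (δ₂ := r)
    (lt_of_le_of_lt (by positivity) hn) hn Uᶜ hcon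
  rw [mem_thickening_iff] at h1
  obtain ⟨y, hy, hxy⟩ := h1
  apply hy
  apply h
  rw [mem_ball]
  have h2 := dist_triangle y x z
  rw [dist_comm y x] at h2
  linarith

/-- the exhaustion is exhausting -/
theorem prmV_union {U : Set ℂ} (hU : IsOpen U) (hc : IsPreconnected U) {z₀ : ℂ} (hz₀ : z₀ ∈ U) :
    ∀ z ∈ U, ∃ n, z ∈ prmV U z₀ n := by
  have hn : ∀ r > 0, ∃ n : ℕ, 1 / ((n : ℝ) + 1) < r := fun r hr => exists_nat_one_div_lt hr
  have hloc : ∀ z ∈ U, ∃ r > 0, ball z r ⊆ U ∧ ∀ x ∈ ball z r, ∀ y ∈ ball z r,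
      (∃ n, y ∈ prmV U z₀ n) → ∃ n, x ∈ prmV U z₀ n := by
    intro z hz
    obtain ⟨r, hr, hb⟩ := Metric.isOpen_iff.1 hU z hz
    obtain ⟨n, hn⟩ := hn (r / 2) (by positivity)
    have h2 : ball z (2 * (r / 2)) ⊆ U := by
      rw [mul_div_cancel₀ _ two_ne_zero]
      exact hb
    refine ⟨r / 2, by positivity, (ball_subset_ball (by linarith)).trans hb, ?_⟩
    rintro x hx y hy ⟨m, hm⟩
    refine ⟨max n m, ?_⟩
    have h3 : y ∈ prmV U z₀ (max n m) := prmV_mono U z₀ (le_max_right n m) hm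
    have h4 : ball z (r / 2) ⊆ prmO U (max n m) :=
      (prmO_ball h2 hn).trans (prmO_mono U (le_max_left n m))
    have h5 := (convex_ball z (r / 2)).isPreconnected.subset_connectedComponentIn hy h4
    have h6 := connectedComponentIn_eq h3
    show x ∈ connectedComponentIn (prmO U (max n m)) z₀
    rw [h6]
    exact h5 hx
  have hz₀V : ∃ n, z₀ ∈ prmV U z₀ n := by
    obtain ⟨r, hr, hb⟩ := Metric.isOpen_iff.1 hU z₀ hz₀
    obtain ⟨n, hn⟩ := hn (r / 2) (by positivity)
    have h2 : ball z₀ (2 * (r / 2)) ⊆ U := by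
      rw [mul_div_cancel₀ _ two_ne_zero]
      exact hb
    exact ⟨n, mem_connectedComponentIn (prmO_ball h2 hn (mem_ball_self (by positivity)))⟩
  have hu : IsOpen {z | z ∈ U ∧ ∃ n, z ∈ prmV U z₀ n} := by
    rw [Metric.isOpen_iff]
    rintro z ⟨hz, hp⟩
    obtain ⟨r, hr, hb, h⟩ := hloc z hz
    exact ⟨r, hr, fun x hx => ⟨hb hx, h x hx z (mem_ball_self hr) hp⟩⟩
  have hv : IsOpen {z | z ∈ U ∧ ¬ ∃ n, z ∈ prmV U z₀ n} := by
    rw [Metric.isOpen_iff]
    rintro z ⟨hz, hp⟩
    obtain ⟨r, hr, hb, h⟩ := hloc z hz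
    exact ⟨r, hr, fun x hx => ⟨hb hx, fun hp' => hp (h z (mem_ball_self hr) x hx hp')⟩⟩
  rcases isPreconnected_iff_subset_of_disjoint.1 hc _ _ hu hv (fun ζ hζ => by
      by_cases h : ∃ n, ζ ∈ prmV U z₀ n
      · exact Or.inl ⟨hζ, h⟩
      · exact Or.inr ⟨hζ, h⟩) (by
      rw [eq_empty_iff_forall_notMem]
      rintro ζ ⟨-, h, h'⟩
      exact h'.2 h.2) with h | h
  · exact fun z hz => (h hz).2
  · exact absurd hz₀V (h hz₀).2

/-- Holomorphic functions on a bounded domain with connected complement have primitives. -/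
theorem exists_prim {U : Set ℂ} (hU : IsOpen U) (hc : IsPreconnected U)
    (hb : Bornology.IsBounded U) (hcc : IsPreconnected Uᶜ) {z₀ : ℂ} (hz₀ : z₀ ∈ U) {h : ℂ → ℂ}
    (hh : DifferentiableOn ℂ h U) : ∃ P : ℂ → ℂ, ∀ z ∈ U, HasDerivAt P (h z) z := by
  classical
  have hPn : ∀ n, ∃ P : ℂ → ℂ, ∀ z ∈ prmV U z₀ n, HasDerivAt P (h z) z := by
    intro n
    rcases (prmV U z₀ n).eq_empty_or_nonempty with he | ⟨z, hz⟩
    · rw [he]
      exact ⟨h, fun z hz => absurd hz (notMem_empty z)⟩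
    · have hδ : (0 : ℝ) < 1 / ((n : ℝ) + 1) := by positivity
      have hsub : (thickening (1 / ((n : ℝ) + 1)) Uᶜ)ᶜ ⊆ U := by
        rw [compl_subset_comm]
        exact self_subset_thickening hδ _
      have hK : IsCompact (thickening (1 / ((n : ℝ) + 1)) Uᶜ)ᶜ :=
        Metric.isCompact_of_isClosed_isBounded isOpen_thickening.isClosed_compl (hb.subset hsub)
      refine prim_compact (W := thickening (1 / ((n : ℝ) + 1)) Uᶜ) (prmV_open U z₀ n)
        isPreconnected_connectedComponentIn (prmV_base hz) (isPreconnected_thickening' hcc hδ)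
        ?_ hK hU hsub hh
      rw [disjoint_left]
      intro x hx hx2
      exact prmV_sub U z₀ n hx (thickening_subset_cthickening _ _ hx2)
  choose P hP using hPn
  have huni := prmV_union hU hc hz₀
  have hagree : ∀ m n, m ≤ n → ∀ z ∈ prmV U z₀ m, P m z - P m z₀ = P n z - P n z₀ := by
    intro m n hmn z hz
    have h3 : ∀ y ∈ prmV U z₀ m, HasDerivAt (fun y => P m y - P m z₀) (h y) y := fun y hy =>
      (hP m y hy).sub_const _
    have h4 : ∀ y ∈ prmV U z₀ m, HasDerivAt (fun y => P n y - P n z₀) (h y) y := fun y hy =>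
      (hP n y (prmV_mono U z₀ hmn hy)).sub_const _
    exact (prmV_open U z₀ m).eqOn_of_deriv_eq isPreconnected_connectedComponentIn
      (fun y hy => (h3 y hy).differentiableAt.differentiableWithinAt)
      (fun y hy => (h4 y hy).differentiableAt.differentiableWithinAt)
      (fun y hy => by rw [(h3 y hy).deriv, (h4 y hy).deriv]) (prmV_base hz) (by simp) hz
  choose! N hN using huni
  refine ⟨fun z => P (N z) z - P (N z) z₀, fun z hz => ?_⟩
  have h1 : HasDerivAt (fun y => P (N z) y - P (N z) z₀) (h z) z := (hP _ z (hN z hz)).sub_const _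
  refine h1.congr_of_eventuallyEq ?_
  have h2 : ∀ᶠ y in 𝓝 z, y ∈ prmV U z₀ (N z) := (prmV_open U z₀ _).mem_nhds (hN z hz)
  have h3 : ∀ᶠ y in 𝓝 z, y ∈ U := hU.mem_nhds hz
  filter_upwards [h2, h3] with y hy hyU
  rcases le_total (N y) (N z) with h | h
  · exact hagree _ _ h y (hN y hyU)
  · exact (hagree _ _ h y hy).symm

theorem hasSqrt_of_prim {U : Set ℂ} (ho : IsOpen U) (hc : IsPreconnected U) {z₀ : ℂ}
    (hz₀ : z₀ ∈ U) (hp : ∀ h : ℂ → ℂ, DifferentiableOn ℂ h U →
      ∃ P : ℂ → ℂ, ∀ z ∈ U, HasDerivAt P (h z) z) : DY.HasSqrt U := by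
  intro g hg hg0
  have hg' : DifferentiableOn ℂ (deriv g) U := hg.deriv ho
  obtain ⟨F, hF⟩ := hp (fun z => deriv g z / g z) (hg'.div hg hg0)
  have hder : ∀ z ∈ U, HasDerivAt (fun z => g z * Complex.exp (-F z)) 0 z := by
    intro z hz
    have h1 : HasDerivAt g (deriv g z) z := ((hg z hz).differentiableAt (ho.mem_nhds hz)).hasDerivAt
    have h2 : HasDerivAt (fun z => Complex.exp (-F z)) (Complex.exp (-F z) * -(deriv g z / g z)) z :=
      (hF z hz).neg.cexp
    have h3 := h1.mul h2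
    have h4 : deriv g z / g z * g z = deriv g z := div_mul_cancel₀ _ (hg0 z hz)
    have h5 : deriv g z * Complex.exp (-F z) + g z * (Complex.exp (-F z) * -(deriv g z / g z)) =
        0 := by
      linear_combination (-Complex.exp (-F z)) * h4
    rw [h5] at h3
    exact h3
  have hconst : ∀ z ∈ U, g z * Complex.exp (-F z) = g z₀ * Complex.exp (-F z₀) := by
    intro z hz
    refine ho.is_const_of_deriv_eq_zero hc
      (fun w hw => (hder w hw).differentiableAt.differentiableWithinAt) ?_ hz hz₀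
    intro w hw
    exact (hder w hw).deriv
  obtain ⟨b, hb⟩ := IsAlgClosed.exists_pow_nat_eq (g z₀ * Complex.exp (-F z₀)) (n := 2)
    (by norm_num)
  refine ⟨fun z => b * Complex.exp (F z / 2), ?_, ?_⟩
  · intro z hz
    have h1 : HasDerivAt (fun z => b * Complex.exp (F z / 2)) _ z :=
      (((hF z hz).div_const 2).cexp).const_mul b
    exact h1.differentiableAt.differentiableWithinAt
  · intro z hz
    have h1 := hconst z hz
    show (b * Complex.exp (F z / 2)) ^ 2 = g z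
    rw [mul_pow, hb, ← h1, ← Complex.exp_nat_mul]
    have h2 : ((2 : ℕ) : ℂ) * (F z / 2) = F z := by push_cast; ring
    rw [h2, mul_assoc, ← Complex.exp_add]
    simp

/-- The Riemann mapping theorem for bounded domains with connected complement. -/
theorem rmt_of_compl {U : Set ℂ} (hU : IsOpen U) (hc : IsPreconnected U)
    (hb : Bornology.IsBounded U) (hcc : IsPreconnected Uᶜ) {z₀ : ℂ} (hz₀ : z₀ ∈ U) :
    ∃ g G : ℂ → ℂ, g 0 = z₀ ∧ DifferentiableOn ℂ g (ball 0 1) ∧ MapsTo g (ball 0 1) U ∧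
      DifferentiableOn ℂ G U ∧ MapsTo G U (ball 0 1) ∧ (∀ w ∈ ball (0 : ℂ) 1, G (g w) = w) ∧
      ∀ z ∈ U, g (G z) = z := by
  set e : ℂ ≃ₜ ℂ := Homeomorph.subRight z₀ with he
  have hev : ∀ z, e z = z - z₀ := fun z => rfl
  have hes : ∀ z, e.symm z = z + z₀ := fun z => by
    apply e.injective
    rw [e.apply_symm_apply, hev]
    ring
  set U' : Set ℂ := e '' U with hU'
  have hmem : ∀ z, z ∈ U' ↔ z + z₀ ∈ U := by
    intro z
    constructor
    · rintro ⟨x, hx, rfl⟩
      rw [hev]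
      simpa using hx
    · intro h
      exact ⟨z + z₀, h, by rw [hev]; ring⟩
  have hU'o : IsOpen U' := e.isOpenMap U hU
  have hU'c : IsPreconnected U' := hc.image _ e.continuous.continuousOn
  have hU'cc : IsPreconnected U'ᶜ := by
    have h1 : U'ᶜ = e '' Uᶜ := by
      rw [hU', image_compl_eq e.bijective]
    rw [h1]
    exact hcc.image _ e.continuous.continuousOn
  have hU'b : Bornology.IsBounded U' := by
    obtain ⟨R, hR⟩ := hb.subset_closedBall z₀
    refine isBounded_closedBall.subset (t := closedBall (0 : ℂ) R) ?_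
    rintro _ ⟨x, hx, rfl⟩
    have := hR hx
    rw [hev, mem_closedBall_zero_iff, ← dist_eq_norm]
    exact this
  have h0 : (0 : ℂ) ∈ U' := by
    rw [hmem, zero_add]
    exact hz₀
  have hs : DY.HasSqrt U' := hasSqrt_of_prim hU'o hU'c h0
    fun h hh => exists_prim hU'o hU'c hU'b hU'cc h0 hh
  obtain ⟨ψ, G, c, hc0, h1, h2, h3, h4, h5, h6, h7, -⟩ := DY.riemann_map hU'o hU'c hU'b h0 hs
  refine ⟨fun w => ψ w + z₀, fun z => G (z - z₀), by simp [h7], h1.add_const z₀, ?_, ?_, ?_, ?_, ?_⟩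
  · intro w hw
    exact (hmem _).1 (h2 hw)
  · refine h3.comp (differentiableOn_id.sub_const z₀) fun z hz => ?_
    rw [hmem]
    simpa using hz
  · intro z hz
    refine h4 ?_
    rw [hmem]
    simpa using hz
  · intro w hw
    simp [h5 w hw]
  · intro z hz
    have hz' : z - z₀ ∈ U' := by
      rw [hmem]
      simpa using hz
    simp [h6 _ hz']

end Pool.Agent.FB018
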