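import Pool.Agent.Lib.MP_018119_an_FB.Collar
import Pool.Agent.Lib.MP_018119_an_FB.EMor

/-!
# MP_018119_an, project FB: reflection of the normalised coordinate

The normalised coordinate `E` of `Clr` extends to a holomorphic injective map `M` of a two-sided
strip, odd with respect to the reflection in the line `re z = 0`.
-/

set_option autoImplicit false

open Topology Filter Set Metric
open scoped NNReal

namespace Pool.Agent.FB018

/-- Upper bound. -/
theorem Col.upper {b : ℂ → ℝ} {S : ℝ} (h : Col b S) {S' : ℝ} (h0 : 0 < S') (h1 : S' < S) :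
    ∃ C > 0, ∀ z : ℂ, 0 < z.re → z.re ≤ S' → b z ≤ C * z.re := by
  have hP : Function.Periodic b (2 * Real.pi * Complex.I) := h.per
  set K : Set ℂ := {z : ℂ | (S' ≤ z.re ∧ z.re ≤ S') ∧ 0 ≤ z.im ∧ z.im ≤ 2 * Real.pi} with hK
  have hKc : IsCompact K := isCompact_rect S' S'
  have hne : K.Nonempty := ⟨(S' : ℂ), by simp [hK, Real.pi_pos.le]⟩
  have hcK : ContinuousOn b K := fun z hz =>
    (h.hm z (h0.trans_le hz.1.1) (hz.1.2.trans_lt h1)).continuousAt.continuousWithinAt
  obtain ⟨x₀, hx₀, hmax⟩ := hKc.exists_isMaxOn hne hcK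
  have hx0 : 0 < b x₀ := h.bpos x₀ (h0.trans_le hx₀.1.1) (hx₀.1.2.trans_lt h1)
  have hline : ∀ z : ℂ, z.re = S' → b z ≤ b x₀ := by
    intro z hz
    obtain ⟨n, hn1, hn2⟩ := exists_period z
    have h3 : b (z - n • (2 * Real.pi * Complex.I : ℂ)) = b z := hP.sub_zsmul_eq n
    rw [← h3]
    apply hmax
    refine ⟨⟨?_, ?_⟩, hn1, hn2.le⟩
    · rw [re_period]; exact hz.ge
    · rw [re_period]; exact hz.le
  refine ⟨b x₀ / S', by positivity, fun z hz1 hz2 => ?_⟩
  set C := b x₀ / S' with hC
  have hCp : 0 < C := by positivity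
  have key : ∀ ε > 0, b z - C * z.re ≤ ε := by
    intro ε hε
    obtain ⟨δ₀, hδ₀, hlim⟩ := h.lim ε hε
    set δ : ℝ := min (δ₀ / 2) (z.re / 2) with hδ
    have hδp : 0 < δ := by positivity
    have hδ1 : δ < δ₀ := (min_le_left _ _).trans_lt (by linarith)
    have hδ2 : δ < z.re := (min_le_right _ _).trans_lt (by linarith)
    have hin : ∀ w : ℂ, δ ≤ w.re → w.re ≤ S' → Hm b w := fun w hw1 hw2 =>
      h.hm w (hδp.trans_le hw1) (hw2.trans_lt h1)
    refine per_max (u := fun w => b w - C * w.re) (hδ2.le.trans hz2) ?_ ?_ ?_ ?_ ?_ z hδ2.le hz2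
    · intro w hw1 hw2
      exact (hin w hw1.le hw2.le).sub ((Hm.re w).const_mul C)
    · intro w hw
      exact ((hin w hw.1 hw.2).sub ((Hm.re w).const_mul C)).continuousAt.continuousWithinAt
    · intro w
      rw [h.per]
      simp
    · intro w hw
      have h3 := hlim w (by rw [hw]; exact hδp) (by rw [hw]; exact hδ1)
      have h4 : 0 < C * w.re := by rw [hw]; positivity
      linarith
    · intro w hw
      have h3 := hline w hw
      have h4 : C * w.re = b x₀ := by
        rw [hw, hC]
        field_simp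
      linarith
  by_contra hcon
  push Not at hcon
  have := key ((b z - C * z.re) / 2) (by linarith)
  linarith

/-- Holomorphic functions with positive real part. -/
theorem norm_deriv_le_re {f : ℂ → ℂ} {z : ℂ} {r : ℝ} (hr : 0 < r)
    (hf : DifferentiableOn ℂ f (ball z r)) (hp : ∀ w ∈ ball z r, 0 < (f w).re) :
    ‖deriv f z‖ ≤ 2 * (f z).re / r := by
  have hz : z ∈ ball z r := mem_ball_self hr
  have hne : ∀ w ∈ ball z r, f w + (starRingEnd ℂ) (f z) ≠ 0 := by
    intro w hw h0
    have h1 : (f w + (starRingEnd ℂ) (f z)).re = (f w).re + (f z).re := by simp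
    rw [h0, Complex.zero_re] at h1
    have := hp w hw
    have := hp z hz
    linarith
  set φ : ℂ → ℂ := fun w => (f w - f z) / (f w + (starRingEnd ℂ) (f z)) with hφ
  have hφd : DifferentiableOn ℂ φ (ball z r) :=
    (hf.sub_const _).div (hf.add_const _) hne
  have hφz : φ z = 0 := by simp [hφ]
  have hmaps : MapsTo φ (ball z r) (ball (φ z) 1) := by
    intro w hw
    rw [hφz, mem_ball_zero_iff, norm_div, div_lt_one (norm_pos_iff.2 (hne w hw))]
    have h1 : ‖f w - f z‖ ^ 2 < ‖f w + (starRingEnd ℂ) (f z)‖ ^ 2 := by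
      rw [Complex.sq_norm, Complex.sq_norm, Complex.normSq_apply, Complex.normSq_apply]
      simp only [Complex.sub_re, Complex.sub_im, Complex.add_re, Complex.add_im, Complex.conj_re,
        Complex.conj_im]
      have h2 := mul_pos (hp w hw) (hp z hz)
      nlinarith
    exact lt_of_pow_lt_pow_left₀ 2 (norm_nonneg _) h1
  have h1 := Complex.norm_deriv_le_div_of_mapsTo_ball hφd (hmaps.mono_right ball_subset_closedBall) hr
  have h2 : HasDerivAt φ (deriv f z / (2 * (f z).re : ℝ)) z := by
    have hfz : HasDerivAt f (deriv f z) z :=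
      (hf.differentiableAt (ball_mem_nhds z hr)).hasDerivAt
    have h3 := (hfz.sub_const (f z)).div (hfz.add_const ((starRingEnd ℂ) (f z))) (hne z hz)
    refine h3.congr_deriv ?_
    have h4 : f z + (starRingEnd ℂ) (f z) = ((2 * (f z).re : ℝ) : ℂ) := by
      rw [Complex.add_conj]
    have h5 : ((2 * (f z).re : ℝ) : ℂ) ≠ 0 := by
      have := hp z hz
      exact_mod_cast (by positivity : (2 * (f z).re) ≠ 0)
    rw [h4, sub_self, zero_mul, sub_zero]
    field_simp
  rw [h2.deriv, norm_div, Complex.norm_real, Real.norm_of_nonneg (by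
    have := hp z hz; positivity)] at h1
  have h3 : 0 < 2 * (f z).re := by have := hp z hz; positivity
  rw [div_le_iff₀ h3] at h1
  calc ‖deriv f z‖ ≤ 1 / r * (2 * (f z).re) := h1
    _ = 2 * (f z).re / r := by ring

/-- Reflection of the normalised coordinate. -/
theorem Clr.refl {b : ℂ → ℝ} {S w₁ p s c δ : ℝ} {lam E : ℂ → ℂ} (h : Col b S)
    (H : Clr b S w₁ p s c δ lam E) :
    ∃ (t : ℝ) (M : ℂ → ℂ), 0 < t ∧ t ≤ δ ∧
      DifferentiableOn ℂ M {z : ℂ | -t < z.re ∧ z.re < t} ∧
      InjOn M {z : ℂ | -t < z.re ∧ z.re < t} ∧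
      (∀ z : ℂ, 0 < z.re → z.re < t → M z = E z) ∧
      (∀ z : ℂ, z.re = 0 → (M z).re = 0) ∧
      (∀ z : ℂ, -t < z.re → z.re < 0 → M z = -(starRingEnd ℂ) (E (-(starRingEnd ℂ) z))) ∧
      (∀ z : ℂ, -t < z.re → z.re < t →
        M (z + 2 * Real.pi * Complex.I) = M z + 2 * Real.pi * Complex.I) := by
  have hs := H.spos
  have hp := H.ppos
  have hδ := H.δpos
  obtain ⟨C, hC, hup⟩ := h.upper (S' := s) hs H.s_lt
  set t : ℝ := δ / 2 with ht
  have ht0 : 0 < t := by positivity
  have htδ : t < δ := by rw [ht]; linarith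
  have hδs := H.δs
  have hts : 2 * t ≤ s := by rw [ht]; linarith
  have hEp : ∀ z : ℂ, 0 < z.re → z.re < s → 0 < (E z).re := by
    intro z h1 h2
    have h3 := h.bpos z h1 (h2.trans H.s_lt)
    rw [H.b_E z h1 h2] at h3
    exact pos_of_mul_pos_right h3 hp.le
  have hso : IsOpen {z : ℂ | 0 < z.re ∧ z.re < s} := isOpen_strip 0 s
  have hEd : ∀ z : ℂ, 0 < z.re → z.re < s → DifferentiableAt ℂ E z := fun z h1 h2 =>
    H.E_hol.differentiableAt (hso.mem_nhds ⟨h1, h2⟩)
  -- derivative bound
  have hder : ∀ z ∈ {z : ℂ | 0 < z.re ∧ z.re < t}, ‖deriv E z‖ ≤ 2 * C / p := by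
    intro z hz
    have hsub : ball z z.re ⊆ {z : ℂ | 0 < z.re ∧ z.re < s} := by
      intro w hw
      rw [mem_ball, dist_eq_norm] at hw
      have h1 := (Complex.abs_re_le_norm (w - z)).trans_lt hw
      rw [Complex.sub_re, abs_lt] at h1
      constructor
      · linarith [h1.1]
      · linarith [h1.2, hz.2]
    have h1 := norm_deriv_le_re hz.1 (H.E_hol.mono hsub) fun w hw =>
      hEp w (hsub hw).1 (hsub hw).2
    refine h1.trans ?_
    have h2 := H.b_E z hz.1 (by linarith [hz.2])
    have h3 := hup z hz.1 (by linarith [hz.2])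
    have hz0 : 0 < z.re := hz.1
    rw [div_le_div_iff₀ hz0 hp]
    nlinarith
  -- Lipschitz extension of the imaginary part
  set K : ℝ≥0 := ⟨2 * C / p, by positivity⟩ with hK
  have hLip : LipschitzOnWith K (fun z => (E z).im) {z : ℂ | 0 < z.re ∧ z.re < t} := by
    have h1 : LipschitzOnWith K E {z : ℂ | 0 < z.re ∧ z.re < t} := by
      refine Convex.lipschitzOnWith_of_nnnorm_deriv_le (𝕜 := ℂ)
        (fun z hz => hEd z hz.1 (by linarith [hz.2])) (fun z hz => ?_) (convex_strip 0 t)
      rw [← NNReal.coe_le_coe]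
      exact hder z hz
    have h2 : LipschitzWith 1 Complex.im := by
      refine LipschitzWith.of_dist_le_mul fun x y => ?_
      rw [dist_eq_norm, dist_eq_norm, NNReal.coe_one, one_mul, ← Complex.sub_im]
      exact Complex.abs_im_le_norm _
    have h3 := h2.comp_lipschitzOnWith h1
    rwa [one_mul] at h3
  obtain ⟨v, hv, hve⟩ := hLip.extend_real
  -- the fold
  set R : ℂ → ℂ := fun z => ((|z.re| : ℝ) : ℂ) + z.im * Complex.I with hR
  have hRre : ∀ z, (R z).re = |z.re| := fun z => by simp [hR]
  have hRim : ∀ z, (R z).im = z.im := fun z => by simp [hR]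
  have hRc : Continuous R := by
    have h1 : Continuous fun z : ℂ => ((|z.re| : ℝ) : ℂ) :=
      Complex.continuous_ofReal.comp Complex.continuous_re.abs
    have h2 : Continuous fun z : ℂ => ((z.im : ℝ) : ℂ) * Complex.I :=
      (Complex.continuous_ofReal.comp Complex.continuous_im).mul continuous_const
    exact h1.add h2
  have hRpos : ∀ z : ℂ, 0 < z.re → R z = z := by
    intro z hz
    apply Complex.ext
    · rw [hRre, abs_of_pos hz]
    · rw [hRim]
  have hRneg : ∀ z : ℂ, z.re < 0 → R z = -(starRingEnd ℂ) z := by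
    intro z hz
    apply Complex.ext
    · rw [hRre, abs_of_neg hz]; simp
    · rw [hRim]; simp
  classical
  set bb : ℂ → ℝ := fun z => if 0 < z.re then (E (R z)).re else
    if z.re < 0 then -(E (R z)).re else 0 with hbb
  have hbb0 : ∀ z : ℂ, z.re = 0 → bb z = 0 := fun z hz => by simp [hbb, hz]
  have hbbp : ∀ z : ℂ, 0 < z.re → bb z = (E z).re := fun z hz => by
    simp only [hbb]
    rw [if_pos hz, hRpos z hz]
  have hbbn : ∀ z : ℂ, z.re < 0 → bb z = -(E (-(starRingEnd ℂ) z)).re := fun z hz => by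
    simp only [hbb]
    rw [if_neg (not_lt.2 hz.le), if_pos hz, hRneg z hz]
  set M : ℂ → ℂ := fun z => (bb z : ℂ) + (v (R z) : ℂ) * Complex.I with hM
  set V : Set ℂ := {z : ℂ | -t < z.re ∧ z.re < t} with hV
  have hVo : IsOpen V := isOpen_strip (-t) t
  have hMre : ∀ z, (M z).re = bb z := fun z => by simp [hM]
  have hMim : ∀ z, (M z).im = v (R z) := fun z => by simp [hM]
  have hMp : ∀ z : ℂ, 0 < z.re → z.re < t → M z = E z := by
    intro z h1 h2
    apply Complex.ext
    · rw [hMre, hbbp z h1]
    · rw [hMim, hRpos z h1]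
      exact (hve ⟨h1, h2⟩).symm
  have hcre : ∀ z : ℂ, (-(starRingEnd ℂ) z).re = -z.re := fun z => by simp
  have hMn : ∀ z : ℂ, -t < z.re → z.re < 0 → M z = -(starRingEnd ℂ) (E (-(starRingEnd ℂ) z)) := by
    intro z h1 h2
    apply Complex.ext
    · rw [hMre, hbbn z h2]; simp
    · rw [hMim, hRneg z h2]
      have h3 := hve (x := -(starRingEnd ℂ) z)
        ⟨by rw [hcre]; linarith, by rw [hcre]; linarith⟩
      rw [← h3]
      simp
  -- continuity
  have hlimE : ∀ ε > 0, ∃ η > 0, ∀ z : ℂ, 0 < z.re → z.re < η → z.re < s → (E z).re < ε := by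
    intro ε hε
    obtain ⟨η, hη, h1⟩ := h.lim (p * ε) (by positivity)
    refine ⟨η, hη, fun z h2 h3 h4 => ?_⟩
    have h5 := h1 z h2 h3
    rw [H.b_E z h2 h4] at h5
    exact lt_of_mul_lt_mul_left h5 hp.le
  have hMd : ∀ z ∈ V, z.re ≠ 0 → DifferentiableAt ℂ M z := by
    intro z hz hz0
    rcases lt_or_gt_of_ne hz0 with h1 | h1
    · have h2 : M =ᶠ[𝓝 z] fun w => -(starRingEnd ℂ) (E (-(starRingEnd ℂ) w)) := by
        filter_upwards [hVo.mem_nhds hz,
          (isOpen_lt Complex.continuous_re continuous_const).mem_nhds (show z.re < 0 from h1)]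
          with w hw1 hw2
        exact hMn w hw1.1 hw2
      refine DifferentiableAt.congr_of_eventuallyEq ?_ h2
      have h3 : DifferentiableAt ℂ (fun w => E (-w)) ((starRingEnd ℂ) z) := by
        have h4 : DifferentiableAt ℂ E (-(starRingEnd ℂ) z) :=
          hEd _ (by rw [hcre]; linarith) (by rw [hcre]; linarith [hz.1])
        exact h4.comp ((starRingEnd ℂ) z) differentiableAt_id.neg
      have h4 := (differentiableAt_conj_conj_iff (f := fun w => E (-w)) (x := z)).2 h3
      exact h4.neg
    · have h2 : M =ᶠ[𝓝 z] E := by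
        filter_upwards [hVo.mem_nhds hz,
          (isOpen_lt continuous_const Complex.continuous_re).mem_nhds (show 0 < z.re from h1)]
          with w hw1 hw2
        exact hMp w hw2 hw1.2
      exact (hEd z h1 (by linarith [hz.2])).congr_of_eventuallyEq h2
  have hMc : ContinuousOn M V := by
    intro z hz
    by_cases hz0 : z.re = 0
    · have h1 : ContinuousAt bb z := by
        rw [Metric.continuousAt_iff]
        intro ε hε
        obtain ⟨η, hη, h2⟩ := hlimE ε hε
        refine ⟨min η t, lt_min hη ht0, fun w hw => ?_⟩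
        rw [hbb0 z hz0, dist_zero_right, Real.norm_eq_abs]
        rw [dist_eq_norm] at hw
        have h3 := (Complex.abs_re_le_norm (w - z)).trans_lt hw
        rw [Complex.sub_re, hz0, sub_zero] at h3
        have h4 : |w.re| < η := h3.trans_le (min_le_left _ _)
        have h5 : |w.re| < t := h3.trans_le (min_le_right _ _)
        rcases lt_trichotomy w.re 0 with h6 | h6 | h6
        · rw [abs_of_neg h6] at h4 h5
          have h7 := h2 (-(starRingEnd ℂ) w) (by rw [hcre]; linarith) (by rw [hcre]; exact h4)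
            (by rw [hcre]; linarith)
          have h8 := hEp (-(starRingEnd ℂ) w) (by rw [hcre]; linarith) (by rw [hcre]; linarith)
          rw [hbbn w h6, abs_neg, abs_of_pos h8]
          exact h7
        · rw [hbb0 w h6, abs_zero]
          exact hε
        · rw [abs_of_pos h6] at h4 h5
          have h7 := h2 w h6 h4 (by linarith)
          have h8 := hEp w h6 (by linarith)
          rw [hbbp w h6, abs_of_pos h8]
          exact h7
      have h2 : ContinuousAt (fun z => v (R z)) z := (hv.continuous.comp hRc).continuousAt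
      have h3 : ContinuousAt M z := by
        have h4 : ContinuousAt (fun z => (bb z : ℂ)) z :=
          Complex.continuous_ofReal.continuousAt.comp h1
        have h5 : ContinuousAt (fun z => (v (R z) : ℂ)) z :=
          Complex.continuous_ofReal.continuousAt.comp h2
        exact h4.add (h5.mul continuousAt_const)
      exact h3.continuousWithinAt
    · exact (hMd z hz hz0).continuousAt.continuousWithinAt
  -- the line is removable
  have hMdiff : DifferentiableOn ℂ M V := by
    have h1 : DifferentiableOn ℂ (fun w : ℂ => M (Complex.I * w))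
        ((fun w : ℂ => Complex.I * w) ⁻¹' V) := by
      have hcont : Continuous fun w : ℂ => Complex.I * w := by fun_prop
      refine rem_line (hVo.preimage hcont) (hMc.comp hcont.continuousOn fun w hw => hw) ?_
      intro w hw hw0
      have h2 : DifferentiableAt ℂ M (Complex.I * w) := hMd _ hw (by simpa using hw0)
      have h3 : DifferentiableAt ℂ (fun w : ℂ => Complex.I * w) w := by fun_prop
      exact h2.comp w h3
    have h2 : DifferentiableOn ℂ (fun z : ℂ => (fun w : ℂ => M (Complex.I * w)) (-Complex.I * z)) V := by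
      refine h1.comp (by fun_prop) fun z hz => ?_
      show Complex.I * (-Complex.I * z) ∈ V
      have h3 : Complex.I * (-Complex.I * z) = z := by
        rw [← mul_assoc, mul_neg, Complex.I_mul_I, neg_neg, one_mul]
      rw [h3]
      exact hz
    refine h2.congr fun z _ => ?_
    show M z = M (Complex.I * (-Complex.I * z))
    rw [← mul_assoc, mul_neg, Complex.I_mul_I, neg_neg, one_mul]
  have hMa : AnalyticOnNhd ℂ M V := hMdiff.analyticOnNhd hVo
  -- real part of the derivative
  have hdp : ∀ z ∈ V, 0 < z.re → c ≤ (deriv M z).re := by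
    intro z hz h1
    have h2 : M =ᶠ[𝓝 z] E := by
      filter_upwards [hVo.mem_nhds hz,
        (isOpen_lt continuous_const Complex.continuous_re).mem_nhds (show 0 < z.re from h1)]
        with w hw1 hw2
      exact hMp w hw2 hw1.2
    rw [h2.deriv_eq]
    exact H.E_der z h1 (by linarith [hz.2])
  have hdn : ∀ z ∈ V, z.re < 0 → c ≤ (deriv M z).re := by
    intro z hz h1
    have h2 : M =ᶠ[𝓝 z] fun w => -(starRingEnd ℂ) (E (-(starRingEnd ℂ) w)) := by
      filter_upwards [hVo.mem_nhds hz,
        (isOpen_lt Complex.continuous_re continuous_const).mem_nhds (show z.re < 0 from h1)]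
        with w hw1 hw2
      exact hMn w hw1.1 hw2
    have h4 : HasDerivAt E (deriv E (-(starRingEnd ℂ) z)) (-(starRingEnd ℂ) z) :=
      (hEd _ (by rw [hcre]; linarith) (by rw [hcre]; linarith [hz.1])).hasDerivAt
    have h5 : HasDerivAt (fun w => E (-w)) (deriv E (-(starRingEnd ℂ) z) * -1)
        ((starRingEnd ℂ) z) := h4.comp ((starRingEnd ℂ) z) (hasDerivAt_id _).neg
    have h6 := (h5.conj_conj).neg
    rw [Complex.conj_conj] at h6
    have h7 : HasDerivAt M (-(starRingEnd ℂ) (deriv E (-(starRingEnd ℂ) z) * -1)) z :=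
      h6.congr_of_eventuallyEq h2
    rw [h7.deriv]
    have h8 : (-(starRingEnd ℂ) (deriv E (-(starRingEnd ℂ) z) * -1)).re =
        (deriv E (-(starRingEnd ℂ) z)).re := by simp
    rw [h8]
    exact H.E_der _ (by rw [hcre]; linarith) (by rw [hcre]; linarith [hz.1])
  have hd : ∀ z ∈ V, c ≤ (deriv M z).re := by
    intro z hz
    rcases lt_trichotomy z.re 0 with h1 | h1 | h1
    · exact hdn z hz h1
    · have h2 : ContinuousAt (fun w => (deriv M w).re) z :=
        Complex.continuous_re.continuousAt.comp (hMa.deriv z hz).continuousAt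
      by_contra hcon
      push Not at hcon
      have h3 : ∀ᶠ w in 𝓝 z, (deriv M w).re < c := h2.eventually_lt_const hcon
      obtain ⟨ε, hε, h4⟩ := Metric.eventually_nhds_iff.1 h3
      have hm : 0 < min (ε / 2) (t / 2) := by positivity
      have h5 := @h4 (z + ((min (ε / 2) (t / 2) : ℝ) : ℂ)) (by
        rw [dist_eq_norm, add_sub_cancel_left, Complex.norm_real, Real.norm_of_nonneg hm.le]
        exact (min_le_left _ _).trans_lt (by linarith))
      have hre : (z + ((min (ε / 2) (t / 2) : ℝ) : ℂ)).re = min (ε / 2) (t / 2) := by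
        rw [Complex.add_re, Complex.ofReal_re, h1, zero_add]
      have h6 := hdp (z + ((min (ε / 2) (t / 2) : ℝ) : ℂ)) ⟨by rw [hre]; linarith, by
        rw [hre]; exact (min_le_right _ _).trans_lt (by linarith)⟩ (by rw [hre]; exact hm)
      linarith
    · exact hdp z hz h1
  refine ⟨t, M, ht0, htδ.le, hMdiff, ?_, hMp, ?_, ?_, ?_⟩
  · exact injOn_of_re_deriv hVo (convex_strip (-t) t) hMdiff fun z hz =>
      H.cpos.trans_le (hd z hz)
  · intro z hz
    rw [hMre, hbb0 z hz]
  · exact hMn
  · have hsh : ∀ z : ℂ, (z + 2 * Real.pi * Complex.I).re = z.re := fun z => by simp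
    have hmaps : MapsTo (fun z : ℂ => z + 2 * Real.pi * Complex.I) V V := by
      intro z hz
      exact ⟨by rw [hsh]; exact hz.1, by rw [hsh]; exact hz.2⟩
    have h1 : AnalyticOnNhd ℂ (fun z => M (z + 2 * Real.pi * Complex.I)) V :=
      (hMdiff.comp (differentiableOn_id.add_const _) hmaps).analyticOnNhd hVo
    have h2 : AnalyticOnNhd ℂ (fun z => M z + 2 * Real.pi * Complex.I) V :=
      hMa.add analyticOnNhd_const
    have hz₀ : ((t / 2 : ℝ) : ℂ) ∈ V := by
      constructor <;> rw [Complex.ofReal_re] <;> linarith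
    have h3 : (fun z => M (z + 2 * Real.pi * Complex.I)) =ᶠ[𝓝 ((t / 2 : ℝ) : ℂ)]
        fun z => M z + 2 * Real.pi * Complex.I := by
      have h4 : {z : ℂ | 0 < z.re ∧ z.re < t} ∈ 𝓝 ((t / 2 : ℝ) : ℂ) := by
        refine (isOpen_strip 0 t).mem_nhds ?_
        constructor <;> rw [Complex.ofReal_re] <;> linarith
      filter_upwards [h4] with z hz
      rw [hMp z hz.1 hz.2, hMp (z + 2 * Real.pi * Complex.I) (by rw [hsh]; exact hz.1)
        (by rw [hsh]; exact hz.2)]
      exact H.E_per z hz.1 (by linarith [hz.2])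
    intro z hz1 hz2
    exact h1.eqOn_of_preconnected_of_eventuallyEq h2 (convex_strip (-t) t).isPreconnected hz₀ h3
      ⟨hz1, hz2⟩

end Pool.Agent.FB018
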