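import Pool.Agent.Lib.MP_018119_an_FB.PMeans
import Pool.Agent.Lib.MP_018119_an_FB.Refl

/-!
# MP_018119_an, project FB: one phase in a periodic coordinate
-/

set_option autoImplicit false

open Topology Filter Set Metric MeasureTheory
open scoped ContDiff

namespace Pool.Agent.FB018

/-- Integer multiples of the period, for functions with additive period. -/
theorem per_add_int {f : ℂ → ℂ} {a b : ℝ}
    (hf : ∀ z : ℂ, a < z.re → z.re < b →
      f (z + 2 * Real.pi * Complex.I) = f z + 2 * Real.pi * Complex.I) (n : ℤ) :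
    ∀ z : ℂ, a < z.re → z.re < b →
      f (z + n * (2 * Real.pi * Complex.I)) = f z + n * (2 * Real.pi * Complex.I) := by
  have hre : ∀ (k : ℂ) (z : ℂ), k.im = 0 → (z + k * (2 * Real.pi * Complex.I)).re = z.re := by
    intro k z hk
    simp [hk]
  have key : ∀ m : ℕ, ∀ z : ℂ, a < z.re → z.re < b →
      f (z + m * (2 * Real.pi * Complex.I)) = f z + m * (2 * Real.pi * Complex.I) := by
    intro m
    induction m with
    | zero => intro z _ _; simp
    | succ m ih =>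
      intro z h1 h2
      have e : z + ((m + 1 : ℕ) : ℂ) * (2 * Real.pi * Complex.I) =
          (z + m * (2 * Real.pi * Complex.I)) + 2 * Real.pi * Complex.I := by
        push_cast
        ring
      have e2 := hre m z (by simp)
      rw [e, hf _ (by rw [e2]; exact h1) (by rw [e2]; exact h2), ih z h1 h2]
      push_cast
      ring
  intro z h1 h2
  rcases Int.eq_nat_or_neg n with ⟨m, hm | hm⟩
  · rw [hm]
    simpa using key m z h1 h2
  · have e2 := hre n z (by simp)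
    have h3 := key m (z + n * (2 * Real.pi * Complex.I)) (by rw [e2]; exact h1)
      (by rw [e2]; exact h2)
    have e3 : z + n * (2 * Real.pi * Complex.I) + m * (2 * Real.pi * Complex.I) = z := by
      rw [hm]
      push_cast
      ring
    rw [e3] at h3
    rw [h3, hm]
    push_cast
    ring

/-- Integer multiples of the period. -/
theorem per_int' {X : Type*} {f : ℂ → X} {a b : ℝ}
    (hf : ∀ z : ℂ, a < z.re → z.re < b → f (z + 2 * Real.pi * Complex.I) = f z) (n : ℤ) :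
    ∀ z : ℂ, a < z.re → z.re < b → f (z + n * (2 * Real.pi * Complex.I)) = f z := by
  have hre : ∀ (k : ℂ) (z : ℂ), k.im = 0 → (z + k * (2 * Real.pi * Complex.I)).re = z.re := by
    intro k z hk
    simp [hk]
  have key : ∀ m : ℕ, ∀ z : ℂ, a < z.re → z.re < b →
      f (z + m * (2 * Real.pi * Complex.I)) = f z := by
    intro m
    induction m with
    | zero => intro z _ _; simp
    | succ m ih =>
      intro z h1 h2
      have e : z + ((m + 1 : ℕ) : ℂ) * (2 * Real.pi * Complex.I) =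
          (z + m * (2 * Real.pi * Complex.I)) + 2 * Real.pi * Complex.I := by
        push_cast
        ring
      have e2 := hre m z (by simp)
      rw [e, hf _ (by rw [e2]; exact h1) (by rw [e2]; exact h2), ih z h1 h2]
  intro z h1 h2
  rcases Int.eq_nat_or_neg n with ⟨m, hm | hm⟩
  · rw [hm]
    simpa using key m z h1 h2
  · have e2 := hre n z (by simp)
    have h3 := key m (z + n * (2 * Real.pi * Complex.I)) (by rw [e2]; exact h1)
      (by rw [e2]; exact h2)
    have e3 : z + n * (2 * Real.pi * Complex.I) + m * (2 * Real.pi * Complex.I) = z := by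
      rw [hm]
      push_cast
      ring
    rw [e3] at h3
    exact h3.symm

/-- The phase `{0 < P}` in a periodic coordinate `β`, defined in the half plane `0 < re z`, and the
Riesz measure `ν` of `P`. -/
structure PSd (P : ℂ → ℝ) (β : ℂ → ℂ) (S R : ℝ) (ν : Measure ℂ) : Prop where
  S_pos : 0 < S
  fin : IsFiniteMeasure ν
  cont : Continuous P
  nonneg : ∀ x, 0 ≤ P x
  hol : DifferentiableOn ℂ β {z : ℂ | 0 < z.re}
  per : ∀ z : ℂ, β (z + 2 * Real.pi * Complex.I) = β z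
  inj : ∀ z w : ℂ, 0 < z.re → 0 < w.re → β z = β w →
    ∃ n : ℤ, z = w + n * (2 * Real.pi * Complex.I)
  pos : ∀ z : ℂ, 0 < z.re → 0 < P (β z)
  hm : ∀ z : ℂ, 0 < z.re → z.re < S → Hm P (β z)
  lim : ∀ ε > 0, ∃ δ > 0, ∀ z : ℂ, 0 < z.re → z.re < δ → P (β z) < ε
  closed : ∀ δ > 0, IsClosed {x | 0 < P x ∧ ∀ z : ℂ, 0 < z.re → z.re < δ → β z ≠ x}
  bdd : ∀ z : ℂ, 0 < z.re → z.re < S → ‖β z‖ ≤ R
  null : ν {x | 0 < P x} = 0
  nullR : ν (closedBall 0 R)ᶜ = 0
  weak : ∀ ψ : ℂ → ℝ, ContDiff ℝ ∞ ψ → HasCompactSupport ψ →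
    (∀ x ∈ tsupport ψ, 0 < P x → ∃ z : ℂ, 0 < z.re ∧ z.re < S ∧ β z = x) →
    ∫ x, P x * lap ψ x = ∫ x, ψ x ∂ν

theorem isOpen_half : IsOpen {z : ℂ | 0 < z.re} := isOpen_lt continuous_const Complex.continuous_re

theorem PSd.col {P : ℂ → ℝ} {β : ℂ → ℂ} {S R : ℝ} {ν : Measure ℂ} (h : PSd P β S R ν) :
    Col (fun z => P (β z)) S where
  pos := h.S_pos
  hm := fun z h1 h2 => (h.hm z h1 h2).comp (h.hol.analyticAt (isOpen_half.mem_nhds h1))
  per := fun z => by rw [h.per]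
  bpos := fun z h1 _ => h.pos z h1
  lim := h.lim

/-- The normalised collar of one phase. -/
theorem PSd.side {P : ℂ → ℝ} {β : ℂ → ℂ} {S R : ℝ} {ν : Measure ℂ} (h : PSd P β S R ν) :
    ∃ (w₁ p s c δ : ℝ) (lam E : ℂ → ℂ), Clr (fun z => P (β z)) S w₁ p s c δ lam E ∧
      p * (2 * Real.pi) = ν.real univ ∧
      ∀ φ : ℂ → ℝ, Continuous φ → HasCompactSupport φ →
        Tendsto (fun c : ℝ => p * ∫ θ in (0 : ℝ)..(2 * Real.pi),
          φ (β (lam ((c : ℂ) + θ * Complex.I)))) (𝓝[>] 0) (𝓝 (∫ x, φ x ∂ν)) := by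
  have := h.fin
  obtain ⟨w₁, p, s, c, δ, lam, E, H⟩ := h.col.exists_clr
  refine ⟨w₁, p, s, c, δ, lam, E, H, ?_⟩
  have hw := H.w₁pos
  have hp := H.ppos
  obtain ⟨δ', hδ', hlim⟩ := h.lim (p * (w₁ / 2)) (by positivity)
  set d : ℝ := min δ δ' with hd
  have hd0 : 0 < d := lt_min H.δpos hδ'
  set K : Set ℂ := {x | 0 < P x ∧ ∀ z : ℂ, 0 < z.re → z.re < d → β z ≠ x} with hK
  have hχ : DifferentiableOn ℂ (fun w => β (lam w)) {z : ℂ | 0 < z.re ∧ z.re < w₁} :=
    h.hol.comp H.lam_hol fun w hw => H.lam_pos w hw.1 hw.2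
  have hper : ∀ z : ℂ, 0 < z.re → z.re < w₁ →
      β (lam (z + 2 * Real.pi * Complex.I)) = β (lam z) := by
    intro z h1 h2
    rw [H.lam_per z h1 h2, h.per]
  have hinj : ∀ z w : ℂ, 0 < z.re → z.re < w₁ → 0 < w.re → w.re < w₁ →
      β (lam z) = β (lam w) → ∃ n : ℤ, z = w + n * (2 * Real.pi * Complex.I) := by
    intro z w h1 h2 h3 h4 h5
    obtain ⟨n, hn⟩ := h.inj _ _ (H.lam_pos z h1 h2) (H.lam_pos w h3 h4) h5
    refine ⟨n, H.lam_inj ⟨h1, h2⟩ ?_ ?_⟩
    · constructor <;> simp [h3, h4]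
    · rw [per_add_int (a := 0) (b := w₁) H.lam_per n w h3 h4, hn]
  have hP : ∀ z : ℂ, 0 < z.re → z.re < w₁ → P (β (lam z)) = p * z.re := fun z h1 h2 =>
    H.b_lam z h1 h2
  have hcov : ∀ x, 0 < P x → x ∈ K ∨ ∃ z : ℂ, 0 < z.re ∧ z.re < w₁ ∧ β (lam z) = x := by
    intro x hx
    by_cases h1 : x ∈ K
    · exact Or.inl h1
    · right
      have h2 : ∃ z : ℂ, 0 < z.re ∧ z.re < d ∧ β z = x := by
        by_contra h3
        push Not at h3
        exact h1 ⟨hx, h3⟩
      obtain ⟨z, h3, h4, h5⟩ := h2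
      have h6 : z.re < δ := h4.trans_le (min_le_left _ _)
      refine ⟨E z, H.E_pos z h3 h6, H.E_lt z h3 h6, ?_⟩
      rw [H.lam_E z h3 h6, h5]
  have hKχ : ∀ z : ℂ, w₁ / 2 ≤ z.re → z.re < w₁ → β (lam z) ∈ K := by
    intro z h1 h2
    have h0 : 0 < z.re := by linarith
    refine ⟨h.pos _ (H.lam_pos z h0 h2), fun y h3 h4 h5 => ?_⟩
    have h6 := hlim y h3 (h4.trans_le (min_le_right _ _))
    rw [h5, hP z h0 h2] at h6
    have := lt_of_mul_lt_mul_left h6 hp.le
    linarith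
  have hweak : ∀ ψ : ℂ → ℝ, ContDiff ℝ ∞ ψ → HasCompactSupport ψ → (∀ x ∈ K, x ∉ tsupport ψ) →
      ∫ x, P x * lap ψ x = ∫ x, ψ x ∂ν := by
    intro ψ h1 h2 h3
    refine h.weak ψ h1 h2 fun x hx hPx => ?_
    by_contra h4
    push Not at h4
    refine h3 x ⟨hPx, fun z h5 h6 => h4 z h5 ?_⟩ hx
    have h7 := H.δs
    have h8 := H.s_lt
    have h9 : d ≤ δ := min_le_left _ _
    linarith
  have hR : ∀ z : ℂ, 0 < z.re → z.re < w₁ → ‖β (lam z)‖ ≤ R := fun z h1 h2 =>
    h.bdd _ (H.lam_pos z h1 h2) (H.lam_lt z h1 h2)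
  constructor
  · exact means_const (χ := fun w => β (lam w)) hw hp hχ hper hinj hP h.cont h.nonneg
      (h.closed d hd0) (fun x hx => hx.1) hcov hKχ h.null hweak hR h.nullR
  · intro φ h1 h2
    exact means_cont (χ := fun w => β (lam w)) hw hp hχ hper hinj hP h.cont h.nonneg
      (h.closed d hd0) (fun x hx => hx.1) hcov hKχ h.null hweak h1 h2

/-! ### Functions of the annulus -/

theorem log_exp_shift (z : ℂ) :
    ∃ n : ℤ, Complex.log (Complex.exp z) = z + n * (2 * Real.pi * Complex.I) := by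
  have h1 : Complex.exp (Complex.log (Complex.exp z)) = Complex.exp z :=
    Complex.exp_log (Complex.exp_ne_zero z)
  exact Complex.exp_eq_exp_iff_exists_int.1 h1

theorem per_log_exp {X : Type*} {f : ℂ → X} {a b : ℝ}
    (hf : ∀ z : ℂ, a < z.re → z.re < b → f (z + 2 * Real.pi * Complex.I) = f z) {z : ℂ}
    (h1 : a < z.re) (h2 : z.re < b) : f (Complex.log (Complex.exp z)) = f z := by
  obtain ⟨n, hn⟩ := log_exp_shift z
  rw [hn, per_int' hf n z h1 h2]

/-- A periodic holomorphic function in a strip is a holomorphic function in an annulus. -/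
theorem hol_log {f : ℂ → ℂ} {a b : ℝ}
    (hd : DifferentiableOn ℂ f {z : ℂ | a < z.re ∧ z.re < b})
    (hf : ∀ z : ℂ, a < z.re → z.re < b → f (z + 2 * Real.pi * Complex.I) = f z) :
    DifferentiableOn ℂ (fun ζ => f (Complex.log ζ)) {ζ | Real.exp a < ‖ζ‖ ∧ ‖ζ‖ < Real.exp b} := by
  intro ζ₀ hζ₀
  apply DifferentiableAt.differentiableWithinAt
  have h0 : ζ₀ ≠ 0 := by
    intro h
    have h1 := hζ₀.1
    rw [h, norm_zero] at h1
    exact absurd h1 (not_lt.2 (Real.exp_pos a).le)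
  have hre : ∀ ζ : ℂ, Real.exp a < ‖ζ‖ → ‖ζ‖ < Real.exp b → a < (Complex.log ζ).re ∧
      (Complex.log ζ).re < b := by
    intro ζ h1 h2
    rw [Complex.log_re]
    have h3 : 0 < ‖ζ‖ := (Real.exp_pos a).trans h1
    exact ⟨(Real.lt_log_iff_exp_lt h3).2 h1, (Real.log_lt_iff_lt_exp h3).2 h2⟩
  set ℓ : ℂ → ℂ := fun ζ => Complex.log (ζ / ζ₀) + Complex.log ζ₀ with hℓ
  have hℓ0 : ℓ ζ₀ = Complex.log ζ₀ := by simp [hℓ, div_self h0]
  have hℓd : DifferentiableAt ℂ ℓ ζ₀ := by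
    have h1 : DifferentiableAt ℂ (fun ζ : ℂ => ζ / ζ₀) ζ₀ := by fun_prop
    refine (h1.clog ?_).add_const _
    rw [div_self h0]
    exact Complex.one_mem_slitPlane
  have hfd : DifferentiableAt ℂ f (ℓ ζ₀) := by
    rw [hℓ0]
    have h1 := hre ζ₀ hζ₀.1 hζ₀.2
    exact hd.differentiableAt ((isOpen_strip a b).mem_nhds h1)
  refine (hfd.comp ζ₀ hℓd).congr_of_eventuallyEq ?_
  have hopen : IsOpen {ζ : ℂ | Real.exp a < ‖ζ‖ ∧ ‖ζ‖ < Real.exp b} :=
    (isOpen_lt continuous_const continuous_norm).inter (isOpen_lt continuous_norm continuous_const)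
  filter_upwards [hopen.mem_nhds hζ₀] with ζ hζ
  have hz : ζ ≠ 0 := by
    intro h
    have h1 := hζ.1
    rw [h, norm_zero] at h1
    exact absurd h1 (not_lt.2 (Real.exp_pos a).le)
  have h1 : Complex.exp (ℓ ζ) = Complex.exp (Complex.log ζ) := by
    simp only [hℓ]
    rw [Complex.exp_add, Complex.exp_log h0, Complex.exp_log (div_ne_zero hz h0),
      Complex.exp_log hz, div_mul_cancel₀ _ h0]
  obtain ⟨n, hn⟩ := Complex.exp_eq_exp_iff_exists_int.1 h1
  have h2 := hre ζ hζ.1 hζ.2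
  show f (Complex.log ζ) = f (ℓ ζ)
  rw [hn, per_int' hf n _ h2.1 h2.2]

/-- Means over circles outside. -/
theorem circ_out {u : ℂ → ℝ} {χ : ℂ → ℂ} {w₁ : ℝ}
    (hper : ∀ z : ℂ, 0 < z.re → z.re < w₁ → χ (z + 2 * Real.pi * Complex.I) = χ z) {c : ℝ}
    (h0 : 0 < c) (h1 : c < w₁) :
    Real.circleAverage (fun ζ => u (χ (Complex.log ζ))) 0 (Real.exp c) =
      (2 * Real.pi)⁻¹ * ∫ θ in (0 : ℝ)..(2 * Real.pi), u (χ ((c : ℂ) + θ * Complex.I)) := by
  rw [Real.circleAverage_def, smul_eq_mul]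
  congr 1
  refine intervalIntegral.integral_congr fun θ _ => ?_
  have e : circleMap 0 (Real.exp c) θ = Complex.exp ((c : ℂ) + θ * Complex.I) := by
    rw [circleMap, zero_add, Complex.exp_add, Complex.ofReal_exp]
  simp only [e]
  rw [per_log_exp (f := χ) hper (by simpa using h0) (by simpa using h1)]

/-- Means over circles inside. -/
theorem circ_in {u : ℂ → ℝ} {χ : ℂ → ℂ} {w₁ : ℝ}
    (hper : ∀ z : ℂ, 0 < z.re → z.re < w₁ → χ (z + 2 * Real.pi * Complex.I) = χ z) {c : ℝ}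
    (h0 : 0 < c) (h1 : c < w₁) :
    Real.circleAverage (fun ζ => u (χ (Complex.log ζ⁻¹))) 0 (Real.exp (-c)) =
      (2 * Real.pi)⁻¹ * ∫ θ in (0 : ℝ)..(2 * Real.pi), u (χ ((c : ℂ) + θ * Complex.I)) := by
  rw [Real.circleAverage_def, smul_eq_mul]
  congr 1
  set v : ℝ → ℝ := fun θ => u (χ ((c : ℂ) + θ * Complex.I)) with hv
  have hvp : Function.Periodic v (2 * Real.pi) := by
    intro θ
    simp only [hv]
    have e : (c : ℂ) + ((θ + 2 * Real.pi : ℝ) : ℂ) * Complex.I =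
        ((c : ℂ) + θ * Complex.I) + 2 * Real.pi * Complex.I := by
      push_cast
      ring
    rw [e, hper _ (by simpa using h0) (by simpa using h1)]
  have e1 : ∀ θ : ℝ, u (χ (Complex.log (circleMap 0 (Real.exp (-c)) θ)⁻¹)) = v (-θ) := by
    intro θ
    have e : (circleMap 0 (Real.exp (-c)) θ)⁻¹ =
        Complex.exp ((c : ℂ) + ((-θ : ℝ) : ℂ) * Complex.I) := by
      rw [circleMap, zero_add, Complex.ofReal_exp, ← Complex.exp_add, ← Complex.exp_neg]
      congr 1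
      push_cast
      ring
    rw [e, per_log_exp (f := χ) hper (by simpa using h0) (by simpa using h1)]
  rw [intervalIntegral.integral_congr fun θ _ => e1 θ, intervalIntegral.integral_comp_neg]
  have h2 := hvp.intervalIntegral_add_eq (-(2 * Real.pi)) 0
  rw [neg_add_cancel, zero_add] at h2
  rw [neg_zero]
  exact h2

end Pool.Agent.FB018
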