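import Pool.Agent.Lib.MP_018119_an_FB.PSide
import Pool.Agent.Lib.MP_018119_an_FB.PRm

/-!
# MP_018119_an, project FB: the two phases in periodic coordinates
-/

set_option autoImplicit false

open Topology Filter Set Metric MeasureTheory
open scoped ContDiff

namespace Pool.Agent.FB018

variable {F : ℂ ≃ₜ ℂ} {s r : ℝ} {A B : ℂ → ℝ} {T : Measure ℂ}

theorem exp_neg_mem {z : ℂ} (hz : 0 < z.re) : Complex.exp (-z) ∈ ball (0 : ℂ) 1 := by
  rw [mem_ball_zero_iff, Complex.norm_exp, Complex.neg_re, Real.exp_lt_one_iff]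
  linarith

/-- A point of the punctured disc is `exp (-z)`. -/
theorem exists_exp_neg {ζ : ℂ} (h0 : ζ ≠ 0) : ∃ z : ℂ, Complex.exp (-z) = ζ ∧
    z.re = -Real.log ‖ζ‖ := by
  refine ⟨-Complex.log ζ, ?_, ?_⟩
  · rw [neg_neg, Complex.exp_log h0]
  · rw [Complex.neg_re, Complex.log_re]

theorem RM.hol_exp {U : Set ℂ} {z₀ : ℂ} {g G : ℂ → ℂ} (h : RM U z₀ g G) :
    DifferentiableOn ℂ (fun z => g (Complex.exp (-z))) {z : ℂ | 0 < z.re} := by
  refine h.hol.comp ?_ fun z hz => exp_neg_mem hz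
  exact fun z _ => (differentiableAt_id.neg.cexp).differentiableWithinAt

theorem RM.inj_exp {U : Set ℂ} {z₀ : ℂ} {g G : ℂ → ℂ} (h : RM U z₀ g G) {z w : ℂ}
    (hz : 0 < z.re) (hw : 0 < w.re) (hzw : g (Complex.exp (-z)) = g (Complex.exp (-w))) :
    ∃ n : ℤ, z = w + n * (2 * Real.pi * Complex.I) := by
  have h1 := h.inj (exp_neg_mem hz) (exp_neg_mem hw) hzw
  obtain ⟨n, hn⟩ := Complex.exp_eq_exp_iff_exists_int.1 h1
  refine ⟨-n, ?_⟩
  push_cast
  linear_combination -hn

theorem exp_neg_per (z : ℂ) :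
    Complex.exp (-(z + 2 * Real.pi * Complex.I)) = Complex.exp (-z) := by
  rw [neg_add, Complex.exp_add, Complex.exp_neg (2 * Real.pi * Complex.I), Complex.exp_two_pi_mul_I,
    inv_one, mul_one]

/-- Near the line the points `g (exp (-z))` leave every compact subset. -/
theorem RM.leave {U : Set ℂ} {z₀ : ℂ} {g G : ℂ → ℂ} (h : RM U z₀ g G) {C : Set ℂ}
    (hC : IsCompact C) (hCU : C ⊆ U) :
    ∃ δ > 0, ∀ z : ℂ, 0 < z.re → z.re < δ → g (Complex.exp (-z)) ∉ C := by
  obtain ⟨ρ, hρ, h1⟩ := h.proper hC hCU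
  set ρ' : ℝ := max ρ (1 / 2) with hρ'
  have h2 : ρ' < 1 := max_lt hρ (by norm_num)
  have h3 : 0 < ρ' := lt_max_of_lt_right (by norm_num)
  refine ⟨-Real.log ρ', by have := Real.log_neg h3 h2; linarith, fun z hz1 hz2 => ?_⟩
  refine h1 _ (exp_neg_mem hz1) ?_
  rw [Complex.norm_exp, Complex.neg_re]
  refine (le_max_left ρ (1 / 2)).trans_lt ?_
  rw [← Real.log_lt_iff_lt_exp h3]
  linarith

/-- **The inner phase.** -/
theorem TP.sideA (H : TP F s r A B T) {g G : ℂ → ℂ} (h : RM {z | 0 < A z} 0 g G) :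
    ∃ S R : ℝ, PSd A (fun z => g (Complex.exp (-z))) S R T := by
  have hfin := H.T_fin
  -- the plateau is left near the circle
  have hq : IsCompact {z | sn z ≤ s} := by
    refine Metric.isCompact_of_isClosed_isBounded (isClosed_le sn_cont continuous_const) ?_
    exact (sq_bdd (s + 1)).subset fun z hz => by
      show sn z < s + 1
      have : sn z ≤ s := hz
      linarith
  obtain ⟨S, hS, hS1⟩ := h.leave hq fun z hz => by
    show 0 < A z
    rw [H.A_one z hz]; exact one_pos
  obtain ⟨R, hR⟩ := H.bdd_A'.subset_closedBall (0 : ℂ)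
  refine ⟨S, R, ⟨hS, hfin, H.A_cont, H.A_nonneg, h.hol_exp, fun z => by rw [exp_neg_per], ?_, ?_,
    ?_, ?_, ?_, ?_, H.T_A, ?_, ?_⟩⟩
  · intro z w hz hw hzw
    exact h.inj_exp hz hw hzw
  · intro z hz
    exact h.maps (exp_neg_mem hz)
  · intro z h1 h2
    exact H.hmA (not_le.1 (hS1 z h1 h2)) (h.maps (exp_neg_mem h1))
  · intro ε hε
    have hc : IsCompact {x | ε ≤ A x} := by
      refine Metric.isCompact_of_isClosed_isBounded (isClosed_le continuous_const H.A_cont) ?_
      exact H.bdd_A.subset fun x hx => hε.trans_le hx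
    obtain ⟨δ, hδ, h1⟩ := h.leave hc fun x hx => hε.trans_le hx
    exact ⟨δ, hδ, fun z h2 h3 => not_le.1 (h1 z h2 h3)⟩
  · intro δ hδ
    have h1 : {x | 0 < A x ∧ ∀ z : ℂ, 0 < z.re → z.re < δ → g (Complex.exp (-z)) ≠ x} =
        g '' closedBall 0 (Real.exp (-δ)) := by
      ext x
      constructor
      · rintro ⟨hx, h2⟩
        refine ⟨G x, ?_, h.right x hx⟩
        rw [mem_closedBall, dist_zero_right]
        by_contra h3
        push Not at h3
        have h4 : G x ≠ 0 := by
          intro h5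
          rw [h5, norm_zero] at h3
          exact absurd h3 (not_lt.2 (Real.exp_pos _).le)
        obtain ⟨z, hz1, hz2⟩ := exists_exp_neg h4
        have h5 : ‖G x‖ < 1 := by simpa using h.inv_maps hx
        have h6 : 0 < ‖G x‖ := norm_pos_iff.2 h4
        refine h2 z ?_ ?_ ?_
        · rw [hz2]
          have := Real.log_neg h6 h5
          linarith
        · rw [hz2]
          have := (Real.lt_log_iff_exp_lt h6).2 h3
          linarith
        · rw [hz1, h.right x hx]
      · rintro ⟨ζ, hζ, rfl⟩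
        rw [mem_closedBall, dist_zero_right] at hζ
        have hζ1 : ζ ∈ ball (0 : ℂ) 1 := by
          rw [mem_ball_zero_iff]
          exact hζ.trans_lt (by rw [Real.exp_lt_one_iff]; linarith)
        refine ⟨h.maps hζ1, fun z hz1 hz2 hz3 => ?_⟩
        have h2 := h.inj (exp_neg_mem hz1) hζ1 hz3
        rw [← h2, Complex.norm_exp, Complex.neg_re, Real.exp_le_exp] at hζ
        linarith
    rw [h1]
    have h2 : IsCompact (closedBall (0 : ℂ) (Real.exp (-δ))) := isCompact_closedBall _ _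
    refine (h2.image_of_continuousOn (h.hol.continuousOn.mono ?_)).isClosed
    exact closedBall_subset_ball (by rw [Real.exp_lt_one_iff]; linarith)
  · intro z h1 _
    have h2 := hR (H.lt_r (h.maps (exp_neg_mem h1)))
    simpa using h2
  · refine measure_mono_null ?_ H.T_out
    intro x hx
    right
    by_contra h1
    exact hx (hR (not_le.1 h1))
  · intro ψ h1 h2 h3
    refine H.weakA ψ h1 h2 fun x hx => ?_
    show s < sn x
    by_contra h4
    push Not at h4
    obtain ⟨z, hz1, hz2, hz3⟩ := h3 x hx (by rw [H.A_one x h4]; exact one_pos)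
    refine hS1 z hz1 hz2 ?_
    show sn (g (Complex.exp (-z))) ≤ s
    have : g (Complex.exp (-z)) = x := hz3
    rw [this]
    exact h4

/-- **The outer phase.** -/
theorem TP.sideB (H : TP F s r A B T) {g G : ℂ → ℂ} (h : RM (invDom {w | 0 < B w}) 0 g G) :
    ∃ S R : ℝ, PSd B (fun z => (g (Complex.exp (-z)))⁻¹) S R (T.map F) ∧
      ∀ z : ℂ, 0 < z.re → z.re < S → sn (g (Complex.exp (-z)))⁻¹ < r := by
  have hfin := H.T_fin
  have hne : ∀ z : ℂ, 0 < z.re → g (Complex.exp (-z)) ≠ 0 := by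
    intro z hz h1
    have h2 := h.inj (exp_neg_mem hz) (mem_ball_self one_pos) (by rw [h1, h.zero])
    exact Complex.exp_ne_zero _ h2
  have hBpos : ∀ z : ℂ, 0 < z.re → 0 < B (g (Complex.exp (-z)))⁻¹ := by
    intro z hz
    rcases h.maps (exp_neg_mem hz) with h1 | h1
    · exact absurd h1 (hne z hz)
    · exact h1
  obtain ⟨ρ, hρ, hB0⟩ := H.B_zero_near
  -- compact subsets of the `v` domain
  have hcomp : ∀ E : Set ℂ, IsClosed E → E ⊆ {w | 0 < B w} → (∃ R, ∀ w : ℂ, R < ‖w‖ → w ∈ E) →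
      IsCompact (invDom E) ∧ invDom E ⊆ invDom {w | 0 < B w} := by
    intro E hE hEB hER
    obtain ⟨R, hR⟩ := hER
    have hsub : invDom E ⊆ invDom {w | 0 < B w} := by
      rintro v (hv | hv)
      · exact Or.inl hv
      · exact Or.inr (hEB hv)
    refine ⟨Metric.isCompact_of_isClosed_isBounded ?_ (h.bdd.subset hsub), hsub⟩
    rw [← isOpen_compl_iff, isOpen_iff_mem_nhds]
    intro v hv
    have hv0 : v ≠ 0 := fun h0 => hv (Or.inl h0)
    have hvE : v⁻¹ ∉ E := fun h0 => hv (Or.inr h0)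
    have h1 : ∀ᶠ x in 𝓝 v, x⁻¹ ∈ Eᶜ :=
      (continuousAt_inv₀ hv0).eventually_mem (hE.isOpen_compl.mem_nhds hvE)
    filter_upwards [h1, isOpen_ne.mem_nhds hv0] with x hx1 hx2
    rintro (hx | hx)
    · exact hx2 hx
    · exact hx1 hx
  have hfar : ∀ w : ℂ, 2 * r < ‖w‖ → r ≤ sn w := by
    intro w hw
    have := norm_le_sn w
    linarith
  -- the plateau
  obtain ⟨hq1, hq2⟩ := hcomp {w | r ≤ sn w} (isClosed_le continuous_const sn_cont)
    (fun w hw => by
      show 0 < B w
      rw [H.B_one w hw]; exact one_pos) ⟨2 * r, hfar⟩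
  obtain ⟨S, hS, hS1⟩ := h.leave hq1 hq2
  have hS2 : ∀ z : ℂ, 0 < z.re → z.re < S → sn (g (Complex.exp (-z)))⁻¹ < r := by
    intro z h1 h2
    by_contra h3
    exact hS1 z h1 h2 (Or.inr (not_lt.1 h3))
  have hmapfin : IsFiniteMeasure (T.map F) := by
    constructor
    rw [Measure.map_apply F.continuous.measurable MeasurableSet.univ]
    exact measure_lt_top _ _
  refine ⟨S, 2 * r, ⟨hS, hmapfin, H.B_cont, H.B_nonneg, ?_, fun z => by rw [exp_neg_per], ?_,
    hBpos, ?_, ?_, ?_, ?_, ?_, ?_, ?_⟩, hS2⟩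
  · exact h.hol_exp.inv fun z hz => hne z hz
  · intro z w hz hw hzw
    exact h.inj_exp hz hw (inv_injective hzw)
  · intro z h1 h2
    exact H.hmB (hS2 z h1 h2) (hBpos z h1)
  · intro ε hε
    rcases le_or_gt ε 1 with he | he
    · obtain ⟨hc1, hc2⟩ := hcomp {w | ε ≤ B w} (isClosed_le continuous_const H.B_cont)
        (fun w hw => hε.trans_le hw) ⟨2 * r, fun w hw => by
          show ε ≤ B w
          rw [H.B_one w (hfar w hw)]; exact he⟩
      obtain ⟨δ, hδ, h1⟩ := h.leave hc1 hc2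
      refine ⟨δ, hδ, fun z h2 h3 => ?_⟩
      by_contra h4
      exact h1 z h2 h3 (Or.inr (not_lt.1 h4))
    · exact ⟨1, one_pos, fun z _ _ => (H.B_le _).trans_lt he⟩
  · intro δ hδ
    set C : Set ℂ := g '' closedBall 0 (Real.exp (-δ)) with hC
    have hsubb : closedBall (0 : ℂ) (Real.exp (-δ)) ⊆ ball 0 1 :=
      closedBall_subset_ball (by rw [Real.exp_lt_one_iff]; linarith)
    have hCc : IsCompact C :=
      (isCompact_closedBall (0 : ℂ) _).image_of_continuousOn (h.hol.continuousOn.mono hsubb)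
    have h1 : {x | 0 < B x ∧ ∀ z : ℂ, 0 < z.re → z.re < δ → (g (Complex.exp (-z)))⁻¹ ≠ x} =
        {x | x ≠ 0 ∧ x⁻¹ ∈ C} := by
      ext x
      constructor
      · rintro ⟨hx, h2⟩
        have hx0 : x ≠ 0 := by
          intro h3
          have h4 := hB0 0 (mem_ball_self hρ)
          rw [h3, h4] at hx
          exact lt_irrefl _ hx
        have hxU : x⁻¹ ∈ invDom {w | 0 < B w} := Or.inr (by
          show 0 < B (x⁻¹)⁻¹
          rw [inv_inv]; exact hx)
        refine ⟨hx0, G x⁻¹, ?_, h.right _ hxU⟩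
        rw [mem_closedBall, dist_zero_right]
        by_contra h3
        push Not at h3
        have h4 : G x⁻¹ ≠ 0 := by
          intro h5
          rw [h5, norm_zero] at h3
          exact absurd h3 (not_lt.2 (Real.exp_pos _).le)
        obtain ⟨z, hz1, hz2⟩ := exists_exp_neg h4
        have h5 : ‖G x⁻¹‖ < 1 := by simpa using h.inv_maps hxU
        have h6 : 0 < ‖G x⁻¹‖ := norm_pos_iff.2 h4
        refine h2 z ?_ ?_ ?_
        · rw [hz2]
          have := Real.log_neg h6 h5
          linarith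
        · rw [hz2]
          have := (Real.lt_log_iff_exp_lt h6).2 h3
          linarith
        · rw [hz1, h.right _ hxU, inv_inv]
      · rintro ⟨hx0, ζ, hζ, hζx⟩
        have hζ1 := hsubb hζ
        have hxU : x⁻¹ ∈ invDom {w | 0 < B w} := by rw [← hζx]; exact h.maps hζ1
        refine ⟨?_, fun z hz1 hz2 hz3 => ?_⟩
        · rcases hxU with h2 | h2
          · exact absurd h2 (inv_ne_zero hx0)
          · have h3 : 0 < B (x⁻¹)⁻¹ := h2
            rwa [inv_inv] at h3
        · have h2 : g (Complex.exp (-z)) = g ζ := by rw [hζx, ← hz3, inv_inv]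
          have h3 := h.inj (exp_neg_mem hz1) hζ1 h2
          rw [mem_closedBall, dist_zero_right, ← h3, Complex.norm_exp, Complex.neg_re,
            Real.exp_le_exp] at hζ
          linarith
    rw [h1, ← isOpen_compl_iff, isOpen_iff_mem_nhds]
    intro x hx
    by_cases hx0 : x = 0
    · -- near `0` the inverse is large
      obtain ⟨R, hR⟩ := hCc.isBounded.subset_closedBall (0 : ℂ)
      have hR' : 0 < max R 1 := lt_max_of_lt_right one_pos
      have h2 : ball (0 : ℂ) (max R 1)⁻¹ ∈ 𝓝 x := by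
        rw [hx0]
        exact ball_mem_nhds _ (inv_pos.2 hR')
      filter_upwards [h2] with y hy
      rintro ⟨hy0, hyC⟩
      have h3 := hR hyC
      rw [mem_closedBall, dist_zero_right, norm_inv] at h3
      rw [mem_ball_zero_iff] at hy
      have h4 : 0 < ‖y‖ := norm_pos_iff.2 hy0
      have h5 : max R 1 < ‖y‖⁻¹ := (lt_inv_comm₀ hR' h4).2 hy
      have := le_max_left R 1
      linarith
    · have hxC : x⁻¹ ∉ C := fun h2 => hx ⟨hx0, h2⟩
      have h2 : ∀ᶠ y in 𝓝 x, y⁻¹ ∈ Cᶜ :=
        (continuousAt_inv₀ hx0).eventually_mem (hCc.isClosed.isOpen_compl.mem_nhds hxC)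
      filter_upwards [h2] with y hy
      rintro ⟨-, hyC⟩
      exact hy hyC
  · intro z h1 h2
    have h3 := norm_le_sn (g (Complex.exp (-z)))⁻¹
    have h4 := hS2 z h1 h2
    linarith
  · rw [Measure.map_apply F.continuous.measurable H.isOpen_B.measurableSet]
    exact H.T_B
  · rw [Measure.map_apply F.continuous.measurable isClosed_closedBall.isOpen_compl.measurableSet]
    refine measure_mono_null ?_ H.T_out
    intro x hx
    right
    have hx : F x ∉ closedBall (0 : ℂ) (2 * r) := hx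
    rw [mem_closedBall, dist_zero_right] at hx
    exact hfar _ (not_le.1 hx)
  · intro ψ h1 h2 h3
    rw [integral_map F.continuous.measurable.aemeasurable h1.continuous.aestronglyMeasurable]
    refine H.weakB ψ h1 h2 fun x hx => ?_
    show sn x < r
    by_contra h4
    push Not at h4
    obtain ⟨z, hz1, hz2, hz3⟩ := h3 x hx (by rw [H.B_one x h4]; exact one_pos)
    have h5 := hS2 z hz1 hz2
    have h6 : (g (Complex.exp (-z)))⁻¹ = x := hz3
    rw [h6] at h5
    linarith

end Pool.Agent.FB018
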