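import Pool.Agent.Lib.MP_018119_an_FB.HmB

/-!
# MP_018119_an, project FB: periodic harmonic functions in a strip

Maximum principle and the Hopf lemma for a positive periodic harmonic function in the strip
`0 < re z < S` which tends to zero at the line `re z = 0`.
-/

set_option autoImplicit false

open Topology Filter Set Metric

namespace Pool.Agent.FB018

/-- A positive harmonic function in the strip `0 < re z < S`, periodic, zero on the left line. -/
structure Col (b : ℂ → ℝ) (S : ℝ) : Prop where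
  pos : 0 < S
  hm : ∀ z : ℂ, 0 < z.re → z.re < S → Hm b z
  per : ∀ z : ℂ, b (z + 2 * Real.pi * Complex.I) = b z
  bpos : ∀ z : ℂ, 0 < z.re → z.re < S → 0 < b z
  lim : ∀ ε > 0, ∃ δ > 0, ∀ z : ℂ, 0 < z.re → z.re < δ → b z < ε

theorem re_period (z : ℂ) (n : ℤ) : (z - n • (2 * Real.pi * Complex.I : ℂ)).re = z.re := by
  simp

theorem im_period (z : ℂ) (n : ℤ) :
    (z - n • (2 * Real.pi * Complex.I : ℂ)).im = z.im - n * (2 * Real.pi) := by
  simp

/-- Every point can be moved by a period into a fixed rectangle. -/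
theorem exists_period (z : ℂ) :
    ∃ n : ℤ, 0 ≤ (z - n • (2 * Real.pi * Complex.I : ℂ)).im ∧
      (z - n • (2 * Real.pi * Complex.I : ℂ)).im < 2 * Real.pi := by
  have hpi : (0 : ℝ) < 2 * Real.pi := Real.two_pi_pos
  refine ⟨⌊z.im / (2 * Real.pi)⌋, ?_, ?_⟩
  · rw [im_period]
    have := Int.floor_le (z.im / (2 * Real.pi))
    rw [le_div_iff₀ hpi] at this
    linarith
  · rw [im_period]
    have := Int.lt_floor_add_one (z.im / (2 * Real.pi))
    rw [div_lt_iff₀ hpi] at this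
    linarith

/-- The compact rectangle `a ≤ re ≤ b`, `0 ≤ im ≤ 2π`. -/
theorem isCompact_rect (a b : ℝ) :
    IsCompact {z : ℂ | (a ≤ z.re ∧ z.re ≤ b) ∧ 0 ≤ z.im ∧ z.im ≤ 2 * Real.pi} := by
  have h : {z : ℂ | (a ≤ z.re ∧ z.re ≤ b) ∧ 0 ≤ z.im ∧ z.im ≤ 2 * Real.pi} =
      Icc a b ×ℂ Icc 0 (2 * Real.pi) := by
    ext z
    simp [Complex.mem_reProdIm]
  rw [h]
  exact isCompact_Icc.reProdIm isCompact_Icc

/-- Maximum principle for periodic harmonic functions in a strip. -/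
theorem per_max {a b c : ℝ} (hab : a ≤ b) {u : ℂ → ℝ}
    (hu : ∀ z : ℂ, a < z.re → z.re < b → Hm u z)
    (hc : ContinuousOn u {z : ℂ | a ≤ z.re ∧ z.re ≤ b})
    (hper : ∀ z : ℂ, u (z + 2 * Real.pi * Complex.I) = u z)
    (ha : ∀ z : ℂ, z.re = a → u z ≤ c) (hb : ∀ z : ℂ, z.re = b → u z ≤ c) :
    ∀ z : ℂ, a ≤ z.re → z.re ≤ b → u z ≤ c := by
  have hP : Function.Periodic u (2 * Real.pi * Complex.I) := hper
  set K : Set ℂ := {z : ℂ | (a ≤ z.re ∧ z.re ≤ b) ∧ 0 ≤ z.im ∧ z.im ≤ 2 * Real.pi} with hK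
  have hKc : IsCompact K := isCompact_rect a b
  have hne : K.Nonempty := ⟨(a : ℂ), by simp [hK, hab, Real.pi_pos.le]⟩
  obtain ⟨x₀, hx₀, hmax⟩ := hKc.exists_isMaxOn hne (hc.mono fun z hz => hz.1)
  have hmx : ∀ z : ℂ, a ≤ z.re → z.re ≤ b → u z ≤ u x₀ := by
    intro z h1 h2
    obtain ⟨n, hn1, hn2⟩ := exists_period z
    have h3 : u (z - n • (2 * Real.pi * Complex.I : ℂ)) = u z := hP.sub_zsmul_eq n
    rw [← h3]
    apply hmax
    refine ⟨⟨?_, ?_⟩, hn1, hn2.le⟩
    · rw [re_period]; exact h1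
    · rw [re_period]; exact h2
  by_contra hcon
  push Not at hcon
  obtain ⟨z, hz1, hz2, hz3⟩ := hcon
  have hbig : c < u x₀ := hz3.trans_le (hmx z hz1 hz2)
  set E : Set ℂ := {z | (a ≤ z.re ∧ z.re ≤ b) ∧ u x₀ ≤ u z} with hE
  have hEc : IsClosed E := by
    have h1 : IsClosed {z : ℂ | a ≤ z.re ∧ z.re ≤ b} :=
      (isClosed_le continuous_const Complex.continuous_re).inter
        (isClosed_le Complex.continuous_re continuous_const)
    exact hc.preimage_isClosed_of_isClosed h1 (isClosed_Ici (a := u x₀))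
  have hin : ∀ w ∈ E, a < w.re ∧ w.re < b := by
    intro w hw
    constructor
    · refine lt_of_le_of_ne hw.1.1 fun h => ?_
      have := ha w h.symm
      linarith [hw.2]
    · refine lt_of_le_of_ne hw.1.2 fun h => ?_
      have := hb w h
      linarith [hw.2]
  have hso : IsOpen {z : ℂ | a < z.re ∧ z.re < b} :=
    (isOpen_lt continuous_const Complex.continuous_re).inter
      (isOpen_lt Complex.continuous_re continuous_const)
  have hEo : IsOpen E := by
    rw [isOpen_iff_mem_nhds]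
    intro w hw
    have hs := hso.mem_nhds (hin w hw)
    have hle : ∀ᶠ x in 𝓝 w, u x ≤ u w := by
      filter_upwards [hs] with x hx
      exact (hmx x hx.1.le hx.2.le).trans hw.2
    filter_upwards [(hu w (hin w hw).1 (hin w hw).2).localMax hle, hs] with x hx hx2
    exact ⟨⟨hx2.1.le, hx2.2.le⟩, by rw [hx]; exact hw.2⟩
  have hEu : E = univ := IsClopen.eq_univ ⟨hEc, hEo⟩ ⟨x₀, hx₀.1, le_rfl⟩
  have hm : (((b + 1 : ℝ) : ℂ)) ∈ E := by rw [hEu]; exact mem_univ _
  have := hm.1.2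
  rw [Complex.ofReal_re] at this
  linarith

/-- Lower bound. -/
theorem Col.lower {b : ℂ → ℝ} {S : ℝ} (h : Col b S) {S' : ℝ} (h0 : 0 < S') (h1 : S' < S) :
    ∃ c > 0, ∀ z : ℂ, 0 < z.re → z.re ≤ S' → c * z.re ≤ b z := by
  have hP : Function.Periodic b (2 * Real.pi * Complex.I) := h.per
  set K : Set ℂ := {z : ℂ | (S' ≤ z.re ∧ z.re ≤ S') ∧ 0 ≤ z.im ∧ z.im ≤ 2 * Real.pi} with hK
  have hKc : IsCompact K := isCompact_rect S' S'
  have hne : K.Nonempty := ⟨(S' : ℂ), by simp [hK, Real.pi_pos.le]⟩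
  have hcK : ContinuousOn b K := fun z hz =>
    (h.hm z (h0.trans_le hz.1.1) (hz.1.2.trans_lt h1)).continuousAt.continuousWithinAt
  obtain ⟨x₀, hx₀, hmin⟩ := hKc.exists_isMinOn hne hcK
  have hx0 : 0 < b x₀ := h.bpos x₀ (h0.trans_le hx₀.1.1) (hx₀.1.2.trans_lt h1)
  have hline : ∀ z : ℂ, z.re = S' → b x₀ ≤ b z := by
    intro z hz
    obtain ⟨n, hn1, hn2⟩ := exists_period z
    have h3 : b (z - n • (2 * Real.pi * Complex.I : ℂ)) = b z := hP.sub_zsmul_eq n
    rw [← h3]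
    apply hmin
    refine ⟨⟨?_, ?_⟩, hn1, hn2.le⟩
    · rw [re_period]; exact hz.ge
    · rw [re_period]; exact hz.le
  refine ⟨b x₀ / S', by positivity, fun z hz1 hz2 => ?_⟩
  set c := b x₀ / S' with hc
  have hcp : 0 < c := by positivity
  -- compare on `δ ≤ re ≤ S'`
  have key : ∀ δ : ℝ, 0 < δ → δ < z.re → c * z.re - b z ≤ c * δ := by
    intro δ hδ hδz
    have hin : ∀ w : ℂ, δ ≤ w.re → w.re ≤ S' → Hm b w := fun w hw1 hw2 =>
      h.hm w (hδ.trans_le hw1) (hw2.trans_lt h1)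
    refine per_max (u := fun w => c * w.re - b w) (hδz.le.trans hz2) ?_ ?_ ?_ ?_ ?_ z hδz.le hz2
    · intro w hw1 hw2
      exact ((Hm.re w).const_mul c).sub (hin w hw1.le hw2.le)
    · intro w hw
      exact (((Hm.re w).const_mul c).sub (hin w hw.1 hw.2)).continuousAt.continuousWithinAt
    · intro w
      rw [h.per]
      simp
    · intro w hw
      have := h.bpos w (by rw [hw]; exact hδ) (by rw [hw]; linarith)
      rw [hw]
      linarith
    · intro w hw
      have h3 := hline w hw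
      have h4 : c * w.re = b x₀ := by
        rw [hw, hc]
        field_simp
      have : 0 < c * δ := by positivity
      linarith
  by_contra hcon
  push Not at hcon
  have h5 : 0 < c * z.re - b z := by linarith
  have h6 := key (min (z.re / 2) ((c * z.re - b z) / (2 * c))) (by positivity)
    ((min_le_left _ _).trans_lt (by linarith))
  have h7 : c * min (z.re / 2) ((c * z.re - b z) / (2 * c)) ≤ (c * z.re - b z) / 2 := by
    calc c * min (z.re / 2) ((c * z.re - b z) / (2 * c)) ≤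
        c * ((c * z.re - b z) / (2 * c)) := by gcongr; exact min_le_right _ _
      _ = (c * z.re - b z) / 2 := by field_simp
  linarith

/-- A holomorphic function with zero real part is constant. -/
theorem re_zero_const {V : Set ℂ} (hV : IsOpen V) (hVc : IsPreconnected V) {d : ℂ → ℂ}
    (hd : DifferentiableOn ℂ d V) (h0 : ∀ z ∈ V, (d z).re = 0) {z w : ℂ} (hz : z ∈ V)
    (hw : w ∈ V) : d z = d w := by
  rcases (hd.analyticOnNhd hV).is_constant_or_isOpen hVc with ⟨c, hc⟩ | h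
  · rw [hc z hz, hc w hw]
  · exfalso
    have h1 := h V subset_rfl hV
    obtain ⟨ε, hε, h2⟩ := Metric.isOpen_iff.1 h1 (d z) ⟨z, hz, rfl⟩
    have h3 : d z + ((ε / 2 : ℝ) : ℂ) ∈ ball (d z) ε := by
      rw [mem_ball, dist_eq_norm, add_sub_cancel_left, Complex.norm_real, Real.norm_of_nonneg
        (by positivity)]
      linarith
    obtain ⟨x, hx, hx2⟩ := h2 h3
    have h4 := h0 x hx
    rw [hx2, Complex.add_re, h0 z hz, Complex.ofReal_re] at h4
    linarith

theorem isOpen_strip (a b : ℝ) : IsOpen {z : ℂ | a < z.re ∧ z.re < b} :=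
  (isOpen_lt continuous_const Complex.continuous_re).inter
    (isOpen_lt Complex.continuous_re continuous_const)

theorem convex_strip (a b : ℝ) : Convex ℝ {z : ℂ | a < z.re ∧ z.re < b} :=
  (convex_halfSpace_re_gt a).inter (convex_halfSpace_re_lt b)

/-- Conjugate function and its period. -/
theorem Col.exists_H {b : ℂ → ℝ} {S : ℝ} (h : Col b S) :
    ∃ (H : ℂ → ℂ) (κ : ℝ), DifferentiableOn ℂ H {z : ℂ | 0 < z.re ∧ z.re < S} ∧
      (∀ z : ℂ, 0 < z.re → z.re < S → (H z).re = b z) ∧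
      ∀ z : ℂ, 0 < z.re → z.re < S → H (z + 2 * Real.pi * Complex.I) = H z + κ * Complex.I := by
  obtain ⟨H, hH, hre⟩ := exists_conj (isOpen_strip 0 S) (convex_strip 0 S) (u := b)
    (fun z hz => h.hm z hz.1 hz.2)
  have hS := h.pos
  have hsh : ∀ z : ℂ, (z + 2 * Real.pi * Complex.I).re = z.re := fun z => by simp
  have hmaps : ∀ z ∈ {z : ℂ | 0 < z.re ∧ z.re < S},
      z + 2 * Real.pi * Complex.I ∈ {z : ℂ | 0 < z.re ∧ z.re < S} := by
    intro z hz
    exact ⟨by rw [hsh]; exact hz.1, by rw [hsh]; exact hz.2⟩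
  have hd : DifferentiableOn ℂ (fun z => H (z + 2 * Real.pi * Complex.I) - H z)
      {z : ℂ | 0 < z.re ∧ z.re < S} :=
    (hH.comp (differentiableOn_id.add_const _) hmaps).sub hH
  have h0 : ∀ z ∈ {z : ℂ | 0 < z.re ∧ z.re < S},
      (H (z + 2 * Real.pi * Complex.I) - H z).re = 0 := by
    intro z hz
    rw [Complex.sub_re, hre z hz, hre _ (hmaps z hz), h.per, sub_self]
  have hz₀ : ((S / 2 : ℝ) : ℂ) ∈ {z : ℂ | 0 < z.re ∧ z.re < S} := by
    constructor
    · rw [Complex.ofReal_re]; positivity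
    · rw [Complex.ofReal_re]; linarith
  refine ⟨H, (H (((S / 2 : ℝ) : ℂ) + 2 * Real.pi * Complex.I) - H ((S / 2 : ℝ) : ℂ)).im, hH,
    fun z h1 h2 => hre z ⟨h1, h2⟩, fun z h1 h2 => ?_⟩
  have h3 := re_zero_const (isOpen_strip 0 S) (convex_strip 0 S).isPreconnected hd h0
    (z := z) ⟨h1, h2⟩ hz₀
  have h4 := h0 _ hz₀
  have h5 : H (((S / 2 : ℝ) : ℂ) + 2 * Real.pi * Complex.I) - H ((S / 2 : ℝ) : ℂ) =
      ((H (((S / 2 : ℝ) : ℂ) + 2 * Real.pi * Complex.I) - H ((S / 2 : ℝ) : ℂ)).im : ℂ) *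
        Complex.I := by
    apply Complex.ext
    · rw [h4]
      simp
    · simp
  rw [← h5, ← h3]
  ring

end Pool.Agent.FB018
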