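import Pool.Agent.Lib.MP_018119_an_FB.LineD
import Pool.Agent.Lib.MP_018119_an_FB.PerMax

/-!
# MP_018119_an, project FB: circle means of test functions and the weak equation

`χ` is holomorphic, `2πi`-periodic and injective modulo the period in the strip `0 < re z < S`, the
potential `P` satisfies `P (χ z) = p * re z`.  Then for test functions `ψ` which vanish on the right
part of the strip the integral of `P * lap ψ` is the limit of `p` times the integrals of `ψ ∘ χ` over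
vertical periods.
-/

set_option autoImplicit false

open Topology Filter Set Metric MeasureTheory
open scoped ContDiff

namespace Pool.Agent.FB018

/-- One period of the strip. -/
def Bx (S : ℝ) : Set ℂ := {z : ℂ | (0 < z.re ∧ z.re < S) ∧ 0 < z.im ∧ z.im ≤ 2 * Real.pi}

theorem measurableSet_Bx (S : ℝ) : MeasurableSet (Bx S) := by
  have h1 : MeasurableSet {z : ℂ | 0 < z.re ∧ z.re < S} := (isOpen_strip 0 S).measurableSet
  have h2 : MeasurableSet {z : ℂ | 0 < z.im ∧ z.im ≤ 2 * Real.pi} :=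
    (measurableSet_lt measurable_const Complex.measurable_im).inter
      (measurableSet_le Complex.measurable_im measurable_const)
  exact h1.inter h2

/-- Fubini coordinates. -/
theorem integral_Bx (S : ℝ) (f : ℂ → ℝ) : ∫ z in Bx S, f z =
    ∫ q in Ioo 0 S ×ˢ Ioc 0 (2 * Real.pi), f ((q.1 : ℂ) + q.2 * Complex.I)
      ∂((volume : Measure ℝ).prod volume) := by
  have h1 := (Complex.volume_preserving_equiv_real_prod.symm).setIntegral_preimage_emb
    (Complex.measurableEquivRealProd.symm.measurableEmbedding) f (Bx S)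
  rw [← h1]
  have h2 : (⇑Complex.measurableEquivRealProd.symm) ⁻¹' (Bx S) =
      Ioo 0 S ×ˢ Ioc 0 (2 * Real.pi) := by
    ext q
    simp [Bx, Complex.measurableEquivRealProd_symm_apply]
  rw [h2]
  refine setIntegral_congr_fun (measurableSet_Ioo.prod measurableSet_Ioc) fun q _ => ?_
  simp only [Complex.measurableEquivRealProd_symm_apply]
  congr 1
  apply Complex.ext <;> simp

theorem integrableOn_Bx (S : ℝ) (f : ℂ → ℝ) : IntegrableOn f (Bx S) ↔
    IntegrableOn (fun q : ℝ × ℝ => f ((q.1 : ℂ) + q.2 * Complex.I))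
      (Ioo 0 S ×ˢ Ioc 0 (2 * Real.pi)) ((volume : Measure ℝ).prod volume) := by
  have h1 := (Complex.volume_preserving_equiv_real_prod.symm).integrableOn_comp_preimage
    (Complex.measurableEquivRealProd.symm.measurableEmbedding) (f := f) (s := Bx S)
  rw [← h1]
  have h2 : (⇑Complex.measurableEquivRealProd.symm) ⁻¹' (Bx S) =
      Ioo 0 S ×ˢ Ioc 0 (2 * Real.pi) := by
    ext q
    simp [Bx, Complex.measurableEquivRealProd_symm_apply]
  rw [h2]
  refine integrableOn_congr_fun (fun q _ => ?_) (measurableSet_Ioo.prod measurableSet_Ioc)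
  simp only [Function.comp, Complex.measurableEquivRealProd_symm_apply]
  congr 1
  apply Complex.ext <;> simp

section

variable {χ : ℂ → ℂ} {ψ : ℂ → ℝ} {S S₁ : ℝ}

theorem line_mem {s θ : ℝ} (hs : s ∈ Ioo 0 S) :
    ((s : ℂ) + θ * Complex.I) ∈ {z : ℂ | 0 < z.re ∧ z.re < S} := by
  simpa using hs

/-- Integrability of the two second derivatives with the weight. -/
theorem strip_intg (h1 : S₁ < S) (hχ : DifferentiableOn ℂ χ {z : ℂ | 0 < z.re ∧ z.re < S})
    (hψ : ContDiff ℝ ∞ ψ) (hψ0 : ∀ z : ℂ, S₁ ≤ z.re → z.re < S → ψ (χ z) = 0) {c : ℝ}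
    (hc : 0 < c) (hc1 : c < S₁) (v : ℂ) :
    IntegrableOn (fun q : ℝ × ℝ => max (q.1 - c) 0 * d2 χ ψ v ((q.1 : ℂ) + q.2 * Complex.I))
      (Ioo 0 S ×ˢ Ioc 0 (2 * Real.pi)) ((volume : Measure ℝ).prod volume) := by
  set S₂ : ℝ := (S₁ + S) / 2 with hS₂
  have h12 : S₁ < S₂ := by rw [hS₂]; linarith
  have h2S : S₂ < S := by rw [hS₂]; linarith
  have hK : IsCompact (Icc c S₂ ×ˢ Icc (0 : ℝ) (2 * Real.pi)) := isCompact_Icc.prod isCompact_Icc
  have hcont : ContinuousOn (fun q : ℝ × ℝ => max (q.1 - c) 0 *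
      d2 χ ψ v ((q.1 : ℂ) + q.2 * Complex.I)) (Icc c S₂ ×ˢ Icc (0 : ℝ) (2 * Real.pi)) := by
    refine ContinuousOn.mul ?_ ?_
    · exact ((continuous_fst.sub continuous_const).max continuous_const).continuousOn
    · refine (continuousOn_d2 (isOpen_strip 0 S) hχ hψ v).comp ?_ ?_
      · have : Continuous fun q : ℝ × ℝ => (q.1 : ℂ) + q.2 * Complex.I := by fun_prop
        exact this.continuousOn
      · intro q hq
        exact line_mem ⟨hc.trans_le hq.1.1, hq.1.2.trans_lt h2S⟩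
  have hI : IntegrableOn (fun q : ℝ × ℝ => max (q.1 - c) 0 *
      d2 χ ψ v ((q.1 : ℂ) + q.2 * Complex.I)) (Icc c S₂ ×ˢ Icc (0 : ℝ) (2 * Real.pi))
      ((volume : Measure ℝ).prod volume) := hcont.integrableOn_compact hK
  refine hI.of_forall_sdiff_eq_zero (measurableSet_Ioo.prod measurableSet_Ioc) ?_
  rintro ⟨s, θ⟩ ⟨⟨hs, hθ⟩, hq⟩
  have hs : s ∈ Ioo 0 S := hs
  have hθ : θ ∈ Ioc 0 (2 * Real.pi) := hθ
  show max (s - c) 0 * d2 χ ψ v ((s : ℂ) + θ * Complex.I) = 0
  rcases le_or_gt s c with h3 | h3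
  · rw [max_eq_right (by linarith), zero_mul]
  · have h4 : S₂ < s := by
      by_contra h5
      push Not at h5
      exact hq ⟨⟨h3.le, h5⟩, ⟨hθ.1.le, hθ.2⟩⟩
    rw [d2_zero (isOpen_strip S₁ S) (hχ.mono fun z hz => ⟨(hc.trans hc1).trans hz.1, hz.2⟩) hψ
      (fun z hz => hψ0 z hz.1.le hz.2) v _ ?_, mul_zero]
    constructor
    · simpa using h12.trans h4
    · simpa using hs.2

/-- Horizontal lines. -/
theorem strip_hor (h1 : S₁ < S) (hχ : DifferentiableOn ℂ χ {z : ℂ | 0 < z.re ∧ z.re < S})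
    (hψ : ContDiff ℝ ∞ ψ) (hψ0 : ∀ z : ℂ, S₁ ≤ z.re → z.re < S → ψ (χ z) = 0) {c : ℝ}
    (hc : 0 < c) (hc1 : c < S₁) (θ : ℝ) :
    ∫ s in Ioo 0 S, max (s - c) 0 * d2 χ ψ 1 ((s : ℂ) + θ * Complex.I) =
      ψ (χ ((c : ℂ) + θ * Complex.I)) := by
  set S₂ : ℝ := (S₁ + S) / 2 with hS₂
  have h12 : S₁ < S₂ := by rw [hS₂]; linarith
  have h2S : S₂ < S := by rw [hS₂]; linarith
  have hc2 : c < S₂ := hc1.trans h12
  have hin : ∀ s ∈ Icc c S₂, ((s : ℂ) + θ * Complex.I) ∈ {z : ℂ | 0 < z.re ∧ z.re < S} :=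
    fun s hs => line_mem ⟨hc.trans_le hs.1, hs.2.trans_lt h2S⟩
  have e : ∀ s : ℝ, (s : ℂ) + θ * Complex.I = θ * Complex.I + s * 1 := fun s => by ring
  have hz : ∀ v : ℂ, ∀ s : ℝ, S₂ ≤ s → s < S → d1 χ ψ v ((s : ℂ) + θ * Complex.I) = 0 ∧
      d2 χ ψ v ((s : ℂ) + θ * Complex.I) = 0 := by
    intro v s hs1 hs2
    have hmem : ((s : ℂ) + θ * Complex.I) ∈ {z : ℂ | S₁ < z.re ∧ z.re < S} := by
      constructor
      · simpa using h12.trans_le hs1
      · simpa using hs2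
    have hχ' : DifferentiableOn ℂ χ {z : ℂ | S₁ < z.re ∧ z.re < S} :=
      hχ.mono fun z hz => ⟨(hc.trans hc1).trans hz.1, hz.2⟩
    exact ⟨d1_zero (isOpen_strip S₁ S) hχ' hψ (fun z hz => hψ0 z hz.1.le hz.2) v _ hmem,
      d2_zero (isOpen_strip S₁ S) hχ' hψ (fun z hz => hψ0 z hz.1.le hz.2) v _ hmem⟩
  -- reduce to `c .. S₂`
  have h3 : ∫ s in Ioo 0 S, max (s - c) 0 * d2 χ ψ 1 ((s : ℂ) + θ * Complex.I) =
      ∫ s in Ioc c S₂, (s - c) * d2 χ ψ 1 ((s : ℂ) + θ * Complex.I) := by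
    have h4 : ∫ s in Ioo 0 S, max (s - c) 0 * d2 χ ψ 1 ((s : ℂ) + θ * Complex.I) =
        ∫ s in Ioc c S₂, max (s - c) 0 * d2 χ ψ 1 ((s : ℂ) + θ * Complex.I) := by
      refine setIntegral_eq_of_subset_of_forall_sdiff_eq_zero measurableSet_Ioo
        (fun s hs => ⟨hc.trans hs.1, hs.2.trans_lt h2S⟩) ?_
      intro s hs
      rcases le_or_gt s c with h5 | h5
      · rw [max_eq_right (by linarith), zero_mul]
      · have h6 : S₂ < s := by
          by_contra h7
          push Not at h7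
          exact hs.2 ⟨h5, h7⟩
        rw [(hz 1 s h6.le hs.1.2).2, mul_zero]
    rw [h4]
    refine setIntegral_congr_fun measurableSet_Ioc fun s hs => ?_
    have : 0 < s - c := by linarith [hs.1]
    rw [max_eq_left this.le]
  rw [h3, ← intervalIntegral.integral_of_le hc2.le]
  have hd : ∀ s ∈ Icc c S₂, HasDerivAt (fun s : ℝ =>
      (s - c) * d1 χ ψ 1 ((s : ℂ) + θ * Complex.I) - ψ (χ ((s : ℂ) + θ * Complex.I)))
      ((s - c) * d2 χ ψ 1 ((s : ℂ) + θ * Complex.I)) s := by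
    intro s hs
    have h4 := hasDerivAt_line (isOpen_strip 0 S) hχ hψ (a := θ * Complex.I) (v := 1) (t := s)
      (by rw [← e]; exact hin s hs)
    have h5 := hasDerivAt_line2 (isOpen_strip 0 S) hχ hψ (a := θ * Complex.I) (v := 1) (t := s)
      (by rw [← e]; exact hin s hs)
    simp only [← e] at h4 h5
    have h6 := (((hasDerivAt_id s).sub_const c).mul h5).sub h4
    refine h6.congr_deriv ?_
    simp
  rw [intervalIntegral.integral_eq_sub_of_hasDerivAt (f := fun s : ℝ =>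
      (s - c) * d1 χ ψ 1 ((s : ℂ) + θ * Complex.I) - ψ (χ ((s : ℂ) + θ * Complex.I)))
      (by rw [uIcc_of_le hc2.le]; exact hd)]
  · rw [(hz 1 S₂ le_rfl h2S).1, hψ0 ((S₂ : ℂ) + θ * Complex.I) (by simpa using h12.le)
      (by simpa using h2S)]
    simp
  · apply ContinuousOn.intervalIntegrable
    rw [uIcc_of_le hc2.le]
    refine ContinuousOn.mul (continuous_id.sub continuous_const).continuousOn ?_
    refine (continuousOn_d2 (isOpen_strip 0 S) hχ hψ 1).comp ?_ hin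
    have : Continuous fun s : ℝ => (s : ℂ) + θ * Complex.I := by fun_prop
    exact this.continuousOn

/-- Vertical periods. -/
theorem strip_ver (hχ : DifferentiableOn ℂ χ {z : ℂ | 0 < z.re ∧ z.re < S})
    (hper : ∀ z : ℂ, 0 < z.re → z.re < S → χ (z + 2 * Real.pi * Complex.I) = χ z)
    (hψ : ContDiff ℝ ∞ ψ) {s : ℝ} (hs : s ∈ Ioo 0 S) :
    ∫ θ in Ioc 0 (2 * Real.pi), d2 χ ψ Complex.I ((s : ℂ) + θ * Complex.I) = 0 := by
  rw [← intervalIntegral.integral_of_le Real.two_pi_pos.le,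
    intervalIntegral.integral_eq_sub_of_hasDerivAt
      (f := fun θ : ℝ => d1 χ ψ Complex.I ((s : ℂ) + θ * Complex.I))]
  · -- periodicity
    have hV := isOpen_strip 0 S
    have h0 : ((s : ℂ) + (0 : ℝ) * Complex.I) ∈ {z : ℂ | 0 < z.re ∧ z.re < S} := line_mem hs
    have h1 : (s : ℂ) + ((2 * Real.pi : ℝ) : ℂ) * Complex.I =
        ((s : ℂ) + (0 : ℝ) * Complex.I) + 2 * Real.pi * Complex.I := by
      push_cast
      ring
    have h2 : deriv χ (((s : ℂ) + (0 : ℝ) * Complex.I) + 2 * Real.pi * Complex.I) =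
        deriv χ ((s : ℂ) + (0 : ℝ) * Complex.I) := by
      have h3 : (fun w => χ (w + 2 * Real.pi * Complex.I)) =ᶠ[𝓝 ((s : ℂ) + (0 : ℝ) * Complex.I)]
          χ := by
        filter_upwards [hV.mem_nhds h0] with w hw
        exact hper w hw.1 hw.2
      have h4 := h3.deriv_eq
      rw [deriv_comp_add_const] at h4
      exact h4
    rw [h1]
    unfold d1
    rw [h2, hper _ h0.1 h0.2, sub_self]
  · intro θ _
    exact hasDerivAt_line2 (isOpen_strip 0 S) hχ hψ (a := s) (v := Complex.I) (t := θ)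
      (line_mem hs)
  · apply ContinuousOn.intervalIntegrable
    refine (continuousOn_d2 (isOpen_strip 0 S) hχ hψ Complex.I).comp ?_ fun θ _ => line_mem hs
    have : Continuous fun θ : ℝ => (s : ℂ) + θ * Complex.I := by fun_prop
    exact this.continuousOn

/-- The truncated integral. -/
theorem strip_trunc (h1 : S₁ < S) (hχ : DifferentiableOn ℂ χ {z : ℂ | 0 < z.re ∧ z.re < S})
    (hper : ∀ z : ℂ, 0 < z.re → z.re < S → χ (z + 2 * Real.pi * Complex.I) = χ z)
    (hψ : ContDiff ℝ ∞ ψ) (hψ0 : ∀ z : ℂ, S₁ ≤ z.re → z.re < S → ψ (χ z) = 0) {c : ℝ}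
    (hc : 0 < c) (hc1 : c < S₁) :
    ∫ z in Bx S, max (z.re - c) 0 * (d2 χ ψ 1 z + d2 χ ψ Complex.I z) =
      ∫ θ in (0 : ℝ)..(2 * Real.pi), ψ (χ ((c : ℂ) + θ * Complex.I)) := by
  have hi1 := strip_intg h1 hχ hψ hψ0 hc hc1 1
  have hi2 := strip_intg h1 hχ hψ hψ0 hc hc1 Complex.I
  rw [integral_Bx]
  have e1 : ∫ q in Ioo 0 S ×ˢ Ioc 0 (2 * Real.pi), max (((q.1 : ℂ) + q.2 * Complex.I).re - c) 0 *
      (d2 χ ψ 1 ((q.1 : ℂ) + q.2 * Complex.I) + d2 χ ψ Complex.I ((q.1 : ℂ) + q.2 * Complex.I))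
      ∂((volume : Measure ℝ).prod volume) =
      (∫ q in Ioo 0 S ×ˢ Ioc 0 (2 * Real.pi), max (q.1 - c) 0 *
        d2 χ ψ 1 ((q.1 : ℂ) + q.2 * Complex.I) ∂((volume : Measure ℝ).prod volume)) +
      ∫ q in Ioo 0 S ×ˢ Ioc 0 (2 * Real.pi), max (q.1 - c) 0 *
        d2 χ ψ Complex.I ((q.1 : ℂ) + q.2 * Complex.I) ∂((volume : Measure ℝ).prod volume) := by
    rw [← integral_add hi1 hi2]
    refine setIntegral_congr_fun (measurableSet_Ioo.prod measurableSet_Ioc) fun q _ => ?_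
    have : ((q.1 : ℂ) + q.2 * Complex.I).re = q.1 := by simp
    rw [this]
    ring
  rw [e1]
  have e2 : ∫ q in Ioo 0 S ×ˢ Ioc 0 (2 * Real.pi), max (q.1 - c) 0 *
        d2 χ ψ Complex.I ((q.1 : ℂ) + q.2 * Complex.I) ∂((volume : Measure ℝ).prod volume) = 0 := by
    rw [setIntegral_prod _ hi2]
    have : ∀ s ∈ Ioo 0 S, ∫ θ in Ioc 0 (2 * Real.pi), max (s - c) 0 *
        d2 χ ψ Complex.I ((s : ℂ) + θ * Complex.I) = 0 := by
      intro s hs
      rw [integral_const_mul, strip_ver hχ hper hψ hs, mul_zero]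
    rw [setIntegral_congr_fun measurableSet_Ioo this]
    simp
  have e3 : ∫ q in Ioo 0 S ×ˢ Ioc 0 (2 * Real.pi), max (q.1 - c) 0 *
        d2 χ ψ 1 ((q.1 : ℂ) + q.2 * Complex.I) ∂((volume : Measure ℝ).prod volume) =
      ∫ θ in Ioc 0 (2 * Real.pi), ∫ s in Ioo 0 S, max (s - c) 0 *
        d2 χ ψ 1 ((s : ℂ) + θ * Complex.I) := by
    rw [← Measure.prod_restrict]
    rw [IntegrableOn, ← Measure.prod_restrict] at hi1
    exact integral_prod_symm _ hi1
  rw [e2, e3, add_zero, intervalIntegral.integral_of_le Real.two_pi_pos.le]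
  refine setIntegral_congr_fun measurableSet_Ioc fun θ _ => ?_
  exact strip_hor h1 hχ hψ hψ0 hc hc1 θ

end

theorem det_smul_one (c : ℂ) : (c • (1 : ℂ →L[ℝ] ℂ)).det = ‖c‖ ^ 2 := by
  have h1 : ((c • (1 : ℂ →L[ℝ] ℂ) : ℂ →L[ℝ] ℂ) : ℂ →ₗ[ℝ] ℂ) = LinearMap.mul ℝ ℂ c := by
    refine LinearMap.ext fun z => ?_
    rfl
  have h2 : (c • (1 : ℂ →L[ℝ] ℂ)).det = Algebra.norm ℝ c := by
    rw [Algebra.norm_apply]
    change LinearMap.det ((c • (1 : ℂ →L[ℝ] ℂ) : ℂ →L[ℝ] ℂ) : ℂ →ₗ[ℝ] ℂ) = _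
    rw [h1]
    rfl
  rw [h2, Algebra.norm_complex_apply, Complex.sq_norm]

/-- **Circle means.** -/
theorem strip_mean {χ : ℂ → ℂ} {P ψ : ℂ → ℝ} {S S₁ p : ℝ} (h0 : 0 < S₁) (h1 : S₁ < S)
    (hχ : DifferentiableOn ℂ χ {z : ℂ | 0 < z.re ∧ z.re < S})
    (hper : ∀ z : ℂ, 0 < z.re → z.re < S → χ (z + 2 * Real.pi * Complex.I) = χ z)
    (hinj : ∀ z w : ℂ, 0 < z.re → z.re < S → 0 < w.re → w.re < S → χ z = χ w →
      ∃ n : ℤ, z = w + n * (2 * Real.pi * Complex.I))
    (hP : ∀ z : ℂ, 0 < z.re → z.re < S → P (χ z) = p * z.re)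
    (hψ : ContDiff ℝ ∞ ψ) (hψ0 : ∀ z : ℂ, S₁ ≤ z.re → z.re < S → ψ (χ z) = 0)
    (hout : ∀ x : ℂ, (∀ z : ℂ, 0 < z.re → z.re < S → χ z ≠ x) → P x * lap ψ x = 0)
    (hint : Integrable fun x => P x * lap ψ x) :
    Tendsto (fun c : ℝ => p * ∫ θ in (0 : ℝ)..(2 * Real.pi), ψ (χ ((c : ℂ) + θ * Complex.I)))
      (𝓝[>] 0) (𝓝 (∫ x, P x * lap ψ x)) := by
  have hV := isOpen_strip 0 S
  have hχd : ∀ z ∈ Bx S, HasDerivAt χ (deriv χ z) z := fun z hz =>
    (hχ.differentiableAt (hV.mem_nhds hz.1)).hasDerivAt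
  have hfd : ∀ z ∈ Bx S, HasFDerivWithinAt χ (deriv χ z • (1 : ℂ →L[ℝ] ℂ)) (Bx S) z :=
    fun z hz => (hχd z hz).complexToReal_fderiv.hasFDerivWithinAt
  have hpern : ∀ (n : ℕ) (z : ℂ), 0 < z.re → z.re < S →
      χ (z + n * (2 * Real.pi * Complex.I)) = χ z := by
    intro n
    induction n with
    | zero => intro z _ _; simp
    | succ n ih =>
      intro z hz1 hz2
      have e : z + ((n + 1 : ℕ) : ℂ) * (2 * Real.pi * Complex.I) =
          (z + n * (2 * Real.pi * Complex.I)) + 2 * Real.pi * Complex.I := by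
        push_cast
        ring
      have e2 : (z + n * (2 * Real.pi * Complex.I)).re = z.re := by simp
      rw [e, hper _ (by rw [e2]; exact hz1) (by rw [e2]; exact hz2), ih z hz1 hz2]
  have hperz : ∀ (n : ℤ) (z : ℂ), 0 < z.re → z.re < S →
      χ (z - n • (2 * Real.pi * Complex.I : ℂ)) = χ z := by
    intro n z hz1 hz2
    rcases Int.eq_nat_or_neg n with ⟨m, hm | hm⟩
    · have h3 := hpern m (z - n • (2 * Real.pi * Complex.I : ℂ)) (by rw [re_period]; exact hz1)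
        (by rw [re_period]; exact hz2)
      rw [← h3]
      congr 1
      rw [hm]
      simp
    · have h3 := hpern m z hz1 hz2
      rw [← h3]
      congr 1
      rw [hm]
      simp
  have hinjB : InjOn χ (Bx S) := by
    intro z hz w hw hzw
    obtain ⟨n, hn⟩ := hinj z w hz.1.1 hz.1.2 hw.1.1 hw.1.2 hzw
    have h3 : z.im = w.im + n * (2 * Real.pi) := by rw [hn]; simp
    have hpi := Real.two_pi_pos
    have h4 : n = 0 := by
      have h5 : (n : ℝ) * (2 * Real.pi) < 1 * (2 * Real.pi) := by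
        have := hz.2.2; have := hw.2.1; linarith
      have h6 : (-1 : ℝ) * (2 * Real.pi) < n * (2 * Real.pi) := by
        have := hz.2.1; have := hw.2.2; linarith
      have h7 : (n : ℝ) < 1 := lt_of_mul_lt_mul_right h5 hpi.le
      have h8 : (-1 : ℝ) < n := lt_of_mul_lt_mul_right h6 hpi.le
      have h9 : n < 1 := by exact_mod_cast h7
      have h10 : -1 < n := by exact_mod_cast h8
      omega
    rw [hn, h4]
    simp
  -- every value is taken in `Bx S`
  have himg : ∀ x : ℂ, x ∉ χ '' Bx S → P x * lap ψ x = 0 := by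
    intro x hx
    apply hout
    intro z hz1 hz2 hzx
    apply hx
    obtain ⟨n, hn1, hn2⟩ := exists_period z
    rcases eq_or_lt_of_le hn1 with h3 | h3
    · -- imaginary part zero: move up by one period
      refine ⟨z - (n - 1) • (2 * Real.pi * Complex.I : ℂ), ⟨⟨?_, ?_⟩, ?_, ?_⟩, ?_⟩
      · rw [re_period]; exact hz1
      · rw [re_period]; exact hz2
      · rw [im_period] at h3 ⊢
        push_cast
        have := Real.two_pi_pos
        linarith
      · rw [im_period] at h3 ⊢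
        push_cast
        linarith
      · rw [hperz _ z hz1 hz2, hzx]
    · refine ⟨z - n • (2 * Real.pi * Complex.I : ℂ), ⟨⟨?_, ?_⟩, h3, hn2.le⟩, ?_⟩
      · rw [re_period]; exact hz1
      · rw [re_period]; exact hz2
      · rw [hperz _ z hz1 hz2, hzx]
  have hcv := integral_image_eq_integral_abs_det_fderiv_smul (volume : Measure ℂ)
    (measurableSet_Bx S) hfd hinjB (fun x => P x * lap ψ x)
  have hci := (integrableOn_image_iff_integrableOn_abs_det_fderiv_smul (volume : Measure ℂ)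
    (measurableSet_Bx S) hfd hinjB (fun x => P x * lap ψ x)).1 hint.integrableOn
  have hpt : ∀ z ∈ Bx S, |(deriv χ z • (1 : ℂ →L[ℝ] ℂ)).det| • (P (χ z) * lap ψ (χ z)) =
      p * (z.re * (d2 χ ψ 1 z + d2 χ ψ Complex.I z)) := by
    intro z hz
    rw [det_smul_one, abs_of_nonneg (sq_nonneg _), hP z hz.1.1 hz.1.2, lap_chain, smul_eq_mul]
    ring
  have hcv2 : ∫ x, P x * lap ψ x =
      ∫ z in Bx S, p * (z.re * (d2 χ ψ 1 z + d2 χ ψ Complex.I z)) := by
    rw [← setIntegral_eq_integral_of_forall_compl_eq_zero himg, hcv]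
    exact setIntegral_congr_fun (measurableSet_Bx S) hpt
  have hint2 : IntegrableOn (fun z : ℂ => p * (z.re * (d2 χ ψ 1 z + d2 χ ψ Complex.I z)))
      (Bx S) := (integrableOn_congr_fun hpt (measurableSet_Bx S)).1 hci
  rw [hcv2]
  have hev : ∀ᶠ c : ℝ in 𝓝[>] 0, c < S₁ := mem_nhdsWithin_of_mem_nhds (Iio_mem_nhds h0)
  have hcongr : (fun c : ℝ => ∫ z in Bx S, p *
      (max (z.re - c) 0 * (d2 χ ψ 1 z + d2 χ ψ Complex.I z))) =ᶠ[𝓝[>] 0]
      fun c : ℝ => p * ∫ θ in (0 : ℝ)..(2 * Real.pi), ψ (χ ((c : ℂ) + θ * Complex.I)) := by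
    filter_upwards [hev, self_mem_nhdsWithin] with c hc1 hc2
    rw [integral_const_mul, strip_trunc h1 hχ hper hψ hψ0 hc2 hc1]
  refine Tendsto.congr' hcongr ?_
  have hmeas : ∀ c : ℝ, AEStronglyMeasurable (fun z : ℂ => p *
      (max (z.re - c) 0 * (d2 χ ψ 1 z + d2 χ ψ Complex.I z))) (volume.restrict (Bx S)) := by
    intro c
    have hc1 : ContinuousOn (fun z : ℂ => p *
      (max (z.re - c) 0 * (d2 χ ψ 1 z + d2 χ ψ Complex.I z))) (Bx S) := by
      refine continuousOn_const.mul (ContinuousOn.mul ?_ ?_)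
      · exact ((Complex.continuous_re.sub continuous_const).max continuous_const).continuousOn
      · exact ((continuousOn_d2 hV hχ hψ 1).add (continuousOn_d2 hV hχ hψ Complex.I)).mono
          fun z hz => hz.1
    exact hc1.aestronglyMeasurable (measurableSet_Bx S)
  refine tendsto_integral_filter_of_dominated_convergence
    (fun z : ℂ => ‖p * (z.re * (d2 χ ψ 1 z + d2 χ ψ Complex.I z))‖)
    (Eventually.of_forall hmeas) ?_ hint2.norm ?_
  · filter_upwards [self_mem_nhdsWithin] with c hc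
    have hc : 0 < c := hc
    filter_upwards [ae_restrict_mem (measurableSet_Bx S)] with z hz
    rw [norm_mul, norm_mul, norm_mul, norm_mul]
    refine mul_le_mul_of_nonneg_left ?_ (norm_nonneg _)
    refine mul_le_mul_of_nonneg_right ?_ (norm_nonneg _)
    rw [Real.norm_eq_abs, Real.norm_eq_abs, abs_of_nonneg (le_max_right _ _), abs_of_pos hz.1.1]
    exact max_le (by linarith) hz.1.1.le
  · filter_upwards [ae_restrict_mem (measurableSet_Bx S)] with z hz
    have h3 : Tendsto (fun c : ℝ => p * (max (z.re - c) 0 *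
        (d2 χ ψ 1 z + d2 χ ψ Complex.I z))) (𝓝 0)
        (𝓝 (p * (max (z.re - 0) 0 * (d2 χ ψ 1 z + d2 χ ψ Complex.I z)))) := by
      have : Continuous fun c : ℝ => p * (max (z.re - c) 0 *
        (d2 χ ψ 1 z + d2 χ ψ Complex.I z)) := by fun_prop
      exact this.tendsto 0
    rw [sub_zero, max_eq_left hz.1.1.le] at h3
    exact h3.mono_left nhdsWithin_le_nhds

end Pool.Agent.FB018
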