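import Mathlib

/-!
# MP_018119_an, project FB, block WELD: half collars in logarithmic coordinates

`HC h ρ b`: `h x y`, `0 < x < b`, is a function with `2π`-periodic second variable (`x` = distance to
the circle in the logarithmic coordinate, `y` = angle), whose two partial derivatives are bounded by
`ρ`, where `∫∫ ρ²` over one period is finite.
-/

set_option autoImplicit false

open Topology Filter Set Metric MeasureTheory

namespace Pool.Agent.FB018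

/-- A half collar of finite area. -/
structure HC (h : ℝ → ℝ → ℂ) (ρ : ℝ → ℝ → ℝ) (b : ℝ) : Prop where
  pos : 0 < b
  nn : ∀ x y, 0 ≤ ρ x y
  dx : ∀ x ∈ Ioo 0 b, ∀ y, ∃ d : ℂ, HasDerivAt (fun s => h s y) d x ∧ ‖d‖ ≤ ρ x y
  dy : ∀ x ∈ Ioo 0 b, ∀ y, ∃ d : ℂ, HasDerivAt (fun s => h x s) d y ∧ ‖d‖ ≤ ρ x y
  cont : ContinuousOn (fun p : ℝ × ℝ => ρ p.1 p.2) (Ioo 0 b ×ˢ univ)
  meas : Measurable (fun p : ℝ × ℝ => ρ p.1 p.2)
  per : ∀ x y, h x (y + 2 * Real.pi) = h x y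
  perρ : ∀ x y, ρ x (y + 2 * Real.pi) = ρ x y
  fin : ∫⁻ y in Ioc 0 (2 * Real.pi), ∫⁻ x in Ioo 0 b, ENNReal.ofReal (ρ x y) ^ 2 ≠ ⊤

/-- The radial limit. -/
noncomputable def rl (h : ℝ → ℝ → ℂ) (y : ℝ) : ℂ := limUnder (𝓝[>] (0 : ℝ)) (fun x => h x y)

/-- A good angle: the radial end has finite length. -/
def Gd (ρ : ℝ → ℝ → ℝ) (b y : ℝ) : Prop := ∫⁻ x in Ioo 0 b, ENNReal.ofReal (ρ x y) ≠ ⊤

/-- The normalised measure of the angles. -/
noncomputable def mu2 : Measure ℝ :=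
  (ENNReal.ofReal (2 * Real.pi))⁻¹ • volume.restrict (Ioc 0 (2 * Real.pi))

end Pool.Agent.FB018
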