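import Pool.Agent.Lib.MP_018119_an_FB.WALen

/-!
# FB, block WELD: radial ends

Almost every radius has finite length, so the radial limit exists.
-/

set_option autoImplicit false

open Topology Filter Set Metric MeasureTheory

namespace Pool.Agent.FB018

/-- `2π`-periodic properties can be checked on one period. -/
theorem ae_of_period {P : ℝ → Prop} (hP : ∀ y, P (y + 2 * Real.pi) ↔ P y)
    (h : ∀ᵐ y ∂(volume.restrict (Ioc 0 (2 * Real.pi))), P y) : ∀ᵐ y : ℝ, P y := by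
  have hper : ∀ n : ℤ, ∀ y, P (n • (2 * Real.pi) + y) ↔ P y := by
    intro n
    induction n using Int.induction_on with
    | zero => intro y; simp
    | succ n ih =>
        intro y
        have h1 : ((n : ℤ) + 1) • (2 * Real.pi) + y = ((n : ℤ) • (2 * Real.pi) + y) + 2 * Real.pi := by
          rw [add_smul, one_smul]; ring
        rw [h1, hP, ih]
    | pred n ih =>
        intro y
        have h1 : (-(n : ℤ)) • (2 * Real.pi) + y =
            ((-(n : ℤ) - 1) • (2 * Real.pi) + y) + 2 * Real.pi := by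
          rw [sub_smul, one_smul]; ring
        rw [← ih y, h1, hP]
  have hfd := isAddFundamentalDomain_Ioc (T := 2 * Real.pi) Real.two_pi_pos 0 volume
  rw [ae_iff]
  refine hfd.measure_zero_of_invariant _ ?_ ?_
  · rintro ⟨g, hg⟩
    obtain ⟨n, rfl⟩ := AddSubgroup.mem_zmultiples_iff.mp hg
    ext y
    constructor
    · rintro ⟨z, hz, rfl⟩
      intro hcon
      exact hz ((hper n z).mp hcon)
    · intro hy
      refine ⟨-(n • (2 * Real.pi)) + y, ?_, ?_⟩
      · intro hcon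
        refine hy ?_
        have h2 := (hper n (-(n • (2 * Real.pi)) + y)).mpr hcon
        rwa [add_neg_cancel_left] at h2
      · show n • (2 * Real.pi) + (-(n • (2 * Real.pi)) + y) = y
        ring
  · rw [zero_add]
    rw [ae_iff, Measure.restrict_apply' measurableSet_Ioc] at h
    exact h

theorem lint_period {G : ℝ → ENNReal} (hG : ∀ y, G (y + 2 * Real.pi) = G y) (c : ℝ) :
    ∫⁻ y in Ioc c (c + 2 * Real.pi), G y = ∫⁻ y in Ioc 0 (2 * Real.pi), G y := by
  have hper : ∀ n : ℤ, ∀ y, G (n • (2 * Real.pi) + y) = G y := by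
    intro n
    induction n using Int.induction_on with
    | zero => intro y; simp
    | succ n ih =>
        intro y
        have h1 : ((n : ℤ) + 1) • (2 * Real.pi) + y = ((n : ℤ) • (2 * Real.pi) + y) + 2 * Real.pi := by
          rw [add_smul, one_smul]; ring
        rw [h1, hG, ih]
    | pred n ih =>
        intro y
        have h1 : (-(n : ℤ)) • (2 * Real.pi) + y =
            ((-(n : ℤ) - 1) • (2 * Real.pi) + y) + 2 * Real.pi := by
          rw [sub_smul, one_smul]; ring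
        rw [← ih y, h1, hG]
  have hfd := isAddFundamentalDomain_Ioc (T := 2 * Real.pi) Real.two_pi_pos 0 volume
  have hfd' := isAddFundamentalDomain_Ioc (T := 2 * Real.pi) Real.two_pi_pos c volume
  have h := hfd'.setLIntegral_eq hfd G ?_
  · rwa [zero_add] at h
  · rintro ⟨g, hg⟩ y
    obtain ⟨n, rfl⟩ := AddSubgroup.mem_zmultiples_iff.mp hg
    exact hper n y

variable {h : ℝ → ℝ → ℂ} {ρ : ℝ → ℝ → ℝ} {b : ℝ}

theorem HC.kmeas (H : HC h ρ b) :
    Measurable (fun p : ℝ × ℝ => ENNReal.ofReal (ρ p.1 p.2)) := H.meas.ennreal_ofReal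

theorem HC.win (H : HC h ρ b) (c : ℝ) :
    ∫⁻ y in Ioc c (c + 2 * Real.pi), ∫⁻ x in Ioo 0 b, ENNReal.ofReal (ρ x y) ^ 2 ≠ ⊤ := by
  rw [lint_period (G := fun y => ∫⁻ x in Ioo 0 b, ENNReal.ofReal (ρ x y) ^ 2)]
  · exact H.fin
  · intro y
    simp only [H.perρ]

theorem HC.gmeas (H : HC h ρ b) (S : Set ℝ) :
    Measurable (fun y => ∫⁻ x in S, ENNReal.ofReal (ρ x y) ^ 2) := by
  have h0 : Measurable (fun p : ℝ × ℝ => ENNReal.ofReal (ρ p.2 p.1) ^ 2) :=
    (H.kmeas.comp measurable_swap).pow_const 2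
  exact h0.lintegral_prod_right'

theorem HC.ae_fin (H : HC h ρ b) :
    ∀ᵐ y : ℝ, ∫⁻ x in Ioo 0 b, ENNReal.ofReal (ρ x y) ^ 2 ≠ ⊤ := by
  refine ae_of_period ?_ ?_
  · intro y
    simp only [H.perρ]
  · have := ae_lt_top (H.gmeas (Ioo 0 b)) H.fin
    filter_upwards [this] with y hy using hy.ne

/-- Almost every angle is good. -/
theorem HC.ae_gd (H : HC h ρ b) : ∀ᵐ y : ℝ, Gd ρ b y := by
  filter_upwards [H.ae_fin] with y hy
  have h1 := cs_sq (volume.restrict (Ioo 0 b)) (f := fun x => ENNReal.ofReal (ρ x y))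
    ((H.kmeas.comp (measurable_id.prodMk measurable_const)).aemeasurable)
  rw [Measure.restrict_apply_univ, Real.volume_Ioo] at h1
  intro hcon
  rw [hcon] at h1
  have h2 : ENNReal.ofReal (b - 0) * ∫⁻ x in Ioo 0 b, ENNReal.ofReal (ρ x y) ^ 2 ≠ ⊤ :=
    ENNReal.mul_ne_top ENNReal.ofReal_ne_top hy
  refine h2 (top_le_iff.mp ?_)
  simpa using h1

/-- Radial pieces. -/
theorem HC.edist_x (H : HC h ρ b) {x x' y : ℝ} (hx : 0 < x) (hxx : x ≤ x') (hx' : x' < b) :
    edist (h x y) (h x' y) ≤ ∫⁻ s in Ioo x x', ENNReal.ofReal (ρ s y) := by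
  refine edist_le_len (f := fun s => h s y) hxx ?_ ?_
  · intro s hs
    exact H.dx s ⟨hx.trans_le hs.1, hs.2.trans_lt hx'⟩ y
  · have h1 : ContinuousOn (fun s : ℝ => ((s, y) : ℝ × ℝ)) (Icc x x') := by fun_prop
    exact H.cont.comp h1 (fun s hs => ⟨⟨hx.trans_le hs.1, hs.2.trans_lt hx'⟩, mem_univ _⟩)

/-- Circular pieces. -/
theorem HC.edist_y (H : HC h ρ b) {x y y' : ℝ} (hx : 0 < x) (hxb : x < b) (hy : y ≤ y') :
    edist (h x y) (h x y') ≤ ∫⁻ s in Ioo y y', ENNReal.ofReal (ρ x s) := by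
  refine edist_le_len (f := fun s => h x s) hy ?_ ?_
  · intro s _
    exact H.dy x ⟨hx, hxb⟩ s
  · have h1 : ContinuousOn (fun s : ℝ => ((x, s) : ℝ × ℝ)) (Icc y y') := by fun_prop
    exact H.cont.comp h1 (fun s _ => ⟨⟨hx, hxb⟩, mem_univ _⟩)

/-- The length of the radial end tends to zero. -/
theorem Gd.tend {y : ℝ} (hb : 0 < b) (hy : Gd ρ b y) :
    Tendsto (fun x => ∫⁻ s in Ioo 0 x, ENNReal.ofReal (ρ s y)) (𝓝[>] (0 : ℝ)) (𝓝 0) := by
  have h1 : Tendsto ((volume.restrict (Ioo 0 b)) ∘ fun x : ℝ => Ioo 0 x) (𝓝[>] (0 : ℝ)) (𝓝 0) := by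
    have h2 : Tendsto (fun x : ℝ => ENNReal.ofReal x) (𝓝[>] (0 : ℝ)) (𝓝 0) := by
      have h3 := (ENNReal.continuous_ofReal.tendsto 0).mono_left
        (nhdsWithin_le_nhds (s := Ioi (0 : ℝ)))
      rwa [ENNReal.ofReal_zero] at h3
    refine tendsto_of_tendsto_of_tendsto_of_le_of_le tendsto_const_nhds h2 (fun _ => bot_le) ?_
    intro x
    show (volume.restrict (Ioo 0 b)) (Ioo 0 x) ≤ ENNReal.ofReal x
    refine (Measure.restrict_apply_le _ _).trans ?_
    rw [Real.volume_Ioo, sub_zero]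
  have h2 := tendsto_setLIntegral_zero (μ := volume.restrict (Ioo 0 b)) hy h1
  refine h2.congr' ?_
  filter_upwards [Ioo_mem_nhdsGT hb] with x hx
  rw [Measure.restrict_restrict measurableSet_Ioo]
  congr 2
  exact inter_eq_left.mpr (Ioo_subset_Ioo_right hx.2.le)

/-- The radial limit exists at good angles. -/
theorem HC.rl_tendsto (H : HC h ρ b) {y : ℝ} (hy : Gd ρ b y) :
    Tendsto (fun x => h x y) (𝓝[>] (0 : ℝ)) (𝓝 (rl h y)) := by
  refine tendsto_nhds_limUnder ?_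
  rw [← cauchy_map_iff_exists_tendsto]
  rw [EMetric.cauchy_iff]
  refine ⟨NeBot.ne inferInstance, fun ε hε => ?_⟩
  have h1 : ∀ᶠ x in 𝓝[>] (0 : ℝ), ∫⁻ s in Ioo 0 x, ENNReal.ofReal (ρ s y) < ε :=
    (hy.tend H.pos).eventually_lt_const hε
  obtain ⟨x₀, hx₀, hx₀b⟩ := (h1.and (Ioo_mem_nhdsGT H.pos)).exists
  refine ⟨(fun x => h x y) '' Ioo 0 x₀, image_mem_map (Ioo_mem_nhdsGT hx₀b.1), ?_⟩
  have key : ∀ x ∈ Ioo 0 x₀, ∀ x' ∈ Ioo 0 x₀, x ≤ x' → edist (h x y) (h x' y) < ε := by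
    intro x hx x' hx' hxx
    refine (H.edist_x hx.1 hxx (hx'.2.trans hx₀b.2)).trans_lt (lt_of_le_of_lt ?_ hx₀)
    exact lintegral_mono_set (Ioo_subset_Ioo hx.1.le hx'.2.le)
  rintro _ ⟨x, hx, rfl⟩ _ ⟨x', hx', rfl⟩
  rcases le_total x x' with h2 | h2
  · exact key x hx x' hx' h2
  · rw [edist_comm]
    exact key x' hx' x hx h2

/-- Distance to the radial limit. -/
theorem HC.edist_rl (H : HC h ρ b) {x y : ℝ} (hy : Gd ρ b y) (hx : 0 < x) (hxb : x < b) :
    edist (rl h y) (h x y) ≤ ∫⁻ s in Ioo 0 x, ENNReal.ofReal (ρ s y) := by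
  have h1 : Tendsto (fun t => edist (h t y) (h x y)) (𝓝[>] (0 : ℝ))
      (𝓝 (edist (rl h y) (h x y))) := (H.rl_tendsto hy).edist tendsto_const_nhds
  refine le_of_tendsto h1 ?_
  filter_upwards [Ioo_mem_nhdsGT hx] with t ht
  exact (H.edist_x ht.1 ht.2.le hxb).trans (lintegral_mono_set (Ioo_subset_Ioo_left ht.1.le))

theorem HC.rl_per (H : HC h ρ b) (y : ℝ) : rl h (y + 2 * Real.pi) = rl h y := by
  simp only [rl, H.per]

theorem HC.cont_y (H : HC h ρ b) {x : ℝ} (hx : 0 < x) (hxb : x < b) :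
    Continuous (fun y => h x y) := by
  rw [continuous_iff_continuousAt]
  intro y
  obtain ⟨d, hd, -⟩ := H.dy x ⟨hx, hxb⟩ y
  exact hd.continuousAt

theorem HC.cont_x (H : HC h ρ b) {x y : ℝ} (hx : 0 < x) (hxb : x < b) :
    ContinuousAt (fun s => h s y) x := by
  obtain ⟨d, hd, -⟩ := H.dx x ⟨hx, hxb⟩ y
  exact hd.continuousAt

/-- The sequence `b / (n + 2)`. -/
theorem seq_tend (hb : 0 < b) : Tendsto (fun n : ℕ => b / ((n : ℝ) + 2)) atTop (𝓝[>] (0 : ℝ)) := by
  rw [tendsto_nhdsWithin_iff]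
  constructor
  · have h1 : Tendsto (fun n : ℕ => ((n : ℝ) + 2)) atTop atTop :=
      tendsto_atTop_add_const_right _ _ tendsto_natCast_atTop_atTop
    exact h1.const_div_atTop b
  · exact Eventually.of_forall fun n => by
      show 0 < b / ((n : ℝ) + 2)
      positivity

theorem seq_lt (hb : 0 < b) (n : ℕ) : b / ((n : ℝ) + 2) < b := by
  have h1 : (0 : ℝ) ≤ n := Nat.cast_nonneg n
  rw [div_lt_iff₀ (by linarith)]
  nlinarith

/-- The radial limit is a.e. measurable. -/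
theorem HC.aem (H : HC h ρ b) : AEMeasurable (rl h) := by
  refine aemeasurable_of_tendsto_metrizable_ae atTop
    (f := fun (n : ℕ) y => h (b / ((n : ℝ) + 2)) y) ?_ ?_
  · intro n
    refine (H.cont_y ?_ (seq_lt H.pos n)).measurable.aemeasurable
    have := H.pos
    positivity
  · filter_upwards [H.ae_gd] with y hy
    exact (H.rl_tendsto hy).comp (seq_tend H.pos)

end Pool.Agent.FB018
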