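import Pool.Agent.Lib.MP_018119_an_FB.WADefs

/-!
# FB, block WELD: lengths
-/

set_option autoImplicit false

open Topology Filter Set Metric MeasureTheory

namespace Pool.Agent.FB018

/-- Distance of the end points is at most the length. -/
theorem edist_le_len {f : ℝ → ℂ} {r : ℝ → ℝ} {a b : ℝ} (hab : a ≤ b)
    (hf : ∀ x ∈ Icc a b, ∃ d : ℂ, HasDerivAt f d x ∧ ‖d‖ ≤ r x) (hr : ContinuousOn r (Icc a b)) :
    edist (f a) (f b) ≤ ∫⁻ x in Ioo a b, ENNReal.ofReal (r x) := by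
  classical
  set r' : ℝ → ℝ := IccExtend hab ((Icc a b).domRestrict r) with hr'
  have hr'c : Continuous r' := by
    rw [hr']
    exact hr.domRestrict.Icc_extend'
  have hr'e : ∀ x ∈ Icc a b, r' x = r x := by
    intro x hx
    rw [hr', IccExtend_of_mem hab _ hx]
    rfl
  choose! d hd using hf
  have hB : ∀ x, HasDerivAt (fun x => ∫ t in a..x, r' t) (r' x) x := fun x =>
    (hr'c.integral_hasStrictDerivAt a x).hasDerivAt
  have hkey : ‖f b - f a‖ ≤ ∫ t in a..b, r' t := by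
    refine image_norm_le_of_norm_deriv_right_le_deriv_boundary (f := fun x => f x - f a)
      (f' := d) (B := fun x => ∫ t in a..x, r' t) (B' := r') (a := a) (b := b) ?_ ?_ ?_ ?_ ?_
      (right_mem_Icc.mpr hab)
    · exact fun x hx => ((hd x hx).1.continuousAt.continuousWithinAt).sub continuousWithinAt_const
    · exact fun x hx => ((hd x (Ico_subset_Icc_self hx)).1.sub_const _).hasDerivWithinAt
    · simp
    · exact hB
    · intro x hx
      have hx' := Ico_subset_Icc_self hx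
      rw [hr'e x hx']
      exact (hd x hx').2
  have hnn : ∀ x ∈ Icc a b, 0 ≤ r' x := by
    intro x hx
    rw [hr'e x hx]
    exact (norm_nonneg _).trans (hd x hx).2
  have hI : ENNReal.ofReal (∫ t in a..b, r' t) = ∫⁻ x in Ioo a b, ENNReal.ofReal (r x) := by
    rw [intervalIntegral.integral_of_le hab, integral_Ioc_eq_integral_Ioo,
      ofReal_integral_eq_lintegral_ofReal]
    · refine setLIntegral_congr_fun measurableSet_Ioo fun x hx => ?_
      show ENNReal.ofReal (r' x) = ENNReal.ofReal (r x)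
      rw [hr'e x (Ioo_subset_Icc_self hx)]
    · exact (hr'c.integrableOn_Icc (a := a) (b := b)).mono_set Ioo_subset_Icc_self
    · refine (ae_restrict_iff' measurableSet_Ioo).mpr (Eventually.of_forall fun x hx => ?_)
      exact hnn x (Ioo_subset_Icc_self hx)
  rw [← hI, edist_comm, edist_dist, dist_eq_norm]
  exact ENNReal.ofReal_le_ofReal hkey

/-- Cauchy-Schwarz. -/
theorem cs_sq {α : Type*} [MeasurableSpace α] (μ : Measure α) {f : α → ENNReal}
    (hf : AEMeasurable f μ) : (∫⁻ a, f a ∂μ) ^ 2 ≤ μ univ * ∫⁻ a, f a ^ 2 ∂μ := by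
  have h := ENNReal.lintegral_mul_le_Lp_mul_Lq μ Real.HolderConjugate.two_two hf
    (g := fun _ => 1) aemeasurable_const
  have h1 : ∫⁻ a, (f * (fun _ => (1 : ENNReal)) : α → ENNReal) a ∂μ = ∫⁻ a, f a ∂μ := by
    refine lintegral_congr fun a => ?_
    simp
  rw [h1] at h
  have key : ∀ x : ENNReal, (x ^ (1 / 2 : ℝ)) ^ (2 : ℕ) = x := by
    intro x
    rw [← ENNReal.rpow_natCast, ← ENNReal.rpow_mul]
    norm_num
  have h2 : ∀ x : ENNReal, x ^ (2 : ℝ) = x ^ (2 : ℕ) := by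
    intro x
    rw [← ENNReal.rpow_natCast]
    norm_num
  simp only [h2, one_pow, lintegral_const, one_mul] at h
  calc (∫⁻ a, f a ∂μ) ^ 2
      ≤ ((∫⁻ a, f a ^ (2 : ℕ) ∂μ) ^ (1 / 2 : ℝ) * (μ univ) ^ (1 / 2 : ℝ)) ^ 2 := by gcongr
    _ = μ univ * ∫⁻ a, f a ^ 2 ∂μ := by rw [mul_pow, key, key, mul_comm]

/-- Chebyshev and Cauchy-Schwarz: most lines are short. -/
theorem cheb {k : ℝ → ℝ → ENNReal} (hk : Measurable (fun p : ℝ × ℝ => k p.1 p.2)) (P Q : Set ℝ)
    (hQ : MeasurableSet Q) (η : ENNReal) :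
    volume {y ∈ Q | η ≤ ∫⁻ x in P, k x y} * η ^ 2 ≤
      volume P * ∫⁻ y in Q, ∫⁻ x in P, k x y ^ 2 := by
  have hm : Measurable (fun y => ∫⁻ x in P, k x y) := by
    have h0 : Measurable (fun p : ℝ × ℝ => k p.2 p.1) := hk.comp measurable_swap
    exact h0.lintegral_prod_right'
  have hm2 : Measurable (fun y => (∫⁻ x in P, k x y) ^ 2) := hm.pow_const 2
  have h1 := mul_meas_ge_le_lintegral (μ := volume.restrict Q) hm2 (η ^ 2)
  have h2 : volume {y ∈ Q | η ≤ ∫⁻ x in P, k x y} ≤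
      (volume.restrict Q) {y | η ^ 2 ≤ (∫⁻ x in P, k x y) ^ 2} := by
    rw [Measure.restrict_apply' hQ]
    refine measure_mono fun y hy => ⟨?_, hy.1⟩
    exact pow_le_pow_left' hy.2 2
  calc volume {y ∈ Q | η ≤ ∫⁻ x in P, k x y} * η ^ 2
      ≤ (volume.restrict Q) {y | η ^ 2 ≤ (∫⁻ x in P, k x y) ^ 2} * η ^ 2 := by gcongr
    _ = η ^ 2 * (volume.restrict Q) {y | η ^ 2 ≤ (∫⁻ x in P, k x y) ^ 2} := mul_comm _ _
    _ ≤ ∫⁻ y in Q, (∫⁻ x in P, k x y) ^ 2 := h1
    _ ≤ ∫⁻ y in Q, volume P * ∫⁻ x in P, k x y ^ 2 := by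
        refine lintegral_mono fun y => ?_
        have h3 := cs_sq (volume.restrict P) (f := fun x => k x y)
          ((hk.comp (measurable_id.prodMk measurable_const)).aemeasurable)
        rwa [Measure.restrict_apply_univ] at h3
    _ = volume P * ∫⁻ y in Q, ∫⁻ x in P, k x y ^ 2 := by
        rw [lintegral_const_mul]
        have h0 : Measurable (fun p : ℝ × ℝ => k p.2 p.1 ^ 2) := (hk.comp measurable_swap).pow_const 2
        exact h0.lintegral_prod_right'

end Pool.Agent.FB018
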